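import Pool.Agent.helper50.BW.DefsM
/-! ## BW-M1 words (pure list/free group lemmas) -/
namespace Pool.Agent.helper50.BW
open Sum

theorem m1_wpow_zero (u : W) : wpow u 0 = [] := by
  simp [wpow]

theorem m1_wpow_one (u : W) : wpow u 1 = u := by
  simp [wpow]

theorem m1_invRev_append (a b : W) :
    FreeGroup.invRev (a ++ b) = FreeGroup.invRev b ++ FreeGroup.invRev a := by
  simp [FreeGroup.invRev]

theorem m1_invRev_nil : FreeGroup.invRev ([] : W) = [] := by
  simp [FreeGroup.invRev]

theorem m1_rep_comm (n : ℕ) (u : W) :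
    (List.replicate n u).flatten ++ u = u ++ (List.replicate n u).flatten := by
  induction n with
  | zero => simp
  | succ n ih =>
    rw [List.replicate_succ, List.flatten_cons, List.append_assoc, ih]

theorem m1_invRev_rep (n : ℕ) (u : W) :
    FreeGroup.invRev (List.replicate n u).flatten =
      (List.replicate n (FreeGroup.invRev u)).flatten := by
  induction n with
  | zero => simp [FreeGroup.invRev]
  | succ n ih =>
    rw [List.replicate_succ, List.flatten_cons, m1_invRev_append, ih, m1_rep_comm,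
      List.replicate_succ, List.flatten_cons]

theorem m1_invRev_wpow (u : W) (s : ℤ) : FreeGroup.invRev (wpow u s) = wpow u (-s) := by
  rcases lt_trichotomy s 0 with h | h | h
  · have h1 : ¬ (0 ≤ s) := by omega
    have h2 : 0 ≤ -s := by omega
    unfold wpow
    rw [if_neg h1, if_pos h2, m1_invRev_rep, FreeGroup.invRev_invRev]
  · subst h
    rw [neg_zero, m1_wpow_zero, m1_invRev_nil]
  · have h1 : 0 ≤ s := by omega
    have h2 : ¬ (0 ≤ -s) := by omega
    unfold wpow
    rw [if_pos h1, if_neg h2, m1_invRev_rep, neg_neg]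

theorem DD_nil (d : ℕ) (w : W) (m : ℕ) : ([] : W) ∈ DD d w m := by
  induction m with
  | zero => exact Or.inl List.nil_infix
  | succ m ih =>
    refine ⟨[], ih, [], ih, [], ih, 0, by simp, ?_⟩
    rw [m1_wpow_zero]
    rfl

theorem m1_DD_succ {d : ℕ} {w : W} {m : ℕ} : DD d w m ⊆ DD d w (m + 1) := by
  intro u hu
  refine ⟨u, hu, [], DD_nil d w m, [], DD_nil d w m, 0, by simp, ?_⟩
  rw [m1_wpow_zero]
  simp

theorem DD_mono {d : ℕ} {w : W} {m m' : ℕ} (h : m ≤ m') : DD d w m ⊆ DD d w m' := by
  induction h with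
  | refl => exact subset_rfl
  | step _ ih => exact ih.trans m1_DD_succ

theorem DD_inv {d : ℕ} {w u : W} {m : ℕ} (h : u ∈ DD d w m) : FreeGroup.invRev u ∈ DD d w m := by
  induction m generalizing u with
  | zero =>
    rcases h with h | h
    · right
      rw [FreeGroup.invRev_invRev]
      exact h
    · left
      exact h
  | succ m ih =>
    obtain ⟨u₁, h₁, u₂, h₂, u₃, h₃, s, hs, rfl⟩ := h
    refine ⟨FreeGroup.invRev u₃, ih h₃, u₂, h₂, FreeGroup.invRev u₁, ih h₁, -s, ?_, ?_⟩
    · rw [abs_neg]
      exact hs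
    · rw [m1_invRev_append, m1_invRev_append, m1_invRev_wpow, List.append_assoc]

theorem m1_take_drop_infix (w : W) (a b : ℕ) : (w.take b).drop a <:+: w :=
  ⟨(w.take b).take a, w.drop b, by rw [List.take_append_drop, List.take_append_drop]⟩

theorem DD_sub {d : ℕ} {w : W} (a b : ℕ) : sub w a b ∈ DD d w 0 := by
  unfold sub
  split_ifs with h
  · exact Or.inl (m1_take_drop_infix w a b)
  · right
    rw [FreeGroup.invRev_invRev]
    exact m1_take_drop_infix w b a

theorem DD_pow {d : ℕ} {w u v t : W} {m : ℕ} {s : ℤ} (hs : |s| ≤ d) (hu : u ∈ DD d w m) (hv : v ∈ DD d w m)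
    (ht : t ∈ DD d w m) : u ++ wpow v s ++ t ∈ DD d w (m + 1) :=
  ⟨u, hu, v, hv, t, ht, s, hs, rfl⟩

theorem DD_app {d : ℕ} {w u v : W} {m : ℕ} (hu : u ∈ DD d w m) (hv : v ∈ DD d w m) :
    u ++ v ∈ DD d w (m + 1) := by
  have h := DD_pow (d := d) (s := 0) (by simp) hu (DD_nil d w m) hv
  rw [m1_wpow_zero, List.append_nil] at h
  exact h

theorem DD_app3 {d : ℕ} (hd : 1 ≤ d) {w u v t : W} {m : ℕ} (hu : u ∈ DD d w m) (hv : v ∈ DD d w m)
    (ht : t ∈ DD d w m) : u ++ v ++ t ∈ DD d w (m + 1) := by
  have h := DD_pow (d := d) (s := 1) (by rw [abs_one]; exact_mod_cast hd) hu hv ht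
  rw [m1_wpow_one] at h
  exact h

theorem m1_mk_rep (n : ℕ) (u : W) :
    FreeGroup.mk (List.replicate n u).flatten = FreeGroup.mk u ^ n := by
  induction n with
  | zero => simp [FreeGroup.one_eq_mk]
  | succ n ih =>
    rw [List.replicate_succ, List.flatten_cons, ← FreeGroup.mul_mk, ih, pow_succ']

theorem mk_wpow (u : W) (s : ℤ) : FreeGroup.mk (wpow u s) = FreeGroup.mk u ^ s := by
  unfold wpow
  split_ifs with h
  · rw [m1_mk_rep, ← zpow_natCast, Int.toNat_of_nonneg h]
  · rw [m1_mk_rep, ← FreeGroup.inv_mk, ← zpow_natCast, Int.toNat_of_nonneg (by omega), inv_zpow,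
      ← zpow_neg, neg_neg]

theorem m1_invRev_length (u : W) : (FreeGroup.invRev u).length = u.length := by
  simp [FreeGroup.invRev]

theorem m1_rep_length (n : ℕ) (u : W) : (List.replicate n u).flatten.length = n * u.length := by
  induction n with
  | zero => simp
  | succ n ih =>
    rw [List.replicate_succ, List.flatten_cons, List.length_append, ih]
    ring

theorem wpow_length (u : W) (s : ℤ) : ((wpow u s).length : ℝ) = |(s : ℝ)| * u.length := by
  unfold wpow
  split_ifs with h
  · rw [m1_rep_length, abs_of_nonneg (by exact_mod_cast h)]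
    have : ((s.toNat : ℤ) : ℝ) = (s : ℝ) := by rw [Int.toNat_of_nonneg h]
    push_cast at this ⊢
    rw [this]
  · have h' : s < 0 := by omega
    rw [m1_rep_length, abs_of_neg (by exact_mod_cast h'), m1_invRev_length]
    have : (((-s).toNat : ℤ) : ℝ) = -(s : ℝ) := by
      rw [Int.toNat_of_nonneg (by omega)]
      push_cast
      ring
    push_cast at this ⊢
    rw [this]

theorem m1_take_sub {w : W} {a b : ℕ} (hab : a ≤ b) : w.take a ++ (w.take b).drop a = w.take b := by
  have h : (w.take b).take a = w.take a := by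
    rw [List.take_take, min_eq_left hab]
  rw [← h]
  exact List.take_append_drop a (w.take b)

theorem pt_sub {G : Type} [Group G] (π : FreeGroup ℕ →* G) {w : W} {a b : ℕ} (ha : a ≤ w.length)
    (hb : b ≤ w.length) : pt π w a * π (FreeGroup.mk (sub w a b)) = pt π w b := by
  unfold pt sub
  split_ifs with h
  · rw [← map_mul, FreeGroup.mul_mk, m1_take_sub h]
  · have h' : b ≤ a := by omega
    rw [← FreeGroup.inv_mk, map_inv, mul_inv_eq_iff_eq_mul, ← map_mul, FreeGroup.mul_mk,
      m1_take_sub h']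

theorem sub_length {w : W} {a b : ℕ} (ha : a ≤ w.length) (hb : b ≤ w.length) :
    ((sub w a b).length : ℝ) = |(b : ℝ) - a| := by
  unfold sub
  split_ifs with h
  · rw [List.length_drop, List.length_take, min_eq_left hb, Nat.cast_sub h, abs_of_nonneg]
    have : (a : ℝ) ≤ b := by exact_mod_cast h
    linarith
  · have h' : b ≤ a := by omega
    rw [m1_invRev_length, List.length_drop, List.length_take, min_eq_left ha, Nat.cast_sub h',
      abs_of_nonpos]
    · ring
    · have : (b : ℝ) ≤ a := by exact_mod_cast h'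
      linarith

theorem sub_split {w : W} {a b : ℕ} (hab : a ≤ b) (hb : b ≤ w.length) :
    w = w.take a ++ sub w a b ++ w.drop b := by
  unfold sub
  rw [if_pos hab, m1_take_sub hab, List.take_append_drop]

/-- consecutive subwords -/
theorem sub_flatten {w : W} (E : ℕ → ℕ) (K : ℕ) (hE : ∀ k < K, E k ≤ E (k + 1)) (hK : E K ≤ w.length) :
    ((List.range K).map fun k => sub w (E k) (E (k + 1))).flatten = sub w (E 0) (E K) := by
  have mono : ∀ k ≤ K, E 0 ≤ E k := by
    intro k
    induction k with
    | zero => intro _; exact le_rfl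
    | succ k ih => intro h; exact (ih (by omega)).trans (hE k (by omega))
  have key : ∀ k ≤ K, w.take (E 0) ++
      ((List.range k).map fun k => sub w (E k) (E (k + 1))).flatten = w.take (E k) := by
    intro k
    induction k with
    | zero => intro _; simp
    | succ k ih =>
      intro h
      rw [List.range_succ, List.map_append, List.flatten_append, ← List.append_assoc,
        ih (by omega)]
      simp only [List.map_cons, List.map_nil, List.flatten_cons, List.flatten_nil,
        List.append_nil]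
      unfold sub
      rw [if_pos (hE k (by omega)), m1_take_sub (hE k (by omega))]
  have h1 := key K le_rfl
  have h2 : w.take (E 0) ++ sub w (E 0) (E K) = w.take (E K) := by
    unfold sub
    rw [if_pos (mono K le_rfl), m1_take_sub (mono K le_rfl)]
  rw [← h2] at h1
  exact List.append_cancel_left h1

theorem Fd_normal (d : ℕ) : (Fd d).Normal := by
  refine ⟨fun n hn g => ?_⟩
  unfold Fd at hn ⊢
  induction hn using Subgroup.closure_induction with
  | mem x hx =>
    obtain ⟨y, rfl⟩ := hx
    apply Subgroup.subset_closure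
    refine ⟨g * y * g⁻¹, ?_⟩
    simp only [conj_pow]
  | one => simp
  | mul x y _ _ hx hy =>
    have e : g * (x * y) * g⁻¹ = (g * x * g⁻¹) * (g * y * g⁻¹) := by group
    rw [e]
    exact Subgroup.mul_mem _ hx hy
  | inv x _ hx =>
    have e : g * x⁻¹ * g⁻¹ = (g * x * g⁻¹)⁻¹ := by group
    rw [e]
    exact Subgroup.inv_mem _ hx

theorem m1_cert_mono {d R n : ℕ} {D D' : Set W} (h : D ⊆ D') {A u : W} (hc : Cert d R n D A u) :
    Cert d R n D' A u := by
  obtain ⟨y, hy, z₀, hz₀, L, hL, hp, he⟩ := hc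
  exact ⟨y, h hy, z₀, h hz₀, L, hL, fun p hpL => ⟨h (hp p hpL).1, h (hp p hpL).2.1,
    (hp p hpL).2.2⟩, he⟩

theorem Move.mono {d R : ℕ} {D D' : Set W} (h : D ⊆ D') {w : W} (hm : Move d R D w) : Move d R D' w := by
  rcases hm with ⟨w₁, A, w₂, u, hw, hu, hl, hc⟩ | ⟨w₁, A, w₂, u, hw, hu, hl, h4, ht⟩
  · exact Or.inl ⟨w₁, A, w₂, u, hw, h hu, hl, m1_cert_mono h hc⟩
  · exact Or.inr ⟨w₁, A, w₂, u, hw, h hu, hl, h4, ht⟩

end Pool.Agent.helper50.BW
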