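import Pool.Agent.helper50.BW.DefsD
import Pool.Agent.helper50.BW.M1
/-! ## BW-D10 programs which build the words of DD (uses DefsD, M1; 300 lines)
num_prog: iZero, then iDbl / iDbl1 for the binary digits (highest first).  DD_prog by induction on m, with the bound
3^m (2 size n + size d + 20) - (size d + 5).  m = 0: num b, iPush, iTake, num a, iDrop (subword: (w.take b).drop a; every infix of w has this
form), iInv for inverses.  m + 1: programs of u₁, u₂ (iInv if s < 0), num |s|, iPow, iCat, program of u₃, iCat; all lengths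
≤ (d+2)^(m+1) |w| ≤ |pad|, so nothing is cut.  iCat: top u, second v ↦ v ++ u. -/
namespace Pool.Agent.helper50.BW

theorem d10_zero (pad : List Unit) (w : W) (mm : Mem) : exec pad w mm iZero = ([], mm.2) := by
  simp [exec]
theorem d10_dbl (pad : List Unit) (w : W) (mm : Mem) :
    exec pad w mm iDbl = ((mm.1 ++ mm.1).take pad.length, mm.2) := by
  simp [exec, iDbl, iZero]
theorem d10_dbl1 (pad : List Unit) (w : W) (mm : Mem) :
    exec pad w mm iDbl1 = ((() :: (mm.1 ++ mm.1)).take pad.length, mm.2) := by
  simp [exec, iDbl1, iDbl, iZero]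
theorem d10_push (pad : List Unit) (w : W) (mm : Mem) :
    exec pad w mm iPush = (mm.1, w :: mm.2) := by
  simp [exec, iPush, iDbl1, iDbl, iZero]
theorem d10_take (pad : List Unit) (w : W) (mm : Mem) :
    exec pad w mm iTake = (mm.1, top1 (fun u => u.take mm.1.length) mm.2) := by
  simp [exec, iTake, iPush, iDbl1, iDbl, iZero]
theorem d10_drop (pad : List Unit) (w : W) (mm : Mem) :
    exec pad w mm iDrop = (mm.1, top1 (fun u => u.drop mm.1.length) mm.2) := by
  simp [exec, iDrop, iTake, iPush, iDbl1, iDbl, iZero]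
theorem d10_inv (pad : List Unit) (w : W) (mm : Mem) :
    exec pad w mm iInv = (mm.1, top1 FreeGroup.invRev mm.2) := by
  simp [exec, iInv, iDrop, iTake, iPush, iDbl1, iDbl, iZero]
theorem d10_cat (pad : List Unit) (w : W) (mm : Mem) :
    exec pad w mm iCat = (mm.1, top2 (fun u v => (v ++ u).take pad.length) mm.2) := by
  simp [exec, iCat, iInv, iDrop, iTake, iPush, iDbl1, iDbl, iZero]
theorem d10_pow (pad : List Unit) (w : W) (mm : Mem) :
    exec pad w mm iPow = (mm.1, top1 (powcap pad mm.1) mm.2) := by
  simp [exec, iPow, iCat, iInv, iDrop, iTake, iPush, iDbl1, iDbl, iZero]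

theorem num_prog (pad : List Unit) (v : ℕ) (hv : v ≤ pad.length) :
    ∃ p : List Ins, p.length ≤ Nat.size v + 1 ∧ ∀ (w : W) (mm : Mem),
      p.foldl (exec pad w) mm = (List.replicate v (), mm.2) := by
  induction v using Nat.strong_induction_on with
  | _ v ih =>
    rcases Nat.eq_zero_or_pos v with h0 | h0
    · subst h0
      refine ⟨[iZero], by simp, fun w mm => ?_⟩
      simp [d10_zero]
    · obtain ⟨p, hp, hq⟩ := ih (v / 2) (by omega) (by omega)
      have hs : Nat.size v = Nat.size (v / 2) + 1 := by
        have h1 : v = Nat.bit (v.bodd) (v.div2) := (Nat.bit_bodd_div2 v).symm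
        have h2 : Nat.bit (v.bodd) (v.div2) ≠ 0 := by rw [← h1]; omega
        have h3 := Nat.size_bit h2
        rw [← h1, Nat.div2_val] at h3
        exact h3
      rcases Nat.even_or_odd' v with ⟨k, hk | hk⟩
      · have hk2 : v / 2 = k := by omega
        refine ⟨p ++ [iDbl], by simp; omega, fun w mm => ?_⟩
        rw [List.foldl_append, hq w mm]
        simp only [List.foldl_cons, List.foldl_nil, d10_dbl]
        rw [← List.replicate_add, List.take_replicate, hk2, hk]
        congr 2
        omega
      · have hk2 : v / 2 = k := by omega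
        refine ⟨p ++ [iDbl1], by simp; omega, fun w mm => ?_⟩
        rw [List.foldl_append, hq w mm]
        simp only [List.foldl_cons, List.foldl_nil, d10_dbl1]
        rw [← List.replicate_add, ← List.replicate_succ, List.take_replicate, hk2, hk]
        congr 2
        omega

theorem d10_wpow_nat (u : W) (s : ℤ) : (wpow u s).length = s.natAbs * u.length := by
  unfold wpow
  split_ifs with h
  · rw [m1_rep_length]
    congr 1
    omega
  · rw [m1_rep_length, m1_invRev_length]
    congr 1
    omega

theorem d10_pow_le (d m n : ℕ) : (d + 2) ^ m * n + d * ((d + 2) ^ m * n) + (d + 2) ^ m * n =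
    (d + 2) ^ (m + 1) * n := by
  rw [pow_succ]; ring

theorem DD_length {d m : ℕ} {w u : W} (hu : u ∈ DD d w m) : u.length ≤ (d + 2) ^ m * w.length := by
  induction m generalizing u with
  | zero =>
    rw [pow_zero, one_mul]
    rcases hu with h | h
    · exact h.length_le
    · have := h.length_le
      rwa [m1_invRev_length] at this
  | succ m ih =>
    obtain ⟨u₁, h₁, u₂, h₂, u₃, h₃, s, hs, rfl⟩ := hu
    rw [List.length_append, List.length_append, d10_wpow_nat, ← d10_pow_le]
    have hs' : s.natAbs ≤ d := by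
      have : (s.natAbs : ℤ) ≤ d := by rw [Int.natCast_natAbs]; exact hs
      exact_mod_cast this
    have h4 : s.natAbs * u₂.length ≤ d * ((d + 2) ^ m * w.length) := Nat.mul_le_mul hs' (ih h₂)
    have := ih h₁
    have := ih h₃
    omega

theorem d10_infix {pad : List Unit} {w u : W} (hu : u <:+: w) (hp : w.length ≤ pad.length) :
    ∃ p : List Ins, p.length ≤ 2 * Nat.size w.length + 5 ∧
      ∀ mm : Mem, ∃ cnt, p.foldl (exec pad w) mm = (cnt, u :: mm.2) := by
  obtain ⟨s, t, rfl⟩ := hu
  set w := s ++ u ++ t with hw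
  have hl : w.length = s.length + u.length + t.length := by
    rw [hw, List.length_append, List.length_append]
  obtain ⟨p₁, hp₁, hq₁⟩ := num_prog pad (s.length + u.length) (by omega)
  obtain ⟨p₂, hp₂, hq₂⟩ := num_prog pad s.length (by omega)
  have hs₁ : Nat.size (s.length + u.length) ≤ Nat.size w.length := Nat.size_le_size (by omega)
  have hs₂ : Nat.size s.length ≤ Nat.size w.length := Nat.size_le_size (by omega)
  refine ⟨p₁ ++ (iPush :: iTake :: (p₂ ++ [iDrop])), ?_, fun mm => ?_⟩
  · simp only [List.length_append, List.length_cons, List.length_nil]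
    omega
  · refine ⟨List.replicate s.length (), ?_⟩
    rw [List.foldl_append, hq₁ w mm]
    simp only [List.foldl_cons, List.foldl_append, List.foldl_nil, d10_push, d10_take, hq₂, d10_drop,
      top1, List.length_replicate]
    congr 2
    rw [hw]
    have e : s.length + u.length = (s ++ u).length := by simp
    rw [e, List.take_left, List.drop_left]

theorem d10_cat_exec {pad : List Unit} {w : W} (c : List Unit) (u v : W) (st : List W)
    (h : v.length + u.length ≤ pad.length) :
    exec pad w (c, u :: v :: st) iCat = (c, (v ++ u) :: st) := by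
  rw [d10_cat]
  simp only [top2]
  rw [List.take_of_length_le (by rw [List.length_append]; exact h)]

theorem d10_wpow {pad : List Unit} {w u : W} {d : ℕ} {s : ℤ} (hs : |s| ≤ d) (hd : d ≤ pad.length)
    (hu : d * u.length ≤ pad.length) :
    ∃ p : List Ins, p.length ≤ Nat.size d + 3 ∧
      ∀ (c : List Unit) (st : List W), ∃ cnt, p.foldl (exec pad w) (c, u :: st) = (cnt, wpow u s :: st) := by
  have hs' : s.natAbs ≤ d := by
    have : (s.natAbs : ℤ) ≤ d := by rw [Int.natCast_natAbs]; exact hs
    exact_mod_cast this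
  obtain ⟨p, hp, hq⟩ := num_prog pad s.natAbs (hs'.trans hd)
  have hsz : Nat.size s.natAbs ≤ Nat.size d := Nat.size_le_size hs'
  have hlen : s.natAbs * u.length ≤ pad.length := (Nat.mul_le_mul_right _ hs').trans hu
  by_cases h : 0 ≤ s
  · refine ⟨p ++ [iPow], by simp; omega, fun c st => ⟨List.replicate s.natAbs (), ?_⟩⟩
    rw [List.foldl_append, hq]
    simp only [List.foldl_cons, List.foldl_nil, d10_pow, top1, powcap, List.length_replicate]
    rw [List.take_of_length_le (by rw [m1_rep_length]; exact hlen)]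
    unfold wpow
    rw [if_pos h]
    have : s.natAbs = s.toNat := by omega
    rw [this]
  · refine ⟨iInv :: (p ++ [iPow]), by simp; omega, fun c st => ⟨List.replicate s.natAbs (), ?_⟩⟩
    rw [List.foldl_cons, List.foldl_append, hq]
    simp only [List.foldl_cons, List.foldl_nil, d10_inv, d10_pow, top1, powcap, List.length_replicate]
    rw [List.take_of_length_le (by rw [m1_rep_length, m1_invRev_length]; exact hlen)]
    unfold wpow
    rw [if_neg h]
    have : s.natAbs = (-s).toNat := by omega
    rw [this]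

theorem d10_aux {d m : ℕ} {pad : List Unit} {w u : W} (hu : u ∈ DD d w m)
    (hp : (d + 2) ^ m * w.length + w.length + d ≤ pad.length) :
    ∃ p : List Ins, p.length + (Nat.size d + 5) ≤ 3 ^ m * (2 * Nat.size w.length + Nat.size d + 20) ∧
      ∀ mm : Mem, ∃ cnt, p.foldl (exec pad w) mm = (cnt, u :: mm.2) := by
  induction m generalizing u with
  | zero =>
    rcases hu with h | h
    · obtain ⟨p, hp, hq⟩ := d10_infix h (pad := pad) (by omega)
      exact ⟨p, by rw [pow_zero, one_mul]; omega, hq⟩
    · obtain ⟨p, hp, hq⟩ := d10_infix h (pad := pad) (by omega)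
      refine ⟨p ++ [iInv], by rw [pow_zero, one_mul, List.length_append]; simp; omega, fun mm => ?_⟩
      obtain ⟨cnt, hc⟩ := hq mm
      refine ⟨cnt, ?_⟩
      rw [List.foldl_append, hc]
      simp only [List.foldl_cons, List.foldl_nil, d10_inv, top1, FreeGroup.invRev_invRev]
  | succ m ih =>
    have hl := DD_length hu
    obtain ⟨u₁, h₁, u₂, h₂, u₃, h₃, s, hs, rfl⟩ := hu
    have e := d10_pow_le d m w.length
    have hp' : (d + 2) ^ m * w.length + w.length + d ≤ pad.length := by omega
    obtain ⟨p₁, hp₁, hq₁⟩ := ih h₁ hp'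
    obtain ⟨p₂, hp₂, hq₂⟩ := ih h₂ hp'
    obtain ⟨p₃, hp₃, hq₃⟩ := ih h₃ hp'
    have hl₂ : d * u₂.length ≤ d * ((d + 2) ^ m * w.length) := Nat.mul_le_mul_left _ (DD_length h₂)
    obtain ⟨p₄, hp₄, hq₄⟩ := d10_wpow (pad := pad) (w := w) (u := u₂) hs (by omega) (by omega)
    rw [List.length_append, List.length_append] at hl
    refine ⟨p₁ ++ (p₂ ++ (p₄ ++ (iCat :: (p₃ ++ [iCat])))), ?_, fun mm => ?_⟩
    · simp only [List.length_append, List.length_cons, List.length_nil]
      rw [pow_succ]
      have e2 : 3 ^ m * 3 * (2 * Nat.size w.length + Nat.size d + 20) =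
          3 * (3 ^ m * (2 * Nat.size w.length + Nat.size d + 20)) := by ring
      rw [e2]
      omega
    · obtain ⟨c₁, hc₁⟩ := hq₁ mm
      obtain ⟨c₂, hc₂⟩ := hq₂ (c₁, u₁ :: mm.2)
      obtain ⟨c₄, hc₄⟩ := hq₄ c₂ (u₁ :: mm.2)
      obtain ⟨c₃, hc₃⟩ := hq₃ (c₄, (u₁ ++ wpow u₂ s) :: mm.2)
      refine ⟨c₃, ?_⟩
      rw [List.foldl_append, hc₁, List.foldl_append, hc₂, List.foldl_append, hc₄, List.foldl_cons,
        d10_cat_exec _ _ _ _ (by omega), List.foldl_append, hc₃, List.foldl_cons, List.foldl_nil,
        d10_cat_exec _ _ _ _ (by rw [List.length_append]; omega)]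

theorem DD_prog {d m : ℕ} {pad : List Unit} {w u : W} (hu : u ∈ DD d w m)
    (hp : (d + 2) ^ m * w.length + w.length + d ≤ pad.length) :
    ∃ p : List Ins, p.length ≤ 3 ^ m * (2 * Nat.size w.length + Nat.size d + 20) ∧
      ∀ mm : Mem, ∃ cnt, p.foldl (exec pad w) mm = (cnt, u :: mm.2) := by
  obtain ⟨p, h1, h2⟩ := d10_aux hu hp
  exact ⟨p, by omega, h2⟩

theorem words_prog {d m : ℕ} {pad : List Unit} {w : W} (hp : (d + 2) ^ m * w.length + w.length + d ≤ pad.length)
    (L : List W) (hL : ∀ u ∈ L, u ∈ DD d w m) :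
    ∃ p : List Ins, p.length ≤ L.length * (3 ^ m * (2 * Nat.size w.length + Nat.size d + 20)) ∧
      (interp pad w p).2 = L := by
  induction L with
  | nil => exact ⟨[], by simp, by simp [interp]⟩
  | cons u L ih =>
    obtain ⟨p, h1, h2⟩ := ih (fun v hv => hL v (List.mem_cons_of_mem _ hv))
    obtain ⟨q, h3, h4⟩ := DD_prog (hL u List.mem_cons_self) hp
    refine ⟨p ++ q, ?_, ?_⟩
    · rw [List.length_append, List.length_cons, add_mul, one_mul]
      omega
    · obtain ⟨cnt, hc⟩ := h4 (p.foldl (exec pad w) ([], []))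
      unfold interp at h2 ⊢
      rw [List.foldl_append, hc, h2]

end Pool.Agent.helper50.BW
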