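import Pool.Agent.helper50.BW.D2
import Pool.Agent.helper50.BW.D10
import Pool.Agent.helper50.BW.M1
/-! ## BW-D11 completeness of certificates (uses D2, D10, M1; 200 lines)
Move, first kind: stack [] :: w₁ :: A :: w₂ :: u :: y :: z₀ :: z₁ :: x₁ :: ... (7 + 2|L| words, all in DD m: w₁, A, w₂ are subwords).
Second kind: f = w (nonempty).  Append iNop up to the length Bn. -/
namespace Pool.Agent.helper50.BW

/-- iNop does nothing -/
theorem d11_nop (pad : List Unit) (w : W) (mm : Mem) : exec pad w mm iNop = mm := by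
  unfold exec iNop iZero iDbl iDbl1 iPush iTake iDrop iInv iCat iPow
  simp

theorem d11_nops (pad : List Unit) (w : W) (k : ℕ) (mm : Mem) :
    (List.replicate k iNop).foldl (exec pad w) mm = mm := by
  induction k generalizing mm with
  | zero => rfl
  | succ k ih => rw [List.replicate_succ, List.foldl_cons, d11_nop, ih]

/-- filling up a program with iNop -/
theorem d11_fill {pad : List Unit} {w : W} {p : List Ins} {Bn : ℕ} (h : p.length ≤ Bn) :
    ∃ c : List Ins, c.length = Bn ∧ (interp pad w c).2 = (interp pad w p).2 := by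
  refine ⟨p ++ List.replicate (Bn - p.length) iNop, ?_, ?_⟩
  · rw [List.length_append, List.length_replicate]; omega
  · unfold interp
    rw [List.foldl_append, d11_nops]

/-- a stack of words of DD is produced by a certificate of length Bn -/
theorem d11_stack {d R m Bn : ℕ} {pad : List Unit} {w : W}
    (hp : (d + 2) ^ m * w.length + w.length + d ≤ pad.length)
    (hB : (7 + 2 * R) * (3 ^ m * (2 * Nat.size w.length + Nat.size d + 20)) ≤ Bn)
    (S : List W) (hS : ∀ u ∈ S, u ∈ DD d w m) (hl : S.length ≤ 7 + 2 * R) :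
    ∃ c : List Ins, c.length = Bn ∧ (interp pad w c).2 = S := by
  obtain ⟨p, hp1, hp2⟩ := words_prog hp S hS
  have h1 : p.length ≤ Bn := le_trans hp1 (le_trans (Nat.mul_le_mul_right _ hl) hB)
  obtain ⟨c, hc1, hc2⟩ := d11_fill (pad := pad) (w := w) h1
  exact ⟨c, hc1, hc2.trans hp2⟩

theorem d11_infix {d m : ℕ} {w u : W} (h : u <:+: w) : u ∈ DD d w m :=
  DD_mono (Nat.zero_le m) (show u ∈ DD d w 0 from Or.inl h)

/-- the list z₁, x₁, z₂, x₂, … -/
def d11_fl (L : List (W × W)) : List W := L.flatMap fun p => [p.1, p.2]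

theorem d11_fl_length (L : List (W × W)) : (d11_fl L).length = 2 * L.length := by
  induction L with
  | nil => rfl
  | cons p L ih =>
    have : d11_fl (p :: L) = p.1 :: p.2 :: d11_fl L := rfl
    rw [this]; simp only [List.length_cons]; omega

theorem d11_fl_mem {L : List (W × W)} {v : W} (h : v ∈ d11_fl L) : ∃ p ∈ L, v = p.1 ∨ v = p.2 := by
  unfold d11_fl at h
  rw [List.mem_flatMap] at h
  obtain ⟨p, hp, hv⟩ := h
  refine ⟨p, hp, ?_⟩
  simpa using hv

/-- evaluation of the list -/
theorem d11_lfold (w : W) (L : List (W × W)) (P : W) (X : List W) :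
    (∀ p ∈ L, 4 * p.2.length ≤ 3 * w.length) →
    ∃ (P' : W) (X' : List W), (d11_fl L).foldl (lstep w) (none, P, X, true) = (none, P', X', true) ∧
      FreeGroup.mk P' = FreeGroup.mk P *
        (L.map fun p => FreeGroup.mk p.1 * FreeGroup.mk p.2 * (FreeGroup.mk p.1)⁻¹).prod ∧
      ∀ x ∈ X', x ∈ X ∨ ∃ p ∈ L, x = p.2 := by
  induction L generalizing P X with
  | nil =>
    intro _
    refine ⟨P, X, rfl, by simp, fun x hx => Or.inl hx⟩
  | cons p L ih =>
    intro h
    have hs : (p.2 ++ p.2 ++ p.2 ++ p.2).length ≤ (w ++ w ++ w).length := by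
      have := h p (by simp)
      simp only [List.length_append]; omega
    obtain ⟨P', X', h1, h2, h3⟩ := ih (P ++ (p.1 ++ p.2 ++ FreeGroup.invRev p.1)) (p.2 :: X)
      (fun q hq => h q (by simp [hq]))
    refine ⟨P', X', ?_, ?_, ?_⟩
    · rw [← h1]
      have e : d11_fl (p :: L) = p.1 :: p.2 :: d11_fl L := rfl
      rw [e, List.foldl_cons, List.foldl_cons]
      simp only [lstep]
      rw [decide_eq_true hs]
      rfl
    · rw [h2]
      simp only [← FreeGroup.mul_mk, FreeGroup.inv_mk, List.map_cons, List.prod_cons, mul_assoc]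
    · intro x hx
      rcases h3 x hx with hx | ⟨q, hq, rfl⟩
      · rcases List.mem_cons.1 hx with rfl | hx
        · exact Or.inr ⟨p, by simp, rfl⟩
        · exact Or.inl hx
      · exact Or.inr ⟨q, by simp [hq], rfl⟩

theorem move_cert {d R m Bn : ℕ} {pad : List Unit} {w : W} (hw : w ≠ []) (hm : Move d R (DD d w m) w)
    (hp : (d + 2) ^ m * w.length + w.length + d ≤ pad.length)
    (hB : (7 + 2 * R) * (3 ^ m * (2 * Nat.size w.length + Nat.size d + 20)) ≤ Bn) :
    ∃ c : List Ins, c.length = Bn ∧ ∃ r, tryC d pad w c = some r ∧ ∀ x ∈ r.1, Triv d x := by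
  rcases hm with ⟨w₁, A, w₂, u, hw', hu, hul, y, hy, z₀, hz₀, L, hLR, hL, hmk⟩ |
    ⟨w₁, A, w₂, u, hw', hu, hul, h4, htr⟩
  · have hw₁ : w₁ ∈ DD d w m := d11_infix ⟨[], A ++ w₂, by rw [hw']; simp⟩
    have hA : A ∈ DD d w m := d11_infix ⟨w₁, w₂, by rw [hw']⟩
    have hw₂ : w₂ ∈ DD d w m := d11_infix ⟨w₁ ++ A, [], by rw [hw']; simp⟩
    obtain ⟨c, hc1, hc2⟩ := d11_stack (R := R) hp hB
      ([] :: w₁ :: A :: w₂ :: u :: y :: z₀ :: d11_fl L) (by
        intro v hv
        simp only [List.mem_cons] at hv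
        rcases hv with rfl | rfl | rfl | rfl | rfl | rfl | rfl | hv
        · exact DD_nil d w m
        · exact hw₁
        · exact hA
        · exact hw₂
        · exact hu
        · exact hy
        · exact hz₀
        · obtain ⟨p, hp', hv | hv⟩ := d11_fl_mem hv
          · rw [hv]; exact (hL p hp').1
          · rw [hv]; exact (hL p hp').2.1) (by
        simp only [List.length_cons, d11_fl_length]; omega)
    obtain ⟨P', X', h1, h2, h3⟩ := d11_lfold w L [] [] (fun p hp' => (hL p hp').2.2.1)
    have hlf : lfold w (d11_fl L) = (none, P', X', true) := h1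
    refine ⟨c, hc1, (X', w₁ ++ u ++ w₂), ?_, ?_⟩
    · unfold tryC
      rw [hc2]
      simp only [tryS, if_true, try1]
      rw [hlf, if_pos]
      refine ⟨hw', hul, rfl, rfl, ?_⟩
      rw [red_eq_iff]
      simp only [← FreeGroup.mul_mk]
      rw [mk_dpow, h2, ← FreeGroup.inv_mk, ← FreeGroup.inv_mk, hmk]
      simp [FreeGroup.one_eq_mk]
    · intro x hx
      rcases h3 x hx with hx | ⟨p, hp', rfl⟩
      · simp at hx
      · exact (hL p hp').2.2.2
  · have hw₁ : w₁ ∈ DD d w m := d11_infix ⟨[], A ++ w₂, by rw [hw']; simp⟩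
    have hA : A ∈ DD d w m := d11_infix ⟨w₁, w₂, by rw [hw']⟩
    have hw₂ : w₂ ∈ DD d w m := d11_infix ⟨w₁ ++ A, [], by rw [hw']; simp⟩
    have hww : w ∈ DD d w m := d11_infix (List.infix_refl w)
    obtain ⟨c, hc1, hc2⟩ := d11_stack (R := R) hp hB
      (w :: w₁ :: A :: w₂ :: u :: []) (by
        intro v hv
        simp only [List.mem_cons, List.not_mem_nil, or_false] at hv
        rcases hv with rfl | rfl | rfl | rfl | rfl
        · exact hww
        · exact hw₁
        · exact hA
        · exact hw₂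
        · exact hu) (by simp only [List.length_cons, List.length_nil]; omega)
    refine ⟨c, hc1, ([w₂ ++ w₁ ++ FreeGroup.invRev u], A ++ u), ?_, ?_⟩
    · unfold tryC
      rw [hc2]
      simp only [tryS]
      rw [if_neg hw]
      simp only [try2]
      rw [if_pos]
      refine ⟨hw', hul, ?_⟩
      simp only [List.length_append] at h4 ⊢
      omega
    · intro x hx
      simp only [List.mem_singleton] at hx
      rw [hx]; exact htr

end Pool.Agent.helper50.BW
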