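import Pool.Agent.helper50.BW.DefsD
/-! ## BW-D12 numerical parameters (Mathlib; 200 lines)
3^(c log_b n) ≤ n^(1/10): (3^(c L))^10 ≤ b^L ≤ n (L = Nat.log b n).  size n ≤ log₂ n + 1 ≤ C n^(1/90), n^(1/9) < rt9 n + 1.
pad: (d+2)^(c log_b n) ≤ (2^(log₂ n))^(c size(d+2)) ≤ n^(c size (d+2)).
final: B ≤ CB (n^(1/9) + 1), h = least number with 3^h n < 4^h is O(log n); log of the total time ≤ C log² (n+2) n^(1/9) ≤ C' (n+1)^(1/8). -/
namespace Pool.Agent.helper50.BW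

theorem rt9_spec (n : ℕ) : rt9 n ^ 9 ≤ n ∧ n < (rt9 n + 1) ^ 9 := by
  constructor
  · exact Nat.findGreatest_spec (P := fun r => r ^ 9 ≤ n) (Nat.zero_le n) (by simp)
  · by_contra h
    have h1 : (rt9 n + 1) ^ 9 ≤ n := not_lt.mp h
    have h2 : rt9 n + 1 ≤ n := (Nat.le_self_pow (by norm_num) _).trans h1
    have h3 : rt9 n + 1 ≤ rt9 n := Nat.le_findGreatest h2 h1
    omega

theorem rt9_mono {m n : ℕ} (h : m ≤ n) : rt9 m ≤ rt9 n := by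
  have h1 := (rt9_spec m).1
  exact Nat.le_findGreatest (((Nat.le_self_pow (by norm_num) _).trans h1).trans h) (h1.trans h)

theorem poly_two_pow (k : ℕ) : ∃ K : ℕ, 1 ≤ K ∧ ∀ s : ℕ, (s + 1) ^ k ≤ K * 2 ^ s := by
  have h := tendsto_pow_const_div_const_pow_of_one_lt k (one_lt_two (α := ℝ))
  obtain ⟨M, hM⟩ := h.bddAbove_range
  refine ⟨⌈2 * M⌉₊ + 1, by omega, fun s => ?_⟩
  have h1 : ((s + 1 : ℕ) : ℝ) ^ k / 2 ^ (s + 1) ≤ M := hM ⟨s + 1, rfl⟩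
  rw [div_le_iff₀ (by positivity)] at h1
  have h2 : (2 * M : ℝ) ≤ ⌈2 * M⌉₊ := Nat.le_ceil _
  have h3 : ((s + 1 : ℕ) : ℝ) ^ k ≤ ((⌈2 * M⌉₊ : ℝ) + 1) * 2 ^ s := by
    have h4 : (0 : ℝ) < 2 ^ s := by positivity
    calc ((s + 1 : ℕ) : ℝ) ^ k ≤ M * 2 ^ (s + 1) := h1
      _ = (2 * M) * 2 ^ s := by ring
      _ ≤ ((⌈2 * M⌉₊ : ℝ) + 1) * 2 ^ s := by
        apply mul_le_mul_of_nonneg_right _ h4.le
        linarith
  exact_mod_cast h3

theorem two_pow_size_le (n : ℕ) : 2 ^ Nat.size n ≤ 2 * (n + 1) := by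
  rcases Nat.eq_zero_or_pos n with rfl | hn
  · simp
  · have h1 : 2 ^ (Nat.size n - 1) ≤ n := by
      rw [← Nat.lt_size]
      have : 0 < Nat.size n := Nat.size_pos.mpr hn
      omega
    have h2 : 0 < Nat.size n := Nat.size_pos.mpr hn
    have h3 : 2 ^ Nat.size n = 2 * 2 ^ (Nat.size n - 1) := by
      rw [← pow_succ']
      congr 1
      omega
    rw [h3]
    omega

theorem exists_CB {b c : ℕ} (C R d : ℕ) (hb : 2 ≤ b) (h : 3 ^ (10 * c) ≤ b) :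
    ∃ CB : ℕ, ∀ n, (7 + 2 * R) * (3 ^ (c * Nat.log b n + C) * (2 * Nat.size n + Nat.size d + 20)) ≤
      CB * (rt9 n + 1) := by
  obtain ⟨K, hK1, hK⟩ := poly_two_pow 90
  refine ⟨(7 + 2 * R) * 3 ^ C * (Nat.size d + 20) * (4 * K), fun n => ?_⟩
  obtain ⟨-, hr⟩ := rt9_spec n
  have hn1 : n + 1 ≤ (rt9 n + 1) ^ 9 := hr
  have hr1 : 1 ≤ rt9 n + 1 := by omega
  -- generalize
  have key : 3 ^ (c * Nat.log b n) * (Nat.size n + 1) ≤ 4 * K * (rt9 n + 1) := by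
    have hx : (3 ^ (c * Nat.log b n)) ^ 10 ≤ (rt9 n + 1) ^ 9 := by
      calc (3 ^ (c * Nat.log b n)) ^ 10 = (3 ^ (10 * c)) ^ Nat.log b n := by
            rw [← pow_mul, ← pow_mul]; congr 1; ring
        _ ≤ b ^ Nat.log b n := Nat.pow_le_pow_left h _
        _ ≤ n + 1 := Nat.pow_log_le_add_one b n
        _ ≤ (rt9 n + 1) ^ 9 := hn1
    have hs : (Nat.size n + 1) ^ 10 ≤ 4 * K * (rt9 n + 1) := by
      apply le_of_pow_le_pow_left₀ (n := 9) (by norm_num) (Nat.zero_le _)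
      calc ((Nat.size n + 1) ^ 10) ^ 9 = (Nat.size n + 1) ^ 90 := by rw [← pow_mul]
        _ ≤ K * 2 ^ Nat.size n := hK _
        _ ≤ K * (2 * (n + 1)) := Nat.mul_le_mul_left _ (two_pow_size_le n)
        _ ≤ K * (2 * (rt9 n + 1) ^ 9) := by gcongr
        _ ≤ (4 * K) ^ 1 * (rt9 n + 1) ^ 9 := by
          rw [pow_one, ← mul_assoc]
          exact Nat.mul_le_mul_right _ (by omega)
        _ ≤ (4 * K) ^ 9 * (rt9 n + 1) ^ 9 :=
          Nat.mul_le_mul_right _ (Nat.pow_le_pow_right (by omega) (by norm_num))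
        _ = (4 * K * (rt9 n + 1)) ^ 9 := (mul_pow _ _ _).symm
    apply le_of_pow_le_pow_left₀ (n := 10) (by norm_num) (Nat.zero_le _)
    calc (3 ^ (c * Nat.log b n) * (Nat.size n + 1)) ^ 10
        = (3 ^ (c * Nat.log b n)) ^ 10 * (Nat.size n + 1) ^ 10 := by rw [mul_pow]
      _ ≤ (rt9 n + 1) ^ 9 * (4 * K * (rt9 n + 1)) := Nat.mul_le_mul hx hs
      _ = (4 * K) ^ 1 * (rt9 n + 1) ^ 10 := by ring
      _ ≤ (4 * K) ^ 10 * (rt9 n + 1) ^ 10 :=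
          Nat.mul_le_mul_right _ (Nat.pow_le_pow_right (by omega) (by norm_num))
      _ = (4 * K * (rt9 n + 1)) ^ 10 := (mul_pow _ _ _).symm
  have h2 : 2 * Nat.size n + Nat.size d + 20 ≤ (Nat.size d + 20) * (Nat.size n + 1) := by
    nlinarith [Nat.zero_le (Nat.size d * Nat.size n)]
  calc (7 + 2 * R) * (3 ^ (c * Nat.log b n + C) * (2 * Nat.size n + Nat.size d + 20))
      ≤ (7 + 2 * R) * (3 ^ (c * Nat.log b n + C) * ((Nat.size d + 20) * (Nat.size n + 1))) := by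
        gcongr
    _ = (7 + 2 * R) * 3 ^ C * (Nat.size d + 20) * (3 ^ (c * Nat.log b n) * (Nat.size n + 1)) := by
        rw [pow_add]; ring
    _ ≤ (7 + 2 * R) * 3 ^ C * (Nat.size d + 20) * (4 * K * (rt9 n + 1)) := by gcongr
    _ = (7 + 2 * R) * 3 ^ C * (Nat.size d + 20) * (4 * K) * (rt9 n + 1) := by ring

theorem exists_pad {b : ℕ} (c C d : ℕ) (hb : 2 ≤ b) :
    ∃ D₀ e : ℕ, ∀ n, (d + 2) ^ (c * Nat.log b n + C) * n + n + d ≤ D₀ * (n + 1) ^ e := by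
  refine ⟨(d + 2) ^ C + d + 1, c * Nat.size (d + 2) + 1, fun n => ?_⟩
  have h1 : (d + 2) ^ (c * Nat.log b n) ≤ (n + 1) ^ (c * Nat.size (d + 2)) := by
    calc (d + 2) ^ (c * Nat.log b n) ≤ (2 ^ Nat.size (d + 2)) ^ (c * Nat.log b n) :=
          Nat.pow_le_pow_left (Nat.lt_size_self _).le _
      _ = (2 ^ Nat.log b n) ^ (c * Nat.size (d + 2)) := by
          rw [← pow_mul, ← pow_mul]; congr 1; ring
      _ ≤ (b ^ Nat.log b n) ^ (c * Nat.size (d + 2)) :=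
          Nat.pow_le_pow_left (Nat.pow_le_pow_left hb _) _
      _ ≤ (n + 1) ^ (c * Nat.size (d + 2)) :=
          Nat.pow_le_pow_left (Nat.pow_log_le_add_one b n) _
  have h2 : 1 ≤ (n + 1) ^ (c * Nat.size (d + 2)) := Nat.one_le_pow _ _ (by omega)
  have h3 : (d + 2) ^ (c * Nat.log b n + C) * n ≤
      (d + 2) ^ C * ((n + 1) ^ (c * Nat.size (d + 2)) * (n + 1)) := by
    rw [pow_add]
    calc (d + 2) ^ (c * Nat.log b n) * (d + 2) ^ C * n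
        = (d + 2) ^ C * ((d + 2) ^ (c * Nat.log b n) * n) := by ring
      _ ≤ (d + 2) ^ C * ((n + 1) ^ (c * Nat.size (d + 2)) * (n + 1)) := by
        gcongr
        omega
  have h4 : n + 1 ≤ (n + 1) ^ (c * Nat.size (d + 2)) * (n + 1) := Nat.le_mul_of_pos_left _ h2
  have h5 : n + d ≤ (d + 1) * (n + 1) := by nlinarith [Nat.zero_le (d * n)]
  calc (d + 2) ^ (c * Nat.log b n + C) * n + n + d
      = (d + 2) ^ (c * Nat.log b n + C) * n + (n + d) := by ring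
    _ ≤ (d + 2) ^ C * ((n + 1) ^ (c * Nat.size (d + 2)) * (n + 1)) +
        (d + 1) * ((n + 1) ^ (c * Nat.size (d + 2)) * (n + 1)) :=
        Nat.add_le_add h3 (h5.trans (Nat.mul_le_mul_left _ h4))
    _ = ((d + 2) ^ C + d + 1) * (n + 1) ^ (c * Nat.size (d + 2) + 1) := by
        rw [pow_succ]; ring

theorem exists_h (n : ℕ) : ∃ h : ℕ, 3 ^ h * n < 4 ^ h ∧ h ≤ 4 * Nat.size n + 4 := by
  refine ⟨4 * Nat.size n, ?_, by omega⟩
  have h1 : n < 2 ^ Nat.size n := Nat.lt_size_self n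
  calc 3 ^ (4 * Nat.size n) * n < 3 ^ (4 * Nat.size n) * 2 ^ Nat.size n :=
        Nat.mul_lt_mul_of_pos_left h1 (by positivity)
    _ = (81 * 2) ^ Nat.size n := by rw [pow_mul, mul_pow]; norm_num
    _ ≤ 256 ^ Nat.size n := Nat.pow_le_pow_left (by norm_num) _
    _ = 4 ^ (4 * Nat.size n) := by rw [pow_mul]; norm_num

theorem le_two_pow_self' (n : ℕ) : n ≤ 2 ^ n := Nat.lt_two_pow_self.le

/-- the natural number bound -/
theorem time_bound_nat (CB D₀ e E : ℕ) : ∃ K : ℕ, ∀ n N : ℕ, N ≤ n →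
    E * ((8 * (CB * (rt9 N + 1) + 1) * 16 ^ (CB * (rt9 N + 1)) * (N + 1)) ^ (4 * Nat.size N + 5) + 1) *
      (E + (D₀ * (N + 1) ^ e + CB * (rt9 N + 1) + 100 * (4 * Nat.size N + 6) * (CB * (rt9 N + 1) + 1) *
        (N + 1) * (4 * n + 6)) + n) ^ E ≤ 2 ^ (K * ((Nat.size n + 1) ^ 2 * (rt9 n + 1))) := by
  obtain ⟨K1, hK1⟩ : ∃ K1 : ℕ, K1 = 6 + 5 * CB := ⟨_, rfl⟩
  obtain ⟨K2, hK2⟩ : ∃ K2 : ℕ, K2 = E + D₀ + e + CB + 20 := ⟨_, rfl⟩
  refine ⟨E + 1 + 5 * K1 + K2 * E, fun n N hN => ?_⟩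
  obtain ⟨s, hs⟩ : ∃ s, s = Nat.size n := ⟨_, rfl⟩
  obtain ⟨ρ, hρ⟩ : ∃ ρ, ρ = rt9 n + 1 := ⟨_, rfl⟩
  obtain ⟨r, hr⟩ : ∃ r, r = rt9 N + 1 := ⟨_, rfl⟩
  rw [← hs, ← hρ, ← hr]
  have hsN : Nat.size N ≤ s := hs ▸ Nat.size_le_size hN
  have hrρ : r ≤ ρ := by rw [hr, hρ]; exact Nat.succ_le_succ (rt9_mono hN)
  have hρ1 : 1 ≤ ρ := by omega
  have hr1 : 1 ≤ r := by omega
  have hn : n + 1 ≤ 2 ^ s := hs ▸ Nat.lt_size_self n
  have hN1 : N + 1 ≤ 2 ^ s := by omega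
  have hrs : r ≤ 2 ^ s := by
    have h1 := (rt9_spec N).1
    have h2 : rt9 N ≤ N := (Nat.le_self_pow (by norm_num) _).trans h1
    omega
  have hss : s ≤ 2 ^ s := le_two_pow_self' s
  have h2s : 1 ≤ 2 ^ s := Nat.one_le_two_pow
  have hCr : CB * r + 1 ≤ 2 ^ (CB + 1 + s) := by
    calc CB * r + 1 ≤ (CB + 1) * r := by nlinarith
      _ ≤ 2 ^ (CB + 1) * 2 ^ s := Nat.mul_le_mul (le_two_pow_self' _) hrs
      _ = 2 ^ (CB + 1 + s) := (pow_add _ _ _).symm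
  -- first factor
  have hA : 8 * (CB * r + 1) * 16 ^ (CB * r) * (N + 1) ≤ 2 ^ (K1 * ((s + 1) * ρ)) := by
    calc 8 * (CB * r + 1) * 16 ^ (CB * r) * (N + 1)
        ≤ 2 ^ 3 * 2 ^ (CB + 1 + s) * 2 ^ (4 * (CB * ρ)) * 2 ^ s := by
          have h16 : 16 ^ (CB * r) ≤ 2 ^ (4 * (CB * ρ)) := by
            have h2 : (2 : ℕ) ^ (4 * (CB * ρ)) = 16 ^ (CB * ρ) := by
              rw [pow_mul (2 : ℕ) 4 (CB * ρ)]; norm_num
            rw [h2]
            exact Nat.pow_le_pow_right (by norm_num) (Nat.mul_le_mul_left _ hrρ)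
          have h8 : 8 ≤ 2 ^ 3 := by norm_num
          exact Nat.mul_le_mul (Nat.mul_le_mul (Nat.mul_le_mul h8 hCr) h16) hN1
      _ = 2 ^ (3 + (CB + 1 + s) + 4 * (CB * ρ) + s) := by
          rw [← pow_add, ← pow_add, ← pow_add]
      _ ≤ 2 ^ (K1 * ((s + 1) * ρ)) := by
          apply Nat.pow_le_pow_right (by norm_num)
          have h1 : s + 1 ≤ (s + 1) * ρ := Nat.le_mul_of_pos_right _ hρ1
          have h2 : ρ ≤ (s + 1) * ρ := Nat.le_mul_of_pos_left _ (Nat.succ_pos s)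
          have h3 : CB * ρ ≤ CB * ((s + 1) * ρ) := Nat.mul_le_mul_left _ h2
          have h4 : CB ≤ CB * ((s + 1) * ρ) :=
            Nat.le_mul_of_pos_right _ (Nat.mul_pos (Nat.succ_pos s) hρ1)
          rw [hK1, add_mul, mul_assoc 5]
          omega
  have hpow : (8 * (CB * r + 1) * 16 ^ (CB * r) * (N + 1)) ^ (4 * Nat.size N + 5) + 1 ≤
      2 ^ (5 * K1 * ((s + 1) ^ 2 * ρ) + 1) := by
    have h1 : (8 * (CB * r + 1) * 16 ^ (CB * r) * (N + 1)) ^ (4 * Nat.size N + 5) ≤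
        2 ^ (5 * K1 * ((s + 1) ^ 2 * ρ)) := by
      calc (8 * (CB * r + 1) * 16 ^ (CB * r) * (N + 1)) ^ (4 * Nat.size N + 5)
          ≤ (2 ^ (K1 * ((s + 1) * ρ))) ^ (4 * Nat.size N + 5) := Nat.pow_le_pow_left hA _
        _ ≤ (2 ^ (K1 * ((s + 1) * ρ))) ^ (5 * (s + 1)) :=
            Nat.pow_le_pow_right (by positivity) (by omega)
        _ = 2 ^ (5 * K1 * ((s + 1) ^ 2 * ρ)) := by
            rw [← pow_mul]; congr 1; ring
    have h2 : 1 ≤ 2 ^ (5 * K1 * ((s + 1) ^ 2 * ρ)) := Nat.one_le_two_pow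
    have h3 : 2 ^ (5 * K1 * ((s + 1) ^ 2 * ρ) + 1) = 2 ^ (5 * K1 * ((s + 1) ^ 2 * ρ)) * 2 :=
      pow_succ _ _
    rw [h3]
    omega
  -- second factor
  have hB : E + (D₀ * (N + 1) ^ e + CB * r + 100 * (4 * Nat.size N + 6) * (CB * r + 1) *
        (N + 1) * (4 * n + 6)) + n ≤ 2 ^ (K2 * (s + 1)) := by
    have hX : ∀ t, t ≤ E + D₀ + e * s + CB + 5 * s + 17 →
        2 ^ t ≤ 2 ^ (E + D₀ + e * s + CB + 5 * s + 17) :=
      fun t ht => Nat.pow_le_pow_right (by norm_num) ht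
    have e1 : E ≤ 2 ^ (E + D₀ + e * s + CB + 5 * s + 17) :=
      (le_two_pow_self' E).trans (hX _ (by omega))
    have e2 : D₀ * (N + 1) ^ e ≤ 2 ^ (E + D₀ + e * s + CB + 5 * s + 17) := by
      calc D₀ * (N + 1) ^ e ≤ 2 ^ D₀ * (2 ^ s) ^ e :=
            Nat.mul_le_mul (le_two_pow_self' _) (Nat.pow_le_pow_left hN1 _)
        _ = 2 ^ (D₀ + e * s) := by rw [← pow_mul, ← pow_add]; congr 1; ring
        _ ≤ _ := hX _ (by omega)
    have e3 : CB * r ≤ 2 ^ (E + D₀ + e * s + CB + 5 * s + 17) := by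
      calc CB * r ≤ CB * r + 1 := Nat.le_succ _
        _ ≤ 2 ^ (CB + 1 + s) := hCr
        _ ≤ _ := hX _ (by omega)
    have e4 : 100 * (4 * Nat.size N + 6) * (CB * r + 1) * (N + 1) * (4 * n + 6) ≤
        2 ^ (E + D₀ + e * s + CB + 5 * s + 17) := by
      have h8 : 2 ^ (s + 3) = 8 * 2 ^ s := by rw [pow_add]; ring
      have f1 : 4 * Nat.size N + 6 ≤ 2 ^ (s + 3) := by
        rw [h8]
        have : s + 1 ≤ 2 ^ s := Nat.lt_two_pow_self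
        omega
      have f2 : 4 * n + 6 ≤ 2 ^ (s + 3) := by rw [h8]; omega
      calc 100 * (4 * Nat.size N + 6) * (CB * r + 1) * (N + 1) * (4 * n + 6)
          ≤ 2 ^ 7 * 2 ^ (s + 3) * 2 ^ (CB + 1 + s) * 2 ^ s * 2 ^ (s + 3) :=
            Nat.mul_le_mul (Nat.mul_le_mul (Nat.mul_le_mul (Nat.mul_le_mul (by norm_num) f1)
              hCr) hN1) f2
        _ = 2 ^ (7 + (s + 3) + (CB + 1 + s) + s + (s + 3)) := by
            rw [← pow_add, ← pow_add, ← pow_add, ← pow_add]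
        _ ≤ _ := hX _ (by omega)
    have e5 : n ≤ 2 ^ (E + D₀ + e * s + CB + 5 * s + 17) :=
      (show n ≤ 2 ^ s by omega).trans (hX _ (by omega))
    have e6 : 8 * 2 ^ (E + D₀ + e * s + CB + 5 * s + 17) ≤ 2 ^ (K2 * (s + 1)) := by
      calc 8 * 2 ^ (E + D₀ + e * s + CB + 5 * s + 17) =
          2 ^ (E + D₀ + e * s + CB + 5 * s + 17 + 3) := by rw [pow_add _ _ 3]; ring
        _ ≤ 2 ^ (K2 * (s + 1)) := by
          apply Nat.pow_le_pow_right (by norm_num)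
          rw [hK2]
          nlinarith [Nat.zero_le (E * s), Nat.zero_le (D₀ * s), Nat.zero_le (CB * s)]
    refine (Nat.add_le_add (Nat.add_le_add e1 (Nat.add_le_add (Nat.add_le_add e2 e3) e4)) e5).trans
      (le_trans ?_ e6)
    generalize 2 ^ (E + D₀ + e * s + CB + 5 * s + 17) = P
    omega
  have hBE : (E + (D₀ * (N + 1) ^ e + CB * r + 100 * (4 * Nat.size N + 6) * (CB * r + 1) *
        (N + 1) * (4 * n + 6)) + n) ^ E ≤ 2 ^ (K2 * E * ((s + 1) ^ 2 * ρ)) := by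
    calc _ ≤ (2 ^ (K2 * (s + 1))) ^ E := Nat.pow_le_pow_left hB _
      _ = 2 ^ (K2 * E * (s + 1)) := by rw [← pow_mul]; congr 1; ring
      _ ≤ 2 ^ (K2 * E * ((s + 1) ^ 2 * ρ)) := by
        apply Nat.pow_le_pow_right (by norm_num)
        apply Nat.mul_le_mul_left
        calc s + 1 ≤ (s + 1) ^ 2 := Nat.le_self_pow (by norm_num) _
          _ ≤ (s + 1) ^ 2 * ρ := Nat.le_mul_of_pos_right _ hρ1
  calc _ ≤ (2 ^ E * 2 ^ (5 * K1 * ((s + 1) ^ 2 * ρ) + 1)) * 2 ^ (K2 * E * ((s + 1) ^ 2 * ρ)) :=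
        Nat.mul_le_mul (Nat.mul_le_mul (le_two_pow_self' E) hpow) hBE
    _ = 2 ^ (E + (5 * K1 * ((s + 1) ^ 2 * ρ) + 1) + K2 * E * ((s + 1) ^ 2 * ρ)) := by
        rw [← pow_add, ← pow_add]
    _ ≤ 2 ^ ((E + 1 + 5 * K1 + K2 * E) * ((s + 1) ^ 2 * ρ)) := by
        apply Nat.pow_le_pow_right (by norm_num)
        have h1 : 1 ≤ (s + 1) ^ 2 * ρ := Nat.mul_pos (by positivity) hρ1
        have h2 : E ≤ E * ((s + 1) ^ 2 * ρ) := Nat.le_mul_of_pos_right _ h1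
        rw [add_mul, add_mul, add_mul, one_mul]
        omega

/-- the total time -/
theorem time_bound (CB D₀ e E : ℕ) : ∃ C : ℝ, ∀ n N : ℕ, N ≤ n →
    ((E * ((8 * (CB * (rt9 N + 1) + 1) * 16 ^ (CB * (rt9 N + 1)) * (N + 1)) ^ (4 * Nat.size N + 5) + 1) *
      (E + (D₀ * (N + 1) ^ e + CB * (rt9 N + 1) + 100 * (4 * Nat.size N + 6) * (CB * (rt9 N + 1) + 1) *
        (N + 1) * (4 * n + 6)) + n) ^ E : ℕ) : ℝ) ≤ Real.exp (C * ((n : ℝ) + 1) ^ (1 / 8 : ℝ)) := by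
  obtain ⟨K, hK⟩ := time_bound_nat CB D₀ e E
  obtain ⟨K', hK'1, hK'⟩ := poly_two_pow 144
  obtain ⟨L, hL⟩ : ∃ L : ℕ, L = K' * 2 * (2 ^ 9) ^ 8 := ⟨_, rfl⟩
  have hL1 : 1 ≤ L := by rw [hL]; exact Nat.mul_pos (by omega) (by positivity)
  refine ⟨K * L, fun n N hN => ?_⟩
  have h1 := hK n N hN
  -- the real bound for `(s+1)^2 ρ`
  have hρ : (rt9 n + 1) ^ 9 ≤ 2 ^ 9 * (n + 1) := by
    have h2 := (rt9_spec n).1
    rcases Nat.eq_zero_or_pos (rt9 n) with h0 | h0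
    · rw [h0]; simp only [zero_add, one_pow]; nlinarith [Nat.zero_le n]
    · calc (rt9 n + 1) ^ 9 ≤ (2 * rt9 n) ^ 9 := Nat.pow_le_pow_left (by omega) _
        _ = 2 ^ 9 * rt9 n ^ 9 := mul_pow _ _ _
        _ ≤ 2 ^ 9 * (n + 1) := Nat.mul_le_mul_left _ (by omega)
  have hy : ((Nat.size n + 1) ^ 2 * (rt9 n + 1)) ^ 72 ≤ L * (n + 1) ^ 9 := by
    calc ((Nat.size n + 1) ^ 2 * (rt9 n + 1)) ^ 72
        = (Nat.size n + 1) ^ 144 * ((rt9 n + 1) ^ 9) ^ 8 := by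
          rw [mul_pow, ← pow_mul, ← pow_mul]
      _ ≤ (K' * (2 * (n + 1))) * (2 ^ 9 * (n + 1)) ^ 8 :=
          Nat.mul_le_mul ((hK' _).trans (Nat.mul_le_mul_left _ (two_pow_size_le n)))
            (Nat.pow_le_pow_left hρ _)
      _ = K' * 2 * (2 ^ 9) ^ 8 * (n + 1) ^ 9 := by rw [mul_pow]; ring
      _ = L * (n + 1) ^ 9 := by rw [hL]
  have hyR : (((Nat.size n + 1) ^ 2 * (rt9 n + 1) : ℕ) : ℝ) ≤
      L * ((n : ℝ) + 1) ^ (1 / 8 : ℝ) := by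
    have hpos : (0 : ℝ) ≤ (n : ℝ) + 1 := by positivity
    have h8 : (((n : ℝ) + 1) ^ (1 / 8 : ℝ)) ^ 72 = ((n : ℝ) + 1) ^ 9 := by
      rw [← Real.rpow_natCast, ← Real.rpow_mul hpos, ← Real.rpow_natCast]
      congr 1
      norm_num
    apply le_of_pow_le_pow_left₀ (n := 72) (by norm_num) (by positivity)
    rw [mul_pow, h8]
    have hy' : ((((Nat.size n + 1) ^ 2 * (rt9 n + 1) : ℕ) : ℝ)) ^ 72 ≤
        (L : ℝ) * ((n : ℝ) + 1) ^ 9 := by exact_mod_cast hy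
    refine hy'.trans (mul_le_mul_of_nonneg_right ?_ (by positivity))
    exact le_self_pow₀ (by exact_mod_cast hL1) (by norm_num)
  calc ((E * ((8 * (CB * (rt9 N + 1) + 1) * 16 ^ (CB * (rt9 N + 1)) * (N + 1)) ^ (4 * Nat.size N + 5) + 1) *
      (E + (D₀ * (N + 1) ^ e + CB * (rt9 N + 1) + 100 * (4 * Nat.size N + 6) * (CB * (rt9 N + 1) + 1) *
        (N + 1) * (4 * n + 6)) + n) ^ E : ℕ) : ℝ)
      ≤ ((2 ^ (K * ((Nat.size n + 1) ^ 2 * (rt9 n + 1))) : ℕ) : ℝ) := by exact_mod_cast h1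
    _ = (2 : ℝ) ^ (K * ((Nat.size n + 1) ^ 2 * (rt9 n + 1))) := by push_cast; ring
    _ ≤ Real.exp 1 ^ (K * ((Nat.size n + 1) ^ 2 * (rt9 n + 1))) := by
        apply pow_le_pow_left₀ (by norm_num)
        have := Real.add_one_le_exp (1 : ℝ)
        linarith
    _ = Real.exp (((K * ((Nat.size n + 1) ^ 2 * (rt9 n + 1)) : ℕ) : ℝ)) := by
        rw [← Real.exp_nat_mul, mul_one]
    _ ≤ Real.exp (K * L * ((n : ℝ) + 1) ^ (1 / 8 : ℝ)) := by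
        apply Real.exp_le_exp.mpr
        rw [Nat.cast_mul, mul_assoc]
        exact mul_le_mul_of_nonneg_left hyR (Nat.cast_nonneg _)

end Pool.Agent.helper50.BW
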