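import Pool.Agent.helper50.BW.D1
/-! ## BW-D13 parsing and start state in FP (uses D1; 300 lines)
undig: dig (undig l) = l, so the code of undig l is the code of l: FP.congr_enc.  parse: foldl.  parse_spec: induction on the word from the
right end.  Unary numbers: lists of units; product: map and flatten (foldl of append); power e: induction on e; rt9: foldl over the list of n
units, state r (unary): if |(r+1)^9| ≤ n then r + 1. -/
namespace Pool.Agent.helper50.BW

/-- the number with binary digits l and a leading 1 -/
private def d13v (l : List Bool) : ℕ := l.foldr (fun b n => 2 * n + b.toNat) 1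

private theorem d13v_cons (b : Bool) (l : List Bool) : d13v (b :: l) = 2 * d13v l + b.toNat := rfl

private theorem d13v_pos (l : List Bool) : 0 < d13v l := by
  induction l with
  | nil => exact Nat.one_pos
  | cons b l ih =>
    rw [d13v_cons]
    omega

private theorem d13v_bits (l : List Bool) : Nat.bits (d13v l) = l ++ [true] := by
  induction l with
  | nil => exact Nat.one_bits
  | cons b l ih =>
    have h : d13v (b :: l) = Nat.bit b (d13v l) := by
      rw [d13v_cons, Nat.bit_val]
    rw [h, Nat.bits_append_bit _ _ (fun h0 => absurd h0 (d13v_pos l).ne'), ih, List.cons_append]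

theorem dig_undig (l : List Bool) : dig (undig l) = l := by
  have h : undig l + 1 = d13v l := Nat.sub_add_cancel (d13v_pos l)
  unfold dig
  rw [h, d13v_bits, List.dropLast_concat]

theorem undig_dig (n : ℕ) : undig (dig n) = n := dig_inj (dig_undig (dig n))

private theorem d13_digits (ds : List Bool) (ws : W) (s : List Bool) :
    (((ds.map fun b => if b then A4.i else A4.o).map sy2)).foldl pstep (ws, s) =
      (ws, ds.reverse ++ s) := by
  induction ds generalizing s with
  | nil => rfl
  | cons b ds ih =>
    rw [List.map_cons, List.map_cons, List.foldl_cons]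
    have : pstep (ws, s) (sy2 (if b then A4.i else A4.o)) = (ws, b :: s) := by
      cases b <;> rfl
    rw [this, ih, List.reverse_cons, List.append_assoc]
    rfl

private theorem d13_code (a : ℕ × Bool) (ws : W) :
    (((code a).map sy2).reverse).foldl pstep (ws, []) = (a :: ws, []) := by
  obtain ⟨n, b⟩ := a
  have h1 : ((code (n, b)).map sy2).reverse =
      (((dig n).map fun b => if b then A4.i else A4.o).map sy2) ++
        [sy2 (if b then A4.x else A4.y)] := by
    simp only [code, List.map_cons, List.reverse_cons, ← List.map_reverse, List.reverse_reverse]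
  rw [h1, List.foldl_append, d13_digits, List.foldl_cons, List.foldl_nil, List.append_nil]
  cases b
  · change ((undig (dig n).reverse.reverse, false) :: ws, ([] : List Bool)) = _
    rw [List.reverse_reverse, undig_dig]
  · change ((undig (dig n).reverse.reverse, true) :: ws, ([] : List Bool)) = _
    rw [List.reverse_reverse, undig_dig]

private theorem d13_enc (w : W) :
    (((encW w).map sy2).reverse).foldl pstep ([], []) = (w, []) := by
  induction w with
  | nil => rfl
  | cons a w ih =>
    have h : ((encW (a :: w)).map sy2).reverse =
        ((encW w).map sy2).reverse ++ ((code a).map sy2).reverse := by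
      simp [encW]
    rw [h, List.foldl_append, ih, d13_code]

theorem parse_spec (w : W) : parse ((encW w).map sy2) = w := by
  unfold parse
  rw [d13_enc]

private theorem d13_one_le (C x : ℕ) : 1 ≤ (C + x) ^ C := by
  rcases Nat.eq_zero_or_pos C with rfl | h
  · simp
  · exact Nat.one_le_pow _ _ (by omega)

private theorem d13_lin {C x y : ℕ} (A B : ℕ) (h : y ≤ (C + x) ^ C) :
    A * y + B ≤ (C + A + B + 1 + x) ^ (C + A + B + 1) := by
  have h1 := d13_one_le C x
  calc A * y + B ≤ A * (C + x) ^ C + B * (C + x) ^ C :=
        Nat.add_le_add (Nat.mul_le_mul_left _ h) (Nat.le_mul_of_pos_right _ h1)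
    _ = (A + B) * (C + x) ^ C := by ring
    _ ≤ (C + A + B + 1 + x) * (C + A + B + 1 + x) ^ C :=
        Nat.mul_le_mul (by omega) (Nat.pow_le_pow_left (by omega) _)
    _ = (C + A + B + 1 + x) ^ (C + 1) := by ring
    _ ≤ (C + A + B + 1 + x) ^ (C + A + B + 1) := Nat.pow_le_pow_right (by omega) (by omega)

private theorem d13_self (x : ℕ) : x ≤ (1 + x) ^ 1 := by
  rw [pow_one]
  omega

variable {α β : Type} [Enc α] [Enc β]

private theorem d13_szB (b : Bool) : sz b ≤ 3 := by
  cases b
  · simp [sz, es_false]
  · simp [sz, es_true]

private theorem d13_szrev (l : List β) : sz l.reverse = sz l := by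
  rw [sz_list, sz_list, List.map_reverse, List.sum_reverse]

private theorem FP.undig {f : α → List Bool} (hf : FP f) : FP (fun a => undig (f a)) :=
  FP.congr_enc (f := f) (fun a => by
    change encL (f a) = encL (dig (Pool.Agent.helper50.BW.undig (f a)))
    rw [dig_undig]) hf

private theorem d13_szundig (l : List Bool) : sz (undig l) = sz l := by
  change (encL (dig (undig l))).str.length = (encL l).str.length
  rw [dig_undig]

private theorem d13_pstep (s : W × List Bool) (c : Bool × Bool) : sz (pstep s c) ≤ sz s + 6 := by
  obtain ⟨ws, ds⟩ := s
  obtain ⟨c1, c2⟩ := c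
  cases c1
  · change sz (ws, c2 :: ds) ≤ _
    rw [sz_pair, sz_pair, sz_cons]
    have := d13_szB c2
    omega
  · change sz ((Pool.Agent.helper50.BW.undig ds.reverse, !c2) :: ws, ([] : List Bool)) ≤ _
    rw [sz_pair, sz_pair, sz_cons, sz_pair, sz_nil, d13_szundig, d13_szrev]
    have := d13_szB (!c2)
    omega

private theorem d13_fold (l : List (Bool × Bool)) (s : W × List Bool) :
    sz (l.foldl pstep s) ≤ sz s + 6 * l.length := by
  induction l generalizing s with
  | nil => simp
  | cons c l ih =>
    rw [List.foldl_cons, List.length_cons]
    have h1 := ih (pstep s c)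
    have h2 := d13_pstep s c
    omega

theorem FP.parse : FP parse := by
  have hstep : FP (fun p : List (Bool × Bool) × (W × List Bool) × (Bool × Bool) =>
      pstep p.2.1 p.2.2) := by
    have hs : FP (fun p : List (Bool × Bool) × (W × List Bool) × (Bool × Bool) => p.2.1) :=
      FP.comp (g := fun q : (W × List Bool) × (Bool × Bool) => q.1) FP.fst FP.snd
    have hc : FP (fun p : List (Bool × Bool) × (W × List Bool) × (Bool × Bool) => p.2.2) :=
      FP.comp (g := fun q : (W × List Bool) × (Bool × Bool) => q.2) FP.snd FP.snd
    have hs1 : FP (fun p : List (Bool × Bool) × (W × List Bool) × (Bool × Bool) => p.2.1.1) :=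
      FP.comp (g := fun q : W × List Bool => q.1) FP.fst hs
    have hs2 : FP (fun p : List (Bool × Bool) × (W × List Bool) × (Bool × Bool) => p.2.1.2) :=
      FP.comp (g := fun q : W × List Bool => q.2) FP.snd hs
    have hc1 : FP (fun p : List (Bool × Bool) × (W × List Bool) × (Bool × Bool) => p.2.2.1) :=
      FP.comp (g := fun q : Bool × Bool => q.1) FP.fst hc
    have hc2 : FP (fun p : List (Bool × Bool) × (W × List Bool) × (Bool × Bool) => p.2.2.2) :=
      FP.comp (g := fun q : Bool × Bool => q.2) FP.snd hc
    exact FP.bcond hc1
      (FP.pair (FP.cons (FP.pair (FP.undig (FP.reverse hs2)) (FP.bnot hc2)) hs1) (FP.const []))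
      (FP.pair hs1 (FP.cons hc2 hs2))
  have hfold := FP.foldl (l := fun a : List (Bool × Bool) => a.reverse)
    (g := fun _ => (([], []) : W × List Bool))
    (h := fun p : List (Bool × Bool) × (W × List Bool) × (Bool × Bool) => pstep p.2.1 p.2.2)
    (FP.reverse FP.idf) (FP.const _) hstep
    ⟨_, fun a k => by
      refine le_trans ?_ (d13_lin 6 3 (d13_self (sz a)))
      have h1 := d13_fold (a.reverse.take k) (([], []) : W × List Bool)
      have h2 : sz (([], []) : W × List Bool) = 3 := rfl
      have h3 : (a.reverse.take k).length ≤ a.length := by
        rw [List.length_take, List.length_reverse]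
        exact min_le_right _ _
      have h4 := length_le_sz a
      have h5 : sz ((a.reverse.take k).foldl (fun s b => pstep s b) (([], []) : W × List Bool)) ≤
        sz (([], []) : W × List Bool) + 6 * (a.reverse.take k).length := h1
      change sz ((a.reverse.take k).foldl (fun s b => pstep s b) (([], []) : W × List Bool)) ≤ _
      omega⟩
  exact FP.comp (g := fun q : W × List Bool => q.1) FP.fst hfold

/-! ### unary arithmetic -/

private theorem d13_uext {l l' : List Unit} (h : l.length = l'.length) : l = l' := by
  have h1 : l = List.replicate l.length () :=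
    (List.eq_replicate_length (a := ())).2 fun b _ => rfl
  have h2 : l' = List.replicate l'.length () :=
    (List.eq_replicate_length (a := ())).2 fun b _ => rfl
  rw [h1, h2, h]

private theorem d13_szu (l : List Unit) : sz l = 1 + 2 * l.length := by
  induction l with
  | nil => rfl
  | cons b l ih =>
    have h : sz b = 1 := rfl
    rw [sz_cons, ih, List.length_cons, h]
    ring

private theorem FP.ucongr {f g : α → List Unit} (h : ∀ a, (f a).length = (g a).length)
    (hf : FP f) : FP g := by
  have : g = f := funext fun a => d13_uext (h a).symm
  rw [this]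
  exact hf

private theorem d13_mulfold (l : List Unit) (u s : List Unit) :
    (l.foldl (fun s _ => s ++ u) s).length = s.length + l.length * u.length := by
  induction l generalizing s with
  | nil => simp
  | cons b l ih =>
    rw [List.foldl_cons, ih, List.length_append, List.length_cons]
    ring

private theorem FP.umul {f g : α → List Unit} (hf : FP f) (hg : FP g) :
    FP (fun a => List.replicate ((f a).length * (g a).length) ()) := by
  have hh : FP (fun p : α × List Unit × Unit => p.2.1 ++ g p.1) :=
    FP.append (FP.comp (g := fun q : List Unit × Unit => q.1) FP.fst FP.snd) (FP.comp hg FP.fst)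
  have hfold := FP.foldl (l := f) (g := fun _ => ([] : List Unit))
    (h := fun p : α × List Unit × Unit => p.2.1 ++ g p.1) hf (FP.const _) hh (by
      obtain ⟨C1, hC1, -⟩ := id hf
      obtain ⟨C2, hC2, -⟩ := id hg
      refine ⟨C1 + C2 + 2 + 2 + 1 + 1, fun a k => ?_⟩
      have h1 : (f a).length * (g a).length ≤ (C1 + C2 + 2 + sz a) ^ (C1 + C2 + 2) := by
        refine le_trans (Nat.mul_le_mul ?_ ?_) poly_mul
        · exact (length_le_sz (f a)).le.trans (hC1 a)
        · exact (length_le_sz (g a)).le.trans (hC2 a)
      refine le_trans ?_ (d13_lin 2 1 h1)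
      change sz (((f a).take k).foldl (fun s _ => s ++ g a) ([] : List Unit)) ≤ _
      rw [d13_szu, d13_mulfold, List.length_nil, zero_add]
      have h2 : ((f a).take k).length ≤ (f a).length := by
        rw [List.length_take]
        exact min_le_right _ _
      have h3 := Nat.mul_le_mul_right (g a).length h2
      omega)
  refine FP.ucongr (fun a => ?_) hfold
  change ((f a).foldl (fun s _ => s ++ g a) ([] : List Unit)).length = _
  rw [d13_mulfold, List.length_nil, zero_add, List.length_replicate]

private theorem FP.upow {f : α → List Unit} (hf : FP f) (e : ℕ) :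
    FP (fun a => List.replicate ((f a).length ^ e) ()) := by
  induction e with
  | zero =>
    exact FP.ucongr (f := fun _ => [()]) (fun a => by simp) (FP.const _)
  | succ e ih =>
    refine FP.ucongr (fun a => ?_) (FP.umul ih hf)
    rw [List.length_replicate, List.length_replicate, List.length_replicate, pow_succ]

private theorem FP.ucmul {f : α → List Unit} (hf : FP f) (c : ℕ) :
    FP (fun a => List.replicate (c * (f a).length) ()) := by
  refine FP.ucongr (fun a => ?_) (FP.umul (FP.const (List.replicate c ())) hf)
  rw [List.length_replicate, List.length_replicate, List.length_replicate]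

/-- one step of the computation of the ninth root -/
private def d13r (n : ℕ) (s : List Unit) : List Unit :=
  if (s.length + 1) ^ 9 ≤ n then () :: s else s

private theorem d13_rfold (n k : ℕ) : ∀ l : List Unit, l.length = k →
    (l.foldl (fun s _ => d13r n s) []).length = Nat.findGreatest (fun r => r ^ 9 ≤ n) k := by
  induction k with
  | zero =>
    intro l hl
    rw [List.eq_nil_of_length_eq_zero hl]
    rfl
  | succ k ih =>
    intro l hl
    have hl' : l = l.dropLast ++ [()] := by
      have hne : l ≠ [] := by
        intro h
        rw [h] at hl
        simp at hl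
      exact d13_uext (by
        rw [List.length_append, List.length_dropLast, List.length_singleton]
        omega)
    have h1 := ih l.dropLast (by rw [List.length_dropLast]; omega)
    rw [hl', List.foldl_append, List.foldl_cons, List.foldl_nil]
    generalize (l.dropLast.foldl (fun s _ => d13r n s) []) = s at h1
    unfold d13r
    rw [Nat.findGreatest_succ]
    have h2 : s.length ≤ k := by
      rw [h1]
      exact Nat.findGreatest_le k
    by_cases hk : (k + 1) ^ 9 ≤ n
    · rw [if_pos hk]
      have h3 : s.length = k := by
        rw [h1]
        refine le_antisymm (Nat.findGreatest_le k) (Nat.le_findGreatest le_rfl ?_)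
        exact (Nat.pow_le_pow_left (Nat.le_succ k) 9).trans hk
      rw [h3, if_pos hk, List.length_cons, h3]
    · rw [if_neg hk, ← h1, if_neg]
      intro h3
      rcases Nat.lt_or_ge s.length k with h4 | h4
      · have := Nat.le_findGreatest (P := fun r => r ^ 9 ≤ n) (n := k)
          (show s.length + 1 ≤ k from h4) h3
        omega
      · have h5 : s.length = k := le_antisymm h2 h4
        rw [h5] at h3
        exact hk h3

private theorem d13_rlen (n : ℕ) (l s : List Unit) :
    (l.foldl (fun s _ => d13r n s) s).length ≤ s.length + l.length := by
  induction l generalizing s with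
  | nil => simp
  | cons b l ih =>
    rw [List.foldl_cons, List.length_cons]
    have h := ih (d13r n s)
    have h2 : (d13r n s).length ≤ s.length + 1 := by
      unfold d13r
      split_ifs
      · simp
      · omega
    omega

private theorem FP.urt {f : α → List Unit} (hf : FP f) :
    FP (fun a => List.replicate (rt9 (f a).length) ()) := by
  have hs : FP (fun p : α × List Unit × Unit => p.2.1) :=
    FP.comp (g := fun q : List Unit × Unit => q.1) FP.fst FP.snd
  have hp9 : FP (fun p : α × List Unit × Unit =>
      List.replicate ((() :: p.2.1 : List Unit).length ^ 9) ()) :=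
    FP.upow (f := fun p : α × List Unit × Unit => () :: p.2.1) (FP.cons (FP.const ()) hs) 9
  have hh : FP (fun p : α × List Unit × Unit => d13r (f p.1).length p.2.1) := by
    have hle := FP.leLen hp9 (FP.comp hf (FP.fst : FP (fun p : α × List Unit × Unit => p.1)))
    have hle' : FP (fun p : α × List Unit × Unit =>
        decide ((p.2.1.length + 1) ^ 9 ≤ (f p.1).length)) := by
      have e : (fun p : α × List Unit × Unit =>
          decide ((List.replicate ((() :: p.2.1 : List Unit).length ^ 9) ()).length ≤
            (f p.1).length)) = (fun p : α × List Unit × Unit =>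
          decide ((p.2.1.length + 1) ^ 9 ≤ (f p.1).length)) := by
        funext p
        rw [List.length_replicate, List.length_cons]
      rw [← e]
      exact hle
    exact FP.ite hle' (FP.cons (FP.const ()) hs) hs
  have hfold := FP.foldl (l := f) (g := fun _ => ([] : List Unit))
    (h := fun p : α × List Unit × Unit => d13r (f p.1).length p.2.1) hf (FP.const _) hh (by
      obtain ⟨C1, hC1, -⟩ := id hf
      refine ⟨C1 + 2 + 1 + 1, fun a k => ?_⟩
      refine le_trans ?_ (d13_lin 2 1 ((length_le_sz (f a)).le.trans (hC1 a)))
      change sz (((f a).take k).foldl (fun s _ => d13r (f a).length s) ([] : List Unit)) ≤ _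
      rw [d13_szu]
      have h1 := d13_rlen (f a).length ((f a).take k) []
      have h2 : ((f a).take k).length ≤ (f a).length := by
        rw [List.length_take]
        exact min_le_right _ _
      rw [List.length_nil] at h1
      omega)
  refine FP.ucongr (fun a => ?_) hfold
  change ((f a).foldl (fun s _ => d13r (f a).length s) ([] : List Unit)).length = _
  rw [d13_rfold (f a).length (f a).length (f a) rfl, List.length_replicate]
  rfl

theorem FP.initX (D₀ e CB : ℕ) : FP (initX D₀ e CB) := by
  have hu : FP (fun w : W => w.map fun _ => ()) :=
    FP.map (h := fun _ : W × (ℕ × Bool) => ()) (FP.const ()) FP.idf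
  have h1 : FP (fun w : W => List.replicate (D₀ * (w.length + 1) ^ e) ()) := by
    refine FP.ucongr (fun w => ?_) (FP.ucmul (FP.upow (FP.cons (FP.const ()) hu) e) D₀)
    rw [List.length_replicate, List.length_replicate, List.length_replicate, List.length_cons,
      List.length_map]
  have h2 : FP (fun w : W => List.replicate (CB * (rt9 w.length + 1)) ()) := by
    refine FP.ucongr (fun w => ?_) (FP.ucmul (FP.cons (FP.const ()) (FP.urt hu)) CB)
    rw [List.length_replicate, List.length_replicate, List.length_cons, List.length_replicate,
      List.length_map]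
  exact FP.pair h1 (FP.pair h2 (FP.pair (FP.const none) (FP.pair (FP.osome FP.idf)
    (FP.const []))))

theorem sz_initX (D₀ e CB : ℕ) (w : W) :
    sz (initX D₀ e CB w) ≤ 2 * (D₀ * (w.length + 1) ^ e) + 2 * (CB * (rt9 w.length + 1)) + 2 * sz w + 20 := by
  have h1 : sz (none : Option Bool) = 1 := rfl
  have h2 : sz (some w) = 2 + sz w := by
    unfold sz
    rw [es_some]
    simp only [List.length_cons]
    omega
  have h3 : sz ([] : List Frame) = 1 := rfl
  unfold initX
  rw [sz_pair, sz_pair, d13_szu, d13_szu, List.length_replicate, List.length_replicate, sz_pair,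
    sz_pair, h1, h2, h3]
  omega

end Pool.Agent.helper50.BW
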