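import Pool.Agent.helper50.BW.D1
/-! ## BW-D5 enumeration of certificates (uses D1; 200 lines)
vI a := a.1 + 2 a.2.1 + 4 a.2.2.1 + 8 a.2.2.2, val l := vI a + 16 val l' for l = a :: l'.  incI: vI (incI true a).2 + 16 carry = vI a + 1,
incI false a = (false, a).  nextC: val increases by one, same length; none iff val = 16^length - 1.  So from replicate B iNop (val 0) every list
of length B is reached: iterate.  enum: strong form used by the machine. -/
namespace Pool.Agent.helper50.BW


variable {α : Type} [Enc α]
/-- value of a certificate, first instruction lowest -/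
def cval : List Ins → ℕ
  | [] => 0
  | a :: l => (a.1.toNat + 2 * a.2.1.toNat + 4 * a.2.2.1.toNat + 8 * a.2.2.2.toNat) + 16 * cval l

private theorem toNat_le (b : Bool) : b.toNat ≤ 1 := by cases b <;> simp

private theorem toNat_inj' {b b' : Bool} (h : b.toNat = b'.toNat) : b = b' := by
  cases b <;> cases b' <;> simp_all

theorem cval_lt (c : List Ins) : cval c < 16 ^ c.length := by
  induction c with
  | nil => simp [cval]
  | cons a l ih =>
    have h1 := toNat_le a.1
    have h2 := toNat_le a.2.1
    have h3 := toNat_le a.2.2.1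
    have h4 := toNat_le a.2.2.2
    simp only [cval, List.length_cons, pow_succ]
    omega

theorem cval_inj {c c' : List Ins} (h : c.length = c'.length) (h' : cval c = cval c') : c = c' := by
  induction c generalizing c' with
  | nil =>
    cases c' with
    | nil => rfl
    | cons a l => simp at h
  | cons a l ih =>
    cases c' with
    | nil => simp at h
    | cons a' l' =>
      simp only [List.length_cons, add_left_inj] at h
      simp only [cval] at h'
      have h1 := toNat_le a.1
      have h2 := toNat_le a.2.1
      have h3 := toNat_le a.2.2.1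
      have h4 := toNat_le a.2.2.2
      have g1 := toNat_le a'.1
      have g2 := toNat_le a'.2.1
      have g3 := toNat_le a'.2.2.1
      have g4 := toNat_le a'.2.2.2
      have e1 : a.1.toNat = a'.1.toNat := by omega
      have e2 : a.2.1.toNat = a'.2.1.toNat := by omega
      have e3 : a.2.2.1.toNat = a'.2.2.1.toNat := by omega
      have e4 : a.2.2.2.toNat = a'.2.2.2.toNat := by omega
      have e5 : cval l = cval l' := by omega
      rw [ih h e5]
      congr 1
      exact Prod.ext (toNat_inj' e1) (Prod.ext (toNat_inj' e2)
        (Prod.ext (toNat_inj' e3) (toNat_inj' e4)))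

private theorem incI_val (b : Bool) (a : Ins) :
    ((incI b a).2.1.toNat + 2 * (incI b a).2.2.1.toNat + 4 * (incI b a).2.2.2.1.toNat +
      8 * (incI b a).2.2.2.2.toNat) + 16 * (incI b a).1.toNat =
    (a.1.toNat + 2 * a.2.1.toNat + 4 * a.2.2.1.toNat + 8 * a.2.2.2.toNat) + b.toNat := by
  obtain ⟨a1, a2, a3, a4⟩ := a
  cases b <;> cases a1 <;> cases a2 <;> cases a3 <;> cases a4 <;> rfl

private theorem foldl_nextS (c : List Ins) : ∀ (b : Bool) (acc : List Ins), ∃ (cr : Bool) (l : List Ins),
    c.foldl nextS (b, acc) = (cr, l.reverse ++ acc) ∧ l.length = c.length ∧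
      cval l + 16 ^ c.length * cr.toNat = cval c + b.toNat := by
  induction c with
  | nil =>
    intro b acc
    exact ⟨b, [], by simp, rfl, by simp [cval]⟩
  | cons a c ih =>
    intro b acc
    obtain ⟨cr, l, h1, h2, h3⟩ := ih (incI b a).1 ((incI b a).2 :: acc)
    refine ⟨cr, (incI b a).2 :: l, ?_, by simp [h2], ?_⟩
    · simp only [List.foldl_cons, nextS]
      rw [h1]
      simp
    · have h4 := incI_val b a
      simp only [cval, List.length_cons, pow_succ]
      have h5 : 16 ^ c.length * 16 * cr.toNat = 16 * (16 ^ c.length * cr.toNat) := by ring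
      rw [h5]
      omega

theorem nextC_some {c c' : List Ins} (h : nextC c = some c') : c'.length = c.length ∧ cval c' = cval c + 1 := by
  obtain ⟨cr, l, h1, h2, h3⟩ := foldl_nextS c true []
  simp only [nextC, h1, List.append_nil, List.reverse_reverse] at h
  cases cr with
  | true => simp at h
  | false =>
    simp only [Bool.false_eq_true, if_false, Option.some.injEq] at h
    subst h
    simp only [Bool.toNat_false, mul_zero, add_zero, Bool.toNat_true] at h3
    exact ⟨h2, h3⟩

theorem nextC_none {c : List Ins} (h : nextC c = none) : cval c + 1 = 16 ^ c.length := by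
  obtain ⟨cr, l, h1, h2, h3⟩ := foldl_nextS c true []
  simp only [nextC, h1, List.append_nil, List.reverse_reverse] at h
  cases cr with
  | false => simp at h
  | true =>
    simp only [Bool.toNat_true, mul_one] at h3
    have h4 := cval_lt c
    omega

theorem cval_nop (B : List Unit) : cval (B.map fun _ => iNop) = 0 := by
  induction B with
  | nil => rfl
  | cons a l ih =>
    simp only [List.map_cons, cval, ih]
    rfl

private theorem FP_incI {f : α → Bool} {g : α → Ins} (hf : FP f) (hg : FP g) :
    FP (fun a => incI (f a) (g a)) := by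
  have g1 : FP (fun a => (g a).1) := FP.comp FP.fst hg
  have g' : FP (fun a => (g a).2) := FP.comp FP.snd hg
  have g2 : FP (fun a => (g a).2.1) := FP.comp FP.fst g'
  have g'' : FP (fun a => (g a).2.2) := FP.comp FP.snd g'
  have g3 : FP (fun a => (g a).2.2.1) := FP.comp FP.fst g''
  have g4 : FP (fun a => (g a).2.2.2) := FP.comp FP.snd g''
  have c1 := FP.band hf g1
  have c2 := FP.band c1 g2
  have c3 := FP.band c2 g3
  exact FP.pair (FP.band c3 g4) (FP.pair (FP.bxor hf g1) (FP.pair (FP.bxor c1 g2)
    (FP.pair (FP.bxor c2 g3) (FP.bxor c3 g4))))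

private theorem sz_bool (b : Bool) : sz b ≤ 3 := by
  cases b
  · simp [sz, es_false]
  · simp [sz, es_true]

private theorem sz_ins (a : Ins) : sz a ≤ 15 := by
  obtain ⟨a1, a2, a3, a4⟩ := a
  have h1 := sz_bool a1
  have h2 := sz_bool a2
  have h3 := sz_bool a3
  have h4 := sz_bool a4
  rw [sz_pair, sz_pair, sz_pair]
  omega

private theorem foldl_nextS_len (c : List Ins) (b : Bool) (acc : List Ins) :
    (c.foldl nextS (b, acc)).2.length = c.length + acc.length := by
  obtain ⟨cr, l, h1, h2, h3⟩ := foldl_nextS c b acc
  rw [h1]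
  simp [h2]

theorem FP.nextC {c : α → List Ins} (hc : FP c) : FP (fun a => nextC (c a)) := by
  have hfold : FP (fun a => (c a).foldl nextS (true, [])) := by
    have hh : FP (fun p : α × (Bool × List Ins) × Ins => nextS p.2.1 p.2.2) := by
      have p2 : FP (fun p : α × (Bool × List Ins) × Ins => p.2) := FP.snd
      have p21 : FP (fun p : α × (Bool × List Ins) × Ins => p.2.1) := FP.comp FP.fst p2
      have p22 : FP (fun p : α × (Bool × List Ins) × Ins => p.2.2) := FP.comp FP.snd p2
      have p211 : FP (fun p : α × (Bool × List Ins) × Ins => p.2.1.1) := FP.comp FP.fst p21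
      have p212 : FP (fun p : α × (Bool × List Ins) × Ins => p.2.1.2) := FP.comp FP.snd p21
      have hi := FP_incI p211 p22
      exact FP.pair (FP.comp FP.fst hi) (FP.cons (FP.comp FP.snd hi) p212)
    refine FP.foldl (l := c) (g := fun _ => ((true, []) : Bool × List Ins))
      (h := fun p => nextS p.2.1 p.2.2) hc (FP.const _) hh ?_
    obtain ⟨C, hC, -⟩ := hc
    refine ⟨21 + C + 2, fun a k => ?_⟩
    have h1 := foldl_nextS_len ((c a).take k) true []
    obtain ⟨cr, l, e1, e2, -⟩ := foldl_nextS ((c a).take k) true []
    have h2 : sz (((c a).take k).foldl nextS (true, [])) ≤ 5 + 16 * (c a).length := by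
      rw [e1, sz_pair]
      have h3 : sz (l.reverse ++ ([] : List Ins)) ≤
          1 + (l.reverse ++ ([] : List Ins)).length * (15 + 1) := sz_le_mul fun b _ => sz_ins b
      have h4 : (l.reverse ++ ([] : List Ins)).length ≤ (c a).length := by
        simp only [List.append_nil, List.length_reverse, e2, List.length_take]
        omega
      have h5 := sz_bool cr
      omega
    have h3 : (c a).length < sz (c a) := length_le_sz _
    have h4 := hC a
    have h5 : 21 ≤ (21 + sz a) ^ 21 :=
      (Nat.le_add_right 21 (sz a)).trans (Nat.le_self_pow (by norm_num) _)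
    have h6 : 5 + 16 * (c a).length ≤ 21 * (C + sz a) ^ C := by omega
    calc sz (((c a).take k).foldl nextS (true, [])) ≤ 5 + 16 * (c a).length := h2
      _ ≤ 21 * (C + sz a) ^ C := h6
      _ ≤ (21 + sz a) ^ 21 * (C + sz a) ^ C := Nat.mul_le_mul_right _ h5
      _ ≤ (21 + C + 2 + sz a) ^ (21 + C + 2) := poly_mul
  have h1 : FP (fun a => ((c a).foldl nextS (true, [])).1) := FP.comp FP.fst hfold
  have h2 : FP (fun a => ((c a).foldl nextS (true, [])).2) := FP.comp FP.snd hfold
  have h3 : FP (fun a => decide (((c a).foldl nextS (true, [])).1 = true)) :=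
    FP.eq h1 (FP.const true)
  exact FP.ite (p := fun a => ((c a).foldl nextS (true, [])).1 = true) h3 (FP.const none)
    (FP.osome (FP.reverse h2))

end Pool.Agent.helper50.BW
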