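import Pool.Agent.helper50.BW.D4
import Pool.Agent.helper50.BW.D5
/-! ## BW-D6 the step of the machine is in FP (uses D4, D5; 150 lines) -/
namespace Pool.Agent.helper50.BW

section D6
variable {α β : Type} [Enc α] [Enc β]

theorem d6_ext {f g : α → β} (hf : FP f) (h : ∀ a, g a = f a) : FP g := by
  have h' : g = f := funext h
  rw [h']
  exact hf

theorem d6_adv {w : α → W} {c : α → List Ins} {fs : α → List Frame} (hw : FP w) (hc : FP c)
    (hfs : FP fs) : FP (fun a => adv (w a) (c a) (fs a)) := by
  refine d6_ext (FP.casesOption (f := fun a => nextC (c a))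
    (g := fun a => ((some false, none, fs a) : SS))
    (h := fun p : α × List Ins => ((none, none, (w p.1, p.2, none) :: fs p.1) : SS))
    (FP.nextC hc) (FP.pair (FP.const _) (FP.pair (FP.const _) hfs))
    (FP.pair (FP.const _) (FP.pair (FP.const _)
      (FP.cons (FP.pair (hw.comp FP.fst) (FP.pair FP.snd (FP.const none))) (hfs.comp FP.fst))))) ?_
  intro a
  unfold adv
  cases nextC (c a) <;> rfl

theorem d6_stepF (d : ℕ) {pad : α → List Unit} {f : α → Frame} {fs : α → List Frame}
    (hp : FP pad) (hf : FP f) (hfs : FP fs) : FP (fun a => stepF d (pad a) (f a) (fs a)) := by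
  have hf1 : FP (fun a => (f a).1) := FP.fst.comp hf
  have hf2 : FP (fun a => (f a).2) := FP.snd.comp hf
  have hf21 : FP (fun a => (f a).2.1) := FP.fst.comp hf2
  have hf22 : FP (fun a => (f a).2.2) := FP.snd.comp hf2
  have hA : FP (fun a => match tryC d (pad a) (f a).1 (f a).2.1 with
      | none => adv (f a).1 (f a).2.1 (fs a)
      | some r => ((none, none, ((f a).1, (f a).2.1, some r) :: fs a) : SS)) := by
    refine d6_ext (FP.casesOption (f := fun a => tryC d (pad a) (f a).1 (f a).2.1)
      (g := fun a => adv (f a).1 (f a).2.1 (fs a))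
      (h := fun p : α × (List W × W) =>
        ((none, none, ((f p.1).1, (f p.1).2.1, some p.2) :: fs p.1) : SS))
      (FP.tryC d hp hf1 hf21) (d6_adv hf1 hf21 hfs)
      (FP.pair (FP.const _) (FP.pair (FP.const _)
        (FP.cons (FP.pair (hf1.comp FP.fst) (FP.pair (hf21.comp FP.fst) (FP.osome FP.snd)))
          (hfs.comp FP.fst))))) ?_
    intro a
    cases tryC d (pad a) (f a).1 (f a).2.1 <;> rfl
  have hB : FP (fun p : α × (List W × W) => match p.2.1 with
      | [] => ((none, some p.2.2, fs p.1) : SS)
      | x :: xs => (none, some x, ((f p.1).1, (f p.1).2.1, some (xs, p.2.2)) :: fs p.1)) := by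
    refine d6_ext (FP.casesList (f := fun p : α × (List W × W) => p.2.1)
      (g := fun p => ((none, some p.2.2, fs p.1) : SS))
      (h := fun q : (α × (List W × W)) × W × List W =>
        ((none, some q.2.1, ((f q.1.1).1, (f q.1.1).2.1, some (q.2.2, q.1.2.2)) :: fs q.1.1) : SS))
      (FP.fst.comp FP.snd)
      (FP.pair (FP.const _) (FP.pair (FP.osome (FP.snd.comp FP.snd)) (hfs.comp FP.fst)))
      (FP.pair (FP.const _) (FP.pair (FP.osome (FP.fst.comp FP.snd))
        (FP.cons (FP.pair (hf1.comp (FP.fst.comp FP.fst)) (FP.pair (hf21.comp (FP.fst.comp FP.fst))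
          (FP.osome (FP.pair (FP.snd.comp FP.snd) (FP.snd.comp (FP.snd.comp FP.fst))))))
          (hfs.comp (FP.fst.comp FP.fst)))))) ?_
    rintro ⟨a, l, w⟩
    cases l <;> rfl
  refine d6_ext (FP.casesOption (f := fun a => (f a).2.2) hf22 hA hB) ?_
  intro a
  unfold stepF
  cases (f a).2.2 <;> rfl

theorem d6_stepW {B : α → List Unit} {w : α → W} {fs : α → List Frame}
    (hB : FP B) (hw : FP w) (hfs : FP fs) : FP (fun a => stepW (B a) (w a) (fs a)) := by
  have hr : FP (fun a => red (w a)) := FP.red hw
  refine d6_ext (FP.ite (p := fun a => red (w a) = [])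
    (g := fun a => ((some true, none, fs a) : SS))
    (h := fun a => ((none, none, (red (w a), (B a).map (fun _ => iNop), none) :: fs a) : SS))
    (FP.eq hr (FP.const [])) (FP.pair (FP.const _) (FP.pair (FP.const _) hfs))
    (FP.pair (FP.const _) (FP.pair (FP.const _)
      (FP.cons (FP.pair hr (FP.pair (FP.map (h := fun _ : α × Unit => iNop) (FP.const _) hB)
        (FP.const none))) hfs)))) ?_
  intro a
  unfold stepW
  by_cases h : red (w a) = []
  · rw [if_pos h]
  · rw [if_neg h]

theorem d6_stepS (d : ℕ) {pad B : α → List Unit} {s : α → SS}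
    (hp : FP pad) (hB : FP B) (hs : FP s) : FP (fun a => stepS d (pad a) (B a) (s a)) := by
  have hs1 : FP (fun a => (s a).1) := FP.fst.comp hs
  have hs2 : FP (fun a => (s a).2) := FP.snd.comp hs
  have hs21 : FP (fun a => (s a).2.1) := FP.fst.comp hs2
  have hs22 : FP (fun a => (s a).2.2) := FP.snd.comp hs2
  -- returned value
  have h1 : FP (fun p : α × Bool => match (s p.1).2.2 with
      | [] => ((some p.2, none, []) : SS)
      | f :: fs => bif p.2 then (none, none, f :: fs) else adv f.1 f.2.1 fs) := by
    refine d6_ext (FP.casesList (f := fun p : α × Bool => (s p.1).2.2)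
      (g := fun p => ((some p.2, none, []) : SS))
      (h := fun q : (α × Bool) × Frame × List Frame =>
        bif q.1.2 then ((none, none, q.2.1 :: q.2.2) : SS) else adv q.2.1.1 q.2.1.2.1 q.2.2)
      (hs22.comp FP.fst) (FP.pair (FP.osome FP.snd) (FP.pair (FP.const _) (FP.const _)))
      (FP.bcond (FP.snd.comp FP.fst)
        (FP.pair (FP.const _) (FP.pair (FP.const _) (FP.cons (FP.fst.comp FP.snd) (FP.snd.comp FP.snd))))
        (d6_adv (FP.fst.comp (FP.fst.comp FP.snd))
          (FP.fst.comp (FP.snd.comp (FP.fst.comp FP.snd))) (FP.snd.comp FP.snd)))) ?_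
    rintro ⟨a, b⟩
    cases (s a).2.2 <;> rfl
  -- frame
  have h2 : FP (fun a => match (s a).2.2 with
      | [] => ((some false, none, []) : SS)
      | f :: fs => stepF d (pad a) f fs) := by
    refine d6_ext (FP.casesList (f := fun a => (s a).2.2)
      (g := fun _ => ((some false, none, []) : SS))
      (h := fun q : α × Frame × List Frame => stepF d (pad q.1) q.2.1 q.2.2)
      hs22 (FP.const _)
      (d6_stepF d (hp.comp FP.fst) (FP.fst.comp FP.snd) (FP.snd.comp FP.snd))) ?_
    intro a
    cases (s a).2.2 <;> rfl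
  have h3 : FP (fun a => match (s a).2.1 with
      | some w => stepW (B a) w (s a).2.2
      | none => match (s a).2.2 with
        | [] => ((some false, none, []) : SS)
        | f :: fs => stepF d (pad a) f fs) := by
    refine d6_ext (FP.casesOption (f := fun a => (s a).2.1)
      (h := fun p : α × W => stepW (B p.1) p.2 (s p.1).2.2) hs21 h2
      (d6_stepW (hB.comp FP.fst) FP.snd (hs22.comp FP.fst))) ?_
    intro a
    cases (s a).2.1 <;> rfl
  refine d6_ext (FP.casesOption (f := fun a => (s a).1) hs1 h3 h1) ?_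
  intro a
  unfold stepS
  cases (s a).1 <;> rfl

end D6

theorem FP.stepX (d : ℕ) : FP (stepX d) := by
  have h1 : FP (fun x : List Unit × List Unit × SS => x.2.1) := FP.fst.comp FP.snd
  have h2 : FP (fun x : List Unit × List Unit × SS => x.2.2) := FP.snd.comp FP.snd
  exact FP.pair FP.fst (FP.pair h1 (d6_stepS d FP.fst h1 h2))

theorem FP.haltX : FP haltX := by
  have h2 : FP (fun x : List Unit × List Unit × SS => x.2.2) := FP.snd.comp FP.snd
  have h3 : FP (fun x : List Unit × List Unit × SS => x.2.2.1) := FP.fst.comp h2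
  have h4 : FP (fun x : List Unit × List Unit × SS => x.2.2.2.2) := FP.snd.comp (FP.snd.comp h2)
  refine d6_ext (FP.band
    (FP.casesOption (g := fun _ => false) (h := fun _ => true) h3 (FP.const _) (FP.const _))
    (FP.casesList (g := fun _ => true) (h := fun _ => false) h4 (FP.const _) (FP.const _))) ?_
  rintro ⟨p, B, o, w, fs⟩
  cases o <;> cases fs <;> rfl

end Pool.Agent.helper50.BW
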