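import Pool.Agent.helper50.BW.D2
/-! ## BW-D3 the interpreter is in FP (uses D2; 250 lines)
exec: nested FP.ite with FP.eq (constants), top1, top2 by casesList.  interp: FP.foldl over c; size of the memory after k instructions:
counter ≤ pad, at most k words, each of length ≤ max |pad| |w| with letters which are letters of w or inverses (sz (a) ≤ sz w + 2). -/
namespace Pool.Agent.helper50.BW


variable {α : Type} [Enc α]
theorem FP.top1 {f : α × W → W} {l : α → List W} (hf : FP f) (hl : FP l) :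
    FP (fun a => top1 (fun u => f (a, u)) (l a)) := by
  have h1 : FP (fun q : α × W × List W => f (q.1, q.2.1) :: q.2.2) :=
    FP.cons (FP.comp hf (FP.pair FP.fst (FP.comp FP.fst FP.snd))) (FP.comp FP.snd FP.snd)
  have h2 := FP.casesList hl (FP.const ([] : List W)) h1
  refine FP.congr_enc (fun a => ?_) h2
  cases l a <;> rfl
theorem FP.top2 {f : α × W × W → W} {l : α → List W} (hf : FP f) (hl : FP l) :
    FP (fun a => top2 (fun u v => f (a, u, v)) (l a)) := by
  have h1 : FP (fun q : (α × W × List W) × W × List W => f (q.1.1, q.1.2.1, q.2.1) :: q.2.2) :=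
    FP.cons (FP.comp hf (FP.pair (FP.comp FP.fst FP.fst)
      (FP.pair (FP.comp FP.fst (FP.comp FP.snd FP.fst)) (FP.comp FP.fst FP.snd))))
      (FP.comp FP.snd FP.snd)
  have h0 : FP (fun q : α × W × List W => q.2.1 :: ([] : List W)) :=
    FP.cons (FP.comp FP.fst FP.snd) (FP.const [])
  have h2 := FP.casesList (f := fun q : α × W × List W => q.2.2) (FP.comp FP.snd FP.snd) h0 h1
  have h3 := FP.casesList hl (FP.const ([] : List W)) h2
  refine FP.congr_enc (fun a => ?_) h3
  rcases l a with _ | ⟨u, _ | ⟨v, st⟩⟩ <;> rfl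
theorem FP.exec {pad : α → List Unit} {w : α → W} {m : α → Mem} {b : α → Ins} (hp : FP pad) (hw : FP w)
    (hm : FP m) (hb : FP b) : FP (fun a => exec (pad a) (w a) (m a) (b a)) := by
  have hm1 : FP (fun a => (m a).1) := FP.comp FP.fst hm
  have hm2 : FP (fun a => (m a).2) := FP.comp FP.snd hm
  have hm1' : FP (fun q : α × W => (m q.1).1) :=
    FP.comp (g := fun a => (m a).1) (f := fun q : α × W => q.1) hm1 FP.fst
  have heq : ∀ i : Ins, FP (fun a => decide (b a = i)) := fun i => FP.eq hb (FP.const i)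
  have k1 : FP (fun a => ((([] : List Unit), (m a).2) : Mem)) := FP.pair (FP.const []) hm2
  have k2 : FP (fun a => ((((m a).1 ++ (m a).1).take (pad a).length, (m a).2) : Mem)) :=
    FP.pair (FP.take hp (FP.append hm1 hm1)) hm2
  have k3 : FP (fun a => (((() :: ((m a).1 ++ (m a).1)).take (pad a).length, (m a).2) : Mem)) :=
    FP.pair (FP.take hp (FP.cons (FP.const ()) (FP.append hm1 hm1))) hm2
  have k4 : FP (fun a => (((m a).1, w a :: (m a).2) : Mem)) := FP.pair hm1 (FP.cons hw hm2)
  have k5 : FP (fun a => (((m a).1, Pool.Agent.helper50.BW.top1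
      (fun u => u.take (m a).1.length) (m a).2) : Mem)) :=
    FP.pair hm1 (FP.top1 (f := fun q : α × W => q.2.take (m q.1).1.length)
      (FP.take hm1' FP.snd) hm2)
  have k6 : FP (fun a => (((m a).1, Pool.Agent.helper50.BW.top1
      (fun u => u.drop (m a).1.length) (m a).2) : Mem)) :=
    FP.pair hm1 (FP.top1 (f := fun q : α × W => q.2.drop (m q.1).1.length)
      (FP.drop hm1' FP.snd) hm2)
  have k7 : FP (fun a => (((m a).1, Pool.Agent.helper50.BW.top1
      FreeGroup.invRev (m a).2) : Mem)) :=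
    FP.pair hm1 (FP.top1 (f := fun q : α × W => FreeGroup.invRev q.2) (FP.invRev FP.snd) hm2)
  have k8 : FP (fun a => (((m a).1, Pool.Agent.helper50.BW.top2
      (fun u v => (v ++ u).take (pad a).length) (m a).2) : Mem)) :=
    FP.pair hm1 (FP.top2 (f := fun q : α × W × W => (q.2.2 ++ q.2.1).take (pad q.1).length)
      (FP.take (FP.comp hp FP.fst)
        (FP.append (FP.comp FP.snd FP.snd) (FP.comp FP.fst FP.snd))) hm2)
  have k9 : FP (fun a => (((m a).1, Pool.Agent.helper50.BW.top1
      (Pool.Agent.helper50.BW.powcap (pad a) (m a).1) (m a).2) : Mem)) :=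
    FP.pair hm1 (FP.top1 (f := fun q : α × W =>
      Pool.Agent.helper50.BW.powcap (pad q.1) (m q.1).1 q.2)
      (FP.powcap (FP.comp hp FP.fst) hm1' FP.snd) hm2)
  exact FP.ite (heq iZero) k1 (FP.ite (heq iDbl) k2 (FP.ite (heq iDbl1) k3 (FP.ite (heq iPush) k4
    (FP.ite (heq iTake) k5 (FP.ite (heq iDrop) k6 (FP.ite (heq iInv) k7 (FP.ite (heq iCat) k8
    (FP.ite (heq iPow) k9 hm))))))))
private theorem d3_top1_len (f : W → W) (l : List W) :
    (Pool.Agent.helper50.BW.top1 f l).length = l.length := by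
  cases l <;> rfl
private theorem d3_top2_len (f : W → W → W) (l : List W) :
    (Pool.Agent.helper50.BW.top2 f l).length ≤ l.length := by
  rcases l with _ | ⟨u, _ | ⟨v, st⟩⟩ <;> simp [Pool.Agent.helper50.BW.top2]
private theorem d3_exec_len (pad : List Unit) (w : W) (m : Mem) (b : Ins) :
    (Pool.Agent.helper50.BW.exec pad w m b).2.length ≤ m.2.length + 1 := by
  unfold Pool.Agent.helper50.BW.exec
  split_ifs <;> (try simp only [d3_top1_len, List.length_cons]) <;> (try omega)
  have := d3_top2_len (fun u v => (v ++ u).take pad.length) m.2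
  omega
private theorem d3_fold_len (pad : List Unit) (w : W) (c : List Ins) : ∀ m : Mem,
    (c.foldl (Pool.Agent.helper50.BW.exec pad w) m).2.length ≤ m.2.length + c.length := by
  induction c with
  | nil => intro m; simp
  | cons b c ih =>
    intro m
    have h1 := ih (Pool.Agent.helper50.BW.exec pad w m b)
    have h2 := d3_exec_len pad w m b
    simp only [List.foldl_cons, List.length_cons]
    omega
theorem interp_len (pad : List Unit) (w : W) (c : List Ins) : (interp pad w c).2.length ≤ c.length := by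
  have := d3_fold_len pad w c ([], [])
  simpa [Pool.Agent.helper50.BW.interp] using this
/-- invariant of the memory -/
private def D3Inv (pad : List Unit) (w : W) (m : Mem) : Prop :=
  m.1.length ≤ pad.length ∧ ∀ u ∈ m.2, u.length ≤ max pad.length w.length ∧
    ∀ a ∈ u, ∃ b ∈ w, b.1 = a.1
private theorem d3_top1_inv {f : W → W} {l : List W} {R : W → Prop} (hl : ∀ u ∈ l, R u)
    (hf : ∀ u, R u → R (f u)) : ∀ u ∈ Pool.Agent.helper50.BW.top1 f l, R u := by
  cases l with
  | nil => intro u hu; exact absurd hu (by simp [Pool.Agent.helper50.BW.top1])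
  | cons v st =>
    intro u hu
    rcases List.mem_cons.1 hu with rfl | hu
    · exact hf _ (hl _ (by simp))
    · exact hl _ (List.mem_cons_of_mem _ hu)
private theorem d3_top2_inv {f : W → W → W} {l : List W} {R : W → Prop} (hl : ∀ u ∈ l, R u)
    (hf : ∀ u v, R u → R v → R (f u v)) : ∀ u ∈ Pool.Agent.helper50.BW.top2 f l, R u := by
  rcases l with _ | ⟨u0, _ | ⟨v0, st⟩⟩
  · intro u hu; exact absurd hu (by simp [Pool.Agent.helper50.BW.top2])
  · exact hl
  · intro u hu
    rcases List.mem_cons.1 hu with rfl | hu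
    · exact hf _ _ (hl _ (by simp)) (hl _ (by simp))
    · exact hl _ (List.mem_cons_of_mem _ (List.mem_cons_of_mem _ hu))
private theorem d3_exec_inv (pad : List Unit) (w : W) (m : Mem) (b : Ins) (h : D3Inv pad w m) :
    D3Inv pad w (Pool.Agent.helper50.BW.exec pad w m b) := by
  obtain ⟨h1, h2⟩ := h
  unfold Pool.Agent.helper50.BW.exec
  split_ifs
  · exact ⟨by simp, h2⟩
  · exact ⟨by simp, h2⟩
  · exact ⟨by simp, h2⟩
  · refine ⟨h1, fun u hu => ?_⟩
    rcases List.mem_cons.1 hu with rfl | hu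
    · exact ⟨le_max_right _ _, fun a ha => ⟨a, ha, rfl⟩⟩
    · exact h2 u hu
  · refine ⟨h1, d3_top1_inv h2 fun u hu => ⟨?_, fun a ha => hu.2 a (List.mem_of_mem_take ha)⟩⟩
    rw [List.length_take]
    exact (min_le_right _ _).trans hu.1
  · refine ⟨h1, d3_top1_inv h2 fun u hu => ⟨?_, fun a ha => hu.2 a (List.mem_of_mem_drop ha)⟩⟩
    rw [List.length_drop]
    exact (Nat.sub_le _ _).trans hu.1
  · refine ⟨h1, d3_top1_inv h2 fun u hu => ⟨?_, fun a ha => ?_⟩⟩
    · rw [FreeGroup.invRev_length]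
      exact hu.1
    · simp only [FreeGroup.invRev, List.mem_reverse, List.mem_map] at ha
      obtain ⟨b', hb', rfl⟩ := ha
      exact hu.2 b' hb'
  · refine ⟨h1, d3_top2_inv h2 fun u v hu hv => ⟨?_, fun a ha => ?_⟩⟩
    · rw [List.length_take]
      exact (min_le_left _ _).trans (le_max_left _ _)
    · rcases List.mem_append.1 (List.mem_of_mem_take ha) with ha | ha
      · exact hv.2 a ha
      · exact hu.2 a ha
  · refine ⟨h1, d3_top1_inv h2 fun u hu => ⟨?_, fun a ha => ?_⟩⟩
    · rw [Pool.Agent.helper50.BW.powcap, List.length_take]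
      exact (min_le_left _ _).trans (le_max_left _ _)
    · have ha' := List.mem_of_mem_take ha
      obtain ⟨v, hv, ha''⟩ := List.mem_flatten.1 ha'
      rw [List.eq_of_mem_replicate hv] at ha''
      exact hu.2 a ha''
  · exact ⟨h1, h2⟩
private theorem d3_fold_inv (pad : List Unit) (w : W) (c : List Ins) : ∀ m : Mem, D3Inv pad w m →
    D3Inv pad w (c.foldl (Pool.Agent.helper50.BW.exec pad w) m) := by
  induction c with
  | nil => intro m hm; exact hm
  | cons b c ih => intro m hm; exact ih _ (d3_exec_inv pad w m b hm)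
theorem interp_vars (pad : List Unit) (w : W) (c : List Ins) {u : W} (hu : u ∈ (interp pad w c).2)
    {a : ℕ × Bool} (ha : a ∈ u) : ∃ b ∈ w, b.1 = a.1 := by
  have h := d3_fold_inv pad w c ([], []) ⟨by simp, by simp⟩
  exact (h.2 u hu).2 a ha
/-- polynomially bounded -/
private def D3PB (F : α → ℕ) : Prop := ∃ C : ℕ, ∀ a, F a ≤ (C + sz a) ^ C
private theorem D3PB.add {F G : α → ℕ} (hF : D3PB F) (hG : D3PB G) : D3PB (fun a => F a + G a) := by
  obtain ⟨C, hC⟩ := hF
  obtain ⟨C', hC'⟩ := hG
  exact ⟨C + C' + 2, fun a => (Nat.add_le_add (hC a) (hC' a)).trans poly_add⟩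
private theorem D3PB.mul {F G : α → ℕ} (hF : D3PB F) (hG : D3PB G) : D3PB (fun a => F a * G a) := by
  obtain ⟨C, hC⟩ := hF
  obtain ⟨C', hC'⟩ := hG
  exact ⟨C + C' + 2, fun a => (Nat.mul_le_mul (hC a) (hC' a)).trans poly_mul⟩
private theorem D3PB.const (n : ℕ) : D3PB (fun _ : α => n) :=
  ⟨n + 1, fun a => le_trans (show n ≤ n + 1 + sz a by omega)
    (Nat.le_self_pow (by omega) (n + 1 + sz a))⟩
private theorem D3PB.mono {F G : α → ℕ} (hG : D3PB G) (h : ∀ a, F a ≤ G a) : D3PB F := by
  obtain ⟨C, hC⟩ := hG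
  exact ⟨C, fun a => (h a).trans (hC a)⟩
private theorem D3PB.of {β : Type} [Enc β] {f : α → β} (hf : FP f) : D3PB (fun a => sz (f a)) := by
  obtain ⟨C, hC, -⟩ := hf
  exact ⟨C, hC⟩
private theorem d3_letter {w : W} {a : ℕ × Bool} (h : ∃ b ∈ w, b.1 = a.1) : sz a ≤ sz w + 2 := by
  obtain ⟨b, hb, hab⟩ := h
  have h1 := sz_mem hb
  have h2 : sz b = sz b.1 + sz b.2 + 1 := sz_pair b.1 b.2
  have h3 : sz a = sz a.1 + sz a.2 + 1 := sz_pair a.1 a.2
  have h4 : sz a.2 ≤ 3 := by
    cases a.2
    · decide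
    · decide
  have h5 := sz_pos b.2
  rw [hab] at h2
  omega
private theorem d3_mem_sz (pad : List Unit) (w : W) (m : Mem) (K : ℕ) (h : D3Inv pad w m)
    (hK : m.2.length ≤ K) : sz m ≤ (1 + sz pad * 2) +
      (1 + K * ((1 + (sz pad + sz w) * (sz w + 3)) + 1)) + 1 := by
  obtain ⟨h1, h2⟩ := h
  have e0 : sz m = sz m.1 + sz m.2 + 1 := sz_pair m.1 m.2
  have p1 := length_le_sz pad
  have p2 := length_le_sz w
  have e1 : sz m.1 ≤ 1 + m.1.length * (1 + 1) := sz_le_mul (M := 1) fun b _ => by
    cases b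
    decide
  have e2 : sz m.2 ≤ 1 + m.2.length * ((1 + (sz pad + sz w) * (sz w + 3)) + 1) := by
    refine sz_le_mul fun u hu => ?_
    obtain ⟨hu1, hu2⟩ := h2 u hu
    have e3 : sz u ≤ 1 + u.length * ((sz w + 2) + 1) := sz_le_mul fun a ha => d3_letter (hu2 a ha)
    refine e3.trans ?_
    have e4 : u.length ≤ sz pad + sz w := by
      refine hu1.trans (max_le ?_ ?_) <;> omega
    exact Nat.add_le_add_left (Nat.mul_le_mul_right _ e4) _
  have e5 : m.2.length * ((1 + (sz pad + sz w) * (sz w + 3)) + 1) ≤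
      K * ((1 + (sz pad + sz w) * (sz w + 3)) + 1) := Nat.mul_le_mul_right _ hK
  have e6 : m.1.length * (1 + 1) ≤ sz pad * 2 := Nat.mul_le_mul_right 2 (h1.trans p1.le)
  omega
theorem FP.interp {pad : α → List Unit} {w : α → W} {c : α → List Ins} (hp : FP pad) (hw : FP w)
    (hc : FP c) : FP (fun a => interp (pad a) (w a) (c a)) := by
  have hh : FP (fun q : α × Mem × Ins =>
      Pool.Agent.helper50.BW.exec (pad q.1) (w q.1) q.2.1 q.2.2) :=
    FP.exec (FP.comp hp FP.fst) (FP.comp hw FP.fst) (FP.comp FP.fst FP.snd) (FP.comp FP.snd FP.snd)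
  refine FP.foldl (g := fun _ => (([], []) : Mem)) hc (FP.const _) hh ?_
  have hpb : D3PB (fun a : α => (1 + sz (pad a) * 2) +
      (1 + sz (c a) * ((1 + (sz (pad a) + sz (w a)) * (sz (w a) + 3)) + 1)) + 1) := by
    have hP := D3PB.of hp
    have hW := D3PB.of hw
    have hC := D3PB.of hc
    exact (((D3PB.const 1).add (hP.mul (D3PB.const 2))).add
      ((D3PB.const 1).add (hC.mul (((D3PB.const 1).add ((hP.add hW).mul
        (hW.add (D3PB.const 3)))).add (D3PB.const 1))))).add (D3PB.const 1)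
  obtain ⟨C, hC⟩ := hpb
  refine ⟨C, fun a k => le_trans ?_ (hC a)⟩
  have h0 : D3Inv (pad a) (w a) (([], []) : Mem) := ⟨by simp, by simp⟩
  refine d3_mem_sz _ _ _ _ (d3_fold_inv (pad a) (w a) ((c a).take k) _ h0) ?_
  have h1 := d3_fold_len (pad a) (w a) ((c a).take k) ([], [])
  have h2 := length_le_sz (c a)
  have h3 : ((c a).take k).length ≤ (c a).length := by
    rw [List.length_take]
    exact min_le_right _ _
  simp only [List.length_nil, Nat.zero_add] at h1
  exact h1.trans (h3.trans h2.le)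

end Pool.Agent.helper50.BW
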