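import Pool.Agent.helper50.BW.D2
import Pool.Agent.helper50.BW.D3
import Pool.Agent.helper50.BW.M1
/-! ## BW-D7 soundness of certificates (uses D2, D3; 250 lines)
try1: mk A * (mk u)⁻¹ = (product of the conjugates z x z⁻¹) * z₀ y^d z₀⁻¹ (red_eq_iff; invariant of lfold: with pending none the product word
represents the product of conjugates of the x in the loop list, all short if the flag is true); the loops in Fd, Fd normal (M1: Fd_normal):
mk (A u⁻¹) ∈ Fd, so w = w₁ A w₂ and w₁ u w₂ are equal modulo Fd.
try2: the loop w₂w₁u⁻¹ in Fd; w₁Aw₂ is conjugate to A (w₂ w₁), equal to A u modulo Fd.  Lengths: length_append. -/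
namespace Pool.Agent.helper50.BW

theorem d7_mk_append (a b : W) : FreeGroup.mk (a ++ b) = FreeGroup.mk a * FreeGroup.mk b :=
  FreeGroup.mul_mk.symm

theorem d7_mk_invRev (a : W) : FreeGroup.mk (FreeGroup.invRev a) = (FreeGroup.mk a)⁻¹ :=
  FreeGroup.inv_mk.symm

/-- invariant of a fold -/
theorem d7_foldl {σ β : Type} (f : σ → β → σ) (P : σ → Prop) (L : List β)
    (hstep : ∀ s, ∀ v ∈ L, P s → P (f s v)) (s : σ) (h0 : P s) : P (L.foldl f s) := by
  induction L generalizing s with
  | nil => exact h0
  | cons v L ih =>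
    rw [List.foldl_cons]
    exact ih (fun s' v' hv' => hstep s' v' (List.mem_cons_of_mem _ hv')) _
      (hstep s v List.mem_cons_self h0)

theorem d7_short (w : W) (L : List W) (h : (lfold w L).2.2.2 = true) :
    ∀ x ∈ (lfold w L).2.2.1, 4 * x.length ≤ 3 * w.length := by
  have key : (lfold w L).2.2.2 = true →
      ∀ x ∈ (lfold w L).2.2.1, 4 * x.length ≤ 3 * w.length := by
    unfold lfold
    refine d7_foldl (lstep w)
      (fun s : LSt => s.2.2.2 = true → ∀ x ∈ s.2.2.1, 4 * x.length ≤ 3 * w.length) L ?_ _ ?_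
    · intro s v _ ih
      obtain ⟨p, q, l, b⟩ := s
      cases p with
      | none =>
        intro hb x hx
        exact ih hb x hx
      | some z =>
        intro hb x hx
        simp only [lstep, Bool.and_eq_true, decide_eq_true_eq, List.length_append] at hb
        simp only [lstep, List.mem_cons] at hx
        rcases hx with rfl | hx
        · omega
        · exact ih hb.1 x hx
    · intro _ x hx
      simp at hx
  exact key h

theorem d7_mem (w : W) (L : List W) : ∀ x ∈ (lfold w L).2.2.1, x ∈ L := by
  unfold lfold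
  refine d7_foldl (lstep w) (fun s : LSt => ∀ x ∈ s.2.2.1, x ∈ L) L ?_ _ ?_
  · intro s v hv ih
    obtain ⟨p, q, l, b⟩ := s
    cases p with
    | none => exact ih
    | some z =>
      intro x hx
      simp only [lstep, List.mem_cons] at hx
      rcases hx with rfl | hx
      · exact hv
      · exact ih x hx
  · intro x hx
    simp at hx

theorem d7_len (w : W) (L : List W) : (lfold w L).2.2.1.length ≤ L.length := by
  have key : ∀ (L : List W) (s : LSt),
      (L.foldl (lstep w) s).2.2.1.length ≤ s.2.2.1.length + L.length := by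
    intro L
    induction L with
    | nil => intro s; simp
    | cons v L ih =>
      intro s
      rw [List.foldl_cons]
      refine (ih _).trans ?_
      obtain ⟨p, q, l, b⟩ := s
      cases p with
      | none => simp only [lstep, List.length_cons]; omega
      | some z => simp only [lstep, List.length_cons]; omega
  have := key L (none, [], [], true)
  simpa [lfold] using this

theorem d7_prod (d : ℕ) (w : W) (L : List W) (h : ∀ x ∈ (lfold w L).2.2.1, Triv d x) :
    FreeGroup.mk (lfold w L).2.1 ∈ Fd d := by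
  have hN := Fd_normal d
  have key : (∀ x ∈ (lfold w L).2.2.1, Triv d x) → FreeGroup.mk (lfold w L).2.1 ∈ Fd d := by
    unfold lfold
    refine d7_foldl (lstep w)
      (fun s : LSt => (∀ x ∈ s.2.2.1, Triv d x) → FreeGroup.mk s.2.1 ∈ Fd d) L ?_ _ ?_
    · intro s v _ ih
      obtain ⟨p, q, l, b⟩ := s
      cases p with
      | none => exact ih
      | some z =>
        intro hx
        simp only [lstep, List.mem_cons, forall_eq_or_imp] at hx
        simp only [lstep]
        rw [d7_mk_append, d7_mk_append, d7_mk_append, d7_mk_invRev]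
        exact Subgroup.mul_mem _ (ih hx.2) (hN.conj_mem _ hx.1 _)
    · intro _
      change FreeGroup.mk ([] : W) ∈ Fd d
      rw [← FreeGroup.one_eq_mk]
      exact Subgroup.one_mem _
  exact key h

theorem d7_pow (d : ℕ) (y : W) : FreeGroup.mk (dpow d y) ∈ Fd d := by
  rw [mk_dpow]
  exact Subgroup.subset_closure ⟨_, rfl⟩

/-- the two kinds of moves -/
theorem d7_cases {d : ℕ} {w : W} {st : List W} {r : List W × W} (h : tryS d w st = some r) :
    (∃ f w₁ A w₂ u y z₀ L, st = f :: w₁ :: A :: w₂ :: u :: y :: z₀ :: L ∧ w = w₁ ++ A ++ w₂ ∧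
      u.length < A.length ∧ (lfold w L).2.2.2 = true ∧
      red (A ++ FreeGroup.invRev u) =
        red ((lfold w L).2.1 ++ (z₀ ++ dpow d y ++ FreeGroup.invRev z₀)) ∧
      r = ((lfold w L).2.2.1, w₁ ++ u ++ w₂)) ∨
    (∃ f w₁ A w₂ u L, st = f :: w₁ :: A :: w₂ :: u :: L ∧ w = w₁ ++ A ++ w₂ ∧
      u.length < (w₂ ++ w₁).length ∧ 4 * (w₂ ++ w₁ ++ u).length ≤ 3 * w.length ∧
      r = ([w₂ ++ w₁ ++ FreeGroup.invRev u], A ++ u)) := by
  unfold tryS at h
  split at h
  · rename_i f w₁ A w₂ u L
    split_ifs at h with hf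
    · left
      unfold try1 at h
      split at h
      · rename_i y z₀ L'
        split_ifs at h with hc
        obtain ⟨h1, h2, _, h4, h5⟩ := hc
        exact ⟨_, _, _, _, _, _, _, _, rfl, h1, h2, h4, h5, (Option.some.inj h).symm⟩
      · exact absurd h (by simp)
    · right
      unfold try2 at h
      split_ifs at h with hc
      obtain ⟨h1, h2, h3⟩ := hc
      refine ⟨_, _, _, _, _, _, rfl, h1, h2, ?_, (Option.some.inj h).symm⟩
      simp only [List.length_append] at h3 ⊢
      omega
  · exact absurd h (by simp)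

theorem tryC_sound {d : ℕ} {pad : List Unit} {w : W} {c : List Ins} {r : List W × W}
    (h : tryC d pad w c = some r) :
    r.2.length < w.length ∧ (∀ x ∈ r.1, 4 * x.length ≤ 3 * w.length) ∧ r.1.length ≤ c.length ∧
      ((∀ x ∈ r.1, Triv d x) → (Triv d w ↔ Triv d r.2)) := by
  have hN := Fd_normal d
  have hlen := interp_len pad w c
  unfold tryC at h
  rcases d7_cases h with ⟨f, w₁, A, w₂, u, y, z₀, L, hst, hw, hu, hfl, hred, rfl⟩ |
    ⟨f, w₁, A, w₂, u, L, hst, hw, hu, h4, rfl⟩
  · rw [hst] at hlen
    simp only [List.length_cons] at hlen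
    refine ⟨?_, d7_short w L hfl, ?_, ?_⟩
    · have := congrArg List.length hw
      simp only [List.length_append] at this ⊢
      omega
    · have := d7_len w L
      change (lfold w L).2.2.1.length ≤ c.length
      omega
    · intro hx
      have hp := d7_prod d w L hx
      have hm := (red_eq_iff _ _).mp hred
      have hmem : FreeGroup.mk A * (FreeGroup.mk u)⁻¹ ∈ Fd d := by
        rw [← d7_mk_invRev, ← d7_mk_append, hm, d7_mk_append, d7_mk_append, d7_mk_append,
          d7_mk_invRev]
        exact Subgroup.mul_mem _ hp (hN.conj_mem _ (d7_pow d y) _)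
      have hrel : FreeGroup.mk w = (FreeGroup.mk w₁ * (FreeGroup.mk A * (FreeGroup.mk u)⁻¹) *
          (FreeGroup.mk w₁)⁻¹) * FreeGroup.mk (w₁ ++ u ++ w₂) := by
        rw [hw]
        simp only [d7_mk_append]
        group
      unfold Triv
      rw [hrel]
      exact Subgroup.mul_mem_cancel_left _ (hN.conj_mem _ hmem _)
  · rw [hst] at hlen
    simp only [List.length_cons] at hlen
    refine ⟨?_, ?_, ?_, ?_⟩
    · have := congrArg List.length hw
      simp only [List.length_append] at this hu ⊢
      omega
    · intro x hx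
      simp only [List.mem_singleton] at hx
      subst hx
      simp only [List.length_append, FreeGroup.invRev_length] at h4 ⊢
      exact h4
    · simp only [List.length_singleton]
      omega
    · intro hx
      have hl : Triv d (w₂ ++ w₁ ++ FreeGroup.invRev u) := hx _ (List.mem_singleton_self _)
      unfold Triv at hl ⊢
      have hrel : FreeGroup.mk w = FreeGroup.mk w₁ * ((FreeGroup.mk A *
          FreeGroup.mk (w₂ ++ w₁ ++ FreeGroup.invRev u) * (FreeGroup.mk A)⁻¹) *
          FreeGroup.mk (A ++ u)) * (FreeGroup.mk w₁)⁻¹ := by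
        rw [hw]
        simp only [d7_mk_append, d7_mk_invRev]
        group
      rw [hrel, ← hN.mem_comm_iff]
      have e2 : (FreeGroup.mk w₁)⁻¹ * (FreeGroup.mk w₁ * ((FreeGroup.mk A *
          FreeGroup.mk (w₂ ++ w₁ ++ FreeGroup.invRev u) * (FreeGroup.mk A)⁻¹) *
          FreeGroup.mk (A ++ u))) = (FreeGroup.mk A *
          FreeGroup.mk (w₂ ++ w₁ ++ FreeGroup.invRev u) * (FreeGroup.mk A)⁻¹) *
          FreeGroup.mk (A ++ u) := by
        group
      rw [e2]
      exact Subgroup.mul_mem_cancel_left _ (hN.conj_mem _ hl _)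

theorem tryC_vars {d V : ℕ} {pad : List Unit} {w : W} {c : List Ins} {r : List W × W}
    (h : tryC d pad w c = some r) (hw : ∀ a ∈ w, sz a.1 ≤ V) :
    (∀ x ∈ r.1, ∀ a ∈ x, sz a.1 ≤ V) ∧ ∀ a ∈ r.2, sz a.1 ≤ V := by
  have hst : ∀ u ∈ (interp pad w c).2, ∀ a ∈ u, sz a.1 ≤ V := by
    intro u hu a ha
    obtain ⟨b, hb, hab⟩ := interp_vars pad w c hu ha
    rw [← hab]
    exact hw b hb
  unfold tryC at h
  rcases d7_cases h with ⟨f, w₁, A, w₂, u, y, z₀, L, hs, _, _, _, _, rfl⟩ |
    ⟨f, w₁, A, w₂, u, L, hs, _, _, _, rfl⟩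
  · rw [hs] at hst
    simp only [List.mem_cons, forall_eq_or_imp] at hst
    obtain ⟨_, h1, h2, h3, h4, _, _, h5⟩ := hst
    refine ⟨fun x hx => h5 x (d7_mem w L x hx), ?_⟩
    intro a ha
    simp only [List.mem_append] at ha
    rcases ha with (ha | ha) | ha
    · exact h1 a ha
    · exact h4 a ha
    · exact h3 a ha
  · rw [hs] at hst
    simp only [List.mem_cons, forall_eq_or_imp] at hst
    obtain ⟨_, h1, h2, h3, h4, _⟩ := hst
    refine ⟨?_, ?_⟩
    · intro x hx a ha
      simp only [List.mem_singleton] at hx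
      subst hx
      simp only [List.mem_append] at ha
      rcases ha with (ha | ha) | ha
      · exact h3 a ha
      · exact h1 a ha
      · simp only [FreeGroup.invRev, List.mem_reverse, List.mem_map] at ha
        obtain ⟨b, hb, rfl⟩ := ha
        exact h4 b hb
    · intro a ha
      simp only [List.mem_append] at ha
      rcases ha with ha | ha
      · exact h2 a ha
      · exact h4 a ha

end Pool.Agent.helper50.BW
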