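import Pool.Agent.helper50.BW.D5
import Pool.Agent.helper50.BW.D7
/-! ## BW-D8 the run of the machine (pure combinatorics; uses D5, D7; 300 lines)
Y := 8(B+1) 16^B (n+1).  Induction on h.  h = 0: w = [] (3^0 |w| < 4^0), red [] = []: one step.
h + 1: inner induction on |w|.  If red w = []: one step (Triv).  Otherwise frame for w' := red w (reduced, nonempty, |w'| ≤ |w|, Triv d w' ↔ Triv d w),
certificates in the order of cval.  For a certificate c: if tryC = none: 1 step, next c.  If some r: 1 step, then for each loop x of r.1
(4|x| ≤ 3|w'|, so 3^h |x| < 4^h): 1 step, call (IH on h, frames one more) ≤ Y^(h+1), result true: 1 step, next loop; result false: 1 step, next c.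
All loops true: 1 step, call of r.2 (|r.2| < |w'|, inner IH).  No certificate left: false; then w' is not trivial by hcomp (the certificate
of hcomp would have been found: all its loops are trivial).  Total ≤ (|w|+1)(2 + 16^B (3 + B(2 + Y^(h+1)))) ≤ Y^(h+2).
The bounds SBd: tryC_vars, mem_red, |x|, |r.2| ≤ |w'| ≤ n. -/
namespace Pool.Agent.helper50.BW

namespace D8

/-- the machine runs from s to s' in at most t steps, all states bounded -/
def Rn (d n V D : ℕ) (pad B : List Unit) (s : SS) (t : ℕ) (s' : SS) : Prop :=
  ∃ t0 ≤ t, (stepS d pad B)^[t0] s = s' ∧ ∀ t' ≤ t0, SBd n V B.length D ((stepS d pad B)^[t'] s)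

variable {d n V D : ℕ} {pad B : List Unit}

theorem Rn.mono {s s' : SS} {t t' : ℕ} (h : Rn d n V D pad B s t s') (ht : t ≤ t') : Rn d n V D pad B s t' s' := by
  obtain ⟨t0, h0, h1⟩ := h
  exact ⟨t0, h0.trans ht, h1⟩

theorem Rn.trans {s s' s'' : SS} {t t' : ℕ} (h : Rn d n V D pad B s t s') (h' : Rn d n V D pad B s' t' s'') :
    Rn d n V D pad B s (t + t') s'' := by
  obtain ⟨t0, h0, h1, h2⟩ := h
  obtain ⟨t1, h3, h4, h5⟩ := h'
  refine ⟨t1 + t0, by omega, ?_, ?_⟩
  · rw [Function.iterate_add_apply, h1, h4]
  · intro t' ht'
    rcases le_total t' t0 with h | h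
    · exact h2 t' h
    · obtain ⟨k, rfl⟩ := Nat.exists_eq_add_of_le' h
      rw [Function.iterate_add_apply, h1]
      exact h5 k (by omega)

theorem Rn.one {s s' : SS} (h : stepS d pad B s = s') (hs : SBd n V B.length D s) (hs' : SBd n V B.length D s') :
    Rn d n V D pad B s 1 s' := by
  refine ⟨1, le_rfl, h, ?_⟩
  intro t' ht'
  rcases Nat.le_one_iff_eq_zero_or_eq_one.1 ht' with rfl | rfl
  · exact hs
  · simpa [h] using hs'

/-- one certificate -/
theorem loops {Y : ℕ} {w' y : W} {c : List Ins} {fs : List Frame} (hfs : ∀ f ∈ fs, FB n V B.length f)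
    (hD : fs.length + 1 ≤ D) (hw : WB n V w') (hc : c.length = B.length) (hy : WB n V y)
    (hadv : SBd n V B.length D (adv w' c fs)) :
    ∀ xs : List W, xs.length ≤ B.length → (∀ x ∈ xs, WB n V x) →
      (∀ x ∈ xs, ∀ fs' : List Frame, (∀ f ∈ fs', FB n V B.length f) → fs'.length = fs.length + 1 → open Classical in
        Rn d n V D pad B (none, some x, fs') Y (some (decide (Triv d x)), none, fs')) →
      ((∀ x ∈ xs, Triv d x) ∧
        Rn d n V D pad B (none, none, (w', c, some (xs, y)) :: fs) (xs.length * (2 + Y)) (none, none, (w', c, some ([], y)) :: fs)) ∨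
      ((¬ ∀ x ∈ xs, Triv d x) ∧
        Rn d n V D pad B (none, none, (w', c, some (xs, y)) :: fs) (xs.length * (2 + Y)) (adv w' c fs)) := by
  intro xs
  induction xs with
  | nil =>
    intro _ _ _
    left
    refine ⟨by simp, 0, by omega, rfl, ?_⟩
    intro t' ht'
    obtain rfl : t' = 0 := by omega
    refine ⟨by simp, by simpa using hD, ?_⟩
    intro f hf
    rcases List.mem_cons.1 hf with rfl | hf
    · exact ⟨hw, hc, by rintro r ⟨⟩; exact ⟨by simp, by simp, hy⟩⟩
    · exact hfs f hf
  | cons x xs ih =>
    intro h1 h2 h3
    classical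
    have hx := h2 x (by simp)
    have hF : ∀ xs' : List W, xs'.length ≤ B.length → (∀ x ∈ xs', WB n V x) →
        ∀ f ∈ ((w', c, some (xs', y)) :: fs : List Frame), FB n V B.length f := by
      intro xs' k1 k2 f hf
      rcases List.mem_cons.1 hf with rfl | hf
      · exact ⟨hw, hc, by rintro r ⟨⟩; exact ⟨k1, k2, hy⟩⟩
      · exact hfs f hf
    have hF1 := hF (x :: xs) h1 h2
    have hF2 := hF xs (by simp at h1; omega) (fun z hz => h2 z (by simp [hz]))
    have e1 : Rn d n V D pad B (none, none, (w', c, some (x :: xs, y)) :: fs) 1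
        (none, some x, (w', c, some (xs, y)) :: fs) := by
      refine Rn.one rfl ⟨by simp, by simpa using hD, hF1⟩ ⟨?_, by simpa using hD, hF2⟩
      rintro z ⟨⟩
      exact hx
    have e2 := h3 x (by simp) ((w', c, some (xs, y)) :: fs) hF2 (by simp)
    have e12 := e1.trans e2
    by_cases ht : Triv d x
    · rw [decide_eq_true ht] at e12
      have e3 : Rn d n V D pad B (some true, none, (w', c, some (xs, y)) :: fs) 1
          (none, none, (w', c, some (xs, y)) :: fs) :=
        Rn.one rfl ⟨by simp, by simpa using hD, hF2⟩ ⟨by simp, by simpa using hD, hF2⟩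
      have e4 := e12.trans e3
      rcases ih (by simp at h1; omega) (fun z hz => h2 z (by simp [hz])) (fun z hz => h3 z (by simp [hz])) with ⟨g1, g2⟩ | ⟨g1, g2⟩
      · left
        refine ⟨by simpa [ht] using g1, (e4.trans g2).mono ?_⟩
        simp only [List.length_cons]
        ring_nf
        omega
      · right
        refine ⟨fun h => g1 fun z hz => h z (by simp [hz]), (e4.trans g2).mono ?_⟩
        simp only [List.length_cons]
        ring_nf
        omega
    · rw [decide_eq_false ht] at e12
      have e3 : Rn d n V D pad B (some false, none, (w', c, some (xs, y)) :: fs) 1 (adv w' c fs) :=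
        Rn.one rfl ⟨by simp, by simpa using hD, hF2⟩ hadv
      right
      refine ⟨fun h => ht (h x (by simp)), (e12.trans e3).mono ?_⟩
      simp only [List.length_cons]
      ring_nf
      omega

theorem adv_bd {w' : W} {c : List Ins} {fs : List Frame} (hfs : ∀ f ∈ fs, FB n V B.length f)
    (hD : fs.length + 1 ≤ D) (hw : WB n V w') (hc : c.length = B.length) : SBd n V B.length D (adv w' c fs) := by
  unfold adv
  rcases hn : nextC c with _ | c'
  · exact ⟨by simp, by simp; omega, hfs⟩
  · refine ⟨by simp, by simpa using hD, ?_⟩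
    intro f hf
    rcases List.mem_cons.1 hf with rfl | hf
    · exact ⟨hw, ((nextC_some hn).1.trans hc), by rintro r ⟨⟩⟩
    · exact hfs f hf

/-- the loop over the certificates -/
theorem certs {Y Z : ℕ} {w' : W} {fs : List Frame} (hfs : ∀ f ∈ fs, FB n V B.length f)
    (hD : fs.length + 1 ≤ D) (hw : WB n V w')
    (hcomp : Triv d w' → ∃ c : List Ins, c.length = B.length ∧ ∃ r, tryC d pad w' c = some r ∧ ∀ x ∈ r.1, Triv d x)
    (h1 : ∀ x : W, 4 * x.length ≤ 3 * w'.length → WB n V x →
      ∀ fs' : List Frame, (∀ f ∈ fs', FB n V B.length f) → fs'.length = fs.length + 1 → open Classical in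
        Rn d n V D pad B (none, some x, fs') Y (some (decide (Triv d x)), none, fs'))
    (h2 : ∀ x : W, x.length < w'.length → WB n V x → open Classical in
        Rn d n V D pad B (none, some x, fs) Z (some (decide (Triv d x)), none, fs)) :
    ∀ (k : ℕ) (c : List Ins), c.length = B.length → cval c + k = 16 ^ B.length →
      (∀ c' : List Ins, c'.length = B.length → cval c' < cval c →
        ¬ ∃ r, tryC d pad w' c' = some r ∧ ∀ x ∈ r.1, Triv d x) → open Classical in
      Rn d n V D pad B (none, none, (w', c, none) :: fs) (k * (1 + B.length * (2 + Y)) + (1 + Z))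
        (some (decide (Triv d w')), none, fs) := by
  intro k
  induction k with
  | zero =>
    intro c hc hk
    have := cval_lt c
    rw [hc] at this
    omega
  | succ k ih =>
    intro c hc hk hlow
    classical
    have hadv := adv_bd hfs hD hw hc
    have hF0 : ∀ f ∈ ((w', c, none) :: fs : List Frame), FB n V B.length f := by
      intro f hf
      rcases List.mem_cons.1 hf with rfl | hf
      · exact ⟨hw, hc, by rintro r ⟨⟩⟩
      · exact hfs f hf
    -- the certificate fails
    have key : (¬ ∃ r, tryC d pad w' c = some r ∧ ∀ x ∈ r.1, Triv d x) →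
        ∀ t, t ≤ 1 + B.length * (2 + Y) → Rn d n V D pad B (none, none, (w', c, none) :: fs) t (adv w' c fs) →
        Rn d n V D pad B (none, none, (w', c, none) :: fs) ((k + 1) * (1 + B.length * (2 + Y)) + (1 + Z))
        (some (decide (Triv d w')), none, fs) := by
      intro hbad t ht hR
      rcases hn : nextC c with _ | c'
      · have e : adv w' c fs = (some false, none, fs) := by simp [adv, hn]
        rw [e] at hR
        have hnt : ¬ Triv d w' := by
          intro hT
          obtain ⟨c', hc', hgood⟩ := hcomp hT
          have hv := nextC_none hn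
          have hv' := cval_lt c'
          rw [hc'] at hv'
          rw [hc] at hv
          rcases (show cval c' < cval c ∨ cval c' = cval c by omega) with h | h
          · exact hlow c' hc' h hgood
          · rw [cval_inj (hc'.trans hc.symm) h] at hgood
            exact hbad hgood
        rw [decide_eq_false hnt]
        refine hR.mono (ht.trans ?_)
        have : (k + 1) * (1 + B.length * (2 + Y)) = k * (1 + B.length * (2 + Y)) + (1 + B.length * (2 + Y)) := by ring
        rw [this]; omega
      · have e : adv w' c fs = (none, none, (w', c', none) :: fs) := by simp [adv, hn]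
        rw [e] at hR
        obtain ⟨hv1, hv2⟩ := nextC_some hn
        have hI := ih c' (hv1.trans hc) (by omega) (by
          intro c'' hc'' hlt
          rcases (show cval c'' < cval c ∨ cval c'' = cval c by omega) with h | h
          · exact hlow c'' hc'' h
          · rw [cval_inj (hc''.trans hc.symm) h]
            exact hbad)
        refine (hR.trans hI).mono ?_
        have : (k + 1) * (1 + B.length * (2 + Y)) = k * (1 + B.length * (2 + Y)) + (1 + B.length * (2 + Y)) := by ring
        rw [this]; omega
    rcases hT : tryC d pad w' c with _ | r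
    · refine key (by rintro ⟨r, hr, -⟩; rw [hT] at hr; exact absurd hr (by simp)) 1 (by omega) ?_
      refine Rn.one ?_ ⟨by simp, by simpa using hD, hF0⟩ hadv
      simp [stepS, stepF, hT]
    · obtain ⟨s1, s2, s3, s4⟩ := tryC_sound hT
      obtain ⟨s5, s6⟩ := tryC_vars hT hw.2
      have hB : ∀ x ∈ r.1, WB n V x := fun x hx => ⟨by have := s2 x hx; have := hw.1; omega, s5 x hx⟩
      have hy : WB n V r.2 := ⟨by have := hw.1; omega, s6⟩
      have hF1 : ∀ f ∈ ((w', c, some (r.1, r.2)) :: fs : List Frame), FB n V B.length f := by
        intro f hf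
        rcases List.mem_cons.1 hf with rfl | hf
        · exact ⟨hw, hc, by rintro r' ⟨⟩; exact ⟨by simpa [hc] using s3, hB, hy⟩⟩
        · exact hfs f hf
      have e1 : Rn d n V D pad B (none, none, (w', c, none) :: fs) 1 (none, none, (w', c, some (r.1, r.2)) :: fs) := by
        refine Rn.one ?_ ⟨by simp, by simpa using hD, hF0⟩ ⟨by simp, by simpa using hD, hF1⟩
        simp [stepS, stepF, hT]
      have hlen : r.1.length * (2 + Y) ≤ B.length * (2 + Y) := Nat.mul_le_mul (by simpa [hc] using s3) le_rfl
      rcases loops hfs hD hw hc hy hadv r.1 (by simpa [hc] using s3) hB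
        (fun x hx fs' g1 g2 => h1 x (s2 x hx) (hB x hx) fs' g1 g2) with ⟨g1, g2⟩ | ⟨g1, g2⟩
      · have hF2 : ∀ f ∈ ((w', c, some ([], r.2)) :: fs : List Frame), FB n V B.length f := by
          intro f hf
          rcases List.mem_cons.1 hf with rfl | hf
          · exact ⟨hw, hc, by rintro r' ⟨⟩; exact ⟨by simp, by simp, hy⟩⟩
          · exact hfs f hf
        have e3 : Rn d n V D pad B (none, none, (w', c, some ([], r.2)) :: fs) 1 (none, some r.2, fs) := by
          refine Rn.one rfl ⟨by simp, by simpa using hD, hF2⟩ ⟨?_, by dsimp only; omega, hfs⟩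
          rintro z ⟨⟩
          exact hy
        have e4 := h2 r.2 s1 hy
        have hiff : decide (Triv d r.2) = decide (Triv d w') := by
          rw [decide_eq_decide]; exact (s4 g1).symm
        rw [hiff] at e4
        refine (((e1.trans g2).trans e3).trans e4).mono ?_
        have : (k + 1) * (1 + B.length * (2 + Y)) = k * (1 + B.length * (2 + Y)) + (1 + B.length * (2 + Y)) := by ring
        rw [this]; omega
      · refine key ?_ _ ?_ (e1.trans g2)
        · rintro ⟨r', hr', g3⟩
          rw [hT] at hr'
          cases hr'
          exact g1 g3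
        · omega

theorem triv_nil (d : ℕ) : Triv d [] := by
  unfold Triv
  rw [← FreeGroup.one_eq_mk]
  exact one_mem _

end D8

open D8

open Classical in
theorem machine_run {d n V : ℕ} {pad B : List Unit}
    (hcomp : ∀ w : W, w.length ≤ n → w ≠ [] → FreeGroup.IsReduced w → Triv d w →
      ∃ c : List Ins, c.length = B.length ∧ ∃ r, tryC d pad w c = some r ∧ ∀ x ∈ r.1, Triv d x) (h : ℕ) :
    ∀ (w : W) (fs : List Frame) (D : ℕ), 3 ^ h * w.length < 4 ^ h → WB n V w →
      (∀ f ∈ fs, FB n V B.length f) → fs.length + h ≤ D →
      ∃ t ≤ (8 * (B.length + 1) * 16 ^ B.length * (n + 1)) ^ (h + 1),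
        (stepS d pad B)^[t] (none, some w, fs) = (some (decide (Triv d w)), none, fs) ∧
        ∀ t' ≤ t, SBd n V B.length D ((stepS d pad B)^[t'] (none, some w, fs)) := by
  set Y := 8 * (B.length + 1) * 16 ^ B.length * (n + 1) with hY
  have hY1 : 1 ≤ Y := by
    have : 0 < 16 ^ B.length := by positivity
    exact Nat.pos_of_ne_zero (by positivity)
  -- trivial case
  have triv_case : ∀ (w : W) (fs : List Frame) (D : ℕ), WB n V w → (∀ f ∈ fs, FB n V B.length f) →
      fs.length ≤ D → red w = [] → Rn d n V D pad B (none, some w, fs) 1 (some (decide (Triv d w)), none, fs) := by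
    intro w fs D hw hfs hD hr
    have hT : Triv d w := by
      unfold Triv
      rw [(red_nil_iff w).1 hr]
      exact one_mem _
    rw [decide_eq_true hT]
    refine Rn.one ?_ ⟨?_, hD, hfs⟩ ⟨by simp, hD, hfs⟩
    · simp [stepS, stepW, hr]
    · rintro z ⟨⟩; exact hw
  suffices H : ∀ (w : W) (fs : List Frame) (D : ℕ), 3 ^ h * w.length < 4 ^ h → WB n V w →
      (∀ f ∈ fs, FB n V B.length f) → fs.length + h ≤ D →
      Rn d n V D pad B (none, some w, fs) (Y ^ (h + 1)) (some (decide (Triv d w)), none, fs) from H
  induction h with
  | zero =>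
    intro w fs D h1 h2 h3 h4
    have : w = [] := by
      rw [← List.length_eq_zero_iff]; simpa using h1
    subst this
    exact (triv_case [] fs D h2 h3 (by omega) (by rw [red_nil_iff]; rfl)).mono (by simpa using hY1)
  | succ h IH =>
    have hYh : 1 ≤ Y ^ (h + 1) := Nat.one_le_pow _ _ hY1
    set Z := 2 + 16 ^ B.length * (1 + B.length * (2 + Y ^ (h + 1))) with hZ
    have inner : ∀ (l : ℕ) (w : W) (fs : List Frame) (D : ℕ), w.length ≤ l → 3 ^ (h + 1) * w.length < 4 ^ (h + 1) →
        WB n V w → (∀ f ∈ fs, FB n V B.length f) → fs.length + (h + 1) ≤ D →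
        Rn d n V D pad B (none, some w, fs) ((l + 1) * Z) (some (decide (Triv d w)), none, fs) := by
      intro l
      induction l with
      | zero =>
        intro w fs D h0 h1 h2 h3 h4
        have : w = [] := by
          rw [← List.length_eq_zero_iff]; omega
        subst this
        exact (triv_case [] fs D h2 h3 (by omega) (by rw [red_nil_iff]; rfl)).mono (by omega)
      | succ l ihl =>
        intro w fs D h0 h1 h2 h3 h4
        by_cases hr : red w = []
        · refine (triv_case w fs D h2 h3 (by omega) hr).mono ?_
          have : (l + 1 + 1) * Z = (l + 1) * Z + Z := by ring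
          omega
        · have hle := red_length w
          have hwB : WB n V (red w) := ⟨hle.trans h2.1, fun a ha => h2.2 a (mem_red ha)⟩
          have hTiff : Triv d (red w) ↔ Triv d w := by unfold Triv; rw [red_mk]
          have hc0 : (B.map fun _ => iNop).length = B.length := by simp
          have hcv := cval_nop B
          have h1' : 3 ^ (h + 1) * (red w).length < 4 ^ (h + 1) :=
            (Nat.mul_le_mul le_rfl hle).trans_lt h1
          have hC := certs (d := d) (n := n) (V := V) (D := D) (pad := pad) (B := B)
            (Y := Y ^ (h + 1)) (Z := (l + 1) * Z) (w' := red w) (fs := fs) h3 (by omega) hwB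
            (fun hT => hcomp _ hwB.1 hr (red_reduced w) hT)
            (by
              intro x hx hxB fs' g1 g2
              refine IH x fs' D ?_ hxB g1 (by omega)
              have e1 : 4 * (3 ^ h * x.length) < 4 * 4 ^ h := by
                calc 4 * (3 ^ h * x.length) = 3 ^ h * (4 * x.length) := by ring
                  _ ≤ 3 ^ h * (3 * (red w).length) := Nat.mul_le_mul le_rfl hx
                  _ = 3 ^ (h + 1) * (red w).length := by ring
                  _ < 4 ^ (h + 1) := h1'
                  _ = 4 * 4 ^ h := by ring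
              omega)
            (by
              intro x hx hxB
              refine ihl x fs D (by omega) ?_ hxB h3 h4
              exact (Nat.mul_le_mul le_rfl hx.le).trans_lt h1')
            (16 ^ B.length) (B.map fun _ => iNop) hc0 (by omega) (by
              intro c' _ hlt
              omega)
          have e1 : Rn d n V D pad B (none, some w, fs) 1 (none, none, (red w, B.map (fun _ => iNop), none) :: fs) := by
            refine Rn.one ?_ ⟨?_, by dsimp only; omega, h3⟩ ⟨by simp, by simp; omega, ?_⟩
            · simp [stepS, stepW, hr]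
            · rintro z ⟨⟩; exact h2
            · intro f hf
              rcases List.mem_cons.1 hf with rfl | hf
              · exact ⟨hwB, by simp, by rintro r ⟨⟩⟩
              · exact h3 f hf
          have e2 := e1.trans hC
          rw [show decide (Triv d (red w)) = decide (Triv d w) from decide_eq_decide.2 hTiff] at e2
          refine e2.mono ?_
          have : (l + 1 + 1) * Z = (l + 1) * Z + Z := by ring
          omega
    intro w fs D h1 h2 h3 h4
    refine (inner w.length w fs D le_rfl h1 h2 h3 h4).mono ?_
    have hP : 1 ≤ 16 ^ B.length := Nat.one_le_pow _ _ (by norm_num)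
    have hn : w.length + 1 ≤ n + 1 := by have := h2.1; omega
    have hZle : Z ≤ (8 * (B.length + 1) * 16 ^ B.length) * Y ^ (h + 1) := by
      rw [hZ]
      set P := 16 ^ B.length
      set Y' := Y ^ (h + 1)
      have a1 : 2 ≤ 2 * (P * Y') := by
        have : 1 * 1 ≤ P * Y' := Nat.mul_le_mul hP hYh
        omega
      have a2 : 1 + B.length * (2 + Y') ≤ (1 + 3 * B.length) * Y' := by
        have : B.length * 1 ≤ B.length * Y' := Nat.mul_le_mul le_rfl hYh
        have : (1 + 3 * B.length) * Y' = Y' + 3 * (B.length * Y') := by ring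
        have : B.length * (2 + Y') = 2 * (B.length * 1) + B.length * Y' := by ring
        omega
      calc 2 + P * (1 + B.length * (2 + Y')) ≤ 2 * (P * Y') + P * ((1 + 3 * B.length) * Y') :=
            add_le_add a1 (Nat.mul_le_mul le_rfl a2)
        _ = (3 + 3 * B.length) * P * Y' := by ring
        _ ≤ (8 * (B.length + 1)) * P * Y' := by
            apply Nat.mul_le_mul _ le_rfl
            apply Nat.mul_le_mul _ le_rfl
            omega
    have hlast : ∀ C N Y' : ℕ, N * (C * Y') = Y' * (C * N) := by intros; ring
    calc (w.length + 1) * Z ≤ (n + 1) * ((8 * (B.length + 1) * 16 ^ B.length) * Y ^ (h + 1)) :=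
          Nat.mul_le_mul hn hZle
      _ = Y ^ (h + 1) * Y := hlast _ _ _
      _ = Y ^ (h + 1 + 1) := (pow_succ _ _).symm

end Pool.Agent.helper50.BW
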