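import Pool.Agent.helper50.BW.D1
/-! ## BW-D9 sizes of states (uses D1; 100 lines)
sz of an Ins ≤ 15, of a word bounded by WB ≤ (n+1)(V+5), etc. -/
namespace Pool.Agent.helper50.BW

theorem D9.sz_bool (b : Bool) : sz b ≤ 3 := by cases b <;> simp [sz, es_false, es_true]

theorem sz_WB {n V : ℕ} {w : W} (h : WB n V w) : sz w ≤ (n + 1) * (V + 5) := by
  obtain ⟨h1, h2⟩ := h
  have h3 := sz_le_mul (l := w) (M := V + 4) (fun b hb => by
    have := h2 b hb
    have e := sz_pair b.1 b.2
    have := D9.sz_bool b.2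
    have e2 : sz b = sz (b.1, b.2) := rfl
    omega)
  calc sz w ≤ 1 + w.length * (V + 4 + 1) := h3
    _ ≤ 1 + n * (V + 5) := by gcongr
    _ ≤ _ := by ring_nf; omega

theorem D9.sz_ins (a : Ins) : sz a ≤ 15 := by
  obtain ⟨a, b, c, d⟩ := a
  have := D9.sz_bool a
  have := D9.sz_bool b
  have := D9.sz_bool c
  have := D9.sz_bool d
  simp only [sz_pair]
  omega

theorem D9.sz_opt {α : Type} [Enc α] {M : ℕ} (o : Option α) (h : ∀ a, o = some a → sz a ≤ M) : sz o ≤ 2 + M := by
  cases o with
  | none => simp only [sz, es_none, List.length_singleton]; omega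
  | some a =>
    have := h a rfl
    simp only [sz, es_some, List.length_cons] at this ⊢
    omega

theorem sz_SBd {n V B D : ℕ} {s : SS} (h : SBd n V B D s) :
    sz s ≤ 100 * (D + 1) * (B + 1) * (n + 1) * (V + 5) := by
  obtain ⟨s1, s2, s3⟩ := s
  obtain ⟨h1, h2, h3⟩ := h
  dsimp only at h1 h2 h3
  set X := (n + 1) * (V + 5) with hX
  have hX5 : 5 ≤ X := by
    calc 5 ≤ V + 5 := by omega
      _ = 1 * (V + 5) := by ring
      _ ≤ X := Nat.mul_le_mul (by omega) le_rfl
  have e1 : sz s1 ≤ 2 + 3 := D9.sz_opt _ fun a _ => D9.sz_bool a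
  have e2 : sz s2 ≤ 2 + X := D9.sz_opt _ fun a ha => sz_WB (h1 a ha)
  have e3 : ∀ f ∈ s3, sz f ≤ 10 * ((B + 1) * X) := by
    intro f hf
    obtain ⟨f1, f2, f3⟩ := f
    obtain ⟨g1, g2, g3⟩ := h3 _ hf
    dsimp only at g1 g2 g3
    have k1 : sz f1 ≤ X := sz_WB g1
    have k2 : sz f2 ≤ 1 + B * 16 := by
      have := sz_le_mul (l := f2) (M := 15) (fun b _ => D9.sz_ins b)
      rw [g2] at this
      exact this
    have k3 : sz f3 ≤ 2 + (1 + B * (X + 1) + X + 1) := by
      apply D9.sz_opt
      rintro ⟨r1, r2⟩ hr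
      obtain ⟨g4, g5, g6⟩ := g3 _ hr
      dsimp only at g4 g5 g6
      have k4 := sz_le_mul (l := r1) (M := X) (fun b hb => sz_WB (g5 b hb))
      have k5 : sz r2 ≤ X := sz_WB g6
      have k6 : r1.length * (X + 1) ≤ B * (X + 1) := by gcongr
      rw [sz_pair]
      omega
    rw [sz_pair, sz_pair]
    have : B * 5 ≤ B * X := by gcongr
    have : B * (X + 1) = B * X + B := by ring
    have : (B + 1) * X = B * X + X := by ring
    omega
  have e4 := sz_le_mul (l := s3) e3
  have e5 : s3.length * (10 * ((B + 1) * X) + 1) ≤ D * (10 * ((B + 1) * X) + 1) := by gcongr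
  have e6 : 100 * (D + 1) * (B + 1) * (n + 1) * (V + 5) = 100 * ((D + 1) * ((B + 1) * X)) := by rw [hX]; ring
  rw [e6, sz_pair, sz_pair]
  have e7 : X ≤ (B + 1) * X := by
    calc X = 1 * X := by ring
      _ ≤ _ := by gcongr; omega
  have e8 : (D + 1) * ((B + 1) * X) = D * ((B + 1) * X) + (B + 1) * X := by ring
  have e9 : D * (10 * ((B + 1) * X) + 1) = 10 * (D * ((B + 1) * X)) + D := by ring
  have e10 : D * 1 ≤ D * ((B + 1) * X) := by gcongr; omega
  omega

theorem D9.sz_nat (k : ℕ) : sz k ≤ 1 + 4 * (dig k).length := by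
  have h : ∀ l : List Bool, sz l ≤ 1 + 4 * l.length := by
    intro l
    have := sz_le_mul (l := l) (M := 3) (fun b _ => D9.sz_bool b)
    omega
  exact h (dig k)

theorem D9.code_len (a : ℕ × Bool) : (code a).length = 1 + (dig a.1).length := by
  simp [code]; omega

theorem sz_var (w : W) {a : ℕ × Bool} (ha : a ∈ w) : sz a.1 ≤ 4 * (encW w).length + 1 := by
  have h1 := D9.sz_nat a.1
  have h2 := D9.code_len a
  have h3 : (code a).length ≤ (encW w).length := by
    obtain ⟨s, t, rfl⟩ := List.append_of_mem ha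
    simp only [encW, List.flatMap_append, List.flatMap_cons, List.length_append]
    omega
  omega
theorem length_le_enc (w : W) : w.length ≤ (encW w).length := by
  induction w with
  | nil => simp
  | cons a w ih =>
    have := D9.code_len a
    simp only [encW, List.flatMap_cons, List.length_append, List.length_cons] at ih ⊢
    omega

end Pool.Agent.helper50.BW
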