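import Pool.Agent.helper50.BW.C7
import Pool.Agent.helper50.BW.D6
import Pool.Agent.helper50.BW.D8
import Pool.Agent.helper50.BW.D9
import Pool.Agent.helper50.BW.D11
import Pool.Agent.helper50.BW.D12
import Pool.Agent.helper50.BW.D13
/-! ## BW-D14 the decision procedure (uses C7, D6, D8, D9, D11-D13; 300 lines)
Program: conv_run (register 1 = code of the list of pairs), FP program of initX ∘ parse from 1 to 2, clear 1, while_run on register 2
(f = stepX d, halt = haltX; T + 1 := the least t ≥ 1 with haltX true, ≤ the t of machine_run for n = w.length, V = 4|encW w| + 1, fs = [],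
D = h; after halting the state does not change: stepS (some b, none, []) = (some b, none, [])), FP program of the test
(fun x => decide (x.2.2.1 = some true)) from 2 to 3; case 3: symbol 1: push 1 1.
hcomp: MainStatement (w reduced, nonempty, trivial, |w| ≤ n): Move d R (DD d w (c log_b |w| + C)) w, move_cert with the parameters of
exists_CB, exists_pad for |w| (monotone in |w|: 3^m.., (d+2)^m.. for |w| ≤ n: use DD_mono to pass to m = c log_b n + C, Move.mono).
Total time: time_bound. -/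
namespace Pool.Agent.helper50.BW


open Function in
theorem d14_iter (d : ℕ) (pad B : List Unit) (s : SS) (t : ℕ) :
    (stepX d)^[t] (pad, B, s) = (pad, B, (stepS d pad B)^[t] s) := by
  induction t with
  | zero => rfl
  | succ t ih =>
    rw [Function.iterate_succ_apply', ih, Function.iterate_succ_apply']
    rfl

theorem d14_halt {d : ℕ} {pad B : List Unit} {s : SS} (h : haltS s = true) :
    haltS (stepS d pad B s) = true ∧ (stepS d pad B s).1 = s.1 := by
  obtain ⟨b, q, fs⟩ := s
  unfold haltS at h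
  cases b with
  | none => simp at h
  | some b =>
    cases fs with
    | nil => exact ⟨rfl, rfl⟩
    | cons f fs => simp at h

theorem d14_halt_iter {d : ℕ} {pad B : List Unit} {s : SS} (h : haltS s = true) (k : ℕ) :
    haltS ((stepS d pad B)^[k] s) = true ∧ ((stepS d pad B)^[k] s).1 = s.1 := by
  induction k with
  | zero => exact ⟨h, rfl⟩
  | succ k ih =>
    rw [Function.iterate_succ_apply']
    obtain ⟨h1, h2⟩ := d14_halt (d := d) (pad := pad) (B := B) ih.1
    exact ⟨h1, h2.trans ih.2⟩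

theorem d14_sz_rep (k : ℕ) : sz (List.replicate k ()) = 2 * k + 1 := by
  induction k with
  | zero => rfl
  | succ k ih =>
    rw [List.replicate_succ, sz_cons, ih]
    have : sz () = 1 := rfl
    rw [this]
    ring

theorem d14_sz_map (u : List A4) : sz (u.map sy2) ≤ 8 * u.length + 1 := by
  induction u with
  | nil => exact le_rfl
  | cons c u ih =>
    rw [List.map_cons, sz_cons, List.length_cons]
    have hb : ∀ b : Bool, sz b ≤ 3 := fun b => by cases b <;> decide
    have : sz (sy2 c) ≤ 7 := by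
      unfold sy2
      rw [sz_pair]
      have h1 := hb (decide (2 ≤ (A4.sy c : ℕ)))
      have h2 := hb (decide ((A4.sy c : ℕ) % 2 = 1))
      omega
    omega

theorem d14_pow {Z E C a : ℕ} (h8 : 8 * Z ≤ Z ^ 2) (hZ : 1 ≤ Z) (h : C + a ≤ 8 * Z) (hE : 2 * C ≤ E) :
    (C + a) ^ C ≤ Z ^ E := by
  calc (C + a) ^ C ≤ (Z ^ 2) ^ C := Nat.pow_le_pow_left (h.trans h8) _
    _ = Z ^ (2 * C) := by rw [← pow_mul]
    _ ≤ Z ^ E := Nat.pow_le_pow_right hZ hE

theorem d14_sum {A1 A2 A3 A4' A5 X P : ℕ} (h1 : A1 ≤ P) (h2 : A2 ≤ P) (h3 : A3 ≤ P) (h4 : A4' ≤ X * P)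
    (h5 : A5 ≤ P) (h6 : 2 ≤ P) : A1 + (A2 + (A3 + (A4' + (A5 + 2)))) ≤ 6 * ((X + 1) * P) := by
  have h : (X + 1) * P = X * P + P := by ring
  rw [h]
  generalize X * P = Q at *
  omega

/-- numerical estimate of the total time -/
theorem d14_time' {E Z C0 C1 C3 C4 n X Y T a M x : ℕ} (hE : E = C0 + 2 * (C1 + C3 + C4) + 20)
    (hZ : Z = E + Y + n) (ha : a ≤ 8 * n + 1) (hM : M ≤ 2 * Y + 4) (hx : x ≤ M) (hT : T ≤ X) :
    C0 * (n + 1) + ((C1 + a) ^ C1 + ((a + 1) + (T * (C3 + M) ^ C3 + ((C4 + x) ^ C4 + 2)))) ≤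
      E * (X + 1) * Z ^ E := by
  have hZ8 : 8 ≤ Z := by omega
  have hZ1 : 1 ≤ Z := by omega
  have h8 : 8 * Z ≤ Z ^ 2 := by
    rw [sq]
    exact Nat.mul_le_mul_right Z hZ8
  have hsq : Z ^ 2 ≤ Z ^ E := Nat.pow_le_pow_right hZ1 (by omega)
  have e0 : C0 * (n + 1) ≤ Z ^ E := by
    have h1 : C0 * (n + 1) ≤ Z * Z := Nat.mul_le_mul (by omega) (by omega)
    exact (h1.trans (le_of_eq (sq Z).symm)).trans hsq
  have e1 : (C1 + a) ^ C1 ≤ Z ^ E := d14_pow h8 hZ1 (by omega) (by omega)
  have e2 : a + 1 ≤ Z ^ E := le_trans (by omega) (h8.trans hsq)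
  have e3 : T * (C3 + M) ^ C3 ≤ X * Z ^ E :=
    Nat.mul_le_mul hT (d14_pow h8 hZ1 (by omega) (by omega))
  have e4 : (C4 + x) ^ C4 ≤ Z ^ E := d14_pow h8 hZ1 (by omega) (by omega)
  have e5 : 2 ≤ Z ^ E := le_trans (by omega) (h8.trans hsq)
  have hsum := d14_sum e0 e1 e2 e3 e4 e5
  refine hsum.trans ?_
  rw [mul_assoc E]
  exact Nat.mul_le_mul_right _ (by omega)

/-- numerical estimate of the total time -/
theorem d14_time {C0 C1 C3 C4 n X Y T a M x : ℕ} (ha : a ≤ 8 * n + 1) (hM : M ≤ 2 * Y + 4)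
    (hx : x ≤ M) (hT : T ≤ X) :
    C0 * (n + 1) + ((C1 + a) ^ C1 + ((a + 1) + (T * (C3 + M) ^ C3 + ((C4 + x) ^ C4 + 2)))) ≤
      (C0 + 2 * (C1 + C3 + C4) + 20) * (X + 1) *
        ((C0 + 2 * (C1 + C3 + C4) + 20) + Y + n) ^ (C0 + 2 * (C1 + C3 + C4) + 20) :=
  d14_time' rfl rfl ha hM hx hT

theorem dec_statement (hMain : MainStatement) : ∃ d₀ : ℕ, ∀ d ≥ d₀, Odd d → DecStatement d := by
  classical
  obtain ⟨d₀, hd₀⟩ := hMain
  refine ⟨d₀, fun d hd hodd => ?_⟩
  obtain ⟨b, c, C, R, hb, hbc, hmove⟩ := hd₀ d hd hodd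
  obtain ⟨CB, hCB⟩ := exists_CB (b := b) (c := c) C R d hb hbc
  obtain ⟨D₀, e, hpad⟩ := exists_pad (b := b) c C d hb
  -- the programs
  obtain ⟨P0, C0, hP0⟩ := conv_run
  have fp1 : FP (fun l => initX D₀ e CB (parse l)) := FP.comp (FP.initX D₀ e CB) FP.parse
  obtain ⟨C1, -, hP1⟩ := fp1
  obtain ⟨P1, hP1⟩ := hP1 1 2 3 (by omega) (by omega) (by omega)
  obtain ⟨C3, hP3⟩ := while_run (FP.stepX d) FP.haltX
  obtain ⟨P3, hP3⟩ := hP3 2 3 (by omega)
  have fp4 : FP (fun x : List Unit × List Unit × SS => decide (x.2.2.1 = some true)) :=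
    FP.eq (FP.comp FP.fst (FP.comp FP.snd FP.snd)) (FP.const (some true))
  obtain ⟨C4, -, hP4⟩ := fp4
  obtain ⟨P4, hP4⟩ := hP4 2 3 4 (by omega) (by omega) (by omega)
  set P5 : Pg := .case 3 (fun c => if c = some 1 then .push 1 1 else .skip) with hP5
  obtain ⟨Cr, hCr⟩ := time_bound CB D₀ e (C0 + 2 * (C1 + C3 + C4) + 20)
  refine ⟨.seq P0 (.seq P1 (.seq (clr 1) (.seq P3 (.seq P4 P5)))), Cr, fun w => ?_⟩
  set n := (encW w).length with hn
  set N := w.length with hN
  have hNn : N ≤ n := length_le_enc w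
  set Bn := CB * (rt9 N + 1) with hBn
  set pad : List Unit := List.replicate (D₀ * (N + 1) ^ e) () with hpad'
  set B : List Unit := List.replicate Bn () with hB'
  have hpl : pad.length = D₀ * (N + 1) ^ e := by rw [hpad', List.length_replicate]
  have hBl : B.length = Bn := by rw [hB', List.length_replicate]
  -- completeness of certificates
  have hcomp : ∀ w' : W, w'.length ≤ N → w' ≠ [] → FreeGroup.IsReduced w' → Triv d w' →
      ∃ c : List Ins, c.length = B.length ∧ ∃ r, tryC d pad w' c = some r ∧ ∀ x ∈ r.1, Triv d x := by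
    intro w' hw' hne hred htriv
    refine move_cert hne (hmove w' hne hred htriv) ?_ ?_
    · rw [hpl]
      refine (hpad w'.length).trans ?_
      exact Nat.mul_le_mul_left _ (Nat.pow_le_pow_left (by omega) _)
    · rw [hBl]
      refine (hCB w'.length).trans ?_
      exact Nat.mul_le_mul_left _ (by have := rt9_mono hw'; omega)
  obtain ⟨h, hh1, hh2⟩ := exists_h N
  have hWB : WB N (4 * n + 1) w := ⟨le_rfl, fun a ha => sz_var w ha⟩
  obtain ⟨t₁, ht₁, hrun, hbd⟩ := machine_run (d := d) (n := N) (V := 4 * n + 1) (pad := pad) (B := B)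
    hcomp h w [] h hh1 hWB (by simp) (by simp)
  set s0 : SS := (none, some w, []) with hs0
  set x0 : List Unit × List Unit × SS := (pad, B, s0) with hx0
  have hinit : initX D₀ e CB w = x0 := rfl
  -- halting time
  have hhalt₁ : haltX ((stepX d)^[t₁] x0) = true := by
    rw [hx0, d14_iter, hrun]
    rfl
  have ht₁pos : t₁ ≠ 0 := by
    intro h0
    rw [h0] at hrun
    have h1 := congrArg (fun s : SS => s.1) hrun
    simp [hs0] at h1
  have hex : ∃ t, 1 ≤ t ∧ haltX ((stepX d)^[t] x0) = true := ⟨t₁, by omega, hhalt₁⟩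
  set τ := Nat.find hex with hτ
  obtain ⟨hτ1, hτh⟩ := Nat.find_spec hex
  have hτt : τ ≤ t₁ := Nat.find_min' hex ⟨by omega, hhalt₁⟩
  obtain ⟨T, hT⟩ : ∃ T, τ = T + 1 := ⟨τ - 1, by omega⟩
  have hbefore : ∀ t ≤ T, t ≠ 0 → haltX ((stepX d)^[t] x0) = false := by
    intro t ht ht0
    have h1 := Nat.find_min hex (m := t) (by omega)
    push Not at h1
    have h2 := h1 (by omega)
    simpa using h2
  -- the result
  have hres : ((stepX d)^[T + 1] x0).2.2.1 = some (decide (Triv d w)) := by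
    have h1 : haltS ((stepS d pad B)^[τ] s0) = true := by
      have h2 : haltX ((stepX d)^[τ] (pad, B, s0)) = true := hτh
      rw [d14_iter] at h2
      exact h2
    obtain ⟨-, h3⟩ := d14_halt_iter (d := d) (pad := pad) (B := B) h1 (t₁ - τ)
    rw [← Function.iterate_add_apply, Nat.sub_add_cancel hτt, hrun] at h3
    rw [← hT, hx0, d14_iter]
    exact h3.symm
  -- sizes
  set Y := D₀ * (N + 1) ^ e + CB * (rt9 N + 1) + 100 * (4 * Nat.size N + 6) * (CB * (rt9 N + 1) + 1) *
        (N + 1) * (4 * n + 6) with hY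
  have hsz : ∀ t ≤ T + 1, sz ((stepX d)^[t] x0) ≤ 2 * Y + 4 := by
    intro t ht
    rw [hx0, d14_iter, sz_pair, sz_pair, hpad', d14_sz_rep, hB', d14_sz_rep]
    have h1 := sz_SBd (hbd t (by omega))
    rw [hBl] at h1
    have h2 : 100 * (h + 1) * (Bn + 1) * (N + 1) * (4 * n + 1 + 5) ≤
        100 * (4 * Nat.size N + 6) * (CB * (rt9 N + 1) + 1) * (N + 1) * (4 * n + 6) := by
      rw [← hBn]
      refine Nat.mul_le_mul (Nat.mul_le_mul (Nat.mul_le_mul (Nat.mul_le_mul le_rfl ?_) le_rfl)
        le_rfl) le_rfl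
      omega
    have h3 := h1.trans h2
    rw [← hB', ← hpad']
    rw [hY, ← hBn]
    rw [← hBn] at h3
    omega
  -- time of the machine
  have hX : T + 1 ≤ (8 * (CB * (rt9 N + 1) + 1) * 16 ^ (CB * (rt9 N + 1)) * (N + 1)) ^
      (4 * Nat.size N + 5) := by
    rw [← hT, ← hBn]
    refine hτt.trans (ht₁.trans ?_)
    rw [hBl]
    refine Nat.pow_le_pow_right ?_ (by omega)
    positivity
  -- run of the programs
  set a := (encW w).map sy2 with ha
  have hpa : parse a = w := parse_spec w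
  set σ1 : St := fun r => if r = 1 then es a else [] with hσ1
  have r0 : ExIn P0 (inp (encW w)) (C0 * (n + 1)) σ1 := hP0 (encW w)
  have r1 := hP1 a σ1 (by simp [hσ1]) (by simp [hσ1]) (fun r hr => by
    simp only [hσ1]; rw [if_neg (by omega)])
  simp only [hpa, hinit] at r1
  set σ2 := Function.update σ1 2 (es x0) with hσ2
  have r2 := clr_spec 1 σ2
  have hσ21 : (σ2 1).length = sz a := by
    rw [hσ2, Function.update_of_ne (by omega)]
    simp only [hσ1, if_true]
    rfl
  rw [hσ21] at r2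
  set σ3 := Function.update σ2 1 [] with hσ3
  have r3 := hP3 x0 σ3 T (2 * Y + 4) (by
      rw [hσ3, Function.update_of_ne (by omega), hσ2, Function.update_self])
    (fun r hr => by
      rw [hσ3, Function.update_of_ne (by omega), hσ2, Function.update_of_ne (by omega)]
      simp only [hσ1]; rw [if_neg (by omega)])
    (by rw [← hT]; exact hτh) hbefore hsz
  set xT := (stepX d)^[T + 1] x0 with hxT
  set σ4 := Function.update σ3 2 (es xT) with hσ4
  have r4 := hP4 xT σ4 (by rw [hσ4, Function.update_self])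
    (by
      rw [hσ4, Function.update_of_ne (by omega), hσ3, Function.update_of_ne (by omega), hσ2,
        Function.update_of_ne (by omega)]
      simp [hσ1])
    (fun r hr => by
      rw [hσ4, Function.update_of_ne (by omega), hσ3, Function.update_of_ne (by omega), hσ2,
        Function.update_of_ne (by omega)]
      simp only [hσ1]; rw [if_neg (by omega)])
  set σ5 := Function.update σ4 3 (es (decide (xT.2.2.1 = some true))) with hσ5
  have hσ51 : σ5 1 = [] := by
    rw [hσ5, Function.update_of_ne (by omega), hσ4, Function.update_of_ne (by omega), hσ3,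
      Function.update_self]
  have r5 : ∃ σ6, ExIn P5 σ5 2 σ6 ∧ (σ6 1 ≠ [] ↔ Triv d w) := by
    by_cases hw : Triv d w
    · have h3 : σ5 3 = [1, 0, 0] := by
        rw [hσ5, Function.update_self, hres]
        simp [hw, es_true]
      have e : Ex (if (some (1 : Sy)) = some 1 then Pg.push 1 1 else Pg.skip)
          (Function.update σ5 3 [0, 0]) 1
          (Function.update (Function.update σ5 3 [0, 0]) 1 (1 :: Function.update σ5 3 [0, 0] 1)) := by
        rw [if_pos rfl]
        exact Ex.push 1 1 _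
      refine ⟨Function.update (Function.update σ5 3 [0, 0]) 1 (1 :: Function.update σ5 3 [0, 0] 1),
        ⟨2, le_rfl, Ex.case_cons h3 e⟩, ?_⟩
      rw [Function.update_self]
      simp [hw]
    · have h3 : σ5 3 = [0] := by
        rw [hσ5, Function.update_self, hres]
        simp [hw, es_false]
      have e : Ex (if (some (0 : Sy)) = some 1 then Pg.push 1 1 else Pg.skip)
          (Function.update σ5 3 []) 0 (Function.update σ5 3 []) := by
        rw [if_neg (by decide)]
        exact Ex.skip _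
      refine ⟨Function.update σ5 3 [], ⟨1, by omega, Ex.case_cons h3 e⟩, ?_⟩
      rw [Function.update_of_ne (by omega), hσ51]
      simp [hw]
  obtain ⟨σ6, r5, hσ6⟩ := r5
  obtain ⟨t, ht, hEx⟩ := r0.seq (r1.seq (r2.seq (r3.seq (r4.seq r5))))
  refine ⟨σ6, t, hEx, ?_, hσ6⟩
  have hszx : sz xT ≤ 2 * Y + 4 := hsz (T + 1) le_rfl
  have htime := d14_time (C0 := C0) (C1 := C1) (C3 := C3) (C4 := C4) (n := n)
    (X := (8 * (CB * (rt9 N + 1) + 1) * 16 ^ (CB * (rt9 N + 1)) * (N + 1)) ^ (4 * Nat.size N + 5))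
    (Y := Y) (T := T + 1) (a := sz a) (M := 2 * Y + 4) (x := sz xT) (d14_sz_map (encW w)) le_rfl
    hszx hX
  have hfin := hCr n N hNn
  refine le_trans ?_ hfin
  exact_mod_cast ht.trans htime

end Pool.Agent.helper50.BW
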