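import Pool.Agent.helper50.BW.DefsP
import Pool.Agent.helper50.BW.M1
/-! ## BW-P2 identities and exponent sums (uses M1; 100 lines)
triv_iff: Fd d is normal (M1: Fd_normal), the quotient has exponent d; conversely lift φ kills all d-th powers.
esum_triv: the homomorphism to Multiplicative (ZMod d) which sends the variable i to a generator and the others to 1. -/
namespace Pool.Agent.helper50.BW


theorem triv_iff (d : ℕ) (w : W) : Triv d w ↔ IsId d w := by
  constructor
  · intro h G _ hG φ
    have h1 : Fd d ≤ (FreeGroup.lift φ).ker := by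
      unfold Fd
      rw [Subgroup.closure_le]
      rintro _ ⟨g, rfl⟩
      change FreeGroup.lift φ (g ^ d) = 1
      rw [map_pow, hG]
    exact h1 h
  · intro h
    have := Fd_normal d
    have h1 := h (FreeGroup ℕ ⧸ Fd d) (fun g => by
      induction g using QuotientGroup.induction_on with
      | H g =>
        rw [← QuotientGroup.mk_pow, QuotientGroup.eq_one_iff]
        exact Subgroup.subset_closure ⟨g, rfl⟩) (fun i => QuotientGroup.mk' (Fd d) (FreeGroup.of i))
    have h2 : FreeGroup.lift (fun i => QuotientGroup.mk' (Fd d) (FreeGroup.of i)) =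
        QuotientGroup.mk' (Fd d) := by
      apply FreeGroup.ext_hom
      intro i
      simp
    rw [h2] at h1
    exact (QuotientGroup.eq_one_iff _).1 h1

private theorem lift_esum (d i : ℕ) (w : W) :
    FreeGroup.lift (fun j => if j = i then Multiplicative.ofAdd (1 : ZMod d) else 1)
      (FreeGroup.mk w) = Multiplicative.ofAdd ((esum w i : ℤ) : ZMod d) := by
  rw [FreeGroup.lift_mk]
  induction w with
  | nil => simp [esum]
  | cons a w ih =>
    rw [List.map_cons, List.prod_cons, ih]
    have h1 : esum (a :: w) i = (if a.1 = i then (if a.2 then (1 : ℤ) else -1) else 0) + esum w i := by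
      simp [esum]
    rw [h1, Int.cast_add, ofAdd_add]
    congr 1
    obtain ⟨j, b⟩ := a
    by_cases hj : j = i
    · cases b <;> simp [hj]
    · cases b <;> simp [hj]

theorem esum_triv {d : ℕ} {w : W} (h : Triv d w) (i : ℕ) : (d : ℤ) ∣ esum w i := by
  have h1 := (triv_iff d w).1 h (Multiplicative (ZMod d)) (fun g => by
    rw [← ofAdd_toAdd g, ← ofAdd_nsmul]
    simp) (fun j => if j = i then Multiplicative.ofAdd (1 : ZMod d) else 1)
  rw [lift_esum] at h1
  have h2 : ((esum w i : ℤ) : ZMod d) = 0 := by
    have := congrArg Multiplicative.toAdd h1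
    simpa using this
  exact (CharP.intCast_eq_zero_iff (ZMod d) d _).1 h2

theorem cnt_esum {d : ℕ} (hd : 1 ≤ d) (w : W) (i : ℕ) : ((cnt d w i : ℤ) - esum w i) % d = 0 := by
  apply Int.emod_eq_zero_of_dvd
  induction w with
  | nil => simp [cnt, esum]
  | cons a w ih =>
    have h1 : esum (a :: w) i = (if a.1 = i then (if a.2 then (1 : ℤ) else -1) else 0) + esum w i := by
      simp [esum]
    have h2 : cnt d (a :: w) i = (if a.1 = i then (if a.2 then 1 else d - 1) else 0) + cnt d w i := by
      simp [cnt]
    obtain ⟨c, hc⟩ := ih
    obtain ⟨j, b⟩ := a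
    simp only at h1 h2
    rw [h1, h2]
    by_cases hj : j = i
    · cases b
      · simp only [hj, if_true, Bool.false_eq_true, if_false]
        refine ⟨c + 1, ?_⟩
        push_cast [Nat.cast_sub hd]
        linear_combination hc
      · simp only [hj, if_true]
        refine ⟨c, ?_⟩
        push_cast
        linear_combination hc
    · simp only [hj, if_false]
      refine ⟨c, ?_⟩
      push_cast
      linear_combination hc

end Pool.Agent.helper50.BW
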