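import Pool.Agent.helper50.BW.P4
/-! ## BW-P5 all letters pass (uses P4; 100 lines)
j ≥ 8: k := Nat.log 16 (j/8), 8 * 16^k ≤ j; J := 4^(k+1), m := 2^k, lo := 2^k - 1: m J (k+2) = 4 * 8^k (k+2) ≤ 8 * 16^k.  (1 - 1/J)^J ≤ exp(-1) ≤ 1/2
(Real.add_one_le_exp), so the base is ≤ 3/4.  AP implies PF. -/
namespace Pool.Agent.helper50.BW

private theorem P5_pow_le_half (n : ℕ) : ((1 : ℝ) - (1 / 4) ^ n) ^ (4 ^ n) ≤ 1 / 2 := by
  have hq0 : (0 : ℝ) < (1 / 4) ^ n := by positivity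
  have hq1 : ((1 : ℝ) / 4) ^ n ≤ 1 := pow_le_one₀ (by norm_num) (by norm_num)
  have h1 : (1 : ℝ) - (1 / 4) ^ n ≤ Real.exp (-((1 / 4) ^ n)) := by
    have := Real.add_one_le_exp (-((1 / 4 : ℝ) ^ n))
    linarith
  have h2 : ((1 : ℝ) - (1 / 4) ^ n) ^ (4 ^ n) ≤ Real.exp (-((1 / 4) ^ n)) ^ (4 ^ n) :=
    pow_le_pow_left₀ (by linarith) h1 _
  have h3 : Real.exp (-((1 / 4 : ℝ) ^ n)) ^ (4 ^ n) = Real.exp (-1) := by
    rw [← Real.exp_nat_mul]
    congr 1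
    push_cast
    have : (4 : ℝ) ^ n * (1 / 4) ^ n = 1 := by
      rw [← mul_pow]; norm_num
    linarith
  have h4 : Real.exp (-1) ≤ 1 / 2 := by
    rw [Real.exp_neg]
    have h5 : (2 : ℝ) ≤ Real.exp 1 := by
      have := Real.add_one_le_exp (1 : ℝ)
      linarith
    rw [inv_le_comm₀ (Real.exp_pos 1) (by norm_num)]
    simpa using h5
  rw [h3] at h2
  exact h2.trans h4

private theorem P5_k (k : ℕ) : k + 2 ≤ 2 * 2 ^ k := by
  induction k with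
  | zero => norm_num
  | succ k ih => rw [pow_succ]; omega

theorem AP_bound {d : ℕ} (hd : Odd d) (h3 : 3 ≤ d) (v : List A4) (j : ℕ) :
    EE j (fun z => ind (AP d v z)) ≤ eta j := by
  by_cases hj : 8 ≤ j
  · rw [eta, if_pos hj]
    set k := Nat.log 16 (j / 8) with hk
    have hj8 : j / 8 ≠ 0 := by omega
    have hpow : 16 ^ k ≤ j / 8 := Nat.pow_log_le_self 16 hj8
    have hpow' : 8 * 16 ^ k ≤ j := by omega
    have h2k : 1 ≤ 2 ^ k := Nat.one_le_two_pow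
    have hlo : 2 ^ k - 1 + 2 ^ k = 2 ^ (k + 1) - 1 := by
      rw [pow_succ]; omega
    have hJ : 2 ^ k * 4 ^ (k + 1) * (k + 2) ≤ j := by
      have h1 : 2 ^ k * 4 ^ (k + 1) * (k + 2) ≤ 2 ^ k * 4 ^ (k + 1) * (2 * 2 ^ k) :=
        Nat.mul_le_mul_left _ (P5_k k)
      have h2 : 2 ^ k * 4 ^ (k + 1) * (2 * 2 ^ k) = 8 * 16 ^ k := by
        have h16 : (16 : ℕ) ^ k = 2 ^ k * 4 ^ k * 2 ^ k := by
          rw [← mul_pow, ← mul_pow]; norm_num
        rw [h16, pow_succ]; ring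
      omega
    have key := PF_bound (k := k) (J := 4 ^ (k + 1)) hd h3 (2 ^ k) (2 ^ k - 1) hlo le_rfl v j hJ
    have hAP : EE j (fun z => ind (AP d v z)) ≤
        EE j (fun z => ind (PF d (2 ^ k - 1) (2 ^ (k + 1) - 1) v z)) :=
      EE_mono fun z _ => ind_mono fun h i _ _ hi => h i hi
    refine hAP.trans (key.trans ?_)
    have hhalf := P5_pow_le_half (k + 1)
    have hnn : (0 : ℝ) ≤ (1 - (1 / 4) ^ (k + 1)) ^ (4 ^ (k + 1)) := by
      have hq1 : ((1 : ℝ) / 4) ^ (k + 1) ≤ 1 := pow_le_one₀ (by norm_num) (by norm_num)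
      have : (0 : ℝ) ≤ 1 - (1 / 4) ^ (k + 1) := by linarith
      positivity
    exact pow_le_pow_left₀ (by linarith) (by linarith) _
  · rw [eta, if_neg hj]
    calc EE j (fun z => ind (AP d v z)) ≤ EE j (fun _ => (1 : ℝ)) :=
          EE_mono fun z _ => ind_le_one _
      _ = 1 := EE_const j 1

end Pool.Agent.helper50.BW
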