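import Pool.Agent.helper50.BW.DefsP
/-! ## BW-P6 numerics (Mathlib; 150 lines)
2^(log16 (j/8)) ≥ (1/2) (j/16)^(1/4), so eta j ≤ exp(-c j^(1/4)) with c > 0 (j ≥ 8).  The series converges (eta j ≤ C / j^2), and
exp(C (n+1)^(1/8)) eta n is bounded (C (n+1)^(1/8) - c n^(1/4) is bounded above). -/
namespace Pool.Agent.helper50.BW


theorem eta_nonneg (j : ℕ) : 0 ≤ eta j := by
  unfold eta
  split_ifs
  · positivity
  · exact zero_le_one

/-- the constant in the exponent -/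
noncomputable def p6_c : ℝ := Real.log (4 / 3) / 4

theorem p6_c_pos : 0 < p6_c := by
  unfold p6_c
  have : 0 < Real.log (4 / 3) := Real.log_pos (by norm_num)
  positivity

theorem p6_pow (j : ℕ) (hj : 8 ≤ j) : (j : ℝ) ^ (1 / 4 : ℝ) / 4 ≤ (2 : ℝ) ^ Nat.log 16 (j / 8) := by
  have hm : 1 ≤ j / 8 := by omega
  have h1 : j / 8 < 16 ^ (Nat.log 16 (j / 8) + 1) := Nat.lt_pow_succ_log_self (by norm_num) _
  have h2 : j ≤ 16 * 16 ^ (Nat.log 16 (j / 8) + 1) := by omega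
  have h3 : (j : ℝ) ≤ 16 * 16 ^ (Nat.log 16 (j / 8) + 1) := by exact_mod_cast h2
  have h4 : (16 : ℝ) * 16 ^ (Nat.log 16 (j / 8) + 1) = (4 * 2 ^ Nat.log 16 (j / 8)) ^ 4 := by
    rw [pow_succ, mul_pow, ← pow_mul, mul_comm (Nat.log 16 (j / 8)) 4, pow_mul]
    norm_num
    ring
  rw [h4] at h3
  have h5 : (j : ℝ) ^ (1 / 4 : ℝ) ≤ ((4 * 2 ^ Nat.log 16 (j / 8)) ^ 4 : ℝ) ^ (1 / 4 : ℝ) :=
    Real.rpow_le_rpow (Nat.cast_nonneg _) h3 (by norm_num)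
  have h6 : ((4 * 2 ^ Nat.log 16 (j / 8)) ^ 4 : ℝ) ^ (1 / 4 : ℝ) = 4 * 2 ^ Nat.log 16 (j / 8) := by
    rw [← Real.rpow_natCast, ← Real.rpow_mul (by positivity)]
    norm_num
  rw [h6] at h5
  linarith

theorem p6_eta (j : ℕ) : eta j ≤ Real.exp (2 * p6_c) * Real.exp (-(p6_c * (j : ℝ) ^ (1 / 4 : ℝ))) := by
  have hc := p6_c_pos
  unfold eta
  rw [← Real.exp_add]
  split_ifs with h
  · have h1 := p6_pow j h
    have h2 : ((3 / 4 : ℝ)) ^ (2 ^ Nat.log 16 (j / 8)) =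
        Real.exp (-(Real.log (4 / 3) * 2 ^ Nat.log 16 (j / 8))) := by
      have e : (3 / 4 : ℝ) = Real.exp (-Real.log (4 / 3)) := by
        rw [Real.exp_neg, Real.exp_log (by norm_num)]
        norm_num
      conv_lhs => rw [e]
      rw [← Real.exp_nat_mul]
      congr 1
      push_cast
      ring
    rw [h2]
    apply Real.exp_le_exp.2
    have h3 : p6_c * (j : ℝ) ^ (1 / 4 : ℝ) ≤ Real.log (4 / 3) * 2 ^ Nat.log 16 (j / 8) := by
      have hl : 0 < Real.log (4 / 3) := Real.log_pos (by norm_num)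
      have : p6_c * (j : ℝ) ^ (1 / 4 : ℝ) = Real.log (4 / 3) * ((j : ℝ) ^ (1 / 4 : ℝ) / 4) := by
        unfold p6_c
        ring
      rw [this]
      exact mul_le_mul_of_nonneg_left h1 hl.le
    linarith
  · have h1 : (j : ℝ) ^ (1 / 4 : ℝ) ≤ 2 := by
      have h2 : (j : ℝ) ≤ 16 := by
        have : j ≤ 16 := by omega
        exact_mod_cast this
      have h3 : (j : ℝ) ^ (1 / 4 : ℝ) ≤ (16 : ℝ) ^ (1 / 4 : ℝ) :=
        Real.rpow_le_rpow (Nat.cast_nonneg _) h2 (by norm_num)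
      have h4 : (16 : ℝ) ^ (1 / 4 : ℝ) = 2 := by
        rw [show (16 : ℝ) = 2 ^ (4 : ℝ) by norm_num, ← Real.rpow_mul (by norm_num)]
        norm_num
      linarith
    refine le_trans (le_of_eq Real.exp_zero.symm) (Real.exp_le_exp.2 ?_)
    nlinarith

theorem p6_exp_neg {y : ℝ} (hy : 0 < y) : Real.exp (-y) ≤ 40320 / y ^ 8 := by
  have h := Real.pow_div_factorial_le_exp y hy.le 8
  rw [Real.exp_neg, ← one_div, div_le_div_iff₀ (Real.exp_pos _) (by positivity)]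
  rw [div_le_iff₀ (by positivity)] at h
  have : ((Nat.factorial 8 : ℕ) : ℝ) = 40320 := by norm_num [Nat.factorial]
  rw [this] at h
  linarith

theorem p6_bound (j : ℕ) : eta (j + 1) ≤
    (Real.exp (2 * p6_c) * (40320 / p6_c ^ 8)) * (1 / ((j + 1 : ℕ) : ℝ) ^ 2) := by
  have hc := p6_c_pos
  have hj : (0 : ℝ) < ((j + 1 : ℕ) : ℝ) := by positivity
  have h1 := p6_eta (j + 1)
  have hy : 0 < p6_c * ((j + 1 : ℕ) : ℝ) ^ (1 / 4 : ℝ) := by positivity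
  have h2 := p6_exp_neg hy
  have h3 : (((j + 1 : ℕ) : ℝ) ^ (1 / 4 : ℝ)) ^ 8 = ((j + 1 : ℕ) : ℝ) ^ 2 := by
    rw [← Real.rpow_natCast, ← Real.rpow_mul hj.le, ← Real.rpow_natCast]
    norm_num
  rw [mul_pow, h3] at h2
  refine h1.trans ?_
  have h4 : Real.exp (2 * p6_c) * Real.exp (-(p6_c * ((j + 1 : ℕ) : ℝ) ^ (1 / 4 : ℝ))) ≤
      Real.exp (2 * p6_c) * (40320 / (p6_c ^ 8 * ((j + 1 : ℕ) : ℝ) ^ 2)) :=
    mul_le_mul_of_nonneg_left h2 (Real.exp_pos _).le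
  refine h4.trans (le_of_eq ?_)
  field_simp

theorem eta_sum : ∃ C : ℝ, ∀ n : ℕ, ∑ j ∈ Finset.range n, eta (j + 1) ≤ C := by
  have hs : Summable fun j : ℕ => (Real.exp (2 * p6_c) * (40320 / p6_c ^ 8)) *
      (1 / ((j + 1 : ℕ) : ℝ) ^ 2) := by
    apply Summable.mul_left
    exact (summable_nat_add_iff (f := fun j : ℕ => 1 / (j : ℝ) ^ 2) 1).2
      (Real.summable_one_div_nat_pow.2 (by norm_num))
  have hs' : Summable fun j : ℕ => eta (j + 1) :=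
    Summable.of_nonneg_of_le (fun j => eta_nonneg _) p6_bound hs
  exact ⟨∑' j, eta (j + 1), fun n => hs'.sum_le_tsum _ fun j _ => eta_nonneg _⟩

theorem eta_exp (C : ℝ) : ∃ C' : ℝ, ∀ n : ℕ, Real.exp (C * ((n : ℝ) + 1) ^ (1 / 8 : ℝ)) * eta n ≤ C' := by
  have hc := p6_c_pos
  refine ⟨Real.exp (2 * p6_c + (C ^ 2 / (4 * p6_c) + p6_c)), fun n => ?_⟩
  set s : ℝ := ((n : ℝ) + 1) ^ (1 / 8 : ℝ) with hs
  have hn : (0 : ℝ) ≤ n := Nat.cast_nonneg _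
  have hs2 : ((n : ℝ) + 1) ^ (1 / 4 : ℝ) = s ^ 2 := by
    rw [hs, ← Real.rpow_natCast, ← Real.rpow_mul (by positivity)]
    norm_num
  have h1 : s ^ 2 ≤ (n : ℝ) ^ (1 / 4 : ℝ) + 1 := by
    rw [← hs2]
    have := Real.rpow_add_le_add_rpow hn zero_le_one (by norm_num : (0 : ℝ) ≤ 1 / 4)
      (by norm_num : (1 / 4 : ℝ) ≤ 1)
    rwa [Real.one_rpow] at this
  have h2 : C * s ≤ p6_c * s ^ 2 + C ^ 2 / (4 * p6_c) := by
    have h3 : C ^ 2 / (4 * p6_c) = (C / (2 * p6_c)) ^ 2 * p6_c := by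
      field_simp
      ring
    have h4 : C * s = 2 * (C / (2 * p6_c)) * s * p6_c := by
      field_simp
    rw [h3, h4]
    nlinarith [mul_nonneg hc.le (sq_nonneg (s - C / (2 * p6_c)))]
  calc Real.exp (C * s) * eta n
      ≤ Real.exp (C * s) * (Real.exp (2 * p6_c) * Real.exp (-(p6_c * (n : ℝ) ^ (1 / 4 : ℝ)))) :=
        mul_le_mul_of_nonneg_left (p6_eta n) (Real.exp_pos _).le
    _ = Real.exp (C * s + (2 * p6_c + -(p6_c * (n : ℝ) ^ (1 / 4 : ℝ)))) := by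
        rw [Real.exp_add, Real.exp_add]
    _ ≤ _ := by
        apply Real.exp_le_exp.2
        nlinarith

end Pool.Agent.helper50.BW
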