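import Pool.Agent.helper50.BW.DefsE
/-! ## BW-C2 basic stack programs (uses DefsC; 250 lines)
pour r o = loop r (push o).  clear r = loop r skip.  copy i o s = pour i s; loop s (push i, push o).
move i o s = pour i s; pour s o.  pushl o l: push the symbols of l so that l is on top.
split s b c t: register s contains x.str ++ rest, moves x.str to b: c := counter (one symbol), loop c: pop s; symbol 1: push t 1, push c twice;
symbol 0: push t 0; then pour t b.  (Number of steps = number of nodes; invariant: counter = number of trees still to be read.)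
eqt a b f: compares and clears the registers a, b: leaves f = [0] if different, f = [] if equal. -/
namespace Pool.Agent.helper50.BW


open Function
theorem ExIn.mono {P : Pg} {σ σ' : St} {t t' : ℕ} (h : ExIn P σ t σ') (ht : t ≤ t') : ExIn P σ t' σ' := by
  obtain ⟨u, hu, h1⟩ := h
  exact ⟨u, hu.trans ht, h1⟩
theorem ExIn.seq {a b : Pg} {σ σ' σ'' : St} {t t' : ℕ} (h : ExIn a σ t σ') (h' : ExIn b σ' t' σ'') :
    ExIn (.seq a b) σ (t + t') σ'' := by
  obtain ⟨u, hu, h1⟩ := h
  obtain ⟨u', hu', h1'⟩ := h'
  exact ⟨u + u', by omega, Ex.seq h1 h1'⟩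
private theorem c2_skip (σ : St) : ExIn .skip σ 0 σ := ⟨0, le_rfl, Ex.skip σ⟩
private theorem c2_push (r : ℕ) (c : Sy) (σ : St) : ExIn (.push r c) σ 1 (update σ r (c :: σ r)) :=
  ⟨1, le_rfl, Ex.push r c σ⟩
private theorem c2_case_nil {r : ℕ} {a : Option Sy → Pg} {σ σ' : St} {t : ℕ} (h : σ r = [])
    (h' : ExIn (a none) σ t σ') : ExIn (.case r a) σ (t + 1) σ' := by
  obtain ⟨u, hu, h1⟩ := h'
  exact ⟨u + 1, by omega, Ex.case_nil h h1⟩
private theorem c2_case_cons {r : ℕ} {a : Option Sy → Pg} {c : Sy} {l : List Sy} {σ σ' : St} {t : ℕ}
    (h : σ r = c :: l) (h' : ExIn (a (some c)) (update σ r l) t σ') : ExIn (.case r a) σ (t + 1) σ' := by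
  obtain ⟨u, hu, h1⟩ := h'
  exact ⟨u + 1, by omega, Ex.case_cons h h1⟩
private theorem c2_loop_nil {r : ℕ} {a : Sy → Pg} {σ : St} (h : σ r = []) : ExIn (.loop r a) σ 1 σ :=
  ⟨1, le_rfl, Ex.loop_nil h⟩
private theorem c2_loop_cons {r : ℕ} {a : Sy → Pg} {c : Sy} {l : List Sy} {σ σ' σ'' : St} {t t' : ℕ}
    (h : σ r = c :: l) (h1 : ExIn (a c) (update σ r l) t σ') (h2 : ExIn (.loop r a) σ' t' σ'') :
    ExIn (.loop r a) σ (t + t' + 1) σ'' := by
  obtain ⟨u, hu, k1⟩ := h1
  obtain ⟨u', hu', k2⟩ := h2
  exact ⟨u + u' + 1, by omega, Ex.loop_cons h k1 k2⟩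
private theorem c2_conv {P : Pg} {σ σ' σ'' : St} {t t' : ℕ} (h : ExIn P σ t σ') (ht : t ≤ t')
    (hs : σ' = σ'') : ExIn P σ t' σ'' := by
  subst hs
  exact h.mono ht
def pour (r o : ℕ) : Pg := .loop r fun c => .push o c
def clr (r : ℕ) : Pg := .loop r fun _ => .skip
def copy (i o s : ℕ) : Pg := .seq (pour i s) (.loop s fun c => .seq (.push i c) (.push o c))
def mv (i o s : ℕ) : Pg := .seq (pour i s) (pour s o)
def pushl (o : ℕ) (l : List Sy) : Pg := l.foldr (fun c P => .seq P (.push o c)) .skip
private theorem c2_pour {r o : ℕ} (h : r ≠ o) (l : List Sy) : ∀ σ : St, σ r = l →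
    ExIn (pour r o) σ (2 * l.length + 1) (update (update σ r []) o (l.reverse ++ σ o)) := by
  induction l with
  | nil =>
    intro σ hσ
    refine c2_conv (c2_loop_nil hσ) (by simp) ?_
    funext k
    simp only [update_apply]
    split_ifs <;> simp_all
  | cons c l ih =>
    intro σ hσ
    refine c2_conv (c2_loop_cons hσ (c2_push o c _) (ih _ ?_)) (by simp; omega) ?_
    · simp [update_apply, h]
    · funext k
      simp only [update_apply]
      split_ifs <;> simp_all
theorem pour_spec {r o : ℕ} (h : r ≠ o) (σ : St) :
    ExIn (pour r o) σ (2 * (σ r).length + 1) (update (update σ r []) o ((σ r).reverse ++ σ o)) :=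
  c2_pour h _ σ rfl
private theorem c2_clr (r : ℕ) (l : List Sy) : ∀ σ : St, σ r = l →
    ExIn (clr r) σ (l.length + 1) (update σ r []) := by
  induction l with
  | nil =>
    intro σ hσ
    refine c2_conv (c2_loop_nil hσ) (by simp) ?_
    funext k
    simp only [update_apply]
    split_ifs <;> simp_all
  | cons c l ih =>
    intro σ hσ
    refine c2_conv (c2_loop_cons hσ (c2_skip _) (ih _ ?_)) (by simp) ?_
    · simp
    · simp
theorem clr_spec (r : ℕ) (σ : St) : ExIn (clr r) σ ((σ r).length + 1) (update σ r []) :=
  c2_clr r _ σ rfl
private theorem c2_copy {i o s : ℕ} (h1 : i ≠ o) (h2 : i ≠ s) (h3 : o ≠ s) (l : List Sy) : ∀ σ : St,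
    σ s = l → ExIn (.loop s fun c => .seq (.push i c) (.push o c)) σ (3 * l.length + 1)
      (update (update (update σ s []) i (l.reverse ++ σ i)) o (l.reverse ++ σ o)) := by
  induction l with
  | nil =>
    intro σ hσ
    refine c2_conv (c2_loop_nil hσ) (by simp) ?_
    funext k
    simp only [update_apply]
    split_ifs <;> simp_all
  | cons c l ih =>
    intro σ hσ
    refine c2_conv (c2_loop_cons hσ ((c2_push i c _).seq (c2_push o c _)) (ih _ ?_))
      (by simp; omega) ?_
    · simp [update_apply, h2.symm, h3.symm]
    · funext k
      simp only [update_apply]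
      split_ifs <;> simp_all
theorem copy_spec {i o s : ℕ} (h1 : i ≠ o) (h2 : i ≠ s) (h3 : o ≠ s) (σ : St) (hs : σ s = []) :
    ExIn (copy i o s) σ (5 * (σ i).length + 2) (update σ o (σ i ++ σ o)) := by
  refine c2_conv ((pour_spec h2 σ).seq (c2_copy h1 h2 h3 (σ i).reverse _ ?_)) ?_ ?_
  · simp [hs]
  · simp only [List.length_reverse]
    omega
  · funext k
    simp only [update_apply]
    split_ifs <;> simp_all
theorem mv_spec {i o s : ℕ} (h1 : i ≠ o) (h2 : i ≠ s) (h3 : o ≠ s) (σ : St) (hs : σ s = []) :
    ExIn (mv i o s) σ (4 * (σ i).length + 2) (update (update σ i []) o (σ i ++ σ o)) := by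
  refine c2_conv ((pour_spec h2 σ).seq (c2_pour h3.symm (σ i).reverse _ ?_)) ?_ ?_
  · simp [hs]
  · simp only [List.length_reverse]
    omega
  · funext k
    simp only [update_apply]
    split_ifs <;> simp_all
theorem pushl_spec (o : ℕ) (l : List Sy) (σ : St) :
    ExIn (pushl o l) σ l.length (update σ o (l ++ σ o)) := by
  induction l with
  | nil =>
    refine c2_conv (c2_skip σ) (by simp) ?_
    simp
  | cons c l ih =>
    refine c2_conv (ih.seq (c2_push o c _)) (by simp) ?_
    simp
private def c2body (s c t : ℕ) (d : Option Sy) : Pg :=
  if d = some 1 then .seq (.push t 1) (.seq (.push c 0) (.push c 0)) else .push t 0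
private theorem c2_split {s c t : ℕ} (h2 : s ≠ c) (h3 : s ≠ t) (h6 : c ≠ t) (m : ℕ) :
    ∀ (xs : List Tr) (rest : List Sy) (L : List Sy) (σ : St), (xs.flatMap Tr.str).length = m →
      L.length = xs.length → σ c = L → σ s = xs.flatMap Tr.str ++ rest →
      ExIn (.loop c fun _ => .case s (c2body s c t)) σ (5 * m + 1)
        (update (update (update σ c []) s rest) t ((xs.flatMap Tr.str).reverse ++ σ t)) := by
  induction m with
  | zero =>
    intro xs rest L σ hm hL hc hs
    cases xs with
    | cons x xs =>
      exfalso
      have := x.str_pos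
      simp only [List.flatMap_cons, List.length_append] at hm
      omega
    | nil =>
      have hL' : L = [] := by simpa using hL
      rw [hL'] at hc
      refine c2_conv (c2_loop_nil hc) (by simp) ?_
      funext k
      simp only [update_apply]
      split_ifs <;> simp_all
  | succ m ih =>
    intro xs rest L σ hm hL hc hs
    cases xs with
    | nil => simp at hm
    | cons x xs =>
      cases L with
      | nil => simp at hL
      | cons y L =>
        cases x with
        | nil =>
          simp only [List.flatMap_cons, Tr.str, List.cons_append, List.nil_append] at hs hm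
          have e1 : (update σ c L) s = 0 :: (xs.flatMap Tr.str ++ rest) := by
            simp [update_apply, h2, hs]
          have hb : ExIn (c2body s c t (some 0)) (update (update σ c L) s (xs.flatMap Tr.str ++ rest)) 1
              (update (update (update σ c L) s (xs.flatMap Tr.str ++ rest)) t
                (0 :: (update (update σ c L) s (xs.flatMap Tr.str ++ rest)) t)) := by
            have : c2body s c t (some 0) = .push t 0 := by simp [c2body]
            rw [this]
            exact c2_push t 0 _
          refine c2_conv (c2_loop_cons hc (c2_case_cons e1 hb) (ih xs rest L _ ?_ ?_ ?_ ?_)) ?_ ?_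
          · simpa using hm
          · simpa using hL
          · simp [update_apply, h2.symm, h6]
          · simp [update_apply, h3]
          · omega
          · funext k
            simp only [update_apply]
            split_ifs <;> simp_all [Tr.str]
        | cons p q =>
          simp only [List.flatMap_cons, Tr.str, List.cons_append] at hs hm
          have e0 : (p.str ++ q.str) ++ xs.flatMap Tr.str = (p :: q :: xs).flatMap Tr.str := by
            simp
          rw [e0] at hs hm
          have e1 : (update σ c L) s = 1 :: ((p :: q :: xs).flatMap Tr.str ++ rest) := by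
            simp only [update_apply, h2, if_false, hs]
          have hb : ExIn (c2body s c t (some 1))
              (update (update σ c L) s ((p :: q :: xs).flatMap Tr.str ++ rest)) 3
              (update (update (update σ s ((p :: q :: xs).flatMap Tr.str ++ rest)) t (1 :: σ t)) c
                (0 :: 0 :: L)) := by
            have : c2body s c t (some 1) = .seq (.push t 1) (.seq (.push c 0) (.push c 0)) := by
              simp [c2body]
            rw [this]
            refine c2_conv ((c2_push t 1 _).seq ((c2_push c 0 _).seq (c2_push c 0 _))) (by simp) ?_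
            funext k
            simp only [update_apply]
            split_ifs <;> simp_all
          refine c2_conv (c2_loop_cons hc (c2_case_cons e1 hb)
            (ih (p :: q :: xs) rest (0 :: 0 :: L) _ ?_ ?_ ?_ ?_)) ?_ ?_
          · simpa using hm
          · simpa using hL
          · simp
          · simp only [update_apply, h2, h3, if_false, if_true]
          · omega
          · funext k
            simp only [update_apply]
            split_ifs <;> simp_all [Tr.str]
theorem split_spec {s b c t : ℕ} (h1 : s ≠ b) (h2 : s ≠ c) (h3 : s ≠ t) (h4 : b ≠ c) (h5 : b ≠ t) (h6 : c ≠ t) :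
    ∃ P : Pg, ∀ (x : Tr) (rest : List Sy) (σ : St), σ s = x.str ++ rest → σ b = [] → σ c = [] → σ t = [] →
      ExIn P σ (10 * x.str.length + 10) (update (update σ s rest) b x.str) := by
  refine ⟨.seq (.push c 0) (.seq (.loop c fun _ => .case s (c2body s c t)) (pour t b)), ?_⟩
  intro x rest σ hs hb hc ht
  refine c2_conv ((c2_push c 0 σ).seq ((c2_split h2 h3 h6 x.str.length [x] rest [0] _
    ?_ ?_ ?_ ?_).seq (c2_pour h5.symm x.str.reverse _ ?_))) ?_ ?_
  · simp
  · simp
  · simp [hc]
  · simp [update_apply, h2, hs]
  · simp [update_apply, h6.symm, ht]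
  · simp only [List.length_reverse]
    omega
  · funext k
    simp only [update_apply]
    split_ifs <;> simp_all
private def c2set (f : ℕ) : Pg := .case f fun _ => .push f 0
private theorem c2_set (f : ℕ) (σ : St) (h : σ f = [] ∨ σ f = [0]) :
    ExIn (c2set f) σ 2 (update σ f [0]) := by
  rcases h with h | h
  · refine c2_conv (c2_case_nil h (c2_push f 0 σ)) (by simp) ?_
    rw [h]
  · refine c2_conv (c2_case_cons h (c2_push f 0 _)) (by simp) ?_
    simp
private theorem c2_eq1 {a b f : ℕ} (h1 : a ≠ b) (h2 : a ≠ f) (h3 : b ≠ f) (A : List Sy) : ∀ σ : St,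
    σ a = A → (σ f = [] ∨ σ f = [0]) →
    ExIn (.loop a fun x => .case b fun y => if y = some x then .skip else c2set f) σ
      (4 * A.length + 1) (update (update (update σ a []) b ((σ b).drop A.length)) f
        (if σ f = [] ∧ A <+: σ b then [] else [0])) := by
  induction A with
  | nil =>
    intro σ ha hf
    refine c2_conv (c2_loop_nil ha) (by simp) ?_
    funext k
    simp only [update_apply]
    rcases hf with hf | hf <;> split_ifs <;> simp_all
  | cons x A ih =>
    intro σ ha hf
    cases hb : σ b with
    | nil =>
      have e1 : (update σ a A) b = [] := by simp [update_apply, h1.symm, hb]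
      have e2 : (update σ a A) f = [] ∨ (update σ a A) f = [0] := by
        simpa [update_apply, h2.symm] using hf
      have hbody : ExIn (if (none : Option Sy) = some x then .skip else c2set f) (update σ a A) 2
          (update (update σ a A) f [0]) := by
        rw [if_neg (by simp)]
        exact c2_set f _ e2
      refine c2_conv (c2_loop_cons ha (c2_case_nil e1 hbody) (ih _ ?_ ?_)) ?_ ?_
      · simp [update_apply, h2]
      · simp
      · simp only [List.length_cons]
        omega
      · funext k
        simp only [update_apply]
        split_ifs <;> simp_all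
    | cons y B =>
      have e1 : (update σ a A) b = y :: B := by simp [update_apply, h1.symm, hb]
      by_cases hxy : y = x
      · subst hxy
        have hbody : ExIn (if (some y : Option Sy) = some y then .skip else c2set f)
            (update (update σ a A) b B) 0 (update (update σ a A) b B) := by
          rw [if_pos rfl]
          exact c2_skip _
        refine c2_conv (c2_loop_cons ha (c2_case_cons e1 hbody) (ih _ ?_ ?_)) ?_ ?_
        · simp [update_apply, h1]
        · simpa [update_apply, h2.symm, h3.symm] using hf
        · simp only [List.length_cons]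
          omega
        · funext k
          simp only [update_apply]
          split_ifs <;> simp_all
      · have e2 : (update (update σ a A) b B) f = [] ∨ (update (update σ a A) b B) f = [0] := by
          simpa [update_apply, h2.symm, h3.symm] using hf
        have hbody : ExIn (if (some y : Option Sy) = some x then .skip else c2set f)
            (update (update σ a A) b B) 2 (update (update (update σ a A) b B) f [0]) := by
          rw [if_neg (by simpa using hxy)]
          exact c2_set f _ e2
        refine c2_conv (c2_loop_cons ha (c2_case_cons e1 hbody) (ih _ ?_ ?_)) ?_ ?_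
        · simp [update_apply, h1, h2]
        · simp
        · simp only [List.length_cons]
          omega
        · have hxy' : ¬ x = y := fun h => hxy h.symm
          funext k
          simp only [update_apply]
          split_ifs <;> simp_all
private theorem c2_eq2 {b f : ℕ} (h3 : b ≠ f) (B : List Sy) : ∀ σ : St,
    σ b = B → (σ f = [] ∨ σ f = [0]) →
    ExIn (.loop b fun _ => c2set f) σ (3 * B.length + 1)
      (update (update σ b []) f (if σ f = [] ∧ B = [] then [] else [0])) := by
  induction B with
  | nil =>
    intro σ hb hf
    refine c2_conv (c2_loop_nil hb) (by simp) ?_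
    funext k
    simp only [update_apply]
    rcases hf with hf | hf <;> split_ifs <;> simp_all
  | cons y B ih =>
    intro σ hb hf
    have e2 : (update σ b B) f = [] ∨ (update σ b B) f = [0] := by
      simpa [update_apply, h3.symm] using hf
    refine c2_conv (c2_loop_cons hb (c2_set f _ e2) (ih _ ?_ ?_)) ?_ ?_
    · simp [update_apply, h3]
    · simp
    · simp only [List.length_cons]
      omega
    · funext k
      simp only [update_apply]
      split_ifs <;> simp_all
theorem eqt_spec {a b f : ℕ} (h1 : a ≠ b) (h2 : a ≠ f) (h3 : b ≠ f) :
    ∃ P : Pg, ∀ (σ : St), σ f = [] →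
      ExIn P σ (10 * ((σ a).length + (σ b).length) + 10)
        (update (update (update σ a []) b []) f (if σ a = σ b then [] else [0])) := by
  refine ⟨.seq (.loop a fun x => .case b fun y => if y = some x then .skip else c2set f)
    (.loop b fun _ => c2set f), ?_⟩
  intro σ hf
  refine c2_conv ((c2_eq1 h1 h2 h3 (σ a) σ rfl (Or.inl hf)).seq
    (c2_eq2 h3 ((σ b).drop (σ a).length) _ ?_ ?_)) ?_ ?_
  · simp [update_apply, h3]
  · simp only [update_self]
    split_ifs <;> simp
  · simp only [List.length_drop]
    omega
  · have key : ((σ a <+: σ b) ∧ (σ b).drop (σ a).length = []) ↔ σ a = σ b := by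
      constructor
      · rintro ⟨⟨u, hu⟩, h⟩
        rw [← hu] at h ⊢
        rw [List.drop_left] at h
        simp [h]
      · intro h
        rw [h]
        simp
    funext k
    simp only [update_apply, if_true]
    split_ifs <;> simp_all

end Pool.Agent.helper50.BW
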