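import Pool.Agent.helper50.BW.DefsP
import Pool.Agent.helper50.BW.C2
/-! ## BW-P7 the scan (uses C2; 300 lines)
Registers: 2 = encoding of w, last symbol on top; 6 = digits of the pattern, lowest on top; 5, 7, 8, 9 working registers.
loop 2 (c ↦ push 5 c; if c is a digit (0, 1): case 6: some c' ↦ push 7 c', if c' ≠ c push 8 0; none ↦ push 8 0.
 If c is a sign (2, 3): case 6: some c' ↦ push 6 c' (no match); none ↦ case 8: some ↦ push 8 0 (no match); none ↦ match: if c = 2 push 9 0, if c = 3
 push 9 0 (d - 1) times.  Then pour 7 6; clr 8.)   Finally pour 5 2.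
Reading a letter (i', s) of w from the end: its digits lowest first, then the sign.  At the sign: 6 empty and 8 empty iff dig i' = dig i.
Cost per letter ≤ C * (length of its code). -/
namespace Pool.Agent.helper50.BW

open Function

private theorem p7_skip (σ : St) : ExIn .skip σ 0 σ := ⟨0, le_rfl, Ex.skip σ⟩

private theorem p7_push (r : ℕ) (c : Sy) (σ : St) : ExIn (.push r c) σ 1 (update σ r (c :: σ r)) :=
  ⟨1, le_rfl, Ex.push r c σ⟩

private theorem p7_case_nil {r : ℕ} {a : Option Sy → Pg} {σ σ' : St} {t : ℕ} (h : σ r = [])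
    (h' : ExIn (a none) σ t σ') : ExIn (.case r a) σ (t + 1) σ' := by
  obtain ⟨u, hu, h1⟩ := h'
  exact ⟨u + 1, by omega, Ex.case_nil h h1⟩

private theorem p7_case_cons {r : ℕ} {a : Option Sy → Pg} {c : Sy} {l : List Sy} {σ σ' : St} {t : ℕ}
    (h : σ r = c :: l) (h' : ExIn (a (some c)) (update σ r l) t σ') : ExIn (.case r a) σ (t + 1) σ' := by
  obtain ⟨u, hu, h1⟩ := h'
  exact ⟨u + 1, by omega, Ex.case_cons h h1⟩

private theorem p7_loop_nil {r : ℕ} {a : Sy → Pg} {σ : St} (h : σ r = []) : ExIn (.loop r a) σ 1 σ :=
  ⟨1, le_rfl, Ex.loop_nil h⟩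

private theorem p7_loop_cons {r : ℕ} {a : Sy → Pg} {c : Sy} {l : List Sy} {σ σ' σ'' : St} {t t' : ℕ}
    (h : σ r = c :: l) (h1 : ExIn (a c) (update σ r l) t σ') (h2 : ExIn (.loop r a) σ' t' σ'') :
    ExIn (.loop r a) σ (t + t' + 1) σ'' := by
  obtain ⟨u, hu, k1⟩ := h1
  obtain ⟨u', hu', k2⟩ := h2
  exact ⟨u + u' + 1, by omega, Ex.loop_cons h k1 k2⟩

private theorem p7_conv {P : Pg} {σ σ' σ'' : St} {t t' : ℕ} (h : ExIn P σ t σ') (ht : t ≤ t')
    (hs : σ' = σ'') : ExIn P σ t' σ'' := by
  subst hs
  exact h.mono ht

/-- the sign symbol -/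
private def p7sg (s : Bool) : Sy := if s then 2 else 3

private def p7inc (d : ℕ) (c : Sy) : Pg := if c = 2 then .push 9 0 else pushl 9 (List.replicate (d - 1) 0)

private def p7dig (c : Sy) : Option Sy → Pg
  | some c' => .seq (.push 7 c') (if c' = c then .skip else .push 8 0)
  | none => .push 8 0

private def p7e8 (d : ℕ) (c : Sy) : Option Sy → Pg
  | some e => .push 8 e
  | none => p7inc d c

private def p7sgn (d : ℕ) (c : Sy) : Option Sy → Pg
  | some c' => .push 6 c'
  | none => .case 8 (p7e8 d c)

private def p7body (d : ℕ) (c : Sy) : Pg :=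
  .seq (.push 5 c) (if c = 0 ∨ c = 1 then .case 6 (p7dig c)
    else .seq (.case 6 (p7sgn d c)) (.seq (pour 7 6) (clr 8)))

private theorem p7_bsy (b : Bool) : bsy b = 0 ∨ bsy b = 1 := by
  cases b <;> simp [bsy]

/-- the state after the digits ds -/
private def p7st (σ : St) (rest : List Sy) (ds : List Bool) (v : List Sy) : St :=
  update (update (update (update (update σ 2 rest) 5 ((ds.map bsy).reverse ++ σ 5)) 6
    ((σ 6).drop ds.length)) 7 (((σ 6).take ds.length).reverse ++ σ 7)) 8 v

private theorem p7_digits (d : ℕ) (ds : List Bool) : ∀ (σ : St) (rest : List Sy),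
    σ 2 = ds.map bsy ++ rest →
    ∃ v : List Sy, (v = [] ↔ (σ 8 = [] ∧ ds.map bsy <+: σ 6)) ∧ v.length ≤ (σ 8).length + ds.length ∧
      ∀ (t : ℕ) (σf : St), ExIn (.loop 2 (p7body d)) (p7st σ rest ds v) t σf →
        ExIn (.loop 2 (p7body d)) σ (5 * ds.length + t) σf := by
  induction ds with
  | nil =>
    intro σ rest h
    refine ⟨σ 8, by simp, by simp, ?_⟩
    intro t σf hf
    have e : p7st σ rest [] (σ 8) = σ := by
      funext k
      simp only [p7st, update_apply]
      split_ifs <;> simp_all
    rw [e] at hf
    simpa using hf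
  | cons b ds ih =>
    intro σ rest h
    simp only [List.map_cons, List.cons_append] at h
    have hb : p7body d (bsy b) = .seq (.push 5 (bsy b)) (.case 6 (p7dig (bsy b))) := by
      unfold p7body
      rw [if_pos (p7_bsy b)]
    cases h6 : σ 6 with
    | nil =>
      have e1 : (update (update σ 2 (ds.map bsy ++ rest)) 5 (bsy b :: σ 5)) 6 = [] := by
        simp [h6]
      have hbody : ExIn (p7body d (bsy b)) (update σ 2 (ds.map bsy ++ rest)) 3
          (update (update (update σ 2 (ds.map bsy ++ rest)) 5 (bsy b :: σ 5)) 8 (0 :: σ 8)) := by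
        rw [hb]
        refine p7_conv ((p7_push 5 (bsy b) _).seq (p7_case_nil (a := p7dig (bsy b)) ?_
          (p7_push 8 0 _))) (by simp) ?_
        · simp [h6]
        · simp
      obtain ⟨v, hv1, hv2, hv3⟩ := ih (update (update (update σ 2 (ds.map bsy ++ rest)) 5 (bsy b :: σ 5)) 8
        (0 :: σ 8)) rest (by simp)
      refine ⟨v, ?_, ?_, ?_⟩
      · rw [hv1]
        simp
      · simp only [update_self, List.length_cons] at hv2 ⊢
        omega
      · intro t σf hf
        refine p7_conv (p7_loop_cons h hbody (hv3 t σf ?_)) (by simp only [List.length_cons]; omega) rfl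
        have e : p7st (update (update (update σ 2 (ds.map bsy ++ rest)) 5 (bsy b :: σ 5)) 8 (0 :: σ 8)) rest ds v
            = p7st σ rest (b :: ds) v := by
          funext k
          simp only [p7st, update_apply]
          split_ifs <;> simp_all
        rw [e]
        exact hf
    | cons c' l =>
      by_cases hc : c' = bsy b
      · have hbody : ExIn (p7body d (bsy b)) (update σ 2 (ds.map bsy ++ rest)) 3
            (update (update (update (update σ 2 (ds.map bsy ++ rest)) 5 (bsy b :: σ 5)) 6 l) 7 (c' :: σ 7)) := by
          rw [hb]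
          have h0 : p7dig (bsy b) (some c') = .seq (.push 7 c') .skip := by
            simp [p7dig, hc]
          refine p7_conv ((p7_push 5 (bsy b) _).seq (p7_case_cons (a := p7dig (bsy b)) (c := c') (l := l) ?_
            (t := 1) ?_)) (by simp) rfl
          · simp [h6]
          · rw [h0]
            refine p7_conv ((p7_push 7 c' _).seq (p7_skip _)) (by simp) ?_
            simp
        obtain ⟨v, hv1, hv2, hv3⟩ := ih (update (update (update (update σ 2 (ds.map bsy ++ rest)) 5
          (bsy b :: σ 5)) 6 l) 7 (c' :: σ 7)) rest (by simp)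
        refine ⟨v, ?_, ?_, ?_⟩
        · rw [hv1]
          simp [hc]
        · have : (update (update (update (update σ 2 (ds.map bsy ++ rest)) 5
            (bsy b :: σ 5)) 6 l) 7 (c' :: σ 7)) 8 = σ 8 := by simp
          rw [this] at hv2
          simp only [List.length_cons]
          omega
        · intro t σf hf
          refine p7_conv (p7_loop_cons h hbody (hv3 t σf ?_)) (by simp only [List.length_cons]; omega) rfl
          have e : p7st (update (update (update (update σ 2 (ds.map bsy ++ rest)) 5
            (bsy b :: σ 5)) 6 l) 7 (c' :: σ 7)) rest ds v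
              = p7st σ rest (b :: ds) v := by
            funext k
            simp only [p7st, update_apply]
            split_ifs <;> simp_all
          rw [e]
          exact hf
      · have hbody : ExIn (p7body d (bsy b)) (update σ 2 (ds.map bsy ++ rest)) 4
            (update (update (update (update (update σ 2 (ds.map bsy ++ rest)) 5 (bsy b :: σ 5)) 6 l) 7
              (c' :: σ 7)) 8 (0 :: σ 8)) := by
          rw [hb]
          have h0 : p7dig (bsy b) (some c') = .seq (.push 7 c') (.push 8 0) := by
            simp [p7dig, hc]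
          refine p7_conv ((p7_push 5 (bsy b) _).seq (p7_case_cons (a := p7dig (bsy b)) (c := c') (l := l) ?_
            (t := 2) ?_)) (by simp) rfl
          · simp [h6]
          · rw [h0]
            refine p7_conv ((p7_push 7 c' _).seq (p7_push 8 0 _)) (by simp) ?_
            simp
        obtain ⟨v, hv1, hv2, hv3⟩ := ih (update (update (update (update (update σ 2 (ds.map bsy ++ rest)) 5
          (bsy b :: σ 5)) 6 l) 7 (c' :: σ 7)) 8 (0 :: σ 8)) rest (by simp)
        refine ⟨v, ?_, ?_, ?_⟩
        · rw [hv1]
          have hc' : ¬ bsy b = c' := fun h => hc h.symm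
          simp [hc']
        · simp only [update_self, List.length_cons] at hv2 ⊢
          omega
        · intro t σf hf
          refine p7_conv (p7_loop_cons h hbody (hv3 t σf ?_)) (by simp only [List.length_cons]; omega) rfl
          have e : p7st (update (update (update (update (update σ 2 (ds.map bsy ++ rest)) 5
            (bsy b :: σ 5)) 6 l) 7 (c' :: σ 7)) 8 (0 :: σ 8)) rest ds v
              = p7st σ rest (b :: ds) v := by
            funext k
            simp only [p7st, update_apply]
            split_ifs <;> simp_all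
          rw [e]
          exact hf

/-- contribution of a sign -/
private def p7ct (d : ℕ) (s : Bool) : ℕ := if s then 1 else d - 1

private theorem p7_inc (d : ℕ) (s : Bool) (σ : St) :
    ExIn (p7inc d (p7sg s)) σ (d + 1) (update σ 9 (List.replicate (p7ct d s) 0 ++ σ 9)) := by
  cases s with
  | true =>
    have h0 : p7inc d (p7sg true) = .push 9 0 := by simp [p7inc, p7sg]
    rw [h0]
    refine p7_conv (p7_push 9 0 σ) (by omega) ?_
    simp [p7ct]
  | false =>
    have h0 : p7inc d (p7sg false) = pushl 9 (List.replicate (d - 1) 0) := by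
      simp [p7inc, p7sg]
    rw [h0]
    refine p7_conv (pushl_spec 9 (List.replicate (d - 1) 0) σ) (by simp; omega) ?_
    simp [p7ct]

open Classical in
private theorem p7_sign (d : ℕ) (s : Bool) (σ : St) (rest : List Sy) (h : σ 2 = p7sg s :: rest)
    (t : ℕ) (σf : St)
    (hf : ExIn (.loop 2 (p7body d)) (update (update (update (update (update (update σ 2 rest) 5 (p7sg s :: σ 5)) 6
      ((σ 7).reverse ++ σ 6)) 7 []) 8 []) 9
      ((if σ 6 = [] ∧ σ 8 = [] then List.replicate (p7ct d s) 0 else []) ++ σ 9)) t σf) :
    ExIn (.loop 2 (p7body d)) σ (d + 10 + 2 * (σ 7).length + (σ 8).length + t) σf := by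
  have hb : p7body d (p7sg s) = .seq (.push 5 (p7sg s)) (.seq (.case 6 (p7sgn d (p7sg s)))
      (.seq (pour 7 6) (clr 8))) := by
    unfold p7body
    rw [if_neg (by cases s <;> simp [p7sg])]
  have hmid : ExIn (.case 6 (p7sgn d (p7sg s))) (update (update σ 2 rest) 5 (p7sg s :: σ 5)) (d + 3)
      (update (update (update σ 2 rest) 5 (p7sg s :: σ 5)) 9
        ((if σ 6 = [] ∧ σ 8 = [] then List.replicate (p7ct d s) 0 else []) ++ σ 9)) := by
    cases h6 : σ 6 with
    | cons c' l =>
      refine p7_conv (p7_case_cons (c := c') (l := l) (t := 1) ?_ (p7_push 6 c' _)) (by omega) ?_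
      · simp [h6]
      · funext k
        simp only [update_apply]
        split_ifs <;> simp_all
    | nil =>
      cases h8 : σ 8 with
      | cons e l =>
        refine p7_conv (p7_case_nil (t := 2) ?_ (p7_case_cons (a := p7e8 d (p7sg s)) (c := e) (l := l) (t := 1) ?_
          (p7_push 8 e _))) (by omega) ?_
        · simp [h6]
        · simp [h8]
        · funext k
          simp only [update_apply]
          split_ifs <;> simp_all
      | nil =>
        refine p7_conv (p7_case_nil (t := d + 2) ?_ (p7_case_nil (a := p7e8 d (p7sg s)) (t := d + 1) ?_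
          (p7_inc d s _))) (by omega) ?_
        · simp [h6]
        · simp [h8]
        · simp
  have hbody : ExIn (p7body d (p7sg s)) (update σ 2 rest) (d + 9 + 2 * (σ 7).length + (σ 8).length)
      (update (update (update (update (update (update σ 2 rest) 5 (p7sg s :: σ 5)) 6
      ((σ 7).reverse ++ σ 6)) 7 []) 8 []) 9
      ((if σ 6 = [] ∧ σ 8 = [] then List.replicate (p7ct d s) 0 else []) ++ σ 9)) := by
    rw [hb]
    have e5 : update (update σ 2 rest) 5 (p7sg s :: (update σ 2 rest) 5) =
        update (update σ 2 rest) 5 (p7sg s :: σ 5) := by simp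
    have h5 := p7_push 5 (p7sg s) (update σ 2 rest)
    rw [e5] at h5
    refine p7_conv (h5.seq (hmid.seq ((pour_spec (r := 7) (o := 6) (by decide) _).seq (clr_spec 8 _)))) ?_ ?_
    · simp
      omega
    · funext k
      simp only [update_apply]
      split_ifs <;> simp_all
  exact p7_conv (p7_loop_cons h hbody hf) (by omega) rfl

/-- reading one letter -/
private theorem p7_letter (d : ℕ) (a : ℕ × Bool) (i : ℕ) (σ : St) (rest : List Sy)
    (h : σ 2 = (dig a.1).map bsy ++ p7sg a.2 :: rest) (h6 : σ 6 = (dig i).map bsy) (h7 : σ 7 = [])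
    (h8 : σ 8 = []) (t : ℕ) (σf : St)
    (hf : ExIn (.loop 2 (p7body d)) (update (update (update σ 2 rest) 5
      (p7sg a.2 :: (((dig a.1).map bsy).reverse ++ σ 5))) 9
        (List.replicate (if a.1 = i then p7ct d a.2 else 0) 0 ++ σ 9)) t σf) :
    ExIn (.loop 2 (p7body d)) σ ((d + 20) * ((dig a.1).length + 1) + t) σf := by
  obtain ⟨v, hv1, hv2, hv3⟩ := p7_digits d (dig a.1) σ (p7sg a.2 :: rest) h
  set σ1 := p7st σ (p7sg a.2 :: rest) (dig a.1) v with hσ1
  have hs2 : σ1 2 = p7sg a.2 :: rest := by simp [hσ1, p7st]
  have hs5 : σ1 5 = ((dig a.1).map bsy).reverse ++ σ 5 := by simp [hσ1, p7st]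
  have hs6 : σ1 6 = (σ 6).drop (dig a.1).length := by simp [hσ1, p7st]
  have hs7 : σ1 7 = ((σ 6).take (dig a.1).length).reverse := by simp [hσ1, p7st, h7]
  have hs8 : σ1 8 = v := by simp [hσ1, p7st]
  have hs9 : σ1 9 = σ 9 := by simp [hσ1, p7st]
  have key : (σ1 6 = [] ∧ σ1 8 = []) ↔ a.1 = i := by
    rw [hs6, hs8, hv1, h6]
    constructor
    · rintro ⟨h1, -, h2⟩
      have h3 : (dig i).length ≤ (dig a.1).length := by
        have := congrArg List.length h1
        simp at this
        omega
      have h4 : (dig a.1).map bsy = (dig i).map bsy := h2.eq_of_length_le (by simpa using h3)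
      have hinj : Function.Injective bsy := by
        intro x y hxy
        cases x <;> cases y <;> simp_all [bsy]
      exact dig_inj (List.map_injective_iff.2 hinj h4)
    · intro h1
      subst h1
      refine ⟨by simp, h8, List.prefix_rfl⟩
  have hl7 : (σ1 7).length ≤ (dig a.1).length := by
    rw [hs7]
    simp
  have hl8 : (σ1 8).length ≤ (dig a.1).length := by
    rw [hs8]
    simpa [h8] using hv2
  refine p7_conv (hv3 _ σf (p7_sign d a.2 σ1 rest hs2 t σf ?_)) ?_ rfl
  · have e : (update (update (update (update (update (update σ1 2 rest) 5 (p7sg a.2 :: σ1 5)) 6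
        ((σ1 7).reverse ++ σ1 6)) 7 []) 8 []) 9
        ((if σ1 6 = [] ∧ σ1 8 = [] then List.replicate (p7ct d a.2) 0 else []) ++ σ1 9)) =
        (update (update (update σ 2 rest) 5
        (p7sg a.2 :: (((dig a.1).map bsy).reverse ++ σ 5))) 9
        (List.replicate (if a.1 = i then p7ct d a.2 else 0) 0 ++ σ 9)) := by
      have h9 : ((if σ1 6 = [] ∧ σ1 8 = [] then List.replicate (p7ct d a.2) 0 else []) : List Sy) =
          List.replicate (if a.1 = i then p7ct d a.2 else 0) 0 := by
        by_cases hi : a.1 = i
        · rw [if_pos (key.2 hi), if_pos hi]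
        · rw [if_neg (fun h => hi (key.1 h)), if_neg hi]
          rfl
      have h67 : (σ1 7).reverse ++ σ1 6 = σ 6 := by
        rw [hs7, hs6]
        simp
      rw [h9, h67, hs5, hs9]
      funext k
      simp only [update_apply]
      split_ifs <;> simp_all [p7st, update_apply]
    rw [e]
    exact hf
  · nlinarith

/-- the reversed code of a word -/
private def p7fl (L : List (ℕ × Bool)) : List Sy := L.flatMap fun a => (dig a.1).map bsy ++ [p7sg a.2]

private theorem p7_word (d i : ℕ) (L : List (ℕ × Bool)) : ∀ (σ : St), σ 2 = p7fl L →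
    σ 6 = (dig i).map bsy → σ 7 = [] → σ 8 = [] →
    ExIn (.loop 2 (p7body d)) σ ((d + 20) * (p7fl L).length + 1)
      (update (update (update σ 2 []) 5 ((p7fl L).reverse ++ σ 5)) 9
        (List.replicate ((L.map fun a => if a.1 = i then p7ct d a.2 else 0).sum) 0 ++ σ 9)) := by
  induction L with
  | nil =>
    intro σ h2 h6 h7 h8
    have h2' : σ 2 = [] := by simpa [p7fl] using h2
    refine p7_conv (p7_loop_nil h2') (by simp [p7fl]) ?_
    funext k
    simp only [update_apply]
    split_ifs <;> simp_all [p7fl]
  | cons a L ih =>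
    intro σ h2 h6 h7 h8
    have h2' : σ 2 = (dig a.1).map bsy ++ p7sg a.2 :: p7fl L := by
      rw [h2]
      simp [p7fl]
    have hih := ih (update (update (update σ 2 (p7fl L)) 5
      (p7sg a.2 :: (((dig a.1).map bsy).reverse ++ σ 5))) 9
        (List.replicate (if a.1 = i then p7ct d a.2 else 0) 0 ++ σ 9)) (by simp) (by simpa using h6)
        (by simpa using h7) (by simpa using h8)
    refine p7_conv (p7_letter d a i σ (p7fl L) h2' h6 h7 h8 _ _ hih) ?_ ?_
    · have : (p7fl (a :: L)).length = (dig a.1).length + 1 + (p7fl L).length := by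
        simp [p7fl]
        omega
      rw [this]
      nlinarith
    · set σ1 : St := (update (update (update σ 2 (p7fl L)) 5
      (p7sg a.2 :: (((dig a.1).map bsy).reverse ++ σ 5))) 9
        (List.replicate (if a.1 = i then p7ct d a.2 else 0) 0 ++ σ 9)) with hσ1
      have A5 : (p7fl L).reverse ++ σ1 5 = (p7fl (a :: L)).reverse ++ σ 5 := by
        simp [hσ1, p7fl]
      have A9 : List.replicate ((L.map fun a => if a.1 = i then p7ct d a.2 else 0).sum) 0 ++ σ1 9 =
          List.replicate (((a :: L).map fun a => if a.1 = i then p7ct d a.2 else 0).sum) 0 ++ σ 9 := by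
        rw [hσ1, update_self, ← List.append_assoc, List.replicate_append_replicate, List.map_cons,
          List.sum_cons, Nat.add_comm]
      rw [A5, A9]
      funext k
      simp only [update_apply, hσ1]
      split_ifs <;> simp_all

private theorem p7_enc (w : W) : ((encW w).map A4.sy).reverse = p7fl w.reverse := by
  induction w with
  | nil => simp [encW, p7fl]
  | cons a w ih =>
    have e1 : encW (a :: w) = code a ++ encW w := by simp [encW]
    rw [e1, List.map_append, List.reverse_append, ih]
    have e2 : ((code a).map A4.sy).reverse = (dig a.1).map bsy ++ [p7sg a.2] := by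
      unfold code
      cases h : a.2
      · simp [A4.sy, p7sg, bsy, Function.comp_def]
      · simp [A4.sy, p7sg, bsy, Function.comp_def]
    rw [e2]
    simp [p7fl]

theorem scan_spec (d : ℕ) : ∃ (P : Pg) (C : ℕ), ∀ (w : W) (i : ℕ) (σ : St),
    σ 2 = ((encW w).map A4.sy).reverse → σ 6 = (dig i).map bsy → σ 5 = [] → σ 7 = [] → σ 8 = [] → σ 9 = [] →
      ExIn P σ (C * ((encW w).length + 1)) (Function.update σ 9 (List.replicate (cnt d w i) 0)) := by
  refine ⟨.seq (.loop 2 (p7body d)) (pour 5 2), d + 30, ?_⟩
  intro w i σ h2 h6 h5 h7 h8 h9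
  have hlen : (p7fl w.reverse).length = (encW w).length := by
    rw [← p7_enc]
    simp
  have hcnt : ((w.reverse.map fun a => if a.1 = i then p7ct d a.2 else 0).sum) = cnt d w i := by
    rw [List.map_reverse, List.sum_reverse]
    unfold cnt p7ct
    rfl
  have h1 := p7_word d i w.reverse σ (by rw [h2, p7_enc]) h6 h7 h8
  refine p7_conv (h1.seq (pour_spec (r := 5) (o := 2) (by decide) _)) ?_ ?_
  · have : (update (update (update σ 2 []) 5 ((p7fl w.reverse).reverse ++ σ 5)) 9
        (List.replicate ((w.reverse.map fun a => if a.1 = i then p7ct d a.2 else 0).sum) 0 ++ σ 9)) 5 =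
        (p7fl w.reverse).reverse := by
      simp [h5]
    rw [this, List.length_reverse, hlen]
    nlinarith
  · rw [hcnt]
    funext k
    simp only [update_apply]
    split_ifs <;> simp_all [p7_enc]

private def p7mod : ℕ → Pg
  | 0 => .skip
  | r + 1 => .case 9 fun o => if o = none then .push 10 0 else p7mod r

/-- popping r symbols -/
private theorem p7_modc (r : ℕ) : ∀ (σ : St) (N : ℕ), σ 9 = List.replicate N 0 → σ 10 = [] →
    ExIn (p7mod r) σ (r + 1) (update (update σ 9 (List.replicate (N - r) 0)) 10
      (if r ≤ N then [] else [0])) := by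
  induction r with
  | zero =>
    intro σ N h9 h10
    refine p7_conv (p7_skip σ) (by omega) ?_
    funext k
    simp only [update_apply]
    split_ifs <;> simp_all
  | succ r ih =>
    intro σ N h9 h10
    cases N with
    | zero =>
      have h9' : σ 9 = [] := by simpa using h9
      refine p7_conv (p7_case_nil h9' (t := 1) (σ' := update σ 10 (0 :: σ 10)) ?_) (by omega) ?_
      · simp only [if_true]
        exact p7_push 10 0 σ
      · funext k
        simp only [update_apply]
        split_ifs <;> simp_all
    | succ N =>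
      have h9' : σ 9 = 0 :: List.replicate N 0 := by simpa [List.replicate_succ] using h9
      have hih := ih (update σ 9 (List.replicate N 0)) N (by simp) (by simpa using h10)
      refine p7_conv (p7_case_cons h9' (t := r + 1) (σ' := (update (update (update σ 9 (List.replicate N 0)) 9
        (List.replicate (N - r) 0)) 10 (if r ≤ N then [] else [0]))) ?_) (by omega) ?_
      · simp only [reduceCtorEq, if_false]
        exact hih
      · funext k
        simp only [update_apply]
        split_ifs <;> simp_all <;> omega

private theorem p7_modl (d : ℕ) (hd : 1 ≤ d) (N : ℕ) : ∀ (σ : St), σ 9 = List.replicate N 0 → σ 10 = [] →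
    ∃ v : List Sy, (v = [] ↔ d ∣ N) ∧ v.length ≤ 1 ∧
      ExIn (.loop 9 fun _ => p7mod (d - 1)) σ ((d + 1) * N + 1) (update (update σ 9 []) 10 v) := by
  induction N using Nat.strong_induction_on with
  | _ N ih =>
    intro σ h9 h10
    cases N with
    | zero =>
      refine ⟨[], by simp, by simp, ?_⟩
      have h9' : σ 9 = [] := by simpa using h9
      refine p7_conv (p7_loop_nil h9') (by simp) ?_
      funext k
      simp only [update_apply]
      split_ifs <;> simp_all
    | succ N =>
      have h9' : σ 9 = 0 :: List.replicate N 0 := by simpa [List.replicate_succ] using h9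
      have hb := p7_modc (d - 1) (update σ 9 (List.replicate N 0)) N (by simp) (by simpa using h10)
      by_cases hN : d - 1 ≤ N
      · rw [if_pos hN] at hb
        obtain ⟨v, hv1, hv2, hv3⟩ := ih (N - (d - 1)) (by omega)
          (update (update (update σ 9 (List.replicate N 0)) 9 (List.replicate (N - (d - 1)) 0)) 10 [])
          (by simp) (by simp)
        refine ⟨v, ?_, hv2, ?_⟩
        · rw [hv1]
          have : N + 1 = (N - (d - 1)) + d := by omega
          rw [this]
          exact (Nat.dvd_add_self_right).symm
        · refine p7_conv (p7_loop_cons (a := fun _ => p7mod (d - 1)) h9' hb hv3) ?_ ?_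
          · have h1 : (d + 1) * (N - (d - 1)) + (d + 1) * 1 ≤ (d + 1) * (N + 1) := by
              rw [← mul_add]
              exact Nat.mul_le_mul_left _ (by omega)
            omega
          · funext k
            simp only [update_apply]
            split_ifs <;> simp_all
      · rw [if_neg hN] at hb
        refine ⟨[0], ?_, by simp, ?_⟩
        · constructor
          · intro h
            simp at h
          · intro h
            have := Nat.le_of_dvd (by omega) h
            omega
        · have hz : N - (d - 1) = 0 := by omega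
          rw [hz] at hb
          refine p7_conv (p7_loop_cons (a := fun _ => p7mod (d - 1)) h9' hb (p7_loop_nil (by simp))) ?_ ?_
          · have h1 : (d + 1) * 1 ≤ (d + 1) * (N + 1) := Nat.mul_le_mul_left _ (by omega)
            omega
          · funext k
            simp only [update_apply]
            split_ifs <;> simp_all

/-- register 9 is emptied; register 10 stays empty iff d divides the length of register 9.  modc 0 = skip,
modc (r+1) = case 9 (none: push 10 0; some: modc r); program: loop 9 (modc (d-1)). -/
theorem mod_spec (d : ℕ) (hd : 1 ≤ d) : ∃ (P : Pg) (C : ℕ), ∀ (N : ℕ) (σ : St), σ 9 = List.replicate N 0 → σ 10 = [] →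
    ∃ v : List Sy, (v = [] ↔ d ∣ N) ∧ v.length ≤ 1 ∧
      ExIn P σ (C * (N + 1)) (Function.update (Function.update σ 9 []) 10 v) := by
  refine ⟨.loop 9 fun _ => p7mod (d - 1), d + 1, ?_⟩
  intro N σ h9 h10
  obtain ⟨v, h1, h2, h3⟩ := p7_modl d hd N σ h9 h10
  exact ⟨v, h1, h2, h3.mono (by nlinarith)⟩

end Pool.Agent.helper50.BW
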