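import Pool.Agent.helper50.BW.P2
import Pool.Agent.helper50.BW.P7
/-! ## BW-P8 the pre-test (uses C2, P2, P7; 250 lines)
copy 0 2 5; copy 0 3 5; loop 3 (c ↦ if c is a digit: push 4 c; if c is a sign: pour 4 6; scan; clr 6; mod test; case 10: none ↦ skip;
some s ↦ push 10 s; clr 3); clr 2; clr 4.  Register 4: digits of the current letter, highest on top; after pour 4 6: lowest on top in
register 6 = (dig i).map bsy.  The tests are performed for the letters of w from the last one to the first one that fails: npass + 1 tests
at most, each with cost ≤ C (n + 1); cnt d w i ≤ d * w.length; cnt_esum. -/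
namespace Pool.Agent.helper50.BW


open Function

private theorem p8_skip (σ : St) : ExIn .skip σ 0 σ := ⟨0, le_rfl, Ex.skip σ⟩
private theorem p8_push (r : ℕ) (c : Sy) (σ : St) : ExIn (.push r c) σ 1 (update σ r (c :: σ r)) :=
  ⟨1, le_rfl, Ex.push r c σ⟩
private theorem p8_case_nil {r : ℕ} {a : Option Sy → Pg} {σ σ' : St} {t : ℕ} (h : σ r = [])
    (h' : ExIn (a none) σ t σ') : ExIn (.case r a) σ (t + 1) σ' := by
  obtain ⟨u, hu, h1⟩ := h'
  exact ⟨u + 1, by omega, Ex.case_nil h h1⟩
private theorem p8_case_cons {r : ℕ} {a : Option Sy → Pg} {c : Sy} {l : List Sy} {σ σ' : St} {t : ℕ}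
    (h : σ r = c :: l) (h' : ExIn (a (some c)) (update σ r l) t σ') : ExIn (.case r a) σ (t + 1) σ' := by
  obtain ⟨u, hu, h1⟩ := h'
  exact ⟨u + 1, by omega, Ex.case_cons h h1⟩
private theorem p8_loop_nil {r : ℕ} {a : Sy → Pg} {σ : St} (h : σ r = []) : ExIn (.loop r a) σ 1 σ :=
  ⟨1, le_rfl, Ex.loop_nil h⟩
private theorem p8_loop_cons {r : ℕ} {a : Sy → Pg} {c : Sy} {l : List Sy} {σ σ' σ'' : St} {t t' : ℕ}
    (h : σ r = c :: l) (h1 : ExIn (a c) (update σ r l) t σ') (h2 : ExIn (.loop r a) σ' t' σ'') :
    ExIn (.loop r a) σ (t + t' + 1) σ'' := by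
  obtain ⟨u, hu, k1⟩ := h1
  obtain ⟨u', hu', k2⟩ := h2
  exact ⟨u + u' + 1, by omega, Ex.loop_cons h k1 k2⟩
private theorem p8_conv {P : Pg} {σ σ' σ'' : St} {t t' : ℕ} (h : ExIn P σ t σ') (ht : t ≤ t')
    (hs : σ' = σ'') : ExIn P σ t' σ'' := by
  subst hs
  exact h.mono ht

private theorem p8_rev_code (a : ℕ × Bool) : ((code a).map A4.sy).reverse =
    (dig a.1).map bsy ++ [if a.2 then (2 : Sy) else 3] := by
  unfold code
  rw [List.map_cons, List.reverse_cons, List.map_map, ← List.map_reverse, List.reverse_reverse]
  congr 1
  · refine List.map_congr_left fun b _ => ?_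
    cases b <;> rfl
  · split_ifs <;> rfl

private theorem p8_rev_enc (w : W) (a : ℕ × Bool) : ((encW (w ++ [a])).map A4.sy).reverse =
    (dig a.1).map bsy ++ ((if a.2 then (2 : Sy) else 3) :: ((encW w).map A4.sy).reverse) := by
  have h1 : encW (w ++ [a]) = encW w ++ code a := by simp [encW]
  rw [h1, List.map_append, List.reverse_append, p8_rev_code]
  simp

private theorem p8_len_code (a : ℕ × Bool) : (code a).length = (dig a.1).length + 1 := by
  simp [code]

private theorem p8_len (w : W) : w.length ≤ (encW w).length := by
  induction w with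
  | nil => simp
  | cons a w ih =>
    have h1 : encW (a :: w) = code a ++ encW w := by simp [encW]
    rw [h1, List.length_append, p8_len_code, List.length_cons]
    omega

private theorem p8_cnt {d : ℕ} (hd : 1 ≤ d) (w : W) (i : ℕ) : cnt d w i ≤ d * w.length := by
  unfold cnt
  induction w with
  | nil => simp
  | cons a w ih =>
    rw [List.map_cons, List.sum_cons, List.length_cons]
    have h1 : (if a.1 = i then (if a.2 then 1 else d - 1) else 0) ≤ d := by
      split_ifs <;> omega
    calc _ ≤ d + d * w.length := Nat.add_le_add h1 ih
      _ = _ := by ring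

private theorem p8_pass {d : ℕ} (hd : 1 ≤ d) (w : W) (a : ℕ × Bool) :
    pass d w a = true ↔ d ∣ cnt d w a.1 := by
  have h1 := cnt_esum hd w a.1
  have h2 : (d : ℤ) ∣ (cnt d w a.1 : ℤ) - esum w a.1 := Int.dvd_of_emod_eq_zero h1
  unfold pass
  rw [decide_eq_true_iff, ← Int.natCast_dvd_natCast]
  constructor
  · intro h
    have := dvd_add h2 h
    simpa using this
  · intro h
    have := dvd_sub h h2
    simpa using this

/-- the body of the loop -/
private def p8B (S M : Pg) (c : Sy) : Pg :=
  if c = 0 ∨ c = 1 then .push 4 c
  else .seq (pour 4 6) (.seq S (.seq (clr 6) (.seq M (.case 10 fun o =>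
    match o with
    | none => .skip
    | some s => .seq (.push 10 s) (clr 3)))))

/-- digits -/
private theorem p8_digits (S M : Pg) (D : List Bool) : ∀ (R : List Sy) (σ σ' : St) (t : ℕ),
    σ 3 = D.map bsy ++ R →
    ExIn (.loop 3 (p8B S M)) (update (update σ 3 R) 4 ((D.map bsy).reverse ++ σ 4)) t σ' →
    ExIn (.loop 3 (p8B S M)) σ (t + 2 * D.length) σ' := by
  induction D with
  | nil =>
    intro R σ σ' t hσ h
    have h1 : update (update σ 3 R) 4 ((List.map bsy []).reverse ++ σ 4) = σ := by
      funext k
      simp only [update_apply]
      split_ifs <;> simp_all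
    rw [h1] at h
    exact h.mono (by simp)
  | cons b D ih =>
    intro R σ σ' t hσ h
    have hb : p8B S M (bsy b) = .push 4 (bsy b) := by
      cases b <;> simp [p8B, bsy]
    have h2 := ih R (update (update σ 3 (D.map bsy ++ R)) 4 (bsy b :: σ 4)) σ' t (by
      simp [update_apply]) (by
      have h3 : update (update (update (update σ 3 (D.map bsy ++ R)) 4 (bsy b :: σ 4)) 3 R) 4
          ((D.map bsy).reverse ++ update (update σ 3 (D.map bsy ++ R)) 4 (bsy b :: σ 4) 4) =
          update (update σ 3 R) 4 ((List.map bsy (b :: D)).reverse ++ σ 4) := by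
        funext k
        simp only [update_apply]
        split_ifs <;> simp_all
      rw [h3]
      exact h)
    refine p8_conv (p8_loop_cons (c := bsy b) (l := D.map bsy ++ R) (t := 1) (by simpa using hσ) ?_ h2)
      (by simp only [List.length_cons]; omega) rfl
    rw [hb]
    refine p8_conv (p8_push 4 (bsy b) _) le_rfl ?_
    funext k
    simp only [update_apply]
    split_ifs <;> simp_all

/-- the state before and after the loop -/
private structure P8S (w : W) (σ : St) : Prop where
  h2 : σ 2 = ((encW w).map A4.sy).reverse
  h4 : σ 4 = []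
  h5 : σ 5 = []
  h6 : σ 6 = []
  h7 : σ 7 = []
  h8 : σ 8 = []
  h9 : σ 9 = []
  h10 : σ 10 = []

theorem pre_spec {d : ℕ} (hd : 1 ≤ d) : ∃ (P : Pg) (C : ℕ), ∀ w : W, ∃ v : List Sy,
    ExIn P (inp (encW w)) (C * ((encW w).length + 1) * (npass d w + 1))
      (Function.update (inp (encW w)) 10 v) ∧ (v ≠ [] ↔ ∃ a ∈ w, pass d w a = false) := by
  obtain ⟨S, CS, hS⟩ := scan_spec d
  obtain ⟨M, CM, hM⟩ := mod_spec d hd
  -- the loop
  have hloop : ∀ (w w₁ w₂ : W), w = w₁ ++ w₂ → ∀ σ : St, P8S w σ →
      σ 3 = ((encW w₁).map A4.sy).reverse → ∃ v : List Sy,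
      ExIn (.loop 3 (p8B S M)) σ
        ((CS + CM * (d + 1) + 20) * ((encW w).length + 1) *
          ((w₁.reverse.takeWhile (pass d w)).length + 1)) (update (update σ 3 []) 10 v) ∧
      (v ≠ [] ↔ ∃ a ∈ w₁, pass d w a = false) := by
    intro w w₁
    induction w₁ using List.reverseRecOn with
    | nil =>
      intro w₂ _ σ hσ h3
      refine ⟨[], p8_conv (p8_loop_nil (by simpa [encW] using h3)) ?_ ?_, by simp⟩
      · nlinarith [Nat.zero_le (CS + CM * (d + 1)), Nat.zero_le (encW w).length,
          Nat.zero_le ((CS + CM * (d + 1)) * (encW w).length)]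
      · have := hσ.h10
        funext k
        simp only [update_apply]
        split_ifs <;> simp_all [encW]
    | append_singleton w₁ a ih =>
      intro w₂ hw σ hσ h3
      have hn : (dig a.1).length + 1 ≤ (encW w).length := by
        have h1 : encW w = encW w₁ ++ (code a ++ encW w₂) := by
          rw [hw]
          simp [encW]
        rw [h1, List.length_append, List.length_append, p8_len_code]
        omega
      have hn1 : (encW w₁).length ≤ (encW w).length := by
        have h1 : encW w = encW w₁ ++ (code a ++ encW w₂) := by
          rw [hw]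
          simp [encW]
        rw [h1, List.length_append]
        omega
      set n := (encW w).length with hndef
      set R := ((encW w₁).map A4.sy).reverse with hR
      have hRlen : R.length ≤ n := by
        rw [hR]
        simpa using hn1
      set sg : Sy := if a.2 then (2 : Sy) else 3 with hsg
      rw [p8_rev_enc] at h3
      -- state after the digits
      set σ₁ : St := update (update σ 3 (sg :: R)) 4 (((dig a.1).map bsy).reverse ++ σ 4) with hσ₁
      have hB : p8B S M sg = .seq (pour 4 6) (.seq S (.seq (clr 6) (.seq M (.case 10 fun o =>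
          match o with
          | none => .skip
          | some s => .seq (.push 10 s) (clr 3))))) := by
        have h0 : sg ≠ 0 := by
          rw [hsg]
          split_ifs <;> decide
        have h1 : sg ≠ 1 := by
          rw [hsg]
          split_ifs <;> decide
        simp [p8B, h0, h1]
      -- the states inside the body
      have hp := pour_spec (r := 4) (o := 6) (by norm_num) (update σ₁ 3 R)
      set σ₂ : St := update (update σ 3 R) 6 ((dig a.1).map bsy) with hσ₂
      have e2 : update (update (update σ₁ 3 R) 4 []) 6
          ((update σ₁ 3 R 4).reverse ++ update σ₁ 3 R 6) = σ₂ := by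
        have := hσ.h4
        have := hσ.h6
        funext k
        simp only [hσ₁, hσ₂, update_apply]
        split_ifs <;> simp_all
      have l2 : (update σ₁ 3 R 4).length = (dig a.1).length := by
        have := hσ.h4
        simp [hσ₁, update_apply, this]
      rw [e2, l2] at hp
      have hs := hS w a.1 σ₂ (by simp [hσ₂, update_apply, hσ.h2]) (by simp [hσ₂, update_apply])
        (by simp [hσ₂, update_apply, hσ.h5]) (by simp [hσ₂, update_apply, hσ.h7])
        (by simp [hσ₂, update_apply, hσ.h8]) (by simp [hσ₂, update_apply, hσ.h9])
      rw [← hndef] at hs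
      set N := cnt d w a.1 with hN
      have hNle : N ≤ d * n := (p8_cnt hd w a.1).trans (Nat.mul_le_mul_left d (p8_len w))
      have hc := clr_spec 6 (update σ₂ 9 (List.replicate N 0))
      set σ₃ : St := update (update σ 3 R) 9 (List.replicate N 0) with hσ₃
      have e3 : update (update σ₂ 9 (List.replicate N 0)) 6 [] = σ₃ := by
        have := hσ.h6
        funext k
        simp only [hσ₂, hσ₃, update_apply]
        split_ifs <;> simp_all
      have l3 : (update σ₂ 9 (List.replicate N 0) 6).length = (dig a.1).length := by
        simp [hσ₂, update_apply]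
      rw [e3, l3] at hc
      obtain ⟨v, hv1, hv2, hm⟩ := hM N σ₃ (by simp [hσ₃, update_apply])
        (by simp [hσ₃, update_apply, hσ.h10])
      set σ₄ : St := update (update σ 3 R) 10 v with hσ₄
      have e4 : update (update σ₃ 9 []) 10 v = σ₄ := by
        have := hσ.h9
        funext k
        simp only [hσ₃, hσ₄, update_apply]
        split_ifs <;> simp_all
      rw [e4] at hm
      have hCM : CM * (N + 1) ≤ CM * (d + 1) * (n + 1) := by
        rw [mul_assoc]
        refine Nat.mul_le_mul_left CM ?_
        nlinarith
      have hpass := p8_pass hd w a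
      rcases v with _ | ⟨s, v'⟩
      · -- the letter passes
        have hdv : d ∣ N := hv1.1 rfl
        have hpt : pass d w a = true := hpass.2 hdv
        have h10' : σ₄ 10 = [] := by simp [hσ₄]
        have e5 : σ₄ = update σ 3 R := by
          have := hσ.h10
          funext k
          simp only [hσ₄, update_apply]
          split_ifs <;> simp_all
        have hcase : ExIn (.case 10 fun o =>
            match o with
            | none => .skip
            | some s => .seq (.push 10 s) (clr 3)) σ₄ (0 + 1) σ₄ :=
          p8_case_nil h10' (p8_skip σ₄)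
        obtain ⟨v, hv, hv'⟩ := ih (a :: w₂) (by rw [hw]; simp) (update σ 3 R)
          ⟨by simp [update_apply, hσ.h2], by simp [update_apply, hσ.h4],
            by simp [update_apply, hσ.h5], by simp [update_apply, hσ.h6],
            by simp [update_apply, hσ.h7], by simp [update_apply, hσ.h8],
            by simp [update_apply, hσ.h9], by simp [update_apply, hσ.h10]⟩ (by simp [hR])
        refine ⟨v, ?_, ?_⟩
        · have hbody := hp.seq (hs.seq (hc.seq (hm.seq hcase)))
          rw [← hB] at hbody
          have h4 : σ₁ 3 = sg :: R := by simp [hσ₁, update_apply]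
          rw [e5] at hbody
          have h5 := p8_loop_cons (c := sg) (l := R) h4 hbody hv
          have h6 := p8_digits S M (dig a.1) (sg :: R) σ _ _ h3 h5
          refine p8_conv h6 ?_ ?_
          · rw [List.reverse_append, List.reverse_singleton, List.singleton_append,
              List.takeWhile_cons, if_pos hpt, List.length_cons]
            set m := (w₁.reverse.takeWhile (pass d w)).length
            set K := CS + CM * (d + 1) with hK
            have e7 : (K + 20) * (n + 1) * (m + 1 + 1) =
                (K + 20) * (n + 1) * (m + 1) + (K + 20) * (n + 1) := by ring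
            have e8 : (K + 20) * (n + 1) = CS * (n + 1) + CM * (d + 1) * (n + 1) + 20 * (n + 1) := by
              rw [hK]
              ring
            rw [e7]
            omega
          · funext k
            simp only [update_apply]
            split_ifs <;> simp_all
        · rw [hv']
          constructor
          · rintro ⟨b, hb, hb'⟩
            exact ⟨b, by simp [hb], hb'⟩
          · rintro ⟨b, hb, hb'⟩
            rw [List.mem_append, List.mem_singleton] at hb
            rcases hb with hb | rfl
            · exact ⟨b, hb, hb'⟩
            · rw [hpt] at hb'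
              exact absurd hb' (by simp)
      · -- the letter fails
        have hpf : pass d w a = false := by
          rw [← Bool.not_eq_true]
          intro h
          have := hv1.2 (hpass.1 h)
          simp at this
        have hv'0 : v' = [] := by
          rw [List.length_cons] at hv2
          exact List.eq_nil_of_length_eq_zero (by omega)
        subst hv'0
        have h10' : σ₄ 10 = s :: [] := by simp [hσ₄]
        have hcl := clr_spec 3 (update (update σ₄ 10 []) 10 (s :: (update σ₄ 10 []) 10))
        have hcase : ExIn (.case 10 fun o =>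
            match o with
            | none => .skip
            | some s => .seq (.push 10 s) (clr 3)) σ₄ (1 + (R.length + 1) + 1)
              (update (update σ 3 []) 10 [s]) := by
          refine p8_case_cons h10' ?_
          refine p8_conv ((p8_push 10 s _).seq hcl) ?_ ?_
          · simp [hσ₄, update_apply]
          · have := hσ.h10
            funext k
            simp only [hσ₄, update_apply]
            split_ifs <;> simp_all
        refine ⟨[s], ?_, ?_⟩
        · have hbody := hp.seq (hs.seq (hc.seq (hm.seq hcase)))
          rw [← hB] at hbody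
          have h4 : σ₁ 3 = sg :: R := by simp [hσ₁, update_apply]
          have h5 := p8_loop_cons (c := sg) (l := R) h4 hbody
            (p8_loop_nil (σ := update (update σ 3 []) 10 [s]) (by simp [update_apply]))
          have h6 := p8_digits S M (dig a.1) (sg :: R) σ _ _ h3 h5
          refine p8_conv h6 ?_ rfl
          rw [List.reverse_append, List.reverse_singleton, List.singleton_append,
            List.takeWhile_cons, if_neg (by rw [hpf]; simp), List.length_nil]
          set K := CS + CM * (d + 1) with hK
          have e8 : (K + 20) * (n + 1) = CS * (n + 1) + CM * (d + 1) * (n + 1) + 20 * (n + 1) := by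
            rw [hK]
            ring
          rw [zero_add, mul_one, e8]
          omega
        · simp only [ne_eq, List.cons_ne_self, not_false_eq_true, reduceCtorEq, true_iff]
          exact ⟨a, by simp, hpf⟩
  refine ⟨.seq (copy 0 2 5) (.seq (copy 0 3 5) (.seq (.loop 3 (p8B S M)) (clr 2))),
    CS + CM * (d + 1) + 40, ?_⟩
  intro w
  set n := (encW w).length with hn
  set L := ((encW w).map A4.sy).reverse with hL
  have hLn : L.length = n := by simp [hL, hn]
  have h0 : inp (encW w) 0 = L := rfl
  have hr : ∀ r, r ≠ 0 → inp (encW w) r = [] := fun r hr => if_neg hr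
  have k1 := copy_spec (i := 0) (o := 2) (s := 5) (by norm_num) (by norm_num) (by norm_num)
    (inp (encW w)) (hr 5 (by norm_num))
  rw [h0, hr 2 (by norm_num), List.append_nil, hLn] at k1
  have k2 := copy_spec (i := 0) (o := 3) (s := 5) (by norm_num) (by norm_num) (by norm_num)
    (update (inp (encW w)) 2 L) (by simp [update_apply, hr 5 (by norm_num)])
  have k3 : update (inp (encW w)) 2 L 0 = L := by simp [update_apply, h0]
  have k4 : update (inp (encW w)) 2 L 3 = [] := by simp [update_apply, hr 3 (by norm_num)]
  rw [k3, k4, List.append_nil, hLn] at k2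
  set σ : St := update (update (inp (encW w)) 2 L) 3 L with hσ
  obtain ⟨v, hv, hv'⟩ := hloop w w [] (by simp) σ
    ⟨by simp [hσ, update_apply, hL], by simp [hσ, update_apply, hr 4],
      by simp [hσ, update_apply, hr 5], by simp [hσ, update_apply, hr 6],
      by simp [hσ, update_apply, hr 7], by simp [hσ, update_apply, hr 8],
      by simp [hσ, update_apply, hr 9], by simp [hσ, update_apply, hr 10]⟩
    (by simp [hσ, hL])
  refine ⟨v, ?_, hv'⟩
  have k5 := clr_spec 2 (update (update σ 3 []) 10 v)
  refine p8_conv (k1.seq (k2.seq (hv.seq k5))) ?_ ?_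
  · have k6 : (update (update σ 3 []) 10 v 2).length = n := by simp [hσ, update_apply, hLn]
    rw [k6]
    have k7 : (w.reverse.takeWhile (pass d w)).length = npass d w := rfl
    rw [k7, ← hn]
    set m := npass d w
    set K := CS + CM * (d + 1)
    have e1 : (K + 40) * (n + 1) * (m + 1) =
        (K + 20) * (n + 1) * (m + 1) + 20 * ((n + 1) * (m + 1)) := by ring
    have e2 : n + 1 ≤ (n + 1) * (m + 1) := Nat.le_mul_of_pos_right _ (by omega)
    rw [e1]
    omega
  · have h2 := hr 2 (by norm_num)
    have h3 := hr 3 (by norm_num)
    funext k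
    simp only [hσ, update_apply]
    split_ifs <;> simp_all

end Pool.Agent.helper50.BW
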