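import Pool.Agent.helper50.BW.P1
/-! ## BW-P9 passing letters and cells (uses P1; 150 lines)
u := encW w, n := u.length.  If the last t letters pass, then for 1 ≤ j ≤ t (t ≤ w.length ≤ n) every letter contained in the last j cells is one
of the last j letters (every letter has at least one cell), so AP holds for (take (n-j), drop (n-j)).  An occurrence z = z₁ ++ code (i,s) ++ z₂ with
Hd z₂ in the string u = v ++ z gives decW u = decW (v ++ z₁) ++ [(i,s)] ++ decW z₂ and (decW z₂).length + 1 ≤ z.length. -/
namespace Pool.Agent.helper50.BW


theorem p9_Hd_code (a : ℕ × Bool) (z : List A4) : Hd (code a ++ z) := by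
  intro c hc
  simp only [code, List.cons_append, List.head?_cons, Option.mem_def, Option.some.injEq] at hc
  rw [← hc]
  unfold IsSg
  split_ifs
  · exact Or.inl rfl
  · exact Or.inr rfl

theorem p9_occ {x z₂ : List A4} (a : ℕ × Bool) (h : Hd z₂) :
    decW (x ++ (code a ++ z₂)) = decW x ++ ([a] ++ decW z₂) := by
  rw [decW_append (p9_Hd_code a z₂), decW_append h, decW_code]

theorem p9_len (w : W) : w.length ≤ (encW w).length := by
  induction w with
  | nil => simp
  | cons a w ih =>
    have h1 : encW (a :: w) = code a ++ encW w := by simp [encW]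
    rw [h1, List.length_append, length_code, List.length_cons]
    omega

theorem p9_decW_len {z : List A4} (h : Hd z) : (decW z).length ≤ z.length := by
  have h1 := p9_len (decW z)
  rwa [encW_decW h] at h1

/-- the core: the letters which are contained in the last `m` cells pass -/
theorem p9_AP (d : ℕ) (w : W) (v z : List A4) (hvz : encW w = v ++ z)
    (hz : z.length ≤ npass d w) : AP d v z := by
  rintro i ⟨z₁, z₂, s, hzz, hz₂⟩
  have hw : decW (v ++ z) = w := by rw [← hvz, decW_encW]
  have h1 : v ++ z = (v ++ z₁) ++ (code (i, s) ++ z₂) := by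
    rw [hzz]
    simp
  have h2 : w = decW (v ++ z₁) ++ ([(i, s)] ++ decW z₂) := by
    rw [← hw, h1, p9_occ (i, s) hz₂]
  have h3 : (decW z₂).length < npass d w := by
    have h4 := p9_decW_len hz₂
    have h5 : z.length = z₁.length + ((dig i).length + 1) + z₂.length := by
      rw [hzz, List.length_append, List.length_append, length_code]
    omega
  have h6 : w.reverse = (decW z₂).reverse ++ ((i, s) :: (decW (v ++ z₁)).reverse) := by
    conv_lhs => rw [h2]
    simp
  have h7 : w.reverse.takeWhile (pass d w) = w.reverse.take (npass d w) :=
    List.prefix_iff_eq_take.1 (List.takeWhile_prefix _)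
  have h8 : (i, s) ∈ w.reverse.take (npass d w) := by
    rw [h6, List.take_append, List.length_reverse]
    obtain ⟨r, hr⟩ : ∃ r, npass d w - (decW z₂).length = r + 1 :=
      ⟨npass d w - (decW z₂).length - 1, by omega⟩
    rw [hr, List.take_succ_cons]
    simp
  rw [← h7] at h8
  have h9 := List.mem_takeWhile_imp h8
  rw [hw]
  simpa [pass] using h9

theorem npass_le (d : ℕ) (w : W) : (npass d w : ℝ) ≤ ∑ j ∈ Finset.range (encW w).length,
    ind (AP d ((encW w).take ((encW w).length - (j + 1))) ((encW w).drop ((encW w).length - (j + 1)))) := by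
  have ht : npass d w ≤ (encW w).length := by
    have h1 : npass d w ≤ w.reverse.length := (List.takeWhile_prefix _).length_le
    rw [List.length_reverse] at h1
    exact h1.trans (p9_len w)
  calc (npass d w : ℝ) = ∑ j ∈ Finset.range (npass d w), (1 : ℝ) := by simp
    _ = ∑ j ∈ Finset.range (npass d w), ind (AP d ((encW w).take ((encW w).length - (j + 1)))
          ((encW w).drop ((encW w).length - (j + 1)))) := by
        refine Finset.sum_congr rfl fun j hj => ?_
        rw [Finset.mem_range] at hj
        have h2 : AP d ((encW w).take ((encW w).length - (j + 1)))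
            ((encW w).drop ((encW w).length - (j + 1))) := by
          refine p9_AP d w _ _ (List.take_append_drop _ _).symm ?_
          rw [List.length_drop]
          omega
        unfold ind
        rw [if_pos h2]
    _ ≤ _ := by
        refine Finset.sum_le_sum_of_subset_of_nonneg (Finset.range_subset_range.2 ht) ?_
        intro j _ _
        unfold ind
        split_ifs <;> norm_num

theorem all_pass {d : ℕ} {w : W} (h : ∀ a ∈ w, pass d w a = true) : AP d [] (encW w) := by
  rintro i ⟨z₁, z₂, s, hzz, hz₂⟩
  have h1 : w = decW z₁ ++ ([(i, s)] ++ decW z₂) := by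
    rw [← p9_occ (i, s) hz₂, ← List.append_assoc, ← hzz, decW_encW]
  have h2 : (i, s) ∈ w := by
    rw [h1]
    simp
  have h3 := h _ h2
  rw [List.nil_append, decW_encW]
  simpa [pass] using h3

end Pool.Agent.helper50.BW
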