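import Pool.Agent.helper50.BW.C1
import Pool.Agent.helper50.BW.P2
import Pool.Agent.helper50.BW.P5
import Pool.Agent.helper50.BW.P6
import Pool.Agent.helper50.BW.P8
import Pool.Agent.helper50.BW.P9
/-! ## BW-P10 linear average case (uses C1, P1-P9; 250 lines)
Program: pre; case 10: some _ ↦ skip; none ↦ P of DecStatement.  (Register 1 is empty if the pre-test rejects.)  compile: M, c.
T w := the time t' given by compile (choice).  Correct: if some letter fails, w is not trivial (esum_triv); otherwise Ex P.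
T w ≤ c (C (n+1)(npass+1) + 1 + ind (AP d [] (encW w)) exp(..) + n + 1).  Sum over Wn n (n ≥ 1): sum_Wn with npass_le: the sum of npass is
≤ 4^n Σ_j EE n (ind (AP d (take) (drop))) ≤ 4^n Σ_j eta (j+1) (EE_append with n = (n-(j+1)) + (j+1), AP_bound), 4^n = 2 (Wn n).card;
the last part: exp(..) 4^n eta n ≤ C' 4^n. -/
namespace Pool.Agent.helper50.BW


/-- the program: pre-test, then the decision procedure if all letters pass -/
def p10prog (pre P : Pg) : Pg := .seq pre (.case 10 fun o => match o with | none => P | some _ => .skip)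

/-- correctness and cost of the program -/
theorem p10_run {d : ℕ} (hd : Odd d) (hD : DecStatement d) :
    ∃ (Q : Pg) (C₁ : ℕ) (C₂ : ℝ), ∀ w : W, ∃ (σ' : St) (t : ℕ), Ex Q (inp (encW w)) t σ' ∧
      (σ' 1 ≠ [] ↔ IsId d w) ∧
      (t : ℝ) ≤ C₁ * (((encW w).length : ℝ) + 1) * ((npass d w : ℝ) + 1) + 1 +
        ind (AP d [] (encW w)) * Real.exp (C₂ * (((encW w).length : ℝ) + 1) ^ (1 / 8 : ℝ)) := by
  obtain ⟨pre, C₁, hpre⟩ := pre_spec (d := d) hd.pos
  obtain ⟨P, C₂, hP⟩ := hD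
  refine ⟨p10prog pre P, C₁, C₂, fun w => ?_⟩
  obtain ⟨v, ⟨t₁, ht₁, e₁⟩, hv⟩ := hpre w
  have ht₁' : (t₁ : ℝ) ≤ C₁ * (((encW w).length : ℝ) + 1) * ((npass d w : ℝ) + 1) := by
    exact_mod_cast ht₁
  have hexp := (Real.exp_pos (C₂ * (((encW w).length : ℝ) + 1) ^ (1 / 8 : ℝ))).le
  cases v with
  | nil =>
    have hall : ∀ a ∈ w, pass d w a = true := by
      intro a ha
      by_contra hc
      exact (hv.2 ⟨a, ha, by simpa using hc⟩) rfl
    have hAP := all_pass hall
    have hst : Function.update (inp (encW w)) 10 [] = inp (encW w) := by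
      rw [Function.update_eq_self_iff]
      rfl
    rw [hst] at e₁
    obtain ⟨σ', t, e, ht, hσ⟩ := hP w
    refine ⟨σ', t₁ + (t + 1), Ex.seq e₁ (Ex.case_nil rfl e), ?_, ?_⟩
    · rw [hσ, triv_iff]
    · have : ind (AP d [] (encW w)) = 1 := by simp [ind, hAP]
      rw [this, one_mul]
      push_cast
      linarith
  | cons c l =>
    obtain ⟨a, ha, hpa⟩ := hv.1 (List.cons_ne_nil _ _)
    refine ⟨_, t₁ + (0 + 1), Ex.seq e₁ (Ex.case_cons (c := c) (l := l) (Function.update_self _ _ _)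
      (Ex.skip _)), ?_, ?_⟩
    · constructor
      · intro h
        exfalso
        apply h
        rw [Function.update_of_ne (by omega), Function.update_of_ne (by omega)]
        rfl
      · intro h
        exfalso
        have h1 := esum_triv ((triv_iff d w).2 h) a.1
        have h2 : pass d w a = true := by
          unfold pass
          exact decide_eq_true h1
        rw [h2] at hpa
        exact Bool.noConfusion hpa
    · have := mul_nonneg (ind_nonneg (AP d [] (encW w))) hexp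
      push_cast
      linarith

/-- the sum of the numbers of passing letters -/
theorem p10_npass {d : ℕ} (hd : Odd d) (h3 : 3 ≤ d) : ∃ C : ℝ, ∀ n : ℕ,
    ∑ w ∈ Wn n, (npass d w : ℝ) ≤ 4 ^ n * C := by
  obtain ⟨C, hC⟩ := eta_sum
  refine ⟨C, fun n => ?_⟩
  set F : ℕ → List A4 → ℝ := fun j u =>
    ind (AP d (u.take (n - (j + 1))) (u.drop (n - (j + 1)))) with hF
  have h1 : ∑ w ∈ Wn n, (npass d w : ℝ) ≤
      ∑ w ∈ Wn n, (fun u : List A4 => ∑ j ∈ Finset.range n, F j u) (encW w) := by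
    refine Finset.sum_le_sum fun w hw => ?_
    have hn := mem_Wn.1 hw
    have := npass_le d w
    rw [hn] at this
    exact this
  have h2 := sum_Wn (fun u : List A4 => ∑ j ∈ Finset.range n, F j u) n
  rw [h2] at h1
  refine h1.trans (mul_le_mul_of_nonneg_left ?_ (by positivity))
  have h3' : EE n (fun u => ind (Hd u) * ∑ j ∈ Finset.range n, F j u) ≤
      EE n (fun u => ∑ j ∈ Finset.range n, F j u) := by
    refine EE_mono fun u _ => ?_
    have h0 : 0 ≤ ∑ j ∈ Finset.range n, F j u := Finset.sum_nonneg fun j _ => ind_nonneg _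
    have := mul_le_mul_of_nonneg_right (ind_le_one (Hd u)) h0
    rwa [one_mul] at this
  refine h3'.trans ?_
  rw [EE_sum]
  refine le_trans (Finset.sum_le_sum fun j hj => ?_) (hC n)
  have hjn : j < n := Finset.mem_range.1 hj
  have e1 : EE n (F j) = EE ((n - (j + 1)) + (j + 1)) (F j) := by
    congr 1
    omega
  rw [e1, EE_append]
  have h4 : EE (n - (j + 1)) (fun y => EE (j + 1) (fun z => F j (y ++ z))) ≤
      EE (n - (j + 1)) (fun _ => eta (j + 1)) := by
    refine EE_mono fun y hy => ?_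
    refine le_trans (EE_mono fun z _ => ?_) (AP_bound hd h3 y (j + 1))
    rw [hF]
    simp only
    rw [← hy, List.take_left, List.drop_left]
  refine h4.trans (le_of_eq (EE_const _ _))

theorem p10_all {d : ℕ} (hd : Odd d) (h3 : 3 ≤ d) (n : ℕ) :
    ∑ w ∈ Wn n, ind (AP d [] (encW w)) ≤ 4 ^ n * eta n := by
  rw [sum_Wn (fun u => ind (AP d [] u)) n]
  refine mul_le_mul_of_nonneg_left ?_ (by positivity)
  refine le_trans (EE_mono fun u _ => ?_) (AP_bound hd h3 [] n)
  have := mul_le_mul_of_nonneg_right (ind_le_one (Hd u)) (ind_nonneg (AP d [] u))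
  rwa [one_mul] at this

theorem average_linear {d : ℕ} (hd : Odd d) (h3 : 3 ≤ d) (hD : DecStatement d) : ∃ (M : TM) (T : W → ℕ),
    (∀ w : W, M.HaltsIn (encW w) (T w) (IsId d w)) ∧
    ∃ C : ℝ, ∀ n : ℕ, 1 ≤ n → (∑ w ∈ Wn n, (T w : ℝ)) / (Wn n).card ≤ C * n := by
  obtain ⟨Q, C₁, C₂, hQ⟩ := p10_run hd hD
  obtain ⟨M, c, hM⟩ := compile Q
  have key : ∀ w : W, ∃ t' : ℕ, M.HaltsIn (encW w) t' (IsId d w) ∧
      (t' : ℝ) ≤ c * (C₁ * (((encW w).length : ℝ) + 1) * ((npass d w : ℝ) + 1) + 1 +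
        ind (AP d [] (encW w)) * Real.exp (C₂ * (((encW w).length : ℝ) + 1) ^ (1 / 8 : ℝ)) +
        (encW w).length + 1) := by
    intro w
    obtain ⟨σ', t, e, hσ, ht⟩ := hQ w
    obtain ⟨t', ht', cf, h1, h2, h4⟩ := hM (encW w) t σ' e
    refine ⟨t', ⟨cf, h1, h2, h4.trans hσ⟩, ?_⟩
    have ht'' : (t' : ℝ) ≤ c * ((t : ℝ) + (encW w).length + 1) := by exact_mod_cast ht'
    refine ht''.trans (mul_le_mul_of_nonneg_left ?_ (Nat.cast_nonneg c))
    linarith
  choose T hT hTle using key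
  refine ⟨M, T, hT, ?_⟩
  obtain ⟨Ce, hCe⟩ := p10_npass hd h3
  obtain ⟨C', hC'⟩ := eta_exp C₂
  refine ⟨c * (2 * C₁ * (2 * |Ce| + 1) + 3 + 2 * |C'|), fun n hn => ?_⟩
  set K : ℝ := ((Wn n).card : ℝ) with hK
  have hcard : (4 : ℝ) ^ n = 2 * K := by
    rw [hK, card_Wn hn]
    push_cast
    obtain ⟨m, rfl⟩ : ∃ m, n = m + 1 := ⟨n - 1, by omega⟩
    rw [Nat.add_sub_cancel, pow_succ]
    ring
  have hKpos : 0 < K := by
    have : (0 : ℝ) < 4 ^ n := by positivity
    linarith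
  set E : ℝ := Real.exp (C₂ * ((n : ℝ) + 1) ^ (1 / 8 : ℝ)) with hE
  have hE0 : 0 < E := Real.exp_pos _
  have hsum : ∑ w ∈ Wn n, (T w : ℝ) ≤ ∑ w ∈ Wn n, c * (C₁ * ((n : ℝ) + 1) * ((npass d w : ℝ) + 1) + 1 +
        ind (AP d [] (encW w)) * E + n + 1) := by
    refine Finset.sum_le_sum fun w hw => ?_
    have hn' := mem_Wn.1 hw
    have := hTle w
    rw [hn'] at this
    exact this
  have hsplit : ∑ w ∈ Wn n, c * (C₁ * ((n : ℝ) + 1) * ((npass d w : ℝ) + 1) + 1 +
        ind (AP d [] (encW w)) * E + n + 1) =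
      c * (C₁ * ((n : ℝ) + 1) * (∑ w ∈ Wn n, (npass d w : ℝ) + K) + K +
        (∑ w ∈ Wn n, ind (AP d [] (encW w))) * E + K * n + K) := by
    rw [← Finset.mul_sum]
    congr 1
    simp only [Finset.sum_add_distrib, ← Finset.mul_sum, ← Finset.sum_mul, Finset.sum_const,
      nsmul_eq_mul, mul_one, ← hK]
  have hA := hCe n
  have hB := p10_all hd h3 n
  have hBE : (∑ w ∈ Wn n, ind (AP d [] (encW w))) * E ≤ 4 ^ n * |C'| := by
    calc (∑ w ∈ Wn n, ind (AP d [] (encW w))) * E ≤ (4 ^ n * eta n) * E :=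
          mul_le_mul_of_nonneg_right hB hE0.le
      _ = 4 ^ n * (E * eta n) := by ring
      _ ≤ 4 ^ n * |C'| := by
          refine mul_le_mul_of_nonneg_left ?_ (by positivity)
          exact (hC' n).trans (le_abs_self _)
  have hA' : ∑ w ∈ Wn n, (npass d w : ℝ) ≤ 2 * K * |Ce| := by
    rw [← hcard]
    exact hA.trans (mul_le_mul_of_nonneg_left (le_abs_self _) (by positivity))
  rw [hcard] at hBE
  have hn1 : (1 : ℝ) ≤ n := by exact_mod_cast hn
  have hc0 : (0 : ℝ) ≤ c := Nat.cast_nonneg c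
  have hC10 : (0 : ℝ) ≤ C₁ := Nat.cast_nonneg C₁
  have hCe0 := abs_nonneg Ce
  have hC'0 := abs_nonneg C'
  rw [div_le_iff₀ hKpos]
  refine (hsum.trans (le_of_eq hsplit)).trans ?_
  have hfin : C₁ * ((n : ℝ) + 1) * (∑ w ∈ Wn n, (npass d w : ℝ) + K) + K +
        (∑ w ∈ Wn n, ind (AP d [] (encW w))) * E + K * n + K ≤
      (2 * C₁ * (2 * |Ce| + 1) + 3 + 2 * |C'|) * n * K := by
    have k1 : C₁ * ((n : ℝ) + 1) * (∑ w ∈ Wn n, (npass d w : ℝ) + K) ≤
        C₁ * (2 * n) * (2 * K * |Ce| + K) := by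
      apply mul_le_mul
      · exact mul_le_mul_of_nonneg_left (by linarith) hC10
      · linarith
      · refine add_nonneg (Finset.sum_nonneg fun w _ => Nat.cast_nonneg _) hKpos.le
      · positivity
    have k2 : K ≤ K * n := le_mul_of_one_le_right hKpos.le hn1
    have k3 : 2 * K * |C'| ≤ 2 * K * |C'| * n :=
      le_mul_of_one_le_right (by positivity) hn1
    have k4 : (2 * C₁ * (2 * |Ce| + 1) + 3 + 2 * |C'|) * n * K =
      C₁ * (2 * n) * (2 * K * |Ce| + K) + 3 * (K * n) + 2 * K * |C'| * n := by ring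
    rw [k4]
    linarith
  calc c * (C₁ * ((n : ℝ) + 1) * (∑ w ∈ Wn n, (npass d w : ℝ) + K) + K +
        (∑ w ∈ Wn n, ind (AP d [] (encW w))) * E + K * n + K)
      ≤ c * ((2 * C₁ * (2 * |Ce| + 1) + 3 + 2 * |C'|) * n * K) :=
        mul_le_mul_of_nonneg_left hfin hc0
    _ = c * (2 * C₁ * (2 * |Ce| + 1) + 3 + 2 * |C'|) * n * K := by ring

end Pool.Agent.helper50.BW
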