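import Pool.Agent.helper50.BW.A3
/-! ## BW-A10 Different cones have bounded projections (uses A1, A6, A7)
b, c loxodromic with axis functions, centralizers of b, c generated by them, sl ≤ T, b, c do not commute.
Suppose r_b p, r_b q ≤ KU and |u_c p - u_c q| > Δ + 2KU.  x, y from dense for c at u_c p, u_c q:
D p x ≤ r_c p + 3KU, D y q ≤ r_c q + 3KU, D x y ≤ |u_c p - u_c q| + 5KU, lower for D p q: so x is
12KU-between p and q (and y too).  For axis b: always D p x ≥ r_b x + |u_b x - u_b p| - 3 KU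
(lower if |..| ≥ KU, else r_lip and r_b p ≤ KU), similarly D x q; upper for D p q gives
2 r_b x ≤ 2KU + KU + 12KU + 6KU = 21 KU.  Displacements: D x (b x) ≤ 2 r_b x + T + KU ≤ T + 22KU,
D x (c x) ≤ T + 3KU; same for y; D x y ≥ |u_c x - u_c y| ≥ Δ.  q says b c = c b. -/
namespace Pool.Agent.helper50.BW
open Filter Topology
variable {G : Type} [Group G] {D : G → G → ℝ} {d : ℕ} {τ ε A T' Δ : ℝ}
theorem Stg.sep (hS : Stg D d τ ε A T' Δ) (hτ : 0 < τ) (hΔ : 0 ≤ Δ) {T : ℝ}
    (hT : T + 22 * KU ≤ T') (hT0 : 0 ≤ T)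
    {b c : G} {ub rb uc rc : G → ℝ} (hb : IsAxis D b ub rb) (hc : IsAxis D c uc rc)
    (hbd : b ^ d ≠ 1) (hcd : c ^ d ≠ 1) (hbT : sl D b ≤ T) (hcT : sl D c ≤ T) (hne : b * c ≠ c * b)
    {p q : G} (hp : rb p ≤ KU) (hq : rb q ≤ KU) : |uc p - uc q| ≤ Δ + 2 * KU := by
  by_contra hcon
  push Not at hcon
  have hK : (0 : ℝ) < KU := by norm_num
  have hsb := sl_nonneg hS.hyp hS.linv b
  have hsc := sl_nonneg hS.hyp hS.linv c
  -- displacement of points near the axes
  have disp : ∀ {g : G} {u r : G → ℝ}, IsAxis D g u r → 0 ≤ sl D g → sl D g ≤ T → ∀ z : G,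
      2 * r z ≤ 14 * KU → D z (g * z) ≤ T' := by
    intro g u r ha h0 h1 z hz
    have h2 := ha.upper z (g * z)
    rw [ha.u_gen, ha.r_gen] at h2
    have h3 : |u z - (u z + sl D g)| = sl D g := by
      rw [show u z - (u z + sl D g) = -(sl D g) by ring, abs_neg, abs_of_nonneg h0]
    rw [h3] at h2
    linarith
  -- the points of the axis of `c`
  have key : ∀ s : G, (rc s ≤ KU ∧ (|uc s - uc p| ≤ KU ∨ |uc s - uc q| ≤ KU)) →
      D p s + D s q ≤ D p q + 7 * KU := by
    rintro s ⟨hrs, hs⟩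
    have h1 := hc.upper p s
    have h2 := hc.upper s q
    have h3 := hc.lower p q (by linarith)
    have h4 : |uc p - uc s| + |uc s - uc q| ≤ |uc p - uc q| + 2 * KU := by
      rcases hs with hs | hs
      · have h5 : |uc s - uc q| ≤ |uc s - uc p| + |uc p - uc q| := abs_sub_le _ _ _
        have h6 : |uc p - uc s| = |uc s - uc p| := abs_sub_comm _ _
        linarith
      · have h5 : |uc p - uc s| ≤ |uc p - uc q| + |uc q - uc s| := abs_sub_le _ _ _
        have h6 : |uc q - uc s| = |uc s - uc q| := abs_sub_comm _ _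
        linarith
    linarith
  -- such points are near the axis of `b`
  have key2 : ∀ s : G, D p s + D s q ≤ D p q + 7 * KU → 2 * rb s ≤ 14 * KU := by
    intro s hs
    have low : ∀ a z : G, rb a ≤ KU → rb z + |ub a - ub z| - 2 * KU ≤ D a z := by
      intro a z ha
      by_cases h1 : KU ≤ |ub a - ub z|
      · have h2 := hb.lower a z h1
        have h3 := hb.r_nonneg a
        linarith
      · push Not at h1
        have h2 := hb.r_lip a z
        have h3 := neg_abs_le (rb a - rb z)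
        linarith
    have h1 := low p s hp
    have h2 := low q s hq
    rw [hS.hyp.symm q s] at h2
    have h3 := hb.upper p q
    have h4 : |ub p - ub q| ≤ |ub p - ub s| + |ub q - ub s| := by
      have := abs_sub_le (ub p) (ub s) (ub q)
      rwa [abs_sub_comm (ub s) (ub q)] at this
    linarith
  obtain ⟨x, hx1, hx2⟩ := hc.dense (uc p)
  obtain ⟨y, hy1, hy2⟩ := hc.dense (uc q)
  have hxb := key2 x (key x ⟨hx1, Or.inl hx2⟩)
  have hyb := key2 y (key y ⟨hy1, Or.inr hy2⟩)
  apply hne
  refine hS.q b c x y hbd hcd (disp hb hsb hbT x hxb) (disp hb hsb hbT y hyb)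
    (disp hc hsc hcT x (by linarith)) (disp hc hsc hcT y (by linarith)) ?_
  have h1 := hc.u_lip x y
  have h2 : |uc p - uc q| ≤ |uc p - uc x| + |uc x - uc q| := abs_sub_le _ _ _
  have h3 : |uc x - uc q| ≤ |uc x - uc y| + |uc y - uc q| := abs_sub_le _ _ _
  have h4 : |uc p - uc x| = |uc x - uc p| := abs_sub_comm _ _
  linarith

end Pool.Agent.helper50.BW
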