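import Pool.Agent.helper50.BW.A3
/-! ## BW-A9 Orientation, orbit representatives (pure group theory + choice; no hyperbolicity) -/
namespace Pool.Agent.helper50.BW
open Filter Topology
variable {G : Type} [Group G] {D : G → G → ℝ} {d : ℕ} {τ ε A T' Δ : ℝ}
/-- elements that generate their own centralizer, infinite order modulo d, invariant under conjugation
and inverse: `O`.  If no g has g c g⁻¹ = c⁻¹ there is a conjugation invariant choice of one of c, c⁻¹:
put a linear order on ConjClasses G (well-ordering theorem) and O⁺ := {c ∈ O | [c] < [c⁻¹]}. -/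
theorem exists_orient (O : Set G) (hconj : ∀ g, ∀ c ∈ O, g * c * g⁻¹ ∈ O) (hinv : ∀ c ∈ O, c⁻¹ ∈ O)
    (hno : ∀ c ∈ O, ∀ g : G, g * c * g⁻¹ ≠ c⁻¹) :
    ∃ P : Set G, P ⊆ O ∧ (∀ g, ∀ c ∈ P, g * c * g⁻¹ ∈ P) ∧ (∀ c ∈ O, c ∈ P ∨ c⁻¹ ∈ P) ∧
      (∀ c ∈ P, c⁻¹ ∉ P) := by
  classical
  have hmk : ∀ g c : G, ConjClasses.mk (g * c * g⁻¹) = ConjClasses.mk c := fun g c =>
    ConjClasses.mk_eq_mk_iff_isConj.mpr (isConj_iff.mpr ⟨g⁻¹, by group⟩)
  refine ⟨{c | c ∈ O ∧ WellOrderingRel (ConjClasses.mk c) (ConjClasses.mk c⁻¹)}, ?_, ?_, ?_, ?_⟩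
  · intro c hc
    exact hc.1
  · intro g c hc
    refine ⟨hconj g c hc.1, ?_⟩
    have : (g * c * g⁻¹)⁻¹ = g * c⁻¹ * g⁻¹ := by group
    rw [this, hmk, hmk]
    exact hc.2
  · intro c hc
    rcases trichotomous_of WellOrderingRel (ConjClasses.mk c) (ConjClasses.mk c⁻¹) with h | h | h
    · exact Or.inl ⟨hc, h⟩
    · exfalso
      obtain ⟨g, hg⟩ := isConj_iff.mp (ConjClasses.mk_eq_mk_iff_isConj.mp h)
      exact hno c hc g hg
    · refine Or.inr ⟨hinv c hc, ?_⟩
      rw [inv_inv]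
      exact h
  · intro c hc hc'
    have h2 := hc'.2
    rw [inv_inv] at h2
    exact asymm_of WellOrderingRel hc.2 h2

/-- no inversion: g c g⁻¹ = c⁻¹ ⇒ g² commutes with c ⇒ g² = c^k; conjugating by g: g² = c^{-k};
c^{2k} = 1 ⇒ k = 0 (c has infinite order) ⇒ g² = 1, then g^d = g or... d odd: if g has g^d ≠ 1 then
(hlox) (g^2)^d ≠ 1, contradiction; so g^d = 1 and g² = 1, d odd: g = 1, c = c⁻¹, c² = 1. -/
theorem no_inversion (hd : Odd d) (hlox : ∀ g : G, g ^ d ≠ 1 → ∀ n : ℤ, n ≠ 0 → (g ^ n) ^ d ≠ 1)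
    (c : G) (hc : c ^ d ≠ 1) (hZ : ∀ h : G, h * c = c * h ↔ h ∈ Subgroup.zpowers c) (g : G) :
    g * c * g⁻¹ ≠ c⁻¹ := by
  intro hg
  have h1 : g * c = c⁻¹ * g := by
    rw [← hg]; group
  have h1' : g * c⁻¹ = c * g := by
    have : g * c⁻¹ * g⁻¹ = c := by
      have := congrArg (·⁻¹) hg
      simp only [mul_inv_rev, inv_inv] at this
      rw [← mul_assoc] at this
      exact this
    calc g * c⁻¹ = (g * c⁻¹ * g⁻¹) * g := by group
      _ = c * g := by rw [this]
  have h2 : (g * g) * c = c * (g * g) := by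
    rw [mul_assoc, h1, ← mul_assoc, h1', mul_assoc]
  obtain ⟨k, hk⟩ := Subgroup.mem_zpowers_iff.mp ((hZ (g * g)).mp h2)
  -- conjugating
  have h3 : g * c ^ k * g⁻¹ = c ^ k := by
    rw [hk]; group
  have h4 : g * c ^ k * g⁻¹ = (c ^ k)⁻¹ := by
    rw [← conj_zpow, hg, inv_zpow]
  have h5 : c ^ (2 * k) = 1 := by
    have h6 : c ^ k = (c ^ k)⁻¹ := h3.symm.trans h4
    have : c ^ k * c ^ k = 1 := by
      nth_rewrite 2 [h6]
      simp
    rw [two_mul, zpow_add, this]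
  have hk0 : k = 0 := by
    by_contra hne
    apply hlox c hc (2 * k) (by omega)
    rw [h5, one_pow]
  rw [hk0, zpow_zero] at hk
  have hgd : g ^ d = 1 := by
    by_contra hne
    apply hlox g hne 2 (by norm_num)
    rw [zpow_two, ← hk, one_pow]
  obtain ⟨m, rfl⟩ := hd
  have hg1 : g = 1 := by
    rw [pow_succ, pow_mul, pow_two, ← hk, one_pow, one_mul] at hgd
    exact hgd
  rw [hg1] at hg
  have hcc : c = c⁻¹ := by simpa using hg
  apply hlox c hc 2 (by norm_num)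
  have : c * c = 1 := by
    nth_rewrite 2 [hcc]
    simp
  rw [zpow_two, this, one_pow]

/-- conjugation action on a conjugation invariant set P -/
@[reducible] def conjAct (P : Set G) (hP : ∀ g, ∀ c ∈ P, g * c * g⁻¹ ∈ P) : MulAction G P where
  smul g c := ⟨g * c.1 * g⁻¹, hP g c.1 c.2⟩
  one_smul c := Subtype.ext (by change 1 * c.1 * 1⁻¹ = c.1; simp)
  mul_smul g h c := Subtype.ext (by
    change (g * h) * c.1 * (g * h)⁻¹ = g * (h * c.1 * h⁻¹) * g⁻¹; simp [mul_assoc])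

private theorem a9_u_zpow {g : G} {u r : G → ℝ} (ha : IsAxis D g u r) (n : ℤ) (x : G) :
    u (g ^ n * x) = u x + n * sl D g := by
  induction n using Int.induction_on generalizing x with
  | zero => simp
  | succ i ih =>
    rw [zpow_add, zpow_one, mul_assoc, ih, ha.u_gen]
    push_cast
    ring
  | pred i ih =>
    rw [zpow_sub, zpow_one, mul_assoc, ih]
    have := ha.u_gen (g⁻¹ * x)
    rw [mul_inv_cancel_left] at this
    push_cast
    linarith

private theorem a9_r_zpow {g : G} {u r : G → ℝ} (ha : IsAxis D g u r) (n : ℤ) (x : G) :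
    r (g ^ n * x) = r x := by
  induction n using Int.induction_on generalizing x with
  | zero => simp
  | succ i ih =>
    rw [zpow_add, zpow_one, mul_assoc, ih, ha.r_gen]
  | pred i ih =>
    rw [zpow_sub, zpow_one, mul_assoc, ih]
    have := ha.r_gen (g⁻¹ * x)
    rw [mul_inv_cancel_left] at this
    exact this.symm

/-- equivariant choice of axis functions: for every conjugacy class take a representative c0 and its
functions u0, r0; for c = k c0 k⁻¹ (k chosen) put u c x := u0 (k⁻¹ x), r c x := r0 (k⁻¹ x).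
Equivariance: k_{gc}⁻¹ g k_c centralizes c0, so is a power of c0; u_gen, r_gen.
u c is again an axis function of c: IsAxis D c (u c) (r c) with sl D c = sl D c0 (sl_conj). -/
theorem exists_equivariant (h : Hyp D) (hi : LInv D) (P : Set G)
    (hP : ∀ g, ∀ c ∈ P, g * c * g⁻¹ ∈ P) (hZ : ∀ c ∈ P, ∀ h : G, h * c = c * h ↔ h ∈ Subgroup.zpowers c)
    (hA : ∀ c ∈ P, ∃ u r : G → ℝ, IsAxis D c u r) :
    ∃ u r : P → G → ℝ, (∀ c : P, IsAxis D c.1 (u c) (r c)) ∧
      (∀ (g : G) (c : P) x y, u ⟨g * c.1 * g⁻¹, hP g c.1 c.2⟩ (g * x) -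
        u ⟨g * c.1 * g⁻¹, hP g c.1 c.2⟩ (g * y) = u c x - u c y) ∧
      (∀ (g : G) (c : P) x, r ⟨g * c.1 * g⁻¹, hP g c.1 c.2⟩ (g * x) = r c x) := by
  classical
  choose! u0 r0 hax using hA
  -- representatives of the conjugacy classes meeting `P`
  let s : Setoid P := ⟨fun c c' => IsConj c.1 c'.1, fun c => IsConj.refl _, fun h => h.symm,
    fun h h' => h.trans h'⟩
  let rep : P → P := fun c => (Quotient.mk s c).out
  have hrep : ∀ c : P, IsConj (rep c).1 c.1 := fun c =>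
    @Quotient.exact P s (Quotient.mk s c).out c (Quotient.out_eq _)
  have hrep_eq : ∀ c c' : P, IsConj c.1 c'.1 → rep c = rep c' := by
    intro c c' hcc
    change (Quotient.mk s c).out = (Quotient.mk s c').out
    rw [Quotient.sound (s := s) hcc]
  have hk : ∀ c : P, ∃ k : G, k * (rep c).1 * k⁻¹ = c.1 := fun c => isConj_iff.mp (hrep c)
  choose k hk using hk
  have hsl : ∀ c : P, sl D c.1 = sl D (rep c).1 := by
    intro c
    rw [← hk c, sl_conj h hi]
  have hkc : ∀ (c : P) (x : G), (k c)⁻¹ * (c.1 * x) = (rep c).1 * ((k c)⁻¹ * x) := by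
    intro c x
    have : (k c)⁻¹ * c.1 = (rep c).1 * (k c)⁻¹ := by
      calc (k c)⁻¹ * c.1 = (k c)⁻¹ * (k c * (rep c).1 * (k c)⁻¹) := by rw [hk c]
        _ = (rep c).1 * (k c)⁻¹ := by group
    rw [← mul_assoc, this, mul_assoc]
  have hR : ∀ c : P, IsAxis D (rep c).1 (u0 (rep c).1) (r0 (rep c).1) := fun c =>
    hax (rep c).1 (rep c).2
  -- the change of conjugator
  have hcon : ∀ (g : G) (c : P), ∃ n : ℤ, ∀ x : G,
      (k ⟨g * c.1 * g⁻¹, hP g c.1 c.2⟩)⁻¹ * (g * x) = (rep c).1 ^ n * ((k c)⁻¹ * x) := by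
    intro g c
    set c' : P := ⟨g * c.1 * g⁻¹, hP g c.1 c.2⟩ with hc'
    have hrc : rep c' = rep c := hrep_eq c' c (isConj_iff.mpr ⟨g⁻¹, by rw [hc']; group⟩)
    have e1 : k c' * (rep c).1 * (k c')⁻¹ = g * (k c * (rep c).1 * (k c)⁻¹) * g⁻¹ := by
      rw [hk c, ← hrc, hk c']
    have e2 : ((k c')⁻¹ * g * k c) * (rep c).1 = (rep c).1 * ((k c')⁻¹ * g * k c) := by
      calc ((k c')⁻¹ * g * k c) * (rep c).1
          = (k c')⁻¹ * (g * (k c * (rep c).1 * (k c)⁻¹) * g⁻¹) * (g * k c) := by group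
        _ = (k c')⁻¹ * (k c' * (rep c).1 * (k c')⁻¹) * (g * k c) := by rw [← e1]
        _ = (rep c).1 * ((k c')⁻¹ * g * k c) := by group
    obtain ⟨n, hn⟩ := Subgroup.mem_zpowers_iff.mp ((hZ (rep c).1 (rep c).2 _).mp e2)
    refine ⟨n, fun x => ?_⟩
    rw [hn]
    group
  refine ⟨fun c x => u0 (rep c).1 ((k c)⁻¹ * x), fun c x => r0 (rep c).1 ((k c)⁻¹ * x),
    fun c => ?_, fun g c x y => ?_, fun g c x => ?_⟩
  · constructor
    · intro x y
      rw [← hi (k c)⁻¹ x y]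
      exact (hR c).u_lip _ _
    · intro x y
      rw [← hi (k c)⁻¹ x y]
      exact (hR c).r_lip _ _
    · intro x
      exact (hR c).r_nonneg _
    · intro x
      simp only
      rw [hkc, (hR c).u_gen, ← hsl c]
    · intro x
      simp only
      rw [hkc, (hR c).r_gen]
    · intro x y
      rw [← hi (k c)⁻¹ x y]
      exact (hR c).upper _ _
    · intro x y hxy
      rw [← hi (k c)⁻¹ x y]
      exact (hR c).lower _ _ hxy
    · intro t
      obtain ⟨p, hp1, hp2⟩ := (hR c).dense t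
      refine ⟨k c * p, ?_, ?_⟩
      · simpa using hp1
      · simpa using hp2
  · obtain ⟨n, hn⟩ := hcon g c
    have hrc : rep ⟨g * c.1 * g⁻¹, hP g c.1 c.2⟩ = rep c :=
      hrep_eq _ c (isConj_iff.mpr ⟨g⁻¹, by group⟩)
    simp only
    rw [hrc, hn, hn, a9_u_zpow (hR c), a9_u_zpow (hR c)]
    ring
  · obtain ⟨n, hn⟩ := hcon g c
    have hrc : rep ⟨g * c.1 * g⁻¹, hP g c.1 c.2⟩ = rep c :=
      hrep_eq _ c (isConj_iff.mpr ⟨g⁻¹, by group⟩)
    simp only
    rw [hrc, hn, a9_r_zpow (hR c)]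

end Pool.Agent.helper50.BW
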