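import Pool.Agent.helper50.BW.A8
import Pool.Agent.helper50.BW.A9
import Pool.Agent.helper50.BW.A10
/-! ## BW-A11 Assembly of stage A
O := {c | c^d ≠ 1 ∧ sl c ≤ T ∧ ∀ h, h c = c h ↔ h ∈ zpowers c}; P from exists_orient; C := P with conjAct;
gen = Subtype.val; ell c = sl D c.  stab: g c g⁻¹ = c ↔ g c = c g ↔ g ∈ zpowers c.
sep: b ≠ c in P do not commute (else b ∈ zpowers c and c ∈ zpowers b, both of infinite order, so
b = c or b = c⁻¹; the latter is excluded because c⁻¹ ∉ P).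
Covering: cyc gives c0 with g ∈ zpowers c0; c0 or c0⁻¹ is in P. -/
namespace Pool.Agent.helper50.BW
open Filter Topology
variable {G : Type} [Group G] {D : G → G → ℝ} {d : ℕ} {τ ε A T' Δ : ℝ}

/-- axis functions for every loxodromic element -/
theorem Stg.axis (hS : Stg D d τ ε A T' Δ) (hτ : 0 < τ) {g : G} (hg : g ^ d ≠ 1) :
    ∃ u r : G → ℝ, IsAxis D g u r := by
  have h1 : 0 < sl D g := hτ.trans_le (hS.lox_sl hg)
  obtain ⟨x, hx⟩ := exists_orbit hS.hyp hS.linv g h1
  obtain ⟨u, r, h, -⟩ := isAxis_exists hS.hyp hS.linv g h1 x hx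
  exact ⟨u, r, h⟩

/-- the elements that become generators of cones (up to orientation) -/
def a11O (D : G → G → ℝ) (d : ℕ) (T : ℝ) : Set G :=
  {c | c ^ d ≠ 1 ∧ sl D c ≤ T ∧ ∀ h, h * c = c * h ↔ h ∈ Subgroup.zpowers c}

theorem a11O_conj (hS : Stg D d τ ε A T' Δ) {T : ℝ} (g c : G) (hc : c ∈ a11O D d T) :
    g * c * g⁻¹ ∈ a11O D d T := by
  obtain ⟨h1, h2, h3⟩ := hc
  refine ⟨?_, ?_, ?_⟩
  · rw [conj_pow]
    intro h
    apply h1
    have h4 : c ^ d = g⁻¹ * (g * c ^ d * g⁻¹) * g := by group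
    rw [h4, h]
    group
  · rw [sl_conj hS.hyp hS.linv]
    exact h2
  · intro h
    have h4 : h * (g * c * g⁻¹) = g * c * g⁻¹ * h ↔ (g⁻¹ * h * g) * c = c * (g⁻¹ * h * g) := by
      constructor
      · intro h5
        have h6 : (g⁻¹ * h * g) * c = g⁻¹ * (h * (g * c * g⁻¹)) * g := by group
        rw [h6, h5]
        group
      · intro h5
        have h6 : h * (g * c * g⁻¹) = g * ((g⁻¹ * h * g) * c) * g⁻¹ := by group
        rw [h6, h5]
        group
    rw [h4, h3, Subgroup.mem_zpowers_iff, Subgroup.mem_zpowers_iff]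
    constructor
    · rintro ⟨k, hk⟩
      refine ⟨k, ?_⟩
      rw [conj_zpow, hk]
      group
    · rintro ⟨k, hk⟩
      refine ⟨k, ?_⟩
      rw [conj_zpow] at hk
      rw [← hk]
      group

theorem a11O_inv (hS : Stg D d τ ε A T' Δ) {T : ℝ} (c : G) (hc : c ∈ a11O D d T) :
    c⁻¹ ∈ a11O D d T := by
  obtain ⟨h1, h2, h3⟩ := hc
  refine ⟨?_, ?_, ?_⟩
  · rw [inv_pow]
    exact fun h => h1 (inv_eq_one.1 h)
  · rw [sl_inv hS.hyp hS.linv]
    exact h2
  · intro h
    rw [Subgroup.zpowers_inv, ← h3]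
    constructor
    · intro h5
      have h6 : h * c = c * (c⁻¹ * h) * c := by group
      rw [h6, ← h5]
      group
    · intro h5
      have h6 : h * c⁻¹ = c⁻¹ * (c * h) * c⁻¹ := by group
      rw [h6, ← h5]
      group

/-- two oriented generators that commute are equal -/
theorem a11_eq (hS : Stg D d τ ε A T' Δ) (hd : 0 < d) (hτ : 0 < τ) {T : ℝ} {b c : G}
    (hb : b ∈ a11O D d T) (hc : c ∈ a11O D d T) (hne : b ≠ c⁻¹) (hbc : b * c = c * b) :
    b = c := by
  obtain ⟨m, hm⟩ := Subgroup.mem_zpowers_iff.1 ((hc.2.2 b).1 hbc)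
  obtain ⟨n, hn⟩ := Subgroup.mem_zpowers_iff.1 ((hb.2.2 c).1 hbc.symm)
  have h1 : c ^ (m * n - 1) = 1 := by
    rw [zpow_sub, zpow_mul, hm, hn, zpow_one, mul_inv_cancel]
  have h2 : m * n - 1 = 0 := by
    by_contra h3
    exact hS.lox_zpow hd hτ hc.1 h3 (by rw [h1, one_pow])
  have h3 : m * n = 1 := by omega
  rcases Int.isUnit_iff.1 (IsUnit.of_mul_eq_one n h3) with h4 | h4
  · rw [← hm, h4, zpow_one]
  · exact absurd (by rw [← hm, h4, zpow_neg_one]) hne

theorem stageA (hS : Stg D d τ ε A T' Δ) (hd : Odd d) (hτ : 0 < τ) (hΔ : 0 ≤ Δ) (hε : 15 ≤ ε) {T : ℝ}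
    (hT0 : 0 ≤ T) (hT : T + 22 * KU ≤ T') :
    ∃ (C : Type) (_ : MulAction G C) (S : CSys D C KU (Δ + 2 * KU) τ T),
      (∀ c, S.ell c = sl D (S.gen c)) ∧ (∀ c, S.gen c ^ d ≠ 1) ∧
      (∀ g : G, g ^ d ≠ 1 → sl D g ≤ T → ∃ c, g ∈ Subgroup.zpowers (S.gen c)) := by
  have hd0 : 0 < d := hd.pos
  obtain ⟨P, hPO, hPc, hPor, hPinv⟩ := exists_orient (a11O D d T)
    (fun g c hc => a11O_conj hS g c hc) (fun c hc => a11O_inv hS c hc)
    (fun c hc g => no_inversion hd (fun g hg n hn => hS.lox_zpow hd0 hτ hg hn) c hc.1 hc.2.2 g)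
  obtain ⟨u, r, hax, hu, hr⟩ := exists_equivariant hS.hyp hS.linv P hPc
    (fun c hc => (hPO hc).2.2) (fun c hc => hS.axis hτ (hPO hc).1)
  let act : MulAction G P := conjAct P hPc
  let S : CSys D P KU (Δ + 2 * KU) τ T :=
    { gen := fun c => c.1
      ell := fun c => sl D c.1
      u := u
      r := r
      gen_smul := fun g c => rfl
      stab := by
        intro g c
        rw [← (hPO c.2).2.2 g]
        constructor
        · intro h
          have h1 : g * c.1 * g⁻¹ = c.1 := congrArg Subtype.val h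
          calc g * c.1 = (g * c.1 * g⁻¹) * g := by group
            _ = c.1 * g := by rw [h1]
        · intro h
          apply Subtype.ext
          change g * c.1 * g⁻¹ = c.1
          rw [h]
          group
      ell_smul := fun g c => sl_conj hS.hyp hS.linv c.1 g
      ell_ge := fun c => hS.lox_sl (hPO c.2).1
      ell_le := fun c => (hPO c.2).2.1
      u_lip := fun c x y => (hax c).u_lip x y
      r_lip := fun c x y => (hax c).r_lip x y
      r_nonneg := fun c x => (hax c).r_nonneg x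
      u_smul := fun g c x y => hu g c x y
      r_smul := fun g c x => hr g c x
      u_gen := fun c x => (hax c).u_gen x
      upper := fun c x y => (hax c).upper x y
      lower := fun c x y => (hax c).lower x y
      dense := fun c t => (hax c).dense t
      sep := by
        intro b c p q hbc hp hq
        refine Stg.sep hS hτ hΔ hT hT0 (hax b) (hax c) (hPO b.2).1 (hPO c.2).1 (hPO b.2).2.1
          (hPO c.2).2.1 ?_ hp hq
        intro h
        apply hbc
        apply Subtype.ext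
        refine a11_eq hS hd0 hτ (hPO b.2) (hPO c.2) ?_ h
        intro h1
        exact hPinv c.1 c.2 (h1 ▸ b.2) }
  refine ⟨P, act, S, fun c => rfl, fun c => (hPO c.2).1, ?_⟩
  intro g hg hgT
  obtain ⟨c, hc1, hc2, hc3, hc4⟩ := hS.cyc hd0 hτ hε (T := T) (by
    have : (KU : ℝ) = 1000 := rfl
    linarith) hg hgT
  have hcO : c ∈ a11O D d T := ⟨hc1, hc2.trans hgT, hc4⟩
  rcases hPor c hcO with h | h
  · exact ⟨⟨c, h⟩, hc3⟩
  · refine ⟨⟨c⁻¹, h⟩, ?_⟩
    change g ∈ Subgroup.zpowers c⁻¹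
    rw [Subgroup.zpowers_inv]
    exact hc3

end Pool.Agent.helper50.BW
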