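import Pool.Agent.helper50.BW.Defs
/-! ## BW-A1 Basic -/
namespace Pool.Agent.helper50.BW
open Filter Topology
variable {X : Type} {D : X → X → ℝ}

theorem Hyp.nonneg (h : Hyp D) (x y : X) : 0 ≤ D x y := by
  have h1 := h.tri x y x
  rw [h.refl, h.symm y x] at h1
  linarith

/-- four on (w,z),(x,y). -/
theorem Hyp.near (h : Hyp D) {κ : ℝ} {x z y : X} (hz : Btw D κ x z y) (w : X) :
    D w z ≤ max (D w x - D x z) (D w y - D z y) + κ + 2 := by
  have h1 := h.four w z x y
  unfold Btw at hz
  have h2 : max (D w x + D z y) (D w y + D z x) ≤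
      max (D w x - D x z) (D w y - D z y) + (D x z + D z y) := by
    apply max_le
    · have := le_max_left (D w x - D x z) (D w y - D z y)
      linarith
    · have := le_max_right (D w x - D x z) (D w y - D z y)
      have := h.symm z x
      linarith
  linarith

theorem A1_kappa (h : Hyp D) {κ : ℝ} {x z y : X} (hz : Btw D κ x z y) : 0 ≤ κ := by
  have := h.tri x z y
  unfold Btw at hz
  linarith

theorem A1_symm (h : Hyp D) {κ : ℝ} {x z y : X} (hz : Btw D κ x z y) : Btw D κ y z x := by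
  unfold Btw at *
  rw [h.symm y z, h.symm z x, h.symm y x]
  linarith

/-- near with w = z'. -/
theorem Hyp.near2 (h : Hyp D) {κ : ℝ} {x z z' y : X} (hz : Btw D κ x z y) (hz' : Btw D κ x z' y) :
    D z z' ≤ |D x z - D x z'| + 2 * κ + 2 := by
  have h1 := h.near hz z'
  have hk := A1_kappa h hz
  unfold Btw at hz'
  have htri := h.tri x z y
  have h2 : max (D z' x - D x z) (D z' y - D z y) ≤ |D x z - D x z'| + κ := by
    apply max_le
    · have := neg_abs_le (D x z - D x z')
      have := h.symm z' x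
      linarith
    · have := le_abs_self (D x z - D x z')
      linarith
  rw [h.symm z z']
  linarith

theorem Hyp.rough2 (h : Hyp D) (x y : X) (t : ℝ) (h0 : 0 ≤ t) (h1 : t ≤ D x y) :
    ∃ z, Btw D 2 x z y ∧ |D x z - t| ≤ 1 ∧ |D z y - (D x y - t)| ≤ 1 := by
  obtain ⟨z, hz1, hz2⟩ := h.rough x y t h0 h1
  refine ⟨z, ?_, hz1, hz2⟩
  unfold Btw
  have := (abs_le.1 hz1).2
  have := (abs_le.1 hz2).2
  linarith

/-- the rough point on the side `(x, w)` -/
theorem A1_side (h : Hyp D) {κ t : ℝ} {x z w : X} (h0 : 0 ≤ t) (h1 : t ≤ D x w)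
    (hx : D z x ≤ t + κ) (hw : D z w ≤ D x w - t + κ + 2) :
    ∃ z', D z z' ≤ κ + 7 ∧ Btw D 2 x z' w := by
  obtain ⟨z', hb, hz1, hz2⟩ := h.rough2 x w t h0 h1
  refine ⟨z', ?_, hb⟩
  have h2 := h.near hb z
  have a1 := (abs_le.1 hz1).1
  have a2 := (abs_le.1 hz2).1
  have h3 : max (D z x - D x z') (D z w - D z' w) ≤ κ + 3 := max_le (by linarith) (by linarith)
  linarith

/-- Thin triangles.  g := (Dxy+Dxw-Dyw)/2, t := D x z.  If t ≤ g take z' rough point of (x,w) at t:
D z w ≤ D x w - t + κ + 2 by `near`, then `near` for z' : D z z' ≤ κ+7.  If t > g: g' := Dxy - g,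
t'' := min (D z y) g' (so D z y - t'' ≤ κ), z' rough point of (y,w) at t'': D z w ≤ D y w - t'' + 2κ+2,
D z z' ≤ 2κ+7. -/
theorem Hyp.thin (h : Hyp D) {κ : ℝ} (hκ : 0 ≤ κ) {x z y : X} (hz : Btw D κ x z y) (w : X) :
    ∃ z', D z z' ≤ 2 * κ + 7 ∧ (Btw D 2 x z' w ∨ Btw D 2 w z' y) := by
  have hn := h.near hz w
  have t1 := h.tri x w y
  have t2 := h.tri x z y
  have t3 := h.tri x y w
  have t4 := h.tri y x w
  have s1 := h.symm w y
  have s2 := h.symm z x
  have s3 := h.symm w x
  have s4 := h.symm w z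
  have s5 := h.symm z y
  have s6 := h.symm y x
  have hb : D x z + D z y ≤ D x y + κ := hz
  have p1 := h.nonneg x z
  have p2 := h.nonneg z y
  by_cases ht : D x z ≤ (D x y + D x w - D y w) / 2
  · have hw : D z w ≤ D x w - D x z + κ + 2 := by
      have : max (D w x - D x z) (D w y - D z y) ≤ D x w - D x z :=
        max_le (by linarith) (by linarith)
      linarith
    obtain ⟨z', h1, h2⟩ := A1_side h (κ := κ) p1 (by linarith) (by linarith) hw
    exact ⟨z', by linarith, Or.inl h2⟩
  · push Not at ht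
    have g0 : 0 ≤ (D x y + D y w - D x w) / 2 := by linarith
    have hm0 : 0 ≤ min (D z y) ((D x y + D y w - D x w) / 2) := le_min p2 g0
    have hm1 := min_le_left (D z y) ((D x y + D y w - D x w) / 2)
    have hm2 := min_le_right (D z y) ((D x y + D y w - D x w) / 2)
    have hm3 : D z y ≤ min (D z y) ((D x y + D y w - D x w) / 2) + κ := by
      rcases le_total (D z y) ((D x y + D y w - D x w) / 2) with h1 | h1
      · rw [min_eq_left h1]; linarith
      · rw [min_eq_right h1]; linarith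
    have hw : D z w ≤ D y w - min (D z y) ((D x y + D y w - D x w) / 2) + κ + 2 := by
      have : max (D w x - D x z) (D w y - D z y) ≤
          D y w - min (D z y) ((D x y + D y w - D x w) / 2) :=
        max_le (by linarith) (by linarith)
      linarith
    obtain ⟨z', h1, h2⟩ := A1_side h (κ := κ) hm0 (by linarith) (by linarith) hw
    exact ⟨z', by linarith, Or.inr (A1_symm h h2)⟩

/-- two applications of thin (w = y', then w = x'). -/
theorem Hyp.quad (h : Hyp D) {κ : ℝ} (hκ : 0 ≤ κ) {x z y : X} (hz : Btw D κ x z y) (x' y' : X) :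
    ∃ z', D z z' ≤ 2 * κ + 18 ∧ (Btw D 2 x z' x' ∨ Btw D 2 x' z' y' ∨ Btw D 2 y' z' y) := by
  obtain ⟨z1, h1, h2 | h2⟩ := h.thin hκ hz y'
  · obtain ⟨z2, h3, h4⟩ := h.thin (by norm_num) h2 x'
    refine ⟨z2, ?_, ?_⟩
    · have := h.tri z z1 z2
      linarith
    · rcases h4 with h4 | h4
      · exact Or.inl h4
      · exact Or.inr (Or.inl h4)
  · exact ⟨z1, by linarith, Or.inr (Or.inr h2)⟩

/-- Thin polygons, by induction on m (halving: N ≤ 2^(m+1), split at index min N (2^m)). -/
theorem Hyp.poly (h : Hyp D) (m : ℕ) : ∀ (N : ℕ) (x : ℕ → X), 0 < N → N ≤ 2 ^ m →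
    ∀ z, Btw D 2 (x 0) z (x N) →
    ∃ i < N, ∃ z', Btw D 2 (x i) z' (x (i + 1)) ∧ D z z' ≤ 11 * m := by
  induction m with
  | zero =>
    intro N x hN hN1 z hz
    have : N = 1 := by simp at hN1; omega
    subst this
    exact ⟨0, by norm_num, z, hz, by rw [h.refl]; norm_num⟩
  | succ m ih =>
    intro N x hN hN1 z hz
    by_cases hN2 : N ≤ 2 ^ m
    · obtain ⟨i, hi, z', h1, h2⟩ := ih N x hN hN2 z hz
      exact ⟨i, hi, z', h1, by push_cast; linarith⟩
    · push Not at hN2
      have hp : 0 < 2 ^ m := by positivity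
      obtain ⟨z1, h1, h2 | h2⟩ := h.thin (by norm_num) hz (x (2 ^ m))
      · obtain ⟨i, hi, z', h3, h4⟩ := ih (2 ^ m) x hp le_rfl z1 h2
        refine ⟨i, by omega, z', h3, ?_⟩
        have := h.tri z z1 z'
        push_cast; linarith
      · have hN3 : N - 2 ^ m ≤ 2 ^ m := by
          rw [pow_succ] at hN1; omega
        have h2' : Btw D 2 ((fun j => x (2 ^ m + j)) 0) z1 ((fun j => x (2 ^ m + j)) (N - 2 ^ m)) := by
          simp only [add_zero]
          rw [show 2 ^ m + (N - 2 ^ m) = N by omega]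
          exact h2
        obtain ⟨i, hi, z', h3, h4⟩ := ih (N - 2 ^ m) (fun j => x (2 ^ m + j)) (by omega) hN3 z1 h2'
        refine ⟨2 ^ m + i, by omega, z', ?_, ?_⟩
        · simpa [add_assoc] using h3
        · have := h.tri z z1 z'
          push_cast; linarith

/-- z κ-between x,y; then some 2-between point is close: rough point at min (D x z) (D x y). -/
theorem Hyp.snap (h : Hyp D) {κ : ℝ} (hκ : 0 ≤ κ) {x z y : X} (hz : Btw D κ x z y) :
    ∃ z', Btw D 2 x z' y ∧ D z z' ≤ 2 * κ + 7 := by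
  have hb : D x z + D z y ≤ D x y + κ := hz
  have p1 := h.nonneg x z
  have p2 := h.nonneg z y
  have p3 := h.nonneg x y
  have s2 := h.symm z x
  have hm1 := min_le_left (D x z) (D x y)
  have hm2 := min_le_right (D x z) (D x y)
  have hm3 : D x z ≤ min (D x z) (D x y) + κ := by
    rcases le_total (D x z) (D x y) with h1 | h1
    · rw [min_eq_left h1]; linarith
    · rw [min_eq_right h1]; linarith
  obtain ⟨z', h1, h2⟩ := A1_side h (κ := κ) (le_min p1 p3) hm2 (by linarith) (by linarith)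
  exact ⟨z', h2, by linarith⟩

end Pool.Agent.helper50.BW
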