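import Pool.Agent.helper50.BW.S1
import Pool.Agent.helper50.BW.A1
/-! ## BW-S3 heights (uses S1)
X = inl x: q with r_z q ≤ K, |u_z q - u_z x| ≤ K: D x q ≤ r_z x + 3K.  |u_b x - u_b q| ≥ θ0 - Δ ≥ K
(uo_close: q lies on z), lower for b: D x q ≥ r_b q + θ0 - Δ - K.  p' with r_b p' ≤ K, |u_b p' - u_b q| ≤ K:
D p' q ≤ r_b q + 3K, r_z p' ≤ r_z q + D p' q ≤ r_b q + 4K ≤ r_z x + 8K + Δ - θ0 ≤ r_z x - 1.
X = inr a: for every x with r_a x ≤ K the same with θ0 - Δ instead of θ0: mo z b ≤ r_z x - 1, take the inf. -/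
namespace Pool.Agent.helper50.BW
open Sum
variable {G : Type} [Group G] {D : G → G → ℝ} {C : Type} [MulAction G C] {K Δ τ T : ℝ}

theorem height_lt_aux (h : Hyp D) (S : CSys D C K Δ τ T) (hK : 1 ≤ K) {b z : C} (hbz : b ≠ z)
    (x : G) (hx : Δ + 20 * K ≤ |S.u b x - uo S b (inr z)|) :
    mo S z (inr b) + 1 ≤ S.r z x := by
  obtain ⟨q, hq1, hq2⟩ := S.dense z (S.u z x)
  obtain ⟨p, hp1, hp2⟩ := S.dense b (S.u b q)
  have hc : |uo S b (inr z) - S.u b q| ≤ Δ := uo_close S (Ne.symm hbz) hq1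
  have h1 : 20 * K ≤ |S.u b x - S.u b q| := by
    have h2 : S.u b x - uo S b (inr z) = (S.u b x - S.u b q) + (-(uo S b (inr z) - S.u b q)) := by
      ring
    rw [h2] at hx
    have h3 := abs_add_le (S.u b x - S.u b q) (-(uo S b (inr z) - S.u b q))
    rw [abs_neg] at h3
    linarith
  have h2 := S.upper z x q
  have h2' : |S.u z x - S.u z q| ≤ K := by rw [abs_sub_comm]; exact hq2
  have h3 := S.lower b x q (by linarith)
  have h4 := S.upper b p q
  have h5 := S.r_lip z p q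
  have h5' : S.r z p - S.r z q ≤ D p q := (le_abs_self _).trans h5
  have h6 := S.r_nonneg b x
  have h7 : mo S z (inr b) ≤ S.r z p := by
    show sInf {t | ∃ p, S.r b p ≤ K ∧ t = S.r z p} ≤ S.r z p
    refine csInf_le ⟨0, ?_⟩ ⟨p, hp1, rfl⟩
    rintro t ⟨p', _, rfl⟩
    exact S.r_nonneg z p'
  linarith

theorem height_lt (h : Hyp D) (S : CSys D C K Δ τ T) (hK : 1 ≤ K) (hΔ : 0 ≤ Δ) {b z : C} (hbz : b ≠ z)
    {X : G ⊕ C} (hb : X ≠ inr b) (hz : X ≠ inr z)
    (hX : 2 * Δ + 20 * K ≤ |uo S b X - uo S b (inr z)|) :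
    mo S z (inr b) + 1 ≤ mo S z X := by
  rcases X with x | a
  · refine height_lt_aux h S hK hbz x ?_
    have h1 : uo S b (inl x) = S.u b x := rfl
    rw [h1] at hX
    linarith
  · have hab : a ≠ b := fun e => hb (by rw [e])
    show mo S z (inr b) + 1 ≤ sInf {t | ∃ p, S.r a p ≤ K ∧ t = S.r z p}
    refine le_csInf ?_ ?_
    · obtain ⟨p, hp, _⟩ := S.dense a 0
      exact ⟨_, p, hp, rfl⟩
    · rintro t ⟨x, hx, rfl⟩
      refine height_lt_aux h S hK hbz x ?_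
      have hc : |uo S b (inr a) - S.u b x| ≤ Δ := uo_close S hab hx
      have h2 : uo S b (inr a) - uo S b (inr z) =
          (S.u b x - uo S b (inr z)) + (uo S b (inr a) - S.u b x) := by ring
      rw [h2] at hX
      have h3 := abs_add_le (S.u b x - uo S b (inr z)) (uo S b (inr a) - S.u b x)
      linarith

end Pool.Agent.helper50.BW
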