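import Mathlib
/-! ## BW-S4 abstract strong projection lemma (independent module; imports Mathlib only)
O = objects, ι : C → O cones, u c X = position of X on c, m = height over z, Rel X Y = `Y = ι b` is a cone
separating X from z by at least θ₁.
P(n): for every chain X_0..X_n (neighbours related by Rel in one or the other direction) let V = X_j have
minimal m.  Then every X_i equals V or V = ι v, v ≠ z, X_i ≠ V and |u v X_i - u v (ι z)| ≥ θ₁ - 2θ.
Proof by strong induction on n: remove V; right part X_{j+1},...,X_n, V' = its lowest element (induction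
hypothesis).  X_{j+1} ~ V: Rel X_j X_{j+1} is impossible (hH would give m X_{j+1} < m V), so V = ι v and
|u v X_{j+1} - u v z| ≥ θ₁.  If V' = V (as objects) done.  Otherwise claim (**) |u v V' - u v z| ≥ θ₁ - θ:
clear if X_{j+1} = V'.  Else V' = ι v' with |u v' X_{j+1} - u v' z| ≥ θ₁ - 2θ.  If |u v' X_{j+1} - u v' (ι v)| > θ
then hB gives |u v X_{j+1} - u v V'| ≤ θ, so (**).  If it is ≤ θ then |u v' (ι v) - u v' z| ≥ θ₁ - 3θ ≥ θ₀ and
hH gives m V' < m V, contradiction.  Now X_i ≠ V', X_i ≠ V in the right part: |u v' X_i - u v' z| ≥ θ₁-2θ;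
by (**) and hB (c := v, b := v', X := ι z) |u v' z - u v' (ι v)| ≤ θ; so |u v' X_i - u v' (ι v)| ≥ θ₁-3θ > θ and hB
gives |u v X_i - u v V'| ≤ θ, hence |u v X_i - u v z| ≥ θ₁ - 2θ.  Left part: the same.
Conclusion: X, Y in one class are = V or separated by V; hB (c := v, b := z): |u z X - u z V| ≤ θ. -/
namespace Pool.Agent.helper50.BW

/-- `X` is `V` or separated from `z` by the cone `V` -/
def S4Good {O C : Type} (ι : C → O) (u : C → O → ℝ) (z : C) (θ θ₁ : ℝ) (V X : O) : Prop :=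
  X = V ∨ (X ≠ ι z ∧ X ≠ V ∧ ∃ v, v ≠ z ∧ V = ι v ∧ θ₁ - 2 * θ ≤ |u v X - u v (ι z)|)

theorem S4_step {O C : Type} (ι : C → O) (hι : Function.Injective ι) (u : C → O → ℝ) (m : O → ℝ)
    (z : C) {θ θ₀ θ₁ : ℝ} (hθ : 0 ≤ θ) (h1 : θ₀ + 3 * θ ≤ θ₁) (h2 : 4 * θ < θ₁)
    (hB : ∀ b c X, b ≠ c → X ≠ ι b → X ≠ ι c → θ < |u c X - u c (ι b)| → |u b X - u b (ι c)| ≤ θ)
    (hH : ∀ b X, b ≠ z → X ≠ ι b → X ≠ ι z → θ₀ ≤ |u b X - u b (ι z)| → m (ι b) + 1 ≤ m X)
    (Rel : O → O → Prop)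
    (hR : ∀ X Y, Rel X Y ↔ (X ≠ ι z ∧ Y ≠ ι z ∧ X ≠ Y ∧ ∃ b, Y = ι b ∧ θ₁ ≤ |u b X - u b (ι z)|))
    {V W V' : O} (hadj : Rel V W ∨ Rel W V) (hmW : m V ≤ m W) (hmV' : m V ≤ m V')
    (hW : S4Good ι u z θ θ₁ V' W) {X : O} (hX : S4Good ι u z θ θ₁ V' X) :
    S4Good ι u z θ θ₁ V X := by
  -- `Rel V W` is impossible
  have hWV : Rel W V := by
    rcases hadj with h | h
    · exfalso
      obtain ⟨h3, h4, h5, b, h6, h7⟩ := (hR _ _).1 h
      have hbz : b ≠ z := by
        rintro rfl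
        exact h4 h6
      have h8 := hH b V hbz (by rw [← h6]; exact h5) h3 (by linarith)
      rw [← h6] at h8
      linarith
    · exact h
  obtain ⟨hWz, hVz, hne, v, hv, hsep⟩ := (hR _ _).1 hWV
  have hvz : v ≠ z := by
    rintro rfl
    exact hVz hv
  by_cases hVV : V' = V
  · rw [hVV] at hX
    exact hX
  -- the claim
  have hstar : V' ≠ ι z ∧ θ₁ - θ ≤ |u v V' - u v (ι z)| := by
    rcases hW with hW | ⟨-, hWV', v', hv'z, hv', hsep'⟩
    · rw [← hW]
      exact ⟨hWz, by linarith⟩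
    · have hV'z : V' ≠ ι z := by
        rw [hv']
        exact fun h => hv'z (hι h)
      refine ⟨hV'z, ?_⟩
      have hvv : v ≠ v' := by
        rintro rfl
        exact hVV (hv'.trans hv.symm)
      by_cases hc : θ < |u v' W - u v' (ι v)|
      · have h3 := hB v v' W hvv (by rw [← hv]; exact hne) (by rw [← hv']; exact hWV') hc
        rw [← hv'] at h3
        have h4 : |u v W - u v (ι z)| ≤ |u v W - u v V'| + |u v V' - u v (ι z)| := abs_sub_le _ _ _
        linarith
      · exfalso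
        push Not at hc
        have h4 : |u v' W - u v' (ι z)| ≤ |u v' W - u v' (ι v)| + |u v' (ι v) - u v' (ι z)| :=
          abs_sub_le _ _ _
        have h5 := hH v' V hv'z (by rw [← hv']; exact fun h => hVV h.symm) hVz
          (by rw [hv]; linarith)
        rw [← hv'] at h5
        linarith
  obtain ⟨hV'z, hstar⟩ := hstar
  rcases hX with hX | ⟨hXz, hXV', v', hv'z, hv', hsepX⟩
  · right
    rw [hX]
    exact ⟨hV'z, hVV, v, hvz, hv, by linarith⟩
  · by_cases hXV : X = V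
    · left
      exact hXV
    right
    refine ⟨hXz, hXV, v, hvz, hv, ?_⟩
    have hvv : v ≠ v' := by
      rintro rfl
      exact hVV (hv'.trans hv.symm)
    have h3 := hB v' v (ι z) hvv.symm (fun h => hv'z (hι h).symm) (fun h => hvz (hι h).symm)
      (by rw [← hv', abs_sub_comm]; linarith)
    have h4 : |u v' X - u v' (ι z)| ≤ |u v' X - u v' (ι v)| + |u v' (ι v) - u v' (ι z)| :=
      abs_sub_le _ _ _
    rw [abs_sub_comm] at h3
    have h5 := hB v v' X hvv (by rw [← hv]; exact hXV) (by rw [← hv']; exact hXV') (by linarith)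
    rw [← hv', abs_sub_comm] at h5
    have h6 : |u v V' - u v (ι z)| ≤ |u v V' - u v X| + |u v X - u v (ι z)| := abs_sub_le _ _ _
    linarith

theorem S4_chain {O C : Type} (ι : C → O) (hι : Function.Injective ι) (u : C → O → ℝ) (m : O → ℝ)
    (z : C) {θ θ₀ θ₁ : ℝ} (hθ : 0 ≤ θ) (h1 : θ₀ + 3 * θ ≤ θ₁) (h2 : 4 * θ < θ₁)
    (hB : ∀ b c X, b ≠ c → X ≠ ι b → X ≠ ι c → θ < |u c X - u c (ι b)| → |u b X - u b (ι c)| ≤ θ)
    (hH : ∀ b X, b ≠ z → X ≠ ι b → X ≠ ι z → θ₀ ≤ |u b X - u b (ι z)| → m (ι b) + 1 ≤ m X)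
    (Rel : O → O → Prop)
    (hR : ∀ X Y, Rel X Y ↔ (X ≠ ι z ∧ Y ≠ ι z ∧ X ≠ Y ∧ ∃ b, Y = ι b ∧ θ₁ ≤ |u b X - u b (ι z)|))
    (n : ℕ) : ∀ f : ℕ → O, (∀ i < n, Rel (f i) (f (i + 1)) ∨ Rel (f (i + 1)) (f i)) →
      ∀ j ≤ n, (∀ i ≤ n, m (f j) ≤ m (f i)) → ∀ i ≤ n, S4Good ι u z θ θ₁ (f j) (f i) := by
  induction n using Nat.strong_induction_on with
  | _ n ih =>
    intro f hf j hj hmin i hi
    have hexmin : ∀ (g : ℕ → O) (k : ℕ), ∃ l ≤ k, ∀ i ≤ k, m (g l) ≤ m (g i) := by
      intro g k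
      obtain ⟨l, hl, hl'⟩ := Finset.exists_min_image (Finset.range (k + 1)) (fun i => m (g i))
        ⟨0, by simp⟩
      refine ⟨l, by have := Finset.mem_range.1 hl; omega, fun i hi => ?_⟩
      exact hl' i (Finset.mem_range.2 (by omega))
    rcases lt_trichotomy i j with hij | hij | hij
    · -- left part
      set g : ℕ → O := fun k => f (j - 1 - k) with hg
      obtain ⟨l, hl, hl'⟩ := hexmin g (j - 1)
      have hch : ∀ k < j - 1, Rel (g k) (g (k + 1)) ∨ Rel (g (k + 1)) (g k) := by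
        intro k hk
        have h3 := hf (j - 1 - (k + 1)) (by omega)
        have h4 : j - 1 - (k + 1) + 1 = j - 1 - k := by omega
        rw [h4] at h3
        exact h3.symm
      have hgood := ih (j - 1) (by omega) g hch l hl hl'
      have hadj : Rel (f j) (g 0) ∨ Rel (g 0) (f j) := by
        have h3 := hf (j - 1) (by omega)
        have h4 : j - 1 + 1 = j := by omega
        rw [h4] at h3
        exact h3.symm
      have h5 := S4_step ι hι u m z hθ h1 h2 hB hH Rel hR hadj (hmin (j - 1 - 0) (by omega))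
        (hmin (j - 1 - l) (by omega)) (hgood 0 (Nat.zero_le _)) (hgood (j - 1 - i) (by omega))
      have h6 : j - 1 - (j - 1 - i) = i := by omega
      simp only [hg, h6] at h5
      exact h5
    · rw [hij]
      left
      rfl
    · -- right part
      set g : ℕ → O := fun k => f (j + 1 + k) with hg
      obtain ⟨l, hl, hl'⟩ := hexmin g (n - j - 1)
      have hch : ∀ k < n - j - 1, Rel (g k) (g (k + 1)) ∨ Rel (g (k + 1)) (g k) := by
        intro k hk
        exact hf (j + 1 + k) (by omega)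
      have hgood := ih (n - j - 1) (by omega) g hch l hl hl'
      have hadj : Rel (f j) (g 0) ∨ Rel (g 0) (f j) := hf j (by omega)
      have h5 := S4_step ι hι u m z hθ h1 h2 hB hH Rel hR hadj (hmin (j + 1 + 0) (by omega))
        (hmin (j + 1 + l) (by omega)) (hgood 0 (Nat.zero_le _)) (hgood (i - j - 1) (by omega))
      have h6 : j + 1 + (i - j - 1) = i := by omega
      simp only [hg, h6] at h5
      exact h5

theorem S4_eqvGen {O : Type} {Rel : O → O → Prop} {X Y : O} (h : Relation.EqvGen Rel X Y) :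
    ∃ (n : ℕ) (f : ℕ → O), f 0 = X ∧ f n = Y ∧
      ∀ i < n, Rel (f i) (f (i + 1)) ∨ Rel (f (i + 1)) (f i) := by
  have hs : ∀ a b, Relation.ReflTransGen (fun a b => Rel a b ∨ Rel b a) a b →
      Relation.ReflTransGen (fun a b => Rel a b ∨ Rel b a) b a := by
    intro a b hab
    induction hab with
    | refl => exact Relation.ReflTransGen.refl
    | tail _ hbc ih => exact Relation.ReflTransGen.head (Or.symm hbc) ih
  have h1 : Relation.ReflTransGen (fun a b => Rel a b ∨ Rel b a) X Y := by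
    induction h with
    | rel x y h => exact Relation.ReflTransGen.single (Or.inl h)
    | refl x => exact Relation.ReflTransGen.refl
    | symm x y _ ih => exact hs _ _ ih
    | trans x y z _ _ ih1 ih2 => exact ih1.trans ih2
  clear h
  induction h1 with
  | refl => exact ⟨0, fun _ => X, rfl, rfl, fun i hi => absurd hi (Nat.not_lt_zero _)⟩
  | @tail b c _ hbc ih =>
    obtain ⟨n, f, h0, hn, hf⟩ := ih
    refine ⟨n + 1, fun i => if i ≤ n then f i else c, ?_, ?_, ?_⟩
    · simp [h0]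
    · simp
    · intro i hi
      by_cases hin : i < n
      · have h3 : i ≤ n := by omega
        have h4 : i + 1 ≤ n := by omega
        simp only [h3, h4, if_true]
        exact hf i hin
      · have h3 : i = n := by omega
        subst h3
        simp only [le_refl, if_true, Nat.not_succ_le_self, if_false, hn]
        exact hbc

theorem strong_proj {O C : Type} (ι : C → O) (hι : Function.Injective ι) (u : C → O → ℝ) (m : O → ℝ)
    (z : C) {θ θ₀ θ₁ : ℝ} (hθ : 0 ≤ θ) (h1 : θ₀ + 3 * θ ≤ θ₁) (h2 : 4 * θ < θ₁)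
    (hB : ∀ b c X, b ≠ c → X ≠ ι b → X ≠ ι c → θ < |u c X - u c (ι b)| → |u b X - u b (ι c)| ≤ θ)
    (hH : ∀ b X, b ≠ z → X ≠ ι b → X ≠ ι z → θ₀ ≤ |u b X - u b (ι z)| → m (ι b) + 1 ≤ m X)
    (Rel : O → O → Prop)
    (hR : ∀ X Y, Rel X Y ↔ (X ≠ ι z ∧ Y ≠ ι z ∧ X ≠ Y ∧ ∃ b, Y = ι b ∧ θ₁ ≤ |u b X - u b (ι z)|))
    {X Y : O} (hXY : Relation.EqvGen Rel X Y) : |u z X - u z Y| ≤ 2 * θ := by
  obtain ⟨n, f, h0, hn, hf⟩ := S4_eqvGen hXY
  obtain ⟨j, hj, hj'⟩ := Finset.exists_min_image (Finset.range (n + 1)) (fun i => m (f i))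
    ⟨0, by simp⟩
  have hgood := S4_chain ι hι u m z hθ h1 h2 hB hH Rel hR n f hf j
    (by have := Finset.mem_range.1 hj; omega) (fun i hi => hj' i (Finset.mem_range.2 (by omega)))
  have hb : ∀ T, S4Good ι u z θ θ₁ (f j) T → |u z T - u z (f j)| ≤ θ := by
    intro T hT
    rcases hT with hT | ⟨hTz, hTV, v, hvz, hv, hsep⟩
    · rw [hT, sub_self, abs_zero]
      exact hθ
    · rw [hv]
      exact hB z v T hvz.symm hTz (by rw [← hv]; exact hTV) (by linarith)
  have h3 := hb X (by rw [← h0]; exact hgood 0 (Nat.zero_le _))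
  have h4 := hb Y (by rw [← hn]; exact hgood n le_rfl)
  rw [abs_sub_comm] at h4
  have h5 : |u z X - u z Y| ≤ |u z X - u z (f j)| + |u z (f j) - u z Y| := abs_sub_le _ _ _
  linarith

end Pool.Agent.helper50.BW
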