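import Pool.Agent.helper50.BW.S2
import Pool.Agent.helper50.BW.S3
import Pool.Agent.helper50.BW.S4
/-! ## BW-S5 the strong projection has all properties (uses S1-S4)
θ = 3Δ+10K, θ₀ = 2Δ+20K, θ₁ = 12Δ+60K.  |Uo z X - uo z X| ≤ 2θ for X ≠ inr z (strong_proj with ι = inr,
u = uo S, m = mo S z; if X = inr z the class is trivial: elements of SRel are ≠ inr z).
smul: SRel (g•z) (g•X) (g•Y) ↔ SRel z X Y (uo_smul; the additive constants cancel), so the set in the
definition of Uo (g•z) (g•X) is the set for Uo z X shifted by a (classes do not contain inr z).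
rot: the same with g = gen z ^ k, uo_gen.  exact: |uo b X - uo b c| ≥ κ₁ - 4θ ≥ θ₁, so SRel c X (inr b).
close, closeC: 2θ and 2θ + Δ (uo_close). -/
namespace Pool.Agent.helper50.BW
open Sum
variable {G : Type} [Group G] {D : G → G → ℝ} {C : Type} [MulAction G C] {K Δ τ T : ℝ}

namespace S5

theorem smul_ne (g : G) (z : C) (X : G ⊕ C) : g • X ≠ inr (g • z) ↔ X ≠ inr z := by
  refine not_congr ?_
  constructor
  · intro h
    have h1 : g • X = g • (inr z : G ⊕ C) := h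
    exact smul_left_cancel g h1
  · rintro rfl
    rfl

theorem srel_smul (S : CSys D C K Δ τ T) (θ₁ : ℝ) (g : G) (z : C) {X Y : G ⊕ C}
    (h : SRel S θ₁ z X Y) : SRel S θ₁ (g • z) (g • X) (g • Y) := by
  obtain ⟨h1, h2, h3, b, rfl, h4⟩ := h
  obtain ⟨a, ha⟩ := uo_smul S g b
  refine ⟨(smul_ne g z X).2 h1, (smul_ne g z _).2 h2, fun h => h3 (smul_left_cancel g h), g • b,
    rfl, ?_⟩
  have hz : (inr z : G ⊕ C) ≠ inr b := fun h => h2 h.symm
  have e1 := ha X h3
  have e2 : uo S (g • b) (inr (g • z)) = uo S b (inr z) + a := ha (inr z) hz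
  rw [e1, e2]
  have : uo S b X + a - (uo S b (inr z) + a) = uo S b X - uo S b (inr z) := by ring
  rw [this]
  exact h4

theorem eqv_smul (S : CSys D C K Δ τ T) (θ₁ : ℝ) (g : G) (z : C) {X Y : G ⊕ C}
    (h : Relation.EqvGen (SRel S θ₁ z) X Y) :
    Relation.EqvGen (SRel S θ₁ (g • z)) (g • X) (g • Y) := by
  induction h with
  | rel x y h => exact Relation.EqvGen.rel _ _ (srel_smul S θ₁ g z h)
  | refl x => exact Relation.EqvGen.refl _
  | symm x y _ ih => exact Relation.EqvGen.symm _ _ ih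
  | trans x y w _ _ ih1 ih2 => exact Relation.EqvGen.trans _ _ _ ih1 ih2

theorem eqv_ne (S : CSys D C K Δ τ T) (θ₁ : ℝ) (z : C) {X Y : G ⊕ C}
    (h : Relation.EqvGen (SRel S θ₁ z) X Y) : X = inr z ↔ Y = inr z := by
  induction h with
  | rel x y h => exact ⟨fun h' => absurd h' h.1, fun h' => absurd h' h.2.1⟩
  | refl x => exact Iff.rfl
  | symm x y _ ih => exact ih.symm
  | trans x y w _ _ ih1 ih2 => exact ih1.trans ih2

theorem sSup_shift {A B : Set ℝ} (hne : A.Nonempty) (hb : BddAbove A) (a : ℝ)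
    (h : ∀ t, t ∈ B ↔ t - a ∈ A) : sSup B = sSup A + a := by
  have hBne : B.Nonempty := by
    obtain ⟨t, ht⟩ := hne
    exact ⟨t + a, (h _).2 (by rwa [add_sub_cancel_right])⟩
  obtain ⟨M, hM⟩ := hb
  have hBb : BddAbove B := ⟨M + a, fun t ht => by
    have := hM ((h t).1 ht)
    linarith⟩
  refine le_antisymm (csSup_le hBne fun t ht => ?_) ?_
  · have := le_csSup ⟨M, hM⟩ ((h t).1 ht)
    linarith
  · have h1 : sSup A ≤ sSup B - a := by
      refine csSup_le hne fun t ht => ?_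
      have := le_csSup hBb ((h (t + a)).2 (by rwa [add_sub_cancel_right]))
      linarith
    linarith

section
variable (h : Hyp D) (S : CSys D C K Δ τ T) (hK : 1 ≤ K) (hΔ : 0 ≤ Δ)
include h hK hΔ

theorem class_close (z : C) {X Y : G ⊕ C}
    (hXY : Relation.EqvGen (SRel S (12 * Δ + 60 * K) z) X Y) :
    |uo S z X - uo S z Y| ≤ 2 * (3 * Δ + 10 * K) :=
  strong_proj (O := G ⊕ C) (C := C) inr inr_injective (uo S) (mo S z) z
    (θ := 3 * Δ + 10 * K) (θ₀ := 2 * Δ + 20 * K) (θ₁ := 12 * Δ + 60 * K)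
    (by linarith) (by linarith) (by linarith)
    (fun b c X hbc hb hc hX => behrstock h S hK hΔ hbc hb hc hX)
    (fun b X hbz hb hz hX => height_lt h S hK hΔ hbz hb hz hX)
    (SRel S (12 * Δ + 60 * K) z) (fun X Y => Iff.rfl) hXY

theorem set_bdd (z : C) (X : G ⊕ C) :
    BddAbove {t | ∃ Y, Relation.EqvGen (SRel S (12 * Δ + 60 * K) z) X Y ∧ t = uo S z Y} := by
  refine ⟨uo S z X + 2 * (3 * Δ + 10 * K), ?_⟩
  rintro t ⟨Y, hY, rfl⟩
  have := abs_le.1 (class_close h S hK hΔ z hY)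
  linarith [this.1]

omit h hK hΔ in
theorem set_ne (θ₁ : ℝ) (z : C) (X : G ⊕ C) :
    {t | ∃ Y, Relation.EqvGen (SRel S θ₁ z) X Y ∧ t = uo S z Y}.Nonempty :=
  ⟨uo S z X, X, Relation.EqvGen.refl _, rfl⟩

theorem Uo_close (z : C) (X : G ⊕ C) :
    |Uo S (12 * Δ + 60 * K) z X - uo S z X| ≤ 2 * (3 * Δ + 10 * K) := by
  have h1 : uo S z X ≤ Uo S (12 * Δ + 60 * K) z X :=
    le_csSup (set_bdd h S hK hΔ z X) ⟨X, Relation.EqvGen.refl _, rfl⟩
  have h2 : Uo S (12 * Δ + 60 * K) z X ≤ uo S z X + 2 * (3 * Δ + 10 * K) := by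
    refine csSup_le (set_ne S _ z X) ?_
    rintro t ⟨Y, hY, rfl⟩
    have := abs_le.1 (class_close h S hK hΔ z hY)
    linarith [this.1]
  rw [abs_le]
  constructor <;> linarith

theorem Uo_smul (g : G) (c : C) (a : ℝ)
    (ha : ∀ X : G ⊕ C, X ≠ inr c → uo S (g • c) (g • X) = uo S c X + a) (X : G ⊕ C)
    (hX : X ≠ inr c) :
    Uo S (12 * Δ + 60 * K) (g • c) (g • X) = Uo S (12 * Δ + 60 * K) c X + a := by
  refine sSup_shift (set_ne S _ c X) (set_bdd h S hK hΔ c X) a fun t => ?_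
  constructor
  · rintro ⟨Y, hY, rfl⟩
    have h1 := eqv_smul S _ g⁻¹ (g • c) hY
    rw [inv_smul_smul, inv_smul_smul] at h1
    refine ⟨g⁻¹ • Y, h1, ?_⟩
    have h2 : g⁻¹ • Y ≠ inr c := fun h' => hX ((eqv_ne S _ c h1).2 h')
    have h3 := ha _ h2
    rw [smul_inv_smul] at h3
    linarith
  · rintro ⟨Y, hY, ht⟩
    refine ⟨g • Y, eqv_smul S _ g c hY, ?_⟩
    have h2 : Y ≠ inr c := fun h' => hX ((eqv_ne S _ c hY).2 h')
    have h3 := ha _ h2
    linarith

end

end S5

theorem proj_exists (h : Hyp D) (S : CSys D C K Δ τ T) (hK : 1 ≤ K) (hΔ : 0 ≤ Δ) :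
    Proj S (24 * Δ + 100 * K) (7 * Δ + 20 * K) (Uo S (12 * Δ + 60 * K)) where
  smul := by
    intro g c X Y hX hY
    obtain ⟨a, ha⟩ := uo_smul S g c
    rw [S5.Uo_smul h S hK hΔ g c a ha X hX, S5.Uo_smul h S hK hΔ g c a ha Y hY]
    ring
  rot := by
    intro c X k hX
    have h1 := S5.Uo_smul h S hK hΔ (S.gen c ^ k) c (k * S.ell c)
      (fun X hX => by
        rw [CSys.gen_zpow_smul]
        exact uo_gen S c k X hX) X hX
    rw [CSys.gen_zpow_smul] at h1
    exact h1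
  exact := by
    intro b c X hbc hb hc hX
    have h1 := abs_le.1 (S5.Uo_close h S hK hΔ b X)
    have h2 := abs_le.1 (S5.Uo_close h S hK hΔ b (inr c))
    have h3 : 12 * Δ + 60 * K ≤ |uo S b X - uo S b (inr c)| := by
      rcases le_abs'.1 hX with h' | h'
      · have : uo S b X - uo S b (inr c) ≤ -(12 * Δ + 60 * K) := by
          linarith [h1.1, h1.2, h2.1, h2.2]
        rw [le_abs']
        exact Or.inl this
      · have : 12 * Δ + 60 * K ≤ uo S b X - uo S b (inr c) := by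
          linarith [h1.1, h1.2, h2.1, h2.2]
        exact this.trans (le_abs_self _)
    have h4 : SRel S (12 * Δ + 60 * K) c X (inr b) :=
      ⟨hc, fun h' => hbc (inr_injective h'), hb, b, rfl, h3⟩
    have h5 : Relation.EqvGen (SRel S (12 * Δ + 60 * K) c) X (inr b) :=
      Relation.EqvGen.rel _ _ h4
    unfold Uo
    congr 1
    ext t
    constructor
    · rintro ⟨Y, hY, rfl⟩
      exact ⟨Y, Relation.EqvGen.trans _ _ _ (Relation.EqvGen.symm _ _ h5) hY, rfl⟩
    · rintro ⟨Y, hY, rfl⟩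
      exact ⟨Y, Relation.EqvGen.trans _ _ _ h5 hY, rfl⟩
  close := by
    intro c x
    have h1 := S5.Uo_close h S hK hΔ c (inl x)
    have h2 : uo S c (inl x) = S.u c x := rfl
    rw [h2] at h1
    refine h1.trans ?_
    linarith
  closeC := by
    intro c b p hbc hp
    have h1 := abs_le.1 (S5.Uo_close h S hK hΔ c (inr b))
    have h2 := abs_le.1 (uo_close S hbc hp)
    rw [abs_le]
    constructor <;> linarith [h1.1, h1.2, h2.1, h2.2]

end Pool.Agent.helper50.BW
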