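import Pool.Agent.helper50.BW.DefsT
import Pool.Agent.helper50.BW.A11
import Pool.Agent.helper50.BW.S5
/-! ## BW-T5 numerical constants, one level (uses A11, S5; 150 lines)
full_exists: stageA (Δ := cDs, T := cT), proj_exists with K = KU, Δ = cD; U := Uo S (12 Δ + 60 K).  All inequalities of
Full and Ctx are numerical: LL cs cku ck0 cD + 30 ≈ 1.9e15, ceta ≈ 0.53, hA2: ce + 6 cs clam + 2 clam cA + 22 KU²/ceta + small ≤ cA;
hΔ2: 50 T' + 1000 + clam (...) + 2400 KU/ceta ≤ cDs.  (KU/ctau = KU/(clam ceta), so clam * (KU/ctau) = KU/ceta.) -/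
namespace Pool.Agent.helper50.BW
open Sum

theorem t5_den : LL cs cku ck0 cD + 30 = 1891500961708420 := by
  unfold LL
  norm_num [cs, cku, ck0, cD, cDs, ck1, KU]

theorem t5_ceta : ceta = 1000000 * 1000000000 / 1891500961708420 := by
  show cs * cT / (LL cs cku ck0 cD + 30) = _
  rw [t5_den]

theorem ceta_bounds : 1 / 2 ≤ ceta ∧ ceta ≤ 1 := by
  rw [t5_ceta]
  constructor <;> norm_num

theorem ctau_pos : 0 < ctau := by
  have h := ceta_bounds.1
  have h1 : (0:ℝ) < clam := by norm_num [clam]
  have h2 : (0:ℝ) < ceta := by linarith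
  exact mul_pos h1 h2

theorem ctau_le : ctau ≤ 1 := by
  have h := ceta_bounds
  have h1 : (0:ℝ) < clam := by norm_num [clam]
  have h2 : clam ≤ 1 := by norm_num [clam]
  calc ctau = clam * ceta := rfl
    _ ≤ 1 * 1 := mul_le_mul h2 h.2 (by linarith) (by norm_num)
    _ = 1 := by norm_num

/-- `λ * (KU / τ) ≤ 2 KU` -/
theorem t5_key : clam * (KU / ctau) ≤ 2000 := by
  have h := ceta_bounds.1
  have h2 : (0:ℝ) < ceta := by linarith
  have h1 : clam ≠ 0 := by norm_num [clam]
  have e : clam * (KU / ctau) = KU / ceta := by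
    show clam * (KU / (clam * ceta)) = KU / ceta
    field_simp
  rw [e, div_le_iff₀ h2]
  have : (KU : ℝ) = 1000 := rfl
  linarith

theorem full_exists {G : Type} [Group G] {D : G → G → ℝ} {d : ℕ} (hS : Stg D d ctau ce cA cT' cDs)
    (hd : Odd d) (hbig : 10000 * ck0 ≤ d * ctau) :
    ∃ (C : Type) (_ : MulAction G C) (S : CSys D C KU cD ctau cT) (U : C → G ⊕ C → ℝ),
      Full S U cs ck1 cku ck0 d ce cA cT' cDs clam ceta := by
  have hKU : (KU : ℝ) = 1000 := rfl
  obtain ⟨C, act, S, h1, h2, h3⟩ := stageA hS hd ctau_pos (by norm_num) (by norm_num) (T := cT)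
    (by norm_num) (by rw [hKU]; norm_num)
  have hce := ceta_bounds
  have hlam : (0:ℝ) < clam := by norm_num [clam]
  have hceta : (0:ℝ) < ceta := by linarith [hce.1]
  have hcD : (0:ℝ) ≤ cD := by norm_num [cD, cDs, KU]
  have hproj := proj_exists hS.hyp S (by rw [hKU]; norm_num) hcD
  have hkey := t5_key
  refine ⟨C, act, S, Uo S (12 * cD + 60 * KU), ?_⟩
  exact
    { ctx :=
        { hyp := hS.hyp
          linv := hS.linv
          proj := hproj
          hK := by rw [hKU]; norm_num
          hΔ := hcD
          hu := by norm_num [cku, cD, cDs, KU]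
          h1 := by norm_num [ck1, cD, cDs, KU]
          hs := by norm_num [cs, KU]
          h0 := le_of_eq rfl
          hτ := ctau_pos
          odd := hd
          big := hbig }
      stg := hS
      ell_sl := h1
      gen_lox := h2
      cov := h3
      hT := by norm_num [cT, KU]
      hTT := by norm_num [cT, cT']
      hε := by norm_num [ce]
      hA := by norm_num [cA]
      hlam := hlam
      hlam' := by norm_num [clam, cs]
      hη := hceta
      hη1 := by
        have : (1:ℝ) ≤ cs := by norm_num [cs]
        linarith [hce.2]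
      hη2 := by
        show cs * cT / (LL cs cku ck0 cD + 30) * (LL cs cku ck0 cD + 30) ≤ cs * cT
        rw [div_mul_cancel₀]
        rw [t5_den]; norm_num
      hτη := rfl
      hA2 := by
        have e : 2 * clam * RE cs ctau cA (ce / clam) + 1 =
            ce + clam * (6 * cs + 2 * cA + 22 * KU + 24 * KU) + 22 * KU * (clam * (KU / ctau)) + 1 := by
          unfold RE
          have h0 : clam ≠ 0 := hlam.ne'
          have h4 : clam * (ce / clam) = ce := by field_simp
          linear_combination h4
        rw [e]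
        have e2 : clam * (6 * cs + 2 * cA + 22 * KU + 24 * KU) ≤ 1 := by norm_num [clam, cs, cA, KU]
        have e3 : 22 * KU * (clam * (KU / ctau)) ≤ 22 * KU * 2000 :=
          mul_le_mul_of_nonneg_left hkey (by rw [hKU]; norm_num)
        have e4 : ce + 1 + 22 * KU * 2000 + 1 ≤ cA := by norm_num [ce, cA, KU]
        linarith
      hΔ1 := by norm_num [cT', cA, cDs]
      hΔ2 := by
        have e : clam * R2 cs ctau cA =
            clam * (cA + cs + 2400 + KU + 6 * KU + 1) + 2400 * (clam * (KU / ctau)) := by
          unfold R2; ring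
        rw [e]
        have e2 : clam * (cA + cs + 2400 + KU + 6 * KU + 1) ≤ 1 := by norm_num [clam, cs, cA, KU]
        have e4 : 50 * cT' + 1000 + (1 + 2400 * 2000) ≤ cDs := by norm_num [cT', cDs]
        linarith }

end Pool.Agent.helper50.BW
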