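import Pool.Agent.helper50.BW.F5
/-! ## BW-F8 lower bounds for dd (uses F2, F5, AL)
lb: suppose dd x y < B; walk from exists_walk with cost < B, N ≤ n := 2B/s + 1 steps (count).  If there is no jump
then D x y < B.  D x y ≤ B + Σ_{jumps along c} (|u_c v_{i+1} - u_c v_i| + 3K) (upper), so some jump (index i, cone c)
has |Δu_c| ≥ (D x y - B)/n - 3K.  The other steps are ordinary (|change of u_c| ≤ D, total ≤ B) or jumps along
b ≠ c (sep: ≤ Δ).  So |u_c y - u_c x| ≥ (D x y - B)/n - 3K - B - nΔ, and |U c y - U c x| ≥ that - 2κu > W.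
mono: D x z + D z z' + D z' y ≤ D x y + κ ⇒ |u_c z - u_c z'| ≤ |u_c x - u_c y| + 2K + κ (upper for D x y, lower for
D z z' unless |..| < K, D x z ≥ r_c x - r_c z, D z' y ≥ r_c y - r_c z').
linear: m := ⌊D x y/(L+10)⌋; z_i := rough2 point of (x,y) at i (L+10); D z_i z_{i+1} ≥ L (near2-type estimates),
all |U c z_i - U c z_{i+1}| ≤ W + 4κu + 2K + 20; lb with B = 6 s: dd z_i z_{i+1} ≥ 6s; AL m times:
dd x z_{i+1} ≥ dd x z_i + dd z_i z_{i+1} - 5s; so dd x y ≥ m s - 5s or so. -/
namespace Pool.Agent.helper50.BW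
open Sum
variable {G : Type} [Group G] {D : G → G → ℝ} {C : Type} [MulAction G C] {K Δ τ T : ℝ}

/-- triangle inequality for a walk -/
theorem F8_tri (h : Hyp D) (f : ℕ → ℝ) (v : ℕ → G) : ∀ N : ℕ,
    (∀ i < N, D (v i) (v (i + 1)) ≤ f i) → D (v 0) (v N) ≤ ∑ i ∈ Finset.range N, f i := by
  intro N
  induction N with
  | zero => intro _; simp [h.refl]
  | succ N ih =>
    intro hf
    have h1 := ih fun i hi => hf i (by omega)
    have h2 := hf N (by omega)
    have h3 := h.tri (v 0) (v N) (v (N + 1))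
    rw [Finset.sum_range_succ]
    linarith

theorem dd_lb (h : Hyp D) (S : CSys D C K Δ τ T) {κ₁ κu : ℝ} {U : C → G ⊕ C → ℝ}
    (hP : Proj S κ₁ κu U) (hK : 100 ≤ K) (hΔ : 0 ≤ Δ) (hu : 0 ≤ κu) {s : ℝ} (hs : 1000 * K ≤ s)
    {B W : ℝ} (hB : 0 ≤ B) (hW : 0 ≤ W) {x y : G} (hx : ∀ c, |U c (inl y) - U c (inl x)| ≤ W)
    (hD : B + (2 * B / s + 1) * (W + B + 3 * K + 4 * κu + (2 * B / s + 1) * Δ + 1) ≤ D x y) :
    B ≤ dd S s x y := by
  classical
  by_contra hlt
  rw [not_le] at hlt
  have hs0 : 0 < s := by linarith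
  obtain ⟨N, v, k, hv0, hvN, hw, hcost, hnd, hdist⟩ := exists_walk h S hs0 hlt
  have hcnt := count (S := S) h hs0 hnd (v := v) (Nat.zero_le N) le_rfl
  have hN : (N : ℝ) ≤ 2 * B / s + 1 := by
    have h1 : (N : ℝ) * s ≤ (2 * B / s + 1) * s := by
      rw [add_mul, div_mul_cancel₀ _ hs0.ne', one_mul]
      simp only [Nat.cast_zero, sub_zero] at hcnt
      linarith
    exact le_of_mul_le_mul_right h1 hs0
  have hN0 : (0 : ℝ) ≤ (N : ℝ) := Nat.cast_nonneg N
  have hstp : ∀ l, 0 ≤ stp S s (k l) (v l) (v (l + 1)) := by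
    intro l
    unfold stp
    split
    · exact h.nonneg _ _
    · exact hs0.le
  have huo : ∀ c, |S.u c y - S.u c x| ≤ W + 2 * κu := by
    intro c
    have h1 := hP.close c x
    have h2 := hP.close c y
    have e : S.u c y - S.u c x = (U c (inl y) - U c (inl x)) +
        ((U c (inl x) - S.u c x) - (U c (inl y) - S.u c y)) := by ring
    rw [e]
    refine (abs_add_le _ _).trans ?_
    have h3 := abs_sub (U c (inl x) - S.u c x) (U c (inl y) - S.u c y)
    have h4 := hx c
    linarith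
  -- the length of a jump
  have hjump : ∀ i < N, ∀ c, k i = some c →
      |S.u c (v (i + 1)) - S.u c (v i)| ≤ W + 2 * κu + B + N * Δ := by
    intro i hi c hc
    have hstep : ∀ l < N, l ≠ i → |S.u c (v (l + 1)) - S.u c (v l)| ≤
        stp S s (k l) (v l) (v (l + 1)) + Δ := by
      intro l hl hli
      rcases hkl : k l with _ | b
      · have h1 := S.u_lip c (v (l + 1)) (v l)
        rw [h.symm] at h1
        show _ ≤ D (v l) (v (l + 1)) + Δ
        linarith
      · have hbc : b ≠ c := by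
          rintro rfl
          rcases lt_or_gt_of_ne hli with h1 | h1
          · exact hdist l i b h1 hi hkl hc
          · exact hdist i l b h1 hl hc hkl
        obtain ⟨h1, h2⟩ := hw l hl b hkl
        have h3 := S.sep b c (v (l + 1)) (v l) hbc h2 h1
        show _ ≤ s + Δ
        linarith
    have htel : S.u c y - S.u c x = ∑ l ∈ Finset.range N, (S.u c (v (l + 1)) - S.u c (v l)) := by
      rw [Finset.sum_range_sub (fun l => S.u c (v l)), hv0, hvN]
    have hsplit : ∑ l ∈ Finset.range N, (S.u c (v (l + 1)) - S.u c (v l)) =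
        (S.u c (v (i + 1)) - S.u c (v i)) +
          ∑ l ∈ (Finset.range N).erase i, (S.u c (v (l + 1)) - S.u c (v l)) :=
      (Finset.add_sum_erase _ _ (Finset.mem_range.2 hi)).symm
    have hrest : |∑ l ∈ (Finset.range N).erase i, (S.u c (v (l + 1)) - S.u c (v l))| ≤
        B + N * Δ := by
      refine (Finset.abs_sum_le_sum_abs _ _).trans ?_
      have h1 : ∑ l ∈ (Finset.range N).erase i, |S.u c (v (l + 1)) - S.u c (v l)| ≤
          ∑ l ∈ (Finset.range N).erase i, (stp S s (k l) (v l) (v (l + 1)) + Δ) := by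
        refine Finset.sum_le_sum fun l hl => ?_
        rw [Finset.mem_erase, Finset.mem_range] at hl
        exact hstep l hl.2 hl.1
      have h2 : ∑ l ∈ (Finset.range N).erase i, (stp S s (k l) (v l) (v (l + 1)) + Δ) ≤
          ∑ l ∈ Finset.range N, (stp S s (k l) (v l) (v (l + 1)) + Δ) := by
        refine Finset.sum_le_sum_of_subset_of_nonneg (Finset.erase_subset _ _) fun l _ _ => ?_
        have := hstp l
        linarith
      have h3 : ∑ l ∈ Finset.range N, (stp S s (k l) (v l) (v (l + 1)) + Δ) =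
          wc S s v k 0 N + N * Δ := by
        rw [Finset.sum_add_distrib, Finset.sum_const, Finset.card_range, nsmul_eq_mul]
        unfold wc
        rw [Finset.range_eq_Ico]
      linarith
    have h4 := huo c
    have e : S.u c (v (i + 1)) - S.u c (v i) = (S.u c y - S.u c x) -
        ∑ l ∈ (Finset.range N).erase i, (S.u c (v (l + 1)) - S.u c (v l)) := by
      rw [htel, hsplit]
      ring
    rw [e]
    have h5 := abs_sub (S.u c y - S.u c x)
      (∑ l ∈ (Finset.range N).erase i, (S.u c (v (l + 1)) - S.u c (v l)))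
    linarith
  set J : ℝ := 3 * K + (W + 2 * κu + B + N * Δ) with hJ
  have hJ0 : 0 ≤ J := by
    have : 0 ≤ (N : ℝ) * Δ := mul_nonneg hN0 hΔ
    rw [hJ]
    linarith
  have hDl : ∀ l < N, D (v l) (v (l + 1)) ≤ stp S s (k l) (v l) (v (l + 1)) + J := by
    intro l hl
    rcases hkl : k l with _ | c
    · show _ ≤ D (v l) (v (l + 1)) + J
      linarith
    · obtain ⟨h1, h2⟩ := hw l hl c hkl
      have h3 := S.upper c (v l) (v (l + 1))
      have h4 := hjump l hl c hkl
      rw [abs_sub_comm] at h4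
      show _ ≤ s + J
      rw [hJ]
      linarith
  have hfin := F8_tri h (fun l => stp S s (k l) (v l) (v (l + 1)) + J) v N hDl
  rw [hv0, hvN, Finset.sum_add_distrib, Finset.sum_const, Finset.card_range, nsmul_eq_mul] at hfin
  have hwc : ∑ l ∈ Finset.range N, stp S s (k l) (v l) (v (l + 1)) = wc S s v k 0 N := by
    unfold wc
    rw [Finset.range_eq_Ico]
  rw [hwc] at hfin
  set n : ℝ := 2 * B / s + 1 with hn
  have hn1 : 1 ≤ n := by
    have : 0 ≤ 2 * B / s := by positivity
    linarith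
  have hJn : J ≤ W + B + 3 * K + 4 * κu + n * Δ + 1 := by
    have : (N : ℝ) * Δ ≤ n * Δ := mul_le_mul_of_nonneg_right hN hΔ
    rw [hJ]
    linarith
  have hNJ : (N : ℝ) * J ≤ n * (W + B + 3 * K + 4 * κu + n * Δ + 1) :=
    mul_le_mul hN hJn hJ0 (by linarith)
  linarith

theorem u_mono (h : Hyp D) (S : CSys D C K Δ τ T) {κ : ℝ} {c : C} {x z z' y : G} (hK : 0 ≤ K) (hκ : 0 ≤ κ)
    (hz : D x z + D z z' + D z' y ≤ D x y + κ) :
    |S.u c z - S.u c z'| ≤ |S.u c x - S.u c y| + 2 * K + κ := by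
  by_cases h1 : K ≤ |S.u c z - S.u c z'|
  · have h2 := S.lower c z z' h1
    have h3 := S.upper c x y
    have h4 := (abs_le.1 (S.r_lip c x z)).2
    have h5 := (abs_le.1 (S.r_lip c z' y)).1
    linarith
  · have := abs_nonneg (S.u c x - S.u c y)
    linarith

theorem dd_linear (h : Hyp D) (S : CSys D C K Δ τ T) {κ₁ κu : ℝ} {U : C → G ⊕ C → ℝ}
    (hP : Proj S κ₁ κu U) (hK : 100 ≤ K) (hΔ : 0 ≤ Δ) (hu : 0 ≤ κu) {s : ℝ} (hs : 1000 * K ≤ s)
    {W : ℝ} (hW : 0 ≤ W) {x y : G} (hx : ∀ c, |U c (inl y) - U c (inl x)| ≤ W) {L : ℝ}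
    (hL : 6 * s + 13 * (W + 6 * s + 6 * K + 10 * κu + 13 * Δ + 30) ≤ L) :
    s * (D x y / (L + 30)) - 10 * s ≤ dd S s x y := by
  have hs0 : 0 < s := by linarith
  have hL0 : 0 < L := by nlinarith
  have hDn := h.nonneg x y
  set Q : ℝ := L + 10 with hQ
  have hQ0 : 0 < Q := by linarith
  set m : ℕ := ⌊D x y / Q⌋₊ with hm
  have hmle : (m : ℝ) * Q ≤ D x y := by
    have h1 : (m : ℝ) ≤ D x y / Q := Nat.floor_le (by positivity)
    calc (m : ℝ) * Q ≤ D x y / Q * Q := mul_le_mul_of_nonneg_right h1 hQ0.le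
      _ = D x y := div_mul_cancel₀ _ hQ0.ne'
  have hpt : ∀ i : ℕ, ∃ z, i ≤ m → (Btw D 2 x z y ∧ |D x z - i * Q| ≤ 1 ∧
      |D z y - (D x y - i * Q)| ≤ 1) := by
    intro i
    by_cases hi : i ≤ m
    · have h1 : (i : ℝ) * Q ≤ D x y := by
        have : (i : ℝ) ≤ (m : ℝ) := by exact_mod_cast hi
        nlinarith
      obtain ⟨z, hz⟩ := h.rough2 x y (i * Q) (by positivity) h1
      exact ⟨z, fun _ => hz⟩
    · exact ⟨x, fun hi' => absurd hi' hi⟩
  choose z hz using hpt
  have hstep : ∀ i, i + 1 ≤ m → D x (z i) + D (z i) (z (i + 1)) ≤ D x (z (i + 1)) + 6 ∧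
      L ≤ D (z i) (z (i + 1)) := by
    intro i hi
    obtain ⟨a1, a2, a3⟩ := hz i (by omega)
    obtain ⟨b1, b2, b3⟩ := hz (i + 1) hi
    have h1 := h.near2 a1 b1
    rw [abs_le] at a2 b2
    have h2 : D x (z (i + 1)) - D x (z i) ≥ Q - 2 := by
      push_cast at b2
      linarith [a2.1, a2.2, b2.1, b2.2]
    rw [abs_of_nonpos (by linarith)] at h1
    have h3 := h.tri x (z i) (z (i + 1))
    constructor
    · linarith
    · linarith
  have hdd : ∀ i, i + 1 ≤ m → 6 * s ≤ dd S s (z i) (z (i + 1)) := by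
    intro i hi
    obtain ⟨c1, c2⟩ := hstep i hi
    obtain ⟨b1, -, -⟩ := hz (i + 1) hi
    have hb1 : D x (z (i + 1)) + D (z (i + 1)) y ≤ D x y + 2 := b1
    have hU : ∀ c, |U c (inl (z (i + 1))) - U c (inl (z i))| ≤ W + 4 * κu + 2 * K + 8 := by
      intro c
      have h1 := u_mono h S (c := c) (κ := 8) (x := x) (y := y) (z := z i) (z' := z (i + 1))
        (by linarith) (by norm_num) (by linarith)
      have h2 := hP.close c (z i)
      have h3 := hP.close c (z (i + 1))
      have h4 : |S.u c x - S.u c y| ≤ W + 2 * κu := by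
        have e1 := hP.close c x
        have e2 := hP.close c y
        have e3 := hx c
        have e : S.u c x - S.u c y = ((U c (inl y) - S.u c y) - (U c (inl x) - S.u c x)) -
            (U c (inl y) - U c (inl x)) := by ring
        rw [e]
        have e4 := abs_sub ((U c (inl y) - S.u c y) - (U c (inl x) - S.u c x))
            (U c (inl y) - U c (inl x))
        have e5 := abs_sub (U c (inl y) - S.u c y) (U c (inl x) - S.u c x)
        linarith
      have e : U c (inl (z (i + 1))) - U c (inl (z i)) =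
          ((U c (inl (z (i + 1))) - S.u c (z (i + 1))) - (U c (inl (z i)) - S.u c (z i))) -
            (S.u c (z i) - S.u c (z (i + 1))) := by ring
      rw [e]
      have e4 := abs_sub ((U c (inl (z (i + 1))) - S.u c (z (i + 1))) -
        (U c (inl (z i)) - S.u c (z i))) (S.u c (z i) - S.u c (z (i + 1)))
      have e5 := abs_sub (U c (inl (z (i + 1))) - S.u c (z (i + 1))) (U c (inl (z i)) - S.u c (z i))
      linarith
    refine dd_lb h S hP hK hΔ hu hs (B := 6 * s) (by linarith) (by linarith) hU ?_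
    have e : 2 * (6 * s) / s + 1 = 13 := by
      field_simp
      norm_num
    rw [e]
    linarith
  have hind : ∀ i, i ≤ m → (i : ℝ) * s ≤ dd S s x (z i) := by
    intro i
    induction i with
    | zero =>
      intro _
      have := dd_nonneg h S hs0.le x (z 0)
      simpa using this
    | succ i ih =>
      intro hi
      have h1 := ih (by omega)
      have h2 := hdd i hi
      have h3 := AL h S hK hs (κ := 6) (by norm_num) (by linarith) (x := x) (z := z i)
        (y := z (i + 1)) (hstep i hi).1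
      push_cast
      linarith
  have h1 := hind m le_rfl
  have h2 := AL h S hK hs (κ := 2) (by norm_num) (by linarith) (hz m le_rfl).1
  have h3 := dd_nonneg h S hs0.le (z m) y
  have h4 : D x y / Q < m + 1 := Nat.lt_floor_add_one _
  have h5 : D x y / (L + 30) ≤ D x y / Q :=
    div_le_div_of_nonneg_left hDn hQ0 (by linarith)
  have h6 : s * (D x y / (L + 30)) ≤ s * (m + 1) :=
    mul_le_mul_of_nonneg_left (by linarith) hs0.le
  nlinarith

end Pool.Agent.helper50.BW
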