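import Pool.Agent.helper50.BW.A3
/-! ## BW-A6 Axis functions (uses A1, A3; 250 lines, the most technical of stage A) -/
namespace Pool.Agent.helper50.BW
open Filter Topology
variable {G : Type} [Group G] {D : G → G → ℝ}

/-- normalised distance to the `n`-th point of the orbit of `x0` -/
noncomputable def a6f (D : G → G → ℝ) (k x0 z : G) (n : ℕ) : ℝ :=
  D z (k ^ n * x0) - n * sl D k

/-- the eventual upper bounds of `a6f` -/
def a6S (D : G → G → ℝ) (k x0 z : G) : Set ℝ := {a | ∀ᶠ n : ℕ in atTop, a6f D k x0 z n ≤ a}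

/-- the (upper) Busemann function -/
noncomputable def a6b (D : G → G → ℝ) (k x0 z : G) : ℝ := sInf (a6S D k x0 z)

theorem a6_pow (hi : LInv D) (k x0 : G) {m n : ℕ} (hmn : m ≤ n) :
    D (k ^ m * x0) (k ^ n * x0) = D x0 (k ^ (n - m) * x0) := by
  have h1 : k ^ n * x0 = k ^ m * (k ^ (n - m) * x0) := by
    rw [← mul_assoc, ← pow_add, Nat.add_sub_cancel' hmn]
  rw [h1, hi]

theorem a6_hi (hi : LInv D) {k x0 : G} (h0 : ∀ n : ℕ, D x0 (k ^ n * x0) ≤ n * sl D k + 300)
    {m n : ℕ} (hmn : m ≤ n) :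
    D (k ^ m * x0) (k ^ n * x0) ≤ ((n : ℝ) - m) * sl D k + 300 := by
  rw [a6_pow hi k x0 hmn]
  have := h0 (n - m)
  rwa [Nat.cast_sub hmn] at this

theorem a6_lo (h : Hyp D) (hi : LInv D) (k x0 : G) {m n : ℕ} (hmn : m ≤ n) :
    ((n : ℝ) - m) * sl D k ≤ D (k ^ m * x0) (k ^ n * x0) := by
  rw [a6_pow hi k x0 hmn]
  have := sl_le h hi k x0 (n - m)
  rwa [Nat.cast_sub hmn] at this

theorem a6f_le (h : Hyp D) {k x0 : G} (h0 : ∀ n : ℕ, D x0 (k ^ n * x0) ≤ n * sl D k + 300)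
    (z : G) (n : ℕ) : a6f D k x0 z n ≤ D z x0 + 300 := by
  have h1 := h.tri z x0 (k ^ n * x0)
  have h2 := h0 n
  unfold a6f
  linarith

theorem a6f_ge (h : Hyp D) (hi : LInv D) (k x0 z : G) (n : ℕ) : - D z x0 ≤ a6f D k x0 z n := by
  have h1 := h.tri x0 z (k ^ n * x0)
  have h2 := sl_le h hi k x0 n
  have h3 := h.symm x0 z
  unfold a6f
  linarith

theorem a6f_mono (h : Hyp D) (hi : LInv D) {k x0 : G}
    (h0 : ∀ n : ℕ, D x0 (k ^ n * x0) ≤ n * sl D k + 300) (z : G) {n m : ℕ} (hnm : n ≤ m) :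
    a6f D k x0 z m ≤ a6f D k x0 z n + 300 := by
  have h1 := h.tri z (k ^ n * x0) (k ^ m * x0)
  have h2 := a6_hi hi h0 hnm
  unfold a6f
  linarith

theorem a6f_mono' (h : Hyp D) (hi : LInv D) {k x0 : G}
    (h0 : ∀ n : ℕ, D x0 (k ^ n * x0) ≤ n * sl D k + 300) (z : G) {n m : ℕ} (hnm : n ≤ m)
    (hn : D z x0 + 160 < n * sl D k) : a6f D k x0 z n ≤ a6f D k x0 z m + 302 := by
  have h4 := h.four z (k ^ n * x0) x0 (k ^ m * x0)
  have h1 := a6_hi hi h0 hnm
  have h2 := h0 n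
  have h3 := sl_le h hi k x0 m
  have h5 := a6f_ge h hi k x0 z n
  have h6 := h.symm (k ^ n * x0) x0
  unfold a6f at h5 ⊢
  rcases max_choice (D z x0 + D (k ^ n * x0) (k ^ m * x0))
    (D z (k ^ m * x0) + D (k ^ n * x0) x0) with hm | hm <;> rw [hm] at h4 <;> linarith

theorem a6S_mem (h : Hyp D) {k x0 : G}
    (h0 : ∀ n : ℕ, D x0 (k ^ n * x0) ≤ n * sl D k + 300) (z : G) :
    D z x0 + 300 ∈ a6S D k x0 z :=
  Eventually.of_forall fun n => a6f_le h h0 z n

theorem a6S_bdd (h : Hyp D) (hi : LInv D) (k x0 z : G) : BddBelow (a6S D k x0 z) := by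
  refine ⟨- D z x0, fun a ha => ?_⟩
  obtain ⟨n, hn⟩ := Eventually.exists (show ∀ᶠ n : ℕ in atTop, a6f D k x0 z n ≤ a from ha)
  exact (a6f_ge h hi k x0 z n).trans hn

theorem a6b_near (h : Hyp D) (hi : LInv D) {k x0 : G}
    (h0 : ∀ n : ℕ, D x0 (k ^ n * x0) ≤ n * sl D k + 300) (z : G) {n : ℕ}
    (hn : D z x0 + 160 < n * sl D k) :
    a6b D k x0 z ≤ a6f D k x0 z n + 300 ∧ a6f D k x0 z n ≤ a6b D k x0 z + 302 := by
  constructor
  · apply csInf_le (a6S_bdd h hi k x0 z)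
    show ∀ᶠ m : ℕ in atTop, a6f D k x0 z m ≤ a6f D k x0 z n + 300
    filter_upwards [eventually_ge_atTop n] with m hm
    exact a6f_mono h hi h0 z hm
  · have : a6f D k x0 z n - 302 ≤ a6b D k x0 z := by
      apply le_csInf ⟨_, a6S_mem h h0 z⟩
      intro a ha
      obtain ⟨m, hm1, hm2⟩ := ((show ∀ᶠ n : ℕ in atTop, a6f D k x0 z n ≤ a from ha).and
        (eventually_ge_atTop n)).exists
      have := a6f_mono' h hi h0 z hm2 hn
      linarith
    linarith

theorem a6b_lip (h : Hyp D) (hi : LInv D) {k x0 : G}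
    (h0 : ∀ n : ℕ, D x0 (k ^ n * x0) ≤ n * sl D k + 300) (z z' : G) :
    a6b D k x0 z ≤ a6b D k x0 z' + D z z' := by
  have : a6b D k x0 z - D z z' ≤ a6b D k x0 z' := by
    apply le_csInf ⟨_, a6S_mem h h0 z'⟩
    intro a ha
    have h1 : a6b D k x0 z ≤ a + D z z' := by
      apply csInf_le (a6S_bdd h hi k x0 z)
      show ∀ᶠ m : ℕ in atTop, a6f D k x0 z m ≤ a + D z z'
      filter_upwards [show ∀ᶠ n : ℕ in atTop, a6f D k x0 z' n ≤ a from ha] with m hm
      have h2 := h.tri z z' (k ^ m * x0)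
      unfold a6f at hm ⊢
      linarith
    linarith
  linarith

theorem a6b_abs (h : Hyp D) (hi : LInv D) {k x0 : G}
    (h0 : ∀ n : ℕ, D x0 (k ^ n * x0) ≤ n * sl D k + 300) (z z' : G) :
    |a6b D k x0 z - a6b D k x0 z'| ≤ D z z' := by
  have h1 := a6b_lip h hi h0 z z'
  have h2 := a6b_lip h hi h0 z' z
  rw [h.symm z' z] at h2
  rw [abs_le]
  constructor <;> linarith

theorem a6f_gen (hi : LInv D) (k x0 z : G) (n : ℕ) :
    a6f D k x0 (k * z) (n + 1) = a6f D k x0 z n - sl D k := by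
  unfold a6f
  have : k ^ (n + 1) * x0 = k * (k ^ n * x0) := by rw [pow_succ', mul_assoc]
  rw [this, hi]
  push_cast
  ring

theorem a6b_gen (h : Hyp D) (hi : LInv D) {k x0 : G}
    (h0 : ∀ n : ℕ, D x0 (k ^ n * x0) ≤ n * sl D k + 300) (z : G) :
    a6b D k x0 (k * z) = a6b D k x0 z - sl D k := by
  apply le_antisymm
  · have : a6b D k x0 (k * z) + sl D k ≤ a6b D k x0 z := by
      apply le_csInf ⟨_, a6S_mem h h0 z⟩
      intro a ha
      have h1 : a6b D k x0 (k * z) ≤ a - sl D k := by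
        apply csInf_le (a6S_bdd h hi k x0 (k * z))
        show ∀ᶠ m : ℕ in atTop, a6f D k x0 (k * z) m ≤ a - sl D k
        obtain ⟨N, hN⟩ := eventually_atTop.mp
          (show ∀ᶠ n : ℕ in atTop, a6f D k x0 z n ≤ a from ha)
        refine eventually_atTop.mpr ⟨N + 1, fun m hm => ?_⟩
        obtain ⟨n, rfl⟩ : ∃ n, m = n + 1 := ⟨m - 1, by omega⟩
        rw [a6f_gen hi]
        have := hN n (by omega)
        linarith
      linarith
    linarith
  · apply le_csInf ⟨_, a6S_mem h h0 (k * z)⟩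
    intro a ha
    have h1 : a6b D k x0 z ≤ a + sl D k := by
      apply csInf_le (a6S_bdd h hi k x0 z)
      show ∀ᶠ m : ℕ in atTop, a6f D k x0 z m ≤ a + sl D k
      obtain ⟨N, hN⟩ := eventually_atTop.mp
        (show ∀ᶠ n : ℕ in atTop, a6f D k x0 (k * z) n ≤ a from ha)
      refine eventually_atTop.mpr ⟨N, fun m hm => ?_⟩
      have := hN (m + 1) (by omega)
      rw [a6f_gen hi] at this
      linarith
    linarith

theorem a6b_gen' (h : Hyp D) (hi : LInv D) {k x0 : G}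
    (h0 : ∀ n : ℕ, D x0 (k ^ n * x0) ≤ n * sl D k + 300) (z : G) :
    a6b D k x0 (k⁻¹ * z) = a6b D k x0 z + sl D k := by
  have := a6b_gen h hi h0 (k⁻¹ * z)
  rw [mul_inv_cancel_left] at this
  linarith

/-- the two ends -/
theorem a6_two (hi : LInv D) (g x0 : G) (m n : ℕ) :
    D (g⁻¹ ^ m * x0) (g ^ n * x0) = D x0 (g ^ (m + n) * x0) := by
  rw [← hi (g ^ m) (g⁻¹ ^ m * x0) (g ^ n * x0)]
  congr 1
  · rw [inv_pow, mul_inv_cancel_left]
  · rw [pow_add, mul_assoc]

theorem a6_inv (h : Hyp D) (hi : LInv D) {g x0 : G}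
    (h0 : ∀ n : ℕ, D x0 (g ^ n * x0) ≤ n * sl D g + 300) (n : ℕ) :
    D x0 (g⁻¹ ^ n * x0) ≤ n * sl D g⁻¹ + 300 := by
  have h1 := a6_two hi g x0 n 0
  rw [pow_zero, one_mul, add_zero] at h1
  rw [h.symm, h1, sl_inv h hi]
  exact h0 n

theorem a6b_sum (h : Hyp D) (hi : LInv D) {g x0 : G}
    (h0 : ∀ n : ℕ, D x0 (g ^ n * x0) ≤ n * sl D g + 300) (z : G) :
    0 ≤ a6b D g x0 z + a6b D g⁻¹ x0 z := by
  have h1 : - a6b D g x0 z ≤ a6b D g⁻¹ x0 z := by
    apply le_csInf ⟨_, a6S_mem h (a6_inv h hi h0) z⟩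
    intro b hb
    have h2 : - b ≤ a6b D g x0 z := by
      apply le_csInf ⟨_, a6S_mem h h0 z⟩
      intro a ha
      obtain ⟨n, hn1, hn2⟩ := ((show ∀ᶠ n : ℕ in atTop, a6f D g x0 z n ≤ a from ha).and
        (show ∀ᶠ n : ℕ in atTop, a6f D g⁻¹ x0 z n ≤ b from hb)).exists
      have h3 := h.tri (g⁻¹ ^ n * x0) z (g ^ n * x0)
      rw [a6_two hi, h.symm _ z] at h3
      have h4 := sl_le h hi g x0 (n + n)
      unfold a6f at hn1 hn2
      rw [sl_inv h hi] at hn2
      push_cast at h4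
      linarith
    linarith
  linarith

theorem a6_zpow {g : G} {u : G → ℝ} {c : ℝ} (hu : ∀ x, u (g * x) = u x + c) (n : ℤ) (x : G) :
    u (g ^ n * x) = u x + n * c := by
  induction n using Int.induction_on with
  | zero => simp
  | succ n ih =>
    rw [add_comm (n : ℤ) 1, zpow_add, zpow_one, mul_assoc, hu, ih]
    push_cast
    ring
  | pred n ih =>
    have h1 : g ^ (-(n : ℤ)) * x = g * (g ^ (-(n : ℤ) - 1) * x) := by
      rw [← mul_assoc, ← zpow_one_add]
      congr 2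
      ring
    rw [h1, hu] at ih
    push_cast at ih ⊢
    linarith

/-- ℓ := sl g, x_n := g^n x0 (n ∈ ℤ): |m-n|ℓ ≤ D x_m x_n ≤ |m-n|ℓ + 300.
f_n^±(z) := D z x_{±n} - nℓ, bounded.  β^±(z) := limsup_n f_n^±(z).
u := (β^- - β^+)/2, r := (β^- + β^+)/2.
(1) for m ≥ n: f_m ≤ f_n + 300.  For n with nℓ > D z x0 + 160 and m ≥ n: f_n ≤ f_m + 302
    (four on (z,x_n),(x_0,x_m); the first alternative of the max is impossible).
    Hence |f_n(z) - β(z)| ≤ 302 for all large n (both signs).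
(2) β^± are 1-Lipschitz; β^+ + β^- ≥ 0 because D z x_n + D z x_{-n} ≥ 2nℓ; β^+(gz) = β^+(z) - ℓ,
    β^-(gz) = β^-(z) + ℓ exactly (shift of the limsup by one).
(3) upper: four on (x,y),(x_n,x_{-n}): D x y + 2nℓ ≤ max(D x x_n + D y x_{-n}, D x x_{-n} + D y x_n) + 2.
(4) lower: say u y - u x ≥ KU.  S2 := D x x_n + D y x_{-n}, S3 := D x x_{-n} + D y x_n, S2 > S3 + 2;
    four on (x,x_n),(y,x_{-n}): S2 ≤ D x y + D x_n x_{-n} + 2 ≤ D x y + 2nℓ + 302.
(5) dense: t given; j with u x_j ≤ t ≤ u x_{j+1} (u x_j = u x0 + jℓ), t' := t - u x_j, z rough point of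
    (x_j,x_{j+1}) at t'.  near with w = x_n and w = x_{-n} (n large) gives
    β^+(z) ≤ -jℓ - t' + 305, β^-(z) ≤ jℓ + t' + 305; sum ≥ 0.  And 0 ≤ β^±(x0) ≤ 300. -/
theorem isAxis_exists (h : Hyp D) (hi : LInv D) (g : G) (hg : 0 < sl D g) (x0 : G)
    (h0 : ∀ n : ℕ, D x0 (g ^ n * x0) ≤ n * sl D g + 300) :
    ∃ u r : G → ℝ, IsAxis D g u r ∧ r x0 ≤ 300 := by
  have h0' := a6_inv h hi h0
  have hsl : sl D g⁻¹ = sl D g := sl_inv h hi g
  have hp : ∀ x, a6b D g x0 (g * x) = a6b D g x0 x - sl D g := a6b_gen h hi h0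
  have hm : ∀ x, a6b D g⁻¹ x0 (g * x) = a6b D g⁻¹ x0 x + sl D g := by
    intro x
    have := a6b_gen' h hi h0' x
    rwa [inv_inv, hsl] at this
  have hugen : ∀ x, (fun x => (a6b D g⁻¹ x0 x - a6b D g x0 x) / 2) (g * x)
      = (fun x => (a6b D g⁻¹ x0 x - a6b D g x0 x) / 2) x + sl D g := by
    intro x
    simp only
    rw [hp, hm]
    ring
  have hrgen : ∀ x, (fun x => (a6b D g⁻¹ x0 x + a6b D g x0 x) / 2) (g * x)
      = (fun x => (a6b D g⁻¹ x0 x + a6b D g x0 x) / 2) x := by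
    intro x
    simp only
    rw [hp, hm]
    ring
  -- the values at x0
  have hx0 : 0 ≤ a6b D g x0 x0 ∧ a6b D g x0 x0 ≤ 300 := by
    constructor
    · apply le_csInf ⟨_, a6S_mem h h0 x0⟩
      intro a ha
      obtain ⟨n, hn⟩ := (show ∀ᶠ n : ℕ in atTop, a6f D g x0 x0 n ≤ a from ha).exists
      have := a6f_ge h hi g x0 x0 n
      rw [h.refl, neg_zero] at this
      linarith
    · have := csInf_le (a6S_bdd h hi g x0 x0) (a6S_mem h h0 x0)
      rw [h.refl, zero_add] at this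
      exact this
  have hx0' : 0 ≤ a6b D g⁻¹ x0 x0 ∧ a6b D g⁻¹ x0 x0 ≤ 300 := by
    constructor
    · apply le_csInf ⟨_, a6S_mem h h0' x0⟩
      intro a ha
      obtain ⟨n, hn⟩ := (show ∀ᶠ n : ℕ in atTop, a6f D g⁻¹ x0 x0 n ≤ a from ha).exists
      have := a6f_ge h hi g⁻¹ x0 x0 n
      rw [h.refl, neg_zero] at this
      linarith
    · have := csInf_le (a6S_bdd h hi g⁻¹ x0 x0) (a6S_mem h h0' x0)
      rw [h.refl, zero_add] at this
      exact this
  -- a large index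
  have hlarge : ∀ x y : G, ∃ n : ℕ, D x x0 + 160 < n * sl D g ∧ D y x0 + 160 < n * sl D g := by
    intro x y
    obtain ⟨n, hn⟩ := exists_nat_gt ((max (D x x0) (D y x0) + 160) / sl D g)
    rw [div_lt_iff₀ hg] at hn
    refine ⟨n, ?_, ?_⟩
    · have := le_max_left (D x x0) (D y x0)
      linarith
    · have := le_max_right (D x x0) (D y x0)
      linarith
  refine ⟨fun x => (a6b D g⁻¹ x0 x - a6b D g x0 x) / 2,
    fun x => (a6b D g⁻¹ x0 x + a6b D g x0 x) / 2, ?_, ?_⟩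
  swap
  · simp only
    linarith [hx0.2, hx0'.2]
  refine ⟨?_, ?_, ?_, hugen, hrgen, ?_, ?_, ?_⟩
  · intro x y
    have h1 := abs_le.mp (a6b_abs h hi h0 x y)
    have h2 := abs_le.mp (a6b_abs h hi h0' x y)
    rw [abs_le]
    constructor <;> linarith [h1.1, h1.2, h2.1, h2.2]
  · intro x y
    have h1 := abs_le.mp (a6b_abs h hi h0 x y)
    have h2 := abs_le.mp (a6b_abs h hi h0' x y)
    rw [abs_le]
    constructor <;> linarith [h1.1, h1.2, h2.1, h2.2]
  · intro x
    have := a6b_sum h hi h0 x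
    linarith
  · -- upper
    intro x y
    obtain ⟨n, hx, hy⟩ := hlarge x y
    have hx' : D x x0 + 160 < n * sl D g⁻¹ := by rwa [hsl]
    have hy' : D y x0 + 160 < n * sl D g⁻¹ := by rwa [hsl]
    have e1 := (a6b_near h hi h0 x hx).2
    have e2 := (a6b_near h hi h0 y hy).2
    have e3 := (a6b_near h hi h0' x hx').2
    have e4 := (a6b_near h hi h0' y hy').2
    have e5 := h.four x y (g ^ n * x0) (g⁻¹ ^ n * x0)
    have e6 := sl_le h hi g x0 (n + n)
    have e7 : D (g ^ n * x0) (g⁻¹ ^ n * x0) = D x0 (g ^ (n + n) * x0) := by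
      rw [h.symm, a6_two hi]
    rw [e7] at e5
    unfold a6f at e1 e2 e3 e4
    rw [hsl] at e3 e4
    push_cast at e6
    have k1 := le_abs_self ((a6b D g⁻¹ x0 x - a6b D g x0 x) / 2
      - (a6b D g⁻¹ x0 y - a6b D g x0 y) / 2)
    have k2 := neg_abs_le ((a6b D g⁻¹ x0 x - a6b D g x0 x) / 2
      - (a6b D g⁻¹ x0 y - a6b D g x0 y) / 2)
    rcases max_choice (D x (g ^ n * x0) + D y (g⁻¹ ^ n * x0))
      (D x (g⁻¹ ^ n * x0) + D y (g ^ n * x0)) with hmx | hmx <;> rw [hmx] at e5 <;> linarith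
  · -- lower
    have key : ∀ x y : G, KU ≤ (a6b D g⁻¹ x0 y - a6b D g x0 y) / 2
        - (a6b D g⁻¹ x0 x - a6b D g x0 x) / 2 →
        (a6b D g⁻¹ x0 x + a6b D g x0 x) / 2 + (a6b D g⁻¹ x0 y + a6b D g x0 y) / 2
        + ((a6b D g⁻¹ x0 y - a6b D g x0 y) / 2 - (a6b D g⁻¹ x0 x - a6b D g x0 x) / 2) - KU
        ≤ D x y := by
      intro x y hxy
      obtain ⟨n, hx, hy⟩ := hlarge x y
      have hx' : D x x0 + 160 < n * sl D g⁻¹ := by rwa [hsl]
      have hy' : D y x0 + 160 < n * sl D g⁻¹ := by rwa [hsl]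
      have e1 := (a6b_near h hi h0 x hx).1
      have e2 := (a6b_near h hi h0 y hy).2
      have e3 := (a6b_near h hi h0' x hx').2
      have e4 := (a6b_near h hi h0' y hy').1
      have e5 := h.four x (g ^ n * x0) y (g⁻¹ ^ n * x0)
      have e6 := h0 (n + n)
      have e7 : D (g ^ n * x0) (g⁻¹ ^ n * x0) = D x0 (g ^ (n + n) * x0) := by
        rw [h.symm, a6_two hi]
      have e8 := h.symm (g ^ n * x0) y
      rw [e7, e8] at e5
      unfold a6f at e1 e2 e3 e4
      rw [hsl] at e3 e4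
      push_cast at e6
      unfold KU at hxy ⊢
      rcases max_choice (D x y + D x0 (g ^ (n + n) * x0))
        (D x (g⁻¹ ^ n * x0) + D y (g ^ n * x0)) with hmx | hmx <;> rw [hmx] at e5 <;> linarith
    intro x y hxy
    rcases abs_cases ((a6b D g⁻¹ x0 x - a6b D g x0 x) / 2
      - (a6b D g⁻¹ x0 y - a6b D g x0 y) / 2) with ⟨ha, _⟩ | ⟨ha, _⟩
    · rw [ha] at hxy ⊢
      have := key y x hxy
      rw [h.symm y x] at this
      linarith
    · rw [ha] at hxy ⊢
      have := key x y (by linarith)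
      linarith
  · -- dense
    intro t
    set ux := (a6b D g⁻¹ x0 x0 - a6b D g x0 x0) / 2 with hux
    obtain ⟨j, t', ht0, ht1, htj⟩ : ∃ (j : ℤ) (t' : ℝ), 0 ≤ t' ∧ t' ≤ sl D g
        ∧ t = ux + j * sl D g + t' := by
      refine ⟨⌊(t - ux) / sl D g⌋, t - ux - ⌊(t - ux) / sl D g⌋ * sl D g, ?_, ?_, by ring⟩
      · have := Int.floor_le ((t - ux) / sl D g)
        rw [le_div_iff₀ hg] at this
        linarith
      · have := Int.lt_floor_add_one ((t - ux) / sl D g)
        rw [div_lt_iff₀ hg] at this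
        nlinarith
    have hd1 : sl D g ≤ D x0 (g * x0) := by
      have := sl_le h hi g x0 1
      rw [pow_one] at this
      push_cast at this
      linarith
    obtain ⟨z, hz0, hz1, hz2⟩ := h.rough2 x0 (g * x0) t' ht0 (ht1.trans hd1)
    have hz1' := abs_le.mp hz1
    have hz2' := abs_le.mp hz2
    -- the upper bounds of the Busemann functions at z
    have hbp : a6b D g x0 z ≤ - t' + 305 := by
      apply csInf_le (a6S_bdd h hi g x0 z)
      show ∀ᶠ n : ℕ in atTop, a6f D g x0 z n ≤ - t' + 305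
      filter_upwards [eventually_ge_atTop 1] with n hn
      have e1 := h.near hz0 (g ^ n * x0)
      have e2 := h0 n
      have e3 := a6_hi hi h0 hn
      rw [pow_one] at e3
      push_cast at e3
      have e4 := h.symm (g ^ n * x0) x0
      have e5 := h.symm (g ^ n * x0) (g * x0)
      have e6 := h.symm (g ^ n * x0) z
      rw [e4, e5, e6] at e1
      unfold a6f
      rcases max_choice (D x0 (g ^ n * x0) - D x0 z) (D (g * x0) (g ^ n * x0) - D z (g * x0))
        with hmx | hmx <;> rw [hmx] at e1 <;> linarith [hz1'.1, hz1'.2, hz2'.1, hz2'.2]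
    have hbm : a6b D g⁻¹ x0 z ≤ t' + 305 := by
      apply csInf_le (a6S_bdd h hi g⁻¹ x0 z)
      show ∀ᶠ n : ℕ in atTop, a6f D g⁻¹ x0 z n ≤ t' + 305
      filter_upwards [eventually_ge_atTop 1] with n hn
      have e1 := h.near hz0 (g⁻¹ ^ n * x0)
      have e2 : D (g⁻¹ ^ n * x0) x0 ≤ n * sl D g + 300 := by
        have := a6_two hi g x0 n 0
        rw [pow_zero, one_mul, add_zero] at this
        rw [this]
        exact h0 n
      have e3 : D (g⁻¹ ^ n * x0) (g * x0) ≤ (n + 1) * sl D g + 300 := by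
        have := a6_two hi g x0 n 1
        rw [pow_one] at this
        rw [this]
        have := h0 (n + 1)
        push_cast at this
        exact this
      have e6 := h.symm (g⁻¹ ^ n * x0) z
      rw [e6] at e1
      unfold a6f
      rw [hsl]
      rcases max_choice (D (g⁻¹ ^ n * x0) x0 - D x0 z)
        (D (g⁻¹ ^ n * x0) (g * x0) - D z (g * x0))
        with hmx | hmx <;> rw [hmx] at e1 <;> linarith [hz1'.1, hz1'.2, hz2'.1, hz2'.2]
    have hsum := a6b_sum h hi h0 z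
    refine ⟨g ^ j * z, ?_, ?_⟩
    · have := a6_zpow (g := g) (u := fun x => (a6b D g⁻¹ x0 x + a6b D g x0 x) / 2) (c := 0)
        (fun x => by have := hrgen x; simp only [add_zero]; exact this) j z
      rw [this]
      unfold KU
      linarith
    · have := a6_zpow (g := g) (u := fun x => (a6b D g⁻¹ x0 x - a6b D g x0 x) / 2)
        (c := sl D g) hugen j z
      rw [this, htj]
      unfold KU
      rw [abs_le]
      constructor <;> linarith [hx0.1, hx0.2, hx0'.1, hx0'.2]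

/-- points with small displacement are near the axis: D z (g^m z) ≤ mε and `lower`. -/
theorem IsAxis.perp (h : Hyp D) (hi : LInv D) {g : G} {u r : G → ℝ} (ha : IsAxis D g u r)
    {z : G} {e : ℝ} (hz : D z (g * z) ≤ e) (m : ℕ) (hm : KU ≤ m * sl D g) :
    2 * r z ≤ m * e + KU := by
  have h1 : u (g ^ m * z) = u z + m * sl D g := by
    have := a6_zpow ha.u_gen (m : ℤ) z
    simpa using this
  have h2 : r (g ^ m * z) = r z := by
    have := a6_zpow (g := g) (u := r) (c := 0) (by intro x; rw [ha.r_gen, add_zero]) (m : ℤ) z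
    simpa using this
  have h3 : |u z - u (g ^ m * z)| = m * sl D g := by
    rw [h1]
    have hk : (0 : ℝ) ≤ m * sl D g := le_trans (by unfold KU; norm_num) hm
    rw [show u z - (u z + m * sl D g) = -(m * sl D g) by ring, abs_neg, abs_of_nonneg hk]
  have h4 := ha.lower z (g ^ m * z) (by rw [h3]; exact hm)
  rw [h3, h2] at h4
  have h5 : ∀ k : ℕ, D z (g ^ k * z) ≤ k * e := by
    intro k
    induction k with
    | zero => simp [h.refl]
    | succ k ih =>
      have h6 := h.tri z (g ^ k * z) (g ^ (k + 1) * z)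
      have h7 : g ^ (k + 1) * z = g ^ k * (g * z) := by rw [pow_succ, mul_assoc]
      rw [h7, hi] at h6
      rw [h7]
      push_cast
      linarith
  have h8 := h5 m
  have hk : (0 : ℝ) ≤ m * sl D g := le_trans (by unfold KU; norm_num) hm
  linarith

theorem IsAxis.u_zpow {g : G} {u r : G → ℝ} (ha : IsAxis D g u r) (n : ℤ) (x : G) :
    u (g ^ n * x) = u x + n * sl D g := a6_zpow ha.u_gen n x

theorem IsAxis.r_zpow {g : G} {u r : G → ℝ} (ha : IsAxis D g u r) (n : ℤ) (x : G) :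
    r (g ^ n * x) = r x := by
  have := a6_zpow (g := g) (u := r) (c := 0) (by intro x; rw [ha.r_gen, add_zero]) n x
  simpa using this

end Pool.Agent.helper50.BW
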