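import Pool.Agent.helper50.BW.F6
/-! ## BW-F7 exact additivity for apexes (uses F6, F1)
All points p with r_b p ≤ K have |U c (inl p) - U c (inr b)| ≤ 2κu (close, closeC), so exact_add applies to
(x,p) for all of them: ec x b = inf (ec x c + ec p c) + s/2 = ec x c + ecc b c.  The second statement: inf over
p on a of ec p b = ec p c + ecc c b. -/
namespace Pool.Agent.helper50.BW
open Sum
variable {G : Type} [Group G] {D : G → G → ℝ} {C : Type} [MulAction G C] {K Δ τ T : ℝ}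

theorem F7_ecc_le (h : Hyp D) (S : CSys D C K Δ τ T) {s : ℝ} (hs : 0 ≤ s) {a b : C} {p : G}
    (hp : S.r a p ≤ K) : ecc S s a b ≤ ec S s p b + s / 2 := by
  refine csInf_le ⟨0, ?_⟩ ⟨p, hp, rfl⟩
  rintro t ⟨q, -, rfl⟩
  have := ec_ge h S hs q b
  linarith

theorem exact_add_apex (h : Hyp D) (S : CSys D C K Δ τ T) {κ₁ κu : ℝ} {U : C → G ⊕ C → ℝ}
    (hP : Proj S κ₁ κu U) (hK : 100 ≤ K) (hΔ : 0 ≤ Δ) (hu : 0 ≤ κu) {s : ℝ} (hs : 1000 * K ≤ s) {b c : C}
    (hbc : b ≠ c) {x : G}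
    (hxy : 30 * s + 30 * Δ + 72 * κu + 200 * K ≤ |U c (inr b) - U c (inl x)|) :
    ec S s x b = ec S s x c + ecc S s c b := by
  have hs0 : 0 ≤ s := by linarith
  refine le_antisymm (ec_le_ecc h S hs0 x b c) ?_
  obtain ⟨p₀, hp₀, -⟩ := S.dense b 0
  refine le_csInf ⟨_, p₀, hp₀, rfl⟩ ?_
  rintro t ⟨p, hp, rfl⟩
  have h1 := hP.close c p
  have h2 := hP.closeC c b p hbc hp
  have h3 : |U c (inr b) - U c (inl x)| ≤ |U c (inl p) - U c (inl x)| + 2 * κu := by
    have e : U c (inr b) - U c (inl x) = (U c (inl p) - U c (inl x)) +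
        ((U c (inr b) - S.u c p) - (U c (inl p) - S.u c p)) := by ring
    rw [e]
    refine (abs_add_le _ _).trans ?_
    have := abs_sub (U c (inr b) - S.u c p) (U c (inl p) - S.u c p)
    linarith
  have h4 := exact_add h S hP hK hΔ hu hs (c := c) (x := x) (y := p) (by linarith)
  have h5 := F7_ecc_le h S hs0 (b := c) hp
  rw [ecc_symm h S hs0 c b, h4]
  linarith

theorem exact_add_apex2 (h : Hyp D) (S : CSys D C K Δ τ T) {κ₁ κu : ℝ} {U : C → G ⊕ C → ℝ}
    (hP : Proj S κ₁ κu U) (hK : 100 ≤ K) (hΔ : 0 ≤ Δ) (hu : 0 ≤ κu) {s : ℝ} (hs : 1000 * K ≤ s)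
    {a b c : C} (hac : a ≠ c) (hbc : b ≠ c)
    (hxy : 30 * s + 30 * Δ + 74 * κu + 200 * K ≤ |U c (inr b) - U c (inr a)|) :
    ecc S s a b = ecc S s a c + ecc S s c b := by
  have hs0 : 0 ≤ s := by linarith
  have key : ∀ p, S.r a p ≤ K → ec S s p b = ec S s p c + ecc S s c b := by
    intro p hp
    have h1 := hP.close c p
    have h2 := hP.closeC c a p hac hp
    have h3 : |U c (inr b) - U c (inr a)| ≤ |U c (inr b) - U c (inl p)| + 2 * κu := by
      have e : U c (inr b) - U c (inr a) = (U c (inr b) - U c (inl p)) +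
          ((U c (inl p) - S.u c p) - (U c (inr a) - S.u c p)) := by ring
      rw [e]
      refine (abs_add_le _ _).trans ?_
      have := abs_sub (U c (inl p) - S.u c p) (U c (inr a) - S.u c p)
      linarith
    exact exact_add_apex h S hP hK hΔ hu hs hbc (by linarith)
  obtain ⟨p₀, hp₀, -⟩ := S.dense a 0
  apply le_antisymm
  · have h1 : ecc S s a b - ecc S s c b ≤ ecc S s a c := by
      refine le_csInf ⟨_, p₀, hp₀, rfl⟩ ?_
      rintro t ⟨p, hp, rfl⟩
      have h2 := F7_ecc_le h S hs0 (b := b) hp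
      rw [key p hp] at h2
      linarith
    linarith
  · refine le_csInf ⟨_, p₀, hp₀, rfl⟩ ?_
    rintro t ⟨p, hp, rfl⟩
    have h2 := F7_ecc_le h S hs0 (b := c) hp
    rw [key p hp]
    linarith

end Pool.Agent.helper50.BW
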