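import Pool.Agent.helper50.BW.DefsQ
import Pool.Agent.helper50.BW.S7
import Pool.Agent.helper50.BW.F7
/-! ## BW-Q1 quotient metric: basics and distances of admissible lifts (uses S7, F7; 250 lines)
NN is normal (NN_normal).  db x y = inf over n of dd x (n y) = inf dd (n x) (m y) over all n, m.
lift_dist: induction on Red S U d (2κ₁) x n (greendlinger with o = x).  step: n = gen c^{ed} n',
 Θ := d ell c, e (U c (n x) - U c x) ≥ Θ - 2κ₁.  U c (n y) - U c (n x) = U (n⁻¹•c) y - U (n⁻¹•c) x (smul), in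
 absolute value ≤ 7/8 Θ (ell_smul).  So |U c (n y) - U c x| ≥ Θ/8 - 2κ₁ ≥ κ₀, exact_add: dd x (n y) = ec x c + ec (n y) c;
 ec (n' y) c = ec (n y) c (ec_inv with gen c^{-ed}, which fixes c), dd x (n' y) ≤ ec x c + ec (n' y) c.
lift_dist_apex: the same with exact_add_apex (object n • inr b); if n • b = c then n' • b = n • b.
Everything else follows from the infimum definitions, normality and F1. -/
namespace Pool.Agent.helper50.BW
open Sum
variable {G : Type} [Group G] {D : G → G → ℝ} {C : Type} [MulAction G C] {K Δ τ T : ℝ}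
  {S : CSys D C K Δ τ T} {U : C → G ⊕ C → ℝ} {s κ₁ κu κ₀ : ℝ} {d : ℕ}

theorem Q1_nn (hC : Ctx S U s κ₁ κu κ₀ d) : 0 ≤ K ∧ 0 ≤ s ∧ 0 ≤ κ₀ ∧
    30 * s + 30 * Δ + 72 * κu + 200 * K ≤ κ₀ ∧ 2 * κ₁ ≤ κ₀ := by
  have h1 := hC.hK
  have h2 := hC.hΔ
  have h3 := hC.hu
  have h4 := hC.h1
  have h5 := hC.hs
  have h6 := hC.h0
  refine ⟨by linarith, by linarith, by linarith, by linarith, by linarith⟩

theorem Ctx.gl (hC : Ctx S U s κ₁ κu κ₀ d) (o : G) {n : G} (hn : n ∈ NN S d) : Red S U d (2 * κ₁) o n := by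
  have h1 := hC.hK
  have h2 := hC.hΔ
  have h3 := hC.hu
  have h4 := hC.h1
  have h5 := hC.hs
  have h6 := hC.h0
  have h7 := hC.big
  exact greendlinger hC.hyp hC.linv hC.proj (by linarith) hC.hu hC.h1 (by linarith) o hn

theorem Ctx.ell_big (hC : Ctx S U s κ₁ κu κ₀ d) (c : C) : 10000 * κ₀ ≤ d * S.ell c :=
  hC.big.trans (mul_le_mul_of_nonneg_left (S.ell_ge c) (Nat.cast_nonneg d))

theorem Ctx.gen_mem (hC : Ctx S U s κ₁ κu κ₀ d) (c : C) (k : ℤ) : S.gen c ^ (k * d) ∈ NN S d := by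
  have h : S.gen c ^ d ∈ NN S d := Subgroup.subset_closure ⟨c, rfl⟩
  rw [zpow_mul', zpow_natCast]
  exact Subgroup.zpow_mem _ h k

theorem Q1_db_bdd (hC : Ctx S U s κ₁ κu κ₀ d) (x y : G) :
    BddBelow {t | ∃ n ∈ NN S d, t = dd S s x (n * y)} := by
  refine ⟨0, ?_⟩
  rintro t ⟨n, -, rfl⟩
  exact dd_nonneg hC.hyp S (Q1_nn hC).2.1 _ _

theorem Q1_db_ne (x y : G) : {t | ∃ n ∈ NN S d, t = dd S s x (n * y)}.Nonempty :=
  ⟨_, 1, Subgroup.one_mem _, rfl⟩

theorem Q1_db_le (hC : Ctx S U s κ₁ κu κ₀ d) {n : G} (hn : n ∈ NN S d) (x y : G) :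
    db S s d x y ≤ dd S s x (n * y) := csInf_le (Q1_db_bdd hC x y) ⟨n, hn, rfl⟩

theorem Q1_db_exists (S : CSys D C K Δ τ T) (s : ℝ) (d : ℕ) (x y : G) {ε : ℝ} (hε : 0 < ε) :
    ∃ n ∈ NN S d, dd S s x (n * y) < db S s d x y + ε := by
  have h1 : sInf {t | ∃ n ∈ NN S d, t = dd S s x (n * y)} < db S s d x y + ε := by
    have : db S s d x y < db S s d x y + ε := by linarith
    exact this
  obtain ⟨t, ⟨n, hn, rfl⟩, ht⟩ := exists_lt_of_csInf_lt (Q1_db_ne x y) h1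
  exact ⟨n, hn, ht⟩

theorem db_nonneg (hC : Ctx S U s κ₁ κu κ₀ d) (x y : G) : 0 ≤ db S s d x y := by
  refine le_csInf (Q1_db_ne x y) ?_
  rintro t ⟨n, -, rfl⟩
  exact dd_nonneg hC.hyp S (Q1_nn hC).2.1 _ _

theorem db_le (hC : Ctx S U s κ₁ κu κ₀ d) (x y : G) : db S s d x y ≤ dd S s x y := by
  have := Q1_db_le hC (Subgroup.one_mem (NN S d)) x y
  rwa [one_mul] at this

theorem db_self (hC : Ctx S U s κ₁ κu κ₀ d) (x : G) : db S s d x x = 0 := by
  refine le_antisymm ?_ (db_nonneg hC x x)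
  have := db_le hC x x
  rwa [dd_self hC.hyp S (Q1_nn hC).2.1] at this

theorem Q1_symm_le (hC : Ctx S U s κ₁ κu κ₀ d) (x y : G) : db S s d x y ≤ db S s d y x := by
  have hs := (Q1_nn hC).2.1
  refine le_csInf (Q1_db_ne y x) ?_
  rintro t ⟨n, hn, rfl⟩
  have h1 := Q1_db_le hC (Subgroup.inv_mem _ hn) x y
  have h2 := dd_inv hC.hyp hC.linv S hs n x (n⁻¹ * y)
  rw [mul_inv_cancel_left] at h2
  rw [← h2, dd_symm hC.hyp S hs] at h1
  exact h1

theorem db_symm (hC : Ctx S U s κ₁ κu κ₀ d) (x y : G) : db S s d x y = db S s d y x :=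
  le_antisymm (Q1_symm_le hC x y) (Q1_symm_le hC y x)

theorem db_tri (hC : Ctx S U s κ₁ κu κ₀ d) (x y z : G) : db S s d x z ≤ db S s d x y + db S s d y z := by
  have hs := (Q1_nn hC).2.1
  refine le_of_forall_pos_le_add fun ε hε => ?_
  obtain ⟨n, hn, h1⟩ := Q1_db_exists S s d x y (half_pos hε)
  obtain ⟨m, hm, h2⟩ := Q1_db_exists S s d y z (half_pos hε)
  have h3 := Q1_db_le hC (Subgroup.mul_mem _ hn hm) x z
  have h4 := dd_tri hC.hyp S hs x (n * y) (n * m * z)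
  have h5 := dd_inv hC.hyp hC.linv S hs n y (m * z)
  rw [← mul_assoc] at h5
  linarith

theorem Q1_N_le (hC : Ctx S U s κ₁ κu κ₀ d) {n m : G} (hn : n ∈ NN S d) (hm : m ∈ NN S d) (x y : G) :
    db S s d (n * x) (m * y) ≤ db S s d x y := by
  have hs := (Q1_nn hC).2.1
  refine le_csInf (Q1_db_ne x y) ?_
  rintro t ⟨k, hk, rfl⟩
  have h1 := Q1_db_le hC (Subgroup.mul_mem _ (Subgroup.mul_mem _ hn hk) (Subgroup.inv_mem _ hm))
    (n * x) (m * y)
  have e : n * k * m⁻¹ * (m * y) = n * (k * y) := by group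
  rw [e, dd_inv hC.hyp hC.linv S hs] at h1
  exact h1

theorem db_N (hC : Ctx S U s κ₁ κu κ₀ d) {n m : G} (hn : n ∈ NN S d) (hm : m ∈ NN S d) (x y : G) :
    db S s d (n * x) (m * y) = db S s d x y := by
  refine le_antisymm (Q1_N_le hC hn hm x y) ?_
  have := Q1_N_le hC (Subgroup.inv_mem _ hn) (Subgroup.inv_mem _ hm) (n * x) (m * y)
  rwa [inv_mul_cancel_left, inv_mul_cancel_left] at this

theorem Q1_inv_le (hC : Ctx S U s κ₁ κu κ₀ d) (g x y : G) :
    db S s d (g * x) (g * y) ≤ db S s d x y := by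
  have hs := (Q1_nn hC).2.1
  refine le_csInf (Q1_db_ne x y) ?_
  rintro t ⟨k, hk, rfl⟩
  have h1 := Q1_db_le hC ((NN_normal S d).conj_mem k hk g) (g * x) (g * y)
  have e : g * k * g⁻¹ * (g * y) = g * (k * y) := by group
  rw [e, dd_inv hC.hyp hC.linv S hs] at h1
  exact h1

theorem db_inv (hC : Ctx S U s κ₁ κu κ₀ d) (g x y : G) : db S s d (g * x) (g * y) = db S s d x y := by
  refine le_antisymm (Q1_inv_le hC g x y) ?_
  have := Q1_inv_le hC g⁻¹ (g * x) (g * y)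
  rwa [inv_mul_cancel_left, inv_mul_cancel_left] at this

theorem Q1_eb_bdd (hC : Ctx S U s κ₁ κu κ₀ d) (x : G) (c : C) :
    BddBelow {t | ∃ n ∈ NN S d, t = ec S s x (n • c)} := by
  have hs := (Q1_nn hC).2.1
  refine ⟨0, ?_⟩
  rintro t ⟨n, -, rfl⟩
  have := ec_ge hC.hyp S hs x (n • c)
  linarith

theorem Q1_eb_ne (S : CSys D C K Δ τ T) (s : ℝ) (d : ℕ) (x : G) (c : C) :
    {t | ∃ n ∈ NN S d, t = ec S s x (n • c)}.Nonempty :=
  ⟨_, 1, Subgroup.one_mem _, rfl⟩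

theorem Q1_eb_le (hC : Ctx S U s κ₁ κu κ₀ d) {n : G} (hn : n ∈ NN S d) (x : G) (c : C) :
    eb S s d x c ≤ ec S s x (n • c) := csInf_le (Q1_eb_bdd hC x c) ⟨n, hn, rfl⟩

theorem Q1_eb_exists (S : CSys D C K Δ τ T) (s : ℝ) (d : ℕ) (x : G) (c : C) {ε : ℝ} (hε : 0 < ε) :
    ∃ n ∈ NN S d, ec S s x (n • c) < eb S s d x c + ε := by
  have h1 : sInf {t | ∃ n ∈ NN S d, t = ec S s x (n • c)} < eb S s d x c + ε := by
    have : eb S s d x c < eb S s d x c + ε := by linarith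
    exact this
  obtain ⟨t, ⟨n, hn, rfl⟩, ht⟩ := exists_lt_of_csInf_lt (Q1_eb_ne S s d x c) h1
  exact ⟨n, hn, ht⟩

theorem eb_le (hC : Ctx S U s κ₁ κu κ₀ d) (x : G) (c : C) : eb S s d x c ≤ ec S s x c := by
  have := Q1_eb_le hC (Subgroup.one_mem (NN S d)) x c
  rwa [one_smul] at this

theorem eb_ge (hC : Ctx S U s κ₁ κu κ₀ d) (x : G) (c : C) : s / 2 ≤ eb S s d x c := by
  refine le_csInf (Q1_eb_ne S s d x c) ?_
  rintro t ⟨n, -, rfl⟩
  exact ec_ge hC.hyp S (Q1_nn hC).2.1 x (n • c)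

theorem Q1_ebN_le (hC : Ctx S U s κ₁ κu κ₀ d) {n m : G} (hn : n ∈ NN S d) (hm : m ∈ NN S d) (x : G)
    (c : C) : eb S s d (n * x) (m • c) ≤ eb S s d x c := by
  have hs := (Q1_nn hC).2.1
  refine le_csInf (Q1_eb_ne S s d x c) ?_
  rintro t ⟨k, hk, rfl⟩
  have h1 := Q1_eb_le hC (Subgroup.mul_mem _ (Subgroup.mul_mem _ hn hk) (Subgroup.inv_mem _ hm))
    (n * x) (m • c)
  rw [smul_smul, inv_mul_cancel_right, mul_smul, ec_inv hC.hyp hC.linv S hs] at h1
  exact h1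

theorem eb_N (hC : Ctx S U s κ₁ κu κ₀ d) {n m : G} (hn : n ∈ NN S d) (hm : m ∈ NN S d) (x : G) (c : C) :
    eb S s d (n * x) (m • c) = eb S s d x c := by
  refine le_antisymm (Q1_ebN_le hC hn hm x c) ?_
  have := Q1_ebN_le hC (Subgroup.inv_mem _ hn) (Subgroup.inv_mem _ hm) (n * x) (m • c)
  rwa [inv_mul_cancel_left, inv_smul_smul] at this

theorem Q1_ebi_le (hC : Ctx S U s κ₁ κu κ₀ d) (g x : G) (c : C) :
    eb S s d (g * x) (g • c) ≤ eb S s d x c := by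
  have hs := (Q1_nn hC).2.1
  refine le_csInf (Q1_eb_ne S s d x c) ?_
  rintro t ⟨k, hk, rfl⟩
  have h1 := Q1_eb_le hC ((NN_normal S d).conj_mem k hk g) (g * x) (g • c)
  rw [smul_smul, inv_mul_cancel_right, mul_smul, ec_inv hC.hyp hC.linv S hs] at h1
  exact h1

theorem eb_inv (hC : Ctx S U s κ₁ κu κ₀ d) (g x : G) (c : C) : eb S s d (g * x) (g • c) = eb S s d x c := by
  refine le_antisymm (Q1_ebi_le hC g x c) ?_
  have := Q1_ebi_le hC g⁻¹ (g * x) (g • c)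
  rwa [inv_mul_cancel_left, inv_smul_smul] at this

theorem eb_lip (hC : Ctx S U s κ₁ κu κ₀ d) (x y : G) (c : C) :
    eb S s d x c ≤ db S s d x y + eb S s d y c := by
  have hs := (Q1_nn hC).2.1
  refine le_of_forall_pos_le_add fun ε hε => ?_
  obtain ⟨n, hn, h1⟩ := Q1_db_exists S s d x y (half_pos hε)
  obtain ⟨m, hm, h2⟩ := Q1_eb_exists S s d y c (half_pos hε)
  have h3 := Q1_eb_le hC (Subgroup.mul_mem _ hn hm) x c
  have h4 := ec_lip hC.hyp S hs x (n * y) ((n * m) • c)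
  have h5 := ec_inv hC.hyp hC.linv S hs n y (m • c)
  rw [smul_smul] at h5
  linarith

theorem db_le_eb (hC : Ctx S U s κ₁ κu κ₀ d) (x y : G) (c : C) :
    db S s d x y ≤ eb S s d x c + eb S s d y c := by
  have hs := (Q1_nn hC).2.1
  refine le_of_forall_pos_le_add fun ε hε => ?_
  obtain ⟨n, hn, h1⟩ := Q1_eb_exists S s d x c (half_pos hε)
  obtain ⟨m, hm, h2⟩ := Q1_eb_exists S s d y c (half_pos hε)
  have h3 := Q1_db_le hC (Subgroup.mul_mem _ hn (Subgroup.inv_mem _ hm)) x y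
  have h4 := dd_le_ec hC.hyp S hs x (n * m⁻¹ * y) (n • c)
  have h5 := ec_inv hC.hyp hC.linv S hs (n * m⁻¹) y (m • c)
  rw [smul_smul, inv_mul_cancel_right] at h5
  linarith

/-- the crossing of the far object -/
theorem Q1_far (hC : Ctx S U s κ₁ κu κ₀ d) {x : G} {Y : G ⊕ C} (hA : Adm S U d (7 / 8) (inl x) Y)
    (c : C) (e : ℤ) (he : e = 1 ∨ e = -1) (n : G) (hY : n • Y ≠ inr c)
    (h : d * S.ell c - 2 * κ₁ ≤ e * (U c (inl (n * x)) - U c (inl x))) :
    κ₀ ≤ |U c (n • Y) - U c (inl x)| := by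
  have hn := Q1_nn hC
  have hY' : Y ≠ inr (n⁻¹ • c) := by
    intro h0
    apply hY
    rw [h0, Sum.smul_inr, smul_inv_smul]
  have h1 := hC.proj.smul n (n⁻¹ • c) (inl x) Y (by simp) hY'
  rw [smul_inv_smul, Sum.smul_inl, smul_eq_mul] at h1
  have h2 := hA (n⁻¹ • c) (by simp) hY'
  rw [S.ell_smul, ← h1] at h2
  have h3 := hC.ell_big c
  have h4 : d * S.ell c - 2 * κ₁ ≤ |U c (inl (n * x)) - U c (inl x)| := by
    rcases he with rfl | rfl
    · refine h.trans ?_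
      rw [Int.cast_one, one_mul]
      exact le_abs_self _
    · refine h.trans ?_
      rw [Int.cast_neg, Int.cast_one, neg_one_mul]
      exact neg_le_abs _
  have h5 : |U c (inl (n * x)) - U c (inl x)| ≤
      |U c (n • Y) - U c (inl x)| + |U c (n • Y) - U c (inl (n * x))| := by
    have := abs_sub_abs_le_abs_sub (U c (inl (n * x)) - U c (inl x)) (U c (n • Y) - U c (inl x))
    have e1 : (U c (inl (n * x)) - U c (inl x)) - (U c (n • Y) - U c (inl x)) =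
      -(U c (n • Y) - U c (inl (n * x))) := by ring
    rw [e1, abs_neg] at this
    linarith
  obtain ⟨-, -, h6, -, h7⟩ := hn
  linarith

theorem Q1_lift (hC : Ctx S U s κ₁ κu κ₀ d) {x y : G} (hA : Adm S U d (7 / 8) (inl x) (inl y))
    {n : G} (hn : Red S U d (2 * κ₁) x n) : dd S s x y ≤ dd S s x (n * y) := by
  have hs := (Q1_nn hC).2.1
  induction hn with
  | one => rw [one_mul]
  | step c e n' he hr h ih =>
    refine ih.trans ?_
    have h1 := Q1_far hC hA c e he (S.gen c ^ (e * d) * n') (by simp) h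
    rw [Sum.smul_inl, smul_eq_mul] at h1
    have h2 := exact_add hC.hyp S hC.proj hC.hK hC.hΔ hC.hu hC.hs (c := c) (x := x)
      (y := S.gen c ^ (e * d) * n' * y) (by have := Q1_nn hC; have := hC.hu; linarith)
    have h3 := dd_le_ec hC.hyp S hs x (n' * y) c
    have h4 := ec_inv hC.hyp hC.linv S hs (S.gen c ^ (e * d)) (n' * y) c
    rw [S.gen_zpow_smul, ← mul_assoc] at h4
    rw [h2, h4]
    exact h3

theorem lift_dist (hC : Ctx S U s κ₁ κu κ₀ d) {x y : G} (hA : Adm S U d (7 / 8) (inl x) (inl y)) :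
    db S s d x y = dd S s x y := by
  refine le_antisymm (db_le hC x y) ?_
  refine le_csInf (Q1_db_ne x y) ?_
  rintro t ⟨n, hn, rfl⟩
  exact Q1_lift hC hA (hC.gl x hn)

theorem Q1_lift_apex (hC : Ctx S U s κ₁ κu κ₀ d) {x : G} {b : C}
    (hA : Adm S U d (7 / 8) (inl x) (inr b)) {n : G} (hn : Red S U d (2 * κ₁) x n) :
    ec S s x b ≤ ec S s x (n • b) := by
  have hs := (Q1_nn hC).2.1
  induction hn with
  | one => rw [one_smul]
  | step c e n' he hr h ih =>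
    refine ih.trans ?_
    by_cases hbc : (S.gen c ^ (e * d) * n') • b = c
    · have h1 : n' • b = c := by
        rw [mul_smul] at hbc
        have h2 := S.gen_zpow_smul c (e * d)
        exact smul_left_cancel _ (hbc.trans h2.symm)
      rw [hbc, h1]
    · have h1 := Q1_far hC hA c e he (S.gen c ^ (e * d) * n')
        (by rw [Sum.smul_inr]; simpa using hbc) h
      rw [Sum.smul_inr] at h1
      have h2 := exact_add_apex hC.hyp S hC.proj hC.hK hC.hΔ hC.hu hC.hs (c := c) (x := x)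
        (b := (S.gen c ^ (e * d) * n') • b) hbc (by have := Q1_nn hC; linarith)
      have h3 := ec_le_ecc hC.hyp S hs x (n' • b) c
      have h4 := ecc_inv hC.hyp hC.linv S hs (S.gen c ^ (e * d)) c (n' • b)
      rw [S.gen_zpow_smul, smul_smul] at h4
      rw [h2, h4]
      exact h3

theorem lift_dist_apex (hC : Ctx S U s κ₁ κu κ₀ d) {x : G} {b : C}
    (hA : Adm S U d (7 / 8) (inl x) (inr b)) : eb S s d x b = ec S s x b := by
  refine le_antisymm (eb_le hC x b) ?_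
  refine le_csInf (Q1_eb_ne S s d x b) ?_
  rintro t ⟨n, hn, rfl⟩
  exact Q1_lift_apex hC hA (hC.gl x hn)

theorem Adm.symm {a : ℝ} {X Y : G ⊕ C} (h : Adm S U d a X Y) : Adm S U d a Y X := by
  intro b hY hX
  rw [abs_sub_comm]
  exact h b hX hY

theorem Adm.mono (hC : Ctx S U s κ₁ κu κ₀ d) {a b : ℝ} (hab : a ≤ b) {X Y : G ⊕ C}
    (h : Adm S U d a X Y) : Adm S U d b X Y := by
  intro c hX hY
  refine (h c hX hY).trans (mul_le_mul_of_nonneg_right hab ?_)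
  have h1 := hC.ell_big c
  have h2 := (Q1_nn hC).2.2.1
  linarith

/-- smul, ell_smul -/
theorem Adm.smul (hC : Ctx S U s κ₁ κu κ₀ d) {a : ℝ} {X Y : G ⊕ C} (g : G) (h : Adm S U d a X Y) :
    Adm S U d a (g • X) (g • Y) := by
  intro b hX hY
  have hX' : X ≠ inr (g⁻¹ • b) := by
    intro h0
    apply hX
    rw [h0, Sum.smul_inr, smul_inv_smul]
  have hY' : Y ≠ inr (g⁻¹ • b) := by
    intro h0
    apply hY
    rw [h0, Sum.smul_inr, smul_inv_smul]
  have h1 := hC.proj.smul g (g⁻¹ • b) X Y hX' hY'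
  have h2 := h (g⁻¹ • b) hX' hY'
  rw [smul_inv_smul] at h1
  rw [h1]
  rw [S.ell_smul] at h2
  exact h2

end Pool.Agent.helper50.BW
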