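import Pool.Agent.helper50.BW.DefsR
import Pool.Agent.helper50.BW.Q1
import Pool.Agent.helper50.BW.A6
/-! ## BW-Q9 the axis of a minimal lift does not follow a cone for long (uses A3, A6, S1; 350 lines)
ℓ := sl D g, α, ϱ axis functions of g, x_i := g^i x0.  (★) hmin: ℓ - 1 ≤ D x (n g x) for all n ∈ NN.
Suppose t := |u_c x_m - u_c x_0| > 3/4 Θ, Θ := d ell c; e := sign (u_c x_m - u_c x_0).
y₋, y₊ := projections of x_0, x_m to c (exists_proj).  As in A10:
 D x_0 y₋ + D y₋ y₊ + D y₊ x_m ≤ D x_0 x_m + 12KU ≤ mℓ + 13KU.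
 Lower bounds for the axis: D x_0 y₋ ≥ ϱ y₋ + |α y₋ - α x_0| - 2KU etc.: ϱ y₋ + ϱ y₊ ≤ 17KU.
 t' := e(u_c y₊ - u_c y₋) ∈ [t-2KU, t+2KU].  |α y₊ - α y₋| ≥ D y₋ y₊ - 18KU ≥ t - 20KU, and α y₊ > α y₋ (otherwise the sum of the
 three distances is ≥ mℓ + 2|α y₊ - α y₋|).  O := α y₊ - α y₋ ∈ [t-20KU, t+5KU].
 w: r_c w ≤ KU, |u_c w - (u_c y₋ + eℓ)| ≤ KU (if ℓ ≤ O): |α w - (α y₋ + ℓ)| ≤ 40KU, ϱ w ≤ 62KU,
 so D w (g y₋) ≤ 120KU.
 (1) O - ℓ > Δ + 220KU: c' := g • c ≠ c (otherwise g ∈ zpowers (gen c), stab).  q: r_{c'} q ≤ KU,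
     |u_{c'} q - (u_{c'} (g y₋) + e(O-ℓ))| ≤ KU: D (g y₋) q ≤ O-ℓ+4KU, D q (g y₊) ≤ ℓ+26KU; so |α q - α y₊| ≤ 26KU, ϱ q ≤ 48KU,
     D q y₊ ≤ 92KU.  |u_c q - u_c (g y₋)| ≥ |u_c y₊ - u_c w| - 212KU ≥ O - ℓ - 220KU > Δ, contradiction to sep (c', c; points q, g y₋).
 (2) ℓ ≥ O: D (gen c^{ed} y₋) (g y₋) ≤ D (gen c^{ed} y₋) y₊ + D y₊ (g y₋) ≤ |t'-Θ| + 3KU + (ℓ-O) + 18KU < ℓ - 1.
 (3) O - Δ - 220KU ≤ ℓ < O: D (gen c^{ed} y₋) (g y₋) ≤ |Θ-ℓ| + 4KU + 120KU < ℓ - 1.
 Since D (gen c^{ed} y₋) (g y₋) = D y₋ (gen c^{-ed} g y₋), (2) and (3) contradict hmin.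
 All constants are generous: Θ ≥ 10000 κ₀ ≥ 10^6 KU + 300000 Δ.  (Ctx.ell_big, κ₀ ≥ 200 KU + 30Δ.) -/
namespace Pool.Agent.helper50.BW
open Sum
variable {G : Type} [Group G] {D : G → G → ℝ} {C : Type} [MulAction G C] {Δ τ T : ℝ}
  {S : CSys D C KU Δ τ T} {U : C → G ⊕ C → ℝ} {s κ₁ κu κ₀ : ℝ} {d : ℕ} {ε A T' Δs lam η : ℝ}

/-- lower bound of the distance from a point near the axis -/
theorem Q9_low (h : Hyp D) {g : G} {α ϱ : G → ℝ} (ha : IsAxis D g α ϱ) (p z : G) :
    ϱ z + |α p - α z| - KU - ϱ p ≤ D p z := by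
  by_cases h1 : KU ≤ |α p - α z|
  · have h2 := ha.lower p z h1
    have h3 := ha.r_nonneg p
    linarith
  · push Not at h1
    have h2 := ha.r_lip p z
    have h3 := neg_abs_le (ϱ p - ϱ z)
    linarith

/-- the two cases of an absolute value -/
theorem Q9_abs {x a : ℝ} (h1 : x ≤ a) (h2 : -x ≤ a) : |x| ≤ a := abs_le.2 ⟨by linarith, h1⟩

/-- The core of the argument, for functions `u, r` of the cone and `u', r'` of its translate. -/
theorem Q9_core (h : Hyp D) {g γ : G} {α ϱ u r u' r' : G → ℝ} {Θ : ℝ} (ha : IsAxis D g α ϱ) {x0 : G}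
    (hϱ : ϱ x0 ≤ 300) {m : ℕ} (h0 : D x0 (g ^ m * x0) ≤ m * sl D g + 300) (hg0 : 0 < sl D g)
    (lip : ∀ x y, |u x - u y| ≤ D x y)
    (up : ∀ x y, D x y ≤ r x + r y + |u x - u y| + KU)
    (lo : ∀ x y, KU ≤ |u x - u y| → r x + r y + |u x - u y| - KU ≤ D x y)
    (de : ∀ t, ∃ p, r p ≤ KU ∧ |u p - t| ≤ KU)
    (up' : ∀ x y, D x y ≤ r' x + r' y + |u' x - u' y| + KU)
    (de' : ∀ t, ∃ p, r' p ≤ KU ∧ |u' p - t| ≤ KU)
    (eq1 : ∀ x y, u' (g * x) - u' (g * y) = u x - u y) (eq2 : ∀ x, r' (g * x) = r x)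
    (sep : ∀ p q, r' p ≤ KU → r' q ≤ KU → |u p - u q| ≤ Δ)
    (gam : ∀ x, u (γ * x) = u x + Θ) (gamr : ∀ x, r (γ * x) = r x)
    (hΔ : 0 ≤ Δ) (big : 10000 * KU + 100 * Δ ≤ Θ) (hmin : ∀ x, sl D g - 1 ≤ D (γ * x) (g * x))
    (ht : 3 / 4 * Θ < u (g ^ m * x0) - u x0) : False := by
  have hK : KU = 1000 := rfl
  set ℓ := sl D g with hℓ
  set xm := g ^ m * x0 with hxm
  have hxα : α xm = α x0 + m * ℓ := by
    have := a6_zpow (g := g) (u := α) (c := sl D g) ha.u_gen (m : ℤ) x0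
    rw [zpow_natCast] at this
    push_cast at this
    exact this
  have hxϱ : ϱ xm = ϱ x0 := by
    have hr : ∀ k : ℕ, ϱ (g ^ k * x0) = ϱ x0 := by
      intro k
      induction k with
      | zero => rw [pow_zero, one_mul]
      | succ k ih => rw [pow_succ', mul_assoc, ha.r_gen, ih]
    exact hr m
  set t := u xm - u x0 with htd
  obtain ⟨y, hy1, hy2⟩ := de (u x0)
  obtain ⟨z, hz1, hz2⟩ := de (u xm)
  have hy2' := abs_le.1 hy2
  have hz2' := abs_le.1 hz2
  have hϱx := ha.r_nonneg x0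
  have hϱy := ha.r_nonneg y
  have hϱz := ha.r_nonneg z
  -- the broken path
  have d1 : D x0 y ≤ r x0 + 3 * KU := by
    have h1 := up x0 y
    rw [abs_sub_comm] at h1
    linarith
  have d3 : D z xm ≤ r xm + 3 * KU := by
    have h1 := up z xm
    linarith
  have dlo := lo x0 xm (by rw [abs_sub_comm]; have := le_abs_self (u xm - u x0); linarith)
  have dlo' : r x0 + r xm + t - KU ≤ D x0 xm := by
    have := neg_abs_le (u x0 - u xm)
    linarith
  have d2 : D y z ≤ t + 5 * KU := by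
    have h1 := up y z
    have h2 : |u y - u z| ≤ t + 2 * KU := Q9_abs (by linarith) (by linarith)
    linarith
  have dsum : D x0 y + D y z + D z xm ≤ m * ℓ + 12 * KU + 300 := by linarith
  have e1 := Q9_low h ha x0 y
  have e3 := Q9_low h ha xm z
  rw [h.symm xm z, hxϱ] at e3
  have e2 := ha.u_lip y z
  have e1' := neg_abs_le (α x0 - α y)
  have e1'' := le_abs_self (α x0 - α y)
  have e3' := neg_abs_le (α xm - α z)
  have e3'' := le_abs_self (α xm - α z)
  have e2' := neg_abs_le (α y - α z)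
  have e2'' := le_abs_self (α y - α z)
  have hsum : ϱ y + ϱ z ≤ 17 * KU := by linarith
  -- the overlap
  have hut : |u y - u z| ≤ D y z := lip y z
  have ht1 : t - 2 * KU ≤ u z - u y := by linarith
  have ht2 : u z - u y ≤ t + 2 * KU := by linarith
  have hO0 : t - 20 * KU ≤ |α y - α z| := by
    have h1 := ha.upper y z
    have h2 := neg_abs_le (u y - u z)
    linarith
  have hO1 : t - 20 * KU ≤ α z - α y := by
    rcases abs_cases (α y - α z) with ⟨h1, h2⟩ | ⟨h1, h2⟩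
    · exfalso
      linarith
    · linarith
  set O := α z - α y with hO
  have hO2 : O ≤ t + 5 * KU := by linarith
  have hgy : α (g * y) = α y + ℓ := ha.u_gen y
  have hgz : α (g * z) = α z + ℓ := ha.u_gen z
  have hgyr : ϱ (g * y) = ϱ y := ha.r_gen y
  have hm := hmin y
  by_cases hc2 : O ≤ ℓ
  · -- case (2)
    have f1 := up (γ * y) z
    rw [gam, gamr] at f1
    have f2 := ha.upper z (g * y)
    rw [hgy, hgyr] at f2
    have f3 := h.tri (γ * y) z (g * y)
    have f4 : |α z - (α y + ℓ)| ≤ ℓ - O := Q9_abs (by linarith) (by linarith)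
    have f5 : |u y + Θ - u z| ≤ O - 24 * KU := Q9_abs (by linarith) (by linarith)
    linarith
  · push Not at hc2
    obtain ⟨w, hw1, hw2⟩ := de (u y + ℓ)
    have hw2' := abs_le.1 hw2
    have w1 : D y w ≤ ℓ + 4 * KU := by
      have h1 := up y w
      have h2 : |u y - u w| ≤ ℓ + KU := Q9_abs (by linarith) (by linarith)
      linarith
    have w2 : D w z ≤ (u z - u y) - ℓ + 18 * KU := by
      have h1 := up w z
      have h2 : |u w - u z| ≤ (u z - u y) - ℓ + 15 * KU := Q9_abs (by linarith) (by linarith)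
      linarith
    have w3 : α w - α y ≤ ℓ + 4 * KU := by
      have h1 := ha.u_lip y w
      have h2 := neg_abs_le (α y - α w)
      linarith
    have w4 : ℓ - 40 * KU ≤ α w - α y := by
      have h1 := ha.u_lip w z
      have h2 := neg_abs_le (α w - α z)
      linarith
    have w5 : ϱ w ≤ 62 * KU := by
      have h1 := Q9_low h ha y w
      have h2 := neg_abs_le (α y - α w)
      linarith
    have w6 : D w (g * y) ≤ 120 * KU := by
      have h1 := ha.upper w (g * y)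
      rw [hgy, hgyr] at h1
      have h2 : |α w - (α y + ℓ)| ≤ 40 * KU := Q9_abs (by linarith) (by linarith)
      linarith
    -- the point `q`
    obtain ⟨q, hq1, hq2⟩ := de' (u' (g * y) + (O - ℓ))
    have hq2' := abs_le.1 hq2
    have q1 : D (g * y) q ≤ O - ℓ + 4 * KU := by
      have h1 := up' (g * y) q
      rw [eq2] at h1
      have h2 : |u' (g * y) - u' q| ≤ O - ℓ + KU := Q9_abs (by linarith) (by linarith)
      linarith
    have q2 : D q (g * z) ≤ ℓ + 26 * KU := by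
      have h1 := up' q (g * z)
      rw [eq2] at h1
      have h3 := eq1 z y
      have h2 : |u' q - u' (g * z)| ≤ ℓ + 23 * KU := Q9_abs (by linarith) (by linarith)
      linarith
    have q3 : α q ≤ α z + 4 * KU := by
      have h1 := ha.u_lip (g * y) q
      have h2 := neg_abs_le (α (g * y) - α q)
      linarith
    have q4 : α z - 26 * KU ≤ α q := by
      have h1 := ha.u_lip q (g * z)
      have h2 := neg_abs_le (α q - α (g * z))
      linarith
    have q5 : ϱ q ≤ 48 * KU := by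
      have h1 := Q9_low h ha (g * y) q
      rw [hgyr] at h1
      have h2 := neg_abs_le (α (g * y) - α q)
      linarith
    have q6 : D q z ≤ 92 * KU := by
      have h1 := ha.upper q z
      have h2 : |α q - α z| ≤ 26 * KU := Q9_abs (by linarith) (by linarith)
      linarith
    have q7 : u q - u (g * y) ≤ Δ := by
      have h1 := sep q (g * y) hq1 (by rw [eq2]; exact hy1)
      exact (le_abs_self _).trans h1
    have q8 : u z - u q ≤ 92 * KU := by
      have h1 := lip q z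
      have h2 := neg_abs_le (u q - u z)
      linarith
    have q9 : u (g * y) - u w ≤ 120 * KU := by
      have h1 := lip w (g * y)
      have h2 := neg_abs_le (u w - u (g * y))
      linarith
    have hlow : O - Δ - 220 * KU ≤ ℓ := by linarith
    -- case (3)
    have f1 := up (γ * y) w
    rw [gam, gamr] at f1
    have f3 := h.tri (γ * y) w (g * y)
    have f5 : |u y + Θ - u w| ≤ ℓ - 125 * KU := Q9_abs (by linarith) (by linarith)
    linarith

theorem overlap (hC : Ctx S U s κ₁ κu κ₀ d) {g : G} {α ϱ : G → ℝ} (ha : IsAxis D g α ϱ) {x0 : G}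
    (hϱ : ϱ x0 ≤ 300) (h0 : ∀ n : ℕ, D x0 (g ^ n * x0) ≤ n * sl D g + 300) (hg0 : 0 < sl D g)
    (hmin : ∀ n ∈ NN S d, ∀ x, sl D g - 1 ≤ D x (n * (g * x))) {c : C}
    (hgc : g ∉ Subgroup.zpowers (S.gen c)) (m : ℕ) :
    |S.u c (g ^ m * x0) - S.u c x0| ≤ 3 / 4 * (d * S.ell c) := by
  have hne : g • c ≠ c := fun h => hgc ((S.stab g c).1 h)
  have hbig : 10000 * KU + 100 * Δ ≤ d * S.ell c := by
    have h1 := hC.ell_big c
    have h2 := Q1_nn hC
    have h3 := hC.hΔ
    have h4 := hC.hu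
    have hK : KU = 1000 := rfl
    linarith
  have hmin' : ∀ (e : ℤ) (x : G), sl D g - 1 ≤ D (S.gen c ^ (e * d) * x) (g * x) := by
    intro e x
    have h1 := hmin _ (Subgroup.inv_mem _ (hC.gen_mem c e)) x
    have h2 := hC.linv (S.gen c ^ (e * d)) x ((S.gen c ^ (e * d))⁻¹ * (g * x))
    rw [mul_inv_cancel_left] at h2
    rw [h2]
    exact h1
  by_contra hcon
  push Not at hcon
  rcases abs_cases (S.u c (g ^ m * x0) - S.u c x0) with ⟨h1, h2⟩ | ⟨h1, h2⟩
  · rw [h1] at hcon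
    refine Q9_core (Θ := d * S.ell c) (γ := S.gen c ^ ((1 : ℤ) * d)) (u := S.u c) (r := S.r c)
      (u' := S.u (g • c)) (r' := S.r (g • c)) hC.hyp ha hϱ (h0 m) hg0 (S.u_lip c) (S.upper c)
      (S.lower c) (S.dense c) (S.upper _) (S.dense _) (S.u_smul g c) (S.r_smul g c)
      (fun p q hp hq => S.sep (g • c) c p q hne hp hq) ?_ (fun x => S.r_gen_zpow c _ x) hC.hΔ hbig
      (hmin' 1) hcon
    intro x
    rw [S.u_gen_zpow]
    push_cast
    ring
  · rw [h1] at hcon
    refine Q9_core (Θ := d * S.ell c) (γ := S.gen c ^ ((-1 : ℤ) * d)) (u := fun x => - S.u c x)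
      (r := S.r c) (u' := fun x => - S.u (g • c) x) (r' := S.r (g • c)) hC.hyp ha hϱ (h0 m) hg0
      ?_ ?_ ?_ ?_ ?_ ?_ ?_ (S.r_smul g c) ?_ ?_ (fun x => S.r_gen_zpow c _ x) hC.hΔ hbig
      (hmin' (-1)) ?_
    · intro x y
      have := S.u_lip c x y
      rwa [show -S.u c x - -S.u c y = -(S.u c x - S.u c y) by ring, abs_neg]
    · intro x y
      have := S.upper c x y
      rwa [show -S.u c x - -S.u c y = -(S.u c x - S.u c y) by ring, abs_neg]
    · intro x y hxy
      rw [show -S.u c x - -S.u c y = -(S.u c x - S.u c y) by ring, abs_neg] at hxy ⊢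
      exact S.lower c x y hxy
    · intro t
      obtain ⟨p, hp1, hp2⟩ := S.dense c (-t)
      refine ⟨p, hp1, ?_⟩
      rwa [show -S.u c p - t = -(S.u c p - -t) by ring, abs_neg]
    · intro x y
      have := S.upper (g • c) x y
      rwa [show -S.u (g • c) x - -S.u (g • c) y = -(S.u (g • c) x - S.u (g • c) y) by ring, abs_neg]
    · intro t
      obtain ⟨p, hp1, hp2⟩ := S.dense (g • c) (-t)
      refine ⟨p, hp1, ?_⟩
      rwa [show -S.u (g • c) p - t = -(S.u (g • c) p - -t) by ring, abs_neg]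
    · intro x y
      have := S.u_smul g c x y
      linarith
    · intro p q hp hq
      have := S.sep (g • c) c p q hne hp hq
      rwa [show -S.u c p - -S.u c q = -(S.u c p - S.u c q) by ring, abs_neg]
    · intro x
      rw [S.u_gen_zpow]
      push_cast
      ring
    · linarith

end Pool.Agent.helper50.BW
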