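import Pool.Agent.helper50.BW.Q8
import Pool.Agent.helper50.BW.Q9
import Pool.Agent.helper50.BW.A11
import Pool.Agent.helper50.BW.F8
/-! ## BW-Q10 classification and inheritance of TI (uses Q8, Q9, A5, A6, F8; 300 lines)
classify: choose n ∈ NN, x₁ with D x₁ (n g x₁) ≤ inf over (n,x) + 1, g' := n g.  If g'^d = 1: (i).  If sl g' ≤ T: cov gives (ii).
 Otherwise sl g' > T; if g' ∈ zpowers (gen c) for some c: (ii).  Else exists_orbit, isAxis_exists, hmin:
 D x (m g' x) ≥ D x₁ (g' x₁) - 1 ≥ sl g' - 1; overlap: |u_c diff| ≤ 3/4 Θ so |U c diff| ≤ 3/4 Θ + 2κu ≤ 7/8 Θ.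
ti_next: (i), (ii): g'^d ∈ NN (gen c^{kd}), so g^d ∈ NN (normality).
 (iii) x_i := g'^i x0.  Claim: ∃ Cg, ∀ M, η M - Cg ≤ dd x_0 x_M.
  (α) some c, i ≤ j with |U c x_j - U c x_i| ≥ 2κ₀: c_k := g'^k • c (0 ≤ k ≤ M - j); u_mono (κ = 900):
    |U c_k x_M - U c_k x_0| ≥ 2κ₀ - 3KU - 4κu ≥ κ₀.  The c_k are distinct: g'^a • c = c with a ≥ 1 gives g'^a = gen c^b (stab),
    b ≠ 0 (g' loxodromic), U c (g'^{am} x0) - U c x0 = m b ell c (rot) unbounded, contradiction to Adm.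
    many_cones: dd x_0 x_M ≥ (M - j + 1) s ≥ η M - js.
  (β) otherwise dd_linear with W = 2κ₀, L = LL: dd ≥ s D/(L+30) - 10 s ≥ M sT/(L+30) - 10 s ≥ ηM - 10 s (D x_0 x_M ≥ M sl ≥ M T).
  db x0 (g^M x0) = db x0 (g'^M x0) = dd x0 (g'^M x0) (lift_dist); for all x, n: k db x (g^n x) ≥ db x (g^{nk} x)
  ≥ db x0 (g^{nk} x0) - 2 db x x0 ≥ η n k - Cg - 2 db x x0; k → ∞. -/
namespace Pool.Agent.helper50.BW
open Sum
variable {G : Type} [Group G] {D : G → G → ℝ} {C : Type} [MulAction G C] {Δ τ T : ℝ}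
  {S : CSys D C KU Δ τ T} {U : C → G ⊕ C → ℝ} {s κ₁ κu κ₀ : ℝ} {d : ℕ} {ε A T' Δs lam η : ℝ}

theorem q10_nums (hF : Full S U s κ₁ κu κ₀ d ε A T' Δs lam η) :
    (KU : ℝ) = 1000 ∧ 0 < T ∧ 0 < κ₀ ∧ 3 * KU + 4 * κu ≤ κ₀ ∧ 0 < s ∧ 0 < d ∧
      (∀ c, 10000 * κ₀ ≤ d * S.ell c) ∧ 2 * κu ≤ κ₀ := by
  have hC := hF.ctx
  have h1 := hC.hK
  have h2 := hC.hΔ
  have h3 := hC.hu
  have h4 := hC.h1
  have h5 := hC.hs
  have h6 := hC.h0
  have h7 := hF.hT
  refine ⟨rfl, by linarith, by linarith, by linarith, by linarith, hC.odd.pos,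
    fun c => hC.ell_big c, by linarith⟩

theorem q10_mod (S : CSys D C KU Δ τ T) (d : ℕ) {n : G} (g : G) (hn : n ∈ NN S d) (k : ℕ) :
    ∃ m ∈ NN S d, (n * g) ^ k = m * g ^ k := by
  induction k with
  | zero => exact ⟨1, one_mem _, by simp⟩
  | succ k ih =>
    obtain ⟨m, hm, e⟩ := ih
    refine ⟨m * (g ^ k * n * (g ^ k)⁻¹), mul_mem hm ((NN_normal S d).conj_mem n hn _), ?_⟩
    rw [pow_succ, e, pow_succ]
    group

theorem q10_dmem (S : CSys D C KU Δ τ T) (d : ℕ) {n g : G} (hn : n ∈ NN S d)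
    (h : (n * g) ^ d ∈ NN S d) : g ^ d ∈ NN S d := by
  obtain ⟨m, hm, e⟩ := q10_mod S d g hn d
  have h1 : g ^ d = m⁻¹ * (n * g) ^ d := by rw [e]; group
  rw [h1]
  exact mul_mem (inv_mem hm) h

theorem q10_gen (hC : Ctx S U s κ₁ κu κ₀ d) {g : G} {c : C} (h : g ∈ Subgroup.zpowers (S.gen c)) :
    g ^ d ∈ NN S d := by
  obtain ⟨k, rfl⟩ := Subgroup.mem_zpowers_iff.1 h
  rw [← zpow_natCast, ← zpow_mul]
  exact hC.gen_mem c k

theorem classify (hF : Full S U s κ₁ κu κ₀ d ε A T' Δs lam η) (g : G) :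
    ∃ n ∈ NN S d, (n * g) ^ d = 1 ∨ (∃ c, n * g ∈ Subgroup.zpowers (S.gen c)) ∨
      ((n * g) ^ d ≠ 1 ∧ T < sl D (n * g) ∧ ∃ x0, (∀ m : ℕ, D x0 ((n * g) ^ m * x0) ≤ m * sl D (n * g) + 300) ∧
        ∀ m : ℕ, Adm S U d (7 / 8) (inl x0) (inl ((n * g) ^ m * x0))) := by
  have hC := hF.ctx
  have h := hC.hyp
  have hi := hC.linv
  obtain ⟨hKU, hTpos, hκ0, hκ3, hs, hd, hbig, hκu⟩ := q10_nums hF
  -- almost minimal displacement
  obtain ⟨n, hn, x₁, hmin⟩ : ∃ n ∈ NN S d, ∃ x₁, ∀ m ∈ NN S d, ∀ x,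
      D x₁ (n * (g * x₁)) ≤ D x (m * (g * x)) + 1 := by
    set B : Set ℝ := {t | ∃ m ∈ NN S d, ∃ x, t = D x (m * (g * x))} with hB
    have hne : B.Nonempty := ⟨_, 1, one_mem _, 1, rfl⟩
    have hbd : BddBelow B := ⟨0, by rintro t ⟨m, _, x, rfl⟩; exact h.nonneg _ _⟩
    obtain ⟨t, ⟨n, hn, x₁, rfl⟩, hlt⟩ := exists_lt_of_csInf_lt hne (lt_add_one (sInf B))
    refine ⟨n, hn, x₁, fun m hm x => ?_⟩
    have := csInf_le hbd (show D x (m * (g * x)) ∈ B from ⟨m, hm, x, rfl⟩)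
    linarith
  refine ⟨n, hn, ?_⟩
  by_cases h1 : (n * g) ^ d = 1
  · exact Or.inl h1
  right
  by_cases h2 : ∃ c, n * g ∈ Subgroup.zpowers (S.gen c)
  · exact Or.inl h2
  right
  have h3 : T < sl D (n * g) := by
    by_contra hcon
    exact h2 (hF.cov _ h1 (not_lt.1 hcon))
  have hpos : 0 < sl D (n * g) := hTpos.trans h3
  obtain ⟨x0, h0⟩ := exists_orbit h hi (n * g) hpos
  obtain ⟨α, ϱ, hax, hr0⟩ := isAxis_exists h hi (n * g) hpos x0 h0
  refine ⟨h1, h3, x0, h0, fun m b _ _ => ?_⟩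
  have hmin' : ∀ m ∈ NN S d, ∀ x, sl D (n * g) - 1 ≤ D x (m * (n * g * x)) := by
    intro m hm x
    have e1 := hmin (m * n) (mul_mem hm hn) x
    have e2 := sl_le h hi (n * g) x₁ 1
    have e3 : m * n * (g * x) = m * (n * g * x) := by group
    have e4 : n * (g * x₁) = n * g * x₁ := by group
    rw [e3, e4] at e1
    simp only [Nat.cast_one, one_mul, pow_one] at e2
    linarith
  have hov := overlap hC hax hr0 h0 hpos hmin' (fun hc => h2 ⟨b, hc⟩) m
  have c1 := abs_le.1 (hC.proj.close b x0)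
  have c2 := abs_le.1 (hC.proj.close b ((n * g) ^ m * x0))
  have c3 := abs_le.1 hov
  have hb := hbig b
  rw [abs_le]
  constructor <;> linarith

theorem q10_stable (hF : Full S U s κ₁ κu κ₀ d ε A T' Δs lam η) {g : G} (hd : g ^ d ≠ 1) {x0 : G}
    (hA : ∀ m : ℕ, Adm S U d (7 / 8) (inl x0) (inl (g ^ m * x0))) (c : C) {a : ℕ} (ha : 0 < a)
    (hc : g ^ a • c = c) : False := by
  have hC := hF.ctx
  obtain ⟨hKU, hTpos, hκ0, hκ3, hs, hdpos, hbig, hκu⟩ := q10_nums hF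
  obtain ⟨e, he⟩ := Subgroup.mem_zpowers_iff.1 ((S.stab _ _).1 hc)
  have he0 : e ≠ 0 := by
    rintro rfl
    rw [zpow_zero] at he
    have h1 := hF.stg.lox_zpow hdpos hC.hτ hd (n := (a : ℤ)) (by exact_mod_cast ha.ne')
    apply h1
    rw [zpow_natCast, ← he, one_pow]
  have h1 := hA (a * d) c (by simp) (by simp)
  have h2 : g ^ (a * d) * x0 = S.gen c ^ (e * (d : ℤ)) * x0 := by
    rw [pow_mul, ← he, ← zpow_natCast, ← zpow_mul]
  have h3 := hC.proj.rot c (inl x0) (e * (d : ℤ)) (by simp)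
  rw [Sum.smul_inl, smul_eq_mul] at h3
  rw [h2, h3] at h1
  have h4 : (1 : ℝ) ≤ |(e : ℝ)| := by
    have := Int.one_le_abs he0
    exact_mod_cast this
  have h5 : |U c (inl x0) + ((e * (d : ℤ) : ℤ) : ℝ) * S.ell c - U c (inl x0)| =
      |(e : ℝ)| * (d * S.ell c) := by
    have hnn : 0 ≤ d * S.ell c := by linarith [hbig c]
    rw [add_sub_cancel_left]
    push_cast
    rw [mul_assoc, abs_mul, abs_of_nonneg hnn]
  rw [h5] at h1
  have hb := hbig c
  nlinarith

theorem q10_lin (hF : Full S U s κ₁ κu κ₀ d ε A T' Δs lam η) {g : G} (hd : g ^ d ≠ 1)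
    (hT : T < sl D g) {x0 : G} (h0 : ∀ m : ℕ, D x0 (g ^ m * x0) ≤ m * sl D g + 300)
    (hA : ∀ m : ℕ, Adm S U d (7 / 8) (inl x0) (inl (g ^ m * x0))) :
    ∃ Cg : ℝ, ∀ M : ℕ, η * M - Cg ≤ dd S s x0 (g ^ M * x0) := by
  classical
  have hC := hF.ctx
  have h := hC.hyp
  have hi := hC.linv
  obtain ⟨hKU, hTpos, hκ0, hκ3, hs, hdpos, hbig, hκu⟩ := q10_nums hF
  have hK := hC.hK
  have hη := hF.hη
  have hη1 := hF.hη1
  have hlow : ∀ M : ℕ, (M : ℝ) * sl D g ≤ D x0 (g ^ M * x0) := fun M => sl_le h hi g x0 M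
  by_cases hα : ∃ (c : C) (i j : ℕ), i ≤ j ∧
      2 * κ₀ ≤ |U c (inl (g ^ j * x0)) - U c (inl (g ^ i * x0))|
  · obtain ⟨c, i, j, hij, hc⟩ := hα
    refine ⟨j * s, fun M => ?_⟩
    have hnn : 0 ≤ dd S s x0 (g ^ M * x0) := dd_nonneg h S hs.le _ _
    by_cases hM : M < j
    · have h1 : (M : ℝ) ≤ j := by exact_mod_cast hM.le
      have h2 : η * M ≤ s * j := mul_le_mul hη1 h1 (Nat.cast_nonneg _) hs.le
      linarith
    · rw [not_lt] at hM
      set F : Finset C := (Finset.range (M - j + 1)).image (fun k => g ^ k • c) with hFdef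
      have hinj : Set.InjOn (fun k : ℕ => g ^ k • c) (Finset.range (M - j + 1) : Set ℕ) := by
        have key : ∀ a b : ℕ, a < b → g ^ a • c = g ^ b • c → False := by
          intro a b hab he
          have h1 : g ^ (b - a) • c = c := by
            have h2 : g ^ b = g ^ a * g ^ (b - a) := by
              rw [← pow_add]
              congr 1
              omega
            rw [h2, mul_smul] at he
            exact (smul_left_cancel _ he).symm
          exact q10_stable hF hd hA c (by omega) h1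
        intro a _ b _ hab
        rcases lt_trichotomy a b with h1 | h1 | h1
        · exact (key a b h1 hab).elim
        · exact h1
        · exact (key b a h1 hab.symm).elim
      have hcard : F.card = M - j + 1 := by
        rw [hFdef, Finset.card_image_of_injOn hinj, Finset.card_range]
      have hcross : ∀ b ∈ F, κ₀ ≤ |U b (inl (g ^ M * x0)) - U b (inl x0)| := by
        intro b hb
        obtain ⟨k, hk, rfl⟩ := Finset.mem_image.1 hb
        rw [Finset.mem_range] at hk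
        have hs1 := hC.proj.smul (g ^ k) c (inl (g ^ i * x0)) (inl (g ^ j * x0)) (by simp) (by simp)
        rw [Sum.smul_inl, Sum.smul_inl, smul_eq_mul, smul_eq_mul, ← mul_assoc, ← mul_assoc,
          ← pow_add, ← pow_add] at hs1
        rw [← hs1] at hc
        have hz : D x0 (g ^ (k + i) * x0) + D (g ^ (k + i) * x0) (g ^ (k + j) * x0) +
            D (g ^ (k + j) * x0) (g ^ M * x0) ≤ D x0 (g ^ M * x0) + 900 := by
          have e1 := h0 (k + i)
          have e2 := a6_hi hi h0 (show k + i ≤ k + j by omega)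
          have e3 := a6_hi hi h0 (show k + j ≤ M by omega)
          have e4 := hlow M
          have e5 : ((k + i : ℕ) : ℝ) * sl D g + (((k + j : ℕ) : ℝ) - ((k + i : ℕ) : ℝ)) * sl D g +
              ((M : ℝ) - ((k + j : ℕ) : ℝ)) * sl D g = M * sl D g := by ring
          linarith
        have hm := u_mono h S (c := g ^ k • c) (by linarith) (by norm_num : (0 : ℝ) ≤ 900) hz
        have c1 := abs_le.1 (hC.proj.close (g ^ k • c) x0)
        have c2 := abs_le.1 (hC.proj.close (g ^ k • c) (g ^ M * x0))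
        have c3 := abs_le.1 (hC.proj.close (g ^ k • c) (g ^ (k + i) * x0))
        have c4 := abs_le.1 (hC.proj.close (g ^ k • c) (g ^ (k + j) * x0))
        have t1 : |U (g ^ k • c) (inl (g ^ (k + j) * x0)) - U (g ^ k • c) (inl (g ^ (k + i) * x0))| ≤
            |S.u (g ^ k • c) (g ^ (k + i) * x0) - S.u (g ^ k • c) (g ^ (k + j) * x0)| + 2 * κu := by
          rw [abs_sub_comm (S.u _ _)]
          rw [abs_le]
          have t3 := neg_abs_le (S.u (g ^ k • c) (g ^ (k + j) * x0) - S.u (g ^ k • c) (g ^ (k + i) * x0))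
          have t4 := le_abs_self (S.u (g ^ k • c) (g ^ (k + j) * x0) - S.u (g ^ k • c) (g ^ (k + i) * x0))
          constructor <;> linarith
        have t2 : |S.u (g ^ k • c) x0 - S.u (g ^ k • c) (g ^ M * x0)| ≤
            |U (g ^ k • c) (inl (g ^ M * x0)) - U (g ^ k • c) (inl x0)| + 2 * κu := by
          rw [abs_sub_comm (S.u _ _)]
          rw [abs_le]
          have t3 := neg_abs_le (U (g ^ k • c) (inl (g ^ M * x0)) - U (g ^ k • c) (inl x0))
          have t4 := le_abs_self (U (g ^ k • c) (inl (g ^ M * x0)) - U (g ^ k • c) (inl x0))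
          constructor <;> linarith
        linarith
      have hmany := many_cones hC F (x := x0) (y := g ^ M * x0) hcross
      rw [hcard] at hmany
      have hcast : ((M - j + 1 : ℕ) : ℝ) = (M : ℝ) - j + 1 := by
        push_cast [Nat.cast_sub hM]
        ring
      rw [hcast] at hmany
      have h2 : η * M ≤ s * M := mul_le_mul_of_nonneg_right hη1 (Nat.cast_nonneg _)
      nlinarith
  · push Not at hα
    refine ⟨10 * s, fun M => ?_⟩
    have hlin := dd_linear h S hC.proj hC.hK hC.hΔ hC.hu hC.hs (W := 2 * κ₀) (by linarith)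
      (x := x0) (y := g ^ M * x0) (fun c => by
        have := hα c 0 M (Nat.zero_le _)
        rw [pow_zero, one_mul] at this
        exact this.le) (L := LL s κu κ₀ Δ) (le_of_eq rfl)
    have hL : 0 < LL s κu κ₀ Δ + 30 := by
      have h1 := hC.hΔ
      have h2 := hC.hu
      unfold LL
      have h3 : 0 ≤ 6 * s := by linarith
      have h4 : 0 ≤ 2 * κ₀ + 6 * s + 6 * KU + 10 * κu + 13 * Δ + 30 := by linarith
      linarith
    have h1 : η * M ≤ s * (D x0 (g ^ M * x0) / (LL s κu κ₀ Δ + 30)) := by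
      rw [← mul_div_assoc, le_div_iff₀ hL]
      have h2 := hF.hη2
      have h3 : (M : ℝ) * T ≤ D x0 (g ^ M * x0) :=
        (mul_le_mul_of_nonneg_left hT.le (Nat.cast_nonneg M)).trans (hlow M)
      calc η * M * (LL s κu κ₀ Δ + 30) = (η * (LL s κu κ₀ Δ + 30)) * M := by ring
        _ ≤ (s * T) * M := mul_le_mul_of_nonneg_right h2 (Nat.cast_nonneg M)
        _ = s * (M * T) := by ring
        _ ≤ s * D x0 (g ^ M * x0) := mul_le_mul_of_nonneg_left h3 hs.le
    linarith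

theorem q10_pow_le (hC : Ctx S U s κ₁ κu κ₀ d) (g x : G) (n k : ℕ) :
    db S s d x (g ^ (n * k) * x) ≤ k * db S s d x (g ^ n * x) := by
  induction k with
  | zero =>
    rw [mul_zero, pow_zero, one_mul, db_self hC]
    simp
  | succ k ih =>
    have h1 := db_tri hC x (g ^ (n * k) * x) (g ^ (n * (k + 1)) * x)
    have h2 : g ^ (n * (k + 1)) * x = g ^ (n * k) * (g ^ n * x) := by
      rw [mul_add, mul_one, pow_add, mul_assoc]
    rw [h2, db_inv hC] at h1
    rw [h2]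
    push_cast
    linarith

theorem q10_ti (hF : Full S U s κ₁ κu κ₀ d ε A T' Δs lam η) {g n : G} (hn : n ∈ NN S d)
    (hd : (n * g) ^ d ≠ 1) (hT : T < sl D (n * g)) {x0 : G}
    (h0 : ∀ m : ℕ, D x0 ((n * g) ^ m * x0) ≤ m * sl D (n * g) + 300)
    (hA : ∀ m : ℕ, Adm S U d (7 / 8) (inl x0) (inl ((n * g) ^ m * x0))) (x : G) (k : ℕ) :
    (k : ℝ) * η ≤ db S s d x (g ^ k * x) := by
  have hC := hF.ctx
  obtain ⟨Cg, hCg⟩ := q10_lin hF hd hT h0 hA
  have hbase : ∀ M : ℕ, η * M - Cg ≤ db S s d x0 (g ^ M * x0) := by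
    intro M
    obtain ⟨m, hm, e⟩ := q10_mod S d g hn M
    have h1 := lift_dist hC (hA M)
    have h2 := hCg M
    rw [← h1, e, mul_assoc] at h2
    have h3 := db_N hC (one_mem (NN S d)) hm x0 (g ^ M * x0)
    rw [one_mul] at h3
    linarith
  have hx : ∀ M : ℕ, η * M - Cg - 2 * db S s d x x0 ≤ db S s d x (g ^ M * x) := by
    intro M
    have h1 := hbase M
    have h2 := db_tri hC x0 x (g ^ M * x0)
    have h3 := db_tri hC x (g ^ M * x) (g ^ M * x0)
    rw [db_inv hC] at h3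
    rw [db_symm hC x0 x] at h2
    linarith
  by_contra hcon
  rw [not_le] at hcon
  obtain ⟨N, hN⟩ := exists_nat_gt ((Cg + 2 * db S s d x x0) / (k * η - db S s d x (g ^ k * x)))
  rw [div_lt_iff₀ (by linarith)] at hN
  have h1 := hx (k * N)
  have h2 := q10_pow_le hC g x k N
  push_cast at h1
  nlinarith

theorem ti_next (hF : Full S U s κ₁ κu κ₀ d ε A T' Δs lam η) (g : G) :
    g ^ d ∈ NN S d ∨ ∀ (x : G) (n : ℕ), (n : ℝ) * η ≤ db S s d x (g ^ n * x) := by
  have hC := hF.ctx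
  obtain ⟨n, hn, h1 | ⟨c, hc⟩ | ⟨h1, h2, x0, h3, h4⟩⟩ := classify hF g
  · left
    exact q10_dmem S d hn (by rw [h1]; exact one_mem _)
  · left
    exact q10_dmem S d hn (q10_gen hC hc)
  · right
    exact q10_ti hF hn h1 h2 h3 h4

/-- torsion elements of the quotient: torsion in G or in a cone (case (iii) of classify contradicts
g^d ∈ NN by ti_next applied to powers: dm η ≤ db x (g^{dm} x) = 0). -/
theorem classify_tor (hF : Full S U s κ₁ κu κ₀ d ε A T' Δs lam η) {g : G} (hg : g ^ d ∈ NN S d) :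
    ∃ n ∈ NN S d, (n * g) ^ d = 1 ∨ ∃ c, n * g ∈ Subgroup.zpowers (S.gen c) := by
  have hC := hF.ctx
  obtain ⟨n, hn, h1 | h1 | ⟨h1, h2, x0, h3, h4⟩⟩ := classify hF g
  · exact ⟨n, hn, Or.inl h1⟩
  · exact ⟨n, hn, Or.inr h1⟩
  · exfalso
    have h5 := q10_ti hF hn h1 h2 h3 h4 1 d
    have h6 := db_N hC (one_mem (NN S d)) hg 1 1
    rw [one_mul] at h6
    rw [h6, db_self hC] at h5
    have h7 : (0 : ℝ) < d * η := mul_pos (by exact_mod_cast hC.odd.pos) hF.hη
    linarith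

end Pool.Agent.helper50.BW
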