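import Pool.Agent.helper50.BW.Q17
/-! ## BW-T1 the quotient satisfies Stg again (uses Q1, Q5, Q10, Q12, Q17; 120 lines)
hyp: next_hyp, all fields transported along the surjection q.  linv: db_inv.  ti: q g: ti_next g: g^d ∈ NN = ker q
gives (q g)^d = 1, otherwise n η ≤ db x (g^n x), times lam (τ = lam η).  p0: g^d ∈ NN; E := ε/lam (div nonneg);
p0_next; 2 RE < db x y because 2 lam RE + 1 ≤ A ≤ lam db x y.  q: q_next; q (gh) = q (hg) since (hg)⁻¹(gh) ∈ ker q.
exists_quot: H = G ⧸ NN S d (NN_normal), q = QuotientGroup.mk', D' a b := lam * db a.out b.out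
(q x = q y gives y = n x with n ∈ NN, db_N). -/
namespace Pool.Agent.helper50.BW
open Sum
variable {G : Type} [Group G] {D : G → G → ℝ} {C : Type} [MulAction G C] {Δ τ T : ℝ}
  {S : CSys D C KU Δ τ T} {U : C → G ⊕ C → ℝ} {s κ₁ κu κ₀ : ℝ} {d : ℕ} {ε A T' Δs lam η : ℝ}

theorem next_stg (hF : Full S U s κ₁ κu κ₀ d ε A T' Δs lam η) {H : Type} [Group H] (q : G →* H)
    (hq : Function.Surjective q) (hker : q.ker = NN S d) {D' : H → H → ℝ}
    (hD' : ∀ x y, D' (q x) (q y) = lam * db S s d x y) : Stg D' d τ ε A T' Δs := by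
  have hC := hF.ctx
  have hl := hF.hlam
  have hH := next_hyp hC hF.hlam hF.hlam'
  have hmem : ∀ g : G, q g = 1 ↔ g ∈ NN S d := by
    intro g
    rw [← hker, MonoidHom.mem_ker]
  refine ⟨⟨?_, ?_, ?_, ?_, ?_⟩, ?_, ?_, ?_, ?_⟩
  · intro a
    obtain ⟨x, rfl⟩ := hq a
    rw [hD']; exact hH.refl x
  · intro a b
    obtain ⟨x, rfl⟩ := hq a
    obtain ⟨y, rfl⟩ := hq b
    rw [hD', hD']; exact hH.symm x y
  · intro a b c
    obtain ⟨x, rfl⟩ := hq a
    obtain ⟨y, rfl⟩ := hq b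
    obtain ⟨z, rfl⟩ := hq c
    rw [hD', hD', hD']; exact hH.tri x y z
  · intro a b c e
    obtain ⟨x, rfl⟩ := hq a
    obtain ⟨y, rfl⟩ := hq b
    obtain ⟨z, rfl⟩ := hq c
    obtain ⟨w, rfl⟩ := hq e
    rw [hD', hD', hD', hD', hD', hD']; exact hH.four x y z w
  · intro a b t h0 h1
    obtain ⟨x, rfl⟩ := hq a
    obtain ⟨y, rfl⟩ := hq b
    rw [hD'] at h1
    obtain ⟨z, hz1, hz2⟩ := hH.rough x y t h0 h1
    refine ⟨q z, ?_, ?_⟩
    · rw [hD']; exact hz1
    · rw [hD', hD']; exact hz2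
  · intro g a b
    obtain ⟨k, rfl⟩ := hq g
    obtain ⟨x, rfl⟩ := hq a
    obtain ⟨y, rfl⟩ := hq b
    rw [← map_mul, ← map_mul, hD', hD', db_inv hC]
  · intro a
    obtain ⟨g, rfl⟩ := hq a
    rcases ti_next hF g with h | h
    · left
      rw [← map_pow, hmem]
      exact h
    · right
      intro b n
      obtain ⟨x, rfl⟩ := hq b
      rw [← map_pow, ← map_mul, hD']
      have e : (n : ℝ) * τ = lam * (n * η) := by rw [hF.hτη]; ring
      rw [e]
      exact mul_le_mul_of_nonneg_left (h x n) hl.le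
  · intro a b c ha hb hc hbc
    obtain ⟨g, rfl⟩ := hq a
    obtain ⟨x, rfl⟩ := hq b
    obtain ⟨y, rfl⟩ := hq c
    rw [← map_pow, hmem] at ha
    rw [← map_mul, hD'] at hb hc
    rw [hD'] at hbc
    rw [hmem]
    have hε : 0 ≤ ε / lam := div_nonneg (by linarith [hF.hε]) hl.le
    have hx : db S s d x (g * x) ≤ ε / lam := by
      rw [le_div_iff₀ hl, mul_comm]; exact hb
    have hy : db S s d y (g * y) ≤ ε / lam := by
      rw [le_div_iff₀ hl, mul_comm]; exact hc
    have hA2 := hF.hA2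
    refine p0_next hF ha hε hx hy ?_
    by_contra hcon
    push Not at hcon
    have := mul_le_mul_of_nonneg_left hcon hl.le
    linarith
  · intro a b c e ha hb h1 h2 h3 h4 h5
    obtain ⟨g, rfl⟩ := hq a
    obtain ⟨h, rfl⟩ := hq b
    obtain ⟨x, rfl⟩ := hq c
    obtain ⟨y, rfl⟩ := hq e
    rw [← map_mul, hD'] at h1 h2 h3 h4
    rw [hD'] at h5
    have hk := q_next hF h1 h2 h3 h4 h5
    rw [← hmem, map_mul, map_inv] at hk
    rw [← map_mul, ← map_mul]
    exact (inv_mul_eq_one.mp hk).symm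

theorem exists_quot (hF : Full S U s κ₁ κu κ₀ d ε A T' Δs lam η) :
    ∃ (H : Type) (_ : Group H) (q : G →* H) (D' : H → H → ℝ), Function.Surjective q ∧ q.ker = NN S d ∧
      ∀ x y, D' (q x) (q y) = lam * db S s d x y := by
  have hC := hF.ctx
  have : (NN S d).Normal := NN_normal S d
  refine ⟨G ⧸ NN S d, inferInstance, QuotientGroup.mk' (NN S d),
    fun a b => lam * db S s d a.out b.out, QuotientGroup.mk'_surjective _,
    QuotientGroup.ker_mk' _, ?_⟩
  have hout : ∀ x : G, ∃ n ∈ NN S d, (QuotientGroup.mk' (NN S d) x).out = n * x := by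
    intro x
    have h1 : QuotientGroup.mk' (NN S d) ((QuotientGroup.mk' (NN S d) x).out) =
        QuotientGroup.mk' (NN S d) x := QuotientGroup.out_eq' _
    have h2 : (QuotientGroup.mk' (NN S d) x).out * x⁻¹ ∈ NN S d := by
      have h3 : (QuotientGroup.mk' (NN S d) x).out * x⁻¹ ∈ (QuotientGroup.mk' (NN S d)).ker := by
        rw [MonoidHom.mem_ker, map_mul, h1, map_inv, mul_inv_cancel]
      rwa [QuotientGroup.ker_mk'] at h3
    exact ⟨_, h2, by group⟩
  intro x y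
  obtain ⟨n, hn, hn'⟩ := hout x
  obtain ⟨m, hm, hm'⟩ := hout y
  simp only
  rw [hn', hm', db_N hC hn hm]

end Pool.Agent.helper50.BW
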