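import Pool.Agent.helper50.BW.DefsT
/-! ## BW-T3 powers in the free group (uses fD only; Mathlib FreeGroup/CyclicallyReduced; 100 lines)
x⁻¹ g^n x = (x⁻¹ g x)^n and norm (h^n) ≥ n for h ≠ 1 (h = u c u⁻¹, c cyclically reduced and nonempty,
reduce_flatten_replicate). -/
namespace Pool.Agent.helper50.BW
open Sum

open FreeGroup FreeGroup.reduceCyclically in
theorem t3_norm_pow {h : FreeGroup ℕ} (hh : h ≠ 1) (n : ℕ) : n ≤ (h ^ n).norm := by
  have h1 : (h ^ n).toWord = if n = 0 then [] else conjugator h.toWord ++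
      (List.replicate n (reduceCyclically h.toWord)).flatten ++ invRev (conjugator h.toWord) := by
    rw [toWord_pow, reduce_flatten_replicate isReduced_toWord]
  have h2 : 1 ≤ (reduceCyclically h.toWord).length := by
    by_contra hlt
    have h3 : reduceCyclically h.toWord = [] := List.length_eq_zero_iff.1 (by omega)
    have h4 := conj_conjugator_reduceCyclically h.toWord
    rw [h3, List.append_nil] at h4
    apply hh
    have h5 := congrArg mk h4
    rw [mk_toWord, ← mul_mk, ← inv_mk, mul_inv_cancel] at h5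
    exact h5.symm
  unfold FreeGroup.norm
  rw [h1]
  by_cases hn : n = 0
  · simp [hn]
  · rw [if_neg hn]
    simp only [List.length_append, List.length_flatten, List.map_replicate, List.sum_replicate,
      smul_eq_mul]
    nlinarith [Nat.mul_le_mul_left n h2]

theorem fD_pow {g : FreeGroup ℕ} (hg : g ≠ 1) (x : FreeGroup ℕ) (n : ℕ) : (n : ℝ) ≤ fD x (g ^ n * x) := by
  have h1 : x⁻¹ * (g ^ n * x) = (x⁻¹ * g * x) ^ n := by
    have := conj_pow (i := n) (a := x⁻¹) (b := g)
    rw [inv_inv] at this
    rw [this, mul_assoc]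
  have h2 : x⁻¹ * g * x ≠ 1 := by
    intro h3
    apply hg
    have h4 : g = x * (x⁻¹ * g * x) * x⁻¹ := by group
    rw [h4, h3]
    group
  unfold fD
  rw [h1]
  exact_mod_cast t3_norm_pow h2 n

theorem free_tor {g : FreeGroup ℕ} {d : ℕ} (hd : 0 < d) (hg : g ^ d = 1) : g = 1 := by
  have h1 : g ^ d = 1 ^ d := by rw [hg, one_pow]
  exact IsMulTorsionFree.pow_left_injective hd.ne' h1

end Pool.Agent.helper50.BW
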