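import Pool.Agent.helper50.BW.T2
/-! ## BW-T4 two translations with a long common axis commute (tree; uses T2; 200 lines)
Exact betweenness: Btw fD 0.  Let L := fD x y, z with fD x z = i, fD z y = L - i (i integer).
(1) fD x (gx) ≤ B, fD y (gy) ≤ B, B < fD x z, B < fD z y: then g z is exactly between x and y: Gromov product at gz:
 0 = (gx|gy)_{gz} ≥ min((gx|x), (x|y), (y|gy)), (gx|x)_{gz} ≥ fD x z - B > 0, (y|gy)_{gz} ≥ fD z y - B > 0
 [fD_four twice].
(2) two points exactly between x,y with the same distance from x are equal (fD_four, fD_eq).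
(3) z, z' between x,y, fD x z ≤ fD x z' (so fD z z' = fD x z' - fD x z), both in the middle range: g z is between x and g z'
 ((gx|x)_{gz} > 0 and (gx|gz')_{gz} = 0), hence fD x (g z') - fD x (g z) = fD x z' - fD x z: the translation number
 a := fD x (gz) - fD x z is the same for all points of the middle range; |a| ≤ B.
(4) z middle point (i = ⌊L/2⌋): g (h z) and h (g z) are exactly between x,y at distance i + a + b from x. -/
namespace Pool.Agent.helper50.BW
open Sum

private theorem t4_nonneg (x y : FreeGroup ℕ) : 0 ≤ fD x y := by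
  have h1 := fD_tri x y x
  rw [fD_self, fD_symm y x] at h1
  linarith

/-- moving the first end point -/
private theorem t4_mv {u p v x : FreeGroup ℕ} (h : fD u p + fD p v ≤ fD u v) (hx : fD u x < fD u p) :
    fD x p + fD p v ≤ fD x v := by
  have h4 := fD_four p x u v
  have h0 := t4_nonneg p x
  have e1 := fD_symm p x
  have e2 := fD_symm p u
  have e3 := fD_symm x u
  rcases le_max_iff.1 h4 with h5 | h5
  · linarith
  · linarith

/-- moving both end points -/
private theorem t4_btw {B : ℝ} {g x y z : FreeGroup ℕ} (h1 : fD x (g * x) ≤ B) (h2 : fD y (g * y) ≤ B)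
    (hz : fD x z + fD z y ≤ fD x y) (hx : B < fD x z) (hy : B < fD z y) :
    fD x (g * z) + fD (g * z) y ≤ fD x y := by
  have e1 := fD_linv g x z
  have e2 := fD_linv g z y
  have e3 := fD_linv g x y
  have s1 := fD_symm (g * x) x
  have a1 : fD x (g * z) + fD (g * z) (g * y) ≤ fD x (g * y) :=
    t4_mv (u := g * x) (by linarith) (by linarith)
  have s2 := fD_symm x (g * z)
  have s3 := fD_symm (g * z) (g * y)
  have s4 := fD_symm x (g * y)
  have s5 := fD_symm (g * y) y
  have a2 : fD y (g * z) + fD (g * z) x ≤ fD y x :=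
    t4_mv (u := g * y) (by linarith) (by linarith)
  have s6 := fD_symm y (g * z)
  have s7 := fD_symm y x
  linarith

/-- distance of two points of a segment -/
private theorem t4_dist {x y z w : FreeGroup ℕ} (hz : fD x z + fD z y ≤ fD x y)
    (hw : fD x w + fD w y ≤ fD x y) (hzw : fD x z ≤ fD x w) : fD z w ≤ fD x w - fD x z := by
  have h4 := fD_four x y z w
  have s1 := fD_symm z y
  have s2 := fD_symm w y
  have t1 := fD_tri x z y
  have t2 := fD_tri x w y
  rcases le_max_iff.1 h4 with h5 | h5
  · linarith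
  · linarith

private theorem t4_uniq {x y z w : FreeGroup ℕ} (hz : fD x z + fD z y ≤ fD x y)
    (hw : fD x w + fD w y ≤ fD x y) (hzw : fD x z = fD x w) : z = w := by
  have h1 := t4_dist hz hw hzw.le
  exact fD_eq z w (le_antisymm (by linarith) (t4_nonneg z w))

/-- translation number is constant -/
private theorem t4_tr {B : ℝ} {g x y z w : FreeGroup ℕ} (h1 : fD x (g * x) ≤ B)
    (hz : fD x z + fD z y ≤ fD x y) (hw : fD x w + fD w y ≤ fD x y) (hzw : fD x z ≤ fD x w)
    (hx : B < fD x z) : fD x (g * w) = fD x (g * z) + (fD x w - fD x z) := by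
  have h2 := t4_dist hz hw hzw
  have t1 := fD_tri x z w
  have e1 := fD_linv g x z
  have e2 := fD_linv g z w
  have e3 := fD_linv g x w
  have s1 := fD_symm (g * x) x
  have a1 : fD x (g * z) + fD (g * z) (g * w) ≤ fD x (g * w) :=
    t4_mv (u := g * x) (by linarith) (by linarith)
  have t2 := fD_tri x (g * z) (g * w)
  linarith

private theorem t4_tr' {B : ℝ} {g x y z w : FreeGroup ℕ} (h1 : fD x (g * x) ≤ B)
    (hz : fD x z + fD z y ≤ fD x y) (hw : fD x w + fD w y ≤ fD x y)
    (hx : B < fD x z) (hx' : B < fD x w) :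
    fD x (g * w) = fD x (g * z) + (fD x w - fD x z) := by
  rcases le_total (fD x z) (fD x w) with h | h
  · exact t4_tr h1 hz hw h hx
  · have := t4_tr h1 hw hz h hx'
    linarith

private theorem t4_near {B : ℝ} {g x z : FreeGroup ℕ} (h1 : fD x (g * x) ≤ B) :
    |fD x (g * z) - fD x z| ≤ B := by
  have e1 := fD_linv g x z
  have t1 := fD_tri x (g * x) (g * z)
  have t2 := fD_tri (g * x) x (g * z)
  have s1 := fD_symm (g * x) x
  rw [abs_le]
  constructor <;> linarith

theorem fD_comm {B : ℝ} (hB : 0 ≤ B) {g h x y : FreeGroup ℕ} (h1 : fD x (g * x) ≤ B) (h2 : fD y (g * y) ≤ B)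
    (h3 : fD x (h * x) ≤ B) (h4 : fD y (h * y) ≤ B) (hxy : 10 * B + 10 ≤ fD x y) : g * h = h * g := by
  obtain ⟨z, hz1, hz2⟩ := fD_pt x y ⌊fD x y / 2⌋₊
    (by
      have := Nat.floor_le (a := fD x y / 2) (by linarith)
      linarith)
  have hk1 := Nat.floor_le (a := fD x y / 2) (by linarith)
  have hk2 := Nat.lt_floor_add_one (fD x y / 2)
  have bz : fD x z + fD z y ≤ fD x y := by linarith
  have xz : B < fD x z := by linarith
  have zy : B < fD z y := by linarith
  have ng := abs_le.1 (t4_near (z := z) h1)
  have nh := abs_le.1 (t4_near (z := z) h3)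
  have bg := t4_btw h1 h2 bz xz zy
  have bh := t4_btw h3 h4 bz xz zy
  have tg := fD_tri x (g * z) y
  have th := fD_tri x (h * z) y
  have xg : B < fD x (g * z) := by linarith
  have xh : B < fD x (h * z) := by linarith
  have gy : B < fD (g * z) y := by linarith
  have hy : B < fD (h * z) y := by linarith
  have bgh := t4_btw h1 h2 bh xh hy
  have bhg := t4_btw h3 h4 bg xg gy
  have r1 := t4_tr' h1 bz bh xz xh
  have r2 := t4_tr' h3 bz bg xz xg
  have e := t4_uniq bgh bhg (by linarith)
  have e' : (g * h) * z = (h * g) * z := by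
    rw [mul_assoc, mul_assoc]; exact e
  exact mul_right_cancel e'

end Pool.Agent.helper50.BW
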