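import Pool.Agent.helper50.BW.Algo
import Pool.Agent.helper50.BW.T1
import Pool.Agent.helper50.BW.T3
import Pool.Agent.helper50.BW.T4
import Pool.Agent.helper50.BW.T5
/-! ## BW-T6 the tower (uses T1-T5)
base: L0 := (FreeGroup ℕ, id, fD); next: full_exists, exists_quot, next_stg; sequence by Nat.rec and choice. -/
namespace Pool.Agent.helper50.BW
open Sum

theorem exists_base {d : ℕ} (hd : 0 < d) : ∃ L : Lvl d, Function.Injective L.π ∧
    ∀ x y, L.D (L.π x) (L.π y) = fD x y := by
  have hstg : Stg fD d ctau ce cA cT' cDs := by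
    refine ⟨fD_hyp, fD_linv, ?_, ?_, ?_⟩
    · intro g
      by_cases hg : g = 1
      · left; rw [hg, one_pow]
      · right
        intro x n
        have h1 := fD_pow hg x n
        have h2 := mul_le_mul_of_nonneg_left ctau_le (Nat.cast_nonneg (α := ℝ) n)
        rw [mul_one] at h2
        exact h2.trans h1
    · intro g x y hg _ _ _
      exact free_tor hd hg
    · intro g h x y _ _ h1 h2 h3 h4 h5
      refine fD_comm (B := cT') (by norm_num) h1 h2 h3 h4 (le_trans ?_ h5)
      norm_num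
  let L0 : Lvl d :=
    { G := FreeGroup ℕ
      π := MonoidHom.id _
      surj := Function.surjective_id
      D := fD
      stg := hstg }
  exact ⟨L0, Function.injective_id, fun x y => rfl⟩

theorem exists_next {d : ℕ} (hd : Odd d) (hbig : 10000 * ck0 ≤ d * ctau) (L : Lvl d) :
    ∃ L' : Lvl d, IsNext L L' := by
  obtain ⟨C, iC, S, U, hF⟩ := full_exists L.stg hd hbig
  obtain ⟨H, iH, q, D', hq, hker, hD'⟩ := exists_quot hF
  let L1 : Lvl d :=
    { G := H
      grp := iH
      π := q.comp L.π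
      surj := hq.comp L.surj
      D := D'
      stg := next_stg hF q hq hker hD' }
  exact ⟨L1, C, iC, S, U, q, hF, hker, hq, rfl, hD'⟩

theorem tower {d : ℕ} (hd : Odd d) (hbig : 10000 * ck0 ≤ d * ctau) :
    ∃ L : ℕ → Lvl d, Function.Injective (L 0).π ∧ (∀ x y, (L 0).D ((L 0).π x) ((L 0).π y) = fD x y) ∧
      ∀ j, IsNext (L j) (L (j + 1)) := by
  obtain ⟨L0, h0, h1⟩ := exists_base hd.pos
  choose nx hnx using exists_next hd hbig
  exact ⟨fun j => Nat.rec L0 (fun _ L => nx L) j, h0, h1, fun j => hnx _⟩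

theorem tower_dist {d : ℕ} {L : ℕ → Lvl d} (h0 : ∀ x y, (L 0).D ((L 0).π x) ((L 0).π y) = fD x y)
    (hn : ∀ j, IsNext (L j) (L (j + 1))) (j : ℕ) (x y : FreeGroup ℕ) :
    (L j).D ((L j).π x) ((L j).π y) ≤ clam ^ j * fD x y := by
  induction j with
  | zero => rw [pow_zero, one_mul]; exact (h0 x y).le
  | succ j ih =>
    obtain ⟨C, iC, S, U, q, hF, hker, hq, hπ, hD⟩ := hn j
    have hcl : (0 : ℝ) ≤ clam := by norm_num
    have h1 : db S cs d ((L j).π x) ((L j).π y) ≤ clam ^ j * fD x y :=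
      ((db_le hF.ctx _ _).trans (dd_le hF.ctx.hyp S (by norm_num) _ _)).trans ih
    have e1 : ∀ z, (L (j + 1)).π z = q ((L j).π z) := fun z => by rw [hπ]; rfl
    rw [e1, e1, hD, pow_succ]
    have h2 := mul_le_mul_of_nonneg_left h1 hcl
    calc clam * db S cs d ((L j).π x) ((L j).π y) ≤ clam * (clam ^ j * fD x y) := h2
      _ = clam ^ j * clam * fD x y := by ring

theorem tower_ker {d : ℕ} {L : ℕ → Lvl d} (h0 : Function.Injective (L 0).π)
    (hn : ∀ j, IsNext (L j) (L (j + 1))) (j : ℕ) : (L j).π.ker ≤ Fd d := by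
  induction j with
  | zero =>
    rw [(MonoidHom.ker_eq_bot_iff _).2 h0]
    exact bot_le
  | succ j ih =>
    obtain ⟨C, iC, S, U, q, hF, hker, hq, hπ, hD⟩ := hn j
    intro g hg
    have h1 : (L j).π g ∈ NN S d := by
      rw [← hker, MonoidHom.mem_ker]
      have h2 : (L (j + 1)).π g = q ((L j).π g) := by rw [hπ]; rfl
      rw [← h2]
      exact hg
    have h2 : NN S d ≤ (Fd d).map (L j).π := by
      unfold NN
      rw [Subgroup.closure_le]
      rintro _ ⟨c, rfl⟩
      obtain ⟨h, hh⟩ := (L j).surj (S.gen c)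
      refine ⟨h ^ d, Subgroup.subset_closure ⟨h, rfl⟩, ?_⟩
      rw [map_pow, hh]
    obtain ⟨f, hf, hfe⟩ := h2 h1
    have h3 : g * f⁻¹ ∈ (L j).π.ker := by
      rw [MonoidHom.mem_ker, map_mul, map_inv, hfe, mul_inv_cancel]
    have h4 := Subgroup.mul_mem _ (ih h3) hf
    rwa [inv_mul_cancel_right] at h4

theorem T6_ker_mono {d : ℕ} {L : ℕ → Lvl d} (hn : ∀ j, IsNext (L j) (L (j + 1))) {i j : ℕ}
    (hij : i ≤ j) : (L i).π.ker ≤ (L j).π.ker := by
  induction hij with
  | refl => exact le_rfl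
  | step hij ih =>
    refine ih.trans ?_
    intro g hg
    obtain ⟨C, iC, S, U, q, hF, hker, hq, hπ, hD⟩ := hn _
    rw [MonoidHom.mem_ker] at hg ⊢
    rw [hπ, MonoidHom.comp_apply, hg, map_one]

theorem tower_exh {d : ℕ} {L : ℕ → Lvl d} (h0 : ∀ x y, (L 0).D ((L 0).π x) ((L 0).π y) = fD x y)
    (hn : ∀ j, IsNext (L j) (L (j + 1))) {g : FreeGroup ℕ} (hg : g ∈ Fd d) : ∃ j, g ∈ (L j).π.ker := by
  unfold Fd at hg
  induction hg using Subgroup.closure_induction with
  | mem x hx =>
    obtain ⟨g, rfl⟩ := hx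
    by_contra hcon
    push Not at hcon
    have key : ∀ j, ctau ≤ clam ^ j * fD 1 g := by
      intro j
      rcases (L j).stg.ti ((L j).π g) with h | h
      · exfalso
        apply hcon j
        rw [MonoidHom.mem_ker, map_pow, h]
      · have h1 := h 1 1
        have h2 := tower_dist h0 hn j 1 g
        rw [map_one] at h2
        rw [pow_one, mul_one, Nat.cast_one, one_mul] at h1
        exact h1.trans h2
    have hlim : Filter.Tendsto (fun j : ℕ => clam ^ j * fD 1 g) Filter.atTop (nhds (0 * fD 1 g)) :=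
      (tendsto_pow_atTop_nhds_zero_of_lt_one (by norm_num) (by norm_num)).mul_const _
    rw [zero_mul] at hlim
    have h3 := ge_of_tendsto' hlim key
    have h4 := ctau_pos
    linarith
  | one => exact ⟨0, Subgroup.one_mem _⟩
  | mul x y _ _ hx hy =>
    obtain ⟨i, hi⟩ := hx
    obtain ⟨j, hj⟩ := hy
    exact ⟨max i j, Subgroup.mul_mem _ (T6_ker_mono hn (le_max_left i j) hi)
      (T6_ker_mono hn (le_max_right i j) hj)⟩
  | inv x _ hx =>
    obtain ⟨i, hi⟩ := hx
    exact ⟨i, Subgroup.inv_mem _ hi⟩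

end Pool.Agent.helper50.BW
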