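import Pool.Agent.helper50.BW.F4
/-! ## BW-F6 coarse and exact additivity at cones (uses AL, F1, F2)
coarse: T := U c y - U c x, |T| ≥ 2κu + K, so |u_c x - u_c y| ≥ K.  z := projection of x to c (exists_proj):
 D x z ≤ r_c x + 3K, D z y ≤ r_c y + |u_c x - u_c y| + 3K, lower for D x y: Btw (7K) x z y; AL; ec ≤ dd + s/2.
exact: suppose dd x y < ec x c + ec y c; walk v,k from exists_walk with cost t < ec x c + ec y c, NoDD.
 (0) no jump is along c (otherwise t ≥ dd x v_i + s + dd v_{i+1} y ≥ ec x c + ec y c).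
 (1) for i ≤ j ≤ N: wc i j < ec v_i + ec v_j  (ec x ≤ wc 0 i + ec v_i, ec y ≤ ec v_j + wc j N).
 (2) one step changes U c by ≤ W := s + 7K + 2κu + Δ: ordinary: D < ec+ec ≤ r_c + r_c + 6K + s, if |Δu_c| ≥ K then
     lower gives |Δu_c| ≤ s + 7K; jump along b ≠ c: sep.
 (3) κ5 := 2κu+K.  i := first index with |U c v_i - U c x| ≥ κ5; then |U c v_i - U c x| < κ5 + W, so
     |U c y - U c v_i| ≥ κ5 and coarse (twice): ec x + 2 ec v_i + ec y ≤ dd x v_i + dd v_i y + 12 s ≤ t + 12 s, so
     ec v_i < 6s.  j := last index with |U c y - U c v_j| ≥ κ5 (j ≥ i); the same: ec v_j < 6s,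
     |U c y - U c v_j| < κ5 + W.
 (4) wc i j < 12 s, count: j - i ≤ 25; |U c y - U c x| < 2(κ5 + W) + 25 W.  Contradiction. -/
namespace Pool.Agent.helper50.BW
open Sum
variable {G : Type} [Group G] {D : G → G → ℝ} {C : Type} [MulAction G C] {K Δ τ T : ℝ}

theorem coarse_add (h : Hyp D) (S : CSys D C K Δ τ T) {κ₁ κu : ℝ} {U : C → G ⊕ C → ℝ}
    (hP : Proj S κ₁ κu U) (hK : 100 ≤ K) (hu : 0 ≤ κu) {s : ℝ} (hs : 1000 * K ≤ s) {c : C} {x y : G}
    (hxy : 2 * κu + K ≤ |U c (inl y) - U c (inl x)|) :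
    ec S s x c + ec S s y c ≤ dd S s x y + 6 * s := by
  have hs0 : 0 ≤ s := by linarith
  have hcx := abs_le.mp (hP.close c x)
  have hcy := abs_le.mp (hP.close c y)
  have hu1 : K ≤ |S.u c x - S.u c y| := by
    rcases abs_cases (U c (inl y) - U c (inl x)) with ⟨e1, _⟩ | ⟨e1, _⟩ <;> rw [e1] at hxy
    · rw [abs_sub_comm]
      refine le_trans ?_ (le_abs_self _)
      linarith [hcx.1, hcx.2, hcy.1, hcy.2]
    · refine le_trans ?_ (le_abs_self _)
      linarith [hcx.1, hcx.2, hcy.1, hcy.2]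
  obtain ⟨z, hz1, hz2, hz3⟩ := exists_proj S c x
  have hup := S.upper c z y
  have hlo := S.lower c x y hu1
  have habs : |S.u c z - S.u c y| ≤ |S.u c x - S.u c y| + K := by
    have := abs_sub_le (S.u c z) (S.u c x) (S.u c y)
    linarith
  have hbtw : Btw D (7 * K) x z y := by
    unfold Btw
    linarith
  have hal := AL h S hK hs (κ := 7 * K) (by linarith) (by linarith) hbtw
  have h1 := ec_le_of h S hs0 (x := x) hz1
  have h2 := ec_le_of h S hs0 (x := y) hz1
  rw [dd_symm h S hs0 y z] at h2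
  linarith

/-- telescoping of the one step bound -/
theorem f6_tel {a : ℕ → ℝ} {N : ℕ} {W : ℝ} (hst : ∀ l < N, |a (l + 1) - a l| ≤ W) (i n : ℕ)
    (hn : i + n ≤ N) : |a (i + n) - a i| ≤ n * W := by
  induction n with
  | zero => simp
  | succ n ih =>
    have h1 := ih (by omega)
    have h2 := hst (i + n) (by omega)
    have h3 := abs_sub_le (a (i + (n + 1))) (a (i + n)) (a i)
    have e : i + (n + 1) = i + n + 1 := by ring
    rw [e] at h3 ⊢
    push_cast
    linarith

theorem exact_add (h : Hyp D) (S : CSys D C K Δ τ T) {κ₁ κu : ℝ} {U : C → G ⊕ C → ℝ}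
    (hP : Proj S κ₁ κu U) (hK : 100 ≤ K) (hΔ : 0 ≤ Δ) (hu : 0 ≤ κu) {s : ℝ} (hs : 1000 * K ≤ s) {c : C}
    {x y : G} (hxy : 30 * s + 30 * Δ + 70 * κu + 200 * K ≤ |U c (inl y) - U c (inl x)|) :
    dd S s x y = ec S s x c + ec S s y c := by
  have hs0 : 0 ≤ s := by linarith
  have hspos : 0 < s := by linarith
  apply le_antisymm (dd_le_ec h S hs0 x y c)
  by_contra hcon
  rw [not_le] at hcon
  obtain ⟨N, v, k, hv0, hvN, hw, ht, hn, -⟩ := exists_walk h S hspos hcon
  -- (0) no jump along c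
  have hnoc : ∀ i < N, k i ≠ some c := by
    intro i hi hki
    have hok := hw i hi c hki
    have e1 := ec_le_of h S hs0 (x := v 0) hok.1
    have e2 := ec_le_of h S hs0 (x := v N) hok.2
    have e3 := dd_le_wc h S hs0 hw (Nat.zero_le i) hi.le
    have e4 := dd_le_wc h S hs0 hw (i := i + 1) (j := N) hi le_rfl
    have e5 := wc_add S s v k (Nat.zero_le i) hi.le
    have e6 := wc_add S s v k (Nat.le_succ i) hi
    have e7 : wc S s v k i (i + 1) = s := by
      simp [wc, stp, hki]
    rw [dd_symm h S hs0 (v N)] at e2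
    rw [hv0] at e1 e3
    rw [hvN] at e2 e4
    simp only [Nat.succ_eq_add_one] at e6
    linarith
  -- (1)
  have hwc : ∀ i j, i ≤ j → j ≤ N → wc S s v k i j < ec S s (v i) c + ec S s (v j) c := by
    intro i j hij hj
    have e1 := ec_lip h S hs0 (v 0) (v i) c
    have e2 := ec_lip h S hs0 (v N) (v j) c
    have e3 := dd_le_wc h S hs0 hw (Nat.zero_le i) (hij.trans hj)
    have e4 := dd_le_wc h S hs0 hw hj le_rfl
    have e5 := wc_add S s v k (Nat.zero_le i) (hij.trans hj)
    have e6 := wc_add S s v k hij hj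
    rw [dd_symm h S hs0 (v N)] at e2
    rw [hv0] at e1 e3
    rw [hvN] at e2 e4
    linarith
  -- positions
  set a : ℕ → ℝ := fun i => U c (inl (v i)) with ha
  have hau : ∀ i, |a i - S.u c (v i)| ≤ κu := fun i => hP.close c (v i)
  -- (2)
  set W : ℝ := s + 7 * K + 2 * κu + Δ with hW
  have hst : ∀ l < N, |a (l + 1) - a l| ≤ W := by
    intro l hl
    have c1 := abs_le.mp (hau l)
    have c2 := abs_le.mp (hau (l + 1))
    have hud : |S.u c (v l) - S.u c (v (l + 1))| ≤ s + 7 * K + Δ := by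
      rcases hk : k l with _ | b
      · by_cases hb : K ≤ |S.u c (v l) - S.u c (v (l + 1))|
        · have hlo := S.lower c (v l) (v (l + 1)) hb
          have e1 := hwc l (l + 1) (Nat.le_succ l) hl
          have e7 : wc S s v k l (l + 1) = D (v l) (v (l + 1)) := by
            simp [wc, stp, hk]
          have e2 := ec_le h S hs0 (v l) c
          have e3 := ec_le h S hs0 (v (l + 1)) c
          rw [e7] at e1
          linarith
        · rw [not_le] at hb
          linarith
      · have hbc : b ≠ c := fun e => hnoc l hl (by rw [hk, e])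
        have hok := hw l hl b hk
        have := S.sep b c (v l) (v (l + 1)) hbc hok.1 hok.2
        linarith
    have hud' := abs_le.mp hud
    rw [abs_le]
    constructor <;> linarith [c1.1, c1.2, c2.1, c2.2, hud'.1, hud'.2]
  -- (3)
  have hbig : 30 * s + 30 * Δ + 70 * κu + 200 * K ≤ |a N - a 0| := by
    simp only [ha]
    rw [hv0, hvN]
    exact hxy
  have hmid : ∀ i ≤ N, 2 * κu + K ≤ |a i - a 0| → 2 * κu + K ≤ |a N - a i| →
      ec S s (v i) c < 6 * s := by
    intro i hi h1 h2
    have e1 := coarse_add h S hP hK hu hs (c := c) (x := v 0) (y := v i) h1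
    have e2 := coarse_add h S hP hK hu hs (c := c) (x := v i) (y := v N) h2
    have e3 := dd_le_wc h S hs0 hw (Nat.zero_le i) hi
    have e4 := dd_le_wc h S hs0 hw hi le_rfl
    have e5 := wc_add S s v k (Nat.zero_le i) hi
    rw [hv0] at e1 e3
    rw [hvN] at e2 e4
    linarith
  have hexi : ∃ i, 2 * κu + K ≤ |a i - a 0| := ⟨N, by linarith⟩
  classical
  obtain ⟨i, hi1, hi2, hi3⟩ : ∃ i, i ≤ N ∧ 2 * κu + K ≤ |a i - a 0|
      ∧ |a i - a 0| ≤ 2 * κu + K + W := by
    refine ⟨Nat.find hexi, Nat.find_min' hexi (by linarith), Nat.find_spec hexi, ?_⟩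
    have hpos : Nat.find hexi ≠ 0 := by
      intro h0
      have := Nat.find_spec hexi
      rw [h0, sub_self, abs_zero] at this
      linarith
    obtain ⟨m, hm⟩ := Nat.exists_eq_succ_of_ne_zero hpos
    have h1 := Nat.find_min hexi (m := m) (by omega)
    rw [not_le] at h1
    have h2 : m < N := by
      have := Nat.find_min' hexi (m := N) (by linarith)
      omega
    have h3 := hst m h2
    have h4 := abs_sub_le (a (m + 1)) (a m) (a 0)
    rw [hm]
    simp only [Nat.succ_eq_add_one]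
    linarith
  have hexj : ∃ m, 2 * κu + K ≤ |a N - a (N - m)| := ⟨N, by rw [Nat.sub_self]; linarith⟩
  have hNi : 2 * κu + K ≤ |a N - a i| := by
    have := abs_sub_le (a N) (a i) (a 0)
    linarith
  obtain ⟨j, hij, hj1, hj2, hj3⟩ : ∃ j, i ≤ j ∧ j ≤ N ∧ 2 * κu + K ≤ |a N - a j|
      ∧ |a N - a j| ≤ 2 * κu + K + W := by
    have hmi : Nat.find hexj ≤ N - i := by
      apply Nat.find_min' hexj
      have : N - (N - i) = i := by omega
      rw [this]
      exact hNi
    refine ⟨N - Nat.find hexj, by omega, by omega, Nat.find_spec hexj, ?_⟩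
    have hpos : Nat.find hexj ≠ 0 := by
      intro h0
      have := Nat.find_spec hexj
      rw [h0, Nat.sub_zero, sub_self, abs_zero] at this
      linarith
    obtain ⟨m, hm⟩ := Nat.exists_eq_succ_of_ne_zero hpos
    have h1 := Nat.find_min hexj (m := m) (by omega)
    rw [not_le] at h1
    have h5 : N - m = N - Nat.find hexj + 1 := by omega
    rw [h5] at h1
    have h3 := hst (N - Nat.find hexj) (by omega)
    have h4 := abs_sub_le (a N) (a (N - Nat.find hexj + 1)) (a (N - Nat.find hexj))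
    linarith
  have hj0 : 2 * κu + K ≤ |a j - a 0| := by
    have := abs_sub_le (a N) (a j) (a 0)
    linarith
  have hei := hmid i hi1 hi2 hNi
  have hej := hmid j hj1 hj0 hj2
  -- (4)
  have e1 := hwc i j hij hj1
  have e2 := count h S hspos (v := v) hn hij hj1
  have e3 : ((j : ℝ) - i) ≤ 25 := by
    by_contra hc
    rw [not_le] at hc
    have : 25 * s ≤ ((j : ℝ) - i) * s := by
      apply mul_le_mul_of_nonneg_right hc.le hs0
    linarith
  have e4 : |a j - a i| ≤ 25 * W := by
    obtain ⟨n, rfl⟩ := Nat.exists_eq_add_of_le hij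
    have h1 := f6_tel hst i n hj1
    have h2 : (n : ℝ) ≤ 25 := by
      push_cast at e3
      linarith
    have hW0 : 0 ≤ W := by
      rw [hW]
      linarith
    have h3 : (n : ℝ) * W ≤ 25 * W := mul_le_mul_of_nonneg_right h2 hW0
    linarith
  have e5 := abs_sub_le (a N) (a j) (a 0)
  have e6 := abs_sub_le (a j) (a i) (a 0)
  linarith

end Pool.Agent.helper50.BW
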