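import Pool.Agent.helper50.BW.Q1
/-! ## BW-Q6 crossing calculus (uses Q1; 300 lines)
glue: b ≠ c.  If |U b c - U b x| ≥ κ₁ then U c x = U c b; if |U b c - U b y| ≥ κ₁ then U c y = U c b; not both
(U c x ≠ U c y).  So |U b y - U b x| ≤ a Θ + κ₁ ≤ (a + 1/64) Θ.  b = c: hypothesis.
split: b ≠ c.  If |U b c - U b x| ≥ κ₁ then U c x = U c b, so |U c y - U c b| ≥ κ₁, exact: U b y = U b c and
|U b c - U b x| = |U b y - U b x|.  Otherwise ≤ κ₁ ≤ (1/64) Θ.
wd: induction on Red S U d (2κ₁) x n.  step n = gen b^{ed} n'.  b = c: U c (n x) = U c (n' x) + e d ell c (rot) and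
 Adm (n' x, c) (Adm.smul with gen c^{-ed}, which fixes c).  b ≠ c: Θ_b - 2κ₁ ≤ e(U b (nx) - U b c) + e(U b c - U b x),
 both ≤ 7/8 Θ_b, so both ≥ κ₁: U c (nx) = U c b = U c x (exact), k = 0.
transfer0: induction on Red S U d (2κ₁) x n (for all c).  n = 1: m = 1.  step n = gen b^{ed} n', Θ := d ell b:
 e(U b (nx) - U b x) ≥ Θ - 2κ₁, |U b (ny) - U b (nx)| ≤ 27/32 Θ (smul), so Tb := e(U b (ny) - U b x) ≥ 5/32 Θ - 2κ₁; Tb ≤ 7/8 Θ.
 y' := n' y = gen b^{-ed} n y: e(U b y' - U b x) = Tb - Θ ∈ [-27/32 Θ - 2κ₁, -Θ/8].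
 Adm 7/8 (x, y'): for b clear.  f ≠ b: if |U f b - U f x| ≥ κ₁: U b x = U b f, so |U b y' - U b f| ≥ κ₁ and
 |U b (ny) - U b f| ≥ κ₁, so U f y' = U f b = U f (ny): crossing unchanged.  If |U f b - U f x| < κ₁: f' := gen b^{ed} • f,
 U f y' - U f b = U f' (ny) - U f' b (smul; b fixed).  If its absolute value is ≥ κ₁ then (exact for f', b, X = ny)
 U b (ny) = U b f', |U b x - U b f'| ≥ κ₁, U f' x = U f' b, so it equals the crossing of f' on (x,ny), ≤ 7/8 Θ_f';
 and (exact for f, b, X = y') U b y' = U b f, U f x = U f b.  Otherwise the crossing is < 2κ₁.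
 The cone: c = b: U c y' - U c x = U c (ny) - U c x - eΘ (k changes by one; the absolute value is ≥ Θ/8 ≥ 2κ₁),
 continue with c.  c ≠ b: Proj.dich for x, ny: b before c [U b (ny) = U b c, U c x = U c b]: c1 := gen b^{-ed} • c:
 U b (inr c1) - U b x = Tb e - eΘ in absolute value ≥ κ₁, so U c1 x = U c1 b; U c1 y' - U c1 b = U c (ny) - U c b =
 U c (ny) - U c x.  Continue with c1 = m' • c.  c before b [U c (ny) = U c b, U b x = U b c]: |U b y' - U b c| ≥ κ₁, so U c y' = U c b:
 continue with c. -/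
namespace Pool.Agent.helper50.BW
open Sum
variable {G : Type} [Group G] {D : G → G → ℝ} {C : Type} [MulAction G C] {K Δ τ T : ℝ}
  {S : CSys D C K Δ τ T} {U : C → G ⊕ C → ℝ} {s κ₁ κu κ₀ : ℝ} {d : ℕ}

/-- rotation of points by a power of the relator -/
theorem Ctx.q6_rotp (hC : Ctx S U s κ₁ κu κ₀ d) (b : C) (e : ℤ) (x : G) :
    U b (inl (S.gen b ^ (e * (d : ℤ)) * x)) = U b (inl x) + e * (d * S.ell b) := by
  have h := hC.proj.rot b (inl x) (e * (d : ℤ)) (by simp)
  rw [Sum.smul_inl, smul_eq_mul] at h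
  rw [h]
  push_cast
  ring

theorem Ctx.q6_k1 (hC : Ctx S U s κ₁ κu κ₀ d) (c : C) : 1000 * κ₁ + 1000 ≤ d * S.ell c := by
  have h := hC.ell_big c
  have h0 := hC.h0
  have h1 := hC.h1
  have hs := hC.hs
  have hK := hC.hK
  have hu := hC.hu
  have hΔ := hC.hΔ
  linarith

omit [Group G] [MulAction G C] in
theorem q6_inr_ne {b c : C} (h : b ≠ c) : (inr c : G ⊕ C) ≠ inr b := fun e => h (Sum.inr_injective e).symm

theorem glue (hC : Ctx S U s κ₁ κu κ₀ d) {a : ℝ} {c : C} {x y : G} (hx : Adm S U d a (inl x) (inr c))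
    (hy : Adm S U d a (inl y) (inr c)) (hne : U c (inl x) ≠ U c (inl y))
    (hc : |U c (inl y) - U c (inl x)| ≤ a * (d * S.ell c)) :
    Adm S U d (a + 1 / 64) (inl x) (inl y) := by
  intro b _ _
  have hk := hC.q6_k1 b
  have h1 := hC.h1
  by_cases hbc : b = c
  · subst hbc
    linarith
  · have e1 := hx b (by simp) (q6_inr_ne hbc)
    have e2 := hy b (by simp) (q6_inr_ne hbc)
    by_cases hX : κ₁ ≤ |U b (inl x) - U b (inr c)|
    · have f1 := hC.proj.exact b c (inl x) hbc (by simp) (by simp) hX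
      have hY : ¬ κ₁ ≤ |U b (inl y) - U b (inr c)| := by
        intro hY
        have f2 := hC.proj.exact b c (inl y) hbc (by simp) (by simp) hY
        exact hne (f1.trans f2.symm)
      have := abs_sub_le (U b (inl y)) (U b (inr c)) (U b (inl x))
      linarith
    · have := abs_sub_le (U b (inl y)) (U b (inr c)) (U b (inl x))
      rw [abs_sub_comm (U b (inr c)) (U b (inl y))] at e2
      rw [abs_sub_comm (U b (inl x)) (U b (inr c))] at hX
      linarith

theorem split (hC : Ctx S U s κ₁ κu κ₀ d) {a : ℝ} (ha : 0 ≤ a) {c : C} {x y : G}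
    (hxy : Adm S U d a (inl x) (inl y)) (hc : κ₁ ≤ |U c (inl y) - U c (inl x)|) :
    Adm S U d (a + 1 / 64) (inl x) (inr c) := by
  intro b _ hcb
  have hbc : b ≠ c := fun h => hcb (by rw [h])
  have hk := hC.q6_k1 b
  have h1 := hC.h1
  have hpos : 0 ≤ a * (d * S.ell b) := mul_nonneg ha (by linarith)
  by_cases hX : κ₁ ≤ |U b (inl x) - U b (inr c)|
  · have f1 := hC.proj.exact b c (inl x) hbc (by simp) (by simp) hX
    have f2 : U b (inl y) = U b (inr c) := by
      apply hC.proj.exact c b (inl y) (Ne.symm hbc) (by simp) (by simp)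
      rw [← f1]; exact hc
    have := hxy b (by simp) (by simp)
    rw [f2] at this
    linarith
  · rw [abs_sub_comm] at hX
    linarith

theorem Adm.q6_unrot (hC : Ctx S U s κ₁ κu κ₀ d) {a : ℝ} {c : C} {z : G} (e : ℤ)
    (h : Adm S U d a (inl (S.gen c ^ (e * (d : ℤ)) * z)) (inr c)) : Adm S U d a (inl z) (inr c) := by
  have h2 := Adm.smul hC (S.gen c ^ (-(e * (d : ℤ)))) h
  rw [Sum.smul_inl, Sum.smul_inr, S.gen_zpow_smul, smul_eq_mul, ← mul_assoc, ← zpow_add,
    neg_add_cancel, zpow_zero, one_mul] at h2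
  exact h2

theorem q6_wd_aux (hC : Ctx S U s κ₁ κu κ₀ d) {c : C} {x n : G} (hR : Red S U d (2 * κ₁) x n)
    (hx : Adm S U d (7 / 8) (inl x) (inr c)) :
    Adm S U d (7 / 8) (inl (n * x)) (inr c) →
    ∃ k : ℤ, U c (inl (n * x)) - U c (inl x) = k * (d * S.ell c) := by
  induction hR with
  | one =>
    intro _
    exact ⟨0, by simp⟩
  | step b e n' he hR' hst ih =>
    intro hnx
    have hk := hC.q6_k1 b
    have h1 := hC.h1
    by_cases hbc : b = c
    · subst hbc
      rw [mul_assoc] at hnx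
      obtain ⟨k, hk'⟩ := ih (Adm.q6_unrot hC e hnx)
      refine ⟨k + e, ?_⟩
      rw [mul_assoc, hC.q6_rotp]
      push_cast
      linarith
    · have a1 := hx b (by simp) (q6_inr_ne hbc)
      have a2 := hnx b (by simp) (q6_inr_ne hbc)
      have key : (d * S.ell b) - 2 * κ₁ ≤
          |U b (inl (S.gen b ^ (e * (d : ℤ)) * n' * x)) - U b (inl x)| := by
        refine hst.trans ?_
        rw [← S6_abs he]
        exact le_abs_self _
      have t1 := abs_sub_le (U b (inl (S.gen b ^ (e * (d : ℤ)) * n' * x))) (U b (inr c)) (U b (inl x))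
      have f1 : U c (inl (S.gen b ^ (e * (d : ℤ)) * n' * x)) = U c (inr b) := by
        apply hC.proj.exact b c _ hbc (by simp) (by simp)
        linarith
      have f2 : U c (inl x) = U c (inr b) := by
        apply hC.proj.exact b c _ hbc (by simp) (by simp)
        rw [abs_sub_comm] at a2
        rw [abs_sub_comm]
        linarith
      exact ⟨0, by rw [f1, f2]; simp⟩

theorem wd (hC : Ctx S U s κ₁ κu κ₀ d) {c : C} {x n : G} (hn : n ∈ NN S d)
    (hx : Adm S U d (7 / 8) (inl x) (inr c)) (hnx : Adm S U d (7 / 8) (inl (n * x)) (inr c)) :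
    ∃ k : ℤ, U c (inl (n * x)) - U c (inl x) = k * (d * S.ell c) :=
  q6_wd_aux hC (hC.gl x hn) hx hnx

/-- data of a reduction step seen from `y`: bounds for the crossing of `b` before and after the rotation -/
theorem q6_step_data (hC : Ctx S U s κ₁ κu κ₀ d) {b : C} {e : ℤ} {x y n' : G} (he : e = 1 ∨ e = -1)
    (hst : d * S.ell b - 2 * κ₁ ≤ e * (U b (inl (S.gen b ^ (e * (d : ℤ)) * n' * x)) - U b (inl x)))
    (hxy : Adm S U d (27 / 32) (inl x) (inl y))
    (hxny : Adm S U d (7 / 8) (inl x) (inl (S.gen b ^ (e * (d : ℤ)) * n' * y))) :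
    5 / 32 * (d * S.ell b) - 2 * κ₁ ≤ |U b (inl (S.gen b ^ (e * (d : ℤ)) * n' * y)) - U b (inl x)| ∧
    (d * S.ell b) / 8 ≤ |U b (inl (n' * y)) - U b (inl x)| ∧
    |U b (inl (n' * y)) - U b (inl x)| ≤ 27 / 32 * (d * S.ell b) + 2 * κ₁ := by
  have hk := hC.q6_k1 b
  have h1 := hC.h1
  have a1 : |U b (inl (S.gen b ^ (e * (d : ℤ)) * n' * y)) - U b (inl (S.gen b ^ (e * (d : ℤ)) * n' * x))| ≤
      27 / 32 * (d * S.ell b) := by
    have := Adm.smul hC (S.gen b ^ (e * (d : ℤ)) * n') hxy b (by simp) (by simp)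
    simpa using this
  have a2 := hxny b (by simp) (by simp)
  have a3 : U b (inl (S.gen b ^ (e * (d : ℤ)) * n' * y)) = U b (inl (n' * y)) + e * (d * S.ell b) := by
    rw [mul_assoc, hC.q6_rotp]
  have b1 := abs_le.1 a1
  have b2 := abs_le.1 a2
  rw [a3] at b1 b2 ⊢
  rcases he with rfl | rfl
  · push_cast at *
    refine ⟨?_, ?_, ?_⟩
    · refine le_trans ?_ (le_abs_self _)
      linarith
    · refine le_trans ?_ (neg_le_abs _)
      linarith
    · rw [abs_le]
      constructor <;> linarith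
  · push_cast at *
    refine ⟨?_, ?_, ?_⟩
    · refine le_trans ?_ (neg_le_abs _)
      linarith
    · refine le_trans ?_ (le_abs_self _)
      linarith
    · rw [abs_le]
      constructor <;> linarith

theorem q6_step_adm (hC : Ctx S U s κ₁ κu κ₀ d) {b : C} {e : ℤ} {x y n' : G} (he : e = 1 ∨ e = -1)
    (hst : d * S.ell b - 2 * κ₁ ≤ e * (U b (inl (S.gen b ^ (e * (d : ℤ)) * n' * x)) - U b (inl x)))
    (hxy : Adm S U d (27 / 32) (inl x) (inl y))
    (hxny : Adm S U d (7 / 8) (inl x) (inl (S.gen b ^ (e * (d : ℤ)) * n' * y))) :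
    Adm S U d (7 / 8) (inl x) (inl (n' * y)) := by
  obtain ⟨d1, d2, d3⟩ := q6_step_data hC he hst hxy hxny
  intro f _ _
  have hk := hC.q6_k1 b
  have hkf := hC.q6_k1 f
  have h1 := hC.h1
  by_cases hfb : f = b
  · subst hfb
    linarith
  have hx := hxny f (by simp) (by simp)
  by_cases hX : κ₁ ≤ |U f (inl x) - U f (inr b)|
  · have e1 : U b (inl x) = U b (inr f) := hC.proj.exact f b _ hfb (by simp) (by simp) hX
    have e2 : U f (inl (n' * y)) = U f (inr b) := by
      apply hC.proj.exact b f _ (Ne.symm hfb) (by simp) (by simp)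
      rw [← e1]; linarith
    have e3 : U f (inl (S.gen b ^ (e * (d : ℤ)) * n' * y)) = U f (inr b) := by
      apply hC.proj.exact b f _ (Ne.symm hfb) (by simp) (by simp)
      rw [← e1]; linarith
    rw [e2]
    rw [e3] at hx
    exact hx
  · rw [not_le] at hX
    set g : G := S.gen b ^ (e * (d : ℤ)) with hg
    have hgb : g • b = b := S.gen_zpow_smul b _
    have hsm : U (g • f) (inl (g * n' * y)) - U (g • f) (inr b) =
        U f (inl (n' * y)) - U f (inr b) := by
      have := hC.proj.smul g f (inr b) (inl (n' * y)) (fun h => hfb (Sum.inr_injective h).symm) (by simp)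
      rw [Sum.smul_inl, Sum.smul_inr, hgb, smul_eq_mul, ← mul_assoc] at this
      exact this
    have hf'b : g • f ≠ b := by
      intro h
      apply hfb
      have : g • f = g • b := by rw [hgb]; exact h
      exact smul_left_cancel g this
    by_cases hY : κ₁ ≤ |U f (inl (n' * y)) - U f (inr b)|
    · have e1 : U b (inl (g * n' * y)) = U b (inr (g • f)) := by
        apply hC.proj.exact (g • f) b _ hf'b (by simp) (by simp)
        rw [hsm]; exact hY
      have e2 : U (g • f) (inl x) = U (g • f) (inr b) := by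
        apply hC.proj.exact b (g • f) _ (Ne.symm hf'b) (by simp) (by simp)
        rw [← e1, abs_sub_comm]; linarith
      have e3 : U b (inl (n' * y)) = U b (inr f) := hC.proj.exact f b _ hfb (by simp) (by simp) hY
      have e4 : U f (inl x) = U f (inr b) := by
        apply hC.proj.exact b f _ (Ne.symm hfb) (by simp) (by simp)
        rw [← e3, abs_sub_comm]; linarith
      have hx' := hxny (g • f) (by simp) (by simp)
      rw [S.ell_smul, e2, hsm] at hx'
      rw [e4]
      exact hx'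
    · rw [not_le] at hY
      have := abs_sub_le (U f (inl (n' * y))) (U f (inr b)) (U f (inl x))
      rw [abs_sub_comm (U f (inr b)) (U f (inl x))] at this
      linarith

theorem q6_transfer_aux (hC : Ctx S U s κ₁ κu κ₀ d) {x y n : G} (hR : Red S U d (2 * κ₁) x n)
    (hxy : Adm S U d (27 / 32) (inl x) (inl y)) :
    ∀ c : C, Adm S U d (7 / 8) (inl x) (inl (n * y)) →
    2 * κ₁ ≤ |U c (inl (n * y)) - U c (inl x)| →
    ∃ m ∈ NN S d, ∃ k : ℤ, 2 * κ₁ ≤ |U (m • c) (inl y) - U (m • c) (inl x)| ∧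
      U (m • c) (inl y) - U (m • c) (inl x) = U c (inl (n * y)) - U c (inl x) + k * (d * S.ell c) := by
  induction hR with
  | one =>
    intro c _ hc
    refine ⟨1, one_mem _, 0, ?_, ?_⟩
    · rw [one_smul]; rw [one_mul] at hc; exact hc
    · rw [one_smul, one_mul]; simp
  | step b e n' he hR' hst ih =>
    intro c hxny hc
    have hadm := q6_step_adm hC he hst hxy hxny
    obtain ⟨d1, d2, d3⟩ := q6_step_data hC he hst hxy hxny
    have hk := hC.q6_k1 b
    have h1 := hC.h1
    by_cases hcb : c = b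
    · subst hcb
      obtain ⟨m, hm, k, hk1, hk2⟩ := ih c hadm (by linarith)
      refine ⟨m, hm, k - e, hk1, ?_⟩
      rw [hk2, mul_assoc, hC.q6_rotp]
      push_cast
      ring
    · rcases hC.proj.dich h1 (Ne.symm hcb) (X := inl x)
        (Y := inl (S.gen b ^ (e * (d : ℤ)) * n' * y)) (by simp) (by simp) (by simp) (by simp)
        (by linarith) hc with ⟨l1, l2⟩ | ⟨l1, l2⟩
      · set g : G := S.gen b ^ (-(e * (d : ℤ))) with hg
        have hgb : g • b = b := S.gen_zpow_smul b _
        have hc1b : g • c ≠ b := by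
          intro h
          apply hcb
          have : g • c = g • b := by rw [hgb]; exact h
          exact smul_left_cancel g this
        have hgy : g * (S.gen b ^ (e * (d : ℤ)) * n' * y) = n' * y := by
          rw [hg, mul_assoc (S.gen b ^ (e * (d : ℤ))), ← mul_assoc, ← zpow_add, neg_add_cancel, zpow_zero,
            one_mul]
        have hrot : U b (inr (g • c)) = U b (inr c) + -(e * (d * S.ell b)) := by
          have h := hC.proj.rot b (inr c) (-(e * (d : ℤ))) (fun h => hcb (Sum.inr_injective h))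
          rw [Sum.smul_inr] at h
          rw [h]
          push_cast
          ring
        have hrot2 : U b (inl (S.gen b ^ (e * (d : ℤ)) * n' * y)) = U b (inl (n' * y)) + e * (d * S.ell b) := by
          rw [mul_assoc, hC.q6_rotp]
        have e0 : U b (inr (g • c)) = U b (inl (n' * y)) := by
          rw [hrot, ← l1, hrot2]; ring
        have e1 : U (g • c) (inl x) = U (g • c) (inr b) := by
          apply hC.proj.exact b (g • c) _ (Ne.symm hc1b) (by simp) (by simp)
          rw [e0, abs_sub_comm]; linarith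
        have e2 : U (g • c) (inl (n' * y)) - U (g • c) (inr b) =
            U c (inl (S.gen b ^ (e * (d : ℤ)) * n' * y)) - U c (inr b) := by
          have := hC.proj.smul g c (inr b) (inl (S.gen b ^ (e * (d : ℤ)) * n' * y))
            (fun h => hcb (Sum.inr_injective h).symm) (by simp)
          rw [Sum.smul_inl, Sum.smul_inr, hgb, smul_eq_mul, hgy] at this
          exact this
        rw [← l2, ← e1] at e2
        obtain ⟨m, hm, k, hk1, hk2⟩ := ih (g • c) hadm (by rw [e2]; exact hc)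
        refine ⟨m * g, mul_mem hm ?_, k, ?_, ?_⟩
        · have := hC.gen_mem b (-e)
          rw [neg_mul] at this
          exact this
        · rw [mul_smul]; exact hk1
        · rw [mul_smul, hk2, e2, S.ell_smul]
      · have e1 : U c (inl (n' * y)) = U c (inr b) := by
          apply hC.proj.exact b c _ (Ne.symm hcb) (by simp) (by simp)
          rw [← l2]; linarith
        rw [← l1] at e1
        obtain ⟨m, hm, k, hk1, hk2⟩ := ih c hadm (by rw [e1]; exact hc)
        exact ⟨m, hm, k, hk1, by rw [hk2, e1]⟩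

theorem transfer0 (hC : Ctx S U s κ₁ κu κ₀ d) {c : C} {x y n : G} (hn : n ∈ NN S d)
    (hxy : Adm S U d (27 / 32) (inl x) (inl y)) (hxny : Adm S U d (7 / 8) (inl x) (inl (n * y)))
    (hc : 2 * κ₁ ≤ |U c (inl (n * y)) - U c (inl x)|) :
    ∃ m ∈ NN S d, ∃ k : ℤ, 2 * κ₁ ≤ |U (m • c) (inl y) - U (m • c) (inl x)| ∧
      U (m • c) (inl y) - U (m • c) (inl x) = U c (inl (n * y)) - U c (inl x) + k * (d * S.ell c) :=
  q6_transfer_aux hC (hC.gl x hn) hxy c hxny hc

/-- no big crossing on (x,y) and (x, n y) admissible: the lifts agree.  Red x n with n ≠ 1, last step b: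
e(U b (nx) - U b x) ≥ Θ - 2κ₁ and |U b (ny) - U b x| ≤ 3/4 Θ give |U b (ny) - U b (nx)| ≥ Θ/4 - 2κ₁ > Θ/6. -/
theorem lift_unique (hC : Ctx S U s κ₁ κu κ₀ d) {x y n : G} (hn : n ∈ NN S d)
    (hxy : Adm S U d (1 / 6) (inl x) (inl y)) (hxny : Adm S U d (3 / 4) (inl x) (inl (n * y))) : n = 1 := by
  have hR := hC.gl x hn
  rcases hR with _ | ⟨b, e, n', he, hR', hst⟩
  · rfl
  · exfalso
    have hk := hC.q6_k1 b
    have h1 := hC.h1
    have a1 := Adm.smul hC (S.gen b ^ (e * (d : ℤ)) * n') hxy b (by simp) (by simp)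
    rw [Sum.smul_inl, Sum.smul_inl, smul_eq_mul, smul_eq_mul] at a1
    have a2 := hxny b (by simp) (by simp)
    have key : (d * S.ell b) - 2 * κ₁ ≤
        |U b (inl (S.gen b ^ (e * (d : ℤ)) * n' * x)) - U b (inl x)| := by
      refine hst.trans ?_
      rw [← S6_abs he]
      exact le_abs_self _
    have t1 := abs_sub_le (U b (inl (S.gen b ^ (e * (d : ℤ)) * n' * x)))
      (U b (inl (S.gen b ^ (e * (d : ℤ)) * n' * y))) (U b (inl x))
    rw [abs_sub_comm (U b (inl (S.gen b ^ (e * (d : ℤ)) * n' * x)))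
      (U b (inl (S.gen b ^ (e * (d : ℤ)) * n' * y)))] at t1
    linarith

end Pool.Agent.helper50.BW
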