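import Pool.Agent.helper50.BW.M3
import Pool.Agent.helper50.BW.Q6
import Pool.Agent.helper50.BW.F6
/-! ## BW-M10 case 2: the lifts agree; fellow travelling from dd-closeness (uses M3, Q6, F4, F6; 150 lines)
lifts_agree: Adm 3/4 (X, ν Y): |U b (νY) - U b X| ≤ |U b X - U b x| + |U b y - U b x| + |U b (νY) - U b y|; if the first and the third are both
≥ κ₀ then exact_add gives ec x b ≤ E, ec y b ≤ E, dd x y ≤ 2E, contradiction; so it is ≤ (5/8 + 1/14) Θ + κ₀ ≤ 3/4 Θ (κ₀ ≤ 1e-4 Θ).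
lift_unique.  fellow_dd: as fellow, but z' 2-between p a and q a' is excluded by AL: dd (p a) z' ≤ E + 5s, dd (p x) z' ≤ D ≤ 20. -/
namespace Pool.Agent.helper50.BW
open Sum

variable {G : Type} [Group G] {D : G → G → ℝ} {C : Type} [MulAction G C] {Δ τ T : ℝ} {d : ℕ}
  {S : CSys D C KU Δ τ T} {U : C → G ⊕ C → ℝ} {s κ₁ κu κ₀ : ℝ}

theorem lifts_agree (hC : Ctx S U s κ₁ κu κ₀ d) {x y X Y ν : G} (hν : ν ∈ NN S d)
    (hA : Adm S U d (1 / 6) (inl X) (inl Y))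
    (core : ∀ c, |U c (inl y) - U c (inl x)| ≤ 1 / 14 * (d * S.ell c))
    (h1 : Adm S U d (5 / 8) (inl x) (inl X)) (h2 : Adm S U d (5 / 8) (inl y) (inl (ν * Y))) {E : ℝ}
    (h3 : dd S s x X ≤ E) (h4 : dd S s y (ν * Y) ≤ E) (h5 : 2 * E < dd S s x y) : ν = 1 := by
  obtain ⟨-, hs0, hκ0, h0, -⟩ := Q1_nn hC
  have hu := hC.hu
  refine lift_unique hC hν hA ?_
  intro b _ _
  have e1 := h1 b (by simp) (by simp)
  have e2 := h2 b (by simp) (by simp)
  have e3 := core b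
  have hb := hC.ell_big b
  have a1 := abs_le.1 e1
  have a2 := abs_le.1 e2
  have a3 := abs_le.1 e3
  rcases lt_or_ge (|U b (inl X) - U b (inl x)|) κ₀ with h | h
  · have a4 := abs_lt.1 h
    rw [abs_le]
    constructor <;> linarith
  rcases lt_or_ge (|U b (inl (ν * Y)) - U b (inl y)|) κ₀ with h' | h'
  · have a4 := abs_lt.1 h'
    rw [abs_le]
    constructor <;> linarith
  exfalso
  have f1 := exact_add hC.hyp S hC.proj hC.hK hC.hΔ hC.hu hC.hs (c := b) (x := x) (y := X) (by linarith)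
  have f2 := exact_add hC.hyp S hC.proj hC.hK hC.hΔ hC.hu hC.hs (c := b) (x := y) (y := ν * Y) (by linarith)
  have g1 := ec_ge hC.hyp S hs0 X b
  have g2 := ec_ge hC.hyp S hs0 (ν * Y) b
  have g3 := dd_le_ec hC.hyp S hs0 x y b
  linarith

theorem fellow_dd (hC : Ctx S U s κ₁ κu κ₀ d) {n : ℕ} {p q : ℕ → G} (hp : Pth D n p) (hq : Pth D n q)
    {a b a' b' x : ℕ} (ha : a ≤ n) (hb : b ≤ n) (ha' : a' ≤ n) (hb' : b' ≤ n) (hx : Mid a x b) {E : ℝ}
    (h1 : dd S s (p a) (q a') ≤ E) (h2 : dd S s (p b) (q b') ≤ E) (h3 : E + 6 * s < dd S s (p a) (p x))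
    (h4 : E + 6 * s < dd S s (p x) (p b)) : ∃ x', Mid a' x' b' ∧ D (p x) (q x') ≤ 30 := by
  obtain ⟨-, hs0, hκ0, h0, -⟩ := Q1_nn hC
  have hs : 1000000 ≤ s := by
    have := hC.hs
    norm_num [KU] at this
    linarith
  obtain ⟨z', hz1, hz2⟩ := hC.hyp.quad (by norm_num) (hp.btw hC.hyp hx ha hb) (q a') (q b')
  have hz3 : D (p x) z' ≤ 20 := by linarith
  have l1 := dd_le hC.hyp S hs0 (p x) z'
  have l2 := dd_symm hC.hyp S hs0 (p x) z'
  rcases hz2 with h | h | h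
  · exfalso
    have k1 := AL hC.hyp S hC.hK hC.hs (κ := 2) (by norm_num) (by norm_num [KU]) h
    have k2 := dd_nonneg hC.hyp S hs0 z' (q a')
    have k3 := dd_tri hC.hyp S hs0 (p a) z' (p x)
    linarith
  · obtain ⟨x', hx', hx''⟩ := path_pt hC.hyp hq ha' hb' h
    refine ⟨x', hx', ?_⟩
    have := hC.hyp.tri (p x) z' (q x')
    linarith
  · exfalso
    have k1 := AL hC.hyp S hC.hK hC.hs (κ := 2) (by norm_num) (by norm_num [KU]) h
    have k2 := dd_nonneg hC.hyp S hs0 (q b') z'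
    have k3 := dd_tri hC.hyp S hs0 (p x) z' (p b)
    have k4 := dd_symm hC.hyp S hs0 (q b') (p b)
    linarith

end Pool.Agent.helper50.BW
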