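import Pool.Agent.helper50.BW.Q1
/-! ## BW-Q2 tight lifts of pairs (uses Q1, S1; 200 lines)
Points: choose n ∈ NN with D x (n y) ≤ inf + 1, y' := n y.  If |t| > 5/8 Θ, t := U b y' - U b x, e := sign t,
y'' := gen b^{-ed} y': lower for D x y' (|Δu_b| ≥ |t| - 2κu ≥ K), upper for D x y'': D x y'' ≤ D x y' + ||t| - Θ| - |t| +
4κu + 2K ≤ D x y' - Θ/4 + 4κu + 2K < D x y' - 1.
Point and cone c: choose n with r_c (n x) ≤ inf + 1, x' := n x.  b ≠ c, t := U b (inr c) - U b x', |t| > 5/8 Θ.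
q := projection of x' to c (exists_proj): |u_b q - U b (inr c)| ≤ κu (closeC), D x' q ≤ r_c x' + 3K.
x'' := gen b^{ed} x' (e = sign t): D x'' q ≤ D x' q - Θ/4 + 4κu + 2K and r_c x'' ≤ r_c q + D x'' q. -/
namespace Pool.Agent.helper50.BW
open Sum
variable {G : Type} [Group G] {D : G → G → ℝ} {C : Type} [MulAction G C] {K Δ τ T : ℝ}
  {S : CSys D C K Δ τ T} {U : C → G ⊕ C → ℝ} {s κ₁ κu κ₀ : ℝ} {d : ℕ}

/-- rotating `x` towards `p` along `b` decreases the distance -/
private theorem q2_key (hC : Ctx S U s κ₁ κu κ₀ d) (b : C) (x p : G) (e : ℤ) (he : e = 1 ∨ e = -1)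
    (t : ℝ) (h1 : |S.u b p - S.u b x - t| ≤ 2 * κu) (ht : 5 / 8 * (d * S.ell b) < e * t) :
    D (S.gen b ^ (e * d) * x) p ≤ D x p - (d * S.ell b) / 4 + 4 * κu + 2 * K := by
  have hbig := hC.ell_big b
  have h0 := hC.h0
  have hK := hC.hK
  have hΔ := hC.hΔ
  have hu := hC.hu
  have hk1 := hC.h1
  have hs := hC.hs
  set Θ : ℝ := d * S.ell b with hΘ
  have hgen : S.u b (S.gen b ^ (e * d) * x) = S.u b x + e * Θ := by
    rw [CSys.u_gen_zpow, hΘ]; push_cast; ring
  have hr := S.r_gen_zpow b (e * d) x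
  have hup := S.upper b (S.gen b ^ (e * d) * x) p
  have hlow := S.lower b x p
  rw [hr, hgen] at hup
  have h1' := abs_le.1 h1
  rcases he with rfl | rfl
  · -- t > 0
    push_cast at ht hup
    have hlow' : K ≤ |S.u b x - S.u b p| := by
      rw [abs_sub_comm]
      refine le_trans ?_ (le_abs_self _)
      linarith
    have h2 := hlow hlow'
    have h3 : t - 2 * κu ≤ |S.u b x - S.u b p| := by
      rw [abs_sub_comm]
      refine le_trans ?_ (le_abs_self _)
      linarith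
    have h4 : |S.u b x + 1 * Θ - S.u b p| ≤ |Θ - t| + 2 * κu := by
      have : S.u b x + 1 * Θ - S.u b p = (Θ - t) - (S.u b p - S.u b x - t) := by ring
      rw [this]
      exact (abs_sub _ _).trans (by linarith)
    have h5 : |Θ - t| - t ≤ -(Θ / 4) := by
      rcases abs_cases (Θ - t) with ⟨h, _⟩ | ⟨h, _⟩ <;> rw [h] <;> linarith
    linarith
  · -- t < 0
    push_cast at ht hup
    have hlow' : K ≤ |S.u b x - S.u b p| := by
      refine le_trans ?_ (le_abs_self _)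
      linarith
    have h2 := hlow hlow'
    have h3 : -t - 2 * κu ≤ |S.u b x - S.u b p| := by
      refine le_trans ?_ (le_abs_self _)
      linarith
    have h4 : |S.u b x + -1 * Θ - S.u b p| ≤ |Θ + t| + 2 * κu := by
      have : S.u b x + -1 * Θ - S.u b p = -((Θ + t) + (S.u b p - S.u b x - t)) := by ring
      rw [this, abs_neg]
      exact (abs_add_le _ _).trans (by linarith)
    have h5 : |Θ + t| + t ≤ -(Θ / 4) := by
      rcases abs_cases (Θ + t) with ⟨h, _⟩ | ⟨h, _⟩ <;> rw [h] <;> linarith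
    linarith

private theorem q2_sign {t a : ℝ} (h : a < |t|) : ∃ e : ℤ, (e = 1 ∨ e = -1) ∧ a < e * t := by
  rcases abs_cases t with ⟨h', _⟩ | ⟨h', _⟩
  · exact ⟨1, Or.inl rfl, by rw [h'] at h; push_cast; linarith⟩
  · exact ⟨-1, Or.inr rfl, by rw [h'] at h; push_cast; linarith⟩

private theorem q2_min (f : G → ℝ) (hf : ∀ g, 0 ≤ f g) (N : Subgroup G) :
    ∃ n ∈ N, ∀ m ∈ N, f n ≤ f m + 1 := by
  set A : Set ℝ := {t | ∃ n ∈ N, t = f n} with hA
  have hne : A.Nonempty := ⟨_, 1, N.one_mem, rfl⟩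
  have hbd : BddBelow A := ⟨0, by rintro t ⟨n, _, rfl⟩; exact hf n⟩
  obtain ⟨t, ⟨n, hn, rfl⟩, hlt⟩ := exists_lt_of_csInf_lt hne (lt_add_one (sInf A))
  refine ⟨n, hn, fun m hm => ?_⟩
  have := csInf_le hbd (show f m ∈ A from ⟨m, hm, rfl⟩)
  linarith

theorem tight_pt (hC : Ctx S U s κ₁ κu κ₀ d) (x y : G) :
    ∃ n ∈ NN S d, Adm S U d (5 / 8) (inl x) (inl (n * y)) := by
  obtain ⟨n, hn, hmin⟩ := q2_min (fun n => D x (n * y)) (fun n => hC.hyp.nonneg _ _) (NN S d)
  refine ⟨n, hn, fun b _ _ => ?_⟩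
  by_contra hcon
  push Not at hcon
  rw [abs_sub_comm] at hcon
  obtain ⟨e, he, hlt⟩ := q2_sign hcon
  have hbig := hC.ell_big b
  have h0 := hC.h0
  have hK := hC.hK
  have hΔ := hC.hΔ
  have hu := hC.hu
  have hk1 := hC.h1
  have hs := hC.hs
  have c1 := abs_le.1 (hC.proj.close b x)
  have c2 := abs_le.1 (hC.proj.close b (n * y))
  have key := q2_key hC b (n * y) x e he (U b (inl x) - U b (inl (n * y)))
    (by rw [abs_le]; constructor <;> linarith) hlt
  have hm := hmin (S.gen b ^ (e * d) * n) (mul_mem (hC.gen_mem b e) hn)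
  simp only [mul_assoc] at hm key
  rw [hC.hyp.symm x (n * y), hC.hyp.symm x (S.gen b ^ (e * d) * (n * y))] at hm
  linarith

theorem tight_cone (hC : Ctx S U s κ₁ κu κ₀ d) (x : G) (c : C) :
    ∃ n ∈ NN S d, Adm S U d (5 / 8) (inl (n * x)) (inr c) := by
  obtain ⟨n, hn, hmin⟩ := q2_min (fun n => S.r c (n * x)) (fun n => S.r_nonneg c _) (NN S d)
  refine ⟨n, hn, fun b _ hb => ?_⟩
  by_contra hcon
  push Not at hcon
  have hbc : c ≠ b := fun h => hb (by rw [h])
  obtain ⟨e, he, hlt⟩ := q2_sign hcon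
  have hbig := hC.ell_big b
  have h0 := hC.h0
  have hK := hC.hK
  have hΔ := hC.hΔ
  have hu := hC.hu
  have hk1 := hC.h1
  have hs := hC.hs
  obtain ⟨q, hq1, hq2, hq3⟩ := exists_proj S c (n * x)
  have c1 := abs_le.1 (hC.proj.close b (n * x))
  have c2 := abs_le.1 (hC.proj.closeC b c q hbc hq1)
  have key := q2_key hC b (n * x) q e he (U b (inr c) - U b (inl (n * x)))
    (by rw [abs_le]; constructor <;> linarith) hlt
  have hm := hmin (S.gen b ^ (e * d) * n) (mul_mem (hC.gen_mem b e) hn)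
  simp only [mul_assoc] at hm key
  have hr := (abs_le.1 (S.r_lip c (S.gen b ^ (e * d) * (n * x)) q)).2
  linarith

end Pool.Agent.helper50.BW
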