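import Pool.Agent.helper50.BW.Q4
/-! ## BW-Q5 db is roughly geodesic; the next metric (uses Q1, Q4, F2)
x, y, t ∈ [0, db x y].  n with dd x (n y) < db x y + 1, reduced walk v from x to n y with cost < db x y + 1
(exists_walk).  i := last index with wc 0 i ≤ t.  Ordinary step i: z := rough2 point of (v_i, v_{i+1}) at
t - wc 0 i: dd x z ≤ t+1, dd z (n y) ≤ cost - t + 1.  Jump: z := v_i: dd x z ≤ t, dd z (ny) ≤ cost - t + s.
So db x z ≤ t + s, db z y ≤ db x y - t + s + 1 and the sum is ≥ db x y: both within s+2 ≤ 2s.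
next: four error 20 s λ ≤ 2, rough error 2 s λ ≤ 1. -/
namespace Pool.Agent.helper50.BW
open Sum
variable {G : Type} [Group G] {D : G → G → ℝ} {C : Type} [MulAction G C] {K Δ τ T : ℝ}
  {S : CSys D C K Δ τ T} {U : C → G ⊕ C → ℝ} {s κ₁ κu κ₀ : ℝ} {d : ℕ}

/-- a point at parameter `t` on a walk -/
theorem Q5_walk (h : Hyp D) (S : CSys D C K Δ τ T) {s : ℝ} (hs : 1 ≤ s) (v : ℕ → G)
    (k : ℕ → Option C) : ∀ (N : ℕ), IsWk S N v k → ∀ t : ℝ, 0 ≤ t → t ≤ wc S s v k 0 N →
    ∃ z, dd S s (v 0) z ≤ t + s ∧ dd S s z (v N) ≤ wc S s v k 0 N - t + s := by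
  have hs0 : (0 : ℝ) ≤ s := by linarith
  intro N
  induction N with
  | zero =>
    intro _ t h0 h1
    have e : wc S s v k 0 0 = 0 := by
      unfold wc
      simp
    rw [e] at h1 ⊢
    refine ⟨v 0, ?_, ?_⟩ <;> rw [dd_self h S hs0] <;> linarith
  | succ N ih =>
    intro hw t h0 h1
    have hw' : IsWk S N v k := fun i hi => hw i (by omega)
    have hadd := wc_add S s v k (Nat.zero_le N) (Nat.le_succ N)
    have hstep : dd S s (v N) (v (N + 1)) ≤ wc S s v k N (N + 1) :=
      dd_le_wc h S hs0 hw (Nat.le_succ N) le_rfl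
    have h0N : dd S s (v 0) (v N) ≤ wc S s v k 0 N := dd_le_wc h S hs0 hw (Nat.zero_le N) (Nat.le_succ N)
    by_cases ht : t ≤ wc S s v k 0 N
    · obtain ⟨z, hz1, hz2⟩ := ih hw' t h0 ht
      refine ⟨z, hz1, ?_⟩
      have := dd_tri h S hs0 z (v N) (v (N + 1))
      rw [Nat.succ_eq_add_one] at hadd
      linarith
    · push Not at ht
      have hone : wc S s v k N (N + 1) = stp S s (k N) (v N) (v (N + 1)) := by
        unfold wc
        rw [Nat.Ico_succ_singleton, Finset.sum_singleton]
      rw [Nat.succ_eq_add_one] at hadd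
      rcases hk : k N with _ | c
      · rw [hk] at hone
        change _ = D (v N) (v (N + 1)) at hone
        obtain ⟨z, hz1, hz2⟩ := h.rough (v N) (v (N + 1)) (t - wc S s v k 0 N) (by linarith)
          (by linarith)
        rw [abs_le] at hz1 hz2
        refine ⟨z, ?_, ?_⟩
        · have e1 := dd_tri h S hs0 (v 0) (v N) z
          have e2 := dd_le h S hs0 (v N) z
          linarith
        · have e2 := dd_le h S hs0 z (v (N + 1))
          linarith
      · rw [hk] at hone
        change _ = s at hone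
        refine ⟨v N, ?_, ?_⟩
        · linarith
        · linarith

theorem db_rough (hC : Ctx S U s κ₁ κu κ₀ d) (x y : G) (t : ℝ) (h0 : 0 ≤ t) (h1 : t ≤ db S s d x y) :
    ∃ z, |db S s d x z - t| ≤ 2 * s ∧ |db S s d z y - (db S s d x y - t)| ≤ 2 * s := by
  have h := hC.hyp
  have hs : (1 : ℝ) ≤ s := by
    have := hC.hs
    have := hC.hK
    linarith
  have hs0 : (0 : ℝ) ≤ s := by linarith
  have hne : {t | ∃ n ∈ NN S d, t = dd S s x (n * y)}.Nonempty := ⟨_, 1, Subgroup.one_mem _, rfl⟩
  have hlt : sInf {t | ∃ n ∈ NN S d, t = dd S s x (n * y)} < db S s d x y + 1 := by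
    change db S s d x y < _
    linarith
  obtain ⟨t', ⟨n, hn, rfl⟩, ht'⟩ := exists_lt_of_csInf_lt hne hlt
  obtain ⟨N, v, k, hv0, hvN, hw, hc, _, _⟩ := exists_walk h S (by linarith : 0 < s) ht'
  have hy : ∀ z, db S s d z (n * y) = db S s d z y := by
    intro z
    have := db_N hC (Subgroup.one_mem (NN S d)) hn z y
    rwa [one_mul] at this
  have e1 : db S s d x y ≤ dd S s x (n * y) := by
    rw [← hy x]
    exact db_le hC x (n * y)
  have e2 : dd S s x (n * y) ≤ wc S s v k 0 N := by
    have := dd_le_wc h S hs0 hw (Nat.zero_le N) le_rfl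
    rwa [hv0, hvN] at this
  obtain ⟨z, hz1, hz2⟩ := Q5_walk h S hs v k N hw t h0 (by linarith)
  rw [hv0] at hz1
  rw [hvN] at hz2
  have e3 := db_le hC x z
  have e4 := db_le hC z (n * y)
  rw [hy z] at e4
  have e5 := db_tri hC x z y
  refine ⟨z, ?_, ?_⟩ <;> rw [abs_le] <;> constructor <;> linarith

theorem next_hyp (hC : Ctx S U s κ₁ κu κ₀ d) {lam : ℝ} (hl : 0 < lam) (hl' : lam * (10 * s) ≤ 1) :
    Hyp (fun x y => lam * db S s d x y) := by
  refine ⟨?_, ?_, ?_, ?_, ?_⟩
  · intro x
    show lam * db S s d x x = 0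
    rw [db_self hC x, mul_zero]
  · intro x y
    show lam * db S s d x y = lam * db S s d y x
    rw [db_symm hC x y]
  · intro x y z
    show lam * db S s d x z ≤ lam * db S s d x y + lam * db S s d y z
    have := mul_le_mul_of_nonneg_left (db_tri hC x y z) hl.le
    linarith
  · intro x y z w
    show lam * db S s d x y + lam * db S s d z w ≤ max (lam * db S s d x z + lam * db S s d y w)
      (lam * db S s d x w + lam * db S s d y z) + 2
    have h4 := mul_le_mul_of_nonneg_left (db_four hC x y z w) hl.le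
    rw [mul_add, mul_add, mul_max_of_nonneg _ _ hl.le, mul_add, mul_add] at h4
    have e : lam * (20 * s) = 2 * (lam * (10 * s)) := by ring
    linarith
  · intro x y t h0 h1
    change t ≤ lam * db S s d x y at h1
    have ht0 : 0 ≤ t / lam := div_nonneg h0 hl.le
    have ht1 : t / lam ≤ db S s d x y := by
      rw [div_le_iff₀ hl]
      linarith
    have hs0 : (0 : ℝ) ≤ s := by
      have := hC.hs
      have := hC.hK
      linarith
    have hb : lam * (2 * s) ≤ 1 := by
      have : lam * (2 * s) ≤ lam * (10 * s) := mul_le_mul_of_nonneg_left (by linarith) hl.le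
      linarith
    obtain ⟨z, hz1, hz2⟩ := db_rough hC x y (t / lam) ht0 ht1
    have et : lam * (t / lam) = t := by field_simp
    refine ⟨z, ?_, ?_⟩
    · show |lam * db S s d x z - t| ≤ 1
      have : lam * db S s d x z - t = lam * (db S s d x z - t / lam) := by
        rw [mul_sub, et]
      rw [this, abs_mul, abs_of_pos hl]
      exact (mul_le_mul_of_nonneg_left hz1 hl.le).trans hb
    · show |lam * db S s d z y - (lam * db S s d x y - t)| ≤ 1
      have : lam * db S s d z y - (lam * db S s d x y - t) =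
          lam * (db S s d z y - (db S s d x y - t / lam)) := by
        rw [mul_sub, mul_sub, et]
      rw [this, abs_mul, abs_of_pos hl]
      exact (mul_le_mul_of_nonneg_left hz2 hl.le).trans hb

end Pool.Agent.helper50.BW
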