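import Pool.Agent.helper50.BW.M9
import Pool.Agent.helper50.BW.M10
import Pool.Agent.helper50.BW.M1
import Pool.Agent.helper50.BW.Q2
import Pool.Agent.helper50.BW.Q5
/-! ## BW-M11 short bridges, case 2 (uses M9, M10, Q2, Q5; 300 lines)
E := 6KU/lam, D̄ := lam db (Hyp by next_hyp, Pth by qg_step, also for g * pt), lam dd = D̄ on the path (NC_db).  1/lam ≥ 10 s.
peel (a,b) with t = 2E: x₀, y₀; peel (x₀,y₀) with t = 5E: x₁, y₁; peel (x₁,y₁) with t = 2E: x₂, y₂; dd x₂ y₂ ≥ 200KU/lam - 18E - 20 ≥ Lam0.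
core_small for (x₀,y₀) (2E - 1 > E + 6s); for (x₁,y₁): cross_mono, ≤ Θ/15 + κ₀ ≤ Θ/14.
fellow for D̄ (p = pt, q = g pt): x₀' ∈ Mid a' b' (e = 6KU; D̄ (pt a) (pt x₀) ≥ 12KU - lam ≥ 6KU + 25), y₀' ∈ Mid x₀' b', x₁' ∈ Mid x₀' y₀',
y₁' ∈ Mid x₁' y₀' (each time with the pair of nested ends already found), all with D̄ ≤ 30, i.e. db ≤ E₂ := 30/lam ≤ E.
tight_pt: n₁: Adm 5/8 (pt x₁, n₁ g pt x₁'), n₂: Adm 5/8 (pt y₁, n₂ g pt y₁'); g₁ := n₁ g, ν := n₂ n₁⁻¹.  dd = db ≤ E₂ (lift_dist).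
claimA for g₁, E₂: dd (g₁ pt x₀') (g₁ pt x₁') ≥ db ≥ db (pt x₀) (pt x₁) - 2E₂ ≥ 5E - 1 - 2E₂ > E₂ + 6s.  lifts_agree: ν = 1.
fellow_dd (p = pt, q = g₁ pt, ends x₁,y₁ and x₁',y₁'): x₂', y₂' ∈ Mid x₁' y₁' with D ≤ 30.  SB for g₁, x₂, y₂, x₂', y₂'; enlarge the
intervals (Mid.abs_le, DD_mono). -/
namespace Pool.Agent.helper50.BW
open Sum

variable {G : Type} [Group G] {D : G → G → ℝ} {C : Type} [MulAction G C] {Δ τ T : ℝ} {d m : ℕ}
  {S : CSys D C KU Δ τ T} {U : C → G ⊕ C → ℝ} {s κ₁ κu κ₀ : ℝ} {π : FreeGroup ℕ →* G} {w : W}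
theorem Brg.mono {g : G} {a b a' b' x y x' y' : ℕ} (h : Brg π w d m g x y x' y') {m' : ℕ} (hm : m ≤ m')
    (h1 : Mid a x b) (h2 : Mid a y b) (h3 : Mid a' x' b') (h4 : Mid a' y' b') : Brg π w d m' g a b a' b' := by
  obtain ⟨z, z', hh, hz, hz', hD, he, hl, hl'⟩ := h
  have e1 := Mid.abs_le h1 h2
  have e2 := Mid.abs_le h3 h4
  refine ⟨z, z', hh, ?_, ?_, DD_mono hm hD, he, by linarith, by linarith⟩
  · unfold Mid at *; omega
  · unfold Mid at *; omega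

/-- the three peelings -/
private theorem m11_peel (hC : Ctx S U s κ₁ κu κ₀ d) (hp : Pth D w.length (pt π w)) {a b : ℕ}
    (ha : a ≤ w.length) (hb : b ≤ w.length) {E : ℝ} (hE : 60000 * s ≤ E)
    (hL : 33 * E ≤ dd S s (pt π w a) (pt π w b)) :
    ∃ x₀ y₀ x₁ y₁ x₂ y₂, Mid a x₀ b ∧ Mid x₀ y₀ b ∧ Mid x₀ x₁ y₀ ∧ Mid x₁ y₁ y₀ ∧ Mid x₁ x₂ y₁ ∧ Mid x₂ y₂ y₁ ∧
      2 * E - 1 ≤ dd S s (pt π w a) (pt π w x₀) ∧ dd S s (pt π w a) (pt π w x₀) ≤ 2 * E + 1 ∧
      2 * E - 1 ≤ dd S s (pt π w y₀) (pt π w b) ∧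
      5 * E - 1 ≤ dd S s (pt π w x₀) (pt π w x₁) ∧ dd S s (pt π w x₀) (pt π w x₁) ≤ 5 * E + 1 ∧
      5 * E - 1 ≤ dd S s (pt π w y₁) (pt π w y₀) ∧
      2 * E - 1 ≤ dd S s (pt π w x₁) (pt π w x₂) ∧ dd S s (pt π w x₁) (pt π w x₂) ≤ 2 * E + 1 ∧
      2 * E - 1 ≤ dd S s (pt π w y₂) (pt π w y₁) ∧
      28 * E ≤ dd S s (pt π w x₀) (pt π w y₀) ∧
      17 * E ≤ dd S s (pt π w x₁) (pt π w y₁) ∧
      12 * E ≤ dd S s (pt π w x₂) (pt π w y₂) := by
  have hs := hC.hs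
  have hK := hC.hK
  have hE' : 1000 ≤ E := by linarith
  obtain ⟨x₀, y₀, hx0, hy0, e1, e2, e3⟩ := peel hC hp ha hb (t := 2 * E) (by linarith) (by linarith)
  have hx0' : x₀ ≤ w.length := hx0.le ha hb
  have hy0' : y₀ ≤ w.length := hy0.le hx0' hb
  obtain ⟨x₁, y₁, hx1, hy1, f1, f2, f3⟩ := peel hC hp hx0' hy0' (t := 5 * E) (by linarith) (by linarith)
  have hx1' : x₁ ≤ w.length := hx1.le hx0' hy0'
  have hy1' : y₁ ≤ w.length := hy1.le hx1' hy0'
  obtain ⟨x₂, y₂, hx2, hy2, g1, g2, g3⟩ := peel hC hp hx1' hy1' (t := 2 * E) (by linarith) (by linarith)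
  rw [abs_le] at e1 e2 f1 f2 g1 g2
  refine ⟨x₀, y₀, x₁, y₁, x₂, y₂, hx0, hy0, hx1, hy1, hx2, hy2, ?_, ?_, ?_, ?_, ?_, ?_, ?_, ?_, ?_, ?_, ?_, ?_⟩ <;>
  linarith

theorem sb_case2 (hC : Ctx S U s κ₁ κu κ₀ d) (hp : Pth D w.length (pt π w)) (hSB : SB D π w d m)
    (hN : NC S U d π w) {lam : ℝ} (hl : 0 < lam) (hl' : lam * (10 * s) ≤ 1) {g : G} {a b a' b' : ℕ}
    (ha : a ≤ w.length) (hb : b ≤ w.length) (ha' : a' ≤ w.length) (hb' : b' ≤ w.length)
    (h1 : lam * db S s d (pt π w a) (g * pt π w a') ≤ 6 * KU)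
    (h2 : lam * db S s d (pt π w b) (g * pt π w b') ≤ 6 * KU)
    (h3 : Lam0 ≤ lam * db S s d (pt π w a) (pt π w b))
    (H : ∀ c, 1 / 16 * (d * S.ell c) ≤ |U c (inl (pt π w b)) - U c (inl (pt π w a))| →
      ec S s (pt π w a) c ≤ 6 * KU / lam ∨ ec S s (pt π w b) c ≤ 6 * KU / lam) :
    ∃ ν ∈ NN S d, Brg π w d (m + 2) (ν * g) a b a' b' := by
  have hs := hC.hs
  have hs0 : (0:ℝ) ≤ s := (Q1_nn hC).2.1
  -- constants
  set M : ℝ := 1 / lam with hM
  have hMl : lam * M = 1 := by rw [hM]; field_simp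
  have hM0 : 0 < M := by rw [hM]; positivity
  have hMs : 10 * s ≤ M := by
    have : lam * (10 * s) ≤ lam * M := by rw [hMl]; exact hl'
    exact le_of_mul_le_mul_left this hl
  have hE : 6 * KU / lam = 6000 * M := by rw [hM]; ring
  rw [hE] at H
  have hs' : (1000000:ℝ) ≤ s := by linarith
  have hlam1 : lam ≤ 1 := by
    by_contra hcon
    push Not at hcon
    have : 1 * (10 * s) < lam * (10 * s) := mul_lt_mul_of_pos_right hcon (by linarith)
    linarith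
  -- conversion
  have toL : ∀ {u v : ℝ}, u * M ≤ v → u ≤ lam * v := by
    intro u v huv
    have := mul_le_mul_of_nonneg_left huv hl.le
    calc u = lam * M * u := by rw [hMl, one_mul]
      _ = lam * (u * M) := by ring
      _ ≤ _ := this
  have ofL : ∀ {u v : ℝ}, lam * v ≤ u → v ≤ u * M := by
    intro u v huv
    have := mul_le_mul_of_nonneg_right huv hM0.le
    calc v = lam * M * v := by rw [hMl, one_mul]
      _ = lam * v * M := by ring
      _ ≤ _ := this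
  have ofL' : ∀ {u v : ℝ}, u ≤ lam * v → u * M ≤ v := by
    intro u v huv
    have := mul_le_mul_of_nonneg_right huv hM0.le
    calc u * M ≤ lam * v * M := this
      _ = lam * M * v := by ring
      _ = v := by rw [hMl, one_mul]
  -- dd = db on the path
  have hdd : ∀ {i j : ℕ}, i ≤ w.length → j ≤ w.length →
      db S s d (pt π w i) (pt π w j) = dd S s (pt π w i) (pt π w j) := by
    intro i j hi hj
    have := NC_db hC hN 1 hi hj
    simpa only [one_mul] using this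
  have hL : 33 * (6000 * M) ≤ dd S s (pt π w a) (pt π w b) := by
    rw [← hdd ha hb]
    have := ofL' h3
    have e : Lam0 * M = 200000 * M := by norm_num [Lam0, KU]
    rw [e] at this
    linarith
  obtain ⟨x₀, y₀, x₁, y₁, x₂, y₂, mx0, my0, mx1, my1, mx2, my2, a0, a0', b0, a1, a1', b1, a2, a2', b2, L0, L1, L2⟩ :=
    m11_peel hC hp ha hb (E := 6000 * M) (by linarith) hL
  have lx0 : x₀ ≤ w.length := mx0.le ha hb
  have ly0 : y₀ ≤ w.length := my0.le lx0 hb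
  have lx1 : x₁ ≤ w.length := mx1.le lx0 ly0
  have ly1 : y₁ ≤ w.length := my1.le lx1 ly0
  have lx2 : x₂ ≤ w.length := mx2.le lx1 ly1
  have ly2 : y₂ ≤ w.length := my2.le lx2 ly1
  have tri : ∀ x y z, dd S s x z ≤ dd S s x y + dd S s y z := dd_tri hC.hyp S hs0
  have sym : ∀ x y, dd S s x y = dd S s y x := dd_symm hC.hyp S hs0
  -- cores
  have core0 : ∀ c, |U c (inl (pt π w y₀)) - U c (inl (pt π w x₀))| ≤ 1 / 15 * (d * S.ell c) := by
    intro c
    exact core_small hC hp ha hb mx0 my0 (E := 6000 * M) (by linarith) (by linarith) H c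
  have core1 : ∀ c, |U c (inl (pt π w y₁)) - U c (inl (pt π w x₁))| ≤ 1 / 14 * (d * S.ell c) := by
    intro c
    have h4 := Pth.btw4 hC.hyp hp mx1 my1 lx0 ly0
    have h5 := cross_mono hC (c := c) (x := pt π w x₀) (z := pt π w x₁) (z' := pt π w y₁) (y := pt π w y₀)
      (by linarith)
    have h6 := core0 c
    have h7 := hC.ell_big c
    have h8 := (Q1_nn hC).2.2.1
    linarith
  -- fellow travelling in the next metric
  have hH : Hyp (fun x y => lam * db S s d x y) := next_hyp hC hl hl'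
  have hP1 : Pth (fun x y => lam * db S s d x y) w.length (pt π w) := qg_step hC hN hp hl hl'
  have hP2 : Pth (fun x y => lam * db S s d x y) w.length (fun i => g * pt π w i) :=
    Pth.smul (D := fun x y => lam * db S s d x y) (fun g x y => by
      show lam * db S s d (g * x) (g * y) = lam * db S s d x y
      rw [db_inv hC]) hP1 g
  have fel : ∀ {i j i' j' x : ℕ}, i ≤ w.length → j ≤ w.length → i' ≤ w.length → j' ≤ w.length → Mid i x j →
      lam * db S s d (pt π w i) (g * pt π w i') ≤ 6000 →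
      lam * db S s d (pt π w j) (g * pt π w j') ≤ 6000 →
      7000 * M ≤ dd S s (pt π w i) (pt π w x) → 7000 * M ≤ dd S s (pt π w x) (pt π w j) →
      ∃ x', Mid i' x' j' ∧ lam * db S s d (pt π w x) (g * pt π w x') ≤ 30 := by
    intro i j i' j' x hi hj hi' hj' hm k1 k2 k3 k4
    have hx := hm.le hi hj
    refine fellow hH hP1 hP2 hi hj hi' hj' hm (e := 6000) k1 k2 ?_ ?_
    · show (6000:ℝ) + 25 ≤ lam * db S s d (pt π w i) (pt π w x)
      rw [hdd hi hx]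
      have := toL k3
      linarith
    · show (6000:ℝ) + 25 ≤ lam * db S s d (pt π w x) (pt π w j)
      rw [hdd hx hj]
      have := toL k4
      linarith
  have h1' : lam * db S s d (pt π w a) (g * pt π w a') ≤ 6000 := by
    have : (6 * KU : ℝ) = 6000 := by norm_num [KU]
    linarith
  have h2' : lam * db S s d (pt π w b) (g * pt π w b') ≤ 6000 := by
    have : (6 * KU : ℝ) = 6000 := by norm_num [KU]
    linarith
  have t1 := tri (pt π w a) (pt π w x₀) (pt π w b)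
  have t2 := tri (pt π w x₀) (pt π w x₁) (pt π w y₀)
  have t3 := tri (pt π w x₁) (pt π w x₂) (pt π w y₁)
  have t4 := tri (pt π w x₂) (pt π w x₁) (pt π w y₂)
  rw [sym (pt π w x₂) (pt π w x₁)] at t4
  obtain ⟨x₀', mx0', c0⟩ := fel ha hb ha' hb' mx0 h1' h2' (by linarith) (by linarith)
  have lx0' : x₀' ≤ w.length := mx0'.le ha' hb'
  obtain ⟨y₀', my0', d0⟩ := fel lx0 hb lx0' hb' my0 (by linarith) h2' (by linarith) (by linarith)
  have ly0' : y₀' ≤ w.length := my0'.le lx0' hb'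
  obtain ⟨x₁', mx1', c1⟩ := fel lx0 ly0 lx0' ly0' mx1 (by linarith) (by linarith) (by linarith) (by linarith)
  have lx1' : x₁' ≤ w.length := mx1'.le lx0' ly0'
  obtain ⟨y₁', my1', d1⟩ := fel lx1 ly0 lx1' ly0' my1 (by linarith) (by linarith) (by linarith) (by linarith)
  have ly1' : y₁' ≤ w.length := my1'.le lx1' ly0'
  -- tight lifts
  obtain ⟨n₁, hn₁, T1⟩ := tight_pt hC (pt π w x₁) (g * pt π w x₁')
  obtain ⟨n₂, hn₂, T2⟩ := tight_pt hC (pt π w y₁) (g * pt π w y₁')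
  have dbN : ∀ {n : G}, n ∈ NN S d → ∀ x y, db S s d x (n * y) = db S s d x y := by
    intro n hn x y
    have := db_N hC (Subgroup.one_mem _) hn x y
    rwa [one_mul] at this
  have hν : n₂ * n₁⁻¹ ∈ NN S d := Subgroup.mul_mem _ hn₂ (Subgroup.inv_mem _ hn₁)
  have eq1 : ∀ x, n₁ * (g * x) = (n₁ * g) * x := fun x => by group
  have eq2 : ∀ x, n₂ * (g * x) = (n₂ * n₁⁻¹) * ((n₁ * g) * x) := fun x => by group
  have D1 : dd S s (pt π w x₁) ((n₁ * g) * pt π w x₁') ≤ 30 * M := by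
    rw [← eq1, ← lift_dist hC (T1.mono hC (by norm_num)), dbN hn₁]
    exact ofL c1
  have D2 : dd S s (pt π w y₁) ((n₂ * n₁⁻¹) * ((n₁ * g) * pt π w y₁')) ≤ 30 * M := by
    rw [← eq2, ← lift_dist hC (T2.mono hC (by norm_num)), dbN hn₂]
    exact ofL d1
  rw [eq1] at T1
  rw [eq2] at T2
  have G0 : db S s d (pt π w x₀) ((n₁ * g) * pt π w x₀') ≤ 30 * M := by
    rw [← eq1, dbN hn₁]; exact ofL c0
  have G0' : db S s d (pt π w y₀) ((n₁ * g) * pt π w y₀') ≤ 30 * M := by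
    rw [← eq1, dbN hn₁]; exact ofL d0
  have G1 : db S s d (pt π w x₁) ((n₁ * g) * pt π w x₁') ≤ 30 * M := by
    rw [← eq1, dbN hn₁]; exact ofL c1
  have G1' : db S s d (pt π w y₁) ((n₁ * g) * pt π w y₁') ≤ 30 * M := by
    rw [← eq1, dbN hn₁]; exact ofL d1
  have btri : ∀ x y z, db S s d x z ≤ db S s d x y + db S s d y z := db_tri hC
  have bsym : ∀ x y, db S s d x y = db S s d y x := db_symm hC
  have B0 : 30 * M + 6 * s < dd S s ((n₁ * g) * pt π w x₀') ((n₁ * g) * pt π w x₁') := by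
    have q1 := db_le hC ((n₁ * g) * pt π w x₀') ((n₁ * g) * pt π w x₁')
    have q2 := btri (pt π w x₀) ((n₁ * g) * pt π w x₀') (pt π w x₁)
    have q3 := btri ((n₁ * g) * pt π w x₀') ((n₁ * g) * pt π w x₁') (pt π w x₁)
    rw [bsym ((n₁ * g) * pt π w x₁') (pt π w x₁)] at q3
    rw [hdd lx0 lx1] at q2
    linarith
  have B0' : 30 * M + 6 * s < dd S s ((n₁ * g) * pt π w y₀') ((n₁ * g) * pt π w y₁') := by
    have q1 := db_le hC ((n₁ * g) * pt π w y₀') ((n₁ * g) * pt π w y₁')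
    have q2 := btri (pt π w y₀) ((n₁ * g) * pt π w y₀') (pt π w y₁)
    have q3 := btri ((n₁ * g) * pt π w y₀') ((n₁ * g) * pt π w y₁') (pt π w y₁)
    rw [hdd ly0 ly1, sym] at q2
    rw [bsym ((n₁ * g) * pt π w y₁') (pt π w y₁)] at q3
    linarith
  have A1 := claimA hC hp hN (g₁ := n₁ * g) lx0 ly0 lx0' ly0' mx1' my1' core0 G0 G0' B0 B0'
  have hν1 : n₂ * n₁⁻¹ = 1 := lifts_agree hC hν A1 core1 T1 T2 D1 D2 (by linarith)
  rw [hν1, one_mul] at D2
  -- fellow travelling for D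
  have hQ : Pth D w.length (fun i => (n₁ * g) * pt π w i) := Pth.smul hC.linv hp (n₁ * g)
  obtain ⟨mxy, mxy'⟩ := mx2.trans1 my2
  obtain ⟨x₂', mx2', c2⟩ := fellow_dd hC hp hQ lx1 ly1 lx1' ly1' mx2 (E := 30 * M) D1 D2 (by linarith) (by linarith)
  obtain ⟨y₂', my2', d2⟩ := fellow_dd hC hp hQ lx1 ly1 lx1' ly1' mxy (E := 30 * M) D1 D2 (by linarith) (by linarith)
  have hKU : (6 * KU : ℝ) = 6000 := by norm_num [KU]
  have hLam : (Lam0 : ℝ) = 200000 := by norm_num [Lam0, KU]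
  have hB := hSB (n₁ * g) x₂ y₂ x₂' y₂' lx2 ly2 (mx2'.le lx1' ly1') (my2'.le lx1' ly1')
    (by rw [hKU]; exact le_trans c2 (by norm_num)) (by rw [hKU]; exact le_trans d2 (by norm_num))
    (by
      rw [hLam]
      have := dd_le hC.hyp S hs0 (pt π w x₂) (pt π w y₂)
      linarith)
  refine ⟨n₁, hn₁, hB.mono (by omega) ?_ ?_ ?_ ?_⟩
  · unfold Mid at *; omega
  · unfold Mid at *; omega
  · unfold Mid at *; omega
  · unfold Mid at *; omega

end Pool.Agent.helper50.BW
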