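import Pool.Agent.helper50.BW.M8
import Pool.Agent.helper50.BW.M11
/-! ## BW-M12 the step for short bridges (uses M8, M11; 60 lines)
by_cases: a cone with crossing ≥ Θ/16 and both ec > 6KU/lam: sb_case1 (E = 6KU/lam), otherwise sb_case2. -/
namespace Pool.Agent.helper50.BW
open Sum

variable {G : Type} [Group G] {D : G → G → ℝ} {C : Type} [MulAction G C] {Δ τ T : ℝ} {d m : ℕ} {LB : ℝ}
  {S : CSys D C KU Δ τ T} {U : C → G ⊕ C → ℝ} {s κ₁ κu κ₀ : ℝ} {π : FreeGroup ℕ →* G} {w : W}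

theorem Brg.push {g : G} {a b a' b' : ℕ} {H : Type} [Group H] {q : G →* H} {ν : G} (hν : ν ∈ q.ker)
    (h : Brg π w d m (ν * g) a b a' b') : Brg (q.comp π) w d m (q g) a b a' b' := by
  obtain ⟨z, z', hh, h1, h2, h3, h4, h5, h6⟩ := h
  refine ⟨z, z', hh, h1, h2, h3, ?_, h5, h6⟩
  have e := congrArg q h4
  rw [map_mul, map_mul, map_mul, MonoidHom.mem_ker.1 hν, one_mul] at e
  exact e

theorem sb_step (hC : Ctx S U s κ₁ κu κ₀ d) (hM : MC d κ₀ τ T LB) (hp : Pth D w.length (pt π w))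
    (hSB : SB D π w d m) (hN : NC S U d π w) {lam : ℝ} (hl : 0 < lam) (hl' : lam * (10 * s) ≤ 1)
    {H : Type} [Group H] (q : G →* H) (hq : Function.Surjective q) (hker : q.ker = NN S d) {D' : H → H → ℝ}
    (hD' : ∀ x y, D' (q x) (q y) = lam * db S s d x y) : SB D' (q.comp π) w d (m + 2) := by
  intro g' a b a' b' ha hb ha' hb' h1 h2 h3
  obtain ⟨g, rfl⟩ := hq g'
  have hpt : ∀ i, pt (q.comp π) w i = q (pt π w i) := fun i => rfl
  rw [hpt, hpt, ← map_mul, hD'] at h1 h2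
  rw [hpt, hpt, hD'] at h3
  have key : ∃ ν ∈ NN S d, Brg π w d (m + 2) (ν * g) a b a' b' := by
    by_cases Hc : ∀ c, 1 / 16 * (d * S.ell c) ≤ |U c (inl (pt π w b)) - U c (inl (pt π w a))| →
      ec S s (pt π w a) c ≤ 6 * KU / lam ∨ ec S s (pt π w b) c ≤ 6 * KU / lam
    · exact sb_case2 hC hp hSB hN hl hl' ha hb ha' hb' h1 h2 h3 Hc
    · push Not at Hc
      obtain ⟨c, c1, c2, c3⟩ := Hc
      have e1 : db S s d (pt π w a) (g * pt π w a') ≤ 6 * KU / lam := by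
        rw [le_div_iff₀ hl]; linarith
      have e2 : db S s d (pt π w b) (g * pt π w b') ≤ 6 * KU / lam := by
        rw [le_div_iff₀ hl]; linarith
      exact sb_case1 hC hM hp hSB hN ha hb ha' hb' e1 e2 c1 c2 c3
  obtain ⟨ν, hν, hb⟩ := key
  rw [← hker] at hν
  exact hb.push hν

end Pool.Agent.helper50.BW
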