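import Pool.Agent.helper50.BW.M15
import Pool.Agent.helper50.BW.Q1
/-! ## BW-M16 a big crossing gives a move (uses M15, Q1; 100 lines)
|U c (pt b) - U c (pt a)| > 4/5 Θ; close: |u_c difference| > 4/5 Θ - 2κu ≥ 79/100 Θ + 2.  a < b after exchanging; e := sign, f := pf S c e 1.
β := x (f a + 79/100 Θ + 1) (exists_fidx on [a,b]): f β - f a ∈ [79/100 Θ, 79/100 Θ + 2].  N := ⌊(f β - f a - 4KU)/LB⌋₊, exists_blk, move_blk. -/
namespace Pool.Agent.helper50.BW
open Sum

variable {G : Type} [Group G] {D : G → G → ℝ} {C : Type} [MulAction G C] {Δ τ T : ℝ} {d m : ℕ} {LB : ℝ}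
  {S : CSys D C KU Δ τ T} {U : C → G ⊕ C → ℝ} {s κ₁ κu κ₀ : ℝ} {π : FreeGroup ℕ →* G} {w : W}

/-- the case a ≤ b -/
private theorem m16_aux (hC : Ctx S U s κ₁ κu κ₀ d) (hM : MC d κ₀ τ T LB) (hp : Pth D w.length (pt π w))
    (hSB : SB D π w d m) (hker : π.ker ≤ Fd d) (hw : Triv d w) {c : C} {a b : ℕ} (hab : a ≤ b)
    (hb : b ≤ w.length) (hc : 4 / 5 * (d * S.ell c) < |U c (inl (pt π w b)) - U c (inl (pt π w a))|) :
    Move d (4 * d + 10) (DD d w (m + 3)) w := by
  set Θ : ℝ := d * S.ell c with hΘ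
  have hell : 10000 * κ₀ ≤ Θ := hC.ell_big c
  have q1 := hC.hK
  have q2 := hC.hΔ
  have q3 := hC.hu
  have q4 := hC.h1
  have q5 := hC.hs
  have q6 := hC.h0
  have m1 := hM.h1
  have m3 := hM.h3
  have hku : 80 * κu ≤ κ₀ := by linarith
  have cb := abs_le.1 (hC.proj.close c (pt π w b))
  have ca := abs_le.1 (hC.proj.close c (pt π w a))
  -- crossing in terms of the axis function
  have hcr : 79 / 100 * Θ + 2 ≤ |S.u c (pt π w b) - S.u c (pt π w a)| := by
    have h1 : |U c (inl (pt π w b)) - U c (inl (pt π w a))| ≤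
        |S.u c (pt π w b) - S.u c (pt π w a)| + 2 * κu := by
      have h2 := le_abs_self (S.u c (pt π w b) - S.u c (pt π w a))
      have h3 := neg_abs_le (S.u c (pt π w b) - S.u c (pt π w a))
      rw [abs_le]
      constructor <;> linarith
    linarith
  obtain ⟨e, he, hfe⟩ : ∃ e : ℤ, (e = 1 ∨ e = -1) ∧
      79 / 100 * Θ + 2 ≤ pf S c e 1 π w b - pf S c e 1 π w a := by
    unfold pf
    rcases le_total 0 (S.u c (pt π w b) - S.u c (pt π w a)) with h | h
    · refine ⟨1, Or.inl rfl, ?_⟩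
      rw [abs_of_nonneg h] at hcr
      push_cast
      rw [one_mul, one_mul, one_mul, one_mul]
      exact hcr
    · refine ⟨-1, Or.inr rfl, ?_⟩
      rw [abs_of_nonpos h] at hcr
      push_cast
      rw [one_mul, one_mul]
      linarith
  set f : ℕ → ℝ := pf S c e 1 π w with hf
  have hlip : ∀ i, i < w.length → |f (i + 1) - f i| ≤ 1 := by
    intro i hi
    have h1 := S.u_lip c (pt π w (i + 1)) (pt π w i)
    have h2 := hp.step i hi
    rw [hC.hyp.symm] at h2
    have h3 : |f (i + 1) - f i| = |S.u c (pt π w (i + 1)) - S.u c (pt π w i)| := by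
      rw [hf]
      unfold pf
      rw [one_mul, one_mul, ← mul_sub, abs_mul]
      rcases he with rfl | rfl
      · simp
      · simp
    rw [h3]
    exact h1.trans h2
  obtain ⟨x, -, hx2, hx3⟩ := exists_fidx f hab (fun i _ hi => hlip i (hi.trans_le hb))
  have hΘ0 : 0 ≤ Θ := by linarith
  have hx4 := abs_le.1 (hx3 (f a + 79 / 100 * Θ + 1) (by linarith) (by linarith))
  set β : ℕ := x (f a + 79 / 100 * Θ + 1) with hβ
  obtain ⟨hβ1, hβ2⟩ : a ≤ β ∧ β ≤ b := hx2 _
  have hLB : (0 : ℝ) < LB := by linarith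
  have hn0 : 0 ≤ (f β - f a - 4 * KU) / LB := by
    apply div_nonneg _ hLB.le
    linarith
  have hn1 := Nat.floor_le hn0
  have hn2 := Nat.lt_floor_add_one ((f β - f a - 4 * KU) / LB)
  set N : ℕ := ⌊(f β - f a - 4 * KU) / LB⌋₊ with hN
  rw [le_div_iff₀ hLB] at hn1
  rw [div_lt_iff₀ hLB] at hn2
  have hN0 : 0 < N := by
    rw [hN, Nat.floor_pos, le_div_iff₀ hLB]
    linarith
  obtain ⟨x', k, t0, hB⟩ := exists_blk f hβ1 (fun i _ hi => hlip i (hi.trans_le (hβ2.trans hb))) m1 hN0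
    (by unfold bp; linarith)
  exact move_blk hC.hyp hC.linv hp hSB hM hker hw he hβ1 (hβ2.trans hb) hB (by linarith) (by linarith)
    (by linarith)

theorem move_of_cross (hC : Ctx S U s κ₁ κu κ₀ d) (hM : MC d κ₀ τ T LB) (hp : Pth D w.length (pt π w))
    (hSB : SB D π w d m) (hker : π.ker ≤ Fd d) (hw : Triv d w) {c : C} {a b : ℕ} (ha : a ≤ w.length)
    (hb : b ≤ w.length) (hc : 4 / 5 * (d * S.ell c) < |U c (inl (pt π w b)) - U c (inl (pt π w a))|) :
    Move d (4 * d + 10) (DD d w (m + 3)) w := by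
  rcases le_total a b with h | h
  · exact m16_aux hC hM hp hSB hker hw h hb hc
  · rw [abs_sub_comm] at hc
    exact m16_aux hC hM hp hSB hker hw h ha hc

end Pool.Agent.helper50.BW
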