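import Pool.Agent.helper50.BW.M2
import Pool.Agent.helper50.BW.A1
/-! ## BW-M3 rough geodesic paths (uses A1, M2; 250 lines)
near_axis: D a x + D x b ≤ D a b + 1, lower for (a,x), (x,b), upper for (a,b): 2 r ≤ 3KU + 1.
path_pt: f i := D (p a) (p i), t := D (p a) z; if t ≤ f b: exists_mid, near2 (κ = 2): ≤ 1 + 4 + 2; if t > f b then
D z (p b) < 2, x := b.  fellow: quad (κ = 1) for p x between p a and p b; z' between p a and q a' would give
D (p a) (p x) ≤ E + 2 + 20; so z' is 2-between q a', q b': path_pt. -/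
namespace Pool.Agent.helper50.BW
open Sum

variable {X : Type} {E : X → X → ℝ} {n : ℕ} {p q : ℕ → X}
theorem Mid.trans1 {a x y b : ℕ} (h : Mid a x b) (h' : Mid x y b) : Mid a y b ∧ Mid a x y := by
  unfold Mid at *
  omega

theorem Mid.trans2 {a x y b : ℕ} (h : Mid a y b) (h' : Mid a x y) : Mid a x b ∧ Mid x y b := by
  unfold Mid at *
  omega

theorem Mid.symm {a x b : ℕ} (h : Mid a x b) : Mid b x a := by
  unfold Mid at *
  omega

theorem Mid.le {a x b n : ℕ} (h : Mid a x b) (ha : a ≤ n) (hb : b ≤ n) : x ≤ n := by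
  unfold Mid at *
  omega

theorem Mid.abs_le {a x y b : ℕ} (h : Mid a x b) (h' : Mid a y b) : |(y : ℝ) - x| ≤ |(b : ℝ) - a| := by
  unfold Mid at *
  rcases le_total a b with hab | hab
  · have h1 : (a : ℝ) ≤ b := by exact_mod_cast hab
    have h2 : (a : ℝ) ≤ x := by exact_mod_cast (by omega : a ≤ x)
    have h3 : (x : ℝ) ≤ b := by exact_mod_cast (by omega : x ≤ b)
    have h4 : (a : ℝ) ≤ y := by exact_mod_cast (by omega : a ≤ y)
    have h5 : (y : ℝ) ≤ b := by exact_mod_cast (by omega : y ≤ b)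
    rw [abs_of_nonneg (sub_nonneg.2 h1), _root_.abs_le]
    constructor <;> linarith
  · have h1 : (b : ℝ) ≤ a := by exact_mod_cast hab
    have h2 : (b : ℝ) ≤ x := by exact_mod_cast (by omega : b ≤ x)
    have h3 : (x : ℝ) ≤ a := by exact_mod_cast (by omega : x ≤ a)
    have h4 : (b : ℝ) ≤ y := by exact_mod_cast (by omega : b ≤ y)
    have h5 : (y : ℝ) ≤ a := by exact_mod_cast (by omega : y ≤ a)
    rw [abs_of_nonpos (sub_nonpos.2 h1), _root_.abs_le]
    constructor <;> linarith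

theorem Pth.btw (h : Hyp E) (hp : Pth E n p) {a x b : ℕ} (hx : Mid a x b) (ha : a ≤ n) (hb : b ≤ n) :
    Btw E 1 (p a) (p x) (p b) := by
  unfold Mid at hx
  unfold Btw
  rcases le_total a b with hab | hab
  · exact hp.qg a x b (by omega) (by omega) hb
  · have h1 := hp.qg b x a (by omega) (by omega) ha
    rw [h.symm (p a) (p x), h.symm (p x) (p b), h.symm (p a) (p b)]
    linarith

theorem Pth.btw4 (h : Hyp E) (hp : Pth E n p) {a x y b : ℕ} (hx : Mid a x b) (hy : Mid x y b) (ha : a ≤ n)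
    (hb : b ≤ n) : E (p a) (p x) + E (p x) (p y) + E (p y) (p b) ≤ E (p a) (p b) + 2 := by
  have h1 := hp.btw h hx ha hb
  have h2 := hp.btw h hy (hx.le ha hb) hb
  unfold Btw at h1 h2
  linarith

theorem Pth.le (h : Hyp E) (hp : Pth E n p) {a b : ℕ} (hab : a ≤ b) (hb : b ≤ n) :
    E (p a) (p b) ≤ (b : ℝ) - a := by
  induction b, hab using Nat.le_induction with
  | base => rw [h.refl]; simp
  | succ c hc ih =>
    have h1 := ih (by omega)
    have h2 := hp.step c (by omega)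
    have h3 := h.tri (p a) (p c) (p (c + 1))
    push_cast
    linarith

theorem M3_lip (h : Hyp E) (hp : Pth E n p) (z : X) (i : ℕ) (hi : i < n) :
    |E z (p (i + 1)) - E z (p i)| ≤ 1 := by
  have h1 := hp.step i hi
  have h2 := h.tri z (p i) (p (i + 1))
  have h3 := h.tri z (p (i + 1)) (p i)
  have h4 := h.symm (p i) (p (i + 1))
  rw [_root_.abs_le]
  constructor <;> linarith

theorem path_pt (h : Hyp E) (hp : Pth E n p) {a b : ℕ} (ha : a ≤ n) (hb : b ≤ n) {z : X}
    (hz : Btw E 2 (p a) z (p b)) : ∃ x, Mid a x b ∧ E z (p x) ≤ 10 := by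
  by_cases ht : E (p a) z ≤ E (p a) (p b)
  · obtain ⟨x, hx, hxt⟩ := exists_mid (fun i => E (p a) (p i)) ha hb (fun i hi => M3_lip h hp (p a) i hi)
      (t := E (p a) z) (by simp only [h.refl]; exact h.nonneg _ _) ht
    refine ⟨x, hx, ?_⟩
    have hb1 := hp.btw h hx ha hb
    have hb2 : Btw E 2 (p a) (p x) (p b) := by
      unfold Btw at *
      linarith
    have h1 := h.near2 hz hb2
    rw [abs_sub_comm] at hxt
    linarith
  · push Not at ht
    refine ⟨b, ?_, ?_⟩
    · unfold Mid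
      omega
    · unfold Btw at hz
      linarith

theorem fellow (h : Hyp E) (hp : Pth E n p) (hq : Pth E n q) {a b a' b' x : ℕ} (ha : a ≤ n) (hb : b ≤ n)
    (ha' : a' ≤ n) (hb' : b' ≤ n) (hx : Mid a x b) {e : ℝ} (h1 : E (p a) (q a') ≤ e) (h2 : E (p b) (q b') ≤ e)
    (h3 : e + 25 ≤ E (p a) (p x)) (h4 : e + 25 ≤ E (p x) (p b)) :
    ∃ x', Mid a' x' b' ∧ E (p x) (q x') ≤ 30 := by
  obtain ⟨z', hz1, hz2⟩ := h.quad (by norm_num : (0 : ℝ) ≤ 1) (hp.btw h hx ha hb) (q a') (q b')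
  have s1 := h.symm (p x) z'
  rcases hz2 with hz2 | hz2 | hz2
  · exfalso
    unfold Btw at hz2
    have t1 := h.tri (p a) z' (p x)
    have n1 := h.nonneg z' (q a')
    linarith
  · obtain ⟨x', hx1, hx2⟩ := path_pt h hq ha' hb' hz2
    refine ⟨x', hx1, ?_⟩
    have t1 := h.tri (p x) z' (q x')
    linarith
  · exfalso
    unfold Btw at hz2
    have t1 := h.tri (p x) z' (p b)
    have n1 := h.nonneg (q b') z'
    have s2 := h.symm (q b') (p b)
    linarith

variable {G : Type} [Group G] {D : G → G → ℝ} {C : Type} [MulAction G C] {Δ τ T : ℝ} {r : ℕ → G}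

theorem Pth.smul (hi : LInv D) (hp : Pth D n r) (g : G) : Pth D n (fun a => g * r a) := by
  constructor
  · intro a ha
    rw [hi]
    exact hp.step a ha
  · intro a b c hab hbc hc
    rw [hi, hi, hi]
    exact hp.qg a b c hab hbc hc

theorem near_axis (h : Hyp D) (S : CSys D C KU Δ τ T) (hp : Pth D n r) {c : C} {a x b : ℕ} (hx : Mid a x b)
    (ha : a ≤ n) (hb : b ≤ n) (h1 : KU ≤ |S.u c (r x) - S.u c (r a)|) (h2 : KU ≤ |S.u c (r x) - S.u c (r b)|) :
    S.r c (r x) ≤ 2 * KU := by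
  have h3 := S.lower c (r x) (r a) h1
  have h4 := S.lower c (r x) (r b) h2
  have h5 := S.upper c (r a) (r b)
  have h6 := hp.btw h hx ha hb
  unfold Btw at h6
  have h7 := h.symm (r x) (r a)
  have h8 : |S.u c (r a) - S.u c (r b)| ≤ |S.u c (r x) - S.u c (r a)| + |S.u c (r x) - S.u c (r b)| := by
    rw [abs_sub_comm (S.u c (r x)) (S.u c (r a))]
    exact abs_sub_le _ _ _
  linarith

theorem close_axis (S : CSys D C KU Δ τ T) {c : C} {x y : G} (hx : S.r c x ≤ 2 * KU)
    (hy : S.r c y ≤ 2 * KU) (hxy : |S.u c x - S.u c y| ≤ 2) : D x y ≤ 6 * KU := by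
  have h1 := S.upper c x y
  linarith

end Pool.Agent.helper50.BW
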