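import Pool.Agent.helper50.BW.T2
import Pool.Agent.helper50.BW.M1
import Pool.Agent.helper50.BW.M3
/-! ## BW-M17 level 0 (uses T2, M1, M3; 200 lines)
fD (mk (w.take a)) (mk (w.take b)) = |b - a| for w reduced (a subword of a reduced word is reduced), so Pth with exact additivity.
sb_base: write g = π g₀ (π bijective).  Take z ∈ Mid a b with fD (pt a) (pt z), fD (pt z) (pt b) > 6KU (z := middle index).  The point
pt z is exactly between g pt a' and g pt b' (fD_four twice, as in T4 (1)), at an integer distance k from g pt a'; the vertex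
z' ∈ Mid a' b' with |z' - a'| = k has g pt z' = pt z (T4 (2): fD_four, fD_eq).  hh = []. -/
namespace Pool.Agent.helper50.BW
open Sum

private theorem m17_nonneg (x y : FreeGroup ℕ) : 0 ≤ fD x y := by
  unfold fD
  exact Nat.cast_nonneg _

/-- moving the first end point -/
private theorem m17_mv {u p v x : FreeGroup ℕ} (h : fD u p + fD p v ≤ fD u v) (hx : fD u x < fD u p) :
    fD x p + fD p v ≤ fD x v := by
  have h4 := fD_four p x u v
  have h0 := m17_nonneg p x
  have e1 := fD_symm p x
  have e2 := fD_symm p u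
  have e3 := fD_symm x u
  rcases le_max_iff.1 h4 with h5 | h5
  · linarith
  · linarith

/-- distance of two points of a segment -/
private theorem m17_dist {x y z w : FreeGroup ℕ} (hz : fD x z + fD z y ≤ fD x y)
    (hw : fD x w + fD w y ≤ fD x y) (hzw : fD x z ≤ fD x w) : fD z w ≤ fD x w - fD x z := by
  have h4 := fD_four x y z w
  have s1 := fD_symm z y
  have s2 := fD_symm w y
  have t1 := fD_tri x z y
  have t2 := fD_tri x w y
  rcases le_max_iff.1 h4 with h5 | h5
  · linarith
  · linarith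

private theorem m17_uniq {x y z w : FreeGroup ℕ} (hz : fD x z + fD z y ≤ fD x y)
    (hw : fD x w + fD w y ≤ fD x y) (hzw : fD x z = fD x w) : z = w := by
  have h1 := m17_dist hz hw hzw.le
  exact fD_eq z w (le_antisymm (by linarith) (m17_nonneg z w))

private theorem m17_le {w : W} (hw : FreeGroup.IsReduced w) {a b : ℕ} (hab : a ≤ b) (hb : b ≤ w.length) :
    fD (FreeGroup.mk (w.take a)) (FreeGroup.mk (w.take b)) = (b : ℝ) - a := by
  have h1 : w.take b = w.take a ++ (w.take b).drop a := by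
    conv_lhs => rw [← List.take_append_drop a (w.take b)]
    rw [List.take_take, min_eq_left hab]
  have h2 : (FreeGroup.mk (w.take a))⁻¹ * FreeGroup.mk (w.take b) = FreeGroup.mk ((w.take b).drop a) := by
    rw [inv_mul_eq_iff_eq_mul, FreeGroup.mul_mk, ← h1]
  have h3 : FreeGroup.IsReduced ((w.take b).drop a) :=
    List.IsChain.drop (List.IsChain.take hw b) a
  unfold fD
  rw [h2, T2_norm_mk h3, List.length_drop, List.length_take, min_eq_left hb, Nat.cast_sub hab]

private theorem m17_abs {w : W} (hw : FreeGroup.IsReduced w) {a b : ℕ} (ha : a ≤ w.length)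
    (hb : b ≤ w.length) :
    fD (FreeGroup.mk (w.take a)) (FreeGroup.mk (w.take b)) = |(b : ℝ) - a| := by
  rcases le_total a b with h | h
  · have h' : (a : ℝ) ≤ b := by exact_mod_cast h
    rw [m17_le hw h hb, abs_of_nonneg (by linarith)]
  · have h' : (b : ℝ) ≤ a := by exact_mod_cast h
    rw [fD_symm, m17_le hw h ha, abs_of_nonpos (by linarith)]
    ring

variable {G : Type} [Group G] {D : G → G → ℝ} {π : FreeGroup ℕ →* G} {w : W}
theorem pth_base (hπ : Function.Injective π) (hD : ∀ x y, D (π x) (π y) = fD x y) (hw : FreeGroup.IsReduced w) :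
    Pth D w.length (pt π w) := by
  refine ⟨?_, ?_⟩
  · intro a ha
    unfold pt
    rw [hD, m17_le hw (Nat.le_succ a) ha]
    push_cast
    linarith
  · intro a b c hab hbc hc
    unfold pt
    rw [hD, hD, hD, m17_le hw hab (hbc.trans hc), m17_le hw hbc hc, m17_le hw (hab.trans hbc) hc]
    linarith

theorem sb_base (hs : Function.Surjective π) (hD : ∀ x y, D (π x) (π y) = fD x y)
    (hw : FreeGroup.IsReduced w) (d : ℕ) : SB D π w d 0 := by
  intro g a b a' b' ha hb ha' hb' h1 h2 h3
  obtain ⟨g₀, rfl⟩ := hs g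
  unfold pt at h1 h2 h3
  rw [← map_mul, hD] at h1 h2
  rw [hD, m17_abs hw ha hb] at h3
  -- the middle index
  obtain ⟨z, hz, hza, hzb⟩ : ∃ z : ℕ, Mid a z b ∧ 6 * KU < |(z : ℝ) - a| ∧ 6 * KU < |(b : ℝ) - z| ∧
      |(z : ℝ) - a| + |(b : ℝ) - z| = |(b : ℝ) - a| := by
    refine ⟨(a + b) / 2, ?_, ?_⟩
    · unfold Mid
      omega
    · have e1 : 2 * (((a + b) / 2 : ℕ) : ℝ) ≤ a + b := by
        have : 2 * ((a + b) / 2) ≤ a + b := by omega
        exact_mod_cast this
      have e2 : (a : ℝ) + b ≤ 2 * (((a + b) / 2 : ℕ) : ℝ) + 1 := by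
        have : a + b ≤ 2 * ((a + b) / 2) + 1 := by omega
        exact_mod_cast this
      rcases le_total (a : ℝ) b with h | h
      · rw [abs_of_nonneg (by linarith)] at h3
        rw [abs_of_nonneg (by linarith : (0 : ℝ) ≤ (((a + b) / 2 : ℕ) : ℝ) - a),
          abs_of_nonneg (by linarith : (0 : ℝ) ≤ (b : ℝ) - (((a + b) / 2 : ℕ) : ℝ)),
          abs_of_nonneg (by linarith : (0 : ℝ) ≤ (b : ℝ) - a)]
        refine ⟨?_, ?_, ?_⟩ <;> linarith
      · rw [abs_of_nonpos (by linarith)] at h3
        rw [abs_of_nonpos (by linarith : (((a + b) / 2 : ℕ) : ℝ) - a ≤ 0),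
          abs_of_nonpos (by linarith : (b : ℝ) - (((a + b) / 2 : ℕ) : ℝ) ≤ 0),
          abs_of_nonpos (by linarith : (b : ℝ) - a ≤ 0)]
        refine ⟨?_, ?_, ?_⟩ <;> linarith
  have hzl : z ≤ w.length := hz.le ha hb
  set P : ℕ → FreeGroup ℕ := fun i => FreeGroup.mk (w.take i) with hP
  have daz : fD (P a) (P z) = |(z : ℝ) - a| := m17_abs hw ha hzl
  have dzb : fD (P z) (P b) = |(b : ℝ) - z| := m17_abs hw hzl hb
  have dab : fD (P a) (P b) = |(b : ℝ) - a| := m17_abs hw ha hb
  have b0 : fD (P a) (P z) + fD (P z) (P b) ≤ fD (P a) (P b) := by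
    rw [daz, dzb, dab]
    exact hzb.2.le
  have b1 : fD (g₀ * P a') (P z) + fD (P z) (P b) ≤ fD (g₀ * P a') (P b) :=
    m17_mv b0 (lt_of_le_of_lt h1 (by rw [daz]; exact hza))
  have s1 := fD_symm (P z) (P b)
  have s2 := fD_symm (g₀ * P a') (P z)
  have s3 := fD_symm (g₀ * P a') (P b)
  have b2 : fD (g₀ * P b') (P z) + fD (P z) (g₀ * P a') ≤ fD (g₀ * P b') (g₀ * P a') :=
    m17_mv (u := P b) (by linarith) (lt_of_le_of_lt h2 (by rw [← s1, dzb]; exact hzb.1))
  have s4 := fD_symm (g₀ * P b') (P z)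
  have s5 := fD_symm (g₀ * P b') (g₀ * P a')
  have b3 : fD (g₀ * P a') (P z) + fD (P z) (g₀ * P b') ≤ fD (g₀ * P a') (g₀ * P b') := by
    linarith
  have dd : fD (g₀ * P a') (g₀ * P b') = |(b' : ℝ) - a'| := by
    rw [fD_linv]
    exact m17_abs hw ha' hb'
  -- the distance from the first end point
  set k : ℕ := ((g₀ * P a')⁻¹ * P z).norm with hk
  have dk : fD (g₀ * P a') (P z) = k := rfl
  have hkle : (k : ℝ) ≤ |(b' : ℝ) - a'| := by
    have := m17_nonneg (P z) (g₀ * P b')
    linarith
  obtain ⟨z', hz', hz1, hz2⟩ : ∃ z' : ℕ, Mid a' z' b' ∧ |(z' : ℝ) - a'| = k ∧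
      |(b' : ℝ) - z'| = |(b' : ℝ) - a'| - k := by
    rcases le_total a' b' with h | h
    · have h' : (a' : ℝ) ≤ b' := by exact_mod_cast h
      rw [abs_of_nonneg (by linarith)] at hkle ⊢
      have hk2 : a' + k ≤ b' := by
        have : (a' : ℝ) + k ≤ b' := by linarith
        exact_mod_cast this
      have hk3 : (a' : ℝ) + k ≤ b' := by linarith
      refine ⟨a' + k, ?_, ?_, ?_⟩
      · unfold Mid
        omega
      · push_cast
        rw [add_sub_cancel_left]
        exact abs_of_nonneg (Nat.cast_nonneg k)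
      · push_cast
        rw [abs_of_nonneg (by linarith)]
        ring
    · have h' : (b' : ℝ) ≤ a' := by exact_mod_cast h
      rw [abs_of_nonpos (by linarith : (b' : ℝ) - a' ≤ 0)] at hkle ⊢
      have hk2 : b' + k ≤ a' := by
        have : (b' : ℝ) + k ≤ a' := by linarith
        exact_mod_cast this
      have hk3 : k ≤ a' := by omega
      refine ⟨a' - k, ?_, ?_, ?_⟩
      · unfold Mid
        omega
      · rw [Nat.cast_sub hk3, sub_sub_cancel_left, abs_neg]
        exact abs_of_nonneg (Nat.cast_nonneg k)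
      · rw [Nat.cast_sub hk3, abs_of_nonpos (by linarith)]
        ring
  have hz'l : z' ≤ w.length := hz'.le ha' hb'
  have c1 : fD (g₀ * P a') (g₀ * P z') = k := by
    rw [fD_linv]
    exact (m17_abs hw ha' hz'l).trans hz1
  have c2 : fD (g₀ * P z') (g₀ * P b') = |(b' : ℝ) - a'| - k := by
    rw [fD_linv]
    exact (m17_abs hw hz'l hb').trans hz2
  have key : P z = g₀ * P z' := by
    refine m17_uniq b3 ?_ ?_
    · rw [c1, c2, dd]
      linarith
    · rw [c1, dk]
  refine ⟨z, z', [], hz, hz', DD_nil d w 0, ?_, ?_, ?_⟩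
  · unfold pt
    rw [← map_mul, ← map_mul]
    congr 1
    rw [← FreeGroup.one_eq_mk, mul_one]
    exact key
  · simp only [List.length_nil, Nat.cast_zero]
    positivity
  · simp only [List.length_nil, Nat.cast_zero]
    positivity

end Pool.Agent.helper50.BW
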