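import Pool.Agent.helper50.BW.T6
import Pool.Agent.helper50.BW.M12
import Pool.Agent.helper50.BW.M16
import Pool.Agent.helper50.BW.M17
/-! ## BW-M18 all levels, conclusion (uses T6, M7, M12, M16, M17, S7; 250 lines)
LB := 2 * 10^10, MC from d ≥ d₀ (d₀ := ⌈max (10000 ck0/ctau) (20 LB²/ctau²)⌉).  clam = 1/b, b = 3^20.
levels: induction on j: Pth and SB (m = 2j) at level j.  NC at level j: otherwise move_of_cross: Move in DD (2j+3); the crossing
> 4/5 Θ is ≥ 1 + 2κu, so 1 ≤ |u_c difference| ≤ D (pt a) (pt b) ≤ clam^j fD ≤ clam^j w.length (tower_dist), b^j ≤ w.length, j ≤ Nat.log b w.length,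
DD_mono, Move.mono: contradiction to hno.  Step: qg_step, sb_step.
main: otherwise hno; j minimal with mk w ∈ ker π_j (tower_exh); j = 0 impossible (w reduced, nonempty, π_0 injective); level i = j - 1:
π_i (mk w) ∈ ker q = NN, ≠ 1; greendlinger with o = 1: last step c, e: crossing of c on (pt 0, pt n) is ≥ Θ - 2κ₁ > 4/5 Θ,
contradiction to NC (pt 0 = 1, pt n = π (mk w)). -/
namespace Pool.Agent.helper50.BW
open Sum

theorem m18_fD_pt {w : W} {a b : ℕ} (ha : a ≤ w.length) (hb : b ≤ w.length) :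
    fD (FreeGroup.mk (w.take a)) (FreeGroup.mk (w.take b)) ≤ w.length := by
  have h1 := pt_sub (MonoidHom.id (FreeGroup ℕ)) ha hb
  have h2 : (FreeGroup.mk (w.take a))⁻¹ * FreeGroup.mk (w.take b) = FreeGroup.mk (sub w a b) := by
    unfold pt at h1
    simp only [MonoidHom.id_apply] at h1
    rw [← h1]; group
  unfold fD
  rw [h2]
  have h3 : (FreeGroup.norm (FreeGroup.mk (sub w a b)) : ℝ) ≤ ((sub w a b).length : ℝ) := by
    exact_mod_cast FreeGroup.norm_mk_le
  refine h3.trans ?_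
  rw [sub_length ha hb]
  have ha' : (a : ℝ) ≤ w.length := by exact_mod_cast ha
  have hb' : (b : ℝ) ≤ w.length := by exact_mod_cast hb
  have ha0 : (0 : ℝ) ≤ a := Nat.cast_nonneg a
  have hb0 : (0 : ℝ) ≤ b := Nat.cast_nonneg b
  rw [abs_le]
  constructor <;> linarith

/-- no large crossings at level j -/
theorem m18_nc {d : ℕ} {L : ℕ → Lvl d} (hinj : Function.Injective (L 0).π)
    (h0 : ∀ x y, (L 0).D ((L 0).π x) ((L 0).π y) = fD x y) (hn : ∀ j, IsNext (L j) (L (j + 1))) {LB : ℝ}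
    (hM : MC d ck0 ctau cT LB) {w : W} (hT : Triv d w)
    (hno : ¬ Move d (4 * d + 10) (DD d w (2 * Nat.log 3486784401 w.length + 3)) w) {j : ℕ}
    (hp : Pth (L j).D w.length (pt (L j).π w)) (hS : SB (L j).D (L j).π w d (2 * j))
    (C : Type) (_ : MulAction (L j).G C) (S : CSys (L j).D C KU cD ctau cT) (U : C → (L j).G ⊕ C → ℝ)
    (hC : Ctx S U cs ck1 cku ck0 d) : NC S U d (L j).π w := by
  intro c a b ha hb
  by_contra hcon
  push Not at hcon
  have hmv := move_of_cross hC hM hp hS (tower_ker hinj hn j) hT ha hb hcon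
  apply hno
  refine Move.mono (DD_mono ?_) hmv
  suffices hj : j ≤ Nat.log 3486784401 w.length by omega
  have h1 := hC.proj.close c (pt (L j).π w a)
  have h2 := hC.proj.close c (pt (L j).π w b)
  have h3 := S.u_lip c (pt (L j).π w b) (pt (L j).π w a)
  have h4 : (L j).D (pt (L j).π w b) (pt (L j).π w a) ≤ clam ^ j * w.length := by
    have h5 := tower_dist h0 hn j (FreeGroup.mk (w.take b)) (FreeGroup.mk (w.take a))
    have h6 := m18_fD_pt hb ha
    have h7 : (0 : ℝ) ≤ clam ^ j := pow_nonneg (by norm_num) _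
    exact h5.trans (mul_le_mul_of_nonneg_left h6 h7)
  have h5 : (d : ℝ) * ctau ≤ d * S.ell c :=
    mul_le_mul_of_nonneg_left (S.ell_ge c) (Nat.cast_nonneg d)
  have hbig := hC.big
  have hk : (1 : ℝ) + 2 * cku ≤ 4 / 5 * (10000 * ck0) := by
    norm_num [ck0, cku, cs, cD, cDs, ck1, KU]
  have h6 : (1 : ℝ) ≤ clam ^ j * w.length := by
    rw [abs_le] at h1 h2
    have h7 : (1 : ℝ) ≤ |S.u c (pt (L j).π w b) - S.u c (pt (L j).π w a)| := by
      by_contra hc7
      push Not at hc7
      rw [abs_lt] at hc7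
      have h8 : 1 + 2 * cku < |U c (inl (pt (L j).π w b)) - U c (inl (pt (L j).π w a))| := by
        linarith
      rcases abs_cases (U c (inl (pt (L j).π w b)) - U c (inl (pt (L j).π w a))) with ⟨h9, _⟩ | ⟨h9, _⟩ <;>
      rw [h9] at h8 <;> linarith [hc7.1, hc7.2, h1.1, h1.2, h2.1, h2.2]
    linarith
  have h7 : (3486784401 : ℝ) ^ j ≤ w.length := by
    have e : clam ^ j * (3486784401 : ℝ) ^ j = 1 := by
      rw [← mul_pow]
      norm_num
    have hpos : (0 : ℝ) < (3486784401 : ℝ) ^ j := by positivity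
    calc (3486784401 : ℝ) ^ j = (3486784401 : ℝ) ^ j * 1 := by ring
      _ ≤ (3486784401 : ℝ) ^ j * (clam ^ j * w.length) := mul_le_mul_of_nonneg_left h6 hpos.le
      _ = (clam ^ j * (3486784401 : ℝ) ^ j) * w.length := by ring
      _ = w.length := by rw [e, one_mul]
  have h8 : (3486784401 : ℕ) ^ j ≤ w.length := by exact_mod_cast h7
  exact Nat.le_log_of_pow_le (by norm_num) h8

theorem m18_ps {d : ℕ} {L : ℕ → Lvl d} (hinj : Function.Injective (L 0).π)
    (h0 : ∀ x y, (L 0).D ((L 0).π x) ((L 0).π y) = fD x y) (hn : ∀ j, IsNext (L j) (L (j + 1))) {LB : ℝ}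
    (hM : MC d ck0 ctau cT LB) {w : W} (hw : FreeGroup.IsReduced w) (hT : Triv d w)
    (hno : ¬ Move d (4 * d + 10) (DD d w (2 * Nat.log 3486784401 w.length + 3)) w) (j : ℕ) :
    Pth (L j).D w.length (pt (L j).π w) ∧ SB (L j).D (L j).π w d (2 * j) := by
  induction j with
  | zero => exact ⟨pth_base hinj h0 hw, sb_base (L 0).surj h0 hw d⟩
  | succ j ih =>
    obtain ⟨hp, hS⟩ := ih
    obtain ⟨C, iC, S, U, q, hF, hker, hq, hπ, hD⟩ := hn j
    have hN := m18_nc hinj h0 hn hM hT hno hp hS C iC S U hF.ctx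
    have h1 := qg_step hF.ctx hN hp hF.hlam hF.hlam'
    have h2 := sb_step hF.ctx hM hp hS hN hF.hlam hF.hlam' q hq hker hD
    have e : ∀ a, pt (L (j + 1)).π w a = q (pt (L j).π w a) := by
      intro a
      unfold pt
      rw [hπ, MonoidHom.comp_apply]
    refine ⟨⟨?_, ?_⟩, ?_⟩
    · intro a ha
      rw [e, e, hD]
      exact h1.step a ha
    · intro a b c hab hbc hc
      rw [e, e, e, hD, hD, hD]
      exact h1.qg a b c hab hbc hc
    · rw [hπ]
      exact h2

theorem levels {d : ℕ} {L : ℕ → Lvl d} (hinj : Function.Injective (L 0).π)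
    (h0 : ∀ x y, (L 0).D ((L 0).π x) ((L 0).π y) = fD x y) (hn : ∀ j, IsNext (L j) (L (j + 1))) {LB : ℝ}
    (hM : MC d ck0 ctau cT LB) {w : W} (hw : FreeGroup.IsReduced w) (hT : Triv d w)
    (hno : ¬ Move d (4 * d + 10) (DD d w (2 * Nat.log 3486784401 w.length + 3)) w) (j : ℕ) :
    Pth (L j).D w.length (pt (L j).π w) ∧ SB (L j).D (L j).π w d (2 * j) ∧
      ∀ (C : Type) (_ : MulAction (L j).G C) (S : CSys (L j).D C KU cD ctau cT) (U : C → (L j).G ⊕ C → ℝ),
        Ctx S U cs ck1 cku ck0 d → NC S U d (L j).π w := by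
  obtain ⟨hp, hS⟩ := m18_ps hinj h0 hn hM hw hT hno j
  exact ⟨hp, hS, fun C iC S U hC => m18_nc hinj h0 hn hM hT hno hp hS C iC S U hC⟩

theorem m18_MC {d : ℕ} (h1 : 10000 * ck0 / ctau ≤ d) (h2 : 20 * (20000000000 : ℝ) ^ 2 / ctau ^ 2 ≤ d)
    (hd : 1 ≤ d) : MC d ck0 ctau cT 20000000000 where
  hτ := ctau_pos
  hd := hd
  h1 := by norm_num [Lam0, KU]
  h2 := by norm_num [cT]
  h3 := by norm_num [ck0, cs, cD, cDs, cku, ck1, KU]
  h4 := (div_le_iff₀ ctau_pos).1 h1
  h5 := (div_le_iff₀ (pow_pos ctau_pos 2)).1 h2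

theorem main_statement : MainStatement := by
  refine ⟨max ⌈10000 * ck0 / ctau⌉₊ ⌈20 * (20000000000 : ℝ) ^ 2 / ctau ^ 2⌉₊, ?_⟩
  intro d hd hodd
  refine ⟨3486784401, 2, 3, 4 * d + 10, by norm_num, by norm_num, ?_⟩
  intro w hne hw hT
  by_contra hno
  have hd1 : 10000 * ck0 / ctau ≤ d :=
    (Nat.le_ceil _).trans (by exact_mod_cast (le_max_left _ _).trans hd)
  have hd2 : 20 * (20000000000 : ℝ) ^ 2 / ctau ^ 2 ≤ d :=
    (Nat.le_ceil _).trans (by exact_mod_cast (le_max_right _ _).trans hd)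
  have hM := m18_MC hd1 hd2 hodd.pos
  obtain ⟨L, hinj, h0, hn⟩ := tower hodd hM.h4
  have hex := tower_exh h0 hn hT
  classical
  have hj := Nat.find_spec hex
  have hmin : ∀ i < Nat.find hex, FreeGroup.mk w ∉ (L i).π.ker := fun i hi => Nat.find_min hex hi
  generalize Nat.find hex = j at hj hmin
  cases j with
  | zero =>
    rw [MonoidHom.mem_ker] at hj
    have h1 : FreeGroup.mk w = 1 := hinj (by rw [hj, map_one])
    have h2 : (FreeGroup.mk w).toWord = w := hw.reduce_eq
    rw [h1, FreeGroup.toWord_one] at h2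
    exact hne h2.symm
  | succ i =>
    obtain ⟨C, iC, S, U, q, hF, hker, hq, hπ, hD⟩ := hn i
    have hN := (levels hinj h0 hn hM hw hT hno i).2.2 C iC S U hF.ctx
    have hC := hF.ctx
    have h1 : (L i).π (FreeGroup.mk w) ∈ NN S d := by
      rw [← hker, MonoidHom.mem_ker, ← MonoidHom.comp_apply, ← hπ]
      exact hj
    have h2 : (L i).π (FreeGroup.mk w) ≠ 1 := hmin i (Nat.lt_succ_self i)
    have hbig := hC.big
    have hnum : 20 * ck1 + 40 * cku + 60 * KU + 1 ≤ 10000 * ck0 := by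
      norm_num [ck0, cs, cD, cDs, cku, ck1, KU]
    have hR := greendlinger hC.hyp hC.linv hC.proj (by norm_num) hC.hu hC.h1 (hnum.trans hbig)
      (1 : (L i).G) h1
    have hp0 : pt (L i).π w 0 = 1 := by
      unfold pt
      rw [List.take_zero]
      exact map_one _
    have hpn : pt (L i).π w w.length = (L i).π (FreeGroup.mk w) := by
      unfold pt
      rw [List.take_length]
    have key : ∀ c : C, |U c (inl ((L i).π (FreeGroup.mk w))) - U c (inl (1 : (L i).G))| ≤
        4 / 5 * (d * S.ell c) := by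
      intro c
      have := hN c 0 w.length (Nat.zero_le _) le_rfl
      rwa [hp0, hpn] at this
    generalize (L i).π (FreeGroup.mk w) = n at h2 hR key
    cases hR with
    | one => exact h2 rfl
    | step c e n' he hR' hc =>
      have hk := key c
      rw [mul_one] at hc
      have h5 : (d : ℝ) * ctau ≤ d * S.ell c :=
        mul_le_mul_of_nonneg_left (S.ell_ge c) (Nat.cast_nonneg d)
      have hnum2 : 2 * ck1 < 1 / 5 * (10000 * ck0) := by
        norm_num [ck0, cs, cD, cDs, cku, ck1, KU]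
      rw [abs_le] at hk
      rcases he with he | he
      · rw [he] at hc hk
        push_cast at hc
        rw [one_mul] at hc
        linarith [hk.1, hk.2]
      · rw [he] at hc hk
        push_cast at hc
        linarith [hk.1, hk.2]

end Pool.Agent.helper50.BW
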