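import Pool.Agent.helper50.BW.A4
import Pool.Agent.helper50.BW.A6
/-! ## BW-A7 Elementary consequences of Stg (uses A3, A4, A6) -/
namespace Pool.Agent.helper50.BW
open Filter Topology
variable {G : Type} [Group G] {D : G → G → ℝ} {d : ℕ} {τ ε A T' Δ : ℝ}
/-- d τ ≤ D x (g^d x) = 0 is impossible for g^d = 1 and τ>0, so: -/
theorem Stg.lox_sl (hS : Stg D d τ ε A T' Δ) {g : G} (hg : g ^ d ≠ 1) : τ ≤ sl D g :=
  sl_ge hS.hyp hS.linv g τ ((hS.ti g).resolve_left hg)
/-- powers of loxodromic elements are loxodromic: g^(n d)=1 with n≠0 would give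
n d τ ≤ D x x = 0. -/
theorem Stg.lox_zpow (hS : Stg D d τ ε A T' Δ) (hd : 0 < d) (hτ : 0 < τ) {g : G} (hg : g ^ d ≠ 1)
    {n : ℤ} (hn : n ≠ 0) : (g ^ n) ^ d ≠ 1 := by
  intro h
  have hlox := (hS.ti g).resolve_left hg
  have h1 : g ^ (n.natAbs * d) = 1 := by
    rcases Int.natAbs_eq n with h2 | h2
    · rw [h2, zpow_natCast, ← pow_mul] at h
      exact h
    · rw [h2, zpow_neg, zpow_natCast, inv_pow, ← pow_mul, inv_eq_one] at h
      exact h
  have h2 := hlox 1 (n.natAbs * d)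
  rw [h1, one_mul, hS.hyp.refl] at h2
  have h3 : 0 < ((n.natAbs * d : ℕ) : ℝ) := by
    have : 0 < n.natAbs * d := Nat.mul_pos (Int.natAbs_pos.mpr hn) hd
    exact_mod_cast this
  have h4 : 0 < ((n.natAbs * d : ℕ) : ℝ) * τ := mul_pos h3 hτ
  linarith
/-- torsion elements have an almost fixed point (exists_min, sl = 0) -/
theorem Stg.tor_fix (hS : Stg D d τ ε A T' Δ) (hd : 0 < d) {g : G} (hg : g ^ d = 1) :
    ∃ x, D x (g * x) ≤ 15 := by
  obtain ⟨x, hx⟩ := exists_min hS.hyp hS.linv g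
  rw [sl_tor hS.hyp hS.linv g d hd hg] at hx
  exact ⟨x, by linarith⟩
/-- a torsion element commuting with a loxodromic one is trivial: x from tor_fix, then g^n x is also
moved by ≤ 15 by h, D x (g^n x) ≥ nτ ≥ A for large n, and p0. -/
theorem Stg.comm_tor (hS : Stg D d τ ε A T' Δ) (hd : 0 < d) (hτ : 0 < τ) (hε : 15 ≤ ε)
    {g h : G} (hg : g ^ d ≠ 1) (hh : h ^ d = 1) (hc : g * h = h * g) : h = 1 := by
  have hlox := (hS.ti g).resolve_left hg
  obtain ⟨x, hx⟩ := hS.tor_fix hd hh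
  obtain ⟨n, hn⟩ := exists_nat_ge (A / τ)
  have hA : A ≤ (n : ℝ) * τ := by
    rwa [div_le_iff₀ hτ] at hn
  have hcn : h * g ^ n = g ^ n * h := by
    have : Commute h g := hc.symm
    exact (this.pow_right n).eq
  have hy : D (g ^ n * x) (h * (g ^ n * x)) ≤ ε := by
    have h1 : h * (g ^ n * x) = g ^ n * (h * x) := by
      rw [← mul_assoc, hcn, mul_assoc]
    rw [h1, hS.linv]
    linarith
  exact hS.p0 h x (g ^ n * x) hh (by linarith) hy (hA.trans (hlox x n))
/-- D x (g x) ≤ D y (g y) + 2 D x y -/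
theorem disp_le (h : Hyp D) (hi : LInv D) (g x y : G) : D x (g * x) ≤ D y (g * y) + 2 * D x y := by
  have h1 := h.tri x y (g * x)
  have h2 := h.tri y (g * y) (g * x)
  have h3 : D (g * y) (g * x) = D x y := by rw [hi, h.symm]
  linarith

end Pool.Agent.helper50.BW
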