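import Pool.Agent.helper50.BW.F4
/-! ## BW-F5 hyperbolicity of dd (uses AL, A1)
center: a = rough2 point of (x,y) at t = (Dxy+Dxz-Dyz)/2; near with w = z.
four: a = center of (x,y,z), b = center of (x,y,w), both 2-between x,y.  Say D x a ≤ D x b (else exchange z
and w).  near2: D a b ≤ D x b - D x a + 6, so Btw 6 x a b and Btw 8 y b a.
 dd x w ≥ dd x b + dd b w - 5s, dd y z ≥ dd y a + dd a z - 5s, dd x b ≥ dd x a + dd a b - 5s,
 dd y a ≥ dd y b + dd b a - 5s;  dd x y ≤ dd x a + dd a b + dd b y, dd z w ≤ dd z a + dd a b + dd b w. -/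
namespace Pool.Agent.helper50.BW
open Sum
variable {G : Type} [Group G] {D : G → G → ℝ} {C : Type} [MulAction G C] {K Δ τ T : ℝ}

theorem Hyp.center (h : Hyp D) (x y z : G) :
    ∃ a, Btw D 2 x a y ∧ Btw D 6 x a z ∧ Btw D 6 y a z := by
  have t1 := h.tri x y z
  have t2 := h.tri y x z
  have t3 := h.tri x z y
  have s1 := h.symm y x
  have s2 := h.symm z y
  have s3 := h.symm z x
  obtain ⟨a, ha, h1, h2⟩ := h.rough2 x y ((D x y + D x z - D y z) / 2) (by linarith) (by linarith)
  have h3 := h.near ha z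
  have h4 := abs_le.1 h1
  have h5 := abs_le.1 h2
  have h6 : max (D z x - D x a) (D z y - D a y) ≤ D x z - (D x y + D x z - D y z) / 2 + 1 :=
    max_le (by linarith [h4.1]) (by linarith [h5.1])
  have s4 := h.symm z a
  have s5 := h.symm y a
  refine ⟨a, ha, ?_, ?_⟩
  · unfold Btw
    linarith [h4.2]
  · unfold Btw
    linarith [h5.2]

theorem F5_case (h : Hyp D) (S : CSys D C K Δ τ T) (hK : 100 ≤ K) {s : ℝ} (hs : 1000 * K ≤ s)
    {x y z w a b : G} (ha : Btw D 2 x a y) (ha2 : Btw D 6 y a z) (hb : Btw D 2 x b y)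
    (hb1 : Btw D 6 x b w) (hab : D x a ≤ D x b) :
    dd S s x y + dd S s z w ≤ dd S s x w + dd S s y z + 20 * s := by
  have hs0 : 0 ≤ s := by linarith
  have hn := h.near2 ha hb
  rw [abs_sub_comm, abs_of_nonneg (by linarith)] at hn
  have t1 := h.tri x a y
  have c1 : Btw D 6 x a b := by
    unfold Btw
    linarith
  have c2 : Btw D 8 y b a := by
    unfold Btw at hb ⊢
    have s1 := h.symm y b
    have s2 := h.symm b a
    have s3 := h.symm y a
    linarith
  have a1 := AL h S hK hs (by norm_num) (by linarith) hb1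
  have a2 := AL h S hK hs (by norm_num) (by linarith) ha2
  have a3 := AL h S hK hs (by norm_num) (by linarith) c1
  have a4 := AL h S hK hs (by norm_num) (by linarith) c2
  have d1 := dd_tri h S hs0 x a y
  have d2 := dd_tri h S hs0 a b y
  have d3 := dd_tri h S hs0 z a w
  have d4 := dd_tri h S hs0 a b w
  have e1 := dd_symm h S hs0 b y
  have e2 := dd_symm h S hs0 b a
  have e3 := dd_symm h S hs0 z a
  linarith

theorem dd_four (h : Hyp D) (S : CSys D C K Δ τ T) (hK : 100 ≤ K) {s : ℝ} (hs : 1000 * K ≤ s)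
    (x y z w : G) :
    dd S s x y + dd S s z w ≤ max (dd S s x z + dd S s y w) (dd S s x w + dd S s y z) + 20 * s := by
  have hs0 : 0 ≤ s := by linarith
  obtain ⟨a, ha, ha1, ha2⟩ := h.center x y z
  obtain ⟨b, hb, hb1, hb2⟩ := h.center x y w
  rcases le_total (D x a) (D x b) with hab | hab
  · have h1 := F5_case h S hK hs ha ha2 hb hb1 hab
    have h2 := le_max_right (dd S s x z + dd S s y w) (dd S s x w + dd S s y z)
    linarith
  · have h1 := F5_case h S hK hs hb hb2 ha ha1 hab
    have h2 := le_max_left (dd S s x z + dd S s y w) (dd S s x w + dd S s y z)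
    have h3 := dd_symm h S hs0 z w
    linarith

end Pool.Agent.helper50.BW
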