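import Pool.Agent.helper50.BW.DefsR
import Pool.Agent.helper50.BW.Q2
import Pool.Agent.helper50.BW.A7
import Pool.Agent.helper50.BW.F5
/-! ## BW-Q11 P0, torsion elements of G (uses Q1, Q2, F4, F7, A7; 250 lines)
v^d = 1, v ≠ 1.  z0 with D z0 (v z0) ≤ 15 (tor_fix).  Let db x (v x) ≤ E.  tight_pt: replace x by n x with
Adm 5/8 (z0, x) [db x (v x) unchanged: v n = n' v].
Adm 7/8 (x, v x): |U b (vx) - U b x| ≤ |U b x - U b z0| + |U b (v z0) - U b z0| + |U b (vx) - U b (v z0)|; middle ≤ 15 + 2κu; third =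
|U b' x - U b' z0| with b' := v⁻¹ • b.  If both outer terms are ≥ κ₀: b ≠ b' (else v ∈ zpowers (gen b) (stab), v^d = 1 and
gen b loxodromic give v = 1); Proj.dich for (z0,x), b, b'; exact_add_apex: e.g. ec z0 b' = ec z0 b + ecc b b' ≥ ec z0 b + s,
but ec z0 b' = ec (v z0) b ≤ ec z0 b + 15.  Other order the same.  So ≤ 5/8 Θ + κ₀ + 15 + 2κu.
So dd x (v x) = db x (v x) ≤ E.  G0 := (D z0 x + D z0 (vx) - D x (vx))/2 ≤ A + 20: otherwise z := rough2 point of (z0,x) at A + 2;
v z is 32-between z0 and v x, z is 4-between z0 and v x (near), near2: D z (v z) ≤ 81 ≤ ε, D z0 z ≥ A, p0: v = 1.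
center p of (x, v x, z0): D p z0 ≤ G0 + 6.  AL: dd x p + dd p (vx) ≤ E + 5s.  dd (vx) z0 ≥ dd x z0 - 15.
2 dd x z0 ≤ E + 5s + 2(A+20) + 12 + 15. -/
namespace Pool.Agent.helper50.BW
open Sum
variable {G : Type} [Group G] {D : G → G → ℝ} {C : Type} [MulAction G C] {Δ τ T : ℝ}
  {S : CSys D C KU Δ τ T} {U : C → G ⊕ C → ℝ} {s κ₁ κu κ₀ : ℝ} {d : ℕ} {ε A T' Δs lam η : ℝ}

/-- the admissibility of `(x, v x)` -/
theorem Q11_adm (hF : Full S U s κ₁ κu κ₀ d ε A T' Δs lam η) {v : G} (hv : v ^ d = 1) (hv1 : v ≠ 1)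
    {z0 x : G} (hz0 : D z0 (v * z0) ≤ 15) (hA : Adm S U d (5 / 8) (inl z0) (inl x)) :
    Adm S U d (7 / 8) (inl x) (inl (v * x)) := by
  have hC := hF.ctx
  have hK := hC.hK
  have hΔ := hC.hΔ
  have hu := hC.hu
  have hκ1 := hC.h1
  have hs := hC.hs
  have h0 := hC.h0
  have hK1000 : (KU : ℝ) = 1000 := rfl
  have hs0 : 0 ≤ s := by rw [hK1000] at hs; linarith
  have hd : 0 < d := hC.odd.pos
  intro b _ _
  set b' : C := v⁻¹ • b with hb'
  have hvb : v • b' = b := by rw [hb', smul_smul, mul_inv_cancel, one_smul]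
  have hell : S.ell b' = S.ell b := by rw [hb', S.ell_smul]
  have hΘ := hC.ell_big b
  set Θ : ℝ := d * S.ell b with hΘd
  -- the three pieces
  have p1 : |U b (inl x) - U b (inl z0)| ≤ 5 / 8 * Θ := hA b (by simp) (by simp)
  have p3 : |U b' (inl x) - U b' (inl z0)| ≤ 5 / 8 * Θ := by
    have := hA b' (by simp) (by simp)
    rwa [hell, ← hΘd] at this
  have e3 : U b (inl (v * x)) - U b (inl (v * z0)) = U b' (inl x) - U b' (inl z0) := by
    have := hC.proj.smul v b' (inl z0) (inl x) (by simp) (by simp)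
    rw [hvb] at this
    exact this
  have p2 : |U b (inl (v * z0)) - U b (inl z0)| ≤ 15 + 2 * κu := by
    have c1 := abs_le.1 (hC.proj.close b (v * z0))
    have c2 := abs_le.1 (hC.proj.close b z0)
    have c3 := abs_le.1 ((S.u_lip b z0 (v * z0)).trans hz0)
    rw [abs_le]
    constructor <;> linarith
  have q1 := abs_le.1 p1
  have q2 := abs_le.1 p2
  have q3 := abs_le.1 p3
  by_cases hlt1 : |U b (inl x) - U b (inl z0)| < κ₀
  · have q1' := abs_lt.1 hlt1
    rw [abs_le]
    constructor <;> nlinarith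
  by_cases hlt3 : |U b' (inl x) - U b' (inl z0)| < κ₀
  · have q3' := abs_lt.1 hlt3
    rw [abs_le]
    constructor <;> nlinarith
  exfalso
  push Not at hlt1 hlt3
  -- the cones are different
  have hne : b ≠ b' := by
    intro hbb
    have h1 : v • b = b := by
      conv_lhs => rw [hbb]
      exact hvb
    obtain ⟨k, hk⟩ := Subgroup.mem_zpowers_iff.mp ((S.stab v b).mp h1)
    by_cases hk0 : k = 0
    · rw [hk0, zpow_zero] at hk
      exact hv1 hk.symm
    · have := hF.stg.lox_zpow hd hC.hτ (hF.gen_lox b) hk0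
      rw [hk] at this
      exact this hv
  -- distances from z0 to the two apexes
  have hdd : dd S s z0 (v * z0) ≤ 15 := (dd_le hC.hyp S hs0 z0 (v * z0)).trans hz0
  have hdd' : dd S s (v * z0) z0 ≤ 15 := by rw [dd_symm hC.hyp S hs0]; exact hdd
  have hec : ec S s (v * z0) b = ec S s z0 b' := by
    have := ec_inv hC.hyp hC.linv S hs0 v z0 b'
    rwa [hvb] at this
  have l1 := ec_lip hC.hyp S hs0 z0 (v * z0) b
  have l2 := ec_lip hC.hyp S hs0 (v * z0) z0 b
  rw [hec] at l1 l2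
  have hs15 : 15 < s := by rw [hK1000] at hs; linarith
  have h72 : 30 * s + 30 * Δ + 72 * κu + 200 * KU ≤ κ₀ := by nlinarith
  rcases hC.proj.dich hκ1 hne (X := inl z0) (Y := inl x) (by simp) (by simp) (by simp) (by simp)
      (by linarith) (by linarith) with h | h
  · have hx : 30 * s + 30 * Δ + 72 * κu + 200 * KU ≤ |U b (inr b') - U b (inl z0)| := by
      rw [← h.1]; linarith
    have := exact_add_apex hC.hyp S hC.proj hK hΔ hu hs hne.symm hx
    have := ecc_ge hC.hyp S hs0 b b'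
    linarith
  · have hx : 30 * s + 30 * Δ + 72 * κu + 200 * KU ≤ |U b' (inr b) - U b' (inl z0)| := by
      rw [← h.1]; linarith
    have := exact_add_apex hC.hyp S hC.proj hK hΔ hu hs hne hx
    have := ecc_ge hC.hyp S hs0 b' b
    linarith

/-- the Gromov product of `x` and `v x` at an almost fixed point of `v` is bounded -/
theorem Q11_gp (hF : Full S U s κ₁ κu κ₀ d ε A T' Δs lam η) {v : G} (hv : v ^ d = 1) (hv1 : v ≠ 1)
    {z0 : G} (hz0 : D z0 (v * z0) ≤ 15) (x : G) :
    D z0 x + D z0 (v * x) - D x (v * x) ≤ 2 * (A + 20) := by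
  have hC := hF.ctx
  have h := hC.hyp
  have hi := hC.linv
  have hA0 := hF.hA
  by_contra hcon
  push Not at hcon
  have hsy1 := h.symm z0 x
  have hsy2 := h.symm z0 (v * x)
  have hsy3 := h.symm x (v * x)
  have t1 := h.tri z0 x (v * x)
  have t2 := h.tri z0 (v * x) x
  have hle : A + 2 ≤ D z0 x := by linarith
  obtain ⟨z, hz, hz1, hz2⟩ := h.rough2 z0 x (A + 2) (by linarith) hle
  have a1 := abs_le.1 hz1
  have a2 := abs_le.1 hz2
  -- v z is 32-between
  have e1 : D (v * z0) (v * z) = D z0 z := hi v z0 z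
  have e2 : D (v * z) (v * x) = D z x := hi v z x
  have e3 : D (v * z0) (v * x) = D z0 x := hi v z0 x
  have hsz : D (v * z0) z0 = D z0 (v * z0) := h.symm _ _
  have hb1 : Btw D 32 z0 (v * z) (v * x) := by
    have u1 := h.tri z0 (v * z0) (v * z)
    have u2 := h.tri (v * z0) z0 (v * x)
    unfold Btw at hz ⊢
    linarith
  have hb2 : Btw D 32 z0 z (v * x) := by
    have hn := h.near hz (v * x)
    have s1 : D (v * x) z = D z (v * x) := h.symm _ _
    have s2 : D (v * x) z0 = D z0 (v * x) := h.symm _ _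
    have s3 : D (v * x) x = D x (v * x) := h.symm _ _
    rw [s1, s2, s3] at hn
    have hmax : max (D z0 (v * x) - D z0 z) (D x (v * x) - D z x) ≤ D z0 (v * x) - D z0 z := by
      apply max_le le_rfl
      linarith
    unfold Btw
    linarith
  have hzz := h.near2 hb2 hb1
  have hdiff : |D z0 z - D z0 (v * z)| ≤ 15 := by
    have u1 := h.tri z0 (v * z0) (v * z)
    have u2 := h.tri (v * z0) z0 (v * z)
    rw [abs_le]
    constructor <;> linarith
  have hε := hF.hε
  exact hv1 (hF.stg.p0 v z0 z hv (by linarith) (by linarith) (by linarith))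

theorem p0_tor (hF : Full S U s κ₁ κu κ₀ d ε A T' Δs lam η) {v : G} (hv : v ^ d = 1) (hv1 : v ≠ 1) {E : ℝ}
    (hE : 0 ≤ E) : ∃ z0, ∀ x, db S s d x (v * x) ≤ E → db S s d x z0 ≤ RE s τ A E := by
  have hC := hF.ctx
  have h := hC.hyp
  have hi := hC.linv
  have hK := hC.hK
  have hs := hC.hs
  have hK1000 : (KU : ℝ) = 1000 := rfl
  have hs0 : 0 ≤ s := by rw [hK1000] at hs; linarith
  have hd : 0 < d := hC.odd.pos
  obtain ⟨z0, hz0⟩ := hF.stg.tor_fix hd hv
  refine ⟨z0, fun x0 hx0 => ?_⟩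
  obtain ⟨n, hn, hAdm⟩ := tight_pt hC z0 x0
  set x : G := n * x0 with hx
  -- replace x0 by x
  have hnv : v * n * v⁻¹ ∈ NN S d := by
    have := (NN_normal S d).conj_mem n hn v
    exact this
  have hdb : db S s d x (v * x) ≤ E := by
    have e1 : v * x = (v * n * v⁻¹) * (v * x0) := by rw [hx]; group
    rw [e1, hx, db_N hC hn hnv]
    exact hx0
  have hdbz : db S s d x0 z0 = db S s d x z0 := by
    have := db_N hC hn (Subgroup.one_mem (NN S d)) x0 z0
    rw [one_mul] at this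
    exact this.symm
  rw [hdbz]
  refine (db_le hC x z0).trans ?_
  have hAdm2 := Q11_adm hF hv hv1 hz0 hAdm
  have hddE : dd S s x (v * x) ≤ E := by
    rw [← lift_dist hC hAdm2]; exact hdb
  have hG := Q11_gp hF hv hv1 hz0 x
  obtain ⟨p, hp1, hp2, hp3⟩ := h.center x (v * x) z0
  have hAL := AL h S hK hs (by norm_num) (by rw [hK1000]; norm_num) hp1
  -- the centre is close to z0
  have hpz : D p z0 ≤ A + 26 := by
    have u1 := h.tri x p (v * x)
    have s1 : D (v * x) p = D p (v * x) := h.symm _ _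
    have s2 : D (v * x) z0 = D z0 (v * x) := h.symm _ _
    have s3 : D x z0 = D z0 x := h.symm _ _
    unfold Btw at hp2 hp3
    linarith
  have w1 := dd_tri h S hs0 x p z0
  have w2 := dd_tri h S hs0 (v * x) p z0
  have w3 := dd_le h S hs0 p z0
  have w4 := dd_symm h S hs0 (v * x) p
  have w5 := dd_tri h S hs0 (v * x) z0 (v * z0)
  have w6 := dd_inv h hi S hs0 v x z0
  have w7 := dd_le h S hs0 z0 (v * z0)
  have hτ := hC.hτ
  have hKτ : 0 ≤ 11 * KU * (KU / τ + 1) + 12 * KU := by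
    have : 0 ≤ KU / τ := div_nonneg (by rw [hK1000]; norm_num) hτ.le
    rw [hK1000] at this ⊢
    nlinarith
  have hs12 : 68 ≤ s := by rw [hK1000] at hs; linarith
  unfold RE
  linarith

end Pool.Agent.helper50.BW
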