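import Pool.Agent.helper50.BW.Q10
import Pool.Agent.helper50.BW.Q11
/-! ## BW-Q12 P0, elements of cones; P0 for the next level (uses Q10, Q11)
v = gen c^j, 0 < |j| ≤ (d-1)/2.  Claim: db x (v x) ≤ E ⇒ eb x c ≤ RE. -/
namespace Pool.Agent.helper50.BW
open Sum
variable {G : Type} [Group G] {D : G → G → ℝ} {C : Type} [MulAction G C] {Δ τ T : ℝ}
  {S : CSys D C KU Δ τ T} {U : C → G ⊕ C → ℝ} {s κ₁ κu κ₀ : ℝ} {d : ℕ} {ε A T' Δs lam η : ℝ}

/-- displacement of powers -/
theorem Q12_pow (h : Hyp D) (hi : LInv D) (v z : G) (m : ℕ) : D z (v ^ m * z) ≤ m * D z (v * z) := by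
  induction m with
  | zero => rw [pow_zero, one_mul, h.refl]; simp
  | succ m ih =>
    have h1 := h.tri z (v ^ m * z) (v ^ (m + 1) * z)
    have h2 : D (v ^ m * z) (v ^ (m + 1) * z) = D z (v * z) := by
      rw [pow_succ, mul_assoc, hi]
    rw [h2] at h1
    push_cast
    linarith

/-- a power of a cone generator does not fix another cone -/
theorem Q12_fix (hτ : 0 < τ) {b c : C} (hbc : b ≠ c) {j : ℤ} (hj : j ≠ 0) :
    S.gen c ^ j • b ≠ b := by
  intro hb
  obtain ⟨i, hi⟩ := (S.stab (S.gen c ^ j) b).1 hb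
  obtain ⟨p, hp, -⟩ := S.dense b 0
  have hell : τ ≤ S.ell c := S.ell_ge c
  have key : ∀ m : ℕ, (m : ℝ) * τ ≤ Δ := by
    intro m
    have e1 : S.gen b ^ (i * m) * p = S.gen c ^ (j * m) * p := by
      have h1 : S.gen b ^ i = S.gen c ^ j := hi
      rw [zpow_mul, zpow_mul, h1]
    have h2 : S.r b (S.gen b ^ (i * m) * p) ≤ KU := by
      rw [CSys.r_gen_zpow]; exact hp
    have h3 := S.sep b c (S.gen b ^ (i * m) * p) p hbc h2 hp
    rw [e1, CSys.u_gen_zpow, add_sub_cancel_left, abs_mul] at h3
    have h4 : (1 : ℝ) ≤ |(j : ℝ)| := by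
      have := Int.one_le_abs hj
      exact_mod_cast this
    have h5 : |((j * (m : ℤ) : ℤ) : ℝ)| = |(j : ℝ)| * m := by
      push_cast
      rw [abs_mul, Nat.abs_cast]
    rw [h5, abs_of_pos (lt_of_lt_of_le hτ hell)] at h3
    have hm : (0 : ℝ) ≤ m := Nat.cast_nonneg m
    calc (m : ℝ) * τ ≤ m * S.ell c := mul_le_mul_of_nonneg_left hell hm
      _ = 1 * m * S.ell c := by ring
      _ ≤ |(j : ℝ)| * m * S.ell c :=
        mul_le_mul_of_nonneg_right (mul_le_mul_of_nonneg_right h4 hm) (hτ.le.trans hell)
      _ ≤ Δ := h3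
  obtain ⟨m, hm⟩ := exists_nat_gt (Δ / τ)
  rw [div_lt_iff₀ hτ] at hm
  have := key m
  linarith

/-- the displacement pair is admissible -/
theorem Q12_adm (hC : Ctx S U s κ₁ κu κ₀ d) {c : C} {j : ℤ} (hj : j ≠ 0) (hj2 : 2 * |j| < d) {x : G}
    (hx : Adm S U d (5 / 8) (inl x) (inr c)) :
    Adm S U d (7 / 8) (inl x) (inl (S.gen c ^ j * x)) := by
  intro b _ _
  have hn := Q1_nn hC
  have hbig := hC.ell_big b
  by_cases hbc : b = c
  · subst hbc
    have h1 := hC.proj.rot b (inl x) j (by simp)
    rw [Sum.smul_inl, smul_eq_mul] at h1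
    rw [h1, add_sub_cancel_left, abs_mul]
    have h2 : 0 ≤ S.ell b := hC.hτ.le.trans (S.ell_ge b)
    have h3 : 2 * |(j : ℝ)| ≤ d := by
      have : (2 * |j| : ℤ) ≤ d := hj2.le
      exact_mod_cast this
    rw [abs_of_nonneg h2]
    have h4 : 2 * |(j : ℝ)| * S.ell b ≤ d * S.ell b := mul_le_mul_of_nonneg_right h3 h2
    linarith
  · set v := S.gen c ^ j with hv
    have hvc : v • c = c := CSys.gen_zpow_smul S c j
    set b' := v⁻¹ • b with hb'
    have hvb : v • b' = b := by rw [hb', smul_inv_smul]
    have hb'c : b' ≠ c := by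
      intro h
      apply hbc
      rw [← hvb, h, hvc]
    have hell : S.ell b' = S.ell b := S.ell_smul _ _
    have e1 : U b (inr c) - U b (inl (v * x)) = U b' (inr c) - U b' (inl x) := by
      have := hC.proj.smul v b' (inl x) (inr c) (by simp) (by
        intro h; exact hb'c (Sum.inr_injective h).symm)
      rw [hvb, Sum.smul_inr, hvc, Sum.smul_inl, smul_eq_mul] at this
      exact this
    have hcb : (inr c : G ⊕ C) ≠ inr b := fun h => hbc (Sum.inr_injective h).symm
    have hcb' : (inr c : G ⊕ C) ≠ inr b' := fun h => hb'c (Sum.inr_injective h).symm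
    have h1 := hx b (by simp) hcb
    have h2 := hx b' (by simp) hcb'
    rw [hell] at h2
    have h3 : |U b (inl (v * x)) - U b (inl x)| ≤
        |U b (inr c) - U b (inl x)| + |U b' (inr c) - U b' (inl x)| := by
      rw [← e1]
      have := abs_sub_le (U b (inl (v * x))) (U b (inr c)) (U b (inl x))
      rw [abs_sub_comm (U b (inl (v * x))) (U b (inr c))] at this
      linarith
    by_cases h4 : κ₀ ≤ |U b (inr c) - U b (inl x)|
    · by_cases h5 : κ₀ ≤ |U b' (inr c) - U b' (inl x)|
      · exfalso
        have hbb : b ≠ b' := by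
          intro h
          apply Q12_fix hC.hτ hbc hj (S := S)
          rw [← hv]
          conv_lhs => rw [h]
          exact hvb
        have hs0 : 0 < s := by
          have := hC.hs
          have : (0:ℝ) < KU := by norm_num [KU]
          linarith
        have hecc : ecc S s c b' = ecc S s c b := by
          have := ecc_inv hC.hyp hC.linv S hs0.le v c b'
          rw [hvc, hvb] at this
          exact this.symm
        have hk := hC.h0
        have hΔ := hC.hΔ
        have hu := hC.hu
        have h1' := hC.h1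
        have hsK := hC.hs
        rw [abs_sub_comm] at h4 h5
        rcases hC.proj.dich h1' hbb (X := inr c) (Y := inl x) hcb hcb' (by simp) (by simp)
          (by linarith [hn.2.2.2.2]) (by linarith [hn.2.2.2.2]) with ⟨h6, h7⟩ | ⟨h6, h7⟩
        · rw [h6] at h4
          have h8 := exact_add_apex2 hC.hyp S hC.proj hC.hK hΔ hu hsK (a := c) (b := b') (c := b)
            (fun h => hbc h.symm) hbb.symm (by linarith [hn.1])
          have h9 := ecc_ge hC.hyp S hs0.le b b'
          rw [hecc] at h8
          linarith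
        · rw [h6] at h5
          have h8 := exact_add_apex2 hC.hyp S hC.proj hC.hK hΔ hu hsK (a := c) (b := b) (c := b')
            (fun h => hb'c h.symm) hbb (by linarith [hn.1])
          have h9 := ecc_ge hC.hyp S hs0.le b' b
          rw [hecc] at h8
          linarith
      · have := hn.2.2.1
        linarith
    · have := hn.2.2.1
      linarith

/-- the estimate in G -/
theorem Q12_est (hC : Ctx S U s κ₁ κu κ₀ d) (hA : 0 ≤ A) {c : C} {j : ℤ} (hj : j ≠ 0) {E : ℝ}
    {x : G} (hx : dd S s x (S.gen c ^ j * x) ≤ E) : ec S s x c ≤ RE s τ A E := by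
  have hKU : KU = 1000 := rfl
  have hs := hC.hs
  have hs0 : 0 ≤ s := (Q1_nn hC).2.1
  have h := hC.hyp
  have hi := hC.linv
  have hτ := hC.hτ
  set v := S.gen c ^ j with hv
  have hvc : v • c = c := CSys.gen_zpow_smul S c j
  have hecv : ec S s (v * x) c = ec S s x c := by
    have := ec_inv h hi S hs0 v x c
    rwa [hvc] at this
  obtain ⟨q, hq, hq2, hq3⟩ := exists_proj S c x
  have huv : ∀ z, S.u c (v * z) = S.u c z + j * S.ell c := fun z => CSys.u_gen_zpow S c j z
  have hrv : ∀ z, S.r c (v * z) = S.r c z := fun z => CSys.r_gen_zpow S c j z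
  have hell : τ ≤ S.ell c := S.ell_ge c
  have hell0 : 0 < S.ell c := hτ.trans_le hell
  set a0 : ℝ := |(j : ℝ) * S.ell c| with ha0
  have ha0τ : τ ≤ a0 := by
    rw [ha0, abs_mul, abs_of_pos hell0]
    have h4 : (1 : ℝ) ≤ |(j : ℝ)| := by
      have := Int.one_le_abs hj
      exact_mod_cast this
    nlinarith
  have hRE0 : 0 ≤ 11 * KU * (KU / τ + 1) := by positivity
  have hec1 : 2 * ec S s x c ≤ dd S s x q + dd S s (v * x) q + s := by
    have h1 := ec_le_of h S hs0 (x := x) hq
    have h2 := ec_le_of h S hs0 (x := v * x) hq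
    rw [hecv] at h2
    linarith
  rcases le_or_gt KU a0 with hcase | hcase
  · have hbtw : Btw D (7 * KU) x q (v * x) := by
      have h1 := S.upper c q (v * x)
      have h2 := S.lower c x (v * x)
      rw [huv, hrv] at h1 h2
      have h3 : |S.u c x - (S.u c x + j * S.ell c)| = a0 := by
        rw [ha0, ← abs_neg]; congr 1; ring
      rw [h3] at h2
      have h4 := h2 hcase
      have h5 : |S.u c q - (S.u c x + j * S.ell c)| ≤ KU + a0 := by
        have e : S.u c q - (S.u c x + j * S.ell c) = (S.u c q - S.u c x) + -(j * S.ell c) := by ring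
        rw [e]
        refine (abs_add_le _ _).trans ?_
        rw [abs_neg]
        linarith
      show D x q + D q (v * x) ≤ D x (v * x) + 7 * KU
      linarith
    have hal := AL h S hC.hK hs (by norm_num [KU]) (by norm_num [KU]) hbtw
    rw [dd_symm h S hs0 q (v * x)] at hal
    unfold RE
    have : (0:ℝ) ≤ 12 * KU := by norm_num [KU]
    linarith
  · -- small rotation
    set m : ℕ := ⌈KU / τ⌉₊ with hm
    have hm1 : KU / τ ≤ m := Nat.le_ceil _
    have hm2 : (m : ℝ) < KU / τ + 1 := Nat.ceil_lt_add_one (by positivity)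
    set R' : ℝ := (21 * KU * (KU / τ + 1) + KU) / 2 with hR'
    have hsmall : ∀ z, D z (v * z) ≤ 21 * KU → S.r c z ≤ R' := by
      intro z hz
      have h1 := Q12_pow h hi v z m
      have h2 := S.lower c z (v ^ m * z)
      have e1 : v ^ m = S.gen c ^ (j * m) := by
        rw [hv, zpow_mul, zpow_natCast]
      have e2 : S.u c (v ^ m * z) = S.u c z + (j * m) * S.ell c := by
        rw [e1, CSys.u_gen_zpow]; push_cast; ring
      have e3 : S.r c (v ^ m * z) = S.r c z := by
        rw [e1, CSys.r_gen_zpow]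
      rw [e2, e3] at h2
      have h3 : |S.u c z - (S.u c z + (j * m) * S.ell c)| = m * a0 := by
        have : S.u c z - (S.u c z + (j * m) * S.ell c) = -(m * (j * S.ell c)) := by ring
        rw [this, abs_neg, abs_mul, Nat.abs_cast]
      rw [h3] at h2
      have h4 : KU ≤ m * a0 := by
        calc KU = KU / τ * τ := by field_simp
          _ ≤ m * a0 := mul_le_mul hm1 ha0τ hτ.le (Nat.cast_nonneg m)
      have h5 := h2 h4
      have h6 : (m : ℝ) * D z (v * z) ≤ (KU / τ + 1) * (21 * KU) := by
        refine mul_le_mul hm2.le hz (h.nonneg _ _) ?_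
        positivity
      have h7 : 0 ≤ (m : ℝ) * a0 := by positivity
      rw [hR']
      linarith
    have hqv : D q (v * q) ≤ 4 * KU := by
      have h1 := S.upper c q (v * q)
      rw [huv, hrv] at h1
      have h3 : |S.u c q - (S.u c q + j * S.ell c)| = a0 := by
        rw [ha0, ← abs_neg]; congr 1; ring
      rw [h3] at h1
      linarith
    set G0 : ℝ := (D q x + D q (v * x) - D x (v * x)) / 2 with hG0
    have hG : G0 ≤ R' + 10 * KU := by
      by_contra hcon
      rw [not_le] at hcon
      have hR0 : 0 ≤ R' := by positivity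
      have ht0 : 0 ≤ R' + 9 * KU := by positivity
      have htri := h.tri q x (v * x)
      have ht1 : R' + 9 * KU ≤ D q x := by
        have : G0 ≤ D q x := by rw [hG0]; linarith
        linarith
      obtain ⟨z, hz1, hz2, hz3⟩ := h.rough2 q x (R' + 9 * KU) ht0 ht1
      obtain ⟨hz2a, hz2b⟩ := abs_le.1 hz2
      obtain ⟨hz3a, hz3b⟩ := abs_le.1 hz3
      have hz1' : D q z + D z x ≤ D q x + 2 := hz1
      have hrz : R' < S.r c z := by
        have h1 := S.r_lip c x z
        have h2 := (abs_le.1 h1).2
        rw [h.symm x z] at h2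
        rw [h.symm x q] at hq3
        linarith
      have hb1 : Btw D (8 * KU + 2) q (v * z) (v * x) := by
        have h1 := h.tri q (v * q) (v * z)
        have h2 : D (v * q) (v * z) = D q z := hi v q z
        have h3 : D (v * z) (v * x) = D z x := hi v z x
        have h4 := h.tri (v * q) q (v * x)
        have h5 : D (v * q) (v * x) = D q x := hi v q x
        rw [h.symm (v * q) q, h5] at h4
        show D q (v * z) + D (v * z) (v * x) ≤ D q (v * x) + (8 * KU + 2)
        rw [h3]
        rw [h2] at h1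
        linarith
      have hb2 : Btw D (8 * KU + 2) q z (v * x) := by
        have h1 := h.near hz1 (v * x)
        have h2 : D (v * x) z ≤ D (v * x) q - D q z + 4 := by
          have h3 : D (v * x) x - D z x ≤ D (v * x) q - D q z := by
            rw [hG0] at hcon
            rw [h.symm (v * x) x, h.symm (v * x) q]
            linarith
          rw [max_eq_left h3] at h1
          linarith
        show D q z + D z (v * x) ≤ D q (v * x) + (8 * KU + 2)
        rw [h.symm z (v * x), h.symm q (v * x)]
        linarith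
      have hb3 := h.near2 hb2 hb1
      have hb4 : |D q z - D q (v * z)| ≤ 4 * KU := by
        have h2 : D (v * q) (v * z) = D q z := hi v q z
        have h3 := h.tri q (v * q) (v * z)
        have h4 := h.tri (v * q) q (v * z)
        rw [h.symm (v * q) q] at h4
        rw [abs_le]
        constructor <;> linarith
      have := hsmall z (by linarith)
      linarith
    obtain ⟨p, hp1, hp2, hp3⟩ := h.center x (v * x) q
    have hpq : D p q ≤ G0 + 6 := by
      have h1 : D x p + D p q ≤ D x q + 6 := hp2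
      have h2 : D (v * x) p + D p q ≤ D (v * x) q + 6 := hp3
      have h3 := h.tri x p (v * x)
      rw [hG0, h.symm q x, h.symm q (v * x)]
      rw [h.symm (v * x) p] at h2
      linarith
    have hal := AL h S hC.hK hs (κ := 2) (by norm_num) (by norm_num [KU]) hp1
    have h1 := dd_tri h S hs0 x p q
    have h2 := dd_tri h S hs0 (v * x) p q
    have h3 := dd_le h S hs0 p q
    rw [dd_symm h S hs0 (v * x) p] at h2
    unfold RE
    linarith

theorem Q12_conj (hC : Ctx S U s κ₁ κu κ₀ d) {n : G} (hn : n ∈ NN S d) (v x : G) :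
    db S s d (n * x) (v * (n * x)) = db S s d x (v * x) := by
  have h1 := db_N hC hn ((NN_normal S d).conj_mem n hn v) x (v * x)
  have e : v * n * v⁻¹ * (v * x) = v * (n * x) := by group
  rwa [e] at h1

theorem p0_cone (hF : Full S U s κ₁ κu κ₀ d ε A T' Δs lam η) {c : C} {j : ℤ} (hj : j ≠ 0)
    (hj2 : 2 * |j| < d) {E : ℝ} (hE : 0 ≤ E) {x : G} (hx : db S s d x (S.gen c ^ j * x) ≤ E) :
    eb S s d x c ≤ RE s τ A E := by
  have hC := hF.ctx
  obtain ⟨n, hn, hadm⟩ := tight_cone hC x c
  rw [← Q12_conj hC hn] at hx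
  have h1 := Q12_adm hC hj hj2 hadm
  rw [lift_dist hC h1] at hx
  have h2 := Q12_est hC hF.hA hj hx
  have h3 := eb_N hC hn (Subgroup.one_mem _) x c
  rw [one_smul] at h3
  rw [← h3]
  exact (eb_le hC _ _).trans h2

theorem p0_next (hF : Full S U s κ₁ κu κ₀ d ε A T' Δs lam η) {g : G} (hg : g ^ d ∈ NN S d) {E : ℝ}
    (hE : 0 ≤ E) {x y : G} (hx : db S s d x (g * x) ≤ E) (hy : db S s d y (g * y) ≤ E)
    (hxy : 2 * RE s τ A E < db S s d x y) : g ∈ NN S d := by
  have hC := hF.ctx
  obtain ⟨n, hn, h⟩ := classify_tor hF hg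
  have hdb : ∀ z, db S s d z (n * g * z) = db S s d z (g * z) := by
    intro z
    have h1 := db_N hC (Subgroup.one_mem (NN S d)) hn z (g * z)
    rwa [one_mul, ← mul_assoc] at h1
  have hmem : ∀ w, n * g = w → w ∈ NN S d → g ∈ NN S d := by
    intro w hw hwN
    have e : g = n⁻¹ * w := by rw [← hw]; group
    rw [e]
    exact Subgroup.mul_mem _ (Subgroup.inv_mem _ hn) hwN
  rw [← hdb] at hx hy
  rcases h with h | ⟨c, i, hi⟩
  · by_cases hv : n * g = 1
    · exact hmem 1 hv (Subgroup.one_mem _)
    · exfalso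
      obtain ⟨z0, hz0⟩ := p0_tor hF h hv hE
      have h1 := hz0 x hx
      have h2 := hz0 y hy
      have h3 := db_tri hC x z0 y
      rw [db_symm hC z0 y] at h3
      linarith
  · -- i = j + k d
    have hi' : S.gen c ^ i = n * g := hi
    obtain ⟨e, he⟩ := hC.odd
    obtain ⟨j, k, hjk, hj2⟩ : ∃ j k : ℤ, i = j + k * d ∧ 2 * |j| < d := by
      have hd0 : (0 : ℤ) < d := by omega
      have h1 := Int.emod_nonneg i hd0.ne'
      have h2 := Int.emod_lt_of_pos i hd0
      have h3 := Int.emod_add_mul_ediv i d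
      rcases le_or_gt (i % d) e with h4 | h4
      · refine ⟨i % d, i / d, by linarith [mul_comm (i / (d : ℤ)) d], ?_⟩
        rw [abs_of_nonneg h1]; omega
      · refine ⟨i % d - d, i / d + 1, by linarith [mul_comm (i / (d : ℤ)) d], ?_⟩
        rw [abs_of_neg (by omega)]; omega
    have hkd := hC.gen_mem c k
    have hgen : S.gen c ^ i = S.gen c ^ j * S.gen c ^ (k * d) := by
      rw [hjk, zpow_add]
    by_cases hj : j = 0
    · refine hmem _ hi'.symm ?_
      rw [hgen, hj, zpow_zero, one_mul]
      exact hkd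
    · exfalso
      have hw : ∀ z, db S s d z (n * g * z) ≤ E → db S s d z (S.gen c ^ j * z) ≤ E := by
        intro z hz
        have h1 := db_N hC (Subgroup.one_mem (NN S d))
          ((NN_normal S d).conj_mem _ hkd (S.gen c ^ j)) z (S.gen c ^ j * z)
        have e1 : S.gen c ^ j * S.gen c ^ (k * ↑d) * (S.gen c ^ j)⁻¹ * (S.gen c ^ j * z) =
            n * g * z := by
          rw [← hi', hgen]; group
        rw [one_mul, e1] at h1
        rwa [← h1]
      have h1 := p0_cone hF hj hj2 hE (hw x hx)
      have h2 := p0_cone hF hj hj2 hE (hw y hy)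
      have h3 := db_le_eb hC x y c
      linarith

end Pool.Agent.helper50.BW
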