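import Pool.Agent.helper50.BW.A1
/-! ## BW-A2 Local to global -/
namespace Pool.Agent.helper50.BW
open Filter Topology
variable {X : Type} {D : X → X → ℝ}

/-- step 1 -/
theorem Hyp.lg_step1 (h : Hyp D) (x : ℕ → X) {a : ℝ} (ha : 0 ≤ a)
    (h1 : ∀ i, D (x i) (x (i + 1)) + D (x (i + 1)) (x (i + 2)) ≤ D (x i) (x (i + 2)) + 2 * a)
    (h2 : ∀ i, 2 * a + 4 ≤ D (x i) (x (i + 1))) (i m : ℕ) :
    D (x i) (x (i + m)) + D (x (i + m)) (x (i + m + 1)) ≤ D (x i) (x (i + m + 1)) + 2 * a + 2 := by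
  induction m with
  | zero =>
    rw [Nat.add_zero, h.refl]
    linarith
  | succ m ih =>
    have e1 : i + (m + 1) = i + m + 1 := rfl
    rw [e1]
    have hf := h.four (x i) (x (i + m + 1)) (x (i + m)) (x (i + m + 2))
    have hs := h.symm (x (i + m + 1)) (x (i + m))
    have k1 := h1 (i + m)
    have k2 := h2 (i + m)
    rcases max_cases (D (x i) (x (i + m)) + D (x (i + m + 1)) (x (i + m + 2)))
      (D (x i) (x (i + m + 2)) + D (x (i + m + 1)) (x (i + m))) with ⟨hm, _⟩ | ⟨hm, _⟩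
    · rw [hm] at hf
      exfalso
      linarith
    · rw [hm] at hf
      have e2 : i + m + 1 + 1 = i + m + 2 := rfl
      rw [e2]
      linarith

/-- step 2 -/
theorem Hyp.lg_step2 (h : Hyp D) (x : ℕ → X) {a : ℝ} (ha : 0 ≤ a)
    (h1 : ∀ i, D (x i) (x (i + 1)) + D (x (i + 1)) (x (i + 2)) ≤ D (x i) (x (i + 2)) + 2 * a)
    (h2 : ∀ i, 2 * a + 4 ≤ D (x i) (x (i + 1))) (m : ℕ) : ∀ i : ℕ,
    D (x i) (x (i + 1)) + D (x (i + 1)) (x (i + 1 + m)) ≤ D (x i) (x (i + 1 + m)) + 2 * a + 2 := by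
  induction m with
  | zero =>
    intro i
    rw [Nat.add_zero, h.refl]
    linarith
  | succ m ih =>
    intro i
    have e1 : i + 1 + (m + 1) = i + 1 + 1 + m := by omega
    rw [e1]
    set k := i + 1 + 1 + m with hk
    have hih := ih (i + 1)
    rw [← hk] at hih
    have hf := h.four (x i) (x (i + 2)) (x (i + 1)) (x k)
    have hs := h.symm (x (i + 2)) (x (i + 1))
    have k1 := h1 i
    have k2 := h2 (i + 1)
    have e2 : i + 1 + 1 = i + 2 := rfl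
    rw [e2] at hih k2
    rcases max_cases (D (x i) (x (i + 1)) + D (x (i + 2)) (x k))
      (D (x i) (x k) + D (x (i + 2)) (x (i + 1))) with ⟨hm, _⟩ | ⟨hm, _⟩
    · rw [hm] at hf
      exfalso
      linarith
    · rw [hm] at hf
      linarith

/-- Write (x|y)_z = (Dxz+Dyz-Dxy)/2; four says (x|y)_w ≥ min (x|z)_w (z|y)_w - 1; (y|z)_x+(x|z)_y = D x y.
Step 1 (induction on k): (x_i | x_{k+1})_{x_k} ≤ a+1 for i ≤ k: (x_{k-1}|x_{k+1})_{x_k} ≤ a, and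
(x_{k-1}|x_i)_{x_k} = D(x_{k-1},x_k) - (x_i|x_k)_{x_{k-1}} ≥ 2a+4-(a+1).  Step 2: the mirror statement
(x_i|x_k)_{x_{i+1}} ≤ a+1 (apply step 1 to the reversed sequence, or induct on i downwards).
Step 3: (x_i|x_{j+1})_{x_j} ≤ a+1 and (x_k|x_{j+1})_{x_j} ≥ a+3 give (x_i|x_k)_{x_j} ≤ a+2. -/
theorem Hyp.lg (h : Hyp D) (x : ℕ → X) {a : ℝ} (ha : 0 ≤ a)
    (h1 : ∀ i, D (x i) (x (i + 1)) + D (x (i + 1)) (x (i + 2)) ≤ D (x i) (x (i + 2)) + 2 * a)
    (h2 : ∀ i, 2 * a + 4 ≤ D (x i) (x (i + 1))) {i j k : ℕ} (hij : i ≤ j) (hjk : j ≤ k) :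
    D (x i) (x j) + D (x j) (x k) ≤ D (x i) (x k) + 2 * a + 4 := by
  rcases Nat.eq_or_lt_of_le hjk with rfl | hlt
  · rw [h.refl]
    linarith
  have s1 := h.lg_step1 x ha h1 h2 i (j - i)
  rw [show i + (j - i) = j by omega] at s1
  have s2 := h.lg_step2 x ha h1 h2 (k - (j + 1)) j
  rw [show j + 1 + (k - (j + 1)) = k by omega] at s2
  have hf := h.four (x i) (x (j + 1)) (x j) (x k)
  have hs := h.symm (x (j + 1)) (x j)
  have k2 := h2 j
  rcases max_cases (D (x i) (x j) + D (x (j + 1)) (x k))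
    (D (x i) (x k) + D (x (j + 1)) (x j)) with ⟨hm, _⟩ | ⟨hm, _⟩
  · rw [hm] at hf
    exfalso
    linarith
  · rw [hm] at hf
    linarith

/-- from step 1 of lg: D(x_0,x_{n+1}) ≥ D(x_0,x_n) + D(x_n,x_{n+1}) - 2a - 2. -/
theorem Hyp.lg_len (h : Hyp D) (x : ℕ → X) {a : ℝ} (ha : 0 ≤ a)
    (h1 : ∀ i, D (x i) (x (i + 1)) + D (x (i + 1)) (x (i + 2)) ≤ D (x i) (x (i + 2)) + 2 * a)
    (h2 : ∀ i, 2 * a + 4 ≤ D (x i) (x (i + 1))) (n : ℕ) :
    ∑ i ∈ Finset.range n, (D (x i) (x (i + 1)) - 2 * a - 2) ≤ D (x 0) (x n) := by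
  induction n with
  | zero => simp [h.refl]
  | succ n ih =>
    rw [Finset.sum_range_succ]
    have s1 := h.lg_step1 x ha h1 h2 0 n
    rw [Nat.zero_add] at s1
    linarith

end Pool.Agent.helper50.BW
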