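import Pool.Agent.helper50.BW.A1
/-! ## BW-A3 Stable length -/
namespace Pool.Agent.helper50.BW
open Filter Topology
variable {G : Type} [Group G] {D : G → G → ℝ}

theorem a3_sub (h : Hyp D) (hi : LInv D) (g x : G) : Subadditive (fun n : ℕ => D x (g ^ n * x)) := by
  intro m n
  have h1 := h.tri x (g ^ m * x) (g ^ (m + n) * x)
  have h2 : D (g ^ m * x) (g ^ (m + n) * x) = D x (g ^ n * x) := by
    rw [pow_add, mul_assoc, hi]
  rw [h2] at h1
  exact h1

theorem a3_bdd (h : Hyp D) (g x : G) : BddBelow (Set.range fun n : ℕ => D x (g ^ n * x) / n) := by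
  refine ⟨0, ?_⟩
  rintro _ ⟨n, rfl⟩
  exact div_nonneg (h.nonneg _ _) (Nat.cast_nonneg n)

theorem a3_lim (h : Hyp D) (hi : LInv D) (g : G) : (a3_sub h hi g 1).lim = sl D g := by
  unfold Subadditive.lim sl
  rw [iInf]
  congr 1
  ext y
  simp only [Set.mem_image, Set.mem_Ici, Set.mem_range, mul_one]
  constructor
  · rintro ⟨n, hn, rfl⟩
    refine ⟨n - 1, ?_⟩
    obtain ⟨m, rfl⟩ : ∃ m, n = m + 1 := ⟨n - 1, by omega⟩
    simp
  · rintro ⟨n, rfl⟩
    exact ⟨n + 1, by omega, by push_cast; rfl⟩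

theorem a3_compare (h : Hyp D) (hi : LInv D) (g x : G) (n : ℕ) :
    |D x (g ^ n * x) - D 1 (g ^ n * 1)| ≤ 2 * D 1 x := by
  have h1 := h.tri x 1 (g ^ n * x)
  have h2 := h.tri 1 (g ^ n * 1) (g ^ n * x)
  have h3 := h.tri 1 x (g ^ n * 1)
  have h4 := h.tri x (g ^ n * x) (g ^ n * 1)
  have e1 : D (g ^ n * 1) (g ^ n * x) = D 1 x := hi _ _ _
  have e2 : D (g ^ n * x) (g ^ n * 1) = D x 1 := hi _ _ _
  have e3 : D x 1 = D 1 x := h.symm _ _
  rw [abs_le]
  constructor <;> linarith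

/-- D x (g^(m+n) x) ≤ D x (g^m x) + D x (g^n x) (left invariance): Subadditive (Mathlib:
`Subadditive.lim`, `Subadditive.tendsto_lim`); |D x (g^n x) - D 1 (g^n)| ≤ 2 D 1 x. -/
theorem sl_tendsto (h : Hyp D) (hi : LInv D) (g x : G) :
    Tendsto (fun n : ℕ => D x (g ^ n * x) / n) atTop (𝓝 (sl D g)) := by
  have h1 := (a3_sub h hi g 1).tendsto_lim (a3_bdd h g 1)
  rw [a3_lim h hi g] at h1
  have h2 : Tendsto (fun n : ℕ => (D x (g ^ n * x) - D 1 (g ^ n * 1)) / n) atTop (𝓝 0) := by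
    have h3 : Tendsto (fun n : ℕ => 2 * D 1 x / (n : ℝ)) atTop (𝓝 0) :=
      tendsto_const_div_atTop_nhds_zero_nat _
    refine squeeze_zero_norm (fun n => ?_) h3
    rw [Real.norm_eq_abs, abs_div, abs_of_nonneg (Nat.cast_nonneg n : (0:ℝ) ≤ n)]
    exact div_le_div_of_nonneg_right (a3_compare h hi g x n) (Nat.cast_nonneg n)
  have h4 := h1.add h2
  rw [add_zero] at h4
  refine h4.congr (fun n => ?_)
  rw [← add_div]
  congr 1
  ring

theorem sl_le (h : Hyp D) (hi : LInv D) (g x : G) (n : ℕ) : (n : ℝ) * sl D g ≤ D x (g ^ n * x) := by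
  rcases Nat.eq_zero_or_pos n with rfl | hn
  · simpa using h.nonneg _ _
  · have h1 := (a3_sub h hi g x).tendsto_lim (a3_bdd h g x)
    have h2 := tendsto_nhds_unique h1 (sl_tendsto h hi g x)
    have h3 := (a3_sub h hi g x).lim_le_div (a3_bdd h g x) (n := n) hn.ne'
    rw [h2] at h3
    have h4 : (0:ℝ) < n := by exact_mod_cast hn
    rw [le_div_iff₀ h4] at h3
    linarith

theorem sl_nonneg (h : Hyp D) (hi : LInv D) (g : G) : 0 ≤ sl D g :=
  ge_of_tendsto (sl_tendsto h hi g 1) (Eventually.of_forall fun n => div_nonneg (h.nonneg _ _) (Nat.cast_nonneg n))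

theorem sl_conj (h : Hyp D) (hi : LInv D) (g k : G) : sl D (k * g * k⁻¹) = sl D g := by
  refine tendsto_nhds_unique (sl_tendsto h hi (k * g * k⁻¹) k) ((sl_tendsto h hi g 1).congr fun n => ?_)
  congr 1
  rw [conj_pow]
  have e1 : k * g ^ n * k⁻¹ * k = k * (g ^ n * 1) := by group
  have e2 := hi k 1 (g ^ n * 1)
  rw [mul_one k] at e2
  rw [e1, e2]

theorem sl_inv (h : Hyp D) (hi : LInv D) (g : G) : sl D g⁻¹ = sl D g := by
  refine tendsto_nhds_unique (sl_tendsto h hi g⁻¹ 1) ((sl_tendsto h hi g 1).congr fun n => ?_)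
  congr 1
  have e1 := hi (g ^ n) 1 (g⁻¹ ^ n * 1)
  have e2 : g ^ n * (g⁻¹ ^ n * 1) = 1 := by rw [inv_pow]; group
  rw [e2] at e1
  rw [← e1, h.symm]

theorem sl_pow (h : Hyp D) (hi : LInv D) (g : G) (n : ℕ) : sl D (g ^ n) = n * sl D g := by
  rcases Nat.eq_zero_or_pos n with rfl | hn
  · have h1 := sl_tendsto h hi (g ^ 0) 1
    refine tendsto_nhds_unique h1 ?_
    simp [h.refl]
  · refine tendsto_nhds_unique (sl_tendsto h hi (g ^ n) 1) ?_
    have h1 := (sl_tendsto h hi g 1).comp (tendsto_id.const_mul_atTop' hn)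
    have h2 := h1.const_mul (n : ℝ)
    refine h2.congr fun k => ?_
    have hn0 : (n : ℝ) ≠ 0 := by exact_mod_cast hn.ne'
    simp only [Function.comp_apply, id_eq]
    rw [← pow_mul]
    push_cast
    rw [mul_div_assoc', mul_div_mul_left _ _ hn0]

theorem sl_zpow (h : Hyp D) (hi : LInv D) (g : G) (n : ℤ) : sl D (g ^ n) = |(n : ℝ)| * sl D g := by
  obtain ⟨m, rfl | rfl⟩ := n.eq_nat_or_neg
  · rw [zpow_natCast, sl_pow h hi]
    simp
  · rw [zpow_neg, zpow_natCast, sl_inv h hi, sl_pow h hi]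
    simp

theorem sl_tor (h : Hyp D) (hi : LInv D) (g : G) (d : ℕ) (hd : 0 < d) (hg : g ^ d = 1) : sl D g = 0 := by
  have h1 := sl_pow h hi g d
  have h2 := sl_pow h hi g 0
  rw [pow_zero, Nat.cast_zero, zero_mul] at h2
  rw [hg, h2] at h1
  have h3 : (d : ℝ) ≠ 0 := by exact_mod_cast hd.ne'
  rcases mul_eq_zero.mp h1.symm with h4 | h4
  · exact absurd h4 h3
  · exact h4

theorem sl_ge (h : Hyp D) (hi : LInv D) (g : G) (τ : ℝ)
    (hg : ∀ (x : G) (n : ℕ), (n : ℝ) * τ ≤ D x (g ^ n * x)) : τ ≤ sl D g := by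
  refine ge_of_tendsto (sl_tendsto h hi g 1) ?_
  filter_upwards [eventually_gt_atTop 0] with n hn
  have h4 : (0:ℝ) < n := by exact_mod_cast hn
  rw [le_div_iff₀ h4]
  have := hg 1 n
  linarith

end Pool.Agent.helper50.BW
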