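import Pool.Agent.helper50.BW.A2
import Pool.Agent.helper50.BW.A3
/-! ## BW-A4 Almost minimal points (uses A1, A2, A3) -/
namespace Pool.Agent.helper50.BW
open Filter Topology
variable {G : Type} [Group G] {D : G → G → ℝ}

/-- lg_len for x_i = g^i x with a = D x (gx) - D x (g²x)/2, divide by n. -/
theorem sl_lower (h : Hyp D) (hi : LInv D) (g x : G) (hx : D x (g * x) + 4 ≤ D x (g * (g * x))) :
    D x (g * (g * x)) - D x (g * x) - 2 ≤ sl D g := by
  set a : ℝ := D x (g * x) - D x (g * (g * x)) / 2 with ha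
  have e1 : ∀ i : ℕ, D (g ^ i * x) (g ^ (i + 1) * x) = D x (g * x) := by
    intro i
    rw [pow_succ, mul_assoc, hi]
  have e2 : ∀ i : ℕ, D (g ^ i * x) (g ^ (i + 2) * x) = D x (g * (g * x)) := by
    intro i
    have : g ^ (i + 2) * x = g ^ i * (g * (g * x)) := by
      rw [pow_add, pow_two]
      simp only [mul_assoc]
    rw [this, hi]
  have ha0 : 0 ≤ a := by
    have h1 := h.tri x (g * x) (g * (g * x))
    rw [hi] at h1
    rw [ha]
    linarith
  have hlen := fun n => h.lg_len (fun i => g ^ i * x) ha0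
    (fun i => by
      show D (g ^ i * x) (g ^ (i + 1) * x) + D (g ^ (i + 1) * x) (g ^ (i + 2) * x) ≤ D (g ^ i * x) (g ^ (i + 2) * x) + 2 * a
      have e3 : D (g ^ (i + 1) * x) (g ^ (i + 2) * x) = D x (g * x) := e1 (i + 1)
      rw [e1, e2, e3, ha]
      linarith)
    (fun i => by
      show 2 * a + 4 ≤ D (g ^ i * x) (g ^ (i + 1) * x)
      rw [e1, ha]
      linarith) n
  refine ge_of_tendsto (sl_tendsto h hi g x) ?_
  filter_upwards [eventually_gt_atTop 0] with n hn
  have h4 : (0:ℝ) < n := by exact_mod_cast hn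
  rw [le_div_iff₀ h4]
  have h5 := hlen n
  have h6 : ∑ i ∈ Finset.range n, (D (g ^ i * x) (g ^ (i + 1) * x) - 2 * a - 2) =
      n * (D x (g * (g * x)) - D x (g * x) - 2) := by
    rw [Finset.sum_congr rfl (fun i _ => by rw [e1 i])]
    rw [Finset.sum_const, Finset.card_range, nsmul_eq_mul, ha]
    ring
  have h7 : ∑ i ∈ Finset.range n, (D (g ^ i * x) (g ^ (i + 1) * x) - 2 * a - 2) ≤ D x (g ^ n * x) := by
    have h8 := h5
    simp only [pow_zero, one_mul] at h8
    exact h8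
  rw [h6] at h7
  linarith

/-- Take x with L0 := D x (gx) ≤ inf + 1, m = rough midpoint of (x,gx) (t = L0/2), D2 := D x (g²x).
near (Btw 2 x m (gx)), w = gm:  D gm m ≤ max (D gm x - D x m) (D gm gx - D m gx) + 4, second ≤ 2;
near (Btw 2 gx gm g²x), w = x:  D x gm ≤ max (D x gx - D gx gm) (D x g²x - D gm g²x) + 4.
Result D m gm ≤ max 10 (D2 - L0 + 10); D m gm ≥ L0 - 1.  If L0 ≥ 15 then D2 ≥ 2L0 - 11 ≥ L0+4 and
sl_lower gives sl ≥ L0 - 13. -/
theorem exists_min (h : Hyp D) (hi : LInv D) (g : G) : ∃ x, D x (g * x) ≤ sl D g + 15 := by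
  have hb : BddBelow (Set.range fun x : G => D x (g * x)) := ⟨0, by
    rintro _ ⟨x, rfl⟩
    exact h.nonneg _ _⟩
  obtain ⟨x, hx⟩ := exists_lt_of_ciInf_lt (f := fun x : G => D x (g * x)) (lt_add_one _)
  have hmin : ∀ y, D x (g * x) ≤ D y (g * y) + 1 := fun y => by
    have := ciInf_le hb y
    linarith
  refine ⟨x, ?_⟩
  have hs := sl_nonneg h hi g
  set L0 : ℝ := D x (g * x) with hL0
  rcases lt_or_ge L0 15 with hlt | hge
  · linarith
  obtain ⟨m, hm, hm1, hm2⟩ := h.rough2 x (g * x) (L0 / 2) (by linarith) (by linarith)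
  rw [abs_le] at hm1 hm2
  rw [← hL0] at hm2
  have hm' : Btw D 2 (g * x) (g * m) (g * (g * x)) := by
    unfold Btw at hm ⊢
    rw [hi, hi, hi]
    exact hm
  have n1 := h.near hm (g * m)
  have n2 := h.near hm' x
  rw [hi g m x, h.symm m x] at n1
  rw [hi g x m, hi g m (g * x), ← hL0] at n2
  have h3 := hmin m
  rw [h.symm m (g * m)] at h3
  rw [h.symm (g * m) x] at n1
  have key : 2 * L0 - 11 ≤ D x (g * (g * x)) := by
    rcases max_cases (D x (g * m) - D x m) (D x m - D m (g * x)) with ⟨h5, -⟩ | ⟨h5, -⟩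
    · rw [h5] at n1
      rcases max_cases (L0 - D x m) (D x (g * (g * x)) - D m (g * x)) with ⟨h6, -⟩ | ⟨h6, -⟩
      · rw [h6] at n2
        linarith [hm1.1, hm1.2, hm2.1, hm2.2]
      · rw [h6] at n2
        linarith [hm1.1, hm1.2, hm2.1, hm2.2]
    · rw [h5] at n1
      linarith [hm1.1, hm1.2, hm2.1, hm2.2]
  have h7 := sl_lower h hi g x (by linarith)
  linarith

end Pool.Agent.helper50.BW
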