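import Pool.Agent.helper50.BW.A4
/-! ## BW-A5 Orbits on the axis (uses A1-A4) -/
namespace Pool.Agent.helper50.BW
open Filter Topology
variable {G : Type} [Group G] {D : G → G → ℝ}

/-- replacing one point in a Gromov product -/
theorem A5_gp {X : Type} {D : X → X → ℝ} (h : Hyp D) {c : ℝ} (w x y z : X)
    (h1 : D w x + D w z - D x z ≤ c) (h2 : c + 2 < D w x + D w y - D x y) :
    D w y + D w z - D y z ≤ c + 2 := by
  have h3 := h.four x z w y
  have e1 := h.symm x w
  have e2 := h.symm z y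
  have e3 := h.symm z w
  rcases max_cases (D x w + D z y) (D x y + D z w) with h4 | h4
  · rw [h4.1] at h3; linarith
  · rw [h4.1] at h3; linarith

theorem A5_pow (hi : LInv D) (g x : G) {i j : ℕ} (hij : i ≤ j) :
    D (g ^ i * x) (g ^ j * x) = D x (g ^ (j - i) * x) := by
  obtain ⟨k, rfl⟩ := Nat.exists_eq_add_of_le hij
  rw [Nat.add_sub_cancel_left, pow_add, mul_assoc, hi]

theorem A5_step1 (h : Hyp D) (hi : LInv D) (g x : G) (hg : 100 ≤ sl D g)
    (hx : D x (g * x) ≤ sl D g + 15) (k : ℕ) : D x (g ^ k * x) ≤ k * sl D g + 34 := by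
  have hlg : ∀ k : ℕ, D x (g ^ k * x) + D x (g ^ k * x) ≤ D x (g ^ (2 * k) * x) + 34 := by
    intro k
    have h1 := h.lg (fun i => g ^ i * x) (a := 15) (by norm_num) ?_ ?_ (i := 0) (j := k)
      (k := 2 * k) (by omega) (by omega)
    · simp only [A5_pow hi g x (Nat.zero_le k), A5_pow hi g x (show k ≤ 2 * k by omega),
        A5_pow hi g x (Nat.zero_le (2 * k))] at h1
      rw [show 2 * k - k = k by omega] at h1
      simp only [Nat.sub_zero] at h1
      linarith
    · intro i
      simp only [A5_pow hi g x (show i ≤ i + 1 by omega),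
        A5_pow hi g x (show i + 1 ≤ i + 2 by omega), A5_pow hi g x (show i ≤ i + 2 by omega)]
      rw [show i + 1 - i = 1 by omega, show i + 2 - (i + 1) = 1 by omega,
        show i + 2 - i = 2 by omega, pow_one]
      have h2 := sl_le h hi g x 2
      push_cast at h2
      linarith
    · intro i
      simp only [A5_pow hi g x (show i ≤ i + 1 by omega)]
      rw [show i + 1 - i = 1 by omega]
      have h2 := sl_le h hi g x 1
      push_cast at h2
      linarith
  rcases Nat.eq_zero_or_pos k with rfl | hk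
  · simp only [pow_zero, one_mul, Nat.cast_zero, zero_mul, zero_add, h.refl]
    norm_num
  have hk' : (0 : ℝ) < k := by exact_mod_cast hk
  have hdbl : ∀ j : ℕ, (2 : ℝ) ^ j * (D x (g ^ k * x) - k * sl D g - 34) ≤
      D x (g ^ (2 ^ j * k) * x) - (2 ^ j * k : ℕ) * sl D g - 34 := by
    intro j
    induction j with
    | zero => simp
    | succ j ih =>
      have h1 := hlg (2 ^ j * k)
      have e1 : 2 * (2 ^ j * k) = 2 ^ (j + 1) * k := by ring
      rw [e1] at h1
      have e2 : ((2 ^ (j + 1) * k : ℕ) : ℝ) = 2 * ((2 ^ j * k : ℕ) : ℝ) := by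
        push_cast
        ring
      rw [e2, pow_succ]
      nlinarith
  have ht : Tendsto (fun j : ℕ => 2 ^ j * k) atTop atTop := by
    apply tendsto_atTop_mono (f := fun j : ℕ => j)
    · intro j
      calc j ≤ 2 ^ j := Nat.lt_two_pow_self.le
        _ ≤ 2 ^ j * k := Nat.le_mul_of_pos_right _ hk
    · exact tendsto_id
  have hlim := (sl_tendsto h hi g x).comp ht
  have hge : (D x (g ^ k * x) - k * sl D g - 34) / k + sl D g ≤ sl D g := by
    refine ge_of_tendsto' hlim fun j => ?_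
    simp only [Function.comp]
    have h1 := hdbl j
    have h2 : (0 : ℝ) < 2 ^ j := by positivity
    rw [le_div_iff₀ (by push_cast; positivity)]
    push_cast at h1 ⊢
    have h3 : ((D x (g ^ k * x) - k * sl D g - 34) / k + sl D g) * (2 ^ j * k) =
        2 ^ j * (D x (g ^ k * x) - k * sl D g - 34) + 2 ^ j * k * sl D g := by
      field_simp
    rw [h3]
    linarith
  have h5 : (D x (g ^ k * x) - k * sl D g - 34) / k ≤ 0 := by linarith
  have h6 : D x (g ^ k * x) - k * sl D g - 34 ≤ 0 := by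
    by_contra hc
    push Not at hc
    have := div_pos hc hk'
    linarith
  linarith

/-- ℓ := sl g > 0, choose m ≥ 1 with mℓ ≥ 100, h := g^m, x from exists_min for h (sl h = mℓ).
(1) lg for x_i = h^i x with a = 15: D x (h^(k+l) x) ≥ D x (h^k x) + D x (h^l x) - 34.
    e_k := D x (h^k x) - kmℓ ≥ 0; e_{2k} ≥ 2e_k - 34, so e_k - 34 ≤ (e_{2^j k} - 34)/2^j → 0: e_k ≤ 34.
(2) n ≥ 0, y := g^n x.  x_{±k} := h^{±k}x, y_{±k} := h^{±k}y (= g^n x_{±k}).
    D x_{-k} x + D x x_k ≤ D x_{-k} x_k + 68; the same for y.  For k large (4-point condition twice, the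
    Gromov products (y_{-k}|x_{-k})_y, (y_k|x_k)_y tend to ∞): D y x_{-k} + D y x_k ≤ D x_{-k} x_k + 72.
(3) With E_j := D x (g^j x) - jℓ ≥ 0 this says E_{km+n} + E_{km-n} ≤ E_{2km} + 72 ≤ 106.
(4) near2 (x and y are 72-between x_{-k} and x_k): D x y ≤ |D x_{-k} x - D x_{-k} y| + 146
    ≤ nℓ + 106 + 146 ≤ nℓ + 300. -/
theorem exists_orbit (h : Hyp D) (hi : LInv D) (g : G) (hg : 0 < sl D g) :
    ∃ x, ∀ n : ℕ, D x (g ^ n * x) ≤ n * sl D g + 300 := by
  obtain ⟨m, hm⟩ := exists_nat_ge (100 / sl D g)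
  have hm1 : 100 ≤ m * sl D g := by
    rw [div_le_iff₀ hg] at hm
    exact hm
  have hm0 : 0 < m := by
    rcases Nat.eq_zero_or_pos m with rfl | h0
    · simp only [Nat.cast_zero, zero_mul] at hm1
      norm_num at hm1
    · exact h0
  obtain ⟨x, hx⟩ := exists_min h hi (g ^ m)
  refine ⟨x, fun n => ?_⟩
  have hslm : sl D (g ^ m) = m * sl D g := sl_pow h hi g m
  have hstep : ∀ k : ℕ, D x (g ^ (m * k) * x) ≤ (m * k : ℕ) * sl D g + 34 := by
    intro k
    have h1 := A5_step1 h hi (g ^ m) x (by rw [hslm]; exact hm1) hx k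
    rw [← pow_mul, hslm] at h1
    push_cast
    linarith
  have hlow : ∀ k : ℕ, (k : ℝ) * sl D g ≤ D x (g ^ k * x) := fun k => sl_le h hi g x k
  -- choose k large
  obtain ⟨k0, hk0⟩ := exists_nat_ge ((72 + D x (g ^ n * x) + n * sl D g) / sl D g)
  have hk1 : 72 + D x (g ^ n * x) + n * sl D g ≤ k0 * sl D g := by
    rw [div_le_iff₀ hg] at hk0
    exact hk0
  set k : ℕ := n + k0 + 1 with hk
  set K : ℕ := m * k with hK
  have hKk : k ≤ K := Nat.le_mul_of_pos_left k hm0
  have hnK : n ≤ K := by omega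
  have hKl : (n + k0 + 1 : ℝ) * sl D g ≤ K * sl D g := by
    apply mul_le_mul_of_nonneg_right _ hg.le
    have : ((n + k0 + 1 : ℕ) : ℝ) ≤ (K : ℝ) := by exact_mod_cast hKk
    push_cast at this
    exact this
  have hnn : 0 ≤ (n : ℝ) * sl D g := by positivity
  have hFn : 0 ≤ D x (g ^ n * x) := h.nonneg _ _
  have hFK := hstep k
  rw [← hK] at hFK
  have hF2K := hstep (2 * k)
  have e2 : m * (2 * k) = 2 * K := by rw [hK]; ring
  rw [e2] at hF2K
  have hF2Kl := hlow (2 * K)
  push_cast at hF2K hF2Kl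
  have hFKl := hlow K
  have hFKn := hlow (K + n)
  have hFKn' := hlow (K - n)
  have hcast : ((K - n : ℕ) : ℝ) = (K : ℝ) - n := by push_cast [hnK]; ring
  rw [hcast] at hFKn'
  push_cast at hFKn
  -- the points
  have d1 : D (g ^ (K + n) * x) (g ^ n * x) = D x (g ^ K * x) := by
    rw [h.symm, A5_pow hi g x (show n ≤ K + n by omega), show K + n - n = K by omega]
  have d2 : D (g ^ (K + n) * x) (g ^ (2 * K + n) * x) = D x (g ^ K * x) := by
    rw [A5_pow hi g x (show K + n ≤ 2 * K + n by omega), show 2 * K + n - (K + n) = K by omega]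
  have d3 : D (g ^ n * x) (g ^ (2 * K + n) * x) = D x (g ^ (2 * K) * x) := by
    rw [A5_pow hi g x (show n ≤ 2 * K + n by omega), show 2 * K + n - n = 2 * K by omega]
  have d4 : D (g ^ (K + n) * x) x = D x (g ^ (K + n) * x) := h.symm _ _
  have d5 : D (g ^ n * x) x = D x (g ^ n * x) := h.symm _ _
  have d6 : D (g ^ (K + n) * x) (g ^ (2 * K) * x) = D x (g ^ (K - n) * x) := by
    rw [A5_pow hi g x (show K + n ≤ 2 * K by omega), show 2 * K - (K + n) = K - n by omega]
  have d7 : D (g ^ (2 * K + n) * x) (g ^ (2 * K) * x) = D x (g ^ n * x) := by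
    rw [h.symm, A5_pow hi g x (show 2 * K ≤ 2 * K + n by omega),
      show 2 * K + n - 2 * K = n by omega]
  have d8 : D x (g ^ (2 * K + n) * x) = D (g ^ (2 * K + n) * x) x := h.symm _ _
  have d9 : D (g ^ K * x) (g ^ (K + n) * x) = D x (g ^ n * x) := by
    rw [A5_pow hi g x (show K ≤ K + n by omega), show K + n - K = n by omega]
  have d10 : D (g ^ K * x) (g ^ (2 * K) * x) = D x (g ^ K * x) := by
    rw [A5_pow hi g x (show K ≤ 2 * K by omega), show 2 * K - K = K by omega]
  have s1 : D (g ^ (K + n) * x) x + D (g ^ (K + n) * x) (g ^ (2 * K + n) * x) -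
      D x (g ^ (2 * K + n) * x) ≤ 68 + 2 := by
    apply A5_gp h (g ^ (K + n) * x) (g ^ n * x) x (g ^ (2 * K + n) * x)
    · rw [d1, d2, d3]; linarith
    · rw [d1, d4, d5]; nlinarith
  have s2 : D (g ^ (K + n) * x) (g ^ (2 * K) * x) + D (g ^ (K + n) * x) x -
      D (g ^ (2 * K) * x) x ≤ 70 + 2 := by
    apply A5_gp h (g ^ (K + n) * x) (g ^ (2 * K + n) * x) (g ^ (2 * K) * x) x
    · rw [← d8]; linarith
    · rw [d2, d6, d7]; nlinarith
  rw [d6, d4, h.symm (g ^ (2 * K) * x) x] at s2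
  have s3 : D (g ^ K * x) (g ^ (K + n) * x) ≤
      |D x (g ^ K * x) - D x (g ^ (K + n) * x)| + 2 * 72 + 2 := by
    apply h.near2 (y := g ^ (2 * K) * x)
    · show D x (g ^ K * x) + D (g ^ K * x) (g ^ (2 * K) * x) ≤ D x (g ^ (2 * K) * x) + 72
      rw [d10]; linarith
    · show D x (g ^ (K + n) * x) + D (g ^ (K + n) * x) (g ^ (2 * K) * x) ≤
        D x (g ^ (2 * K) * x) + 72
      rw [d6]; linarith
  rw [d9] at s3
  have s4 : |D x (g ^ K * x) - D x (g ^ (K + n) * x)| ≤ n * sl D g + 106 := by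
    rw [abs_le]
    constructor <;> nlinarith
  linarith

end Pool.Agent.helper50.BW
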