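import Pool.Agent.helper50.BW.A5
import Pool.Agent.helper50.BW.A7
/-! ## BW-A8 Centralizers are infinite cyclic (uses A5-A7) -/
namespace Pool.Agent.helper50.BW
open Filter Topology
variable {G : Type} [Group G] {D : G → G → ℝ} {d : ℕ} {τ ε A T' Δ : ℝ}

/-- homogenization of a quasi-additive sequence -/
theorem A8_homog (b : ℕ → ℝ) (C B : ℝ) (hq : ∀ m n, |b (m + n) - b m - b n| ≤ C)
    (hb : ∀ n, |b n| ≤ n * B) : ∃ L, Tendsto (fun n : ℕ => b n / n) atTop (𝓝 L) := by
  have hC : 0 ≤ C := (abs_nonneg _).trans (hq 0 0)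
  have hB : 0 ≤ B := by
    have := (abs_nonneg _).trans (hb 1)
    simpa using this
  have hsub : Subadditive (fun n => b n + C) := by
    intro m n
    have := (abs_le.1 (hq m n)).2
    show b (m + n) + C ≤ b m + C + (b n + C)
    linarith
  have hbdd : BddBelow (Set.range fun n : ℕ => (b n + C) / n) := by
    refine ⟨-B, ?_⟩
    rintro _ ⟨n, rfl⟩
    show -B ≤ (b n + C) / n
    rcases Nat.eq_zero_or_pos n with rfl | hn
    · simp only [Nat.cast_zero, div_zero]
      linarith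
    · have hn' : (0 : ℝ) < n := by exact_mod_cast hn
      rw [le_div_iff₀ hn']
      have := (abs_le.1 (hb n)).1
      linarith
  have h1 := hsub.tendsto_lim hbdd
  refine ⟨hsub.lim, ?_⟩
  have h2 : Tendsto (fun n : ℕ => C / (n : ℝ)) atTop (𝓝 0) := tendsto_const_div_atTop_nhds_zero_nat C
  have h3 := h1.sub h2
  rw [sub_zero] at h3
  refine h3.congr fun n => ?_
  rw [← sub_div]
  congr 1
  ring

/-- the centralizer of a loxodromic element with bounded displacement is commutative; elements of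
the centralizer are near the axis -/
theorem A8_near (h : Hyp D) (hi : LInv D) {g : G} {u r : G → ℝ} (ha : IsAxis D g u r)
    (hl : 0 < sl D g) {x0 : G} (hx0 : ∀ n : ℕ, D x0 (g ^ n * x0) ≤ n * sl D g + 300)
    {k : G} (hk : Commute k g) : r (k * x0) ≤ 650 := by
  obtain ⟨n, hn⟩ := exists_nat_ge (KU / sl D g)
  have hn1 : KU ≤ n * sl D g := by
    rw [div_le_iff₀ hl] at hn
    exact hn
  have e1 : g ^ n * (k * x0) = k * (g ^ n * x0) := by
    rw [← mul_assoc, ← mul_assoc, (hk.pow_right n).eq]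
  have hu := ha.u_zpow n (k * x0)
  have hr := ha.r_zpow n (k * x0)
  rw [zpow_natCast] at hu hr
  push_cast at hu
  have habs : |u (k * x0) - u (g ^ n * (k * x0))| = n * sl D g := by
    rw [hu]
    have : (0 : ℝ) ≤ n * sl D g := by positivity
    rw [show u (k * x0) - (u (k * x0) + n * sl D g) = -(n * sl D g) by ring, abs_neg,
      abs_of_nonneg this]
  have hlow := ha.lower (k * x0) (g ^ n * (k * x0)) (by rw [habs]; exact hn1)
  rw [habs, hr, e1, hi] at hlow
  have := hx0 n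
  simp only [KU] at hlow
  linarith

theorem A8_bound (h : Hyp D) (hi : LInv D) {g : G} {u r : G → ℝ} (ha : IsAxis D g u r)
    (hl : 0 < sl D g) {x0 : G} (hx0 : ∀ n : ℕ, D x0 (g ^ n * x0) ≤ n * sl D g + 300)
    (hr0 : r x0 ≤ 300) {k : G} (hk : Commute k g) :
    D x0 (k * x0) ≤ |u (k * x0) - u x0| + 1950 := by
  have h1 := ha.upper x0 (k * x0)
  have h2 := A8_near h hi ha hl hx0 hk
  rw [abs_sub_comm] at h1
  simp only [KU] at h1
  linarith

/-- quasi-additivity of the position -/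
theorem A8_quasi (h : Hyp D) (hi : LInv D) {g : G} {u r : G → ℝ} (ha : IsAxis D g u r)
    (hl : 0 < sl D g) {x0 : G} (hx0 : ∀ n : ℕ, D x0 (g ^ n * x0) ≤ n * sl D g + 300)
    (hr0 : r x0 ≤ 300) {k1 k2 : G} (hk1 : Commute k1 g) (hk2 : Commute k2 g) :
    |(u (k1 * k2 * x0) - u x0) - (u (k1 * x0) - u x0) - (u (k2 * x0) - u x0)| ≤ 3300 := by
  obtain ⟨n, hn⟩ := exists_nat_ge ((KU + |u (k2 * x0) - u x0| +
    |u (k1 * k2 * x0) - u (k1 * x0)|) / sl D g)
  have hn1 : KU + |u (k2 * x0) - u x0| + |u (k1 * k2 * x0) - u (k1 * x0)| ≤ n * sl D g := by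
    rw [div_le_iff₀ hl] at hn
    exact hn
  have a1 := le_abs_self (u (k2 * x0) - u x0)
  have a2 := le_abs_self (u (k1 * k2 * x0) - u (k1 * x0))
  have b1 := abs_nonneg (u (k2 * x0) - u x0)
  have b2 := abs_nonneg (u (k1 * k2 * x0) - u (k1 * x0))
  have hKU : KU = 1000 := rfl
  -- positions
  have hu1 := ha.u_zpow n x0
  have hr1 := ha.r_zpow n x0
  have hu2 := ha.u_zpow n (k1 * x0)
  have hr2 := ha.r_zpow n (k1 * x0)
  rw [zpow_natCast] at hu1 hr1 hu2 hr2
  push_cast at hu1 hu2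
  have e1 : k1 * (g ^ n * x0) = g ^ n * (k1 * x0) := by
    rw [← mul_assoc, ← mul_assoc, (hk1.pow_right n).eq]
  have eD : D (k2 * x0) (g ^ n * x0) = D (k1 * k2 * x0) (g ^ n * (k1 * x0)) := by
    rw [← e1, mul_assoc, hi]
  have n2 := A8_near h hi ha hl hx0 hk2
  have n1 := A8_near h hi ha hl hx0 hk1
  have n12 := A8_near h hi ha hl hx0 (hk1.mul_left hk2)
  have p1 := ha.r_nonneg (k2 * x0)
  have p2 := ha.r_nonneg x0
  have p3 := ha.r_nonneg (k1 * x0)
  have p4 := ha.r_nonneg (k1 * k2 * x0)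
  have c1 : |u (k2 * x0) - u (g ^ n * x0)| = n * sl D g - (u (k2 * x0) - u x0) := by
    rw [hu1, abs_of_nonpos (by linarith)]
    ring
  have c2 : |u (k1 * k2 * x0) - u (g ^ n * (k1 * x0))| =
      n * sl D g - (u (k1 * k2 * x0) - u (k1 * x0)) := by
    rw [hu2, abs_of_nonpos (by linarith)]
    ring
  have up1 := ha.upper (k2 * x0) (g ^ n * x0)
  have lo1 := ha.lower (k2 * x0) (g ^ n * x0) (by rw [c1]; linarith)
  have up2 := ha.upper (k1 * k2 * x0) (g ^ n * (k1 * x0))
  have lo2 := ha.lower (k1 * k2 * x0) (g ^ n * (k1 * x0)) (by rw [c2]; linarith)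
  rw [c1, hr1] at up1 lo1
  rw [c2, hr2] at up2 lo2
  rw [← eD] at up2 lo2
  rw [abs_le]
  constructor <;> linarith

theorem A8_comm (hS : Stg D d τ ε A T' Δ) (hd : 0 < d) (hτ : 0 < τ) (hε : 15 ≤ ε) {T : ℝ}
    (hT : T + 4 * KU ≤ T') {g : G} (hg : g ^ d ≠ 1) (hgT : sl D g ≤ T) {u r : G → ℝ}
    (ha : IsAxis D g u r) (hl : 0 < sl D g) {x0 : G}
    (hx0 : ∀ n : ℕ, D x0 (g ^ n * x0) ≤ n * sl D g + 300) (hr0 : r x0 ≤ 300) {k1 k2 : G}
    (hk1 : Commute k1 g) (hk2 : Commute k2 g) : Commute k1 k2 := by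
  have h := hS.hyp
  have hi := hS.linv
  have key : ∀ k : G, Commute k g → ∃ j : ℤ, D x0 (k * g ^ j * x0) ≤ T' := by
    intro k hk
    refine ⟨round ((u x0 - u (k * x0)) / sl D g), ?_⟩
    set j : ℤ := round ((u x0 - u (k * x0)) / sl D g) with hj
    have h1 : |(u x0 - u (k * x0)) / sl D g - j| ≤ 1 / 2 := abs_sub_round _
    have hkj : Commute (k * g ^ j) g := hk.mul_left ((Commute.refl g).zpow_left j)
    have h2 := A8_bound h hi ha hl hx0 hr0 hkj
    have h3 : u (k * g ^ j * x0) = u (k * x0) + j * sl D g := by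
      rw [(hk.zpow_right j).eq, mul_assoc, ha.u_zpow]
    have h4 : |u (k * g ^ j * x0) - u x0| ≤ 1 / 2 * sl D g := by
      rw [h3]
      have h5 : u (k * x0) + j * sl D g - u x0 =
          -(((u x0 - u (k * x0)) / sl D g - j) * sl D g) := by
        field_simp
        ring
      rw [h5, abs_neg, abs_mul, abs_of_pos hl]
      exact mul_le_mul_of_nonneg_right h1 hl.le
    have hKU : KU = 1000 := rfl
    rw [hKU] at hT
    linarith
  obtain ⟨j1, hj1⟩ := key k1 hk1
  obtain ⟨j2, hj2⟩ := key k2 hk2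
  have hc1 : Commute (k1 * g ^ j1) g := hk1.mul_left ((Commute.refl g).zpow_left j1)
  have hc2 : Commute (k2 * g ^ j2) g := hk2.mul_left ((Commute.refl g).zpow_left j2)
  have hcc : Commute (k1 * g ^ j1) (k2 * g ^ j2) := by
    by_cases t1 : (k1 * g ^ j1) ^ d = 1
    · rw [hS.comm_tor hd hτ hε hg t1 hc1.eq.symm]
      exact Commute.one_left _
    by_cases t2 : (k2 * g ^ j2) ^ d = 1
    · rw [hS.comm_tor hd hτ hε hg t2 hc2.eq.symm]
      exact Commute.one_right _
    obtain ⟨n, hn⟩ := exists_nat_ge (Δ / sl D g)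
    have hn1 : Δ ≤ n * sl D g := by
      rw [div_le_iff₀ hl] at hn
      exact hn
    have hmove : ∀ k : G, Commute k g → D (g ^ n * x0) (k * (g ^ n * x0)) = D x0 (k * x0) := by
      intro k hk
      have e1 : k * (g ^ n * x0) = g ^ n * (k * x0) := by
        rw [← mul_assoc, ← mul_assoc, (hk.pow_right n).eq]
      rw [e1, hi]
    refine hS.q _ _ x0 (g ^ n * x0) t1 t2 hj1 ?_ hj2 ?_ (hn1.trans (sl_le h hi g x0 n))
    · rw [hmove _ hc1]; exact hj1
    · rw [hmove _ hc2]; exact hj2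
  -- remove the powers of g
  have s1 : Commute k1 (k2 * g ^ j2) := by
    have h1 : Commute (g ^ j1) (k2 * g ^ j2) := (hc2.symm.zpow_left j1)
    have h2 : k1 = (k1 * g ^ j1) * (g ^ j1)⁻¹ := by group
    rw [h2]
    exact hcc.mul_left h1.inv_left
  have s2 : k2 = (k2 * g ^ j2) * (g ^ j2)⁻¹ := by group
  rw [s2]
  exact s1.mul_right (hk1.zpow_right j2).inv_right

/-- centralizers of loxodromic elements with bounded stable length are infinite cyclic.
See the plan: the position `a(k) = u (k x0) - u x0` is a quasi-homomorphism on the (abelian)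
centralizer, its homogenization is a homomorphism with absolute value `sl`. -/
theorem Stg.cyc (hS : Stg D d τ ε A T' Δ) (hd : 0 < d) (hτ : 0 < τ) (hε : 15 ≤ ε) {T : ℝ}
    (hT : T + 4 * KU ≤ T') {g : G} (hg : g ^ d ≠ 1) (hgT : sl D g ≤ T) :
    ∃ c, c ^ d ≠ 1 ∧ sl D c ≤ sl D g ∧ g ∈ Subgroup.zpowers c ∧
      ∀ h : G, h * c = c * h ↔ h ∈ Subgroup.zpowers c := by
  have h := hS.hyp
  have hi := hS.linv
  have hl : 0 < sl D g := lt_of_lt_of_le hτ (hS.lox_sl hg)
  obtain ⟨x0, hx0⟩ := exists_orbit h hi g hl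
  obtain ⟨u, r, ha, hr0⟩ := isAxis_exists h hi g hl x0 hx0
  set a : G → ℝ := fun k => u (k * x0) - u x0 with hadef
  have hcomm : ∀ {k1 k2 : G}, Commute k1 g → Commute k2 g → Commute k1 k2 :=
    fun h1 h2 => A8_comm hS hd hτ hε hT hg hgT ha hl hx0 hr0 h1 h2
  have hq : ∀ {k1 k2 : G}, Commute k1 g → Commute k2 g →
      |a (k1 * k2) - a k1 - a k2| ≤ 3300 :=
    fun h1 h2 => A8_quasi h hi ha hl hx0 hr0 h1 h2
  have halow : ∀ k : G, |a k| ≤ D x0 (k * x0) := by
    intro k
    have := ha.u_lip x0 (k * x0)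
    rwa [abs_sub_comm] at this
  have haup : ∀ k : G, Commute k g → D x0 (k * x0) ≤ |a k| + 1950 :=
    fun k hk => A8_bound h hi ha hl hx0 hr0 hk
  have hDpow : ∀ (k : G) (n : ℕ), D x0 (k ^ n * x0) ≤ n * D x0 (k * x0) := by
    intro k n
    induction n with
    | zero => simp [h.refl]
    | succ n ih =>
      have e1 : D (k ^ n * x0) (k ^ (n + 1) * x0) = D x0 (k * x0) := by
        rw [pow_succ, mul_assoc, hi]
      have := h.tri x0 (k ^ n * x0) (k ^ (n + 1) * x0)
      rw [e1] at this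
      push_cast
      linarith
  -- the homogenization
  have hex : ∀ k : G, ∃ L : ℝ, Commute k g → Tendsto (fun n : ℕ => a (k ^ n) / n) atTop (𝓝 L) := by
    intro k
    by_cases hk : Commute k g
    · obtain ⟨L, hL⟩ := A8_homog (fun n => a (k ^ n)) 3300 (D x0 (k * x0))
        (fun m n => by
          rw [pow_add]
          exact hq (hk.pow_left m) (hk.pow_left n))
        (fun n => (halow _).trans (hDpow k n))
      exact ⟨L, fun _ => hL⟩
    · exact ⟨0, fun h => absurd h hk⟩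
  choose N hN using hex
  have hNabs : ∀ k : G, Commute k g → |N k| = sl D k := by
    intro k hk
    have h1 := (hN k hk).abs
    have h2 := sl_tendsto h hi k x0
    have h3 : Tendsto (fun n : ℕ => D x0 (k ^ n * x0) / n) atTop (𝓝 |N k|) := by
      have h4 : Tendsto (fun n : ℕ => |a (k ^ n) / n| + 1950 / (n : ℝ)) atTop (𝓝 |N k|) := by
        have := h1.add (tendsto_const_div_atTop_nhds_zero_nat (1950 : ℝ))
        rwa [add_zero] at this
      refine tendsto_of_tendsto_of_tendsto_of_le_of_le h1 h4 (fun n => ?_) (fun n => ?_)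
      · show |a (k ^ n) / n| ≤ D x0 (k ^ n * x0) / n
        rw [abs_div, Nat.abs_cast]
        exact div_le_div_of_nonneg_right (halow _) (Nat.cast_nonneg n)
      · show D x0 (k ^ n * x0) / n ≤ |a (k ^ n) / n| + 1950 / (n : ℝ)
        rw [abs_div, Nat.abs_cast, ← add_div]
        exact div_le_div_of_nonneg_right (haup _ (hk.pow_left n)) (Nat.cast_nonneg n)
    exact tendsto_nhds_unique h3 h2
  have hNadd : ∀ k1 k2 : G, Commute k1 g → Commute k2 g → N (k1 * k2) = N k1 + N k2 := by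
    intro k1 k2 h1 h2
    have h12 := hcomm h1 h2
    have t1 := hN _ (h1.mul_left h2)
    have t2 := ((hN k1 h1).add (hN k2 h2))
    have t3 : Tendsto (fun n : ℕ => a ((k1 * k2) ^ n) / n - (a (k1 ^ n) / n + a (k2 ^ n) / n))
        atTop (𝓝 0) := by
      refine squeeze_zero_norm (a := fun n : ℕ => (3300 : ℝ) / n) (fun n => ?_)
        (tendsto_const_div_atTop_nhds_zero_nat 3300)
      rw [Real.norm_eq_abs, h12.mul_pow, ← add_div, ← sub_div, abs_div, Nat.abs_cast]
      refine div_le_div_of_nonneg_right ?_ (Nat.cast_nonneg n)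
      have := hq (h1.pow_left n) (h2.pow_left n)
      rwa [sub_sub] at this
    have t4 := t1.sub t2
    have := tendsto_nhds_unique t4 t3
    linarith
  have hN1 : N 1 = 0 := by
    have := hNadd 1 1 (Commute.one_left g) (Commute.one_left g)
    rw [mul_one] at this
    linarith
  have hNinv : ∀ k : G, Commute k g → N k⁻¹ = -N k := by
    intro k hk
    have := hNadd k k⁻¹ hk hk.inv_left
    rw [mul_inv_cancel, hN1] at this
    linarith
  have hNzero : ∀ k : G, Commute k g → |N k| < τ → k = 1 := by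
    intro k hk hk1
    by_cases ht : k ^ d = 1
    · exact hS.comm_tor hd hτ hε hg ht hk.eq.symm
    · have := hS.lox_sl ht
      rw [hNabs k hk] at hk1
      linarith
  have hNpow : ∀ (k : G) (n : ℕ), Commute k g → N (k ^ n) = n * N k := by
    intro k n hk
    induction n with
    | zero => simp [hN1]
    | succ n ih =>
      rw [pow_succ, hNadd _ _ (hk.pow_left n) hk, ih]
      push_cast
      ring
  have hNzpow : ∀ (k : G) (n : ℤ), Commute k g → N (k ^ n) = n * N k := by
    intro k n hk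
    obtain ⟨m, rfl | rfl⟩ := n.eq_nat_or_neg
    · rw [zpow_natCast, hNpow k m hk]
      push_cast
      ring
    · rw [zpow_neg, zpow_natCast, hNinv _ (hk.pow_left m), hNpow k m hk]
      push_cast
      ring
  -- the image
  let S : AddSubgroup ℝ :=
    { carrier := {t | ∃ k, Commute k g ∧ N k = t}
      zero_mem' := ⟨1, Commute.one_left g, hN1⟩
      add_mem' := by
        rintro _ _ ⟨k1, h1, rfl⟩ ⟨k2, h2, rfl⟩
        exact ⟨k1 * k2, h1.mul_left h2, hNadd _ _ h1 h2⟩
      neg_mem' := by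
        rintro _ ⟨k, hk, rfl⟩
        exact ⟨k⁻¹, hk.inv_left, hNinv k hk⟩ }
  have hSd : Disjoint (S : Set ℝ) (Set.Ioo 0 τ) := by
    rw [Set.disjoint_left]
    rintro _ ⟨k, hk, rfl⟩ ⟨h0, h1⟩
    have hk1 : k = 1 := hNzero k hk (by rw [abs_of_pos h0]; exact h1)
    rw [hk1, hN1] at h0
    exact lt_irrefl _ h0
  obtain ⟨b, hb⟩ := AddSubgroup.cyclic_of_isolated_zero hτ hSd
  have hbS : b ∈ S := by
    rw [hb]
    exact AddSubgroup.mem_closure_singleton_self b
  obtain ⟨c, hc, hcb⟩ := hbS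
  have hall : ∀ k : G, Commute k g → ∃ m : ℤ, k = c ^ m := by
    intro k hk
    have hkS : N k ∈ S := ⟨k, hk, rfl⟩
    rw [hb, AddSubgroup.mem_closure_singleton] at hkS
    obtain ⟨m, hm⟩ := hkS
    refine ⟨m, ?_⟩
    have h1 : N (k * (c ^ m)⁻¹) = 0 := by
      rw [hNadd _ _ hk (hc.zpow_left m).inv_left, hNinv _ (hc.zpow_left m), hNzpow c m hc, hcb,
        ← hm, zsmul_eq_mul]
      ring
    have h2 := hNzero _ (hk.mul_left (hc.zpow_left m).inv_left) (by rw [h1, abs_zero]; exact hτ)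
    rwa [mul_inv_eq_one] at h2
  obtain ⟨m, hm⟩ := hall g (Commute.refl g)
  have hg1 : g ≠ 1 := by
    rintro rfl
    exact hg (one_pow d)
  have hm0 : m ≠ 0 := by
    rintro rfl
    rw [zpow_zero] at hm
    exact hg1 hm
  refine ⟨c, ?_, ?_, ⟨m, hm.symm⟩, fun k => ⟨fun hk => ?_, ?_⟩⟩
  · intro hcd
    have := hS.comm_tor hd hτ hε hg hcd hc.eq.symm
    rw [this, one_zpow] at hm
    exact hg1 hm
  · have h1 : sl D g = |(m : ℝ)| * sl D c := by
      conv_lhs => rw [hm]
      exact sl_zpow h hi c m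
    have h2 : (1 : ℝ) ≤ |(m : ℝ)| := by
      have : (1 : ℤ) ≤ |m| := Int.one_le_abs hm0
      exact_mod_cast this
    rw [h1]
    exact le_mul_of_one_le_left (sl_nonneg h hi c) h2
  · have hkc : Commute k c := hk
    obtain ⟨j, hj⟩ := hall k (by rw [hm]; exact hkc.zpow_right m)
    exact ⟨j, hj.symm⟩
  · rintro ⟨j, rfl⟩
    exact ((Commute.refl c).zpow_left j).eq

end Pool.Agent.helper50.BW
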