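import Mathlib
/-! Definitions for the BW project: words, moves, MainStatement (interface to the algorithm part). -/
namespace Pool.Agent.helper50.BW
open FreeGroup
abbrev W := List (ℕ × Bool)
def wpow (u : W) (s : ℤ) : W :=
  if 0 ≤ s then (List.replicate s.toNat u).flatten else (List.replicate (-s).toNat (invRev u)).flatten
def Fd (d : ℕ) : Subgroup (FreeGroup ℕ) := Subgroup.closure (Set.range fun g : FreeGroup ℕ => g ^ d)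
def Triv (d : ℕ) (w : W) : Prop := FreeGroup.mk w ∈ Fd d
def DD (d : ℕ) (w : W) : ℕ → Set W
  | 0 => {u | u <:+: w ∨ invRev u <:+: w}
  | m + 1 => {u | ∃ u₁ ∈ DD d w m, ∃ u₂ ∈ DD d w m, ∃ u₃ ∈ DD d w m, ∃ s : ℤ,
      |s| ≤ d ∧ u = u₁ ++ wpow u₂ s ++ u₃}
def Cert (d R n : ℕ) (D : Set W) (A u : W) : Prop :=
  ∃ y ∈ D, ∃ z₀ ∈ D, ∃ L : List (W × W), L.length ≤ R ∧
    (∀ p ∈ L, p.1 ∈ D ∧ p.2 ∈ D ∧ 4 * p.2.length ≤ 3 * n ∧ Triv d p.2) ∧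
    FreeGroup.mk A * (FreeGroup.mk u)⁻¹ =
      (L.map fun p => FreeGroup.mk p.1 * FreeGroup.mk p.2 * (FreeGroup.mk p.1)⁻¹).prod *
        (FreeGroup.mk z₀ * FreeGroup.mk y ^ d * (FreeGroup.mk z₀)⁻¹)
def Move (d R : ℕ) (D : Set W) (w : W) : Prop :=
  (∃ w₁ A w₂ u, w = w₁ ++ A ++ w₂ ∧ u ∈ D ∧ u.length < A.length ∧ Cert d R w.length D A u) ∨
  (∃ w₁ A w₂ u, w = w₁ ++ A ++ w₂ ∧ u ∈ D ∧ u.length < (w₂ ++ w₁).length ∧
    4 * ((w₂ ++ w₁).length + u.length) ≤ 3 * w.length ∧ Triv d (w₂ ++ w₁ ++ invRev u))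
def MainStatement : Prop :=
  ∃ d₀ : ℕ, ∀ d ≥ d₀, Odd d → ∃ b c C R : ℕ, 2 ≤ b ∧ 3 ^ (10 * c) ≤ b ∧
    ∀ w : W, w ≠ [] → FreeGroup.IsReduced w → Triv d w →
      Move d R (DD d w (c * Nat.log b w.length + C)) w
end Pool.Agent.helper50.BW
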