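import Pool.Agent.helper50.BW.DefsC
/-! ## BW-C1 stack programs can be run by Turing machines (uses DefsC; 300 lines)
Continuation machine: configurations (K, σ), K a list of programs: skip :: K ↦ K; push r c :: K ↦ K (and push);
seq a b :: K ↦ a :: b :: K; case r a :: K ↦ a (top) :: K (pop); loop r a :: K ↦ K if σ r = [], otherwise a c :: loop r a :: K (pop).
The lists reachable from [P] form a finite set; they are the states of the machine.
TM: Γ := Option Sy, blank := none; tape j contains the stack σ j in the cells 1..len, top in the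
cell len = head position (cell 0 and all others blank). -/
namespace Pool.Agent.helper50.BW

/-! ### the reachable continuations -/

/-- one step of the control -/
inductive C1Nx : List Pg → List Pg → Prop
  | skip (K : List Pg) : C1Nx (.skip :: K) K
  | push (r : ℕ) (c : Sy) (K : List Pg) : C1Nx (.push r c :: K) K
  | seq (a b : Pg) (K : List Pg) : C1Nx (.seq a b :: K) (a :: b :: K)
  | case (r : ℕ) (a : Option Sy → Pg) (o : Option Sy) (K : List Pg) : C1Nx (.case r a :: K) (a o :: K)
  | loop_nil (r : ℕ) (a : Sy → Pg) (K : List Pg) : C1Nx (.loop r a :: K) K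
  | loop_cons (r : ℕ) (a : Sy → Pg) (c : Sy) (K : List Pg) : C1Nx (.loop r a :: K) (a c :: .loop r a :: K)

theorem c1_part (P : Pg) : ∀ K0 : List Pg, ∃ S : Set (List Pg), S.Finite ∧ P :: K0 ∈ S ∧
    ∀ K ∈ S, ∀ K', C1Nx K K' → K' ∈ S ∨ K' = K0 := by
  induction P with
  | skip =>
    intro K0
    refine ⟨{(Pg.skip :: K0 : List Pg)}, Set.finite_singleton _, rfl, ?_⟩
    intro K hK K' h
    rw [Set.mem_singleton_iff] at hK
    subst hK
    cases h
    exact Or.inr rfl
  | push r c =>
    intro K0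
    refine ⟨{(Pg.push r c :: K0 : List Pg)}, Set.finite_singleton _, rfl, ?_⟩
    intro K hK K' h
    rw [Set.mem_singleton_iff] at hK
    subst hK
    cases h
    exact Or.inr rfl
  | seq a b iha ihb =>
    intro K0
    obtain ⟨Sb, fb, mb, cb⟩ := ihb K0
    obtain ⟨Sa, fa, ma, ca⟩ := iha (b :: K0)
    refine ⟨{(Pg.seq a b :: K0 : List Pg)} ∪ (Sa ∪ Sb), (Set.finite_singleton _).union (fa.union fb), Or.inl rfl, ?_⟩
    rintro K (hK | hK | hK) K' h
    · rw [Set.mem_singleton_iff] at hK
      subst hK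
      cases h
      exact Or.inl (Or.inr (Or.inl ma))
    · rcases ca K hK K' h with h | h
      · exact Or.inl (Or.inr (Or.inl h))
      · rw [h]
        exact Or.inl (Or.inr (Or.inr mb))
    · rcases cb K hK K' h with h | h
      · exact Or.inl (Or.inr (Or.inr h))
      · exact Or.inr h
  | case r a ih =>
    intro K0
    choose S fS mS cS using fun o => ih o K0
    refine ⟨{(Pg.case r a :: K0 : List Pg)} ∪ ⋃ o, S o, (Set.finite_singleton _).union (Set.finite_iUnion fS),
      Or.inl rfl, ?_⟩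
    rintro K (hK | hK) K' h
    · rw [Set.mem_singleton_iff] at hK
      subst hK
      cases h with
      | case _ _ o _ => exact Or.inl (Or.inr (Set.mem_iUnion.2 ⟨o, mS o⟩))
    · obtain ⟨o, ho⟩ := Set.mem_iUnion.1 hK
      rcases cS o K ho K' h with h | h
      · exact Or.inl (Or.inr (Set.mem_iUnion.2 ⟨o, h⟩))
      · exact Or.inr h
  | loop r a ih =>
    intro K0
    choose S fS mS cS using fun c => ih c (.loop r a :: K0)
    refine ⟨{(Pg.loop r a :: K0 : List Pg)} ∪ ⋃ c, S c, (Set.finite_singleton _).union (Set.finite_iUnion fS),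
      Or.inl rfl, ?_⟩
    rintro K (hK | hK) K' h
    · rw [Set.mem_singleton_iff] at hK
      subst hK
      cases h with
      | loop_nil => exact Or.inr rfl
      | loop_cons _ _ c _ => exact Or.inl (Or.inr (Set.mem_iUnion.2 ⟨c, mS c⟩))
    · obtain ⟨c, hc⟩ := Set.mem_iUnion.1 hK
      rcases cS c K hc K' h with h | h
      · exact Or.inl (Or.inr (Set.mem_iUnion.2 ⟨c, h⟩))
      · rw [h]
        exact Or.inl (Or.inl rfl)

theorem c1_closed (P : Pg) : ∃ S : Set (List Pg), S.Finite ∧ [P] ∈ S ∧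
    ∀ K ∈ S, ∀ K', C1Nx K K' → K' ∈ S := by
  obtain ⟨S, fS, mS, cS⟩ := c1_part P []
  refine ⟨insert [] S, fS.insert _, Or.inr mS, ?_⟩
  rintro K (hK | hK) K' h
  · rw [hK] at h
    cases h
  · rcases cS K hK K' h with h | h
    · exact Or.inr h
    · exact Or.inl h

/-- number of registers needed for the first program of a continuation -/
def c1_reg : List Pg → ℕ
  | .push r _ :: _ => r + 1
  | .case r _ :: _ => r + 1
  | .loop r _ :: _ => r + 1
  | _ => 0

theorem c1_reg_bound {S : Set (List Pg)} (hS : S.Finite) : ∃ m : ℕ, ∀ K ∈ S, c1_reg K ≤ m + 2 := by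
  classical
  refine ⟨hS.toFinset.sup c1_reg, fun K hK => ?_⟩
  have : c1_reg K ≤ hS.toFinset.sup c1_reg := Finset.le_sup (f := c1_reg) (hS.mem_toFinset.2 hK)
  omega

/-- size of a program -/
def c1_size : Pg → ℕ
  | .skip => 1
  | .push _ _ => 1
  | .seq a b => 1 + c1_size a + c1_size b
  | .case _ a => 1 + ∑ o, c1_size (a o)
  | .loop _ a => 1 + ∑ c, c1_size (a c)

/-! ### stacks on tapes -/

/-- the tape `T` with head position `h` contains the stack `l` -/
def C1Rep (l : List Sy) (T : ℤ → Option Sy) (h : ℤ) : Prop :=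
  h = l.length ∧ ∀ i : ℤ, T i = if 1 ≤ i then l.reverse[(i - 1).toNat]? else none

theorem c1_rep_nil : C1Rep [] (fun _ => none) 0 := by
  refine ⟨by simp, fun i => ?_⟩
  split_ifs <;> simp

theorem c1_rep_top {l : List Sy} {T : ℤ → Option Sy} {h : ℤ} (H : C1Rep l T h) : T h = l.head? := by
  rw [H.2, H.1]
  cases l with
  | nil => simp
  | cons c l =>
    have h1 : (1 : ℤ) ≤ ((c :: l).length : ℤ) := by simp
    rw [if_pos h1, List.reverse_cons]
    have h2 : (((c :: l).length : ℤ) - 1).toNat = l.reverse.length := by simp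
    rw [h2, List.getElem?_append_right le_rfl]
    simp

theorem c1_rep_same {l : List Sy} {T : ℤ → Option Sy} {h : ℤ} (H : C1Rep l T h) :
    C1Rep l (Function.update T h (T h)) (h + 0) := by
  rw [Function.update_eq_self, add_zero]
  exact H

theorem c1_rep_push {l : List Sy} {T : ℤ → Option Sy} {h : ℤ} (H : C1Rep l T h) (c : Sy) :
    C1Rep (c :: l) (Function.update T (h + 1) (some c)) (h + 1) := by
  refine ⟨by rw [H.1]; simp, fun i => ?_⟩
  rw [Function.update_apply, List.reverse_cons]
  split_ifs with h1 h2 h2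
  · rw [h1, H.1]
    have h3 : ((l.length : ℤ) + 1 - 1).toNat = l.reverse.length := by simp
    rw [h3, List.getElem?_append_right le_rfl]
    simp
  · have := H.1
    omega
  · rw [H.2, if_pos h2]
    have hh := H.1
    by_cases h3 : (i - 1).toNat < l.reverse.length
    · rw [List.getElem?_append_left h3]
    · rw [List.getElem?_eq_none (by omega), List.getElem?_eq_none]
      rw [List.length_append, List.length_singleton]
      rw [List.length_reverse] at h3 ⊢
      omega
  · rw [H.2, if_neg h2]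

theorem c1_rep_pop {l : List Sy} {c : Sy} {T : ℤ → Option Sy} {h : ℤ} (H : C1Rep (c :: l) T h) :
    C1Rep l (Function.update T h none) (h + -1) := by
  have hh := H.1
  rw [List.length_cons] at hh
  refine ⟨by rw [hh]; push_cast; ring, fun i => ?_⟩
  rw [Function.update_apply]
  split_ifs with h1 h2 h2
  · rw [List.getElem?_eq_none]
    rw [List.length_reverse]
    push_cast at hh
    omega
  · rfl
  · rw [H.2, if_pos h2, List.reverse_cons]
    push_cast at hh
    by_cases h3 : (i - 1).toNat < l.reverse.length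
    · rw [List.getElem?_append_left h3]
    · rw [List.length_reverse] at h3
      rw [List.getElem?_eq_none, List.getElem?_eq_none]
      · rw [List.length_reverse]
        omega
      · rw [List.length_append, List.length_singleton, List.length_reverse]
        omega
  · rw [H.2, if_neg h2]

/-! ### the machine -/

section

variable (S : Set (List Pg)) (m : ℕ)

/-- states: `inl (inl false)`, `inl (inl true)`: copying the input; `inl (inr b)`: stopped with answer `b`;
`inr (false, K)`: continuation `K`; `inr (true, K)`: in the middle of a push -/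
abbrev C1Q : Type := (Bool ⊕ Bool) ⊕ (Bool × S)

/-- the actions of the machine -/
abbrev C1Act : Type := C1Q S × (Fin (m + 2) → Option Sy) × SignType × (Fin (m + 2) → SignType)

open Classical in
/-- go to the continuation `K` -/
noncomputable def c1_go (K : List Pg) (w : Fin (m + 2) → Option Sy) (mv : Fin (m + 2) → SignType) :
    Option (C1Act S m) :=
  if h : K ∈ S then some (Sum.inr (false, ⟨K, h⟩), w, 0, mv) else none

/-- action for a continuation -/
noncomputable def c1_run (K : List Pg) (hK : K ∈ S) (z : Fin (m + 2) → Option Sy) : Option (C1Act S m) :=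
  match K with
  | [] => some (Sum.inl (Sum.inr (z 1).isSome), z, 0, 0)
  | .skip :: K' => c1_go S m K' z 0
  | .push r _ :: _ => if h : r < m + 2 then some (Sum.inr (true, ⟨_, hK⟩), z, 0, Pi.single ⟨r, h⟩ 1)
      else none
  | .seq a b :: K' => c1_go S m (a :: b :: K') z 0
  | .case r a :: K' => if h : r < m + 2 then
      match z ⟨r, h⟩ with
      | none => c1_go S m (a none :: K') z 0
      | some c => c1_go S m (a (some c) :: K') (Function.update z ⟨r, h⟩ none) (Pi.single ⟨r, h⟩ (-1))
      else none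
  | .loop r a :: K' => if h : r < m + 2 then
      match z ⟨r, h⟩ with
      | none => c1_go S m K' z 0
      | some c => c1_go S m (a c :: .loop r a :: K') (Function.update z ⟨r, h⟩ none)
          (Pi.single ⟨r, h⟩ (-1))
      else none

/-- second half of a push -/
noncomputable def c1_wr (K : List Pg) (z : Fin (m + 2) → Option Sy) : Option (C1Act S m) :=
  match K with
  | .push r c :: K' => if h : r < m + 2 then c1_go S m K' (Function.update z ⟨r, h⟩ (some c)) 0 else none
  | _ => none

/-- transition function -/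
noncomputable def c1_delta (P : Pg) (q : C1Q S) (a : Option A4) (z : Fin (m + 2) → Option Sy) :
    Option (C1Act S m) :=
  match q with
  | Sum.inl (Sum.inl false) =>
    match a with
    | none => c1_go S m [P] z 0
    | some _ => some (Sum.inl (Sum.inl true), z, 0, Pi.single 0 1)
  | Sum.inl (Sum.inl true) =>
    match a with
    | none => none
    | some a => some (Sum.inl (Sum.inl false), Function.update z 0 (some a.sy), 1, 0)
  | Sum.inl (Sum.inr _) => none
  | Sum.inr (false, K) => c1_run S m K.1 K.2 z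
  | Sum.inr (true, K) => c1_wr S m K.1 z

/-- the machine -/
noncomputable abbrev c1_M (hS : S.Finite) (P : Pg) : TM where
  k := m + 2
  Q := C1Q S
  Γ := Option Sy
  finQ := by
    have := hS.to_subtype
    infer_instance
  finΓ := inferInstance
  blank := none
  start := Sum.inl (Sum.inl false)
  acc := {Sum.inl (Sum.inr true)}
  δ := c1_delta S m P

end

/-- `n` steps from `c` to `c'` -/
inductive C1Rn (M : TM) (u : List A4) : ℕ → Cfg M → Cfg M → Prop
  | zero (c : Cfg M) : C1Rn M u 0 c c
  | succ {n : ℕ} {c c' c'' : Cfg M} (h : M.step u c = some c') (h' : C1Rn M u n c' c'') : C1Rn M u (n + 1) c c''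

theorem C1Rn.trans {M : TM} {u : List A4} {n n' : ℕ} {c c' c'' : Cfg M} (h : C1Rn M u n c c')
    (h' : C1Rn M u n' c' c'') : C1Rn M u (n + n') c c'' := by
  induction h with
  | zero c =>
    rw [zero_add]
    exact h'
  | succ h1 _ ih =>
    rw [Nat.add_right_comm]
    exact C1Rn.succ h1 (ih h')

theorem C1Rn.one {M : TM} {u : List A4} {c c' : Cfg M} (h : M.step u c = some c') : C1Rn M u 1 c c' :=
  C1Rn.succ h (C1Rn.zero c')

theorem c1_steps {M : TM} {u : List A4} {n : ℕ} {c c' : Cfg M} (h : C1Rn M u n c c') :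
    ∀ t, M.steps u t = some c → M.steps u (t + n) = some c' := by
  induction h with
  | zero c =>
    intro t ht
    rw [add_zero]
    exact ht
  | succ h1 _ ih =>
    rename_i n c c' c'' _
    intro t ht
    have h2 : M.steps u (t + 1) = some c' := by
      show (M.steps u t).bind (M.step u) = some c'
      rw [ht]
      exact h1
    have h3 := ih (t + 1) h2
    rw [show t + (n + 1) = t + 1 + n by omega]
    exact h3

section

variable {S : Set (List Pg)} {m : ℕ} {hS : S.Finite} {P : Pg} {u : List A4}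

/-- the configuration `c` represents the continuation `K` and the registers `σ` -/
def C1Rp (S : Set (List Pg)) (m : ℕ) (hS : S.Finite) (P : Pg) (K : List Pg) (σ : St)
    (c : Cfg (c1_M S m hS P)) : Prop :=
  ∃ h : K ∈ S, c.q = Sum.inr (false, ⟨K, h⟩) ∧ ∀ j : Fin (m + 2), C1Rep (σ j) (c.tape j) (c.head j)

/-- the configuration after an action -/
def c1_after (c : Cfg (c1_M S m hS P)) (r : C1Act S m) : Cfg (c1_M S m hS P) :=
  ⟨r.1, c.pos + (r.2.2.1 : ℤ), fun j => Function.update (c.tape j) (c.head j) (r.2.1 j),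
    fun j => c.head j + (r.2.2.2 j : ℤ)⟩

theorem c1_step_eq {c : Cfg (c1_M S m hS P)} {r : C1Act S m}
    (h : c1_delta S m P c.q (TM.rd u c.pos) (fun j => c.tape j (c.head j)) = some r) :
    (c1_M S m hS P).step u c = some (c1_after c r) := by
  show (c1_delta S m P c.q (TM.rd u c.pos) (fun j => c.tape j (c.head j))).map _ = _
  rw [h]
  rfl

theorem c1_halt {c : Cfg (c1_M S m hS P)} {b : Bool} (h : c.q = Sum.inl (Sum.inr b)) :
    (c1_M S m hS P).step u c = none := by
  show (c1_delta S m P c.q (TM.rd u c.pos) (fun j => c.tape j (c.head j))).map _ = none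
  rw [h]
  rfl

theorem c1_go_eq {K : List Pg} (hK : K ∈ S) (w : Fin (m + 2) → Option Sy) (mv : Fin (m + 2) → SignType) :
    c1_go S m K w mv = some (Sum.inr (false, ⟨K, hK⟩), w, 0, mv) := by
  unfold c1_go
  rw [dif_pos hK]

theorem c1_delta_run (K : List Pg) (hK : K ∈ S) (a : Option A4) (z : Fin (m + 2) → Option Sy) :
    c1_delta S m P (Sum.inr (false, ⟨K, hK⟩)) a z = c1_run S m K hK z := rfl

theorem c1_delta_wr (K : List Pg) (hK : K ∈ S) (a : Option A4) (z : Fin (m + 2) → Option Sy) :
    c1_delta S m P (Sum.inr (true, ⟨K, hK⟩)) a z = c1_wr S m K z := rfl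

/-- a step which does not change the tapes -/
theorem c1_keep {K K' : List Pg} {σ : St} {c : Cfg (c1_M S m hS P)} (hc : C1Rp S m hS P K σ c)
    (hK' : K' ∈ S) (h : ∀ hK : K ∈ S, c1_run S m K hK (fun j => c.tape j (c.head j)) =
      c1_go S m K' (fun j => c.tape j (c.head j)) 0) :
    ∃ c', C1Rn (c1_M S m hS P) u 1 c c' ∧ C1Rp S m hS P K' σ c' := by
  obtain ⟨hK, hq, hr⟩ := hc
  have hd : c1_delta S m P c.q (TM.rd u c.pos) (fun j => c.tape j (c.head j)) =
      some (Sum.inr (false, ⟨K', hK'⟩), (fun j => c.tape j (c.head j)), 0, 0) := by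
    rw [hq, c1_delta_run, h hK, c1_go_eq hK']
  refine ⟨_, C1Rn.one (c1_step_eq hd), hK', rfl, fun j => ?_⟩
  have := c1_rep_same (hr j)
  simpa [c1_after] using this

/-- a step which pops a symbol -/
theorem c1_pop {K K' : List Pg} {σ : St} {c : Cfg (c1_M S m hS P)} (hc : C1Rp S m hS P K σ c)
    (hK' : K' ∈ S) {r : ℕ} (hr : r < m + 2) {s : Sy} {l : List Sy} (hl : σ r = s :: l)
    (h : ∀ hK : K ∈ S, c1_run S m K hK (fun j => c.tape j (c.head j)) =
      c1_go S m K' (Function.update (fun j => c.tape j (c.head j)) ⟨r, hr⟩ none) (Pi.single ⟨r, hr⟩ (-1))) :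
    ∃ c', C1Rn (c1_M S m hS P) u 1 c c' ∧ C1Rp S m hS P K' (Function.update σ r l) c' := by
  obtain ⟨hK, hq, hrep⟩ := hc
  have hd : c1_delta S m P c.q (TM.rd u c.pos) (fun j => c.tape j (c.head j)) =
      some (Sum.inr (false, ⟨K', hK'⟩), Function.update (fun j => c.tape j (c.head j)) ⟨r, hr⟩ none, 0,
        Pi.single ⟨r, hr⟩ (-1)) := by
    rw [hq, c1_delta_run, h hK, c1_go_eq hK']
  refine ⟨_, C1Rn.one (c1_step_eq hd), hK', rfl, fun j => ?_⟩
  by_cases hj : j = ⟨r, hr⟩
  · subst hj
    have h1 : C1Rep (s :: l) (c.tape ⟨r, hr⟩) (c.head ⟨r, hr⟩) := by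
      rw [← hl]
      exact hrep ⟨r, hr⟩
    have := c1_rep_pop h1
    simpa [c1_after] using this
  · have h1 : (j : ℕ) ≠ r := fun e => hj (Fin.ext e)
    have := c1_rep_same (hrep j)
    simpa [c1_after, Function.update_of_ne h1, Function.update_of_ne hj, Pi.single_eq_of_ne hj] using this

theorem c1_push {r : ℕ} {s : Sy} {K : List Pg} {σ : St} {c : Cfg (c1_M S m hS P)}
    (hc : C1Rp S m hS P (.push r s :: K) σ c) (hK' : K ∈ S) (hr : r < m + 2) :
    ∃ c', C1Rn (c1_M S m hS P) u 2 c c' ∧ C1Rp S m hS P K (Function.update σ r (s :: σ r)) c' := by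
  obtain ⟨hK, hq, hrep⟩ := hc
  have hd : c1_delta S m P c.q (TM.rd u c.pos) (fun j => c.tape j (c.head j)) =
      some (Sum.inr (true, ⟨_, hK⟩), (fun j => c.tape j (c.head j)), 0, Pi.single ⟨r, hr⟩ 1) := by
    rw [hq, c1_delta_run]
    simp only [c1_run, dif_pos hr]
  set c1 := c1_after c (Sum.inr (true, ⟨.push r s :: K, hK⟩), (fun j => c.tape j (c.head j)), 0,
    Pi.single ⟨r, hr⟩ 1) with hc1
  have hd2 : c1_delta S m P c1.q (TM.rd u c1.pos) (fun j => c1.tape j (c1.head j)) =
      some (Sum.inr (false, ⟨K, hK'⟩), Function.update (fun j => c1.tape j (c1.head j)) ⟨r, hr⟩ (some s),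
        0, 0) := by
    have hq1 : c1.q = Sum.inr (true, ⟨.push r s :: K, hK⟩) := rfl
    rw [hq1, c1_delta_wr]
    simp only [c1_wr, dif_pos hr]
    rw [c1_go_eq hK']
  refine ⟨_, (C1Rn.one (c1_step_eq hd)).trans (C1Rn.one (c1_step_eq hd2)), hK', rfl, fun j => ?_⟩
  by_cases hj : j = ⟨r, hr⟩
  · subst hj
    have := c1_rep_push (hrep ⟨r, hr⟩) s
    simpa [c1_after, hc1] using this
  · have h1 : (j : ℕ) ≠ r := fun e => hj (Fin.ext e)
    have := c1_rep_same (hrep j)
    simpa [c1_after, hc1, Function.update_of_ne h1, Function.update_of_ne hj, Pi.single_eq_of_ne hj]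
      using this

theorem c1_size_case (r : ℕ) (a : Option Sy → Pg) (o : Option Sy) :
    1 + c1_size (a o) ≤ c1_size (.case r a) := by
  have h : c1_size (a o) ≤ ∑ o, c1_size (a o) :=
    Finset.single_le_sum (f := fun o => c1_size (a o)) (fun _ _ => Nat.zero_le _) (Finset.mem_univ o)
  show 1 + c1_size (a o) ≤ 1 + ∑ o, c1_size (a o)
  omega

theorem c1_size_loop (r : ℕ) (a : Sy → Pg) (c : Sy) : 1 + c1_size (a c) ≤ c1_size (.loop r a) := by
  have h : c1_size (a c) ≤ ∑ c, c1_size (a c) :=
    Finset.single_le_sum (f := fun c => c1_size (a c)) (fun _ _ => Nat.zero_le _) (Finset.mem_univ c)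
  show 1 + c1_size (a c) ≤ 1 + ∑ c, c1_size (a c)
  omega

theorem c1_sim (hcl : ∀ K ∈ S, ∀ K', C1Nx K K' → K' ∈ S) (hreg : ∀ K ∈ S, c1_reg K ≤ m + 2) {Q : Pg}
    {σ σ' : St} {t : ℕ} (h : Ex Q σ t σ') : ∀ (K : List Pg) (c : Cfg (c1_M S m hS P)),
      C1Rp S m hS P (Q :: K) σ c → ∃ n ≤ 2 * c1_size Q * (t + 1), ∃ c',
        C1Rn (c1_M S m hS P) u n c c' ∧ C1Rp S m hS P K σ' c' := by
  induction h with
  | skip σ =>
    intro K c hc
    obtain ⟨c', h1, h2⟩ := c1_keep (u := u) hc (hcl _ hc.1 _ (C1Nx.skip K)) (fun _ => rfl)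
    exact ⟨1, by simp [c1_size], c', h1, h2⟩
  | push r s σ =>
    intro K c hc
    have hr : r + 1 ≤ m + 2 := hreg _ hc.1
    obtain ⟨c', h1, h2⟩ := c1_push (u := u) hc (hcl _ hc.1 _ (C1Nx.push r s K)) (by omega)
    exact ⟨2, by simp [c1_size], c', h1, h2⟩
  | @seq a b σ σ1 σ2 t t' _ _ ih1 ih2 =>
    intro K c hc
    obtain ⟨c1, g1, g2⟩ := c1_keep (u := u) hc (hcl _ hc.1 _ (C1Nx.seq a b K)) (fun _ => rfl)
    obtain ⟨n1, hn1, c2, g3, g4⟩ := ih1 (b :: K) c1 g2
    obtain ⟨n2, hn2, c3, g5, g6⟩ := ih2 K c2 g4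
    refine ⟨1 + n1 + n2, ?_, c3, (g1.trans g3).trans g5, g6⟩
    have e : c1_size (.seq a b) = 1 + c1_size a + c1_size b := rfl
    rw [e]
    nlinarith
  | @case_nil r a σ σ1 t hnil _ ih =>
    intro K c hc
    have hr : r + 1 ≤ m + 2 := hreg _ hc.1
    have hr' : r < m + 2 := by omega
    have hz : c.tape ⟨r, hr'⟩ (c.head ⟨r, hr'⟩) = none := by
      obtain ⟨_, _, hrep⟩ := hc
      rw [c1_rep_top (hrep ⟨r, hr'⟩)]
      show (σ r).head? = none
      rw [hnil]
      rfl
    obtain ⟨c1, g1, g2⟩ := c1_keep (u := u) hc (hcl _ hc.1 _ (C1Nx.case r a none K))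
      (fun _ => by simp only [c1_run, dif_pos hr', hz])
    obtain ⟨n1, hn1, c2, g3, g4⟩ := ih K c1 g2
    refine ⟨1 + n1, ?_, c2, g1.trans g3, g4⟩
    have := c1_size_case r a none
    nlinarith
  | @case_cons r a s l σ σ1 t hcons _ ih =>
    intro K c hc
    have hr : r + 1 ≤ m + 2 := hreg _ hc.1
    have hr' : r < m + 2 := by omega
    have hz : c.tape ⟨r, hr'⟩ (c.head ⟨r, hr'⟩) = some s := by
      obtain ⟨_, _, hrep⟩ := hc
      rw [c1_rep_top (hrep ⟨r, hr'⟩)]
      show (σ r).head? = some s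
      rw [hcons]
      rfl
    obtain ⟨c1, g1, g2⟩ := c1_pop (u := u) hc (hcl _ hc.1 _ (C1Nx.case r a (some s) K)) hr' hcons
      (fun _ => by simp only [c1_run, dif_pos hr', hz])
    obtain ⟨n1, hn1, c2, g3, g4⟩ := ih K c1 g2
    refine ⟨1 + n1, ?_, c2, g1.trans g3, g4⟩
    have := c1_size_case r a (some s)
    nlinarith
  | @loop_nil r a σ hnil =>
    intro K c hc
    have hr : r + 1 ≤ m + 2 := hreg _ hc.1
    have hr' : r < m + 2 := by omega
    have hz : c.tape ⟨r, hr'⟩ (c.head ⟨r, hr'⟩) = none := by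
      obtain ⟨_, _, hrep⟩ := hc
      rw [c1_rep_top (hrep ⟨r, hr'⟩)]
      show (σ r).head? = none
      rw [hnil]
      rfl
    obtain ⟨c1, g1, g2⟩ := c1_keep (u := u) hc (hcl _ hc.1 _ (C1Nx.loop_nil r a K))
      (fun _ => by simp only [c1_run, dif_pos hr', hz])
    refine ⟨1, ?_, c1, g1, g2⟩
    have e : c1_size (.loop r a) = 1 + ∑ c, c1_size (a c) := rfl
    rw [e]
    generalize ∑ c, c1_size (a c) = X
    omega
  | @loop_cons r a s l σ σ1 σ2 t t' hcons _ _ ih1 ih2 =>
    intro K c hc
    have hr : r + 1 ≤ m + 2 := hreg _ hc.1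
    have hr' : r < m + 2 := by omega
    have hz : c.tape ⟨r, hr'⟩ (c.head ⟨r, hr'⟩) = some s := by
      obtain ⟨_, _, hrep⟩ := hc
      rw [c1_rep_top (hrep ⟨r, hr'⟩)]
      show (σ r).head? = some s
      rw [hcons]
      rfl
    obtain ⟨c1, g1, g2⟩ := c1_pop (u := u) hc (hcl _ hc.1 _ (C1Nx.loop_cons r a s K)) hr' hcons
      (fun _ => by simp only [c1_run, dif_pos hr', hz])
    obtain ⟨n1, hn1, c2, g3, g4⟩ := ih1 (.loop r a :: K) c1 g2
    obtain ⟨n2, hn2, c3, g5, g6⟩ := ih2 K c2 g4
    refine ⟨1 + n1 + n2, ?_, c3, (g1.trans g3).trans g5, g6⟩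
    have := c1_size_loop r a s
    nlinarith

/-- the copying phase -/
theorem c1_copy : ∀ n ≤ u.length, ∃ c : Cfg (c1_M S m hS P), (c1_M S m hS P).steps u (2 * n) = some c ∧
    c.q = Sum.inl (Sum.inl false) ∧ c.pos = n ∧
    ∀ j : Fin (m + 2), C1Rep (if (j : ℕ) = 0 then ((u.take n).map A4.sy).reverse else []) (c.tape j)
      (c.head j) := by
  intro n
  induction n with
  | zero =>
    intro _
    refine ⟨(c1_M S m hS P).init, rfl, rfl, rfl, fun j => ?_⟩
    have : (if (j : ℕ) = 0 then ((u.take 0).map A4.sy).reverse else []) = [] := by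
      split_ifs <;> simp
    rw [this]
    exact c1_rep_nil
  | succ n ih =>
    intro hn
    obtain ⟨c, h1, hq, hpos, hrep⟩ := ih (by omega)
    have hlt : n < u.length := by omega
    have hrd : TM.rd u (n : ℤ) = some u[n] := by
      unfold TM.rd
      rw [if_pos (by omega), Int.toNat_natCast]
      exact List.getElem?_eq_getElem hlt
    have hd : c1_delta S m P c.q (TM.rd u c.pos) (fun j => c.tape j (c.head j)) =
        some (Sum.inl (Sum.inl true), (fun j => c.tape j (c.head j)), 0, Pi.single 0 1) := by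
      rw [hq, hpos, hrd]
      rfl
    set c1 := c1_after c (Sum.inl (Sum.inl true), (fun j => c.tape j (c.head j)), 0,
      Pi.single 0 1) with hc1
    have hq1 : c1.q = Sum.inl (Sum.inl true) := rfl
    have hpos1 : c1.pos = n := by
      rw [hc1]
      simp [c1_after, hpos]
    have hd2 : c1_delta S m P c1.q (TM.rd u c1.pos) (fun j => c1.tape j (c1.head j)) =
        some (Sum.inl (Sum.inl false), Function.update (fun j => c1.tape j (c1.head j)) 0
          (some u[n].sy), 1, 0) := by
      rw [hq1, hpos1, hrd]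
      rfl
    have hrun := (C1Rn.one (c1_step_eq hd)).trans (C1Rn.one (c1_step_eq hd2))
    have hs := c1_steps hrun _ h1
    rw [show 2 * n + (1 + 1) = 2 * (n + 1) by ring] at hs
    refine ⟨_, hs, rfl, ?_, fun j => ?_⟩
    · simp [c1_after, hpos]
    · by_cases hj : j = 0
      · subst hj
        have e : ((u.take (n + 1)).map A4.sy).reverse = u[n].sy :: ((u.take n).map A4.sy).reverse := by
          have h5 : u.take (n + 1) = u.take n ++ [u[n]] := by
            rw [List.take_add_one, List.getElem?_eq_getElem hlt]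
            rfl
          rw [h5, List.map_append, List.reverse_append]
          rfl
        have h2 := c1_rep_push (hrep 0) u[n].sy
        rw [if_pos (by simp)] at h2 ⊢
        rw [e]
        simpa [c1_after, hc1] using h2
      · have hj' : ¬ (j : ℕ) = 0 := fun e => hj (Fin.ext (by simpa using e))
        have h2 := c1_rep_same (hrep j)
        rw [if_neg hj'] at h2 ⊢
        simpa [c1_after, hc1, Function.update_of_ne hj, Pi.single_eq_of_ne hj] using h2

end

theorem compile (P : Pg) : ∃ (M : TM) (c : ℕ), ∀ (u : List A4) (t : ℕ) (σ' : St), Ex P (inp u) t σ' →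
    ∃ t' ≤ c * (t + u.length + 1), M.HaltsIn u t' (σ' 1 ≠ []) := by
  obtain ⟨S, hS, hP, hcl⟩ := c1_closed P
  obtain ⟨m, hreg⟩ := c1_reg_bound hS
  refine ⟨c1_M S m hS P, 2 * c1_size P + 2, fun u t σ' h => ?_⟩
  obtain ⟨c, h1, hq, hpos, hrep⟩ := c1_copy (S := S) (m := m) (hS := hS) (P := P) (u := u) u.length le_rfl
  have hrd : TM.rd u (u.length : ℤ) = none := by
    unfold TM.rd
    rw [if_pos (by omega), Int.toNat_natCast]
    exact List.getElem?_eq_none le_rfl
  have hd : c1_delta S m P c.q (TM.rd u c.pos) (fun j => c.tape j (c.head j)) =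
      some (Sum.inr (false, ⟨[P], hP⟩), (fun j => c.tape j (c.head j)), 0, 0) := by
    rw [hq, hpos, hrd]
    show c1_go S m [P] _ 0 = _
    rw [c1_go_eq hP]
  set c1 := c1_after c (Sum.inr (false, ⟨[P], hP⟩), (fun j => c.tape j (c.head j)), 0, 0) with hc1
  have hrp : C1Rp S m hS P [P] (inp u) c1 := by
    refine ⟨hP, rfl, fun j => ?_⟩
    have h2 := c1_rep_same (hrep j)
    have e : inp u (j : ℕ) = if (j : ℕ) = 0 then ((u.take u.length).map A4.sy).reverse else [] := by
      rw [List.take_length]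
      rfl
    rw [e]
    simpa [c1_after, hc1] using h2
  obtain ⟨n, hn, c2, g1, g2⟩ := c1_sim (u := u) hcl hreg h [] c1 hrp
  obtain ⟨hK, hq2, hrep2⟩ := g2
  have hd2 : c1_delta S m P c2.q (TM.rd u c2.pos) (fun j => c2.tape j (c2.head j)) =
      some (Sum.inl (Sum.inr (c2.tape 1 (c2.head 1)).isSome), (fun j => c2.tape j (c2.head j)), 0, 0) := by
    rw [hq2, c1_delta_run]
    rfl
  have hrun := ((C1Rn.one (c1_step_eq hd)).trans g1).trans (C1Rn.one (c1_step_eq hd2))
  have hs := c1_steps hrun _ h1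
  refine ⟨_, ?_, _, hs, ?_, ?_⟩
  · nlinarith
  · exact c1_halt rfl
  · show (Sum.inl (Sum.inr (c2.tape 1 (c2.head 1)).isSome) : C1Q S) ∈
      ({Sum.inl (Sum.inr true)} : Set (C1Q S)) ↔ _
    rw [Set.mem_singleton_iff, Sum.inl.injEq, Sum.inr.injEq, c1_rep_top (hrep2 1)]
    have e : ((1 : Fin (m + 2)) : ℕ) = 1 := by simp
    rw [e]
    cases σ' 1 <;> simp

end Pool.Agent.helper50.BW
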