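import Pool.Agent.helper50.BW.C2
/-! ## BW-C3 FP: identity, constants, composition, pairs, projections (uses C2; 250 lines)
Calling convention: argument in i, result in o, working registers ≥ s.  FP.idf: copy i o s.  FP.const: pushl.
comp: program of f from i to s (working space s+1), program of g from s to o (working space s+1), clr s.
pair: f from i to s, g from i to s+1; then o := 1 :: (s) ++ (s+1): mv (s+1) o (s+2), mv s o (s+2), push o 1.
fst: copy i s (s+1), pop 1 (case), split s (s+1) (s+2) (s+3), mv (s+1) o (s+2), clr s.  snd similar.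
Polynomial bounds: sums, products and compositions of (C + x)^C are ≤ (C' + x)^C' (C3.poly lemmas, reused everywhere). -/
namespace Pool.Agent.helper50.BW


variable {α β γ δ : Type} [Enc α] [Enc β] [Enc γ] [Enc δ]
theorem poly_add {C C' x : ℕ} : (C + x) ^ C + (C' + x) ^ C' ≤ (C + C' + 2 + x) ^ (C + C' + 2) := by
  set N := C + C' + 2 + x with hN
  have hN1 : 1 ≤ N := by omega
  have h1 : (C + x) ^ C ≤ N ^ (C + C' + 1) :=
    (Nat.pow_le_pow_left (by omega) C).trans (Nat.pow_le_pow_right hN1 (by omega))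
  have h2 : (C' + x) ^ C' ≤ N ^ (C + C' + 1) :=
    (Nat.pow_le_pow_left (by omega) C').trans (Nat.pow_le_pow_right hN1 (by omega))
  have h3 : N ^ (C + C' + 2) = N * N ^ (C + C' + 1) := by ring
  have h4 : 2 * N ^ (C + C' + 1) ≤ N * N ^ (C + C' + 1) := Nat.mul_le_mul_right _ (by omega)
  omega

theorem poly_mul {C C' x : ℕ} : (C + x) ^ C * (C' + x) ^ C' ≤ (C + C' + 2 + x) ^ (C + C' + 2) := by
  set N := C + C' + 2 + x with hN
  have hN1 : 1 ≤ N := by omega
  calc (C + x) ^ C * (C' + x) ^ C' ≤ N ^ C * N ^ C' :=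
        Nat.mul_le_mul (Nat.pow_le_pow_left (by omega) C) (Nat.pow_le_pow_left (by omega) C')
    _ = N ^ (C + C') := (pow_add _ _ _).symm
    _ ≤ N ^ (C + C' + 2) := Nat.pow_le_pow_right hN1 (by omega)

theorem poly_mono {C C' x : ℕ} (h : C ≤ C') : (C + x) ^ C ≤ (C' + 1 + x) ^ (C' + 1) :=
  (Nat.pow_le_pow_left (by omega) C).trans (Nat.pow_le_pow_right (by omega) (by omega))

theorem poly_comp {C C' x y : ℕ} (h : y ≤ (C + x) ^ C) :
    (C' + y) ^ C' ≤ ((C + 1) * (C' + 1) + C' + 2 + x) ^ ((C + 1) * (C' + 1) + C' + 2) := by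
  set K := (C + 1) * (C' + 1) + C' + 2 with hK
  set N := K + x with hN
  have hKC : C ≤ K ∧ C' + 1 ≤ K ∧ (C + 1) * C' ≤ K := by
    have e : K = (C + 1) * C' + (C + 1) + C' + 2 := by rw [hK]; ring
    generalize (C + 1) * C' = z at e ⊢
    omega
  have hN1 : 1 ≤ N := by omega
  have h1 : y ≤ N ^ C := h.trans (Nat.pow_le_pow_left (by omega) C)
  have h2 : 1 ≤ N ^ C := Nat.one_le_pow _ _ hN1
  have h3 : C' + y ≤ N ^ (C + 1) := by
    calc C' + y ≤ C' * N ^ C + N ^ C := Nat.add_le_add (Nat.le_mul_of_pos_right _ h2) h1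
      _ = (C' + 1) * N ^ C := by ring
      _ ≤ N * N ^ C := Nat.mul_le_mul_right _ (by omega)
      _ = N ^ (C + 1) := by ring
  calc (C' + y) ^ C' ≤ (N ^ (C + 1)) ^ C' := Nat.pow_le_pow_left h3 C'
    _ = N ^ ((C + 1) * C') := (pow_mul _ _ _).symm
    _ ≤ N ^ K := Nat.pow_le_pow_right hN1 hKC.2.2

/-- polynomially bounded functions -/
def PB (T : ℕ → ℕ) : Prop := ∃ C, ∀ x, T x ≤ (C + x) ^ C

theorem PB.pow (C : ℕ) : PB fun x => (C + x) ^ C := ⟨C, fun _ => le_rfl⟩
theorem PB.add {T T' : ℕ → ℕ} (h : PB T) (h' : PB T') : PB fun x => T x + T' x := by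
  obtain ⟨C, hC⟩ := h
  obtain ⟨C', hC'⟩ := h'
  exact ⟨_, fun x => (Nat.add_le_add (hC x) (hC' x)).trans poly_add⟩
theorem PB.mul {T T' : ℕ → ℕ} (h : PB T) (h' : PB T') : PB fun x => T x * T' x := by
  obtain ⟨C, hC⟩ := h
  obtain ⟨C', hC'⟩ := h'
  exact ⟨_, fun x => (Nat.mul_le_mul (hC x) (hC' x)).trans poly_mul⟩
theorem PB.const (n : ℕ) : PB fun _ => n :=
  ⟨n + 1, fun x => by
    have h1 : n + 1 + x ≤ (n + 1 + x) ^ (n + 1) := Nat.le_self_pow (by omega) _
    show n ≤ (n + 1 + x) ^ (n + 1)
    omega⟩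
theorem PB.id : PB fun x => x :=
  ⟨1, fun x => by
    show x ≤ (1 + x) ^ 1
    rw [pow_one]; omega⟩
theorem PB.comp {T T' : ℕ → ℕ} (h : PB T) (h' : PB T') : PB fun x => T' (T x) := by
  obtain ⟨C, hC⟩ := h
  obtain ⟨C', hC'⟩ := h'
  exact ⟨_, fun x => (hC' _).trans (poly_comp (hC x))⟩
theorem PB.mono {T T' : ℕ → ℕ} (h : PB T) (h' : ∀ x, T' x ≤ T x) : PB T' := by
  obtain ⟨C, hC⟩ := h
  exact ⟨C, fun x => (h' x).trans (hC x)⟩

theorem ExIn.congr {P : Pg} {σ σ' σ'' : St} {t t' : ℕ} (h : ExIn P σ t σ') (e : σ' = σ'') (ht : t ≤ t') :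
    ExIn P σ t' σ'' := by
  subst e; exact h.mono ht

theorem FP.intro {f : α → β} (T T' : ℕ → ℕ) (hT : PB T) (hT' : PB T') (h1 : ∀ a, sz (f a) ≤ T' (sz a))
    (h2 : ∀ i o s : ℕ, i < s → o < s → i ≠ o → ∃ P : Pg, ∀ (a : α) (σ : St), σ i = es a → σ o = [] →
      (∀ r, s ≤ r → σ r = []) → ExIn P σ (T (sz a)) (Function.update σ o (es (f a)))) : FP f := by
  obtain ⟨C, hC⟩ := hT
  obtain ⟨C', hC'⟩ := hT'
  refine ⟨max C C' + 1, fun a => (h1 a).trans ((hC' _).trans (poly_mono (le_max_right _ _))),
    fun i o s hi ho hio => ?_⟩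
  obtain ⟨P, hP⟩ := h2 i o s hi ho hio
  exact ⟨P, fun a σ k1 k2 k3 => (hP a σ k1 k2 k3).mono ((hC _).trans (poly_mono (le_max_left _ _)))⟩

theorem FP.idf : FP (fun a : α => a) := by
  refine FP.intro (fun x => 5 * x + 2) (fun x => x) (((PB.const 5).mul PB.id).add (PB.const 2)) PB.id
    (fun a => le_rfl) fun i o s hi ho hio => ⟨copy i o s, fun a σ h1 h2 h3 => ?_⟩
  have h := copy_spec hio (by omega) (by omega) σ (h3 s le_rfl)
  rw [h1, h2, List.append_nil] at h
  exact h

theorem FP.const (b : β) : FP (fun _ : α => b) := by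
  refine FP.intro (fun _ => sz b) (fun _ => sz b) (PB.const _) (PB.const _)
    (fun a => le_rfl) fun i o s hi ho hio => ⟨pushl o (es b), fun a σ h1 h2 h3 => ?_⟩
  have h := pushl_spec o (es b) σ
  rw [h2, List.append_nil] at h
  exact h

theorem FP.comp {g : β → γ} {f : α → β} (hg : FP g) (hf : FP f) : FP (fun a => g (f a)) := by
  obtain ⟨C, hC1, hC2⟩ := hf
  obtain ⟨C', hD1, hD2⟩ := hg
  refine FP.intro (fun x => (C + x) ^ C + ((C' + (C + x) ^ C) ^ C' + ((C + x) ^ C + 1)))
    (fun x => (C' + (C + x) ^ C) ^ C')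
    ((PB.pow C).add (((PB.pow C).comp (PB.pow C')).add ((PB.pow C).add (PB.const 1))))
    ((PB.pow C).comp (PB.pow C'))
    (fun a => (hD1 _).trans (Nat.pow_le_pow_left (Nat.add_le_add_left (hC1 a) _) _))
    fun i o s hi ho hio => ?_
  obtain ⟨P1, hP1⟩ := hC2 i s (s + 1) (by omega) (by omega) (by omega)
  obtain ⟨P2, hP2⟩ := hD2 s o (s + 1) (by omega) (by omega) (by omega)
  refine ⟨.seq P1 (.seq P2 (clr s)), fun a σ h1 h2 h3 => ?_⟩
  have e1 := hP1 a σ h1 (h3 s le_rfl) (fun r hr => h3 r (by omega))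
  have e2 := hP2 (f a) (Function.update σ s (es (f a))) (Function.update_self _ _ _)
    (by rw [Function.update_of_ne (by omega)]; exact h2)
    (fun r hr => by rw [Function.update_of_ne (by omega)]; exact h3 r (by omega))
  have e3 := clr_spec s (Function.update (Function.update σ s (es (f a))) o (es (g (f a))))
  rw [Function.update_of_ne (show s ≠ o by omega), Function.update_self] at e3
  refine (e1.seq (e2.seq e3)).congr ?_ ?_
  · funext r
    by_cases k1 : r = s
    · subst k1
      rw [Function.update_self, Function.update_of_ne (by omega), h3 r le_rfl]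
    · rw [Function.update_of_ne k1]
      by_cases k2 : r = o
      · subst k2
        rw [Function.update_self, Function.update_self]
      · rw [Function.update_of_ne k2, Function.update_of_ne k1, Function.update_of_ne k2]
  · have l1 : (es (f a)).length ≤ (C + sz a) ^ C := hC1 a
    have l2 : (C' + sz (f a)) ^ C' ≤ (C' + (C + sz a) ^ C) ^ C' :=
      Nat.pow_le_pow_left (Nat.add_le_add_left (hC1 a) _) _
    omega

theorem FP.pair {f : α → β} {g : α → γ} (hf : FP f) (hg : FP g) : FP (fun a => (f a, g a)) := by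
  obtain ⟨C, hC1, hC2⟩ := hf
  obtain ⟨C', hD1, hD2⟩ := hg
  refine FP.intro (fun x => (C + x) ^ C + ((C' + x) ^ C' + ((4 * (C' + x) ^ C' + 2) +
    ((4 * (C + x) ^ C + 2) + 1))))
    (fun x => (C + x) ^ C + (C' + x) ^ C' + 1)
    ((PB.pow C).add ((PB.pow C').add ((((PB.const 4).mul (PB.pow C')).add (PB.const 2)).add
      ((((PB.const 4).mul (PB.pow C)).add (PB.const 2)).add (PB.const 1)))))
    (((PB.pow C).add (PB.pow C')).add (PB.const 1))
    (fun a => by rw [sz_pair]; have := hC1 a; have := hD1 a; omega)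
    fun i o s hi ho hio => ?_
  obtain ⟨P1, hP1⟩ := hC2 i s (s + 2) (by omega) (by omega) (by omega)
  obtain ⟨P2, hP2⟩ := hD2 i (s + 1) (s + 2) (by omega) (by omega) (by omega)
  refine ⟨.seq P1 (.seq P2 (.seq (mv (s + 1) o (s + 2)) (.seq (mv s o (s + 2)) (.push o 1)))),
    fun a σ h1 h2 h3 => ?_⟩
  have e1 := hP1 a σ h1 (h3 s le_rfl) (fun r hr => h3 r (by omega))
  set σ1 := Function.update σ s (es (f a)) with hσ1
  have e2 := hP2 a σ1 (by rw [hσ1, Function.update_of_ne (by omega)]; exact h1)
    (by rw [hσ1, Function.update_of_ne (by omega)]; exact h3 _ (by omega))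
    (fun r hr => by rw [hσ1, Function.update_of_ne (by omega)]; exact h3 r (by omega))
  set σ2 := Function.update σ1 (s + 1) (es (g a)) with hσ2
  have v21 : σ2 (s + 1) = es (g a) := by rw [hσ2, Function.update_self]
  have v22 : σ2 s = es (f a) := by
    rw [hσ2, Function.update_of_ne (by omega), hσ1, Function.update_self]
  have v23 : ∀ r, r ≠ s → r ≠ s + 1 → σ2 r = σ r := fun r k1 k2 => by
    rw [hσ2, Function.update_of_ne k2, hσ1, Function.update_of_ne k1]
  have e3 := mv_spec (i := s + 1) (o := o) (s := s + 2) (by omega) (by omega) (by omega) σ2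
    (by rw [v23 _ (by omega) (by omega)]; exact h3 _ (by omega))
  rw [v21, v23 o (by omega) (by omega), h2, List.append_nil] at e3
  set σ3 := Function.update (Function.update σ2 (s + 1) []) o (es (g a)) with hσ3
  have v31 : σ3 o = es (g a) := by rw [hσ3, Function.update_self]
  have v32 : σ3 s = es (f a) := by
    rw [hσ3, Function.update_of_ne (by omega), Function.update_of_ne (by omega), v22]
  have v33 : σ3 (s + 2) = [] := by
    rw [hσ3, Function.update_of_ne (by omega), Function.update_of_ne (by omega),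
      v23 _ (by omega) (by omega)]
    exact h3 _ (by omega)
  have e4 := mv_spec (i := s) (o := o) (s := s + 2) (by omega) (by omega) (by omega) σ3 v33
  rw [v31, v32] at e4
  set σ4 := Function.update (Function.update σ3 s []) o (es (f a) ++ es (g a)) with hσ4
  have e5 : ExIn (.push o 1) σ4 1 (Function.update σ4 o (1 :: σ4 o)) := ⟨1, le_rfl, .push o 1 σ4⟩
  have v41 : σ4 o = es (f a) ++ es (g a) := by rw [hσ4, Function.update_self]
  rw [v41] at e5
  refine (e1.seq (e2.seq (e3.seq (e4.seq e5)))).congr ?_ ?_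
  · funext r
    by_cases k0 : r = o
    · subst k0
      rw [Function.update_self, Function.update_self, es_pair]
    · rw [Function.update_of_ne k0, Function.update_of_ne k0, hσ4, Function.update_of_ne k0]
      by_cases k1 : r = s
      · subst k1
        rw [Function.update_self, h3 r le_rfl]
      · rw [Function.update_of_ne k1, hσ3, Function.update_of_ne k0]
        by_cases k2 : r = s + 1
        · subst k2
          rw [Function.update_self, h3 _ (by omega)]
        · rw [Function.update_of_ne k2, v23 r k1 k2]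
  · have l1 : (es (f a)).length ≤ (C + sz a) ^ C := hC1 a
    have l2 : (es (g a)).length ≤ (C' + sz a) ^ C' := hD1 a
    show _ ≤ (C + sz a) ^ C + ((C' + sz a) ^ C' + ((4 * (C' + sz a) ^ C' + 2) +
      ((4 * (C + sz a) ^ C + 2) + 1)))
    omega

/-- first part of the program for the projections: afterwards s contains the code of the second
component, s + 1 the code of the first component -/
theorem unpair_spec {i s : ℕ} (hi : i < s) : ∃ P : Pg, ∀ (p : α × β) (σ : St), σ i = es p →
    (∀ r, s ≤ r → σ r = []) → ExIn P σ (5 * sz p + 2 + (1 + (10 * sz p.1 + 10)))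
      (Function.update (Function.update σ s (es p.2)) (s + 1) (es p.1)) := by
  obtain ⟨P, hP⟩ := split_spec (s := s) (b := s + 1) (c := s + 2) (t := s + 3) (by omega) (by omega)
    (by omega) (by omega) (by omega) (by omega)
  refine ⟨.seq (copy i s (s + 1)) (.seq (.case s fun _ => .skip) P), fun p σ h1 h3 => ?_⟩
  have e1 := copy_spec (i := i) (o := s) (s := s + 1) (by omega) (by omega) (by omega) σ
    (h3 _ (by omega))
  rw [h1, h3 s le_rfl, List.append_nil] at e1
  set σ1 := Function.update σ s (es p) with hσ1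
  have v1 : σ1 s = 1 :: (es p.1 ++ es p.2) := by
    rw [hσ1, Function.update_self]
    exact es_pair p.1 p.2
  have e2 : ExIn (.case s fun _ => .skip) σ1 1 (Function.update σ1 s (es p.1 ++ es p.2)) :=
    ⟨1, le_rfl, Ex.case_cons v1 (Ex.skip _)⟩
  set σ2 := Function.update σ1 s (es p.1 ++ es p.2) with hσ2
  have v2 : ∀ r, r ≠ s → σ2 r = σ r := fun r hr => by
    rw [hσ2, Function.update_of_ne hr, hσ1, Function.update_of_ne hr]
  have e3 := hP (enc p.1) (es p.2) σ2 (by rw [hσ2, Function.update_self]; rfl)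
    (by rw [v2 _ (by omega)]; exact h3 _ (by omega)) (by rw [v2 _ (by omega)]; exact h3 _ (by omega))
    (by rw [v2 _ (by omega)]; exact h3 _ (by omega))
  refine (e1.seq (e2.seq e3)).congr ?_ ?_
  · funext r
    by_cases k1 : r = s + 1
    · subst k1
      rw [Function.update_self, Function.update_self]
      rfl
    · rw [Function.update_of_ne k1, Function.update_of_ne k1]
      by_cases k2 : r = s
      · subst k2
        rw [Function.update_self, Function.update_self]
      · rw [Function.update_of_ne k2, Function.update_of_ne k2, v2 r k2]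
  · exact le_rfl

theorem FP.fst : FP (fun p : α × β => p.1) := by
  refine FP.intro (fun x => 5 * x + 2 + (1 + (10 * x + 10)) + ((4 * x + 2) + (x + 1))) (fun x => x)
    (((((PB.const 5).mul PB.id).add (PB.const 2)).add ((PB.const 1).add
      (((PB.const 10).mul PB.id).add (PB.const 10)))).add ((((PB.const 4).mul PB.id).add
      (PB.const 2)).add (PB.id.add (PB.const 1)))) PB.id
    (fun a => by have := sz_pair a.1 a.2; simp only [Prod.mk.eta] at this; omega)
    fun i o s hi ho hio => ?_
  obtain ⟨P, hP⟩ := unpair_spec (α := α) (β := β) hi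
  refine ⟨.seq P (.seq (mv (s + 1) o (s + 2)) (clr s)), fun p σ h1 h2 h3 => ?_⟩
  have e1 := hP p σ h1 h3
  set σ1 := Function.update (Function.update σ s (es p.2)) (s + 1) (es p.1) with hσ1
  have v1 : σ1 (s + 1) = es p.1 := by rw [hσ1, Function.update_self]
  have v2 : σ1 s = es p.2 := by rw [hσ1, Function.update_of_ne (by omega), Function.update_self]
  have v3 : ∀ r, r ≠ s → r ≠ s + 1 → σ1 r = σ r := fun r k1 k2 => by
    rw [hσ1, Function.update_of_ne k2, Function.update_of_ne k1]
  have e2 := mv_spec (i := s + 1) (o := o) (s := s + 2) (by omega) (by omega) (by omega) σ1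
    (by rw [v3 _ (by omega) (by omega)]; exact h3 _ (by omega))
  rw [v1, v3 o (by omega) (by omega), h2, List.append_nil] at e2
  set σ2 := Function.update (Function.update σ1 (s + 1) []) o (es p.1) with hσ2
  have v4 : σ2 s = es p.2 := by
    rw [hσ2, Function.update_of_ne (by omega), Function.update_of_ne (by omega), v2]
  have e3 := clr_spec s σ2
  rw [v4] at e3
  refine (e1.seq (e2.seq e3)).congr ?_ ?_
  · funext r
    by_cases k1 : r = s
    · subst k1
      rw [Function.update_self, Function.update_of_ne (by omega), h3 r le_rfl]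
    · rw [Function.update_of_ne k1, hσ2]
      by_cases k2 : r = o
      · subst k2
        rw [Function.update_self, Function.update_self]
      · rw [Function.update_of_ne k2, Function.update_of_ne k2]
        by_cases k3 : r = s + 1
        · subst k3
          rw [Function.update_self, h3 _ (by omega)]
        · rw [Function.update_of_ne k3, v3 r k1 k3]
  · have l0 := sz_pair p.1 p.2
    simp only [Prod.mk.eta] at l0
    have l1 : (es p.1).length = sz p.1 := rfl
    have l2 : (es p.2).length = sz p.2 := rfl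
    show _ ≤ 5 * sz p + 2 + (1 + (10 * sz p + 10)) + ((4 * sz p + 2) + (sz p + 1))
    omega

theorem FP.snd : FP (fun p : α × β => p.2) := by
  refine FP.intro (fun x => 5 * x + 2 + (1 + (10 * x + 10)) + ((4 * x + 2) + (x + 1))) (fun x => x)
    (((((PB.const 5).mul PB.id).add (PB.const 2)).add ((PB.const 1).add
      (((PB.const 10).mul PB.id).add (PB.const 10)))).add ((((PB.const 4).mul PB.id).add
      (PB.const 2)).add (PB.id.add (PB.const 1)))) PB.id
    (fun a => by have := sz_pair a.1 a.2; simp only [Prod.mk.eta] at this; omega)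
    fun i o s hi ho hio => ?_
  obtain ⟨P, hP⟩ := unpair_spec (α := α) (β := β) hi
  refine ⟨.seq P (.seq (mv s o (s + 2)) (clr (s + 1))), fun p σ h1 h2 h3 => ?_⟩
  have e1 := hP p σ h1 h3
  set σ1 := Function.update (Function.update σ s (es p.2)) (s + 1) (es p.1) with hσ1
  have v1 : σ1 (s + 1) = es p.1 := by rw [hσ1, Function.update_self]
  have v2 : σ1 s = es p.2 := by rw [hσ1, Function.update_of_ne (by omega), Function.update_self]
  have v3 : ∀ r, r ≠ s → r ≠ s + 1 → σ1 r = σ r := fun r k1 k2 => by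
    rw [hσ1, Function.update_of_ne k2, Function.update_of_ne k1]
  have e2 := mv_spec (i := s) (o := o) (s := s + 2) (by omega) (by omega) (by omega) σ1
    (by rw [v3 _ (by omega) (by omega)]; exact h3 _ (by omega))
  rw [v2, v3 o (by omega) (by omega), h2, List.append_nil] at e2
  set σ2 := Function.update (Function.update σ1 s []) o (es p.2) with hσ2
  have v4 : σ2 (s + 1) = es p.1 := by
    rw [hσ2, Function.update_of_ne (by omega), Function.update_of_ne (by omega), v1]
  have e3 := clr_spec (s + 1) σ2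
  rw [v4] at e3
  refine (e1.seq (e2.seq e3)).congr ?_ ?_
  · funext r
    by_cases k1 : r = s + 1
    · subst k1
      rw [Function.update_self, Function.update_of_ne (by omega), h3 _ (by omega)]
    · rw [Function.update_of_ne k1, hσ2]
      by_cases k2 : r = o
      · subst k2
        rw [Function.update_self, Function.update_self]
      · rw [Function.update_of_ne k2, Function.update_of_ne k2]
        by_cases k3 : r = s
        · subst k3
          rw [Function.update_self, h3 _ (by omega)]
        · rw [Function.update_of_ne k3, v3 r k3 k1]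
  · have l0 := sz_pair p.1 p.2
    simp only [Prod.mk.eta] at l0
    have l1 : (es p.1).length = sz p.1 := rfl
    have l2 : (es p.2).length = sz p.2 := rfl
    show _ ≤ 5 * sz p + 2 + (1 + (10 * sz p + 10)) + ((4 * sz p + 2) + (sz p + 1))
    omega

/-- only the codes matter -/
theorem FP.congr_enc {f : α → β} {f' : α → γ} (h : ∀ a, enc (f a) = enc (f' a)) (hf : FP f) : FP f' := by
  obtain ⟨C, h1, h2⟩ := hf
  have he : ∀ a, es (f' a) = es (f a) := fun a => by unfold es; rw [h a]
  refine ⟨C, fun a => ?_, fun i o s hi ho hio => ?_⟩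
  · unfold sz
    rw [he a]
    exact h1 a
  · obtain ⟨P, hP⟩ := h2 i o s hi ho hio
    refine ⟨P, fun a σ k1 k2 k3 => ?_⟩
    rw [he a]
    exact hP a σ k1 k2 k3

theorem FP.cons {f : α → β} {g : α → List β} (hf : FP f) (hg : FP g) : FP (fun a => f a :: g a) :=
  FP.congr_enc (fun _ => rfl) (hf.pair hg)
theorem FP.osome {f : α → β} (hf : FP f) : FP (fun a => some (f a)) :=
  FP.congr_enc (fun _ => rfl) ((FP.const ()).pair hf)

end Pool.Agent.helper50.BW
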