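import Pool.Agent.helper50.BW.C3
/-! ## BW-C4 FP: case distinctions (uses C3; 250 lines)
casesTr: evaluate f to s, then case s: symbol 0 (the register is now empty): run the program of g from i to o.  Symbol 1: the register s
contains x.str ++ y.str: split x to s+1, then build the argument (a, x, y) in s+2 (copies), program of h from s+2 to o, clear.
The other cases are special cases (codes of lists, options, Bool). -/
namespace Pool.Agent.helper50.BW


open Function

variable {α β γ δ : Type} [Enc α] [Enc β] [Enc γ] [Enc δ]

/-- polynomially bounded cost functions -/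
def C4PB {α : Type} [Enc α] (φ : α → ℕ) : Prop := ∃ C : ℕ, ∀ a, φ a ≤ (C + sz a) ^ C

theorem C4PB.mono {φ ψ : α → ℕ} (h : C4PB ψ) (hle : ∀ a, φ a ≤ ψ a) : C4PB φ := by
  obtain ⟨C, hC⟩ := h
  exact ⟨C, fun a => (hle a).trans (hC a)⟩

theorem C4PB.add {φ ψ : α → ℕ} (h1 : C4PB φ) (h2 : C4PB ψ) : C4PB (fun a => φ a + ψ a) := by
  obtain ⟨C, hC⟩ := h1
  obtain ⟨C', hC'⟩ := h2
  exact ⟨C + C' + 2, fun a => (Nat.add_le_add (hC a) (hC' a)).trans poly_add⟩

theorem C4PB.mul {φ ψ : α → ℕ} (h1 : C4PB φ) (h2 : C4PB ψ) : C4PB (fun a => φ a * ψ a) := by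
  obtain ⟨C, hC⟩ := h1
  obtain ⟨C', hC'⟩ := h2
  exact ⟨C + C' + 2, fun a => (Nat.mul_le_mul (hC a) (hC' a)).trans poly_mul⟩

theorem C4PB.const (k : ℕ) : C4PB (fun _ : α => k) := by
  refine ⟨k + 1, fun a => ?_⟩
  calc k ≤ k + 1 + sz a := by omega
    _ = (k + 1 + sz a) ^ 1 := (pow_one _).symm
    _ ≤ (k + 1 + sz a) ^ (k + 1) := Nat.pow_le_pow_right (by omega) (by omega)

theorem C4PB.size : C4PB (fun a : α => sz a) := by
  refine ⟨1, fun a => ?_⟩
  rw [pow_one]
  exact Nat.le_add_left _ _

theorem C4PB.pow {φ : α → ℕ} (h : C4PB φ) (C' : ℕ) : C4PB (fun a => (C' + φ a) ^ C') := by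
  obtain ⟨C, hC⟩ := h
  exact ⟨_, fun a => poly_comp (hC a)⟩

theorem FP.c4sz {f : α → β} (hf : FP f) : C4PB (fun a => sz (f a)) := by
  obtain ⟨C, h, _⟩ := hf
  exact ⟨C, h⟩

/-- one cost function for both requirements -/
theorem FP.c4of {f : α → β} (T : α → ℕ) (hT : C4PB T) (h1 : ∀ a, sz (f a) ≤ T a)
    (h2 : ∀ i o s : ℕ, i < s → o < s → i ≠ o → ∃ P : Pg, ∀ (a : α) (σ : St), σ i = es a → σ o = [] →
      (∀ r, s ≤ r → σ r = []) → ExIn P σ (T a) (update σ o (es (f a)))) : FP f := by
  obtain ⟨C, hC⟩ := hT
  refine ⟨C, fun a => (h1 a).trans (hC a), fun i o s hi ho hio => ?_⟩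
  obtain ⟨P, hP⟩ := h2 i o s hi ho hio
  exact ⟨P, fun a σ e1 e2 e3 => (hP a σ e1 e2 e3).mono (hC a)⟩

theorem ExIn.c4push (r : ℕ) (c : Sy) (σ : St) : ExIn (.push r c) σ 1 (update σ r (c :: σ r)) :=
  ⟨1, le_rfl, Ex.push r c σ⟩

/-- The general case distinction on codes. -/
theorem FP.casesGen {ε : Type} [Enc ε] {f : α → ε} {g : α → γ} {h : δ → γ} {F : α → γ}
    (hf : FP f) (hg : FP g) (hh : FP h)
    (H : ∀ a, (enc (f a) = .nil ∧ F a = g a) ∨
      ∃ x y d, enc (f a) = .cons x y ∧ enc d = .cons (enc a) (.cons x y) ∧ F a = h d) : FP F := by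
  obtain ⟨Cf, hf1, hf2⟩ := hf
  obtain ⟨Cg, hg1, hg2⟩ := hg
  obtain ⟨Ch, hh1, hh2⟩ := hh
  set T : α → ℕ := fun a =>
    (Cf + sz a) ^ Cf + 1 + (Cg + sz a) ^ Cg + (20 * (Cf + sz a) ^ Cf + 50 + 10 * sz a) +
      (Ch + (sz a + (Cf + sz a) ^ Cf + 1)) ^ Ch with hTdef
  have hF : C4PB (fun a : α => (Cf + sz a) ^ Cf) := ⟨Cf, fun _ => le_rfl⟩
  have hG : C4PB (fun a : α => (Cg + sz a) ^ Cg) := ⟨Cg, fun _ => le_rfl⟩
  have hT : C4PB T := by
    refine C4PB.add (C4PB.add (C4PB.add (C4PB.add hF (C4PB.const 1)) hG)
      (C4PB.add (C4PB.add (C4PB.mul (C4PB.const 20) hF) (C4PB.const 50))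
        (C4PB.mul (C4PB.const 10) C4PB.size))) ?_
    exact C4PB.pow (C4PB.add (C4PB.add C4PB.size hF) (C4PB.const 1)) Ch
  -- sizes in the second case
  have hsz : ∀ (a : α) (x y : Tr) (d : δ), enc (f a) = .cons x y →
      enc d = .cons (enc a) (.cons x y) →
      x.str.length + y.str.length + 1 = sz (f a) ∧ sz d = sz a + sz (f a) + 1 := by
    intro a x y d h1 h2
    have e1 : sz (f a) = x.str.length + y.str.length + 1 := by
      unfold sz es
      rw [h1, Tr.str, List.length_cons, List.length_append]
    have e2 : sz d = (enc a).str.length + (x.str.length + y.str.length + 1) + 1 := by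
      unfold sz es
      rw [h2, Tr.str, Tr.str, List.length_cons, List.length_append, List.length_cons,
        List.length_append]
    have e3 : sz a = (enc a).str.length := rfl
    exact ⟨e1.symm, by rw [e2, e3, e1]⟩
  refine FP.c4of T hT ?_ ?_
  · intro a
    rcases H a with ⟨_, h2⟩ | ⟨x, y, d, h1, h2, h3⟩
    · rw [h2]
      have := hg1 a
      simp only [hTdef]
      omega
    · rw [h3]
      have e1 := hh1 d
      have e2 := (hsz a x y d h1 h2).2
      have e3 : (Ch + sz d) ^ Ch ≤ (Ch + (sz a + (Cf + sz a) ^ Cf + 1)) ^ Ch := by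
        apply Nat.pow_le_pow_left
        have := hf1 a
        omega
      simp only [hTdef]
      omega
  · intro i o s hi ho hio
    obtain ⟨Pf, hPf⟩ := hf2 i s (s + 1) (by omega) (by omega) (by omega)
    obtain ⟨Pg', hPg⟩ := hg2 i o s hi ho hio
    obtain ⟨Ph, hPh⟩ := hh2 (s + 2) o (s + 3) (by omega) (by omega) (by omega)
    obtain ⟨Ps, hPs⟩ := split_spec (s := s) (b := s + 1) (c := s + 2) (t := s + 3)
      (by omega) (by omega) (by omega) (by omega) (by omega) (by omega)
    refine ⟨.seq Pf (.case s fun c => match c with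
      | none => .skip
      | some c => if c = 1 then
          .seq Ps (.seq (mv s (s + 2) (s + 3)) (.seq (mv (s + 1) (s + 2) (s + 3))
            (.seq (.push (s + 2) 1) (.seq (copy i (s + 2) (s + 3)) (.seq (.push (s + 2) 1)
              (.seq Ph (clr (s + 2))))))))
        else Pg'), fun a σ e1 e2 e3 => ?_⟩
    have step1 := hPf a σ e1 (e3 s le_rfl) (fun r hr => e3 r (by omega))
    rcases H a with ⟨h1, h2⟩ | ⟨x, y, d, h1, h2, h3⟩
    · -- empty tree
      have hes : es (f a) = [0] := by rw [es, h1]; rfl
      rw [hes] at step1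
      have step2 := hPg a σ e1 e2 e3
      rw [← h2] at step2
      obtain ⟨t2, ht2, hx2⟩ := step2
      have hup : update (update σ s [0]) s [] = σ := by
        rw [update_idem, ← e3 s le_rfl, update_eq_self]
      have step3 : ExIn (.case s fun c => match c with
          | none => .skip
          | some c => if c = 1 then
              .seq Ps (.seq (mv s (s + 2) (s + 3)) (.seq (mv (s + 1) (s + 2) (s + 3))
                (.seq (.push (s + 2) 1) (.seq (copy i (s + 2) (s + 3)) (.seq (.push (s + 2) 1)
                  (.seq Ph (clr (s + 2))))))))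
            else Pg') (update σ s [0]) ((Cg + sz a) ^ Cg + 1) (update σ o (es (F a))) := by
        refine ⟨t2 + 1, by omega, Ex.case_cons (c := 0) (l := []) (by simp) ?_⟩
        rw [hup]
        simpa using hx2
      refine (step1.seq step3).mono ?_
      simp only [hTdef]
      omega
    · -- nonempty tree
      have hes : es (f a) = 1 :: (x.str ++ y.str) := by rw [es, h1]; rfl
      have hesd : es d = 1 :: (es a ++ 1 :: (x.str ++ y.str)) := by
        rw [es, h2]; rfl
      obtain ⟨l1, l2⟩ := hsz a x y d h1 h2
      have l3 := hf1 a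
      rw [hes] at step1
      have z : ∀ k, σ (s + k) = [] := fun k => e3 _ (by omega)
      have z0 : σ s = [] := e3 s le_rfl
      -- split
      have s2 := hPs x y.str (update σ s (x.str ++ y.str)) (by simp)
        (by rw [update_of_ne (by omega)]; exact z 1)
        (by rw [update_of_ne (by omega)]; exact z 2)
        (by rw [update_of_ne (by omega)]; exact z 3)
      rw [update_idem] at s2
      -- first move
      have s3 := mv_spec (i := s) (o := s + 2) (s := s + 3) (by omega) (by omega) (by omega)
        (update (update σ s y.str) (s + 1) x.str)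
        (by rw [update_of_ne (by omega), update_of_ne (by omega)]; exact z 3)
      have q3 : update (update (update (update σ s y.str) (s + 1) x.str) s []) (s + 2)
          ((update (update σ s y.str) (s + 1) x.str) s ++
            (update (update σ s y.str) (s + 1) x.str) (s + 2)) =
          update (update σ (s + 1) x.str) (s + 2) y.str := by
        funext r
        by_cases r2 : r = s + 2
        · subst r2; simp [z]
        by_cases r1 : r = s + 1
        · subst r1; simp
        by_cases r0 : r = s
        · subst r0; simp [z0]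
        simp [r0, r1, r2]
      have q3' : (update (update σ s y.str) (s + 1) x.str) s = y.str := by simp
      rw [q3, q3'] at s3
      -- second move
      have s4 := mv_spec (i := s + 1) (o := s + 2) (s := s + 3) (by omega) (by omega) (by omega)
        (update (update σ (s + 1) x.str) (s + 2) y.str)
        (by rw [update_of_ne (by omega), update_of_ne (by omega)]; exact z 3)
      have q4 : update (update (update (update σ (s + 1) x.str) (s + 2) y.str) (s + 1) []) (s + 2)
          ((update (update σ (s + 1) x.str) (s + 2) y.str) (s + 1) ++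
            (update (update σ (s + 1) x.str) (s + 2) y.str) (s + 2)) =
          update σ (s + 2) (x.str ++ y.str) := by
        funext r
        by_cases r2 : r = s + 2
        · subst r2; simp
        by_cases r1 : r = s + 1
        · subst r1; simp [z]
        simp [r1, r2]
      have q4' : (update (update σ (s + 1) x.str) (s + 2) y.str) (s + 1) = x.str := by
        simp
      rw [q4, q4'] at s4
      -- push, copy, push
      have s5 := ExIn.c4push (s + 2) 1 (update σ (s + 2) (x.str ++ y.str))
      rw [update_self, update_idem] at s5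
      have s6 := copy_spec (i := i) (o := s + 2) (s := s + 3) (by omega) (by omega) (by omega)
        (update σ (s + 2) (1 :: (x.str ++ y.str)))
        (by rw [update_of_ne (by omega)]; exact z 3)
      rw [update_self, update_idem, update_of_ne (show i ≠ s + 2 by omega), e1] at s6
      have s7 := ExIn.c4push (s + 2) 1 (update σ (s + 2) (es a ++ 1 :: (x.str ++ y.str)))
      rw [update_self, update_idem, ← hesd] at s7
      -- the program of h
      have s8 := hPh d (update σ (s + 2) (es d)) (by simp)
        (by rw [update_of_ne (by omega)]; exact e2)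
        (fun r hr => by rw [update_of_ne (by omega)]; exact e3 r (by omega))
      have s9 := clr_spec (s + 2) (update (update σ (s + 2) (es d)) o (es (h d)))
      have q9 : update (update (update σ (s + 2) (es d)) o (es (h d))) (s + 2) [] =
          update σ o (es (F a)) := by
        rw [h3]
        funext r
        by_cases r2 : r = s + 2
        · subst r2
          rw [update_self, update_of_ne (by omega)]
          exact (z 2).symm
        · rw [update_of_ne r2]
          by_cases ro : r = o
          · subst ro; rw [update_self, update_self]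
          · rw [update_of_ne ro, update_of_ne ro, update_of_ne r2]
      have q9' : (update (update σ (s + 2) (es d)) o (es (h d))) (s + 2) = es d := by
        rw [update_of_ne (by omega), update_self]
      rw [q9, q9'] at s9
      obtain ⟨t2, ht2, hx2⟩ :=
        s2.seq (s3.seq (s4.seq (s5.seq (s6.seq (s7.seq (s8.seq s9))))))
      have step3 : ExIn (.case s fun c => match c with
          | none => .skip
          | some c => if c = 1 then
              .seq Ps (.seq (mv s (s + 2) (s + 3)) (.seq (mv (s + 1) (s + 2) (s + 3))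
                (.seq (.push (s + 2) 1) (.seq (copy i (s + 2) (s + 3)) (.seq (.push (s + 2) 1)
                  (.seq Ph (clr (s + 2))))))))
            else Pg') (update σ s (1 :: (x.str ++ y.str))) (t2 + 1) (update σ o (es (F a))) := by
        refine ⟨t2 + 1, le_rfl, Ex.case_cons (c := 1) (l := x.str ++ y.str) (by simp) ?_⟩
        rw [update_idem]
        simpa using hx2
      refine (step1.seq step3).mono ?_
      have e5 : (Ch + sz d) ^ Ch ≤ (Ch + (sz a + (Cf + sz a) ^ Cf + 1)) ^ Ch := by
        apply Nat.pow_le_pow_left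
        omega
      have e6 : (es a).length = sz a := rfl
      have e7 : (es d).length = sz d := rfl
      simp only [hTdef]
      omega
theorem FP.casesTr {f : α → Tr} {g : α → γ} {h : α × Tr × Tr → γ} (hf : FP f) (hg : FP g) (hh : FP h) :
    FP (fun a => match f a with | .nil => g a | .cons x y => h (a, x, y)) := by
  refine FP.casesGen hf hg hh fun a => ?_
  cases hfa : f a with
  | nil => exact Or.inl ⟨by rfl, by simp only⟩
  | cons x y => exact Or.inr ⟨x, y, (a, x, y), by rfl, rfl, by simp only⟩

theorem FP.casesList {f : α → List β} {g : α → γ} {h : α × β × List β → γ} (hf : FP f) (hg : FP g)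
    (hh : FP h) : FP (fun a => match f a with | [] => g a | b :: l => h (a, b, l)) := by
  refine FP.casesGen hf hg hh fun a => ?_
  cases hfa : f a with
  | nil => exact Or.inl ⟨by rfl, by simp only⟩
  | cons b l => exact Or.inr ⟨enc b, enc l, (a, b, l), by rfl, rfl, by simp only⟩

theorem FP.casesOption {f : α → Option β} {g : α → γ} {h : α × β → γ} (hf : FP f) (hg : FP g)
    (hh : FP h) : FP (fun a => match f a with | none => g a | some b => h (a, b)) := by
  have hh' : FP (fun p : α × Unit × β => h (p.1, p.2.2)) :=
    FP.comp (g := h) hh (FP.pair FP.fst (FP.comp (g := Prod.snd) FP.snd FP.snd))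
  refine FP.casesGen hf hg hh' fun a => ?_
  cases hfa : f a with
  | none => exact Or.inl ⟨by rfl, by simp only⟩
  | some b => exact Or.inr ⟨.nil, enc b, (a, (), b), by rfl, rfl, by simp only⟩

theorem FP.bcond {f : α → Bool} {g h : α → γ} (hf : FP f) (hg : FP g) (hh : FP h) :
    FP (fun a => bif f a then g a else h a) := by
  have hg' : FP (fun p : α × Unit × Unit => g p.1) := FP.comp (g := g) hg FP.fst
  refine FP.casesGen hf hh hg' fun a => ?_
  cases hfa : f a with
  | false => exact Or.inl ⟨by rfl, by simp only [cond_false]⟩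
  | true => exact Or.inr ⟨.nil, .nil, (a, (), ()), by rfl, rfl, by simp only [cond_true]⟩

theorem FP.ite {p : α → Prop} [DecidablePred p] {g h : α → γ} (hp : FP (fun a => decide (p a))) (hg : FP g)
    (hh : FP h) : FP (fun a => if p a then g a else h a) := by
  have h1 := FP.bcond hp hg hh
  have h2 : (fun a => bif decide (p a) then g a else h a) = fun a => if p a then g a else h a := by
    funext a
    by_cases hpa : p a <;> simp [hpa]
  rw [← h2]
  exact h1

theorem FP.bnot {f : α → Bool} (hf : FP f) : FP (fun a => !(f a)) := by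
  have h1 := FP.bcond hf (FP.const (α := α) false) (FP.const (α := α) true)
  have h2 : (fun a => bif f a then false else true) = fun a => !(f a) := by
    funext a
    cases f a <;> rfl
  rw [← h2]
  exact h1

theorem FP.band {f g : α → Bool} (hf : FP f) (hg : FP g) : FP (fun a => f a && g a) := by
  have h1 := FP.bcond hf hg (FP.const (α := α) false)
  have h2 : (fun a => bif f a then g a else false) = fun a => f a && g a := by
    funext a
    cases f a <;> rfl
  rw [← h2]
  exact h1

theorem FP.bor {f g : α → Bool} (hf : FP f) (hg : FP g) : FP (fun a => f a || g a) := by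
  have h1 := FP.bcond hf (FP.const (α := α) true) hg
  have h2 : (fun a => bif f a then true else g a) = fun a => f a || g a := by
    funext a
    cases f a <;> rfl
  rw [← h2]
  exact h1

theorem FP.bxor {f g : α → Bool} (hf : FP f) (hg : FP g) : FP (fun a => xor (f a) (g a)) := by
  have h1 := FP.bcond hf (FP.bnot hg) hg
  have h2 : (fun a => bif f a then !(g a) else g a) = fun a => xor (f a) (g a) := by
    funext a
    cases f a <;> cases g a <;> rfl
  rw [← h2]
  exact h1


end Pool.Agent.helper50.BW
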