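import Pool.Agent.helper50.BW.C3
/-! ## BW-C5 FP: folds (uses C3; 250 lines)
Registers: s: the list (program of l), s+1: the state (program of g).  loop s: popped symbol 1: the register s contains (es b ++ rest):
split b to s+2; build (a, state, b) in s+5: copies of i, s+1; program of h from s+5 to s+6; clear s+5, s+2, s+1; mv (s+6) (s+1).  Popped symbol 0:
nothing (s is empty, the loop ends).  Then mv (s+1) o.
Time: number of elements ≤ sz (l a) ≤ poly; each step polynomial in sz a + size of the state + sz b. -/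
namespace Pool.Agent.helper50.BW


variable {α β γ δ : Type} [Enc α] [Enc β] [Enc γ] [Enc δ]

namespace C5

/-- polynomially bounded functions -/
def PB (f : ℕ → ℕ) : Prop := ∃ C : ℕ, ∀ x, f x ≤ (C + x) ^ C

theorem PB.mk (C : ℕ) : PB (fun x => (C + x) ^ C) := ⟨C, fun _ => le_rfl⟩

theorem PB.add {f g : ℕ → ℕ} (hf : PB f) (hg : PB g) : PB (fun x => f x + g x) := by
  obtain ⟨C, hC⟩ := hf
  obtain ⟨D, hD⟩ := hg
  exact ⟨C + D + 2, fun x => (add_le_add (hC x) (hD x)).trans poly_add⟩

theorem PB.mul {f g : ℕ → ℕ} (hf : PB f) (hg : PB g) : PB (fun x => f x * g x) := by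
  obtain ⟨C, hC⟩ := hf
  obtain ⟨D, hD⟩ := hg
  exact ⟨C + D + 2, fun x => (Nat.mul_le_mul (hC x) (hD x)).trans poly_mul⟩

theorem PB.pcomp {f : ℕ → ℕ} (hf : PB f) (D : ℕ) : PB (fun x => (D + f x) ^ D) := by
  obtain ⟨C, hC⟩ := hf
  exact ⟨(C + 1) * (D + 1) + D + 2, fun x => poly_comp (hC x)⟩

theorem PB.id : PB (fun x => x) := ⟨1, fun x => by simp⟩

theorem PB.const (n : ℕ) : PB (fun _ => n) := by
  refine ⟨n + 1, fun x => ?_⟩
  calc n ≤ n + 1 + x := by omega
    _ = (n + 1 + x) ^ 1 := (pow_one _).symm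
    _ ≤ (n + 1 + x) ^ (n + 1) := Nat.pow_le_pow_right (by omega) (by omega)

theorem length_le_sz (L : List β) : L.length ≤ sz L := by
  induction L with
  | nil => simp
  | cons b L ih => rw [sz_cons, List.length_cons]; omega

open Function

theorem ExIn.cast {P : Pg} {σ σ' σ'' : St} {t : ℕ} (h : ExIn P σ t σ') (e : σ' = σ'') : ExIn P σ t σ'' := e ▸ h

/-- three changed registers -/
def three (σ : St) (s : ℕ) (x y z : List Sy) : St := update (update (update σ s x) (s + 1) y) (s + 5) z

/-- the registers during the treatment of an element -/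
theorem body_spec {i s : ℕ} (hi : i < s) (Ph : Pg) (Ps : Pg) {Ch : ℕ} {h : α × γ × β → γ}
    (hPh : ∀ (a : α × γ × β) (σ : St), σ (s + 5) = es a → σ (s + 1) = [] → (∀ r, s + 6 ≤ r → σ r = []) →
      ExIn Ph σ ((Ch + sz a) ^ Ch) (update σ (s + 1) (es (h a))))
    (hPs : ∀ (x : Tr) (rest : List Sy) (σ : St), σ s = x.str ++ rest → σ (s + 2) = [] → σ (s + 3) = [] → σ (s + 4) = [] →
      ExIn Ps σ (10 * x.str.length + 10) (update (update σ s rest) (s + 2) x.str))
    (a : α) (x : γ) (b : β) (rest : List Sy) (σ : St) (h0 : σ i = es a) (h1 : σ s = es b ++ rest)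
    (h2 : σ (s + 1) = es x) (h3 : ∀ r, s + 2 ≤ r → σ r = []) :
    ExIn (.seq Ps (.seq (mv (s + 2) (s + 5) (s + 3)) (.seq (mv (s + 1) (s + 5) (s + 3)) (.seq (.push (s + 5) 1)
      (.seq (copy i (s + 5) (s + 3)) (.seq (.push (s + 5) 1) (.seq Ph (clr (s + 5)))))))))
      σ ((10 * sz b + 10) + ((4 * sz b + 2) + ((4 * sz x + 2) + (1 + ((5 * sz a + 2) + (1 + ((Ch + sz (a, x, b)) ^ Ch +
        (sz (a, x, b) + 1)))))))) (update (update σ s rest) (s + 1) (es (h (a, x, b)))) := by
  have e1 : ExIn Ps σ (10 * sz b + 10) (update (update σ s rest) (s + 2) (es b)) :=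
    hPs (enc b) rest σ h1 (h3 _ (by omega)) (h3 _ (by omega)) (h3 _ (by omega))
  refine ExIn.seq e1 ?_
  set σ1 := update (update σ s rest) (s + 2) (es b) with hσ1
  have v1 : σ1 (s + 2) = es b := by simp [hσ1]
  have v2 : σ1 (s + 5) = [] := by
    simp [hσ1, update_apply]; exact h3 _ (by omega)
  have v3 : σ1 (s + 3) = [] := by
    simp [hσ1, update_apply]; exact h3 _ (by omega)
  have e2 := mv_spec (i := s + 2) (o := s + 5) (s := s + 3) (by omega) (by omega) (by omega) σ1 v3
  rw [v1, v2, List.append_nil] at e2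
  have w2 : update (update σ1 (s + 2) []) (s + 5) (es b) = update (update σ s rest) (s + 5) (es b) := by
    funext r
    simp only [hσ1, update_apply]
    split_ifs <;> first | rfl | (subst_vars; first | (symm; exact h3 _ (by omega)) | (exfalso; omega))
  rw [w2] at e2
  refine ExIn.seq e2 ?_
  set σ2 := update (update σ s rest) (s + 5) (es b) with hσ2
  have v4 : σ2 (s + 1) = es x := by
    simp [hσ2, update_apply]; exact h2
  have v5 : σ2 (s + 5) = es b := by simp [hσ2]
  have v6 : σ2 (s + 3) = [] := by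
    simp [hσ2, update_apply]; exact h3 _ (by omega)
  have e3 := mv_spec (i := s + 1) (o := s + 5) (s := s + 3) (by omega) (by omega) (by omega) σ2 v6
  rw [v4, v5] at e3
  have w3 : update (update σ2 (s + 1) []) (s + 5) (es x ++ es b) = three σ s rest [] (es x ++ es b) := by
    funext r
    simp only [hσ2, three, update_apply]
    split_ifs <;> first | rfl | (exfalso; omega)
  rw [w3] at e3
  refine ExIn.seq e3 ?_
  have e4 : ExIn (.push (s + 5) 1) (three σ s rest [] (es x ++ es b)) 1 (three σ s rest [] (1 :: (es x ++ es b))) := by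
    refine ⟨1, le_rfl, ?_⟩
    have := Ex.push (s + 5) 1 (three σ s rest [] (es x ++ es b))
    convert this using 1
    funext r
    simp only [three, update_apply]
    split_ifs <;> simp_all
  refine ExIn.seq e4 ?_
  set σ4 := three σ s rest [] (1 :: (es x ++ es b)) with hσ4
  have v7 : σ4 i = es a := by
    have q1 : i ≠ s := by omega
    have q2 : i ≠ s + 1 := by omega
    have q3 : i ≠ s + 5 := by omega
    simp [hσ4, three, update_apply, q1, q2, q3, h0]
  have v8 : σ4 (s + 3) = [] := by
    simp [hσ4, three, update_apply]; exact h3 _ (by omega)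
  have v9 : σ4 (s + 5) = 1 :: (es x ++ es b) := by simp [hσ4, three]
  have e5 := copy_spec (i := i) (o := s + 5) (s := s + 3) (by omega) (by omega) (by omega) σ4 v8
  rw [v7, v9] at e5
  have w5 : update σ4 (s + 5) (es a ++ 1 :: (es x ++ es b)) = three σ s rest [] (es a ++ 1 :: (es x ++ es b)) := by
    funext r
    simp only [hσ4, three, update_apply]
    split_ifs <;> rfl
  rw [w5] at e5
  refine ExIn.seq e5 ?_
  have e6 : ExIn (.push (s + 5) 1) (three σ s rest [] (es a ++ 1 :: (es x ++ es b))) 1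
      (three σ s rest [] (es (a, x, b))) := by
    refine ⟨1, le_rfl, ?_⟩
    have := Ex.push (s + 5) 1 (three σ s rest [] (es a ++ 1 :: (es x ++ es b)))
    convert this using 1
    funext r
    rw [es_pair, es_pair]
    simp only [three, update_apply]
    split_ifs <;> simp_all
  refine ExIn.seq e6 ?_
  set σ6 := three σ s rest [] (es (a, x, b)) with hσ6
  have e7 := hPh (a, x, b) σ6 (by simp [hσ6, three]) (by simp [hσ6, three, update_apply])
    (fun r hr => by
      have q1 : r ≠ s := by omega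
      have q2 : r ≠ s + 1 := by omega
      have q3 : r ≠ s + 5 := by omega
      simp [hσ6, three, update_apply, q1, q2, q3]
      exact h3 _ (by omega))
  refine ExIn.seq e7 ?_
  have e8 := clr_spec (s + 5) (update σ6 (s + 1) (es (h (a, x, b))))
  have v10 : update σ6 (s + 1) (es (h (a, x, b))) (s + 5) = es (a, x, b) := by
    simp [hσ6, three, update_apply]
  rw [v10] at e8
  refine ExIn.cast e8 ?_
  funext r
  simp only [hσ6, three, update_apply]
  split_ifs <;> first | rfl | (exfalso; omega) | (subst_vars; symm; exact h3 _ (by omega))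

/-- the program for an element -/
def body (i s : ℕ) (Ps Ph : Pg) (c : Sy) : Pg :=
  if c = 1 then
    (.seq Ps (.seq (mv (s + 2) (s + 5) (s + 3)) (.seq (mv (s + 1) (s + 5) (s + 3)) (.seq (.push (s + 5) 1)
      (.seq (copy i (s + 5) (s + 3)) (.seq (.push (s + 5) 1) (.seq Ph (clr (s + 5)))))))))
  else .skip

theorem loop_nil' {r : ℕ} {a : Sy → Pg} {σ : St} (h : σ r = []) : ExIn (.loop r a) σ 1 σ :=
  ⟨1, le_rfl, Ex.loop_nil h⟩

theorem loop_cons' {r : ℕ} {a : Sy → Pg} {c : Sy} {l : List Sy} {σ σ' σ'' : St} {t t' : ℕ} (h : σ r = c :: l)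
    (h1 : ExIn (a c) (update σ r l) t σ') (h2 : ExIn (.loop r a) σ' t' σ'') :
    ExIn (.loop r a) σ (t + t' + 1) σ'' := by
  obtain ⟨u, hu, h1⟩ := h1
  obtain ⟨u', hu', h2⟩ := h2
  exact ⟨u + u' + 1, by omega, Ex.loop_cons h h1 h2⟩

theorem skip' {σ : St} : ExIn .skip σ 0 σ := ⟨0, le_rfl, Ex.skip σ⟩

theorem loop_spec {i s : ℕ} (hi : i < s) (Ph : Pg) (Ps : Pg) {Ch : ℕ} {h : α × γ × β → γ}
    (hPh : ∀ (a : α × γ × β) (σ : St), σ (s + 5) = es a → σ (s + 1) = [] → (∀ r, s + 6 ≤ r → σ r = []) →
      ExIn Ph σ ((Ch + sz a) ^ Ch) (update σ (s + 1) (es (h a))))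
    (hPs : ∀ (x : Tr) (rest : List Sy) (σ : St), σ s = x.str ++ rest → σ (s + 2) = [] → σ (s + 3) = [] → σ (s + 4) = [] →
      ExIn Ps σ (10 * x.str.length + 10) (update (update σ s rest) (s + 2) x.str))
    (a : α) {N B T : ℕ} (hT : 14 * N + 4 * B + 5 * sz a + 20 + (Ch + (sz a + B + N + 2)) ^ Ch + (sz a + B + N + 2) ≤ T)
    (L : List β) : ∀ (x : γ) (σ : St), σ i = es a → σ s = es L → σ (s + 1) = es x → (∀ r, s + 2 ≤ r → σ r = []) →
      sz L ≤ N → (∀ k, sz ((L.take k).foldl (fun s b => h (a, s, b)) x) ≤ B) →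
      ExIn (.loop s (body i s Ps Ph)) σ (L.length * (T + 1) + 2)
        (update (update σ s []) (s + 1) (es (L.foldl (fun s b => h (a, s, b)) x))) := by
  induction L with
  | nil =>
    intro x σ h0 h1 h2 h3 hN hB
    rw [es_nil] at h1
    have := loop_cons' (a := body i s Ps Ph) h1 (by
      have : body i s Ps Ph 0 = .skip := by simp [body]
      rw [this]; exact skip') (loop_nil' (by simp))
    refine ExIn.cast (ExIn.mono this (by simp)) ?_
    funext r
    simp only [update_apply, List.foldl_nil]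
    split_ifs <;> first | rfl | (exfalso; omega) | (subst_vars; exact h2)
  | cons b L ih =>
    intro x σ h0 h1 h2 h3 hN hB
    rw [es_cons] at h1
    have hxB : sz x ≤ B := by simpa using hB 0
    have hbN : sz b ≤ N := by rw [sz_cons] at hN; omega
    have hLN : sz L ≤ N := by rw [sz_cons] at hN; omega
    have hi1 : i ≠ s := by omega
    have hi2 : i ≠ s + 1 := by omega
    have e1 := body_spec hi Ph Ps hPh hPs a x b (es L) (update σ s (es b ++ es L))
      (by simp [update_apply, hi1, h0]) (by simp) (by simp [update_apply, h2])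
      (fun r hr => by
        have : r ≠ s := by omega
        simp [update_apply, this]
        exact h3 r hr)
    have e2 := ih (h (a, x, b)) (update (update (update σ s (es b ++ es L)) s (es L)) (s + 1) (es (h (a, x, b))))
      (by simp [update_apply, hi1, hi2, h0]) (by simp [update_apply]) (by simp)
      (fun r hr => by
        have q1 : r ≠ s := by omega
        have q2 : r ≠ s + 1 := by omega
        simp [update_apply, q1, q2]
        exact h3 r hr)
      hLN (fun k => by simpa using hB (k + 1))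
    have e3 := loop_cons' (a := body i s Ps Ph) h1 (by
      have : body i s Ps Ph 1 = (.seq Ps (.seq (mv (s + 2) (s + 5) (s + 3)) (.seq (mv (s + 1) (s + 5) (s + 3)) (.seq (.push (s + 5) 1)
      (.seq (copy i (s + 5) (s + 3)) (.seq (.push (s + 5) 1) (.seq Ph (clr (s + 5))))))))) := by simp [body]
      rw [this]; exact e1) e2
    refine ExIn.cast (ExIn.mono e3 ?_) ?_
    · have hsz : sz (a, x, b) ≤ sz a + B + N + 2 := by
        rw [sz_pair, sz_pair]; omega
      have hpow : (Ch + sz (a, x, b)) ^ Ch ≤ (Ch + (sz a + B + N + 2)) ^ Ch :=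
        Nat.pow_le_pow_left (by omega) _
      rw [List.length_cons]
      have hexp : (L.length + 1) * (T + 1) = L.length * (T + 1) + (T + 1) := by ring
      rw [hexp]
      omega
    · funext r
      simp only [update_apply, List.foldl_cons]
      split_ifs <;> rfl

end C5

open Function C5

theorem FP.foldl {l : α → List β} {g : α → γ} {h : α × γ × β → γ} (hl : FP l) (hg : FP g) (hh : FP h)
    (hs : ∃ C : ℕ, ∀ a k, sz (((l a).take k).foldl (fun s b => h (a, s, b)) (g a)) ≤ (C + sz a) ^ C) :
    FP (fun a => (l a).foldl (fun s b => h (a, s, b)) (g a)) := by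
  obtain ⟨Cl, hl1, hl2⟩ := hl
  obtain ⟨Cg, hg1, hg2⟩ := hg
  obtain ⟨Ch, hh1, hh2⟩ := hh
  obtain ⟨Cs, hs⟩ := hs
  -- the time
  obtain ⟨C, hC⟩ : C5.PB (fun x => (Cl + x) ^ Cl + ((Cg + x) ^ Cg + (((Cl + x) ^ Cl *
      ((14 * (Cl + x) ^ Cl + 4 * (Cs + x) ^ Cs + 5 * x + 20 + (Ch + (x + (Cs + x) ^ Cs + (Cl + x) ^ Cl + 2)) ^ Ch +
        (x + (Cs + x) ^ Cs + (Cl + x) ^ Cl + 2)) + 1) + 2) + (4 * (Cs + x) ^ Cs + 2)))) := by
    have pN := C5.PB.mk Cl
    have pB := C5.PB.mk Cs
    have pS : C5.PB (fun x => x + (Cs + x) ^ Cs + (Cl + x) ^ Cl + 2) := ((C5.PB.id.add pB).add pN).add (C5.PB.const 2)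
    have pT0 : C5.PB (fun x => 14 * (Cl + x) ^ Cl + 4 * (Cs + x) ^ Cs + 5 * x + 20) :=
      ((((C5.PB.const 14).mul pN).add ((C5.PB.const 4).mul pB)).add ((C5.PB.const 5).mul C5.PB.id)).add (C5.PB.const 20)
    have pT := (pT0.add (pS.pcomp Ch)).add pS
    exact pN.add ((C5.PB.mk Cg).add (((pN.mul (pT.add (C5.PB.const 1))).add (C5.PB.const 2)).add
      (((C5.PB.const 4).mul pB).add (C5.PB.const 2))))
  refine ⟨C, fun a => ?_, ?_⟩
  · have h1 := hs a (l a).length
    rw [List.take_length] at h1
    refine h1.trans ((?_ : _ ≤ _).trans (hC (sz a)))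
    dsimp only
    omega
  · intro i o s hi ho hio
    obtain ⟨Pl, hPl⟩ := hl2 i s (s + 2) (by omega) (by omega) (by omega)
    obtain ⟨Pg', hPg⟩ := hg2 i (s + 1) (s + 2) (by omega) (by omega) (by omega)
    obtain ⟨Ph, hPh⟩ := hh2 (s + 5) (s + 1) (s + 6) (by omega) (by omega) (by omega)
    obtain ⟨Ps, hPs⟩ := split_spec (s := s) (b := s + 2) (c := s + 3) (t := s + 4) (by omega) (by omega) (by omega)
      (by omega) (by omega) (by omega)
    refine ⟨.seq Pl (.seq Pg' (.seq (.loop s (body i s Ps Ph)) (mv (s + 1) o (s + 2)))), ?_⟩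
    intro a σ h0 h1 h2
    set N := (Cl + sz a) ^ Cl with hN
    set B := (Cs + sz a) ^ Cs with hB
    set T := 14 * N + 4 * B + 5 * sz a + 20 + (Ch + (sz a + B + N + 2)) ^ Ch + (sz a + B + N + 2) with hT
    have hCa := hC (sz a)
    dsimp only at hCa
    rw [← hN, ← hB, ← hT] at hCa
    have hi1 : i ≠ s := by omega
    have hi2 : i ≠ s + 1 := by omega
    have ho1 : o ≠ s := by omega
    have ho2 : o ≠ s + 1 := by omega
    have e1 := hPl a σ h0 (h2 _ le_rfl) (fun r hr => h2 r (by omega))
    have e2 := hPg a (update σ s (es (l a))) (by simp [update_apply, hi1, h0])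
      (by simp [update_apply]; exact h2 _ (by omega)) (fun r hr => by
        have q1 : r ≠ s := by omega
        simp [update_apply, q1]
        exact h2 r (by omega))
    have e3 := loop_spec hi Ph Ps hPh hPs a (le_of_eq hT.symm) (l a) (g a)
      (update (update σ s (es (l a))) (s + 1) (es (g a)))
      (by simp [update_apply, hi1, hi2, h0]) (by simp [update_apply]) (by simp) (fun r hr => by
        have q1 : r ≠ s := by omega
        have q2 : r ≠ s + 1 := by omega
        simp [update_apply, q1, q2]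
        exact h2 r (by omega)) (hl1 a) (hs a)
    set res := (l a).foldl (fun s b => h (a, s, b)) (g a) with hres
    have hresB : sz res ≤ B := by
      have h1 := hs a (l a).length
      rwa [List.take_length] at h1
    set σ3 := update (update (update (update σ s (es (l a))) (s + 1) (es (g a))) s []) (s + 1) (es res) with hσ3
    have e4 := mv_spec (i := s + 1) (o := o) (s := s + 2) (by omega) (by omega) (by omega) σ3 (by
      simp [hσ3, update_apply]
      exact h2 _ (by omega))
    have v1 : σ3 (s + 1) = es res := by simp [hσ3]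
    have v2 : σ3 o = [] := by simp [hσ3, update_apply, ho1, ho2, h1]
    rw [v1, v2, List.append_nil] at e4
    have e5 := ExIn.seq e1 (ExIn.seq e2 (ExIn.seq e3 e4))
    refine C5.ExIn.cast (ExIn.mono e5 (le_trans ?_ hCa)) ?_
    · have hlen : (l a).length ≤ N := (length_le_sz (l a)).trans (hl1 a)
      have hmul : (l a).length * (T + 1) ≤ N * (T + 1) := Nat.mul_le_mul_right _ hlen
      have hr : (es res).length ≤ B := hresB
      omega
    · funext r
      simp only [hσ3, update_apply]
      split_ifs <;> first | rfl | (exfalso; omega) | (subst_vars; symm; exact h2 _ (by omega))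

end Pool.Agent.helper50.BW
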