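import Pool.Agent.helper50.BW.C3
/-! ## BW-C6 FP: equality test (uses C2, C3; 100 lines)
f to s, g to s+1, eqt_spec with flag s+2; result true = [1,0,0] or false = [0]; the codes are equal iff the trees are
(Tr.str is injective: Polish notation) iff the values are (Enc.inj). -/
namespace Pool.Agent.helper50.BW


variable {α β γ δ : Type} [Enc α] [Enc β] [Enc γ] [Enc δ]
theorem Tr.str_append_inj : ∀ (x y : Tr) (r r' : List Sy), x.str ++ r = y.str ++ r' → x = y ∧ r = r'
  | .nil, .nil, r, r', h => by
    simp only [Tr.str, List.cons_append, List.nil_append, List.cons.injEq, true_and] at h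
    exact ⟨rfl, h⟩
  | .nil, .cons a b, r, r', h => by
    simp [Tr.str] at h
  | .cons a b, .nil, r, r', h => by
    simp [Tr.str] at h
  | .cons a b, .cons a' b', r, r', h => by
    simp only [Tr.str, List.cons_append, List.append_assoc, List.cons.injEq, true_and] at h
    obtain ⟨h1, h2⟩ := Tr.str_append_inj a a' _ _ h
    obtain ⟨h3, h4⟩ := Tr.str_append_inj b b' _ _ h2
    exact ⟨by rw [h1, h3], h4⟩

theorem Tr.str_inj {x y : Tr} (h : x.str = y.str) : x = y :=
  (Tr.str_append_inj x y [] [] (by rw [h])).1

theorem FP.eq [DecidableEq β] {f g : α → β} (hf : FP f) (hg : FP g) : FP (fun a => decide (f a = g a)) := by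
  obtain ⟨C, hC1, hC2⟩ := hf
  obtain ⟨C', hD1, hD2⟩ := hg
  refine FP.intro (fun x => (C + x) ^ C + ((C' + x) ^ C' + ((10 * ((C + x) ^ C + (C' + x) ^ C') + 10) + 4)))
    (fun _ => 3)
    ((PB.pow C).add ((PB.pow C').add ((((PB.const 10).mul ((PB.pow C).add (PB.pow C'))).add
      (PB.const 10)).add (PB.const 4))))
    (PB.const 3)
    (fun a => by
      cases h : decide (f a = g a)
      · show (es false).length ≤ 3
        rw [es_false]; simp
      · show (es true).length ≤ 3
        rw [es_true]; simp)
    fun i o s hi ho hio => ?_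
  obtain ⟨P1, hP1⟩ := hC2 i s (s + 3) (by omega) (by omega) (by omega)
  obtain ⟨P2, hP2⟩ := hD2 i (s + 1) (s + 3) (by omega) (by omega) (by omega)
  obtain ⟨P3, hP3⟩ := eqt_spec (a := s) (b := s + 1) (f := s + 2) (by omega) (by omega) (by omega)
  refine ⟨.seq P1 (.seq P2 (.seq P3 (.case (s + 2) fun c => match c with
    | none => pushl o [1, 0, 0]
    | some _ => pushl o [0]))), fun a σ h1 h2 h3 => ?_⟩
  have e1 := hP1 a σ h1 (h3 s le_rfl) (fun r hr => h3 r (by omega))
  set σ1 := Function.update σ s (es (f a)) with hσ1
  have e2 := hP2 a σ1 (by rw [hσ1, Function.update_of_ne (by omega)]; exact h1)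
    (by rw [hσ1, Function.update_of_ne (by omega)]; exact h3 _ (by omega))
    (fun r hr => by rw [hσ1, Function.update_of_ne (by omega)]; exact h3 r (by omega))
  set σ2 := Function.update σ1 (s + 1) (es (g a)) with hσ2
  have v21 : σ2 (s + 1) = es (g a) := by rw [hσ2, Function.update_self]
  have v22 : σ2 s = es (f a) := by
    rw [hσ2, Function.update_of_ne (by omega), hσ1, Function.update_self]
  have v23 : ∀ r, r ≠ s → r ≠ s + 1 → σ2 r = σ r := fun r k1 k2 => by
    rw [hσ2, Function.update_of_ne k2, hσ1, Function.update_of_ne k1]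
  have e3 := hP3 σ2 (by rw [v23 _ (by omega) (by omega)]; exact h3 _ (by omega))
  rw [v21, v22] at e3
  have hiff : es (f a) = es (g a) ↔ f a = g a :=
    ⟨fun h => Enc.inj (Tr.str_inj h), fun h => by rw [h]⟩
  have l1 : (es (f a)).length ≤ (C + sz a) ^ C := hC1 a
  have l2 : (es (g a)).length ≤ (C' + sz a) ^ C' := hD1 a
  have hne1 : s + 2 ≠ s := by omega
  have hne2 : s + 2 ≠ s + 1 := by omega
  -- the state after the comparison agrees with σ except for the flag
  by_cases hfg : f a = g a
  · rw [if_pos (hiff.2 hfg)] at e3
    set σ3 := Function.update (Function.update (Function.update σ2 s []) (s + 1) []) (s + 2) [] with hσ3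
    have hσ : σ3 = σ := by
      funext r
      rw [hσ3]
      by_cases k1 : r = s + 2
      · subst k1
        rw [Function.update_self, h3 _ (by omega)]
      · rw [Function.update_of_ne k1]
        by_cases k2 : r = s + 1
        · subst k2
          rw [Function.update_self, h3 _ (by omega)]
        · rw [Function.update_of_ne k2]
          by_cases k3 : r = s
          · subst k3
            rw [Function.update_self, h3 _ le_rfl]
          · rw [Function.update_of_ne k3, v23 r k3 k2]
    rw [hσ] at e3
    obtain ⟨t4, ht4, e4⟩ := pushl_spec o [1, 0, 0] σ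
    rw [h2, List.append_nil] at e4
    have e5 : ExIn (.case (s + 2) fun c => match c with
      | none => pushl o [1, 0, 0]
      | some _ => pushl o [0]) σ 4 (Function.update σ o [1, 0, 0]) :=
      ⟨t4 + 1, by simp only [List.length_cons, List.length_nil] at ht4; omega,
        Ex.case_nil (h3 _ (by omega)) e4⟩
    refine (e1.seq (e2.seq (e3.seq e5))).congr ?_ ?_
    · have : decide (f a = g a) = true := by simp [hfg]
      rw [this, es_true]
    · show _ ≤ (C + sz a) ^ C + ((C' + sz a) ^ C' + ((10 * ((C + sz a) ^ C + (C' + sz a) ^ C') + 10) + 4))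
      omega
  · rw [if_neg (fun h => hfg (hiff.1 h))] at e3
    set σ3 := Function.update (Function.update (Function.update σ2 s []) (s + 1) []) (s + 2) [0] with hσ3
    have hσ : Function.update σ3 (s + 2) [] = σ := by
      funext r
      by_cases k1 : r = s + 2
      · subst k1
        rw [Function.update_self, h3 _ (by omega)]
      · rw [Function.update_of_ne k1, hσ3, Function.update_of_ne k1]
        by_cases k2 : r = s + 1
        · subst k2
          rw [Function.update_self, h3 _ (by omega)]
        · rw [Function.update_of_ne k2]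
          by_cases k3 : r = s
          · subst k3
            rw [Function.update_self, h3 _ le_rfl]
          · rw [Function.update_of_ne k3, v23 r k3 k2]
    have v3 : σ3 (s + 2) = 0 :: [] := by rw [hσ3, Function.update_self]
    obtain ⟨t4, ht4, e4⟩ := pushl_spec o [0] σ
    rw [h2, List.append_nil] at e4
    have e5 : ExIn (.case (s + 2) fun c => match c with
      | none => pushl o [1, 0, 0]
      | some _ => pushl o [0]) σ3 4 (Function.update σ o [0]) := by
      refine ⟨t4 + 1, by simp only [List.length_cons, List.length_nil] at ht4; omega,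
        Ex.case_cons v3 ?_⟩
      rw [hσ]
      exact e4
    refine (e1.seq (e2.seq (e3.seq e5))).congr ?_ ?_
    · have : decide (f a = g a) = false := by simp [hfg]
      rw [this, es_false]
    · show _ ≤ (C + sz a) ^ C + ((C' + sz a) ^ C' + ((10 * ((C + sz a) ^ C + (C' + sz a) ^ C') + 10) + 4))
      omega

end Pool.Agent.helper50.BW
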