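import Pool.Agent.helper50.BW.C3
/-! ## BW-C7 while loops (uses C3; 150 lines)
Register i contains the state; flag register s: push 0; loop s: pop; program of f from i to s+1 (working space s+2), clr i,
mv (s+1) i (s+2); program of the test (halt? : α → Bool) from i to s+1; case s+1: symbol 1 (true): clr s+1; symbol 0 (false): push s 0. -/
namespace Pool.Agent.helper50.BW


variable {α : Type} [Enc α]
open Function

/-- the continuation of the test: on true clear the register, on false set the flag -/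
def testK (s : ℕ) : Option Sy → Pg := fun o =>
  match o with
  | none => .skip
  | some c => if c = 1 then clr (s + 1) else .push s 0

/-- the body of the while loop -/
def wbody (i s : ℕ) (Pf Ph : Pg) : Pg :=
  .seq Pf (.seq (clr i) (.seq (mv (s + 1) i (s + 2)) (.seq Ph (.case (s + 1) (testK s)))))

theorem wbody_spec {f : α → α} {halt : α → Bool} {Cf Ch i s : ℕ} (his : i < s) {Pf Ph : Pg}
    (hPf : ∀ (a : α) (σ : St), σ i = es a → σ (s + 1) = [] → (∀ r, s + 2 ≤ r → σ r = []) →
      ExIn Pf σ ((Cf + sz a) ^ Cf) (update σ (s + 1) (es (f a))))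
    (hPh : ∀ (a : α) (σ : St), σ i = es a → σ (s + 1) = [] → (∀ r, s + 2 ≤ r → σ r = []) →
      ExIn Ph σ ((Ch + sz a) ^ Ch) (update σ (s + 1) (es (halt a))))
    (a : α) (σ : St) (M : ℕ) (h1 : σ i = es a) (h2 : ∀ r, s ≤ r → σ r = [])
    (hM1 : sz a ≤ M) (hM2 : sz (f a) ≤ M) :
    ExIn (wbody i s Pf Ph) σ ((Cf + M) ^ Cf + (Ch + M) ^ Ch + 5 * M + 10)
      (update (update σ i (es (f a))) s (if halt (f a) then [] else [0])) := by
  have hs1 : i ≠ s + 1 := by omega
  have hs2 : i ≠ s + 2 := by omega
  have hs0 : i ≠ s := by omega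
  -- f
  have e1 := hPf a σ h1 (h2 _ (by omega)) (fun r hr => h2 r (by omega))
  set σ1 : St := update σ (s + 1) (es (f a)) with hσ1
  -- clear i
  have e2 := clr_spec i σ1
  have l1 : σ1 i = es a := by rw [hσ1, update_of_ne hs1]; exact h1
  set σ2 : St := update σ1 i [] with hσ2
  -- move
  have e3 := mv_spec (i := s + 1) (o := i) (s := s + 2) hs1.symm (by omega) hs2 σ2 (by
    rw [hσ2, update_of_ne hs2.symm, hσ1, update_of_ne (by omega)]
    exact h2 _ (by omega))
  have l2 : σ2 (s + 1) = es (f a) := by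
    rw [hσ2, update_of_ne hs1.symm, hσ1, update_self]
  have l3 : σ2 i = [] := by rw [hσ2, update_self]
  rw [l2, l3, List.append_nil] at e3
  have hst : update (update σ2 (s + 1) []) i (es (f a)) = update σ i (es (f a)) := by
    funext r
    by_cases hr : r = i
    · subst hr; simp
    · rw [update_of_ne hr, update_of_ne hr]
      by_cases hr' : r = s + 1
      · subst hr'; rw [update_self, h2 _ (by omega)]
      · rw [update_of_ne hr', hσ2, update_of_ne hr, hσ1, update_of_ne hr']
  rw [hst] at e3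
  set σ3 : St := update σ i (es (f a)) with hσ3
  -- test
  have e4 := hPh (f a) σ3 (by rw [hσ3, update_self])
    (by rw [hσ3, update_of_ne hs1.symm]; exact h2 _ (by omega))
    (fun r hr => by rw [hσ3, update_of_ne (by omega)]; exact h2 _ (by omega))
  set σ4 : St := update σ3 (s + 1) (es (halt (f a))) with hσ4
  have l4 : σ3 (s + 1) = [] := by rw [hσ3, update_of_ne hs1.symm]; exact h2 _ (by omega)
  have l5 : σ3 s = [] := by rw [hσ3, update_of_ne hs0.symm]; exact h2 _ le_rfl
  -- case
  have e5 : ExIn (.case (s + 1) (testK s)) σ4 4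
      (update σ3 s (if halt (f a) then [] else [0])) := by
    cases hh : halt (f a) with
    | true =>
      obtain ⟨t, ht, e⟩ := clr_spec (s + 1) (update σ4 (s + 1) [0, 0])
      have hl : (update σ4 (s + 1) [0, 0] (s + 1)).length = 2 := by rw [update_self]; rfl
      rw [hl] at ht
      refine ⟨t + 1, by omega, Ex.case_cons (c := 1) (l := [0, 0]) ?_ ?_⟩
      · rw [hσ4, update_self, hh]; rfl
      · have : testK s (some 1) = clr (s + 1) := by simp [testK]
        rw [this]
        convert e using 1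
        rw [update_idem, hσ4, update_idem]
        simp only [if_true]
        have g1 : update σ3 (s + 1) [] = σ3 := update_eq_self_iff.2 l4.symm
        have g2 : update σ3 s [] = σ3 := update_eq_self_iff.2 l5.symm
        rw [g1, g2]
    | false =>
      refine ⟨1 + 1, by omega, Ex.case_cons (c := 0) (l := []) ?_ ?_⟩
      · rw [hσ4, update_self, hh]; rfl
      · have : testK s (some 0) = .push s 0 := by simp [testK]
        rw [this]
        have := Ex.push s 0 (update σ4 (s + 1) [])
        convert this using 1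
        have g1 : update σ3 (s + 1) [] = σ3 := update_eq_self_iff.2 l4.symm
        rw [hσ4, update_idem, g1, l5]
        simp
  have e := e1.seq (e2.seq (e3.seq (e4.seq e5)))
  refine e.mono ?_
  have k1 : (Cf + sz a) ^ Cf ≤ (Cf + M) ^ Cf := Nat.pow_le_pow_left (by omega) _
  have k2 : (Ch + sz (f a)) ^ Ch ≤ (Ch + M) ^ Ch := Nat.pow_le_pow_left (by omega) _
  have k3 : (σ1 i).length = sz a := by rw [l1]; rfl
  have k4 : (es (f a)).length = sz (f a) := rfl
  rw [k3, k4]
  omega

theorem wloop_spec {f : α → α} {halt : α → Bool} {Cf Ch i s : ℕ} (his : i < s) {Pf Ph : Pg}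
    (hPf : ∀ (a : α) (σ : St), σ i = es a → σ (s + 1) = [] → (∀ r, s + 2 ≤ r → σ r = []) →
      ExIn Pf σ ((Cf + sz a) ^ Cf) (update σ (s + 1) (es (f a))))
    (hPh : ∀ (a : α) (σ : St), σ i = es a → σ (s + 1) = [] → (∀ r, s + 2 ≤ r → σ r = []) →
      ExIn Ph σ ((Ch + sz a) ^ Ch) (update σ (s + 1) (es (halt a)))) (M : ℕ) :
    ∀ (T : ℕ) (a : α) (σ : St), σ i = es a → (∀ r, s ≤ r → σ r = []) →
      halt (f^[T + 1] a) = true → (∀ t ≤ T, t ≠ 0 → halt (f^[t] a) = false) →
      (∀ t ≤ T + 1, sz (f^[t] a) ≤ M) →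
      ExIn (.loop s fun _ => wbody i s Pf Ph) (update σ s [0])
        ((T + 1) * ((Cf + M) ^ Cf + (Ch + M) ^ Ch + 5 * M + 11) + 1)
        (update σ i (es (f^[T + 1] a))) := by
  have hs0 : ∀ {i s : ℕ}, i < s → i ≠ s := fun h => by omega
  have hpop : ∀ σ : St, σ s = [] → update (update σ s [0]) s [] = σ := by
    intro σ h
    rw [update_idem, update_eq_self_iff.2 h.symm]
  intro T
  induction T with
  | zero =>
    intro a σ h1 h2 hT _ hM
    obtain ⟨t, ht, e⟩ := wbody_spec (f := f) (halt := halt) his hPf hPh a σ M h1 h2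
      (hM 0 (by omega)) (hM 1 (by omega))
    have hfa : halt (f a) = true := hT
    rw [hfa] at e
    simp only [if_true] at e
    have hend : update (update σ i (es (f a))) s [] = update σ i (es (f a)) := by
      rw [update_eq_self_iff, update_of_ne (hs0 his).symm, h2 _ le_rfl]
    rw [hend] at e
    refine ⟨t + 1 + 1, by omega, Ex.loop_cons (c := 0) (l := []) (by rw [update_self]) ?_
      (Ex.loop_nil ?_)⟩
    · rw [hpop σ (h2 _ le_rfl)]
      exact e
    · change update σ i (es (f a)) s = []
      rw [update_of_ne (hs0 his).symm, h2 _ le_rfl]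
  | succ T ih =>
    intro a σ h1 h2 hT hF hM
    obtain ⟨t, ht, e⟩ := wbody_spec (f := f) (halt := halt) his hPf hPh a σ M h1 h2
      (hM 0 (by omega)) (hM 1 (by omega))
    have hfa : halt (f a) = false := hF 1 (by omega) (by omega)
    rw [hfa] at e
    simp only [Bool.false_eq_true, if_false] at e
    obtain ⟨t', ht', e'⟩ := ih (f a) (update σ i (es (f a))) (by rw [update_self])
      (fun r hr => by rw [update_of_ne (by omega)]; exact h2 r hr) hT
      (fun t htT ht0 => hF (t + 1) (by omega) (by omega))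
      (fun t htT => hM (t + 1) (by omega))
    rw [update_idem] at e'
    refine ⟨t + t' + 1, ?_, Ex.loop_cons (c := 0) (l := []) (by rw [update_self]) ?_ e'⟩
    · rw [add_mul (T + 1) 1]
      omega
    · rw [hpop σ (h2 _ le_rfl)]
      exact e

theorem while_poly (Cf Ch : ℕ) : ∃ C : ℕ, ∀ M T : ℕ,
    (T + 1) * ((Cf + M) ^ Cf + (Ch + M) ^ Ch + 5 * M + 11) + 1 + 1 ≤ (T + 1) * (C + M) ^ C := by
  refine ⟨Cf + Ch + 13, fun M T => ?_⟩
  set x := Cf + Ch + 13 + M with hx
  have hx1 : 1 ≤ x := by omega
  have h1 : (Cf + M) ^ Cf ≤ x ^ (Cf + Ch + 12) :=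
    (Nat.pow_le_pow_left (by omega) _).trans (Nat.pow_le_pow_right hx1 (by omega))
  have h2 : (Ch + M) ^ Ch ≤ x ^ (Cf + Ch + 12) :=
    (Nat.pow_le_pow_left (by omega) _).trans (Nat.pow_le_pow_right hx1 (by omega))
  have h3 : x ≤ x ^ (Cf + Ch + 12) := by
    conv_lhs => rw [← pow_one x]
    exact Nat.pow_le_pow_right hx1 (by omega)
  have h4 : x ^ (Cf + Ch + 13) = x * x ^ (Cf + Ch + 12) := by rw [pow_succ]; ring
  have h5 : 13 * x ^ (Cf + Ch + 12) ≤ x * x ^ (Cf + Ch + 12) :=
    Nat.mul_le_mul_right _ (by omega)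
  have h6 : (Cf + M) ^ Cf + (Ch + M) ^ Ch + 5 * M + 11 + 2 ≤ x ^ (Cf + Ch + 13) := by
    rw [h4]
    refine le_trans ?_ h5
    have hMx : M + 13 ≤ x := by omega
    have hP := Nat.zero_le (x ^ (Cf + Ch + 12))
    linarith
  have h7 := Nat.mul_le_mul_left (T + 1) h6
  have h8 : ∀ Y : ℕ, (T + 1) * Y + 1 + 1 ≤ (T + 1) * (Y + 2) := fun Y => by
    rw [mul_add]
    omega
  exact (h8 _).trans h7

theorem while_run {f : α → α} {halt : α → Bool} (hf : FP f) (hh : FP halt) :
    ∃ C : ℕ, ∀ i s : ℕ, i < s → ∃ P : Pg, ∀ (a : α) (σ : St) (T M : ℕ), σ i = es a →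
      (∀ r, s ≤ r → σ r = []) → halt (f^[T + 1] a) = true → (∀ t ≤ T, t ≠ 0 → halt (f^[t] a) = false) →
      (∀ t ≤ T + 1, sz (f^[t] a) ≤ M) →
      ExIn P σ ((T + 1) * (C + M) ^ C) (Function.update σ i (es (f^[T + 1] a))) := by
  obtain ⟨Cf, -, hPf⟩ := hf
  obtain ⟨Ch, -, hPh⟩ := hh
  obtain ⟨C, hC⟩ := while_poly Cf Ch
  refine ⟨C, fun i s his => ?_⟩
  obtain ⟨Pf, hPf⟩ := hPf i (s + 1) (s + 2) (by omega) (by omega) (by omega)
  obtain ⟨Ph, hPh⟩ := hPh i (s + 1) (s + 2) (by omega) (by omega) (by omega)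
  refine ⟨.seq (.push s 0) (.loop s fun _ => wbody i s Pf Ph), ?_⟩
  intro a σ T M h1 h2 h3 h4 h5
  have e1 : ExIn (.push s 0) σ 1 (update σ s [0]) := by
    refine ⟨1, le_rfl, ?_⟩
    have := Ex.push s 0 σ
    rwa [h2 s le_rfl] at this
  have e2 := wloop_spec (f := f) (halt := halt) his hPf hPh M T a σ h1 h2 h3 h4 h5
  refine (e1.seq e2).mono ?_
  have := hC M T
  omega

/-- the pair of bits of a symbol -/
def prb (c : Sy) : Bool × Bool := (decide (2 ≤ (c : ℕ)), decide ((c : ℕ) % 2 = 1))

theorem prb_len (c : Sy) : (1 :: es (prb c) : List Sy).length ≤ 8 := by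
  fin_cases c <;> decide

theorem conv_loop : ∀ (l : List Sy) (σ : St), σ 0 = l →
    ExIn (.loop 0 fun c => pushl 1 (1 :: es (prb c))) σ (9 * l.length + 1)
      (update (update σ 0 []) 1 (l.foldl (fun b c => (1 :: es (prb c)) ++ b) (σ 1)))
  | [], σ, h => by
    refine ⟨1, by omega, ?_⟩
    have := Ex.loop_nil (a := fun c => pushl 1 (1 :: es (prb c))) h
    convert this using 1
    have g1 : update σ 0 [] = σ := update_eq_self_iff.2 h.symm
    rw [List.foldl_nil, g1, update_eq_self]
  | c :: l, σ, h => by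
    obtain ⟨t, ht, e⟩ := pushl_spec 1 (1 :: es (prb c)) (update σ 0 l)
    have hl : update σ 0 l 1 = σ 1 := update_of_ne (by omega) _ _
    rw [hl] at e
    obtain ⟨t', ht', e'⟩ := conv_loop l
      (update (update σ 0 l) 1 ((1 :: es (prb c)) ++ σ 1))
      (by rw [update_of_ne (by omega), update_self])
    refine ⟨t + t' + 1, ?_, ?_⟩
    · have := prb_len c
      rw [List.length_cons (as := l)]
      omega
    · have := Ex.loop_cons (a := fun c => pushl 1 (1 :: es (prb c))) h e e'
      convert this using 1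
      rw [update_self, List.foldl_cons]
      funext r
      by_cases hr : r = 1
      · subst hr; rw [update_self, update_self]
      · rw [update_of_ne hr, update_of_ne hr]
        by_cases hr' : r = 0
        · subst hr'; rw [update_self, update_self]
        · rw [update_of_ne hr', update_of_ne hr', update_of_ne hr, update_of_ne hr']

/-- conversion of the raw input (register 0: symbols, last one on top) to the code of a list of pairs of bits, in
register 1; register 0 is emptied.  Symbol c is encoded by (c = 2 or c = 3, c = 1 or c = 3).  loop 0: push the code of the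
pair in front (reversed order), then 1; start with push 1 0. -/
theorem conv_run : ∃ (P : Pg) (C : ℕ), ∀ (u : List A4),
    ExIn P (inp u) (C * (u.length + 1)) (fun r => if r = 1 then
      es (u.map fun c => (decide (2 ≤ (A4.sy c : ℕ)), decide ((A4.sy c : ℕ) % 2 = 1))) else []) := by
  refine ⟨.seq (.push 1 0) (.loop 0 fun c => pushl 1 (1 :: es (prb c))), 10, fun u => ?_⟩
  have e1 : ExIn (.push 1 0) (inp u) 1 (update (inp u) 1 [0]) := ⟨1, le_rfl, Ex.push 1 0 (inp u)⟩
  have e2 := conv_loop ((u.map A4.sy).reverse) (update (inp u) 1 [0])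
    (by rw [update_of_ne (by omega)]; rfl)
  have key : ∀ u : List A4, (u.map A4.sy).foldr (fun c b => (1 :: es (prb c)) ++ b) [0] =
      es (u.map fun c => (decide (2 ≤ (A4.sy c : ℕ)), decide ((A4.sy c : ℕ) % 2 = 1))) := by
    intro u
    induction u with
    | nil => rfl
    | cons c u ih =>
      rw [List.map_cons, List.map_cons, List.foldr_cons, ih, es_cons]
      rfl
  have e3 := (e1.seq e2).mono (t' := 10 * (u.length + 1)) (by
    rw [List.length_reverse, List.length_map]
    omega)
  convert e3 using 1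
  funext r
  by_cases hr : r = 1
  · subst hr
    rw [update_self, update_self, List.foldl_reverse, key u, if_pos rfl]
  · rw [if_neg hr, update_of_ne hr]
    by_cases hr' : r = 0
    · subst hr'; rw [update_self]
    · rw [update_of_ne hr', update_of_ne hr]
      simp [inp, hr']

end Pool.Agent.helper50.BW
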