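import Pool.Agent.helper50.BW.DefsD
import Pool.Agent.helper50.BW.C4
import Pool.Agent.helper50.BW.C5
import Pool.Agent.helper50.BW.C6
/-! ## BW-D1 FP: list functions (uses C4, C5, C6; 300 lines)
sz_list: sz l = 1 + sum of (sz b + 1).  reverse: foldl (b :: s).  append: foldl over (f a).reverse.  take/drop with a counter list c: foldl over c
with state (rest, taken) (casesList), then reverse.  map: foldl, reverse (FP.foldl size hypothesis: sz of the map ≤ length * bound).
leLen: drop |g a| elements from f a, test for nil.  powcap: foldl over c of (s ++ u).take pad (equal to the take of the flatten). -/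
namespace Pool.Agent.helper50.BW


variable {α β γ δ : Type} [Enc α] [Enc β] [Enc γ] [Enc δ]
theorem sz_list (l : List β) : sz l = 1 + (l.map fun b => sz b + 1).sum := by
  induction l with
  | nil => simp [sz_nil]
  | cons a l ih =>
    rw [sz_cons, ih, List.map_cons, List.sum_cons]
    omega
theorem sz_mem {l : List β} {b : β} (hb : b ∈ l) : sz b < sz l := by
  induction l with
  | nil => simp at hb
  | cons a l ih =>
    rw [sz_cons]
    rcases List.mem_cons.1 hb with rfl | h
    · omega
    · have := ih h
      omega
theorem length_le_sz (l : List β) : l.length < sz l := by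
  induction l with
  | nil => simp [sz_nil]
  | cons a l ih =>
    rw [sz_cons, List.length_cons]
    have := sz_pos a
    omega
theorem sz_le_mul {l : List β} {M : ℕ} (h : ∀ b ∈ l, sz b ≤ M) : sz l ≤ 1 + l.length * (M + 1) := by
  induction l with
  | nil => simp [sz_nil]
  | cons a l ih =>
    rw [sz_cons, List.length_cons]
    have h1 := ih fun b hb => h b (List.mem_cons_of_mem _ hb)
    have h2 := h a List.mem_cons_self
    have e : (l.length + 1) * (M + 1) = l.length * (M + 1) + (M + 1) := by ring
    rw [e]
    omega
theorem sz_append (l l' : List β) : sz (l ++ l') + 1 = sz l + sz l' := by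
  induction l with
  | nil => rw [List.nil_append, sz_nil]; omega
  | cons a l ih =>
    rw [List.cons_append, sz_cons, sz_cons]
    omega

theorem d1_sz_reverse (l : List β) : sz l.reverse = sz l := by
  rw [sz_list, sz_list, List.map_reverse, List.sum_reverse]

theorem d1_sz_sublist {l l' : List β} (h : l.Sublist l') : sz l ≤ sz l' := by
  induction h with
  | slnil => exact le_rfl
  | cons a _ ih => rw [sz_cons]; omega
  | cons_cons a _ ih => rw [sz_cons, sz_cons]; omega

/-- polynomially bounded -/
def D1PB (F : α → ℕ) : Prop := ∃ C : ℕ, ∀ a, F a ≤ (C + sz a) ^ C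

theorem D1PB.mono {F F' : α → ℕ} (hF : D1PB F') (h : ∀ a, F a ≤ F' a) : D1PB F := by
  obtain ⟨C, hC⟩ := hF
  exact ⟨C, fun a => (h a).trans (hC a)⟩

theorem D1PB.const (n : ℕ) : D1PB (fun _ : α => n) := by
  refine ⟨n + 1, fun a => ?_⟩
  calc n ≤ n + 1 + sz a := by omega
    _ = (n + 1 + sz a) ^ 1 := (pow_one _).symm
    _ ≤ (n + 1 + sz a) ^ (n + 1) := Nat.pow_le_pow_right (by omega) (by omega)

theorem D1PB.self : D1PB (fun a : α => sz a) := ⟨1, fun a => by simp⟩

theorem D1PB.add {F G : α → ℕ} (hF : D1PB F) (hG : D1PB G) : D1PB (fun a => F a + G a) := by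
  obtain ⟨C, hC⟩ := hF
  obtain ⟨C', hC'⟩ := hG
  exact ⟨C + C' + 2, fun a => (add_le_add (hC a) (hC' a)).trans poly_add⟩

theorem D1PB.mul {F G : α → ℕ} (hF : D1PB F) (hG : D1PB G) : D1PB (fun a => F a * G a) := by
  obtain ⟨C, hC⟩ := hF
  obtain ⟨C', hC'⟩ := hG
  exact ⟨C + C' + 2, fun a => (Nat.mul_le_mul (hC a) (hC' a)).trans poly_mul⟩

theorem D1PB.comp {F G : α → ℕ} (hG : D1PB G) {C' : ℕ} (h : ∀ a, F a ≤ (C' + G a) ^ C') : D1PB F := by
  obtain ⟨C, hC⟩ := hG
  exact ⟨_, fun a => (h a).trans (poly_comp (hC a))⟩

theorem FP.d1_pb {f : α → β} (hf : FP f) : D1PB (fun a => sz (f a)) := by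
  obtain ⟨C, hC, -⟩ := hf
  exact ⟨C, hC⟩

/-- folds with a polynomially bounded state -/
theorem FP.d1_foldl {l : α → List β} {g : α → γ} {h : α × γ × β → γ} (hl : FP l) (hg : FP g) (hh : FP h)
    {F : α → ℕ} (hF : D1PB F)
    (hs : ∀ a k, sz (((l a).take k).foldl (fun s b => h (a, s, b)) (g a)) ≤ F a) :
    FP (fun a => (l a).foldl (fun s b => h (a, s, b)) (g a)) := by
  obtain ⟨C, hC⟩ := hF
  exact FP.foldl hl hg hh ⟨C, fun a k => (hs a k).trans (hC a)⟩

omit [Enc β] in
theorem d1_foldl_cons (l : List β) : ∀ s : List β, l.foldl (fun s b => b :: s) s = l.reverse ++ s := by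
  induction l with
  | nil => intro s; simp
  | cons a l ih => intro s; rw [List.foldl_cons, ih]; simp

theorem FP.d1_p21 : FP (fun p : α × γ × β => p.2.1) := FP.comp FP.fst FP.snd
theorem FP.d1_p22 : FP (fun p : α × γ × β => p.2.2) := FP.comp FP.snd FP.snd

/-- reverse and append -/
theorem FP.d1_revAppend {f g : α → List β} (hf : FP f) (hg : FP g) :
    FP (fun a => (f a).reverse ++ g a) := by
  have h := FP.d1_foldl (l := f) (g := g) (h := fun p : α × List β × β => p.2.2 :: p.2.1) hf hg
    (FP.cons FP.d1_p22 FP.d1_p21) (F := fun a => sz (f a) + sz (g a)) (hf.d1_pb.add hg.d1_pb) (by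
      intro a k
      simp only
      rw [d1_foldl_cons]
      have h1 := sz_append ((f a).take k).reverse (g a)
      rw [d1_sz_reverse] at h1
      have h2 := d1_sz_sublist (List.take_sublist k (f a))
      omega)
  have e : (fun a => (f a).reverse ++ g a) = fun a => (f a).foldl (fun s b => b :: s) (g a) := by
    funext a
    rw [d1_foldl_cons]
  rw [e]
  exact h

theorem FP.reverse {f : α → List β} (hf : FP f) : FP (fun a => (f a).reverse) := by
  have h := FP.d1_revAppend hf (FP.const (α := α) ([] : List β))
  simpa using h
theorem FP.append {f g : α → List β} (hf : FP f) (hg : FP g) : FP (fun a => f a ++ g a) := by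
  have h := FP.d1_revAppend (FP.reverse hf) hg
  simpa using h

/-- one step of take and drop -/
def d1step (s : List β × List β) : List β × List β :=
  match s.1 with
  | [] => ([], s.2)
  | b :: l => (l, b :: s.2)

omit [Enc β] [Enc γ] in
theorem d1_step_fold (c : List γ) : ∀ (l t : List β),
    c.foldl (fun s _ => d1step s) (l, t) = (l.drop c.length, (l.take c.length).reverse ++ t) := by
  induction c with
  | nil => intro l t; simp
  | cons x c ih =>
    intro l t
    rw [List.foldl_cons]
    cases l with
    | nil =>
      have : d1step (([] : List β), t) = ([], t) := rfl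
      rw [this, ih]
      simp
    | cons b l =>
      have : d1step (b :: l, t) = (l, b :: t) := rfl
      rw [this, ih]
      simp

theorem FP.d1_takeDrop {c : α → List γ} {f : α → List β} (hc : FP c) (hf : FP f) :
    FP (fun a => ((f a).drop (c a).length, ((f a).take (c a).length).reverse)) := by
  have hst : FP (fun p : α × (List β × List β) × γ => d1step p.2.1) := by
    have h1 : FP (fun p : α × (List β × List β) × γ => p.2.1.1) := FP.comp FP.fst FP.d1_p21
    have h2 : FP (fun p : α × (List β × List β) × γ => p.2.1.2) := FP.comp FP.snd FP.d1_p21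
    have h4 : FP (fun q : (α × (List β × List β) × γ) × β × List β => q.1.2.1.2) :=
      FP.comp (g := fun p : α × (List β × List β) × γ => p.2.1.2) h2 FP.fst
    have h3 : FP (fun q : (α × (List β × List β) × γ) × β × List β => (q.2.2, q.2.1 :: q.1.2.1.2)) :=
      FP.pair FP.d1_p22 (FP.cons FP.d1_p21 h4)
    exact FP.casesList h1 (FP.pair (FP.const []) h2) h3
  have h := FP.d1_foldl (l := c) (g := fun a => (f a, ([] : List β)))
    (h := fun p : α × (List β × List β) × γ => d1step p.2.1) hc (FP.pair hf (FP.const [])) hst
    (F := fun a => sz (f a) + sz (f a) + 1) ((hf.d1_pb.add hf.d1_pb).add (D1PB.const 1)) (by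
      intro a k
      simp only
      rw [d1_step_fold, sz_pair, List.append_nil, d1_sz_reverse]
      have h1 := d1_sz_sublist (List.take_sublist ((c a).take k).length (f a))
      have h2 := d1_sz_sublist (List.drop_sublist ((c a).take k).length (f a))
      omega)
  have e : (fun a => ((f a).drop (c a).length, ((f a).take (c a).length).reverse)) =
      fun a => (c a).foldl (fun s _ => d1step s) (f a, []) := by
    funext a
    rw [d1_step_fold, List.append_nil]
  rw [e]
  exact h

theorem FP.take {c : α → List γ} {f : α → List β} (hc : FP c) (hf : FP f) :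
    FP (fun a => (f a).take (c a).length) := by
  have h := FP.reverse (FP.comp FP.snd (FP.d1_takeDrop hc hf))
  simpa using h
theorem FP.drop {c : α → List γ} {f : α → List β} (hc : FP c) (hf : FP f) :
    FP (fun a => (f a).drop (c a).length) :=
  FP.comp FP.fst (FP.d1_takeDrop hc hf)

omit [Enc β] [Enc γ] in
theorem d1_foldl_map (g : β → γ) (l : List β) : ∀ s : List γ,
    l.foldl (fun s b => g b :: s) s = (l.map g).reverse ++ s := by
  induction l with
  | nil => intro s; simp
  | cons a l ih => intro s; rw [List.foldl_cons, ih]; simp

theorem FP.map {h : α × β → γ} {l : α → List β} (hh : FP h) (hl : FP l) :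
    FP (fun a => (l a).map fun b => h (a, b)) := by
  obtain ⟨C, hC, -⟩ := id hh
  have hpb : D1PB (fun a => (C + (sz a + sz (l a) + 1)) ^ C) :=
    ((D1PB.self.add hl.d1_pb).add (D1PB.const 1)).comp (C' := C) fun a => le_rfl
  have h1 := FP.d1_foldl (l := l) (g := fun _ : α => ([] : List γ))
    (h := fun p : α × List γ × β => h (p.1, p.2.2) :: p.2.1) hl (FP.const [])
    (FP.cons (FP.comp hh (FP.pair FP.fst FP.d1_p22)) FP.d1_p21)
    (F := fun a => 1 + sz (l a) * ((C + (sz a + sz (l a) + 1)) ^ C + 1))
    ((D1PB.const 1).add (hl.d1_pb.mul (hpb.add (D1PB.const 1)))) (by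
      intro a k
      simp only
      rw [d1_foldl_map (fun b => h (a, b)), List.append_nil, d1_sz_reverse]
      have h2 : ∀ b ∈ ((l a).take k).map (fun b => h (a, b)),
          sz b ≤ (C + (sz a + sz (l a) + 1)) ^ C := by
        intro b hb
        obtain ⟨b', hb', rfl⟩ := List.mem_map.1 hb
        refine (hC _).trans (Nat.pow_le_pow_left ?_ _)
        rw [sz_pair]
        have := sz_mem (List.mem_of_mem_take hb')
        omega
      refine (sz_le_mul h2).trans ?_
      have h3 : (((l a).take k).map fun b => h (a, b)).length ≤ sz (l a) := by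
        rw [List.length_map]
        have h4 := List.length_take_le' k (l a)
        have h5 := length_le_sz (l a)
        omega
      exact Nat.add_le_add_left (Nat.mul_le_mul_right _ h3) _)
  have e : (fun a => (l a).map fun b => h (a, b)) =
      fun a => ((l a).foldl (fun s b => h (a, b) :: s) []).reverse := by
    funext a
    rw [d1_foldl_map (fun b => h (a, b))]
    simp
  rw [e]
  exact FP.reverse h1

theorem FP.leLen {f : α → List β} {g : α → List γ} (hf : FP f) (hg : FP g) :
    FP (fun a => decide ((f a).length ≤ (g a).length)) := by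
  have h := FP.casesList (f := fun a => (f a).drop (g a).length) (g := fun _ : α => true)
    (h := fun _ : α × β × List β => false) (FP.drop hg hf) (FP.const _) (FP.const _)
  have e : (fun a => decide ((f a).length ≤ (g a).length)) = fun a =>
      match (f a).drop (g a).length with | [] => true | _ :: _ => false := by
    funext a
    cases hd : (f a).drop (g a).length with
    | nil => simpa using hd
    | cons b l =>
      simp only [decide_eq_false_iff_not, not_le]
      by_contra hcon
      rw [not_lt] at hcon
      have := List.drop_eq_nil_iff.2 hcon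
      rw [this] at hd
      simp at hd
  rw [e]
  exact h
theorem FP.ltLen {f : α → List β} {g : α → List γ} (hf : FP f) (hg : FP g) :
    FP (fun a => decide ((f a).length < (g a).length)) := by
  have h := FP.bnot (FP.leLen hg hf)
  have e : (fun a => decide ((f a).length < (g a).length)) =
      fun a => !(decide ((g a).length ≤ (f a).length)) := by
    funext a
    rw [← decide_not]
    simp
  rw [e]
  exact h

theorem d1_take_append (n : ℕ) (x u : W) : ((x.take n) ++ u).take n = (x ++ u).take n := by
  rw [List.take_append, List.take_append, List.take_take, min_self]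
  rcases le_total n x.length with h | h
  · rw [List.length_take, min_eq_left h]
    have : n - x.length = 0 := by omega
    rw [this]
    simp
  · rw [List.length_take, min_eq_right h]

theorem d1_powcap_fold (n : ℕ) (u : W) (c : List Unit) : ∀ x : W,
    c.foldl (fun s _ => (s ++ u).take n) (x.take n) =
      (x ++ (List.replicate c.length u).flatten).take n := by
  induction c with
  | nil => intro x; simp
  | cons _ c ih =>
    intro x
    rw [List.foldl_cons, d1_take_append, ih, List.length_cons, List.replicate_succ,
      List.flatten_cons, List.append_assoc]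

theorem FP.powcap {pad c : α → List Unit} {u : α → W} (hp : FP pad) (hc : FP c) (hu : FP u) :
    FP (fun a => powcap (pad a) (c a) (u a)) := by
  have hst : FP (fun p : α × W × Unit => (p.2.1 ++ u p.1).take (pad p.1).length) :=
    FP.take (FP.comp hp FP.fst) (FP.append FP.d1_p21 (FP.comp hu FP.fst))
  have h := FP.d1_foldl (l := c) (g := fun _ : α => ([] : W))
    (h := fun p : α × W × Unit => (p.2.1 ++ u p.1).take (pad p.1).length) hc (FP.const []) hst
    (F := fun a => 1 + sz (pad a) * (sz (u a) + 1))
    ((D1PB.const 1).add (hp.d1_pb.mul (hu.d1_pb.add (D1PB.const 1)))) (by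
      intro a k
      simp only
      have e1 := d1_powcap_fold (pad a).length (u a) ((c a).take k) []
      rw [List.take_nil, List.nil_append] at e1
      rw [e1]
      have h2 : ∀ b ∈ ((List.replicate ((c a).take k).length (u a)).flatten.take (pad a).length),
          sz b ≤ sz (u a) := by
        intro b hb
        have hb2 := List.mem_of_mem_take hb
        rw [List.mem_flatten] at hb2
        obtain ⟨l, hl, hbl⟩ := hb2
        rw [List.eq_of_mem_replicate hl] at hbl
        exact (sz_mem hbl).le
      refine (sz_le_mul h2).trans ?_
      have h3 : ((List.replicate ((c a).take k).length (u a)).flatten.take (pad a).length).length ≤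
          sz (pad a) := by
        have h4 := length_le_sz (pad a)
        rw [List.length_take]
        omega
      exact Nat.add_le_add_left (Nat.mul_le_mul_right _ h3) _)
  have e : (fun a => BW.powcap (pad a) (c a) (u a)) =
      fun a => (c a).foldl (fun s _ => (s ++ u a).take (pad a).length) [] := by
    funext a
    have e1 := d1_powcap_fold (pad a).length (u a) (c a) []
    rw [List.take_nil, List.nil_append] at e1
    rw [e1]
    rfl
  rw [e]
  exact h

end Pool.Agent.helper50.BW
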