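import Pool.Agent.helper50.BW.D1
import Pool.Agent.helper50.BW.M1
/-! ## BW-D2 free reduction (uses D1; 250 lines)
Invariant of the fold: the stack reversed is reduced and represents the same element.  FP.red: redS by casesList and eq; the stack
size is ≤ sz of the word.  invRev: map (flip the sign) and reverse. -/
namespace Pool.Agent.helper50.BW


variable {α : Type} [Enc α]

theorem redS_mk (st : W) (a : ℕ × Bool) :
    FreeGroup.mk (redS st a).reverse = FreeGroup.mk st.reverse * FreeGroup.mk [a] := by
  cases st with
  | nil => simp [redS, FreeGroup.mul_mk]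
  | cons b st' =>
    by_cases h : b = (a.1, !a.2)
    · have h1 : FreeGroup.mk [b] * FreeGroup.mk [a] = 1 := by
        have : FreeGroup.mk [b] = (FreeGroup.mk [a])⁻¹ := by
          rw [FreeGroup.inv_mk, h]
          rfl
        rw [this, inv_mul_cancel]
      have h2 : redS (b :: st') a = st' := by simp only [redS, if_pos h]
      rw [h2, List.reverse_cons, ← FreeGroup.mul_mk, mul_assoc, h1, mul_one]
    · have h2 : redS (b :: st') a = a :: b :: st' := by simp only [redS, if_neg h]
      rw [h2, List.reverse_cons, ← FreeGroup.mul_mk]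

theorem redS_reduced {st : W} (a : ℕ × Bool) (h : FreeGroup.IsReduced st) :
    FreeGroup.IsReduced (redS st a) := by
  cases st with
  | nil => exact FreeGroup.IsReduced.singleton
  | cons b st' =>
    by_cases hb : b = (a.1, !a.2)
    · have h2 : redS (b :: st') a = st' := by simp only [redS, if_pos hb]
      rw [h2]
      exact List.IsChain.tail h
    · have h2 : redS (b :: st') a = a :: b :: st' := by simp only [redS, if_neg hb]
      rw [h2, FreeGroup.isReduced_cons_cons]
      refine ⟨fun h1 => ?_, h⟩
      by_contra h3
      apply hb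
      refine Prod.ext h1.symm ?_
      show b.2 = !a.2
      cases hb2 : b.2 <;> cases ha2 : a.2 <;> simp_all

theorem redS_length (st : W) (a : ℕ × Bool) : (redS st a).length ≤ st.length + 1 := by
  cases st with
  | nil => simp [redS]
  | cons b st' =>
    unfold redS
    dsimp only
    split_ifs
    · simp only [List.length_cons]; omega
    · simp only [List.length_cons]; omega

theorem redS_mem {st : W} {a b : ℕ × Bool} (h : b ∈ redS st a) : b ∈ st ∨ b = a := by
  cases st with
  | nil => right; simpa [redS] using h
  | cons c st' =>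
    unfold redS at h
    dsimp only at h
    split_ifs at h
    · left; exact List.mem_cons_of_mem _ h
    · rcases List.mem_cons.1 h with h | h
      · right; exact h
      · left; exact h

theorem redfold_mk (w : W) : ∀ st : W, FreeGroup.mk (w.foldl redS st).reverse =
    FreeGroup.mk st.reverse * FreeGroup.mk w := by
  induction w with
  | nil => intro st; simp
  | cons a w ih =>
    intro st
    rw [List.foldl_cons, ih, redS_mk, mul_assoc, FreeGroup.mul_mk]
    rfl

theorem redfold_reduced (w : W) : ∀ st : W, FreeGroup.IsReduced st →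
    FreeGroup.IsReduced (w.foldl redS st) := by
  induction w with
  | nil => intro st h; exact h
  | cons a w ih => intro st h; exact ih _ (redS_reduced a h)

theorem redfold_length (w : W) : ∀ st : W, (w.foldl redS st).length ≤ st.length + w.length := by
  induction w with
  | nil => intro st; simp
  | cons a w ih =>
    intro st
    rw [List.foldl_cons, List.length_cons]
    have h1 := ih (redS st a)
    have h2 := redS_length st a
    omega

theorem redfold_mem (w : W) : ∀ (st : W) (b : ℕ × Bool), b ∈ w.foldl redS st → b ∈ st ∨ b ∈ w := by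
  induction w with
  | nil => intro st b h; left; exact h
  | cons a w ih =>
    intro st b h
    rcases ih _ _ h with h | h
    · rcases redS_mem h with h | h
      · left; exact h
      · right; rw [h]; exact List.mem_cons_self
    · right; exact List.mem_cons_of_mem _ h
theorem red_mk (w : W) : FreeGroup.mk (red w) = FreeGroup.mk w := by
  have h := redfold_mk w []
  rw [red, h, List.reverse_nil, ← FreeGroup.one_eq_mk, one_mul]
theorem red_reduced (w : W) : FreeGroup.IsReduced (red w) := by
  have h := redfold_reduced w [] FreeGroup.IsReduced.nil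
  unfold red FreeGroup.IsReduced
  rw [List.isChain_reverse]
  refine List.IsChain.imp (fun a b hab => ?_) h
  intro e
  exact (hab e.symm).symm
theorem red_length (w : W) : (red w).length ≤ w.length := by
  have h := redfold_length w []
  rw [red, List.length_reverse]
  simpa using h
theorem red_eq_reduce (w : W) : red w = FreeGroup.reduce w := by
  rw [← (red_reduced w).reduce_eq]
  exact FreeGroup.reduce.sound (red_mk w)
theorem red_eq_iff (u v : W) : red u = red v ↔ FreeGroup.mk u = FreeGroup.mk v := by
  rw [red_eq_reduce, red_eq_reduce]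
  exact ⟨FreeGroup.reduce.exact, FreeGroup.reduce.sound⟩
theorem red_nil_iff (w : W) : red w = [] ↔ FreeGroup.mk w = 1 := by
  have h0 : red [] = [] := rfl
  rw [← h0, red_eq_iff, ← FreeGroup.one_eq_mk]
theorem mem_red {w : W} {a : ℕ × Bool} (h : a ∈ red w) : a ∈ w := by
  rw [red, List.mem_reverse] at h
  rcases redfold_mem w [] a h with h | h
  · simp at h
  · exact h
theorem mk_dpow (d : ℕ) (y : W) : FreeGroup.mk (dpow d y) = FreeGroup.mk y ^ d := m1_mk_rep d y

theorem FP.redS {f : α → W} {g : α → ℕ × Bool} (hf : FP f) (hg : FP g) :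
    FP (fun a => redS (f a) (g a)) := by
  have h1 : FP (fun a => [g a]) := FP.cons hg (FP.const [])
  have hx : FP (fun p : α × (ℕ × Bool) × W => g p.1) := FP.comp (g := g) hg FP.fst
  have hb : FP (fun p : α × (ℕ × Bool) × W => p.2.1) :=
    FP.comp (g := fun q : (ℕ × Bool) × W => q.1) FP.fst FP.snd
  have hst : FP (fun p : α × (ℕ × Bool) × W => p.2.2) :=
    FP.comp (g := fun q : (ℕ × Bool) × W => q.2) FP.snd FP.snd
  have hx1 : FP (fun p : α × (ℕ × Bool) × W => (g p.1).1) :=
    FP.comp (g := fun q : ℕ × Bool => q.1) FP.fst hx
  have hx2 : FP (fun p : α × (ℕ × Bool) × W => (g p.1).2) :=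
    FP.comp (g := fun q : ℕ × Bool => q.2) FP.snd hx
  have hneg : FP (fun p : α × (ℕ × Bool) × W => ((g p.1).1, !(g p.1).2)) :=
    FP.pair hx1 (FP.bnot hx2)
  have hdec : FP (fun p : α × (ℕ × Bool) × W => decide (p.2.1 = ((g p.1).1, !(g p.1).2))) :=
    FP.eq hb hneg
  have h2 : FP (fun p : α × (ℕ × Bool) × W =>
      if p.2.1 = ((g p.1).1, !(g p.1).2) then p.2.2 else g p.1 :: p.2.1 :: p.2.2) :=
    FP.ite hdec hst (FP.cons hx (FP.cons hb hst))
  have h3 := FP.casesList hf h1 h2
  have key : ∀ F G : α → W, (∀ a, F a = G a) → FP F → FP G := fun F G h hF => by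
    have : F = G := funext h
    rw [← this]
    exact hF
  refine key _ _ (fun a => ?_) h3
  unfold Pool.Agent.helper50.BW.redS
  cases f a <;> rfl

theorem FP.red {f : α → W} (hf : FP f) : FP (fun a => red (f a)) := by
  have hh : FP (fun p : α × W × (ℕ × Bool) => Pool.Agent.helper50.BW.redS p.2.1 p.2.2) :=
    FP.redS (FP.comp (g := fun q : W × (ℕ × Bool) => q.1) FP.fst FP.snd)
      (FP.comp (g := fun q : W × (ℕ × Bool) => q.2) FP.snd FP.snd)
  have hfold : FP (fun a => (f a).foldl (fun s b =>
      (fun p : α × W × (ℕ × Bool) => Pool.Agent.helper50.BW.redS p.2.1 p.2.2) (a, s, b))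
        ((fun _ : α => ([] : W)) a)) := by
    refine FP.foldl hf (FP.const ([] : W)) hh ?_
    -- size of the stack
    have hb : C4PB (fun a => 1 + sz (f a) * (sz (f a) + 1)) :=
      C4PB.add (C4PB.const 1) (C4PB.mul (FP.c4sz hf) (C4PB.add (FP.c4sz hf) (C4PB.const 1)))
    obtain ⟨C, hC⟩ := hb
    refine ⟨C, fun a k => le_trans ?_ (hC a)⟩
    have e1 : ((f a).take k).foldl (fun s b =>
        (fun p : α × W × (ℕ × Bool) => Pool.Agent.helper50.BW.redS p.2.1 p.2.2) (a, s, b))
          ((fun _ : α => ([] : W)) a) = ((f a).take k).foldl Pool.Agent.helper50.BW.redS [] := rfl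
    rw [e1]
    have h1 : sz (((f a).take k).foldl Pool.Agent.helper50.BW.redS []) ≤
        1 + (((f a).take k).foldl Pool.Agent.helper50.BW.redS []).length * (sz (f a) + 1) := by
      refine sz_le_mul fun b hb => ?_
      rcases redfold_mem _ _ _ hb with h | h
      · simp at h
      · exact (sz_mem (List.mem_of_mem_take h)).le
    refine h1.trans ?_
    have h2 := redfold_length ((f a).take k) []
    have h3 : ((f a).take k).length ≤ (f a).length := by
      rw [List.length_take]; exact min_le_right _ _
    have h4 := length_le_sz (f a)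
    have h5 : (((f a).take k).foldl Pool.Agent.helper50.BW.redS []).length ≤ sz (f a) := by
      simp only [List.length_nil] at h2
      omega
    exact Nat.add_le_add_left (Nat.mul_le_mul_right _ h5) 1
  exact FP.reverse hfold
theorem FP.invRev {f : α → W} (hf : FP f) : FP (fun a => FreeGroup.invRev (f a)) := by
  have h1 : FP (fun p : α × (ℕ × Bool) => (p.2.1, !p.2.2)) :=
    FP.pair (FP.comp (g := fun q : ℕ × Bool => q.1) FP.fst FP.snd)
      (FP.bnot (FP.comp (g := fun q : ℕ × Bool => q.2) FP.snd FP.snd))
  exact FP.reverse (FP.map h1 hf)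
theorem FP.dpow (d : ℕ) {f : α → W} (hf : FP f) : FP (fun a => dpow d (f a)) := by
  induction d with
  | zero =>
    have h : (fun a => Pool.Agent.helper50.BW.dpow 0 (f a)) = fun _ => ([] : W) := by
      funext a; rfl
    rw [h]
    exact FP.const []
  | succ d ih =>
    have h : (fun a => Pool.Agent.helper50.BW.dpow (d + 1) (f a)) =
        fun a => f a ++ Pool.Agent.helper50.BW.dpow d (f a) := by
      funext a
      unfold Pool.Agent.helper50.BW.dpow
      rw [List.replicate_succ, List.flatten_cons]
    rw [h]
    exact FP.append hf ih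

end Pool.Agent.helper50.BW
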