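import Pool.Agent.helper50.BW.D3
/-! ## BW-D4 trying a certificate is in FP (uses D3; 250 lines)
lfold by FP.foldl (the state has size ≤ 3 * total size), the rest by casesList, ite, eq, append, ltLen, leLen, red. -/
namespace Pool.Agent.helper50.BW


variable {α : Type} [Enc α]

section D4aux

variable {β γ : Type} [Enc β] [Enc γ]

theorem FP.d4fst {f : α → β × γ} (hf : FP f) : FP (fun a => (f a).1) := FP.comp (g := Prod.fst) FP.fst hf
theorem FP.d4snd {f : α → β × γ} (hf : FP f) : FP (fun a => (f a).2) := FP.comp (g := Prod.snd) FP.snd hf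

theorem FP.d4congr {f g : α → β} (h : FP f) (e : ∀ a, g a = f a) : FP g := by
  rw [show g = f from funext e]
  exact h

theorem FP.d4head {L : α → List W} (hL : FP L) : FP (fun a => (L a).headD []) := by
  have h1 := FP.casesList (g := fun _ : α => ([] : W)) (h := fun p : α × W × List W => p.2.1) hL
    (FP.const _) (FP.d4fst FP.snd)
  exact FP.d4congr h1 fun a => by cases L a <;> rfl

theorem FP.d4tail {L : α → List W} (hL : FP L) : FP (fun a => (L a).tail) := by
  have h1 := FP.casesList (g := fun _ : α => ([] : List W)) (h := fun p : α × W × List W => p.2.2) hL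
    (FP.const _) (FP.d4snd FP.snd)
  exact FP.d4congr h1 fun a => by cases L a <;> rfl

theorem FP.d4and {p q : α → Prop} [DecidablePred p] [DecidablePred q] (hp : FP (fun a => decide (p a)))
    (hq : FP (fun a => decide (q a))) : FP (fun a => decide (p a ∧ q a)) := by
  have h1 := FP.band hp hq
  have h2 : (fun a => decide (p a ∧ q a)) = fun a => decide (p a) && decide (q a) := by
    funext a
    exact Bool.decide_and _ _
  rw [h2]
  exact h1

theorem d4_sz_letter (a : ℕ × Bool) : sz (a.1, !a.2) ≤ sz a + 2 := by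
  obtain ⟨n, b⟩ := a
  rw [sz_pair, sz_pair]
  cases b
  · show sz n + (es true).length + 1 ≤ sz n + (es false).length + 1 + 2
    rw [es_true, es_false]
    simp
  · show sz n + (es false).length + 1 ≤ sz n + (es true).length + 1 + 2
    rw [es_true, es_false]
    simp

theorem d4_sz_invRev (z : W) : sz (FreeGroup.invRev z) ≤ 3 * sz z := by
  induction z with
  | nil => show (1 : ℕ) ≤ 3 * 1; omega
  | cons a z ih =>
    have h1 : FreeGroup.invRev (a :: z) = FreeGroup.invRev z ++ [(a.1, !a.2)] := by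
      simp [FreeGroup.invRev]
    have h2 := sz_append (FreeGroup.invRev z) [(a.1, !a.2)]
    have h3 := d4_sz_letter a
    have h4 := sz_cons (a.1, !a.2) ([] : W)
    have h5 := sz_nil (α := ℕ × Bool)
    have h6 := sz_pos a
    rw [h1, sz_cons]
    omega

/-- potential -/
def d4pot (s : LSt) : ℕ := 10 * sz s.1 + sz s.2.1 + sz s.2.2.1

theorem d4_pot_step (w : W) (s : LSt) (v : W) : d4pot (lstep w s v) ≤ d4pot s + 10 * (sz v + 1) := by
  obtain ⟨o, p, ls, b⟩ := s
  cases o with
  | none =>
    have h1 : sz (some v) = sz v + 2 := by simp [sz, es_some]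
    have h2 : sz (none : Option W) = 1 := by simp [sz, es_none]
    simp only [lstep, d4pot, h1, h2]
    omega
  | some z =>
    have h1 : sz (some z) = sz z + 2 := by simp [sz, es_some]
    have h2 : sz (none : Option W) = 1 := by simp [sz, es_none]
    have h3 := sz_append p (z ++ v ++ FreeGroup.invRev z)
    have h4 := sz_append (z ++ v) (FreeGroup.invRev z)
    have h5 := sz_append z v
    have h6 := d4_sz_invRev z
    have h7 := sz_cons v ls
    simp only [lstep, d4pot, h1, h2]
    omega

theorem d4_pot_fold (w : W) (L : List W) : ∀ s : LSt, d4pot (L.foldl (lstep w) s) ≤ d4pot s + 10 * sz L := by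
  induction L with
  | nil => intro s; simp only [List.foldl_nil]; omega
  | cons v L ih =>
    intro s
    rw [List.foldl_cons, sz_cons]
    have h1 := ih (lstep w s v)
    have h2 := d4_pot_step w s v
    omega

theorem d4_sz_pot (s : LSt) : sz s ≤ d4pot s + 6 := by
  obtain ⟨o, p, ls, b⟩ := s
  rw [sz_pair, sz_pair, sz_pair]
  simp only [d4pot]
  have h1 : sz b ≤ 3 := by
    cases b
    · show (es false).length ≤ 3
      rw [es_false]; simp
    · show (es true).length ≤ 3
      rw [es_true]; simp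
  omega

theorem d4_sz_take (L : List W) (k : ℕ) : sz (L.take k) ≤ sz L := by
  have h := sz_append (L.take k) (L.drop k)
  rw [List.take_append_drop] at h
  have h2 := sz_pos (L.drop k)
  omega

theorem FP.d4lstep {w : α → W} {s : α → LSt} {v : α → W} (hw : FP w) (hs : FP s) (hv : FP v) :
    FP (fun a => lstep (w a) (s a) (v a)) := by
  have g1 : FP (fun a => ((some (v a), (s a).2.1, (s a).2.2.1, (s a).2.2.2) : LSt)) :=
    FP.pair (FP.osome hv) (FP.pair (FP.d4fst (FP.d4snd hs)) (FP.pair (FP.d4fst (FP.d4snd (FP.d4snd hs)))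
      (FP.d4snd (FP.d4snd (FP.d4snd hs)))))
  have hw' : FP (fun q : α × W => w q.1) := FP.comp (g := w) hw FP.fst
  have hs' : FP (fun q : α × W => s q.1) := FP.comp (g := s) hs FP.fst
  have hv' : FP (fun q : α × W => v q.1) := FP.comp (g := v) hv FP.fst
  have hz : FP (fun q : α × W => q.2) := FP.snd
  have g2 : FP (fun q : α × W => ((none, (s q.1).2.1 ++ (q.2 ++ v q.1 ++ FreeGroup.invRev q.2),
      v q.1 :: (s q.1).2.2.1, (s q.1).2.2.2 &&
        decide ((v q.1 ++ v q.1 ++ v q.1 ++ v q.1).length ≤ (w q.1 ++ w q.1 ++ w q.1).length)) : LSt)) := by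
    refine FP.pair (FP.const _) (FP.pair ?_ (FP.pair ?_ ?_))
    · exact FP.append (FP.d4fst (FP.d4snd hs')) (FP.append (FP.append hz hv') (FP.invRev hz))
    · exact FP.cons hv' (FP.d4fst (FP.d4snd (FP.d4snd hs')))
    · exact FP.band (FP.d4snd (FP.d4snd (FP.d4snd hs')))
        (FP.leLen (FP.append (FP.append (FP.append hv' hv') hv') hv') (FP.append (FP.append hw' hw') hw'))
  have h1 := FP.casesOption (f := fun a => (s a).1) (FP.d4fst hs) g1 g2
  refine FP.d4congr h1 fun a => ?_
  unfold lstep
  rcases (s a).1 with _ | z <;> rfl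

end D4aux

theorem FP.lfold {w : α → W} {L : α → List W} (hw : FP w) (hL : FP L) : FP (fun a => lfold (w a) (L a)) := by
  have hh : FP (fun q : α × LSt × W => lstep (w q.1) q.2.1 q.2.2) :=
    FP.d4lstep (FP.comp (g := w) hw FP.fst) (FP.d4fst FP.snd) (FP.d4snd FP.snd)
  have h := FP.foldl (l := L) (g := fun _ : α => ((none, [], [], true) : LSt)) hL (FP.const _) hh ?_
  · exact h
  · obtain ⟨C, hC⟩ : C4PB (fun a : α => 10 * sz (L a) + 18) :=
      ((C4PB.const 10).mul hL.c4sz).add (C4PB.const 18)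
    refine ⟨C, fun a k => le_trans ?_ (hC a)⟩
    have h1 := d4_sz_pot (((L a).take k).foldl (lstep (w a)) (none, [], [], true))
    have h2 := d4_pot_fold (w a) ((L a).take k) (none, [], [], true)
    have h3 := d4_sz_take (L a) k
    have h4 : d4pot (none, [], [], true) = 12 := rfl
    show sz (((L a).take k).foldl (lstep (w a)) (none, [], [], true)) ≤ 10 * sz (L a) + 18
    omega

theorem FP.d4try1 (d : ℕ) {w w₁ A w₂ u : α → W} {L : α → List W} (hw : FP w) (hw₁ : FP w₁) (hA : FP A)
    (hw₂ : FP w₂) (hu : FP u) (hL : FP L) :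
    FP (fun a => try1 d (w a) (w₁ a) (A a) (w₂ a) (u a) (L a)) := by
  have hy := FP.d4head hL
  have hz := FP.d4head (FP.d4tail hL)
  have hM := FP.d4tail (FP.d4tail hL)
  have hf := FP.lfold hw hM
  have c1 : FP (fun a => decide (w a = w₁ a ++ A a ++ w₂ a)) := FP.eq hw (FP.append (FP.append hw₁ hA) hw₂)
  have c2 : FP (fun a => decide ((u a).length < (A a).length)) := FP.ltLen hu hA
  have c3 : FP (fun a => decide ((BW.lfold (w a) (L a).tail.tail).1 = none)) := by
    have := FP.eq (FP.d4fst hf) (FP.const (α := α) (none : Option W))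
    convert this
  have c4 : FP (fun a => decide ((BW.lfold (w a) (L a).tail.tail).2.2.2 = true)) :=
    FP.eq (FP.d4snd (FP.d4snd (FP.d4snd hf))) (FP.const (α := α) true)
  have c5 : FP (fun a => decide (BW.red (A a ++ FreeGroup.invRev (u a)) =
      BW.red ((BW.lfold (w a) (L a).tail.tail).2.1 ++ ((L a).tail.headD [] ++ BW.dpow d ((L a).headD []) ++
        FreeGroup.invRev ((L a).tail.headD []))))) :=
    FP.eq (FP.red (FP.append hA (FP.invRev hu)))
      (FP.red (FP.append (FP.d4fst (FP.d4snd hf)) (FP.append (FP.append hz (FP.dpow d hy)) (FP.invRev hz))))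
  have c0 : FP (fun a => decide (([(), ()] : List Unit).length ≤ (L a).length)) := FP.leLen (FP.const _) hL
  have r1 : FP (fun a => some ((BW.lfold (w a) (L a).tail.tail).2.2.1, w₁ a ++ u a ++ w₂ a)) :=
    FP.osome (FP.pair (FP.d4fst (FP.d4snd (FP.d4snd hf))) (FP.append (FP.append hw₁ hu) hw₂))
  have h1 := FP.ite c0 (FP.ite (FP.d4and c1 (FP.d4and c2 (FP.d4and c3 (FP.d4and c4 c5)))) r1
    (FP.const (none : Option (List W × W)))) (FP.const (none : Option (List W × W)))
  refine FP.d4congr h1 fun a => ?_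
  rcases L a with _ | ⟨y, _ | ⟨z₀, M⟩⟩
  · simp [try1]
  · simp [try1]
  · simp only [try1, List.tail_cons, List.headD_cons, List.length_cons, List.length_nil]
    rw [if_pos (show 0 + 1 + 1 ≤ M.length + 1 + 1 by omega)]

theorem FP.d4try2 {w w₁ A w₂ u : α → W} (hw : FP w) (hw₁ : FP w₁) (hA : FP A)
    (hw₂ : FP w₂) (hu : FP u) : FP (fun a => try2 (w a) (w₁ a) (A a) (w₂ a) (u a)) := by
  have c1 : FP (fun a => decide (w a = w₁ a ++ A a ++ w₂ a)) := FP.eq hw (FP.append (FP.append hw₁ hA) hw₂)
  have c2 : FP (fun a => decide ((u a).length < (w₂ a ++ w₁ a).length)) := FP.ltLen hu (FP.append hw₂ hw₁)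
  have e : FP (fun a => w₂ a ++ w₁ a ++ u a) := FP.append (FP.append hw₂ hw₁) hu
  have c3 := FP.leLen (FP.append (FP.append (FP.append e e) e) e) (FP.append (FP.append hw hw) hw)
  have r1 : FP (fun a => some ([w₂ a ++ w₁ a ++ FreeGroup.invRev (u a)], A a ++ u a)) :=
    FP.osome (FP.pair (FP.cons (FP.append (FP.append hw₂ hw₁) (FP.invRev hu)) (FP.const _)) (FP.append hA hu))
  exact FP.ite (FP.d4and c1 (FP.d4and c2 c3)) r1 (FP.const (none : Option (List W × W)))

theorem FP.d4tryS (d : ℕ) {w : α → W} {L : α → List W} (hw : FP w) (hL : FP L) :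
    FP (fun a => tryS d (w a) (L a)) := by
  have h1 := FP.d4tail hL
  have h2 := FP.d4tail h1
  have h3 := FP.d4tail h2
  have h4 := FP.d4tail h3
  have h5 := FP.d4tail h4
  have c0 : FP (fun a => decide (([(), (), (), (), ()] : List Unit).length ≤ (L a).length)) :=
    FP.leLen (FP.const _) hL
  have c1 : FP (fun a => decide ((L a).headD [] = [])) := by
    have := FP.eq (FP.d4head hL) (FP.const (α := α) ([] : W))
    convert this
  have r1 := FP.d4try1 d hw (FP.d4head h1) (FP.d4head h2) (FP.d4head h3) (FP.d4head h4) h5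
  have r2 := FP.d4try2 hw (FP.d4head h1) (FP.d4head h2) (FP.d4head h3) (FP.d4head h4)
  have k1 := FP.ite c0 (FP.ite c1 r1 r2) (FP.const (none : Option (List W × W)))
  refine FP.d4congr k1 fun a => ?_
  rcases L a with _ | ⟨f, _ | ⟨x1, _ | ⟨x2, _ | ⟨x3, _ | ⟨x4, M⟩⟩⟩⟩⟩
  · simp [tryS]
  · simp [tryS]
  · simp [tryS]
  · simp [tryS]
  · simp [tryS]
  · simp only [tryS, List.tail_cons, List.headD_cons, List.length_cons, List.length_nil]
    rw [if_pos (show 0 + 1 + 1 + 1 + 1 + 1 ≤ M.length + 1 + 1 + 1 + 1 + 1 by omega)]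

theorem FP.tryC (d : ℕ) {pad : α → List Unit} {w : α → W} {c : α → List Ins} (hp : FP pad) (hw : FP w)
    (hc : FP c) : FP (fun a => tryC d (pad a) (w a) (c a)) :=
  FP.d4tryS d hw (FP.d4snd (FP.interp hp hw hc))

end Pool.Agent.helper50.BW
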