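import Mathlib
/-! Definitions for the BW project (MP_79f0c4_al): geometry, part 1. -/
namespace Pool.Agent.helper50.BW

/-- a pseudo-metric, hyperbolic (4-point condition with error 2), roughly geodesic with error 1 -/
structure Hyp {X : Type} (D : X → X → ℝ) : Prop where
  refl : ∀ x, D x x = 0
  symm : ∀ x y, D x y = D y x
  tri : ∀ x y z, D x z ≤ D x y + D y z
  four : ∀ x y z w, D x y + D z w ≤ max (D x z + D y w) (D x w + D y z) + 2
  rough : ∀ x y t, 0 ≤ t → t ≤ D x y → ∃ z, |D x z - t| ≤ 1 ∧ |D z y - (D x y - t)| ≤ 1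

/-- left invariance -/
def LInv {G : Type} [Group G] (D : G → G → ℝ) : Prop := ∀ g x y, D (g * x) (g * y) = D x y

/-- `z` is κ-between `x` and `y` -/
def Btw {X : Type} (D : X → X → ℝ) (κ : ℝ) (x z y : X) : Prop := D x z + D z y ≤ D x y + κ

/-- stable length -/
noncomputable def sl {G : Type} [Group G] (D : G → G → ℝ) (g : G) : ℝ :=
  ⨅ n : ℕ, D 1 (g ^ (n + 1)) / (n + 1)

/-- universal constant of axes -/
abbrev KU : ℝ := 1000

/-- axis functions of a loxodromic element: `u` = position, `r` = height (distance to the axis) -/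
structure IsAxis {G : Type} [Group G] (D : G → G → ℝ) (g : G) (u r : G → ℝ) : Prop where
  u_lip : ∀ x y, |u x - u y| ≤ D x y
  r_lip : ∀ x y, |r x - r y| ≤ D x y
  r_nonneg : ∀ x, 0 ≤ r x
  u_gen : ∀ x, u (g * x) = u x + sl D g
  r_gen : ∀ x, r (g * x) = r x
  upper : ∀ x y, D x y ≤ r x + r y + |u x - u y| + KU
  lower : ∀ x y, KU ≤ |u x - u y| → r x + r y + |u x - u y| - KU ≤ D x y
  dense : ∀ t, ∃ p, r p ≤ KU ∧ |u p - t| ≤ KU

/-- the inductive hypothesis of the tower: one level -/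
structure Stg {G : Type} [Group G] (D : G → G → ℝ) (d : ℕ) (τ ε A T' Δ : ℝ) : Prop where
  hyp : Hyp D
  linv : LInv D
  ti : ∀ g : G, g ^ d = 1 ∨ ∀ (x : G) (n : ℕ), (n : ℝ) * τ ≤ D x (g ^ n * x)
  p0 : ∀ g x y : G, g ^ d = 1 → D x (g * x) ≤ ε → D y (g * y) ≤ ε → A ≤ D x y → g = 1
  q : ∀ g h x y : G, g ^ d ≠ 1 → h ^ d ≠ 1 → D x (g * x) ≤ T' → D y (g * y) ≤ T' →
    D x (h * x) ≤ T' → D y (h * y) ≤ T' → Δ ≤ D x y → g * h = h * g

/-- a cone system: a G-set of oriented cyclic subgroups with equivariant axis functions.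
`K` = universal constant, `Δ` = bound for projections of different cones, `τ ≤ ell ≤ T`. -/
structure CSys {G : Type} [Group G] (D : G → G → ℝ) (C : Type) [MulAction G C]
    (K Δ τ T : ℝ) where
  gen : C → G
  ell : C → ℝ
  u : C → G → ℝ
  r : C → G → ℝ
  gen_smul : ∀ (g : G) (c : C), gen (g • c) = g * gen c * g⁻¹
  stab : ∀ (g : G) (c : C), g • c = c ↔ g ∈ Subgroup.zpowers (gen c)
  ell_smul : ∀ (g : G) (c : C), ell (g • c) = ell c
  ell_ge : ∀ c, τ ≤ ell c
  ell_le : ∀ c, ell c ≤ T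
  u_lip : ∀ c x y, |u c x - u c y| ≤ D x y
  r_lip : ∀ c x y, |r c x - r c y| ≤ D x y
  r_nonneg : ∀ c x, 0 ≤ r c x
  u_smul : ∀ (g : G) (c : C) x y, u (g • c) (g * x) - u (g • c) (g * y) = u c x - u c y
  r_smul : ∀ (g : G) (c : C) x, r (g • c) (g * x) = r c x
  u_gen : ∀ (c : C) x, u c (gen c * x) = u c x + ell c
  upper : ∀ c x y, D x y ≤ r c x + r c y + |u c x - u c y| + K
  lower : ∀ c x y, K ≤ |u c x - u c y| → r c x + r c y + |u c x - u c y| - K ≤ D x y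
  dense : ∀ c t, ∃ p, r c p ≤ K ∧ |u c p - t| ≤ K
  sep : ∀ b c p q, b ≠ c → r b p ≤ K → r b q ≤ K → |u c p - u c q| ≤ Δ

end Pool.Agent.helper50.BW
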