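import Mathlib
/-!
# Definitions used in the statement of the main theorem of MP_79f0c4_al

Words over the variables x_1, x_2, … and their inverses, their encoding over {x, y, 0, 1}, the identity
problem in the Burnside variety, multitape Turing machines and their running times.
-/
namespace Pool.Agent.helper50.BW

/-! ### Words and their encoding -/

/-- the input alphabet {x, y, 0, 1}; `o` is the digit 0, `i` is the digit 1 -/
inductive A4
  | x | y | o | i
  deriving DecidableEq, Fintype

/-- the binary digits of `n + 1` without the leading 1, lowest digit first -/
def dig (n : ℕ) : List Bool := (Nat.bits (n + 1)).dropLast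

/-- Code of a letter; `(n, true)` is the letter x_{n+1} and `(n, false)` its inverse: x (resp. y)
followed by the binary digits of the index n + 1 without the leading 1, highest digit first. -/
def code (a : ℕ × Bool) : List A4 :=
  (if a.2 then A4.x else A4.y) :: (dig a.1).reverse.map fun b => if b then A4.i else A4.o

/-- Encoding of words: a word is a list of letters. -/
def encW (w : List (ℕ × Bool)) : List A4 := w.flatMap code

theorem length_le_encW (w : List (ℕ × Bool)) : w.length ≤ (encW w).length := by
  induction w with
  | nil => simp
  | cons a l ih =>
    have h : encW (a :: l) = code a ++ encW l := rfl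
    rw [h, List.length_append, List.length_cons]
    have : 1 ≤ (code a).length := by simp [code]
    omega

theorem mem_lt_encW {w : List (ℕ × Bool)} {a : ℕ × Bool} (ha : a ∈ w) : a.1 < 2 ^ ((encW w).length + 1) := by
  have h1 : (code a).length ≤ (encW w).length := by
    unfold encW
    rw [List.length_flatMap]
    exact List.single_le_sum (by simp) _ (List.mem_map_of_mem ha)
  have h2 : (dig a.1).length + 1 = (code a).length := by simp [code]
  have h3 : (Nat.bits (a.1 + 1)).length ≤ (dig a.1).length + 1 := by
    unfold dig
    rw [List.length_dropLast]
    omega
  have h4 : a.1 + 1 < 2 ^ (Nat.bits (a.1 + 1)).length := by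
    have h5 : (Nat.digits 2 (a.1 + 1)).length = (Nat.bits (a.1 + 1)).length := by
      rw [Nat.digits_two_eq_bits, List.length_map]
    rw [← h5]
    exact Nat.lt_base_pow_length_digits (by norm_num)
  calc a.1 < a.1 + 1 := Nat.lt_succ_self _
    _ < 2 ^ (Nat.bits (a.1 + 1)).length := h4
    _ ≤ 2 ^ ((encW w).length + 1) := Nat.pow_le_pow_right (by norm_num) (by omega)

/-- There are only finitely many words whose encoding has length n. -/
theorem finite_Wn (n : ℕ) : {w : List (ℕ × Bool) | (encW w).length = n}.Finite := by
  have hf : ({l : List (Fin (2 ^ (n + 1)) × Bool) | l.length ≤ n}).Finite := List.finite_length_le _ n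
  refine (hf.image (fun l => l.map fun p => ((p.1 : ℕ), p.2))).subset ?_
  intro w hw
  simp only [Set.mem_setOf_eq] at hw
  have hlt : ∀ a ∈ w, a.1 < 2 ^ (n + 1) := fun a ha => hw ▸ mem_lt_encW ha
  refine ⟨w.attach.map fun a => (⟨a.1.1, hlt a.1 a.2⟩, a.1.2), ?_, ?_⟩
  · simp only [Set.mem_setOf_eq, List.length_map, List.length_attach]
    exact hw ▸ length_le_encW w
  · simp only [List.map_map]
    conv_rhs => rw [← List.attach_map_subtype_val w]
    apply List.map_congr_left
    intro a _
    rfl

/-- W_n: the words of complexity n -/
noncomputable def Wn (n : ℕ) : Finset (List (ℕ × Bool)) := (finite_Wn n).toFinset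

theorem mem_Wn {n : ℕ} {w : List (ℕ × Bool)} : w ∈ Wn n ↔ (encW w).length = n := by simp [Wn]

/-- w = 1 is an identity of the Burnside variety of all groups of exponent d: every homomorphism of the
free group to a group with the law x^d = 1 kills w. -/
def IsId (d : ℕ) (w : List (ℕ × Bool)) : Prop :=
  ∀ (G : Type) [Group G], (∀ g : G, g ^ d = 1) → ∀ φ : ℕ → G, FreeGroup.lift φ (FreeGroup.mk w) = 1

/-! ### Turing machines -/

/-- A deterministic Turing machine with a two-way read-only input tape and `k` work tapes (all tapes
are two-way infinite; the input symbol `none` is read outside the input).  In the state `q`, reading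
the input symbol `a` and the work tape symbols `z`, the machine halts if `δ q a z = none`; otherwise it
gets the new state, the symbols written on the work tapes, the move of the input head and the moves
of the work heads. -/
structure TM where
  /-- number of work tapes -/
  k : ℕ
  /-- states -/
  Q : Type
  /-- work tape symbols -/
  Γ : Type
  finQ : Finite Q
  finΓ : Finite Γ
  /-- blank symbol -/
  blank : Γ
  /-- initial state -/
  start : Q
  /-- accepting states -/
  acc : Set Q
  /-- transition function -/
  δ : Q → Option A4 → (Fin k → Γ) → Option (Q × (Fin k → Γ) × SignType × (Fin k → SignType))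

/-- A configuration. -/
structure Cfg (M : TM) where
  /-- state -/
  q : M.Q
  /-- position of the input head -/
  pos : ℤ
  /-- contents of the work tapes -/
  tape : Fin M.k → ℤ → M.Γ
  /-- positions of the work heads -/
  head : Fin M.k → ℤ

namespace TM

variable (M : TM)

/-- The input symbol at position `i`: the input occupies the cells `0, …, |u| - 1`. -/
def rd (u : List A4) (i : ℤ) : Option A4 := if 0 ≤ i then u[i.toNat]? else none

/-- The initial configuration: empty work tapes, input head on the first symbol. -/
def init : Cfg M := ⟨M.start, 0, fun _ _ => M.blank, fun _ => 0⟩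

/-- One step on the input `u`; `none` if the machine halts. -/
def step (u : List A4) (c : Cfg M) : Option (Cfg M) :=
  (M.δ c.q (rd u c.pos) fun j => c.tape j (c.head j)).map fun r =>
    ⟨r.1, c.pos + (r.2.2.1 : ℤ), fun j => Function.update (c.tape j) (c.head j) (r.2.1 j),
      fun j => c.head j + (r.2.2.2 j : ℤ)⟩

/-- The configuration after `t` steps on the input `u`, if the machine has not halted before. -/
def steps (u : List A4) : ℕ → Option (Cfg M)
  | 0 => some M.init
  | t + 1 => (steps u t).bind (M.step u)

/-- On the input `u` the machine halts after exactly `t` steps, and it accepts if and only if `b`. -/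
def HaltsIn (u : List A4) (t : ℕ) (b : Prop) : Prop :=
  ∃ c, M.steps u t = some c ∧ M.step u c = none ∧ (c.q ∈ M.acc ↔ b)

end TM

end Pool.Agent.helper50.BW
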