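import Pool.Agent.helper50.BW.Algo
import Pool.Agent.helper50.BW.Stmt
/-! Definitions for the BW project, part 8: stack programs with exact costs, functions computable in
polynomial time. -/
namespace Pool.Agent.helper50.BW

/-! ### Stack programs -/

/-- work symbols: 0, 1 digits, 2 = x, 3 = y -/
abbrev Sy := Fin 4

/-- the work symbol of an input symbol -/
def A4.sy : A4 → Sy
  | .x => 2
  | .y => 3
  | .o => 0
  | .i => 1

/-- Stack programs.  The registers are numbered by ℕ and contain stacks of symbols.
`case r a`: pop the top symbol of the register r (if any) and run `a` of it.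
`loop r a`: while r is nonempty, pop its top symbol c and run `a c`. -/
inductive Pg
  | skip : Pg
  | push (r : ℕ) (c : Sy) : Pg
  | seq (a b : Pg) : Pg
  | case (r : ℕ) (a : Option Sy → Pg) : Pg
  | loop (r : ℕ) (a : Sy → Pg) : Pg

/-- contents of the registers -/
abbrev St := ℕ → List Sy

/-- `Ex P σ t σ'`: the program P started with σ stops with σ' after t elementary operations -/
inductive Ex : Pg → St → ℕ → St → Prop
  | skip (σ : St) : Ex .skip σ 0 σ
  | push (r : ℕ) (c : Sy) (σ : St) : Ex (.push r c) σ 1 (Function.update σ r (c :: σ r))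
  | seq {a b : Pg} {σ σ' σ'' : St} {t t' : ℕ} (h : Ex a σ t σ') (h' : Ex b σ' t' σ'') :
      Ex (.seq a b) σ (t + t') σ''
  | case_nil {r : ℕ} {a : Option Sy → Pg} {σ σ' : St} {t : ℕ} (h : σ r = []) (h' : Ex (a none) σ t σ') :
      Ex (.case r a) σ (t + 1) σ'
  | case_cons {r : ℕ} {a : Option Sy → Pg} {c : Sy} {l : List Sy} {σ σ' : St} {t : ℕ} (h : σ r = c :: l)
      (h' : Ex (a (some c)) (Function.update σ r l) t σ') : Ex (.case r a) σ (t + 1) σ'
  | loop_nil {r : ℕ} {a : Sy → Pg} {σ : St} (h : σ r = []) : Ex (.loop r a) σ 1 σ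
  | loop_cons {r : ℕ} {a : Sy → Pg} {c : Sy} {l : List Sy} {σ σ' σ'' : St} {t t' : ℕ} (h : σ r = c :: l)
      (h1 : Ex (a c) (Function.update σ r l) t σ') (h2 : Ex (.loop r a) σ' t' σ'') :
      Ex (.loop r a) σ (t + t' + 1) σ''

/-- the initial registers: register 0 contains the input, last symbol on top -/
def inp (u : List A4) : St := fun r => if r = 0 then (u.map A4.sy).reverse else []

/-- `P` stops within time `t` -/
def ExIn (P : Pg) (σ : St) (t : ℕ) (σ' : St) : Prop := ∃ t' ≤ t, Ex P σ t' σ'

/-! ### Trees and encodings -/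

/-- binary trees -/
inductive Tr
  | nil : Tr
  | cons (a b : Tr) : Tr
  deriving DecidableEq

/-- Polish notation -/
def Tr.str : Tr → List Sy
  | .nil => [0]
  | .cons a b => 1 :: (a.str ++ b.str)

/-- types with an encoding by trees -/
class Enc (α : Type) where
  enc : α → Tr
  inj : Function.Injective enc

export Enc (enc)

/-- the string of the code of a -/
def es {α : Type} [Enc α] (a : α) : List Sy := (enc a).str

/-- size of the code -/
def sz {α : Type} [Enc α] (a : α) : ℕ := (es a).length

/-- f can be computed in polynomial time: the program reads its argument in the register i, writes the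
result to the register o, uses only registers from s on as working space and leaves all registers but o
as they were -/
def FP {α β : Type} [Enc α] [Enc β] (f : α → β) : Prop :=
  ∃ C : ℕ, (∀ a, sz (f a) ≤ (C + sz a) ^ C) ∧
    ∀ i o s : ℕ, i < s → o < s → i ≠ o → ∃ P : Pg, ∀ (a : α) (σ : St), σ i = es a → σ o = [] →
      (∀ r, s ≤ r → σ r = []) → ExIn P σ ((C + sz a) ^ C) (Function.update σ o (es (f a)))

end Pool.Agent.helper50.BW
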