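import Pool.Agent.helper50.BW.DefsE
/-! Definitions for the BW project, part 10: the decision procedure.  A word is decided by searching
for certificates; a certificate is a list of instructions (four bits each) of a small stack machine
which builds words from the current word. -/
namespace Pool.Agent.helper50.BW

/-! ### free reduction -/

/-- push a letter on a reduced stack -/
def redS (st : W) (a : ℕ × Bool) : W :=
  match st with
  | [] => [a]
  | b :: st' => if b = (a.1, !a.2) then st' else a :: b :: st'

/-- free reduction -/
def red (w : W) : W := (w.foldl redS []).reverse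

/-! ### the interpreter -/

abbrev Ins := Bool × Bool × Bool × Bool

def iNop : Ins := (false, false, false, false)
def iZero : Ins := (false, false, false, true)
def iDbl : Ins := (false, false, true, false)
def iDbl1 : Ins := (false, false, true, true)
def iPush : Ins := (false, true, false, false)
def iTake : Ins := (false, true, false, true)
def iDrop : Ins := (false, true, true, false)
def iInv : Ins := (false, true, true, true)
def iCat : Ins := (true, false, false, false)
def iPow : Ins := (true, false, false, true)

/-- counter (unary) and stack of words -/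
abbrev Mem := List Unit × List W

/-- `|c|` copies of u, cut to the length of pad -/
def powcap (pad c : List Unit) (u : W) : W := (List.replicate c.length u).flatten.take pad.length

/-- replace the top of the stack (unchanged if the stack is empty) -/
def top1 (f : W → W) : List W → List W
  | [] => []
  | u :: st => f u :: st

/-- replace the two top elements (unchanged if there is only one) -/
def top2 (f : W → W → W) : List W → List W
  | u :: v :: st => f u v :: st
  | st => st

/-- one instruction -/
def exec (pad : List Unit) (w : W) (m : Mem) (b : Ins) : Mem :=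
  if b = iZero then ([], m.2)
  else if b = iDbl then ((m.1 ++ m.1).take pad.length, m.2)
  else if b = iDbl1 then ((() :: (m.1 ++ m.1)).take pad.length, m.2)
  else if b = iPush then (m.1, w :: m.2)
  else if b = iTake then (m.1, top1 (fun u => u.take m.1.length) m.2)
  else if b = iDrop then (m.1, top1 (fun u => u.drop m.1.length) m.2)
  else if b = iInv then (m.1, top1 FreeGroup.invRev m.2)
  else if b = iCat then (m.1, top2 (fun u v => (v ++ u).take pad.length) m.2)
  else if b = iPow then (m.1, top1 (powcap pad m.1) m.2)
  else m

/-- all instructions, starting with empty counter and stack -/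
def interp (pad : List Unit) (w : W) (c : List Ins) : Mem := c.foldl (exec pad w) ([], [])

/-! ### certificates -/

/-- state of the evaluation of the list z₁, x₁, z₂, x₂, …: pending conjugator, product of the conjugates,
list of the loops x_i, all loops short -/
abbrev LSt := Option W × W × List W × Bool

def lstep (w : W) (s : LSt) (v : W) : LSt :=
  match s.1 with
  | none => (some v, s.2.1, s.2.2.1, s.2.2.2)
  | some z => (none, s.2.1 ++ (z ++ v ++ FreeGroup.invRev z), v :: s.2.2.1,
      s.2.2.2 && decide ((v ++ v ++ v ++ v).length ≤ (w ++ w ++ w).length))

def lfold (w : W) (L : List W) : LSt := L.foldl (lstep w) (none, [], [], true)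

/-- y^d -/
def dpow (d : ℕ) (y : W) : W := (List.replicate d y).flatten

/-- move of the first kind: stack = y, z₀, z₁, x₁, … -/
def try1 (d : ℕ) (w w₁ A w₂ u : W) : List W → Option (List W × W)
  | y :: z₀ :: L =>
    if w = w₁ ++ A ++ w₂ ∧ u.length < A.length ∧ (lfold w L).1 = none ∧ (lfold w L).2.2.2 = true ∧
      red (A ++ FreeGroup.invRev u) = red ((lfold w L).2.1 ++ (z₀ ++ dpow d y ++ FreeGroup.invRev z₀)) then
      some ((lfold w L).2.2.1, w₁ ++ u ++ w₂)
    else none
  | _ => none

/-- move of the second kind -/
def try2 (w w₁ A w₂ u : W) : Option (List W × W) :=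
  if w = w₁ ++ A ++ w₂ ∧ u.length < (w₂ ++ w₁).length ∧
    ((w₂ ++ w₁ ++ u) ++ (w₂ ++ w₁ ++ u) ++ (w₂ ++ w₁ ++ u) ++ (w₂ ++ w₁ ++ u)).length ≤ (w ++ w ++ w).length then
    some ([w₂ ++ w₁ ++ FreeGroup.invRev u], A ++ u)
  else none

/-- evaluation of a stack: f, w₁, A, w₂, u, … -/
def tryS (d : ℕ) (w : W) : List W → Option (List W × W)
  | f :: w₁ :: A :: w₂ :: u :: L => if f = [] then try1 d w w₁ A w₂ u L else try2 w w₁ A w₂ u
  | _ => none

/-- try a certificate c on the word w: if it is valid the result (loops, w') satisfies: w' is shorter than w,
and if all loops are trivial then (w is trivial iff w' is trivial) -/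
def tryC (d : ℕ) (pad : List Unit) (w : W) (c : List Ins) : Option (List W × W) :=
  tryS d w (interp pad w c).2

/-! ### enumeration of certificates -/

/-- increment one instruction (four bits) with carry -/
def incI (c : Bool) (a : Ins) : Bool × Ins :=
  let c1 := c && a.1
  let c2 := c1 && a.2.1
  let c3 := c2 && a.2.2.1
  (c3 && a.2.2.2, (xor c a.1, xor c1 a.2.1, xor c2 a.2.2.1, xor c3 a.2.2.2))

def nextS (s : Bool × List Ins) (a : Ins) : Bool × List Ins := ((incI s.1 a).1, (incI s.1 a).2 :: s.2)

/-- next certificate of the same length -/
def nextC (c : List Ins) : Option (List Ins) :=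
  if (c.foldl nextS (true, [])).1 = true then none else some (c.foldl nextS (true, [])).2.reverse

/-! ### the abstract machine -/

/-- frame: word, certificate, and (if the certificate is valid) remaining loops and result -/
abbrev Frame := W × List Ins × Option (List W × W)

/-- state: returned value, called word, frames -/
abbrev SS := Option Bool × Option W × List Frame

/-- the certificate of the top frame has failed -/
def adv (w : W) (c : List Ins) (fs : List Frame) : SS :=
  match nextC c with
  | none => (some false, none, fs)
  | some c' => (none, none, (w, c', none) :: fs)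

/-- a frame at the top without returned value -/
def stepF (d : ℕ) (pad : List Unit) (f : Frame) (fs : List Frame) : SS :=
  match f.2.2 with
  | none =>
    match tryC d pad f.1 f.2.1 with
    | none => adv f.1 f.2.1 fs
    | some r => (none, none, (f.1, f.2.1, some r) :: fs)
  | some r =>
    match r.1 with
    | [] => (none, some r.2, fs)
    | x :: xs => (none, some x, (f.1, f.2.1, some (xs, r.2)) :: fs)

/-- a call of the word w -/
def stepW (B : List Unit) (w : W) (fs : List Frame) : SS :=
  if red w = [] then (some true, none, fs)
  else (none, none, (red w, B.map (fun _ => iNop), none) :: fs)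

/-- one step of the machine -/
def stepS (d : ℕ) (pad B : List Unit) (s : SS) : SS :=
  match s.1 with
  | some b =>
    match s.2.2 with
    | [] => (some b, none, [])
    | f :: fs => bif b then (none, none, f :: fs) else adv f.1 f.2.1 fs
  | none =>
    match s.2.1 with
    | some w => stepW B w s.2.2
    | none =>
      match s.2.2 with
      | [] => (some false, none, [])
      | f :: fs => stepF d pad f fs

/-- the machine has halted -/
def haltS (s : SS) : Bool := s.1.isSome && s.2.2.isEmpty

/-! ### parameters and input -/

/-- integer ninth root -/
def rt9 (n : ℕ) : ℕ := Nat.findGreatest (fun r => r ^ 9 ≤ n) n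

/-- the number with given binary digits (without the leading 1, lowest first), minus 1 -/
def undig (l : List Bool) : ℕ := l.foldr (fun b n => 2 * n + b.toNat) 1 - 1

/-- a symbol of the input as a pair of bits: (x or y, y or 1) -/
def sy2 (c : A4) : Bool × Bool := (decide (2 ≤ (A4.sy c : ℕ)), decide ((A4.sy c : ℕ) % 2 = 1))

/-- one symbol of the input, read from the end; state: word, digits of the current letter (highest first) -/
def pstep (s : W × List Bool) (c : Bool × Bool) : W × List Bool :=
  bif c.1 then ((undig s.2.reverse, !c.2) :: s.1, []) else (s.1, c.2 :: s.2)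

/-- the word with a given encoding -/
def parse (l : List (Bool × Bool)) : W := (l.reverse.foldl pstep ([], [])).1

/-! ### size bounds for the states of the machine -/

/-- word bound: length ≤ n, sizes of the variables ≤ V -/
def WB (n V : ℕ) (w : W) : Prop := w.length ≤ n ∧ ∀ a ∈ w, sz a.1 ≤ V

/-- frame bound -/
def FB (n V B : ℕ) (f : Frame) : Prop :=
  WB n V f.1 ∧ f.2.1.length = B ∧
    ∀ r, f.2.2 = some r → r.1.length ≤ B ∧ (∀ x ∈ r.1, WB n V x) ∧ WB n V r.2

/-- state bound -/
def SBd (n V B D : ℕ) (s : SS) : Prop :=
  (∀ w, s.2.1 = some w → WB n V w) ∧ s.2.2.length ≤ D ∧ ∀ f ∈ s.2.2, FB n V B f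

/-- the machine with its parameters -/
def stepX (d : ℕ) (x : List Unit × List Unit × SS) : List Unit × List Unit × SS :=
  (x.1, x.2.1, stepS d x.1 x.2.1 x.2.2)

def haltX (x : List Unit × List Unit × SS) : Bool := haltS x.2.2

/-- parameters: length bound, length of the certificates, start state -/
def initX (D₀ e CB : ℕ) (w : W) : List Unit × List Unit × SS :=
  (List.replicate (D₀ * (w.length + 1) ^ e) (), List.replicate (CB * (rt9 w.length + 1)) (), (none, some w, []))

/-- the statement of the worst case bound -/
def DecStatement (d : ℕ) : Prop :=
  ∃ (P : Pg) (C : ℝ), ∀ w : W, ∃ (σ' : St) (t : ℕ), Ex P (inp (encW w)) t σ' ∧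
    (t : ℝ) ≤ Real.exp (C * (((encW w).length : ℝ) + 1) ^ (1 / 8 : ℝ)) ∧ (σ' 1 ≠ [] ↔ Triv d w)

end Pool.Agent.helper50.BW
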