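import Pool.Agent.helper50.BW.DefsC
/-! Definitions for the BW project, part 9: encodings of the standard types. -/
namespace Pool.Agent.helper50.BW

variable {α β : Type}

instance : Enc Tr := ⟨id, fun _ _ h => h⟩

instance : Enc Unit := ⟨fun _ => .nil, fun _ _ _ => rfl⟩

instance : Enc Bool := ⟨fun b => bif b then .cons .nil .nil else .nil, by
  intro a b h; cases a <;> cases b <;> simp_all⟩

instance [Enc α] [Enc β] : Enc (α × β) := ⟨fun p => .cons (enc p.1) (enc p.2), by
  rintro ⟨a, b⟩ ⟨a', b'⟩ h
  simp only [Tr.cons.injEq] at h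
  rw [Enc.inj h.1, Enc.inj h.2]⟩

/-- code of a list -/
def encL [Enc α] : List α → Tr
  | [] => .nil
  | a :: l => .cons (enc a) (encL l)

theorem encL_inj [Enc α] : ∀ l l' : List α, encL l = encL l' → l = l'
  | [], [], _ => rfl
  | [], _ :: _, h => by simp [encL] at h
  | _ :: _, [], h => by simp [encL] at h
  | a :: l, a' :: l', h => by
    simp only [encL, Tr.cons.injEq] at h
    rw [Enc.inj h.1, encL_inj l l' h.2]

instance [Enc α] : Enc (List α) := ⟨encL, fun l l' h => encL_inj l l' h⟩

instance [Enc α] : Enc (Option α) := ⟨fun o => match o with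
  | none => .nil
  | some a => .cons .nil (enc a), by
  rintro (_ | a) (_ | b) h
  · rfl
  · simp at h
  · simp at h
  · simp only [Tr.cons.injEq, true_and] at h
    rw [Enc.inj h]⟩

theorem bits_last (k : ℕ) (h0 : Nat.bits (k + 1) ≠ []) : (Nat.bits (k + 1)).getLast h0 = true := by
  have h1 : (Nat.digits 2 (k + 1)) ≠ [] := by
    rw [Nat.digits_two_eq_bits]; simpa using h0
  have h2 := Nat.getLast_digit_ne_zero 2 (m := k + 1) (by omega)
  simp only [Nat.digits_two_eq_bits] at h2
  rw [List.getLast_map] at h2
  by_contra h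
  simp only [Bool.not_eq_true] at h
  rw [h] at h2
  simp at h2
theorem bits_ne (k : ℕ) : Nat.bits (k + 1) ≠ [] := by
  intro h
  have h1 : Nat.digits 2 (k + 1) = [] := by rw [Nat.digits_two_eq_bits, h]; rfl
  simp [Nat.digits_eq_nil_iff_eq_zero] at h1
theorem bits_dropLast (k : ℕ) : Nat.bits (k + 1) = dig k ++ [true] := by
  unfold dig
  conv_lhs => rw [← List.dropLast_append_getLast (bits_ne k), bits_last]
theorem bits_inj {m n : ℕ} (h : Nat.bits m = Nat.bits n) : m = n := by
  apply Nat.digits.injective 2
  rw [Nat.digits_two_eq_bits, Nat.digits_two_eq_bits, h]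
theorem dig_inj : Function.Injective dig := by
  intro m n h
  have h2 : Nat.bits (m + 1) = Nat.bits (n + 1) := by
    rw [bits_dropLast, bits_dropLast, h]
  have := bits_inj h2
  omega

/-- natural numbers are encoded by their binary digits -/
instance : Enc ℕ := ⟨fun n => encL (dig n), fun m n h => dig_inj (encL_inj _ _ h)⟩

theorem es_nil [Enc α] : es ([] : List α) = [0] := rfl
theorem es_cons [Enc α] (a : α) (l : List α) : es (a :: l) = 1 :: (es a ++ es l) := rfl
theorem es_pair [Enc α] [Enc β] (a : α) (b : β) : es (a, b) = 1 :: (es a ++ es b) := rfl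
theorem es_none [Enc α] : es (none : Option α) = [0] := rfl
theorem es_some [Enc α] (a : α) : es (some a) = 1 :: 0 :: es a := rfl
theorem es_false : es false = [0] := rfl
theorem es_true : es true = [1, 0, 0] := rfl
theorem es_unit : es () = [0] := rfl
theorem sz_pair [Enc α] [Enc β] (a : α) (b : β) : sz (a, b) = sz a + sz b + 1 := by
  simp [sz, es_pair]
theorem sz_cons [Enc α] (a : α) (l : List α) : sz (a :: l) = sz a + sz l + 1 := by
  simp [sz, es_cons]
theorem sz_nil [Enc α] : sz ([] : List α) = 1 := rfl
theorem Tr.str_pos (t : Tr) : 0 < t.str.length := by cases t <;> simp [Tr.str]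
theorem sz_pos [Enc α] (a : α) : 0 < sz a := Tr.str_pos _

end Pool.Agent.helper50.BW
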