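import Pool.Agent.helper50.BW.DefsS
/-! Definitions for the BW project, part 3: the cone-off metric. -/
namespace Pool.Agent.helper50.BW
open Sum

variable {G : Type} [Group G] {D : G → G → ℝ} {C : Type} [MulAction G C] {K Δ τ T : ℝ}

/-- cost of a step: `none` = ordinary step of cost D x y, `some c` = jump along the cone c, cost s -/
def stp (_S : CSys D C K Δ τ T) (s : ℝ) (k : Option C) (x y : G) : ℝ :=
  match k with
  | none => D x y
  | some _ => s

/-- a jump along c needs both ends close to the axis of c -/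
def StpOk (S : CSys D C K Δ τ T) (k : Option C) (x y : G) : Prop :=
  ∀ c, k = some c → S.r c x ≤ K ∧ S.r c y ≤ K

/-- v 0, ..., v N is a walk with step types k 0, ..., k (N-1) -/
def IsWk (S : CSys D C K Δ τ T) (N : ℕ) (v : ℕ → G) (k : ℕ → Option C) : Prop :=
  ∀ i < N, StpOk S (k i) (v i) (v (i + 1))

/-- cost of the steps i, i+1, ..., j-1 -/
noncomputable def wc (S : CSys D C K Δ τ T) (s : ℝ) (v : ℕ → G) (k : ℕ → Option C) (i j : ℕ) : ℝ :=
  ∑ l ∈ Finset.Ico i j, stp S s (k l) (v l) (v (l + 1))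

/-- no two consecutive ordinary steps -/
def NoDD (N : ℕ) (k : ℕ → Option C) : Prop := ∀ i, i + 1 < N → ¬ (k i = none ∧ k (i + 1) = none)

/-- the cone-off metric on G -/
noncomputable def dd (S : CSys D C K Δ τ T) (s : ℝ) (x y : G) : ℝ :=
  sInf {t | ∃ (N : ℕ) (v : ℕ → G) (k : ℕ → Option C),
    v 0 = x ∧ v N = y ∧ IsWk S N v k ∧ t = wc S s v k 0 N}

/-- distance from a point to the apex of the cone c -/
noncomputable def ec (S : CSys D C K Δ τ T) (s : ℝ) (x : G) (c : C) : ℝ :=
  sInf {t | ∃ p, S.r c p ≤ K ∧ t = dd S s x p + s / 2}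

/-- distance between two apexes -/
noncomputable def ecc (S : CSys D C K Δ τ T) (s : ℝ) (b c : C) : ℝ :=
  sInf {t | ∃ p, S.r b p ≤ K ∧ t = ec S s p c + s / 2}

end Pool.Agent.helper50.BW
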