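import Pool.Agent.helper50.BW.DefsT
import Pool.Agent.helper50.BW.Algo
/-! Definitions for the BW project, part 7: paths of words, short bridges, blocks. -/
namespace Pool.Agent.helper50.BW
open Sum

/-- vertex number a of the path of w in G -/
def pt {G : Type} [Group G] (π : FreeGroup ℕ →* G) (w : W) (a : ℕ) : G := π (FreeGroup.mk (w.take a))

/-- the subword between the vertices a and b (inverse of a subword if b < a) -/
def sub (w : W) (a b : ℕ) : W :=
  if a ≤ b then (w.take b).drop a else FreeGroup.invRev ((w.take a).drop b)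

/-- e is between a and b (in any order) -/
def Mid (a e b : ℕ) : Prop := min a b ≤ e ∧ e ≤ max a b

/-- rough geodesic path with n steps of length ≤ 1 -/
structure Pth {X : Type} (D : X → X → ℝ) (n : ℕ) (p : ℕ → X) : Prop where
  step : ∀ a, a < n → D (p a) (p (a + 1)) ≤ 1
  qg : ∀ a b c, a ≤ b → b ≤ c → c ≤ n → D (p a) (p b) + D (p b) (p c) ≤ D (p a) (p c) + 1

abbrev Lam0 : ℝ := 200 * KU

/-- a short bridge: a short word hh of DD d w m from a vertex z between a and b to the vertex z' of the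
translate g * path, z' between a' and b' -/
def Brg {G : Type} [Group G] (π : FreeGroup ℕ →* G) (w : W) (d m : ℕ) (g : G) (a b a' b' : ℕ) : Prop :=
  ∃ (z z' : ℕ) (hh : W), Mid a z b ∧ Mid a' z' b' ∧ hh ∈ DD d w m ∧
    pt π w z * π (FreeGroup.mk hh) = g * pt π w z' ∧
    (hh.length : ℝ) ≤ 40 * |(b : ℝ) - a| ∧ (hh.length : ℝ) ≤ 40 * |(b' : ℝ) - a'|

/-- short bridges exist: two pieces of translates of the path of w which fellow travel for a long time are
connected by a short word of DD d w m -/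
def SB {G : Type} [Group G] (D : G → G → ℝ) (π : FreeGroup ℕ →* G) (w : W) (d m : ℕ) : Prop :=
  ∀ (g : G) (a b a' b' : ℕ), a ≤ w.length → b ≤ w.length → a' ≤ w.length → b' ≤ w.length →
    D (pt π w a) (g * pt π w a') ≤ 6 * KU → D (pt π w b) (g * pt π w b') ≤ 6 * KU →
    Lam0 ≤ D (pt π w a) (pt π w b) → Brg π w d m g a b a' b'

/-- block boundary number k -/
noncomputable def bp (f : ℕ → ℝ) (α : ℕ) (LB : ℝ) (k : ℕ) : ℝ := f α + 2 * KU + k * LB

/-- x = first-index function of f on [α, β]; N blocks of f-length LB; block k has the least number of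
indices; the window of f-length Lam0 + 10 starting at position t0 in the first third of block k is short -/
structure Blk (f : ℕ → ℝ) (α β : ℕ) (LB : ℝ) (x : ℝ → ℕ) (N k : ℕ) (t0 : ℝ) : Prop where
  mono : Monotone x
  mem : ∀ t, α ≤ x t ∧ x t ≤ β
  val : ∀ t, f α ≤ t → t ≤ f β → |f (x t) - t| ≤ 1
  fits : bp f α LB N ≤ f β - 2 * KU
  kN : k < N
  least : ∀ j < N, (x (bp f α LB (k + 1)) : ℝ) - x (bp f α LB k) ≤ x (bp f α LB (j + 1)) - x (bp f α LB j)
  w1 : bp f α LB k ≤ t0
  w2 : t0 + (Lam0 + 10) ≤ bp f α LB k + LB / 3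
  w3 : 4000 * ((x (t0 + (Lam0 + 10)) : ℝ) - x t0) ≤ x (bp f α LB (k + 1)) - x (bp f α LB k)

/-- number of indices of the least block -/
noncomputable def bst (f : ℕ → ℝ) (α : ℕ) (LB : ℝ) (x : ℝ → ℕ) (k : ℕ) : ℝ :=
  (x (bp f α LB (k + 1)) : ℝ) - x (bp f α LB k)

/-- position along the cone c in direction e of the vertices of the translate g * path -/
noncomputable def pf {G : Type} [Group G] {D : G → G → ℝ} {C : Type} [MulAction G C] {K Δ τ T : ℝ}
    (S : CSys D C K Δ τ T) (c : C) (e : ℤ) (g : G) (π : FreeGroup ℕ →* G) (w : W) (i : ℕ) : ℝ :=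
  e * S.u c (g * pt π w i)

/-- no crossing of the path of w is larger than 4/5 of the relator length -/
def NC {G : Type} [Group G] {D : G → G → ℝ} {C : Type} [MulAction G C] {K Δ τ T : ℝ}
    (S : CSys D C K Δ τ T) (U : C → G ⊕ C → ℝ) (d : ℕ) (π : FreeGroup ℕ →* G) (w : W) : Prop :=
  ∀ (c : C) (a b : ℕ), a ≤ w.length → b ≤ w.length →
    |U c (inl (pt π w b)) - U c (inl (pt π w a))| ≤ 4 / 5 * (d * S.ell c)

/-- numerical hypotheses of stage M -/
structure MC (d : ℕ) (κ₀ τ T LB : ℝ) : Prop where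
  hτ : 0 < τ
  hd : 1 ≤ d
  h1 : 12000 * (Lam0 + 10) ≤ LB
  h2 : 15 * T ≤ LB
  h3 : 1000 * LB ≤ κ₀
  h4 : 10000 * κ₀ ≤ d * τ
  h5 : 20 * LB ^ 2 ≤ d * τ ^ 2

end Pool.Agent.helper50.BW
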