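import Pool.Agent.helper50.BW.DefsD
/-! Definitions for the BW project, part 11: pre-test and average case. -/
namespace Pool.Agent.helper50.BW

/-- sign symbols -/
def IsSg (c : A4) : Prop := c = .x ∨ c = .y

/-- the string is empty or begins with a sign symbol -/
def Hd (z : List A4) : Prop := ∀ c ∈ z.head?, IsSg c

/-- the word with a given encoding -/
def decW (u : List A4) : W := parse (u.map sy2)

/-- exponent sum of the variable i -/
def esum (w : W) (i : ℕ) : ℤ := (w.map fun a => if a.1 = i then (if a.2 then (1 : ℤ) else -1) else 0).sum

/-- the variable i occurs in z as a complete letter -/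
def Occ (i : ℕ) (z : List A4) : Prop := ∃ (z₁ z₂ : List A4) (s : Bool), z = z₁ ++ code (i, s) ++ z₂ ∧ Hd z₂

/-- all variables i with lo ≤ i < hi which occur in z have exponent sum 0 mod d in v ++ z -/
def PF (d lo hi : ℕ) (v z : List A4) : Prop :=
  ∀ i, lo ≤ i → i < hi → Occ i z → (d : ℤ) ∣ esum (decW (v ++ z)) i

/-- all variables which occur in z have exponent sum 0 mod d in v ++ z -/
def AP (d : ℕ) (v z : List A4) : Prop := ∀ i, Occ i z → (d : ℤ) ∣ esum (decW (v ++ z)) i

/-- expectation over all strings of length j -/
noncomputable def EE : ℕ → (List A4 → ℝ) → ℝ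
  | 0, F => F []
  | j + 1, F => (EE j (fun z => F (.x :: z)) + EE j (fun z => F (.y :: z)) +
      EE j (fun z => F (.o :: z)) + EE j (fun z => F (.i :: z))) / 4

open Classical in
/-- indicator -/
noncomputable def ind (p : Prop) : ℝ := if p then 1 else 0

/-- bound for the probability that everything passes in the last j cells -/
noncomputable def eta (j : ℕ) : ℝ := if 8 ≤ j then (3 / 4) ^ (2 ^ Nat.log 16 (j / 8)) else 1

/-- the letter a passes the test -/
def pass (d : ℕ) (w : W) (a : ℕ × Bool) : Bool := decide ((d : ℤ) ∣ esum w a.1)

/-- number of letters that pass before the first failure, from the end -/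
def npass (d : ℕ) (w : W) : ℕ := (w.reverse.takeWhile (pass d w)).length

/-- value of the counter after scanning w for the variable i -/
def cnt (d : ℕ) (w : W) (i : ℕ) : ℕ := (w.map fun a => if a.1 = i then (if a.2 then 1 else d - 1) else 0).sum

/-- symbol of a digit -/
def bsy (b : Bool) : Sy := if b then 1 else 0

end Pool.Agent.helper50.BW
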