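import Pool.Agent.helper50.BW.DefsF
/-! Definitions for the BW project, part 4: the quotient by the normal subgroup NN. -/
namespace Pool.Agent.helper50.BW
open Sum

variable {G : Type} [Group G] {D : G → G → ℝ} {C : Type} [MulAction G C] {K Δ τ T : ℝ}

/-- standing assumptions of stage Q.  `κ₀` dominates all other constants, `d τ` is huge. -/
structure Ctx (S : CSys D C K Δ τ T) (U : C → G ⊕ C → ℝ) (s κ₁ κu κ₀ : ℝ) (d : ℕ) : Prop where
  hyp : Hyp D
  linv : LInv D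
  proj : Proj S κ₁ κu U
  hK : 100 ≤ K
  hΔ : 0 ≤ Δ
  hu : 0 ≤ κu
  h1 : 0 ≤ κ₁
  hs : 1000 * K ≤ s
  h0 : 30 * s + 30 * Δ + 80 * κu + 200 * K + 4 * κ₁ ≤ κ₀
  hτ : 0 < τ
  odd : Odd d
  big : 10000 * κ₀ ≤ d * τ

/-- admissible pair of objects: all crossings are at most `a` times the relator length -/
def Adm (S : CSys D C K Δ τ T) (U : C → G ⊕ C → ℝ) (d : ℕ) (a : ℝ) (X Y : G ⊕ C) : Prop :=
  ∀ b : C, X ≠ inr b → Y ≠ inr b → |U b Y - U b X| ≤ a * (d * S.ell b)

/-- the quotient pseudo-metric (as an NN-invariant function on G) -/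
noncomputable def db (S : CSys D C K Δ τ T) (s : ℝ) (d : ℕ) (x y : G) : ℝ :=
  sInf {t | ∃ n ∈ NN S d, t = dd S s x (n * y)}

/-- quotient distance from a point to an apex -/
noncomputable def eb (S : CSys D C K Δ τ T) (s : ℝ) (d : ℕ) (x : G) (c : C) : ℝ :=
  sInf {t | ∃ n ∈ NN S d, t = ec S s x (n • c)}

/-- distance of t to the multiples of Θ -/
noncomputable def rs (t Θ : ℝ) : ℝ := |t - Θ * round (t / Θ)|

/-- residue crossing of the image of (x,y) on the image of the cone c -/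
noncomputable def qq (S : CSys D C K Δ τ T) (U : C → G ⊕ C → ℝ) (d : ℕ) (c : C) (x y : G) : ℝ :=
  sInf {t | ∃ n ∈ NN S d, ∃ m ∈ NN S d, Adm S U d (7 / 8) (inl (n * x)) (inr c) ∧
    Adm S U d (7 / 8) (inl (m * y)) (inr c) ∧ t = rs (U c (inl (n * x)) - U c (inl (m * y))) (d * S.ell c)}

end Pool.Agent.helper50.BW
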