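import Pool.Agent.helper50.BW.DefsQ
/-! Definitions for the BW project, part 5: one full level of the tower. -/
namespace Pool.Agent.helper50.BW
open Sum

variable {G : Type} [Group G] {D : G → G → ℝ} {C : Type} [MulAction G C] {Δ τ T : ℝ}

/-- length scale for the linear lower bound of the cone-off metric (crossings ≤ 2κ₀) -/
noncomputable def LL (s κu κ₀ Δ : ℝ) : ℝ :=
  6 * s + 13 * (2 * κ₀ + 6 * s + 6 * KU + 10 * κu + 13 * Δ + 30)

/-- radius of almost fixed sets of torsion elements in the quotient -/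
noncomputable def RE (s τ A E : ℝ) : ℝ := (E + 6 * s) / 2 + A + 11 * KU * (KU / τ + 1) + 12 * KU

/-- rigidity radius -/
noncomputable def R2 (s τ A : ℝ) : ℝ := A + s + (2400 * (KU / τ + 1) + KU) + 6 * KU + 1

/-- one level of the tower with its cone system and projections, and the parameters of the next level -/
structure Full (S : CSys D C KU Δ τ T) (U : C → G ⊕ C → ℝ) (s κ₁ κu κ₀ : ℝ) (d : ℕ)
    (ε A T' Δs lam η : ℝ) : Prop where
  ctx : Ctx S U s κ₁ κu κ₀ d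
  stg : Stg D d τ ε A T' Δs
  ell_sl : ∀ c, S.ell c = sl D (S.gen c)
  gen_lox : ∀ c, S.gen c ^ d ≠ 1
  cov : ∀ g : G, g ^ d ≠ 1 → sl D g ≤ T → ∃ c, g ∈ Subgroup.zpowers (S.gen c)
  hT : 10000 * KU ≤ T
  hTT : T ≤ T'
  hε : 2400 ≤ ε
  hA : 0 ≤ A
  hlam : 0 < lam
  hlam' : lam * (10 * s) ≤ 1
  hη : 0 < η
  hη1 : η ≤ s
  hη2 : η * (LL s κu κ₀ Δ + 30) ≤ s * T
  hτη : τ = lam * η
  hA2 : 2 * lam * RE s τ A (ε / lam) + 1 ≤ A
  hΔ1 : 40 * T' + A + 50000 ≤ Δs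
  hΔ2 : 50 * T' + 1000 + lam * R2 s τ A ≤ Δs

end Pool.Agent.helper50.BW
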