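import Pool.Agent.helper50.BW.Defs
/-! Definitions for the BW project, part 2: objects, projections, reductions. -/
namespace Pool.Agent.helper50.BW
open Sum

variable {G : Type} [Group G] {D : G → G → ℝ} {C : Type} [MulAction G C] {K Δ τ T : ℝ}

/-- position of an object (point or cone) on the cone `c` (coarse) -/
noncomputable def uo (S : CSys D C K Δ τ T) (c : C) : G ⊕ C → ℝ
  | inl x => S.u c x
  | inr b => sSup {t | ∃ p, S.r b p ≤ K ∧ t = S.u c p}

/-- height of an object over the cone `z` -/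
noncomputable def mo (S : CSys D C K Δ τ T) (z : C) : G ⊕ C → ℝ
  | inl x => S.r z x
  | inr b => sInf {t | ∃ p, S.r b p ≤ K ∧ t = S.r z p}

/-- `b` strongly separates `X` from `z` -/
def SRel (S : CSys D C K Δ τ T) (θ₁ : ℝ) (z : C) (X Y : G ⊕ C) : Prop :=
  X ≠ inr z ∧ Y ≠ inr z ∧ X ≠ Y ∧ ∃ b, Y = inr b ∧ θ₁ ≤ |uo S b X - uo S b (inr z)|

/-- strong projection -/
noncomputable def Uo (S : CSys D C K Δ τ T) (θ₁ : ℝ) (z : C) (X : G ⊕ C) : ℝ :=
  sSup {t | ∃ Y, Relation.EqvGen (SRel S θ₁ z) X Y ∧ t = uo S z Y}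

/-- properties of a strong projection -/
structure Proj (S : CSys D C K Δ τ T) (κ₁ κu : ℝ) (U : C → G ⊕ C → ℝ) : Prop where
  smul : ∀ (g : G) (c : C) (X Y : G ⊕ C), X ≠ inr c → Y ≠ inr c →
    U (g • c) (g • Y) - U (g • c) (g • X) = U c Y - U c X
  rot : ∀ (c : C) (X : G ⊕ C) (k : ℤ), X ≠ inr c → U c (S.gen c ^ k • X) = U c X + k * S.ell c
  exact : ∀ (b c : C) (X : G ⊕ C), b ≠ c → X ≠ inr b → X ≠ inr c →
    κ₁ ≤ |U b X - U b (inr c)| → U c X = U c (inr b)
  close : ∀ (c : C) (x : G), |U c (inl x) - S.u c x| ≤ κu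
  closeC : ∀ (c b : C) (p : G), b ≠ c → S.r b p ≤ K → |U c (inr b) - S.u c p| ≤ κu

/-- the group generated by the d-th powers of the cone generators -/
def NN (S : CSys D C K Δ τ T) (d : ℕ) : Subgroup G := Subgroup.closure {g | ∃ c, g = S.gen c ^ d}

/-- Greendlinger reductions relative to the base point `o`: `Red n` if n = 1 or
n = gen c^{±d} n' with Red n' and the point n·o has crossing ≥ d·ell c - κ₂ on c (in direction ±) -/
inductive Red (S : CSys D C K Δ τ T) (U : C → G ⊕ C → ℝ) (d : ℕ) (κ₂ : ℝ) (o : G) : G → Prop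
  | one : Red S U d κ₂ o 1
  | step (c : C) (e : ℤ) (n : G) : (e = 1 ∨ e = -1) → Red S U d κ₂ o n →
      d * S.ell c - κ₂ ≤ e * (U c (inl (S.gen c ^ (e * d) * n * o)) - U c (inl o)) →
      Red S U d κ₂ o (S.gen c ^ (e * d) * n)

end Pool.Agent.helper50.BW
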