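import Pool.Agent.helper50.BW.DefsR
/-! Definitions for the BW project, part 6: numerical constants and the tower. -/
namespace Pool.Agent.helper50.BW
open Sum

abbrev cs : ℝ := 1000000
abbrev cT : ℝ := 1000000000
/-- T' = T + 22 KU -/
abbrev cT' : ℝ := 1000022000
abbrev cA : ℝ := 100000000
abbrev cDs : ℝ := 100000000000
abbrev ce : ℝ := 3000
/-- λ = 3^(-20) -/
noncomputable abbrev clam : ℝ := 1 / 3486784401
abbrev cD : ℝ := cDs + 2 * KU
abbrev ck1 : ℝ := 24 * cD + 100 * KU
abbrev cku : ℝ := 7 * cD + 20 * KU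
abbrev ck0 : ℝ := 30 * cs + 30 * cD + 80 * cku + 200 * KU + 4 * ck1
noncomputable abbrev ceta : ℝ := cs * cT / (LL cs cku ck0 cD + 30)
noncomputable abbrev ctau : ℝ := clam * ceta

/-- one level of the tower: a quotient of the free group with a pseudo-metric satisfying Stg -/
structure Lvl (d : ℕ) where
  G : Type
  [grp : Group G]
  π : FreeGroup ℕ →* G
  surj : Function.Surjective π
  D : G → G → ℝ
  stg : Stg D d ctau ce cA cT' cDs

attribute [instance] Lvl.grp

/-- L' is obtained from L by adding the d-th powers of the cone generators -/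
def IsNext {d : ℕ} (L L' : Lvl d) : Prop :=
  ∃ (C : Type) (_ : MulAction L.G C) (S : CSys L.D C KU cD ctau cT) (U : C → L.G ⊕ C → ℝ) (q : L.G →* L'.G),
    Full S U cs ck1 cku ck0 d ce cA cT' cDs clam ceta ∧ q.ker = NN S d ∧ Function.Surjective q ∧
    L'.π = q.comp L.π ∧ ∀ x y, L'.D (q x) (q y) = clam * db S cs d x y

/-- the word metric of the free group -/
noncomputable def fD (x y : FreeGroup ℕ) : ℝ := ((x⁻¹ * y).norm : ℝ)

end Pool.Agent.helper50.BW
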