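import Pool.Agent.helper50.BW.DefsF
import Pool.Agent.helper50.BW.A1
/-! ## BW-F1 the cone-off metric: basics (uses A1)
All costs are ≥ 0 (s ≥ 0).  Concatenation of walks (piecewise functions), reversal (v (N-i), k (N-1-i)),
translation by g (k i ↦ (k i).map (g • ·), r_smul).  Single ordinary step, single jump.
wc_le: the portion of a walk from i to j is a walk (shift), so dd (v i) (v j) ≤ wc i j.
ec_lip, ec_pt: from dd_tri and the definition as infimum (set nonempty by dense). -/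
namespace Pool.Agent.helper50.BW
open Sum
variable {G : Type} [Group G] {D : G → G → ℝ} {C : Type} [MulAction G C] {K Δ τ T : ℝ}

theorem f1_stp_nonneg (h : Hyp D) (S : CSys D C K Δ τ T) {s : ℝ} (hs : 0 ≤ s) (k : Option C) (x y : G) :
    0 ≤ stp S s k x y := by
  cases k with
  | none => exact h.nonneg x y
  | some c => exact hs

theorem f1_stp_symm (h : Hyp D) (S : CSys D C K Δ τ T) (s : ℝ) (k : Option C) (x y : G) :
    stp S s k x y = stp S s k y x := by
  cases k with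
  | none => exact h.symm x y
  | some c => rfl

theorem f1_wc_range (S : CSys D C K Δ τ T) (s : ℝ) (v : ℕ → G) (k : ℕ → Option C) (i j : ℕ) :
    wc S s v k i j = ∑ l ∈ Finset.range (j - i), stp S s (k (i + l)) (v (i + l)) (v (i + l + 1)) := by
  unfold wc
  rw [Finset.sum_Ico_eq_sum_range]

theorem f1_wc_nonneg (h : Hyp D) (S : CSys D C K Δ τ T) {s : ℝ} (hs : 0 ≤ s) (v : ℕ → G)
    (k : ℕ → Option C) (i j : ℕ) : 0 ≤ wc S s v k i j := by
  unfold wc
  exact Finset.sum_nonneg fun l _ => f1_stp_nonneg h S hs _ _ _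

theorem f1_bdd (h : Hyp D) (S : CSys D C K Δ τ T) {s : ℝ} (hs : 0 ≤ s) (x y : G) :
    BddBelow {t | ∃ (N : ℕ) (v : ℕ → G) (k : ℕ → Option C),
    v 0 = x ∧ v N = y ∧ IsWk S N v k ∧ t = wc S s v k 0 N} := by
  refine ⟨0, ?_⟩
  rintro t ⟨N, v, k, _, _, _, rfl⟩
  exact f1_wc_nonneg h S hs _ _ _ _

theorem f1_dd_le (h : Hyp D) (S : CSys D C K Δ τ T) {s : ℝ} (hs : 0 ≤ s) {N : ℕ} {v : ℕ → G}
    {k : ℕ → Option C} (hw : IsWk S N v k) : dd S s (v 0) (v N) ≤ wc S s v k 0 N :=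
  csInf_le (f1_bdd h S hs _ _) ⟨N, v, k, rfl, rfl, hw, rfl⟩

theorem f1_single (S : CSys D C K Δ τ T) (s : ℝ) {k : Option C} {x y : G} (hk : StpOk S k x y) :
    IsWk S 1 (fun i => if i = 0 then x else y) (fun _ => k) ∧
    wc S s (fun i => if i = 0 then x else y) (fun _ => k) 0 1 = stp S s k x y := by
  constructor
  · intro i hi
    have : i = 0 := by omega
    subst this
    simpa using hk
  · rw [f1_wc_range]
    simp

theorem f1_ok_none (S : CSys D C K Δ τ T) (x y : G) : StpOk S none x y := by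
  intro c hc
  exact absurd hc (by simp)

theorem f1_nonempty (S : CSys D C K Δ τ T) (s : ℝ) (x y : G) :
    {t | ∃ (N : ℕ) (v : ℕ → G) (k : ℕ → Option C),
    v 0 = x ∧ v N = y ∧ IsWk S N v k ∧ t = wc S s v k 0 N}.Nonempty := by
  obtain ⟨h1, h2⟩ := f1_single S s (f1_ok_none S x y)
  exact ⟨_, 1, _, _, by simp, by simp, h1, rfl⟩

theorem f1_exists (S : CSys D C K Δ τ T) (s : ℝ) (x y : G) {ε : ℝ} (hε : 0 < ε) :
    ∃ (N : ℕ) (v : ℕ → G) (k : ℕ → Option C),
    v 0 = x ∧ v N = y ∧ IsWk S N v k ∧ wc S s v k 0 N < dd S s x y + ε := by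
  have h1 : sInf {t | ∃ (N : ℕ) (v : ℕ → G) (k : ℕ → Option C),
    v 0 = x ∧ v N = y ∧ IsWk S N v k ∧ t = wc S s v k 0 N} < dd S s x y + ε := by
    have : dd S s x y < dd S s x y + ε := by linarith
    exact this
  obtain ⟨t, ⟨N, v, k, h0, h2, h3, rfl⟩, ht⟩ := exists_lt_of_csInf_lt (f1_nonempty S s x y) h1
  exact ⟨N, v, k, h0, h2, h3, ht⟩

theorem dd_nonneg (h : Hyp D) (S : CSys D C K Δ τ T) {s : ℝ} (hs : 0 ≤ s) (x y : G) : 0 ≤ dd S s x y := by
  refine le_csInf (f1_nonempty S s x y) ?_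
  rintro t ⟨N, v, k, _, _, _, rfl⟩
  exact f1_wc_nonneg h S hs _ _ _ _

theorem dd_self (h : Hyp D) (S : CSys D C K Δ τ T) {s : ℝ} (hs : 0 ≤ s) (x : G) : dd S s x x = 0 := by
  refine le_antisymm ?_ (dd_nonneg h S hs x x)
  have h1 : IsWk S 0 (fun _ => x) (fun _ => none) := by
    intro i hi
    exact absurd hi (by omega)
  have h2 := f1_dd_le h S hs h1
  have h3 : wc S s (fun _ : ℕ => x) (fun _ => (none : Option C)) 0 0 = 0 := by
    unfold wc
    simp
  rw [h3] at h2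
  exact h2

theorem f1_symm_le (h : Hyp D) (S : CSys D C K Δ τ T) {s : ℝ} (hs : 0 ≤ s) (x y : G) :
    dd S s x y ≤ dd S s y x := by
  refine le_of_forall_pos_le_add fun ε hε => ?_
  obtain ⟨N, v, k, h0, hN, hw, hc⟩ := f1_exists S s y x hε
  have hw' : IsWk S N (fun i => v (N - i)) (fun i => k (N - 1 - i)) := by
    intro i hi c hk
    have h1 := hw (N - 1 - i) (by omega) c hk
    have e1 : N - 1 - i + 1 = N - i := by omega
    have e2 : N - (i + 1) = N - 1 - i := by omega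
    rw [e1] at h1
    show S.r c (v (N - i)) ≤ K ∧ S.r c (v (N - (i + 1))) ≤ K
    rw [e2]
    exact ⟨h1.2, h1.1⟩
  have h1 := f1_dd_le h S hs hw'
  have e : wc S s (fun i => v (N - i)) (fun i => k (N - 1 - i)) 0 N = wc S s v k 0 N := by
    rw [f1_wc_range, f1_wc_range]
    simp only [Nat.sub_zero, Nat.zero_add]
    rw [← Finset.sum_range_reflect]
    refine Finset.sum_congr rfl fun j hj => ?_
    have hj' := Finset.mem_range.mp hj
    have e1 : N - 1 - (N - 1 - j) = j := by omega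
    have e2 : N - (N - 1 - j) = j + 1 := by omega
    have e3 : N - (N - 1 - j + 1) = j := by omega
    rw [e1, e2, e3]
    exact f1_stp_symm h S s _ _ _
  simp only [Nat.sub_zero, Nat.sub_self] at h1
  rw [h0, hN] at h1
  linarith

theorem dd_symm (h : Hyp D) (S : CSys D C K Δ τ T) {s : ℝ} (hs : 0 ≤ s) (x y : G) :
    dd S s x y = dd S s y x :=
  le_antisymm (f1_symm_le h S hs x y) (f1_symm_le h S hs y x)

theorem dd_tri (h : Hyp D) (S : CSys D C K Δ τ T) {s : ℝ} (hs : 0 ≤ s) (x y z : G) :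
    dd S s x z ≤ dd S s x y + dd S s y z := by
  refine le_of_forall_pos_le_add fun ε hε => ?_
  obtain ⟨N, v, k, h0, hN, hw, hc⟩ := f1_exists S s x y (half_pos hε)
  obtain ⟨M, w, l, g0, gM, gw, gc⟩ := f1_exists S s y z (half_pos hε)
  set v' : ℕ → G := fun i => if i < N then v i else w (i - N) with hv'
  set k' : ℕ → Option C := fun i => if i < N then k i else l (i - N) with hk'
  have e1 : ∀ i, i ≤ N → v' i = v i := by
    intro i hi
    rcases Nat.lt_or_ge i N with hlt | hge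
    · simp [hv', hlt]
    · have : i = N := by omega
      subst this
      simp [hv', g0, hN]
  have e2 : ∀ i, v' (N + i) = w i := by
    intro i
    simp [hv']
  have e3 : ∀ i, i < N → k' i = k i := by
    intro i hi
    simp [hk', hi]
  have e4 : ∀ i, k' (N + i) = l i := by
    intro i
    simp [hk']
  have hw' : IsWk S (N + M) v' k' := by
    intro i hi
    rcases Nat.lt_or_ge i N with hlt | hge
    · rw [e1 i (by omega), e1 (i + 1) (by omega), e3 i hlt]
      exact hw i hlt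
    · obtain ⟨j, rfl⟩ := Nat.exists_eq_add_of_le hge
      rw [show N + j + 1 = N + (j + 1) by ring, e2, e2, e4]
      exact gw j (by omega)
  have h1 := f1_dd_le h S hs hw'
  have e : wc S s v' k' 0 (N + M) = wc S s v k 0 N + wc S s w l 0 M := by
    unfold wc
    rw [← Finset.sum_Ico_consecutive _ (Nat.zero_le N) (Nat.le_add_right N M)]
    congr 1
    · refine Finset.sum_congr rfl fun i hi => ?_
      have hi' := Finset.mem_Ico.mp hi
      rw [e1 i (by omega), e1 (i + 1) (by omega), e3 i hi'.2]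
    · rw [Finset.sum_Ico_eq_sum_range, Finset.sum_Ico_eq_sum_range]
      have : N + M - N = M - 0 := by omega
      rw [this]
      refine Finset.sum_congr rfl fun i hi => ?_
      rw [show N + i + 1 = N + (i + 1) by ring, e2, e2, e4]
      simp
  rw [e, e1 0 (Nat.zero_le _), e2, h0, gM] at h1
  linarith

theorem dd_le (h : Hyp D) (S : CSys D C K Δ τ T) {s : ℝ} (hs : 0 ≤ s) (x y : G) : dd S s x y ≤ D x y := by
  obtain ⟨h1, h2⟩ := f1_single S s (f1_ok_none S x y)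
  have h3 := f1_dd_le h S hs h1
  rw [h2] at h3
  simpa [stp] using h3

theorem dd_jump (h : Hyp D) (S : CSys D C K Δ τ T) {s : ℝ} (hs : 0 ≤ s) {c : C} {x y : G}
    (hx : S.r c x ≤ K) (hy : S.r c y ≤ K) : dd S s x y ≤ s := by
  have hk : StpOk S (some c) x y := by
    intro c' hc'
    have : c = c' := by simpa using hc'
    subst this
    exact ⟨hx, hy⟩
  obtain ⟨h1, h2⟩ := f1_single S s hk
  have h3 := f1_dd_le h S hs h1
  rw [h2] at h3
  simpa [stp] using h3

theorem f1_inv_le (h : Hyp D) (hi : LInv D) (S : CSys D C K Δ τ T) {s : ℝ} (hs : 0 ≤ s) (g x y : G) :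
    dd S s (g * x) (g * y) ≤ dd S s x y := by
  refine le_of_forall_pos_le_add fun ε hε => ?_
  obtain ⟨N, v, k, h0, hN, hw, hc⟩ := f1_exists S s x y hε
  have hw' : IsWk S N (fun i => g * v i) (fun i => (k i).map (g • ·)) := by
    intro i hiN c' hk
    obtain ⟨c, hc1, hc2⟩ := Option.map_eq_some_iff.mp hk
    subst hc2
    have h1 := hw i hiN c hc1
    show S.r (g • c) (g * v i) ≤ K ∧ S.r (g • c) (g * v (i + 1)) ≤ K
    rw [S.r_smul, S.r_smul]
    exact h1
  have h1 := f1_dd_le h S hs hw'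
  have e : wc S s (fun i => g * v i) (fun i => (k i).map (g • ·)) 0 N = wc S s v k 0 N := by
    unfold wc
    refine Finset.sum_congr rfl fun j _ => ?_
    cases hkj : k j with
    | none => simpa [stp, hkj] using hi g (v j) (v (j + 1))
    | some c => simp [stp, hkj]
  rw [e] at h1
  simp only [h0, hN] at h1
  linarith

theorem dd_inv (h : Hyp D) (hi : LInv D) (S : CSys D C K Δ τ T) {s : ℝ} (hs : 0 ≤ s) (g x y : G) :
    dd S s (g * x) (g * y) = dd S s x y := by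
  refine le_antisymm (f1_inv_le h hi S hs g x y) ?_
  have := f1_inv_le h hi S hs g⁻¹ (g * x) (g * y)
  simpa using this

theorem dd_le_wc (h : Hyp D) (S : CSys D C K Δ τ T) {s : ℝ} (hs : 0 ≤ s) {N : ℕ} {v : ℕ → G}
    {k : ℕ → Option C} (hw : IsWk S N v k) {i j : ℕ} (hij : i ≤ j) (hj : j ≤ N) :
    dd S s (v i) (v j) ≤ wc S s v k i j := by
  have hw' : IsWk S (j - i) (fun l => v (i + l)) (fun l => k (i + l)) := by
    intro l hl
    have := hw (i + l) (by omega)
    exact this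
  have h1 := f1_dd_le h S hs hw'
  have e : wc S s (fun l => v (i + l)) (fun l => k (i + l)) 0 (j - i) = wc S s v k i j := by
    rw [f1_wc_range, f1_wc_range]
    simp only [Nat.sub_zero, Nat.zero_add]
    rfl
  rw [e] at h1
  simpa [Nat.add_sub_cancel' hij] using h1

theorem wc_nonneg (h : Hyp D) (S : CSys D C K Δ τ T) {s : ℝ} (hs : 0 ≤ s) (v : ℕ → G)
    (k : ℕ → Option C) (i j : ℕ) : 0 ≤ wc S s v k i j := f1_wc_nonneg h S hs v k i j

theorem wc_add (S : CSys D C K Δ τ T) (s : ℝ) (v : ℕ → G) (k : ℕ → Option C) {i j l : ℕ} (hij : i ≤ j)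
    (hjl : j ≤ l) : wc S s v k i l = wc S s v k i j + wc S s v k j l := by
  unfold wc
  exact (Finset.sum_Ico_consecutive _ hij hjl).symm

/-- every point is close to the axis of a cone -/
theorem exists_proj (S : CSys D C K Δ τ T) (c : C) (x : G) :
    ∃ p, S.r c p ≤ K ∧ |S.u c p - S.u c x| ≤ K ∧ D x p ≤ S.r c x + 3 * K := by
  obtain ⟨p, hp, hu⟩ := S.dense c (S.u c x)
  refine ⟨p, hp, hu, ?_⟩
  have h1 := S.upper c x p
  rw [abs_sub_comm] at h1
  linarith

theorem f1_ec_bdd (h : Hyp D) (S : CSys D C K Δ τ T) {s : ℝ} (hs : 0 ≤ s) (x : G) (c : C) :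
    BddBelow {t | ∃ p, S.r c p ≤ K ∧ t = dd S s x p + s / 2} := by
  refine ⟨0, ?_⟩
  rintro t ⟨p, _, rfl⟩
  have := dd_nonneg h S hs x p
  linarith

theorem f1_ec_nonempty (S : CSys D C K Δ τ T) (s : ℝ) (x : G) (c : C) :
    {t | ∃ p, S.r c p ≤ K ∧ t = dd S s x p + s / 2}.Nonempty := by
  obtain ⟨p, hp, _⟩ := S.dense c 0
  exact ⟨_, p, hp, rfl⟩

theorem f1_ec_exists (S : CSys D C K Δ τ T) (s : ℝ) (x : G) (c : C) {ε : ℝ} (hε : 0 < ε) :
    ∃ p, S.r c p ≤ K ∧ dd S s x p + s / 2 < ec S s x c + ε := by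
  have h1 : sInf {t | ∃ p, S.r c p ≤ K ∧ t = dd S s x p + s / 2} < ec S s x c + ε := by
    have : ec S s x c < ec S s x c + ε := by linarith
    exact this
  obtain ⟨t, ⟨p, hp, rfl⟩, ht⟩ := exists_lt_of_csInf_lt (f1_ec_nonempty S s x c) h1
  exact ⟨p, hp, ht⟩

theorem ec_ge (h : Hyp D) (S : CSys D C K Δ τ T) {s : ℝ} (hs : 0 ≤ s) (x : G) (c : C) : s / 2 ≤ ec S s x c := by
  refine le_csInf (f1_ec_nonempty S s x c) ?_
  rintro t ⟨p, _, rfl⟩
  have := dd_nonneg h S hs x p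
  linarith

theorem ec_le_of (h : Hyp D) (S : CSys D C K Δ τ T) {s : ℝ} (hs : 0 ≤ s) {x p : G} {c : C}
    (hp : S.r c p ≤ K) : ec S s x c ≤ dd S s x p + s / 2 :=
  csInf_le (f1_ec_bdd h S hs x c) ⟨p, hp, rfl⟩

theorem ec_le (h : Hyp D) (S : CSys D C K Δ τ T) {s : ℝ} (hs : 0 ≤ s) (x : G) (c : C) :
    ec S s x c ≤ S.r c x + 3 * K + s / 2 := by
  obtain ⟨p, hp, _, hd⟩ := exists_proj S c x
  have h1 := ec_le_of h S hs (x := x) hp
  have h2 := dd_le h S hs x p
  linarith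

theorem ec_lip (h : Hyp D) (S : CSys D C K Δ τ T) {s : ℝ} (hs : 0 ≤ s) (x y : G) (c : C) :
    ec S s x c ≤ dd S s x y + ec S s y c := by
  refine le_of_forall_pos_le_add fun ε hε => ?_
  obtain ⟨p, hp, hd⟩ := f1_ec_exists S s y c hε
  have h1 := ec_le_of h S hs (x := x) hp
  have h2 := dd_tri h S hs x y p
  linarith

theorem dd_le_ec (h : Hyp D) (S : CSys D C K Δ τ T) {s : ℝ} (hs : 0 ≤ s) (x y : G) (c : C) :
    dd S s x y ≤ ec S s x c + ec S s y c := by
  refine le_of_forall_pos_le_add fun ε hε => ?_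
  obtain ⟨p, hp, hd⟩ := f1_ec_exists S s x c (half_pos hε)
  obtain ⟨q, hq, hd'⟩ := f1_ec_exists S s y c (half_pos hε)
  have h1 := dd_tri h S hs x p y
  have h2 := dd_tri h S hs p q y
  have h3 := dd_jump h S hs hp hq
  have h4 := dd_symm h S hs q y
  linarith

theorem f1_ec_inv_le (h : Hyp D) (hi : LInv D) (S : CSys D C K Δ τ T) {s : ℝ} (hs : 0 ≤ s) (g x : G) (c : C) :
    ec S s (g * x) (g • c) ≤ ec S s x c := by
  refine le_of_forall_pos_le_add fun ε hε => ?_
  obtain ⟨p, hp, hd⟩ := f1_ec_exists S s x c hε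
  have hp' : S.r (g • c) (g * p) ≤ K := by
    rw [S.r_smul]
    exact hp
  have h1 := ec_le_of h S hs (x := g * x) hp'
  rw [dd_inv h hi S hs] at h1
  linarith

theorem ec_inv (h : Hyp D) (hi : LInv D) (S : CSys D C K Δ τ T) {s : ℝ} (hs : 0 ≤ s) (g x : G) (c : C) :
    ec S s (g * x) (g • c) = ec S s x c := by
  refine le_antisymm (f1_ec_inv_le h hi S hs g x c) ?_
  have := f1_ec_inv_le h hi S hs g⁻¹ (g * x) (g • c)
  simpa using this

theorem f1_ecc_bdd (h : Hyp D) (S : CSys D C K Δ τ T) {s : ℝ} (hs : 0 ≤ s) (b c : C) :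
    BddBelow {t | ∃ p, S.r b p ≤ K ∧ t = ec S s p c + s / 2} := by
  refine ⟨0, ?_⟩
  rintro t ⟨p, _, rfl⟩
  have := ec_ge h S hs p c
  linarith

theorem f1_ecc_nonempty (S : CSys D C K Δ τ T) (s : ℝ) (b c : C) :
    {t | ∃ p, S.r b p ≤ K ∧ t = ec S s p c + s / 2}.Nonempty := by
  obtain ⟨p, hp, _⟩ := S.dense b 0
  exact ⟨_, p, hp, rfl⟩

theorem f1_ecc_exists (S : CSys D C K Δ τ T) (s : ℝ) (b c : C) {ε : ℝ} (hε : 0 < ε) :
    ∃ p, S.r b p ≤ K ∧ ec S s p c + s / 2 < ecc S s b c + ε := by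
  have h1 : sInf {t | ∃ p, S.r b p ≤ K ∧ t = ec S s p c + s / 2} < ecc S s b c + ε := by
    have : ecc S s b c < ecc S s b c + ε := by linarith
    exact this
  obtain ⟨t, ⟨p, hp, rfl⟩, ht⟩ := exists_lt_of_csInf_lt (f1_ecc_nonempty S s b c) h1
  exact ⟨p, hp, ht⟩

theorem f1_ecc_le_of (h : Hyp D) (S : CSys D C K Δ τ T) {s : ℝ} (hs : 0 ≤ s) {b c : C} {p : G}
    (hp : S.r b p ≤ K) : ecc S s b c ≤ ec S s p c + s / 2 :=
  csInf_le (f1_ecc_bdd h S hs b c) ⟨p, hp, rfl⟩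

theorem ecc_ge (h : Hyp D) (S : CSys D C K Δ τ T) {s : ℝ} (hs : 0 ≤ s) (b c : C) : s ≤ ecc S s b c := by
  refine le_csInf (f1_ecc_nonempty S s b c) ?_
  rintro t ⟨p, _, rfl⟩
  have := ec_ge h S hs p c
  linarith

theorem f1_ecc_symm_le (h : Hyp D) (S : CSys D C K Δ τ T) {s : ℝ} (hs : 0 ≤ s) (b c : C) :
    ecc S s b c ≤ ecc S s c b := by
  refine le_of_forall_pos_le_add fun ε hε => ?_
  obtain ⟨p, hp, hd⟩ := f1_ecc_exists S s c b (half_pos hε)
  obtain ⟨q, hq, hd'⟩ := f1_ec_exists S s p b (half_pos hε)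
  have h1 := f1_ecc_le_of h S hs (c := c) hq
  have h2 := ec_le_of h S hs (x := q) hp
  have h3 := dd_symm h S hs q p
  linarith

theorem ecc_symm (h : Hyp D) (S : CSys D C K Δ τ T) {s : ℝ} (hs : 0 ≤ s) (b c : C) :
    ecc S s b c = ecc S s c b :=
  le_antisymm (f1_ecc_symm_le h S hs b c) (f1_ecc_symm_le h S hs c b)

theorem ec_le_ecc (h : Hyp D) (S : CSys D C K Δ τ T) {s : ℝ} (hs : 0 ≤ s) (x : G) (b c : C) :
    ec S s x b ≤ ec S s x c + ecc S s c b := by
  refine le_of_forall_pos_le_add fun ε hε => ?_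
  obtain ⟨p, hp, hd⟩ := f1_ecc_exists S s c b (half_pos hε)
  obtain ⟨q, hq, hd'⟩ := f1_ec_exists S s x c (half_pos hε)
  have h1 := ec_lip h S hs x p b
  have h2 := dd_tri h S hs x q p
  have h3 := dd_jump h S hs hq hp
  linarith

theorem f1_ecc_inv_le (h : Hyp D) (hi : LInv D) (S : CSys D C K Δ τ T) {s : ℝ} (hs : 0 ≤ s) (g : G) (b c : C) :
    ecc S s (g • b) (g • c) ≤ ecc S s b c := by
  refine le_of_forall_pos_le_add fun ε hε => ?_
  obtain ⟨p, hp, hd⟩ := f1_ecc_exists S s b c hε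
  have hp' : S.r (g • b) (g * p) ≤ K := by
    rw [S.r_smul]
    exact hp
  have h1 := f1_ecc_le_of h S hs (c := g • c) hp'
  rw [ec_inv h hi S hs] at h1
  linarith

theorem ecc_inv (h : Hyp D) (hi : LInv D) (S : CSys D C K Δ τ T) {s : ℝ} (hs : 0 ≤ s) (g : G) (b c : C) :
    ecc S s (g • b) (g • c) = ecc S s b c := by
  refine le_antisymm (f1_ecc_inv_le h hi S hs g b c) ?_
  have := f1_ecc_inv_le h hi S hs g⁻¹ (g • b) (g • c)
  simpa using this

end Pool.Agent.helper50.BW
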