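import Pool.Agent.helper50.BW.F1
/-! ## BW-F2 reduced almost optimal walks (uses F1)
exists_walk: among the walks from x to y with cost < B take one with the least number N of steps
(Nat.find).  Two consecutive ordinary steps could be merged (tri); if the cone c occurs in jumps i < j, the
part between v i and v (j+1) could be replaced by one jump: fewer steps, cost not larger.
count: among any two consecutive steps one is a jump of cost s, so wc i j ≥ s·⌊(j-i)/2⌋. -/
namespace Pool.Agent.helper50.BW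
open Sum
variable {G : Type} [Group G] {D : G → G → ℝ} {C : Type} [MulAction G C] {K Δ τ T : ℝ}

private theorem f2_stp_nonneg (h : Hyp D) (S : CSys D C K Δ τ T) {s : ℝ} (hs : 0 ≤ s)
    (k : Option C) (x y : G) : 0 ≤ stp S s k x y := by
  cases k with
  | none => exact h.nonneg x y
  | some c => exact hs

private theorem f2_wc_succ (S : CSys D C K Δ τ T) (s : ℝ) (v : ℕ → G) (k : ℕ → Option C) (i : ℕ) :
    wc S s v k i (i + 1) = stp S s (k i) (v i) (v (i + 1)) := by
  unfold wc
  rw [Nat.Ico_succ_singleton, Finset.sum_singleton]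

private theorem f2_wc_shift (S : CSys D C K Δ τ T) (s : ℝ) {v w : ℕ → G} {k l : ℕ → Option C}
    {i j n : ℕ} (hv : ∀ t, i ≤ t → t ≤ j → w (t + n) = v t) (hk : ∀ t, i ≤ t → t < j →
      l (t + n) = k t) : wc S s w l (i + n) (j + n) = wc S s v k i j := by
  unfold wc
  rw [← Finset.sum_Ico_add']
  apply Finset.sum_congr rfl
  intro t ht
  rw [Finset.mem_Ico] at ht
  rw [hk t ht.1 ht.2, hv t ht.1 ht.2.le, show t + n + 1 = (t + 1) + n by ring,
    hv (t + 1) (by omega) (by omega)]

/-- replace the part between `v i` and `v j` by one step -/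
private theorem f2_splice (S : CSys D C K Δ τ T) (s : ℝ) {N : ℕ} {v : ℕ → G} {k : ℕ → Option C}
    (hw : IsWk S N v k) {i j : ℕ} (hij : i < j) (hj : j ≤ N) {κ : Option C}
    (hκ : StpOk S κ (v i) (v j)) :
    ∃ (M : ℕ) (v' : ℕ → G) (k' : ℕ → Option C), M + (j - i) = N + 1 ∧ v' 0 = v 0 ∧ v' M = v N ∧
      IsWk S M v' k' ∧
      wc S s v' k' 0 M = wc S s v k 0 i + stp S s κ (v i) (v j) + wc S s v k j N := by
  obtain ⟨δ, rfl⟩ : ∃ δ, j = i + 1 + δ := ⟨j - (i + 1), by omega⟩
  obtain ⟨b, rfl⟩ : ∃ b, N = i + 1 + δ + b := ⟨N - (i + 1 + δ), by omega⟩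
  set v' : ℕ → G := fun t => if t ≤ i then v t else v (t + δ) with hv'
  set k' : ℕ → Option C := fun t => if t < i then k t else if t = i then κ else k (t + δ) with hk'
  have v1 : ∀ t ≤ i, v' t = v t := fun t ht => by simp [hv', ht]
  have v2 : ∀ t, i + 1 ≤ t → v' t = v (t + δ) := fun t ht => by
    simp only [hv']
    rw [if_neg (by omega)]
  have k1 : ∀ t < i, k' t = k t := fun t ht => by simp [hk', ht]
  have k2 : k' i = κ := by simp [hk']
  have k3 : ∀ t, i + 1 ≤ t → k' t = k (t + δ) := fun t ht => by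
    simp only [hk']
    rw [if_neg (by omega), if_neg (by omega)]
  refine ⟨i + 1 + b, v', k', by omega, v1 0 (Nat.zero_le _), ?_, ?_, ?_⟩
  · rw [v2 _ (by omega)]
    congr 1
    ring
  · intro t ht
    rcases lt_trichotomy t i with h1 | h1 | h1
    · rw [k1 t h1, v1 t h1.le, v1 (t + 1) (by omega)]
      exact hw t (by omega)
    · subst h1
      rw [k2, v1 t le_rfl, v2 (t + 1) le_rfl]
      exact hκ
    · rw [k3 t (by omega), v2 t (by omega), v2 (t + 1) (by omega),
        show t + 1 + δ = t + δ + 1 by ring]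
      exact hw (t + δ) (by omega)
  · rw [wc_add S s v' k' (Nat.zero_le (i + 1)) (by omega : i + 1 ≤ i + 1 + b),
      wc_add S s v' k' (Nat.zero_le i) (Nat.le_succ i), f2_wc_succ, k2, v1 i le_rfl,
      v2 (i + 1) le_rfl]
    congr 1
    · congr 1
      have := f2_wc_shift S s (v := v') (w := v) (k := k') (l := k) (i := 0) (j := i) (n := 0)
        (fun t _ ht => (v1 t ht).symm) (fun t _ ht => (k1 t ht).symm)
      simpa using this.symm
    · have := f2_wc_shift S s (v := v') (w := v) (k := k') (l := k) (i := i + 1)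
        (j := i + 1 + b) (n := δ) (fun t ht _ => (v2 t ht).symm) (fun t ht _ => (k3 t ht).symm)
      rw [← this]
      congr 1
      ring

theorem exists_walk (h : Hyp D) (S : CSys D C K Δ τ T) {s : ℝ} (hs : 0 < s) {x y : G} {B : ℝ}
    (hB : dd S s x y < B) :
    ∃ (N : ℕ) (v : ℕ → G) (k : ℕ → Option C), v 0 = x ∧ v N = y ∧ IsWk S N v k ∧ wc S s v k 0 N < B ∧
      NoDD N k ∧ ∀ i j c, i < j → j < N → k i = some c → k j ≠ some c := by
  classical
  have hne : {t | ∃ (N : ℕ) (v : ℕ → G) (k : ℕ → Option C),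
      v 0 = x ∧ v N = y ∧ IsWk S N v k ∧ t = wc S s v k 0 N}.Nonempty := by
    refine ⟨_, 1, fun n => if n = 0 then x else y, fun _ => none, ?_, ?_, ?_, rfl⟩
    · simp
    · simp
    · intro i _ c hc
      cases hc
  have hP : ∃ N : ℕ, ∃ (v : ℕ → G) (k : ℕ → Option C), v 0 = x ∧ v N = y ∧ IsWk S N v k ∧
      wc S s v k 0 N < B := by
    obtain ⟨t, ⟨N, v, k, h0, hN, hw, rfl⟩, ht⟩ := exists_lt_of_csInf_lt hne hB
    exact ⟨N, v, k, h0, hN, hw, ht⟩
  obtain ⟨v, k, h0, hN, hw, hc⟩ := Nat.find_spec hP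
  have hmin := fun m hm => Nat.find_min hP (m := m) hm
  set N := Nat.find hP with hNdef
  have key : ∀ (i j : ℕ) (κ : Option C), i < j → j ≤ N → i + 2 ≤ j → StpOk S κ (v i) (v j) →
      stp S s κ (v i) (v j) ≤ wc S s v k i j → False := by
    intro i j κ hij hj h2 hκ hle
    obtain ⟨M, v', k', hM, e0, eM, hw', hc'⟩ := f2_splice S s hw hij hj hκ
    apply hmin M (by omega)
    refine ⟨v', k', e0.trans h0, eM.trans hN, hw', ?_⟩
    have e1 := wc_add S s v k (Nat.zero_le i) (hij.le.trans hj)
    have e2 := wc_add S s v k hij.le hj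
    rw [hc']
    linarith
  refine ⟨N, v, k, h0, hN, hw, hc, ?_, ?_⟩
  · rintro i hi ⟨hk1, hk2⟩
    refine key i (i + 2) none (by omega) (by omega) le_rfl (fun c hc => by cases hc) ?_
    rw [wc_add S s v k (Nat.le_succ i) (Nat.le_succ (i + 1)), f2_wc_succ, f2_wc_succ, hk1, hk2]
    exact h.tri _ _ _
  · intro i j c hij hj hi hj'
    refine key i (j + 1) (some c) (by omega) (by omega) (by omega) ?_ ?_
    · intro c' hc'
      cases hc'
      exact ⟨(hw i (by omega) c hi).1, (hw j hj c hj').2⟩
    · rw [wc_add S s v k (Nat.le_succ i) (by omega : i + 1 ≤ j + 1), f2_wc_succ, hi]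
      have := wc_nonneg h S hs.le v k (i + 1) (j + 1)
      change s ≤ s + _
      linarith

theorem count (h : Hyp D) (S : CSys D C K Δ τ T) {s : ℝ} (hs : 0 < s) {N : ℕ} {v : ℕ → G}
    {k : ℕ → Option C} (hn : NoDD N k) {i j : ℕ} (hij : i ≤ j) (hj : j ≤ N) :
    ((j : ℝ) - i) * s ≤ 2 * wc S s v k i j + s := by
  obtain ⟨n, rfl⟩ : ∃ n, j = i + n := ⟨j - i, by omega⟩
  clear hij
  induction n using Nat.strong_induction_on generalizing i with
  | _ n ih =>
    match n, ih, hj with
    | 0, _, _ =>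
      have := wc_nonneg h S hs.le v k i (i + 0)
      push_cast
      nlinarith
    | 1, _, _ =>
      have := wc_nonneg h S hs.le v k i (i + 1)
      push_cast
      nlinarith
    | n + 2, ih, hj =>
      have h1 := ih n (by omega) (i := i + 2) (by omega)
      rw [show i + (n + 2) = i + 2 + n by ring] at hj ⊢
      rw [wc_add S s v k (by omega : i ≤ i + 2) (by omega : i + 2 ≤ i + 2 + n)]
      have h2 : s ≤ wc S s v k i (i + 2) := by
        rw [wc_add S s v k (Nat.le_succ i) (Nat.le_succ (i + 1)), f2_wc_succ, f2_wc_succ]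
        have h3 := f2_stp_nonneg h S hs.le (k i) (v i) (v (i + 1))
        have h4 := f2_stp_nonneg h S hs.le (k (i + 1)) (v (i + 1)) (v (i + 1 + 1))
        have h5 := hn i (by omega)
        rcases hki : k i with _ | c
        · rcases hki1 : k (i + 1) with _ | c
          · exact absurd ⟨hki, hki1⟩ h5
          · rw [hki] at h3
            change s ≤ _ + s
            linarith
        · rw [hki] at h3
          change s ≤ s + _
          linarith
      push_cast at h1 ⊢
      nlinarith

/-- concatenation of three walks (used for polygons) -/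
theorem concat (S : CSys D C K Δ τ T) (s : ℝ) {N M : ℕ} {v w : ℕ → G} {k l : ℕ → Option C}
    (hv : IsWk S N v k) (hw : IsWk S M w l) (hvw : v N = w 0) :
    ∃ (z : ℕ → G) (m : ℕ → Option C), IsWk S (N + M) z m ∧ (∀ i ≤ N, z i = v i) ∧ (∀ i < N, m i = k i) ∧
      (∀ i ≤ M, z (N + i) = w i) ∧ (∀ i < M, m (N + i) = l i) ∧
      wc S s z m 0 (N + M) = wc S s v k 0 N + wc S s w l 0 M := by
  set z : ℕ → G := fun i => if i < N then v i else w (i - N) with hz
  set m : ℕ → Option C := fun i => if i < N then k i else l (i - N) with hm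
  have z1 : ∀ i ≤ N, z i = v i := by
    intro i hi
    rcases hi.lt_or_eq with h | h
    · simp [hz, h]
    · subst h
      simp [hz, hvw]
  have z2 : ∀ i, z (N + i) = w i := by
    intro i
    simp [hz]
  have m1 : ∀ i < N, m i = k i := fun i hi => by simp [hm, hi]
  have m2 : ∀ i, m (N + i) = l i := fun i => by simp [hm]
  refine ⟨z, m, ?_, z1, m1, fun i _ => z2 i, fun i _ => m2 i, ?_⟩
  · intro i hi
    by_cases h : i < N
    · rw [m1 i h, z1 i h.le, z1 (i + 1) (by omega)]
      exact hv i h
    · obtain ⟨t, rfl⟩ : ∃ t, i = N + t := ⟨i - N, by omega⟩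
      rw [m2, z2, add_assoc, z2]
      exact hw t (by omega)
  · rw [wc_add S s z m (Nat.zero_le N) (by omega : N ≤ N + M)]
    congr 1
    · have := f2_wc_shift S s (v := v) (w := z) (k := k) (l := m) (i := 0) (j := N) (n := 0)
        (fun t _ ht => z1 t ht) (fun t _ ht => m1 t ht)
      simpa using this
    · have := f2_wc_shift S s (v := w) (w := z) (k := l) (l := m) (i := 0) (j := M) (n := N)
        (fun t _ _ => by rw [add_comm]; exact z2 t) (fun t _ _ => by rw [add_comm]; exact m2 t)
      rw [← this, zero_add, add_comm N M]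

end Pool.Agent.helper50.BW
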