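import Pool.Agent.helper50.BW.F2
/-! ## BW-F3 quasiconvexity; points on a walk (uses F1, F2, A1)
qc: lower/r_lip: always D x z ≥ r_c z + |u_c z - u_c x| - 2K (r_c x ≤ K); the same for y; upper for D x y:
2 r_c z ≤ 7K + 2.  Then p = projection of z: D z p ≤ r_c z + 3K ≤ 7K, dd p x ≤ s.
subwalk: v,k an almost optimal walk u → w (cost ≤ dd u w + 1).  OnW q: q is a vertex or 2-between the ends
of an ordinary step.  For OnW q1, q2 there is a walk z,m from q1 to q2 (M steps) with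
 cost ≤ dd q1 q2 + 9, M·s ≤ 2 cost + 3 s, ordinary sides: every point 2-between the ends is within 27 of an
 OnW point; jumps: the initial vertex is OnW.
Proof: say q1 is on step i or the vertex v i, q2 on step j, i < j: q1 → v_{i+1} → ... → v_j → q2.
 cost γ ≥ dd u q1 + cost(q1→q2) + dd q2 w - 4 and cost γ ≤ dd u q1 + dd q1 q2 + dd q2 w + 1.
 A point 2-between q1, v_{i+1} is 4-between v_i, v_{i+1}: snap (≤ 15).  Same ordinary step, D v_i q1 ≤ D v_i q2:
 one ordinary step q1 → q2; near2: D q1 q2 ≤ D v_i q2 - D v_i q1 + 6, cost ≤ dd q1 q2 + 9; points 2-between q1,q2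
 are 10-between v_i, v_{i+1}: snap (≤ 27).  Vertices are special cases.  Other order: reverse the walk.
 (NoDD for the middle part gives the count; the two end steps are ordinary.) -/
namespace Pool.Agent.helper50.BW
open Sum
variable {G : Type} [Group G] {D : G → G → ℝ} {C : Type} [MulAction G C] {K Δ τ T : ℝ}

private theorem f3_low (S : CSys D C K Δ τ T) {c : C} {x z : G}
    (hx : S.r c x ≤ K) : S.r c z + |S.u c z - S.u c x| - 2 * K ≤ D x z := by
  have hr := S.r_nonneg c x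
  by_cases hu : K ≤ |S.u c x - S.u c z|
  · have h1 := S.lower c x z hu
    rw [abs_sub_comm] at h1
    linarith
  · push Not at hu
    rw [abs_sub_comm] at hu
    have h1 := (abs_le.mp (S.r_lip c x z)).1
    linarith

theorem qc (h : Hyp D) (S : CSys D C K Δ τ T) (hK : 2 ≤ K) {c : C} {x z y : G} (hx : S.r c x ≤ K)
    (hy : S.r c y ≤ K) (hz : Btw D 2 x z y) : S.r c z ≤ 4 * K := by
  have h1 := f3_low S (z := z) hx
  have h2 := f3_low S (z := z) hy
  have h3 := S.upper c x y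
  have h4 : |S.u c x - S.u c y| ≤ |S.u c z - S.u c x| + |S.u c z - S.u c y| := by
    rw [abs_sub_comm (S.u c z) (S.u c x)]
    exact abs_sub_le _ _ _
  have h5 : D x z + D z y ≤ D x y + 2 := hz
  rw [h.symm z y] at h5
  linarith

theorem qc_dd (h : Hyp D) (S : CSys D C K Δ τ T) (hK : 2 ≤ K) {s : ℝ} (hs : 0 ≤ s) {c : C} {x z y : G}
    (hx : S.r c x ≤ K) (hy : S.r c y ≤ K) (hz : Btw D 2 x z y) : dd S s z x ≤ s + 7 * K := by
  have h1 := qc h S hK hx hy hz
  obtain ⟨p, hp1, hp2, hp3⟩ := exists_proj S c z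
  have h2 := dd_tri h S hs z p x
  have h3 := dd_le h S hs z p
  have h4 := dd_jump h S hs hp1 hx
  linarith

/-- q lies on the walk -/
def OnW (D : G → G → ℝ) (N : ℕ) (v : ℕ → G) (k : ℕ → Option C) (q : G) : Prop :=
  (∃ i ≤ N, q = v i) ∨ ∃ i < N, k i = none ∧ Btw D 2 (v i) q (v (i + 1))

private theorem f3_wc_succ (S : CSys D C K Δ τ T) (s : ℝ) (v : ℕ → G) (k : ℕ → Option C) (i : ℕ) :
    wc S s v k i (i + 1) = stp S s (k i) (v i) (v (i + 1)) := by
  unfold wc
  rw [Nat.Ico_succ_singleton, Finset.sum_singleton]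

theorem onW_exc (h : Hyp D) (S : CSys D C K Δ τ T) {s : ℝ} (hs : 0 ≤ s) {N : ℕ} {v : ℕ → G}
    {k : ℕ → Option C} (hw : IsWk S N v k) {q : G} (hq : OnW D N v k q) :
    dd S s (v 0) q + dd S s q (v N) ≤ wc S s v k 0 N + 2 := by
  rcases hq with ⟨i, hi, rfl⟩ | ⟨i, hi, hk, hb⟩
  · have h1 := dd_le_wc h S hs hw (Nat.zero_le i) hi
    have h2 := dd_le_wc h S hs hw hi le_rfl
    rw [wc_add S s v k (Nat.zero_le i) hi]
    linarith
  · have h1 := dd_le_wc h S hs hw (Nat.zero_le i) hi.le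
    have h2 := dd_le_wc h S hs hw (show i + 1 ≤ N from hi) le_rfl
    rw [wc_add S s v k (Nat.zero_le (i + 1)) hi, wc_add S s v k (Nat.zero_le i) (Nat.le_succ i),
      f3_wc_succ, hk]
    change _ ≤ _ + D (v i) (v (i + 1)) + _ + 2
    have h3 := dd_tri h S hs (v 0) (v i) q
    have h4 := dd_tri h S hs q (v (i + 1)) (v N)
    have h5 := dd_le h S hs (v i) q
    have h6 := dd_le h S hs q (v (i + 1))
    have h7 : D (v i) q + D q (v (i + 1)) ≤ D (v i) (v (i + 1)) + 2 := hb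
    linarith

/-- a walk with `M` steps and cost `c` from `a` to `b` all of whose steps satisfy `P` -/
private def Pth (S : CSys D C K Δ τ T) (s : ℝ) (P : G → G → Option C → Prop) (M : ℕ) (c : ℝ)
    (a b : G) : Prop :=
  ∃ (z : ℕ → G) (m : ℕ → Option C), z 0 = a ∧ z M = b ∧ IsWk S M z m ∧ wc S s z m 0 M = c ∧
    ∀ i < M, P (z i) (z (i + 1)) (m i)

private theorem pth_nil (S : CSys D C K Δ τ T) (s : ℝ) (P : G → G → Option C → Prop) (a : G) :
    Pth S s P 0 0 a a :=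
  ⟨fun _ => a, fun _ => none, rfl, rfl, fun i hi => absurd hi (Nat.not_lt_zero i), by simp [wc],
    fun i hi => absurd hi (Nat.not_lt_zero i)⟩

private theorem pth_step (S : CSys D C K Δ τ T) (s : ℝ) (P : G → G → Option C → Prop) {a b : G}
    {κ : Option C} (h1 : StpOk S κ a b) (h2 : P a b κ) : Pth S s P 1 (stp S s κ a b) a b := by
  refine ⟨fun n => if n = 0 then a else b, fun _ => κ, rfl, rfl, ?_, ?_, ?_⟩
  · intro i hi
    obtain rfl : i = 0 := by omega
    exact h1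
  · rw [f3_wc_succ]
    rfl
  · intro i hi
    obtain rfl : i = 0 := by omega
    exact h2

private theorem pth_join (S : CSys D C K Δ τ T) (s : ℝ) (P : G → G → Option C → Prop) {a b d : G}
    {M M' : ℕ} {c c' : ℝ} (h1 : Pth S s P M c a b) (h2 : Pth S s P M' c' b d) :
    Pth S s P (M + M') (c + c') a d := by
  obtain ⟨z, m, z0, zM, hz, hc, hP⟩ := h1
  obtain ⟨z', m', z0', zM', hz', hc', hP'⟩ := h2
  obtain ⟨w, l, hw, w1, l1, w2, l2, hcw⟩ := concat S s hz hz' (zM.trans z0'.symm)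
  refine ⟨w, l, ?_, ?_, hw, ?_, ?_⟩
  · rw [w1 0 (Nat.zero_le _), z0]
  · rw [w2 M' le_rfl, zM']
  · rw [hcw, hc, hc']
  · intro i hi
    by_cases h : i < M
    · rw [w1 i h.le, w1 (i + 1) h, l1 i h]
      exact hP i h
    · obtain ⟨t, rfl⟩ : ∃ t, i = M + t := ⟨i - M, by omega⟩
      rw [w2 t (by omega), l2 t (by omega), add_assoc, w2 (t + 1) (by omega)]
      exact hP' t (by omega)

private theorem pth_mid (S : CSys D C K Δ τ T) (s : ℝ) (P : G → G → Option C → Prop) {N : ℕ}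
    {v : ℕ → G} {k : ℕ → Option C} (hw : IsWk S N v k) (hP : ∀ t < N, P (v t) (v (t + 1)) (k t))
    (a n : ℕ) (hn : a + n ≤ N) : Pth S s P n (wc S s v k a (a + n)) (v a) (v (a + n)) := by
  refine ⟨fun i => v (a + i), fun i => k (a + i), rfl, rfl, ?_, ?_, ?_⟩
  · intro i hi
    exact hw (a + i) (by omega)
  · unfold wc
    rw [show Finset.Ico a (a + n) = Finset.Ico (0 + a) (n + a) by rw [zero_add, add_comm],
      ← Finset.sum_Ico_add']
    apply Finset.sum_congr rfl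
    intro t _
    rw [add_comm t a]
    rfl
  · intro i hi
    exact hP (a + i) (by omega)

private theorem pth_rev (h : Hyp D) (S : CSys D C K Δ τ T) (s : ℝ) (P : G → G → Option C → Prop)
    (hP : ∀ x y κ, P x y κ → P y x κ) {M : ℕ} : ∀ {c : ℝ} {a b : G},
    Pth S s P M c a b → Pth S s P M c b a := by
  induction M with
  | zero =>
    rintro c a b ⟨z, m, rfl, rfl, _, hc, _⟩
    have : c = 0 := by rw [← hc]; simp [wc]
    subst this
    exact pth_nil S s P _
  | succ M ih =>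
    rintro c a b ⟨z, m, rfl, rfl, hz, hc, hPz⟩
    have h1 : Pth S s P M (wc S s z m 0 M) (z 0) (z M) :=
      ⟨z, m, rfl, rfl, fun i hi => hz i (by omega), rfl, fun i hi => hPz i (by omega)⟩
    have h2 : Pth S s P 1 (stp S s (m M) (z (M + 1)) (z M)) (z (M + 1)) (z M) := by
      apply pth_step
      · intro c' hc'
        exact (hz M (Nat.lt_succ_self M) c' hc').symm
      · exact hP _ _ _ (hPz M (Nat.lt_succ_self M))
    have h3 := pth_join S s P h2 (ih h1)
    have h4 : stp S s (m M) (z (M + 1)) (z M) + wc S s z m 0 M = c := by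
      rw [← hc, wc_add S s z m (Nat.zero_le M) (Nat.le_succ M), f3_wc_succ, add_comm]
      congr 1
      cases m M with
      | none => exact h.symm _ _
      | some c' => rfl
    rw [h4, add_comm 1 M] at h3
    exact h3

theorem subwalk (h : Hyp D) (S : CSys D C K Δ τ T) (hK : 2 ≤ K) {s : ℝ} (hs : 0 < s) {N : ℕ} {v : ℕ → G}
    {k : ℕ → Option C} (hw : IsWk S N v k) (hn : NoDD N k)
    (hopt : wc S s v k 0 N ≤ dd S s (v 0) (v N) + 1) {q₁ q₂ : G} (h1 : OnW D N v k q₁)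
    (h2 : OnW D N v k q₂) :
    ∃ (M : ℕ) (z : ℕ → G) (m : ℕ → Option C), z 0 = q₁ ∧ z M = q₂ ∧ IsWk S M z m ∧
      wc S s z m 0 M ≤ dd S s q₁ q₂ + 9 ∧ (M : ℝ) * s ≤ 2 * wc S s z m 0 M + 3 * s ∧
      (∀ i < M, m i = none → ∀ p, Btw D 2 (z i) p (z (i + 1)) → ∃ q, OnW D N v k q ∧ D p q ≤ 27) ∧
      (∀ i < M, m i ≠ none → OnW D N v k (z i)) := by
  have _ := hK
  set P : G → G → Option C → Prop := fun x y κ =>
    (κ = none → ∀ p, Btw D 2 x p y → ∃ q, OnW D N v k q ∧ D p q ≤ 27) ∧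
      (κ ≠ none → OnW D N v k x ∧ OnW D N v k y) with hPdef
  have hPsymm : ∀ x y κ, P x y κ → P y x κ := by
    rintro x y κ ⟨ha, hb⟩
    refine ⟨fun hκ p hp => ha hκ p ?_, fun hκ => (hb hκ).symm⟩
    change D x p + D p y ≤ D x y + 2
    have : D y p + D p x ≤ D y x + 2 := hp
    rw [h.symm x p, h.symm p y, h.symm x y]
    linarith
  have hPv : ∀ t < N, P (v t) (v (t + 1)) (k t) := by
    intro t ht
    refine ⟨fun hκ p hp => ⟨p, Or.inr ⟨t, ht, hκ, hp⟩, ?_⟩, fun _ =>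
      ⟨Or.inl ⟨t, ht.le, rfl⟩, Or.inl ⟨t + 1, ht, rfl⟩⟩⟩
    rw [h.refl]
    norm_num
  -- reduction to paths
  suffices hs' : ∃ (M : ℕ) (c : ℝ), Pth S s P M c q₁ q₂ ∧ c ≤ dd S s q₁ q₂ + 9 ∧
      (M : ℝ) * s ≤ 2 * c + 3 * s by
    obtain ⟨M, c, ⟨z, m, z0, zM, hz, rfl, hPz⟩, hc, hM⟩ := hs'
    exact ⟨M, z, m, z0, zM, hz, hc, hM, fun i hi => (hPz i hi).1, fun i hi hne =>
      ((hPz i hi).2 hne).1⟩
  -- starts and exits
  have hstart : ∀ {q : G} {i : ℕ}, i < N → k i = none → Btw D 2 (v i) q (v (i + 1)) →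
      Pth S s P 1 (D q (v (i + 1))) q (v (i + 1)) := by
    intro q i hi hk hb
    apply pth_step S s P (κ := none) (fun c hc => by cases hc)
    refine ⟨fun _ p hp => ?_, fun hne => absurd rfl hne⟩
    have hb' : D (v i) q + D q (v (i + 1)) ≤ D (v i) (v (i + 1)) + 2 := hb
    have hp' : D q p + D p (v (i + 1)) ≤ D q (v (i + 1)) + 2 := hp
    have h4 : Btw D 4 (v i) p (v (i + 1)) := by
      change D (v i) p + D p (v (i + 1)) ≤ D (v i) (v (i + 1)) + 4
      have := h.tri (v i) q p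
      linarith
    obtain ⟨z', hz1, hz2⟩ := h.snap (by norm_num) h4
    exact ⟨z', Or.inr ⟨i, hi, hk, hz1⟩, by linarith⟩
  have hexit : ∀ {q : G} {i : ℕ}, i < N → k i = none → Btw D 2 (v i) q (v (i + 1)) →
      Pth S s P 1 (D (v i) q) (v i) q := by
    intro q i hi hk hb
    apply pth_step S s P (κ := none) (fun c hc => by cases hc)
    refine ⟨fun _ p hp => ?_, fun hne => absurd rfl hne⟩
    have hb' : D (v i) q + D q (v (i + 1)) ≤ D (v i) (v (i + 1)) + 2 := hb
    have hp' : D (v i) p + D p q ≤ D (v i) q + 2 := hp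
    have h4 : Btw D 4 (v i) p (v (i + 1)) := by
      change D (v i) p + D p (v (i + 1)) ≤ D (v i) (v (i + 1)) + 4
      have := h.tri p q (v (i + 1))
      linarith
    obtain ⟨z', hz1, hz2⟩ := h.snap (by norm_num) h4
    exact ⟨z', Or.inr ⟨i, hi, hk, hz1⟩, by linarith⟩
  have hstartc : ∀ {q : G} {i : ℕ}, i < N → k i = none → Btw D 2 (v i) q (v (i + 1)) →
      dd S s (v 0) q + D q (v (i + 1)) ≤ wc S s v k 0 (i + 1) + 2 := by
    intro q i hi hk hb
    rw [wc_add S s v k (Nat.zero_le i) (Nat.le_succ i), f3_wc_succ, hk]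
    change _ ≤ _ + D (v i) (v (i + 1)) + 2
    have hb' : D (v i) q + D q (v (i + 1)) ≤ D (v i) (v (i + 1)) + 2 := hb
    have e1 := dd_le_wc h S hs.le hw (Nat.zero_le i) hi.le
    have e2 := dd_tri h S hs.le (v 0) (v i) q
    have e3 := dd_le h S hs.le (v i) q
    linarith
  have hexitc : ∀ {q : G} {i : ℕ}, i < N → k i = none → Btw D 2 (v i) q (v (i + 1)) →
      D (v i) q + dd S s q (v N) ≤ wc S s v k i N + 2 := by
    intro q i hi hk hb
    rw [wc_add S s v k (Nat.le_succ i) hi, f3_wc_succ, hk]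
    change _ ≤ D (v i) (v (i + 1)) + _ + 2
    have hb' : D (v i) q + D q (v (i + 1)) ≤ D (v i) (v (i + 1)) + 2 := hb
    have e1 := dd_le_wc h S hs.le hw (show i + 1 ≤ N from hi) le_rfl
    have e2 := dd_tri h S hs.le q (v (i + 1)) (v N)
    have e3 := dd_le h S hs.le q (v (i + 1))
    linarith
  -- the forward lemma
  have fwd : ∀ {q q' : G} {a b M₁ M₂ : ℕ} {c₁ c₂ : ℝ}, a ≤ b → b ≤ N →
      Pth S s P M₁ c₁ q (v a) → Pth S s P M₂ c₂ (v b) q' → M₁ ≤ 1 → M₂ ≤ 1 → 0 ≤ c₁ → 0 ≤ c₂ →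
      dd S s (v 0) q + c₁ ≤ wc S s v k 0 a + 2 → c₂ + dd S s q' (v N) ≤ wc S s v k b N + 2 →
      ∃ (M : ℕ) (c : ℝ), Pth S s P M c q q' ∧ c ≤ dd S s q q' + 9 ∧ (M : ℝ) * s ≤ 2 * c + 3 * s := by
    intro q q' a b M₁ M₂ c₁ c₂ hab hb p1 p2 hM1 hM2 hc1 hc2 e1 e2
    obtain ⟨n, rfl⟩ : ∃ n, b = a + n := ⟨b - a, by omega⟩
    have p3 := pth_mid S s P hw hPv a n hb
    refine ⟨M₁ + n + M₂, c₁ + wc S s v k a (a + n) + c₂,
      pth_join S s P (pth_join S s P p1 p3) p2, ?_, ?_⟩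
    · have g1 := wc_add S s v k (Nat.zero_le a) (hab.trans hb)
      have g2 := wc_add S s v k hab hb
      have g3 := dd_tri h S hs.le (v 0) q (v N)
      have g4 := dd_tri h S hs.le q q' (v N)
      linarith
    · have g1 := count (v := v) h S hs hn hab hb
      have g2 : (M₁ : ℝ) ≤ 1 := by exact_mod_cast hM1
      have g3 : (M₂ : ℝ) ≤ 1 := by exact_mod_cast hM2
      push_cast at g1 ⊢
      nlinarith
  have fin : ∀ {q q' : G}, (∃ (M : ℕ) (c : ℝ), Pth S s P M c q q' ∧ c ≤ dd S s q q' + 9 ∧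
      (M : ℝ) * s ≤ 2 * c + 3 * s) → ∃ (M : ℕ) (c : ℝ), Pth S s P M c q' q ∧
        c ≤ dd S s q' q + 9 ∧ (M : ℝ) * s ≤ 2 * c + 3 * s := by
    rintro q q' ⟨M, c, hp, hc, hM⟩
    exact ⟨M, c, pth_rev h S s P hPsymm hp, by rw [dd_symm h S hs.le]; exact hc, hM⟩
  -- vertex data
  have vs : ∀ i ≤ N, dd S s (v 0) (v i) + 0 ≤ wc S s v k 0 i + 2 := by
    intro i hi
    have := dd_le_wc h S hs.le hw (Nat.zero_le i) hi
    linarith
  have ve : ∀ i ≤ N, 0 + dd S s (v i) (v N) ≤ wc S s v k i N + 2 := by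
    intro i hi
    have := dd_le_wc h S hs.le hw hi le_rfl
    linarith
  -- the same step
  have same : ∀ {q q' : G} {i : ℕ}, i < N → k i = none → Btw D 2 (v i) q (v (i + 1)) →
      Btw D 2 (v i) q' (v (i + 1)) → D (v i) q ≤ D (v i) q' →
      ∃ (M : ℕ) (c : ℝ), Pth S s P M c q q' ∧ c ≤ dd S s q q' + 9 ∧ (M : ℝ) * s ≤ 2 * c + 3 * s := by
    intro q q' i hi hk hb hb' hle
    have b1 : D (v i) q + D q (v (i + 1)) ≤ D (v i) (v (i + 1)) + 2 := hb
    have b2 : D (v i) q' + D q' (v (i + 1)) ≤ D (v i) (v (i + 1)) + 2 := hb'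
    have n2 := h.near2 hb hb'
    rw [abs_sub_comm, abs_of_nonneg (sub_nonneg.mpr hle)] at n2
    refine ⟨1, D q q', ?_, ?_, ?_⟩
    · apply pth_step S s P (κ := none) (fun c hc => by cases hc)
      refine ⟨fun _ p hp => ?_, fun hne => absurd rfl hne⟩
      have hp' : D q p + D p q' ≤ D q q' + 2 := hp
      have h10 : Btw D 10 (v i) p (v (i + 1)) := by
        change D (v i) p + D p (v (i + 1)) ≤ D (v i) (v (i + 1)) + 10
        have t1 := h.tri (v i) q p
        have t2 := h.tri p q' (v (i + 1))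
        linarith
      obtain ⟨z', hz1, hz2⟩ := h.snap (by norm_num) h10
      exact ⟨z', Or.inr ⟨i, hi, hk, hz1⟩, by linarith⟩
    · have g1 := wc_add S s v k (Nat.zero_le (i + 1)) hi
      have g2 := wc_add S s v k (Nat.zero_le i) (Nat.le_succ i)
      rw [f3_wc_succ, hk] at g2
      change wc S s v k 0 (i + 1) = wc S s v k 0 i + D (v i) (v (i + 1)) at g2
      have g3 := dd_le_wc h S hs.le hw (Nat.zero_le i) hi.le
      have g4 := dd_le_wc h S hs.le hw (show i + 1 ≤ N from hi) le_rfl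
      have g5 := dd_tri h S hs.le (v 0) q (v N)
      have g6 := dd_tri h S hs.le q q' (v N)
      have g7 := dd_tri h S hs.le (v 0) (v i) q
      have g8 := dd_tri h S hs.le q' (v (i + 1)) (v N)
      have g9 := dd_le h S hs.le (v i) q
      have g10 := dd_le h S hs.le q' (v (i + 1))
      linarith
    · have := h.nonneg q q'
      push_cast
      nlinarith
  rcases h1 with ⟨i, hi, rfl⟩ | ⟨i, hi, hki, hbi⟩
  · rcases h2 with ⟨j, hj, rfl⟩ | ⟨j, hj, hkj, hbj⟩
    · rcases le_total i j with hij | hij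
      · exact fwd hij hj (pth_nil S s P _) (pth_nil S s P _) (Nat.zero_le _) (Nat.zero_le _) le_rfl
          le_rfl (vs i hi) (ve j hj)
      · exact fin (fwd hij hi (pth_nil S s P _) (pth_nil S s P _) (Nat.zero_le _) (Nat.zero_le _)
          le_rfl le_rfl (vs j hj) (ve i hi))
    · by_cases hij : i ≤ j
      · exact fwd hij hj.le (pth_nil S s P _) (hexit hj hkj hbj) (Nat.zero_le _) le_rfl le_rfl
          (h.nonneg _ _) (vs i hi) (hexitc hj hkj hbj)
      · exact fin (fwd (show j + 1 ≤ i by omega) hi (hstart hj hkj hbj) (pth_nil S s P _) le_rfl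
          (Nat.zero_le _) (h.nonneg _ _) le_rfl (hstartc hj hkj hbj) (ve i hi))
  · rcases h2 with ⟨j, hj, rfl⟩ | ⟨j, hj, hkj, hbj⟩
    · by_cases hij : i + 1 ≤ j
      · exact fwd hij hj (hstart hi hki hbi) (pth_nil S s P _) le_rfl (Nat.zero_le _)
          (h.nonneg _ _) le_rfl (hstartc hi hki hbi) (ve j hj)
      · exact fin (fwd (show j ≤ i by omega) hi.le (pth_nil S s P _) (hexit hi hki hbi)
          (Nat.zero_le _) le_rfl le_rfl (h.nonneg _ _) (vs j hj) (hexitc hi hki hbi))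
    · rcases lt_trichotomy i j with hij | hij | hij
      · exact fwd (show i + 1 ≤ j by omega) hj.le (hstart hi hki hbi) (hexit hj hkj hbj) le_rfl
          le_rfl (h.nonneg _ _) (h.nonneg _ _) (hstartc hi hki hbi) (hexitc hj hkj hbj)
      · subst hij
        rcases le_total (D (v i) q₁) (D (v i) q₂) with hle | hle
        · exact same hi hki hbi hbj hle
        · exact fin (same hi hki hbj hbi hle)
      · exact fin (fwd (show j + 1 ≤ i by omega) hi.le (hstart hj hkj hbj) (hexit hi hki hbi) le_rfl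
          le_rfl (h.nonneg _ _) (h.nonneg _ _) (hstartc hj hkj hbj) (hexitc hi hki hbi))

end Pool.Agent.helper50.BW
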