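import Pool.Agent.helper50.BW.F3
/-! ## BW-F4 the additivity lemma AL (uses F1-F3, A1; the key lemma of stage F)
s ≥ 1000 K, K ≥ 100.  γ = reduced walk from x to y with cost < dd x y + 1 (exists_walk).
Claim: every z with Btw 2 x z y satisfies ∃ q, OnW q ∧ dd z q ≤ 2s+1; see F4_claim. -/
namespace Pool.Agent.helper50.BW
open Sum
variable {G : Type} [Group G] {D : G → G → ℝ} {C : Type} [MulAction G C] {K Δ τ T : ℝ}

theorem F4_symm {X : Type} {D : X → X → ℝ} (h : Hyp D) {κ : ℝ} {x z y : X} (hz : Btw D κ x z y) :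
    Btw D κ y z x := by
  unfold Btw at *
  rw [h.symm y z, h.symm z x, h.symm y x]
  linarith

/-- walk away from z towards x until the cone-off distance from z is about X -/
theorem F4_away (h : Hyp D) (S : CSys D C K Δ τ T) {s : ℝ} (hs : 0 ≤ s) {x z y : G}
    (hz : Btw D 2 x z y) {X : ℝ} (hX : 0 ≤ X) :
    ∃ z₁, Btw D 2 x z₁ y ∧ D x z₁ ≤ D x z + 1 ∧
      ((X ≤ dd S s z z₁ ∧ dd S s z z₁ ≤ X + 10) ∨ (z₁ = x ∧ dd S s z x ≤ X + 10)) := by
  have hxz := h.nonneg x z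
  have hxy := h.nonneg x y
  have hzy := h.nonneg z y
  have hz' : D x z + D z y ≤ D x y + 2 := hz
  have ht0 : ∀ j : ℕ, 0 ≤ min (max (D x z - j) 0) (D x y) := fun j =>
    le_min (le_max_right _ _) hxy
  choose a ha1 ha2 ha3 using fun j : ℕ =>
    h.rough2 x y (min (max (D x z - j) 0) (D x y)) (ht0 j) (min_le_right _ _)
  set t : ℕ → ℝ := fun j => min (max (D x z - j) 0) (D x y) with ht
  set b : ℕ → G := fun j => if j = 0 then z else a j with hb
  have hb0 : b 0 = z := by simp [hb]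
  have hbs : ∀ j, b (j + 1) = a (j + 1) := fun j => by simp [hb]
  have hbB : ∀ j, Btw D 2 x (b j) y := by
    intro j
    rcases j with _ | j
    · rw [hb0]; exact hz
    · rw [hbs]; exact ha1 _
  have hbt1 : ∀ j, |D x (b (j + 1)) - t (j + 1)| ≤ 1 := fun j => by rw [hbs]; exact ha2 _
  have hbt : ∀ j, |D x (b j) - t j| ≤ 2 := by
    intro j
    rcases j with _ | j
    · rw [hb0]
      have : t 0 = min (D x z) (D x y) := by
        simp only [ht, Nat.cast_zero, sub_zero]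
        rw [max_eq_left hxz]
      rw [this]
      rcases min_cases (D x z) (D x y) with h1 | h1
      · rw [h1.1]; simp
      · rw [h1.1, abs_le]
        constructor <;> linarith
    · exact (hbt1 j).trans (by norm_num)
  have htt : ∀ j, |t j - t (j + 1)| ≤ 1 := by
    intro j
    simp only [ht]
    push_cast
    refine (abs_min_sub_min_le_max _ _ _ _).trans ?_
    rw [sub_self, abs_zero]
    refine max_le ((abs_max_sub_max_le_max _ _ _ _).trans ?_) zero_le_one
    rw [sub_self, abs_zero]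
    refine max_le ?_ zero_le_one
    rw [show D x z - (j : ℝ) - (D x z - (j + 1)) = 1 by ring, abs_one]
  have hstep : ∀ j, D (b j) (b (j + 1)) ≤ 10 := by
    intro j
    have h1 := h.near2 (hbB j) (hbB (j + 1))
    have h2 : |D x (b j) - D x (b (j + 1))| ≤ 4 := by
      have e : D x (b j) - D x (b (j + 1)) =
          (D x (b j) - t j) + (t j - t (j + 1)) + -(D x (b (j + 1)) - t (j + 1)) := by ring
      rw [e]
      refine (abs_add_three _ _ _).trans ?_
      rw [abs_neg]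
      have := hbt j
      have := htt j
      have := hbt1 j
      linarith
    linarith
  have hle : ∀ j, D x (b j) ≤ D x z + 1 := by
    intro j
    rcases j with _ | j
    · rw [hb0]; linarith
    · have h1 := (abs_le.1 (hbt1 j)).2
      have h2 : t (j + 1) ≤ D x z := by
        simp only [ht]
        refine (min_le_left _ _).trans (max_le ?_ hxz)
        have : (0 : ℝ) ≤ ((j + 1 : ℕ) : ℝ) := Nat.cast_nonneg _
        linarith
      linarith
  by_cases hex : ∃ j, X ≤ dd S s z (b j)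
  · classical
    have hj := Nat.find_spec hex
    set j := Nat.find hex with hjdef
    refine ⟨b j, hbB j, hle j, Or.inl ⟨hj, ?_⟩⟩
    rcases Nat.eq_zero_or_pos j with h0 | h0
    · rw [h0, hb0, dd_self h S hs]
      linarith
    · obtain ⟨i, hi⟩ := Nat.exists_eq_succ_of_ne_zero h0.ne'
      have hlt : dd S s z (b i) < X := by
        have := Nat.find_min hex (m := i) (by rw [← hjdef, hi]; exact Nat.lt_succ_self i)
        exact not_le.1 this
      rw [hi]
      have h1 := dd_tri h S hs z (b i) (b (i + 1))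
      have h2 := dd_le h S hs (b i) (b (i + 1))
      have h3 := hstep i
      show dd S s z (b (i + 1)) ≤ X + 10
      linarith
  · push Not at hex
    refine ⟨x, ?_, ?_, Or.inr ⟨rfl, ?_⟩⟩
    · show D x x + D x y ≤ D x y + 2
      rw [h.refl]; linarith
    · rw [h.refl]; linarith
    · obtain ⟨j, hj⟩ := exists_nat_ge (D x z)
      have h1 : t j = 0 := by
        simp only [ht]
        rw [max_eq_right (by linarith), min_eq_left hxy]
      have h2 := (abs_le.1 (hbt j)).2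
      rw [h1] at h2
      have h3 := dd_tri h S hs z (b j) x
      have h4 := dd_le h S hs (b j) x
      rw [h.symm] at h4
      have h5 := hex j
      linarith

/-- one walk with a point near a side: distances to the endpoints -/
theorem F4_side (h : Hyp D) (S : CSys D C K Δ τ T) (hK : 2 ≤ K) {s : ℝ} (hs : 0 ≤ s) {N : ℕ}
    {v : ℕ → G} {k : ℕ → Option C} (hw : IsWk S N v k) {i : ℕ} (hi : i < N) {p : G}
    (hp : Btw D 2 (v i) p (v (i + 1))) :
    dd S s (v 0) p ≤ wc S s v k 0 N + 2 + (s + 7 * K) ∧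
      dd S s p (v N) ≤ wc S s v k 0 N + 2 + (s + 7 * K) := by
  have hsK : 0 ≤ s + 7 * K := by linarith
  have hp' : D (v i) p + D p (v (i + 1)) ≤ D (v i) (v (i + 1)) + 2 := hp
  have p1 := h.nonneg (v i) p
  have p2 := h.nonneg p (v (i + 1))
  have e1 := wc_add S s v k (Nat.zero_le i) hi.le
  have e2 := wc_add S s v k (Nat.le_succ i) (Nat.succ_le_of_lt hi)
  have n1 := wc_nonneg h S hs v k 0 i
  have n2 := wc_nonneg h S hs v k (i + 1) N
  have n3 := wc_nonneg h S hs v k i (i + 1)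
  have w1 := dd_le_wc h S hs hw (Nat.zero_le i) hi.le
  have w2 := dd_le_wc h S hs hw (Nat.succ_le_of_lt hi) le_rfl
  have w3 := dd_le_wc h S hs hw hi.le le_rfl
  have e3 : wc S s v k i (i + 1) = stp S s (k i) (v i) (v (i + 1)) := by
    unfold wc
    rw [Nat.Ico_succ_singleton, Finset.sum_singleton]
  have t1 := dd_tri h S hs (v 0) (v i) p
  have t2 := dd_tri h S hs p (v (i + 1)) (v N)
  have t3 := dd_tri h S hs p (v i) (v N)
  simp only [Nat.succ_eq_add_one] at *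
  rcases hk : k i with _ | c
  · rw [hk] at e3
    have e4 : wc S s v k i (i + 1) = D (v i) (v (i + 1)) := e3
    have l1 := dd_le h S hs (v i) p
    have l2 := dd_le h S hs p (v (i + 1))
    constructor <;> linarith
  · obtain ⟨c1, c2⟩ := hw i hi c hk
    have l1 := qc_dd h S hK hs c1 c2 hp
    have l2 := dd_symm h S hs p (v i)
    constructor <;> linarith

theorem F4_claim (h : Hyp D) (S : CSys D C K Δ τ T) (hK : 100 ≤ K) {s : ℝ} (hs : 1000 * K ≤ s)
    {N : ℕ} {v : ℕ → G} {k : ℕ → Option C} (hw : IsWk S N v k) (hn : NoDD N k)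
    (hopt : wc S s v k 0 N ≤ dd S s (v 0) (v N) + 1) {z : G} (hz : Btw D 2 (v 0) z (v N)) :
    ∃ q, OnW D N v k q ∧ dd S s z q ≤ 2 * s + 1 := by
  classical
  have hs0 : 0 ≤ s := by linarith
  have hspos : 0 < s := by linarith
  have hK2 : (2 : ℝ) ≤ K := by linarith
  have hs5 : 100000 ≤ s := by linarith
  have onx : OnW D N v k (v 0) := Or.inl ⟨0, Nat.zero_le _, rfl⟩
  have ony : OnW D N v k (v N) := Or.inl ⟨N, le_rfl, rfl⟩
  have hex : ∃ R : ℕ, ∀ z, Btw D 2 (v 0) z (v N) → ∃ q, OnW D N v k q ∧ dd S s z q ≤ R := by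
    obtain ⟨R, hR⟩ := exists_nat_ge (D (v 0) (v N) + 2)
    refine ⟨R, fun z hz => ⟨v 0, onx, ?_⟩⟩
    have h1 : D (v 0) z + D z (v N) ≤ D (v 0) (v N) + 2 := hz
    have h2 := dd_le h S hs0 z (v 0)
    have h3 := h.nonneg z (v N)
    rw [h.symm] at h2
    linarith
  have hR := Nat.find_spec hex
  set R := Nat.find hex with hRdef
  suffices hsuff : (R : ℝ) ≤ 2 * s + 1 by
    obtain ⟨q, hq, hq2⟩ := hR z hz
    exact ⟨q, hq, hq2.trans hsuff⟩
  by_contra hcon
  push Not at hcon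
  have hR1 : 1 ≤ R := by
    by_contra h0
    have : R = 0 := by omega
    rw [this] at hcon
    push_cast at hcon
    linarith
  have hnot := Nat.find_min hex (m := R - 1) (by rw [← hRdef]; omega)
  push Not at hnot
  obtain ⟨z, hz, hfar⟩ := hnot
  have hRc : ((R - 1 : ℕ) : ℝ) = (R : ℝ) - 1 := by push_cast [hR1]; ring
  rw [hRc] at hfar
  -- the points z₁, z₂
  have hz' : D (v 0) z + D z (v N) ≤ D (v 0) (v N) + 2 := hz
  obtain ⟨z₁, hz1, hz1x, hz1d⟩ := F4_away h S hs0 hz (X := 2 * R) (by positivity)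
  obtain ⟨z₂, hz2, hz2y, hz2d⟩ := F4_away h S hs0 (F4_symm h hz) (X := 2 * R) (by positivity)
  have hz2' := F4_symm h hz2
  have hbtw : Btw D 20 z₁ z z₂ := by
    show D z₁ z + D z z₂ ≤ D z₁ z₂ + 20
    have a1 := h.near2 hz1 hz
    have a2 := h.near2 hz hz2'
    have a3 : D (v 0) z₂ + D z₂ (v N) ≤ D (v 0) (v N) + 2 := hz2'
    have a4 := h.tri (v 0) z₂ (v N)
    rw [h.symm (v N) z₂, h.symm (v N) z] at hz2y
    have a5 := h.tri (v 0) z₁ z₂
    have b1 : |D (v 0) z₁ - D (v 0) z| ≤ D (v 0) z - D (v 0) z₁ + 2 := by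
      rw [abs_le]; constructor <;> linarith
    have b2 : |D (v 0) z - D (v 0) z₂| ≤ D (v 0) z₂ - D (v 0) z + 6 := by
      rw [abs_le]; constructor <;> linarith
    linarith
  obtain ⟨z', hz'B, hz'D⟩ := h.snap (by norm_num) hbtw
  -- walks W1, W2, W3
  have hW1 : ∃ (N₁ : ℕ) (q₁ : G) (w : ℕ → G) (l : ℕ → Option C), OnW D N v k q₁ ∧
      w 0 = z₁ ∧ w N₁ = q₁ ∧ IsWk S N₁ w l ∧ wc S s w l 0 N₁ ≤ R + 1 ∧
      (N₁ : ℝ) * s ≤ 2 * (R + 1) + s ∧ dd S s z₁ q₁ ≤ R ∧ dd S s z z₁ ≤ 2 * R + 10 ∧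
      (0 < N₁ → 2 * (R : ℝ) ≤ dd S s z z₁) := by
    rcases hz1d with hd | hd
    · obtain ⟨q₁, hq1, hq1d⟩ := hR z₁ hz1
      obtain ⟨N₁, w, l, w0, wN, wk, wc1, nd, -⟩ :=
        exists_walk h S hspos (x := z₁) (y := q₁) (B := R + 1) (by linarith)
      have hc := count h S hspos (v := w) nd (Nat.zero_le N₁) le_rfl
      refine ⟨N₁, q₁, w, l, hq1, w0, wN, wk, wc1.le, ?_, hq1d, hd.2, fun _ => hd.1⟩
      push_cast at hc
      linarith
    · refine ⟨0, v 0, fun _ => v 0, fun _ => none, onx, hd.1.symm, rfl, ?_, ?_, ?_, ?_, ?_, ?_⟩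
      · intro i hi; exact absurd hi (Nat.not_lt_zero i)
      · simp only [wc, Finset.Ico_self, Finset.sum_empty]; positivity
      · push_cast
        have : (0 : ℝ) ≤ R := Nat.cast_nonneg R
        linarith
      · rw [hd.1, dd_self h S hs0]; exact Nat.cast_nonneg R
      · rw [hd.1]; exact hd.2
      · intro h0; exact absurd h0 (lt_irrefl 0)
  have hW3 : ∃ (N₃ : ℕ) (q₂ : G) (w : ℕ → G) (l : ℕ → Option C), OnW D N v k q₂ ∧
      w 0 = q₂ ∧ w N₃ = z₂ ∧ IsWk S N₃ w l ∧ wc S s w l 0 N₃ ≤ R + 1 ∧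
      (N₃ : ℝ) * s ≤ 2 * (R + 1) + s ∧ dd S s z₂ q₂ ≤ R ∧ dd S s z z₂ ≤ 2 * R + 10 ∧
      (0 < N₃ → 2 * (R : ℝ) ≤ dd S s z z₂) := by
    rcases hz2d with hd | hd
    · obtain ⟨q₂, hq2, hq2d⟩ := hR z₂ hz2'
      have hq2d' : dd S s q₂ z₂ < R + 1 := by
        rw [dd_symm h S hs0]; linarith
      obtain ⟨N₃, w, l, w0, wN, wk, wc1, nd, -⟩ :=
        exists_walk h S hspos (x := q₂) (y := z₂) hq2d'
      have hc := count h S hspos (v := w) nd (Nat.zero_le N₃) le_rfl
      refine ⟨N₃, q₂, w, l, hq2, w0, wN, wk, wc1.le, ?_, hq2d, hd.2, fun _ => hd.1⟩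
      push_cast at hc
      linarith
    · refine ⟨0, v N, fun _ => v N, fun _ => none, ony, rfl, hd.1.symm, ?_, ?_, ?_, ?_, ?_, ?_⟩
      · intro i hi; exact absurd hi (Nat.not_lt_zero i)
      · simp only [wc, Finset.Ico_self, Finset.sum_empty]; positivity
      · push_cast
        have : (0 : ℝ) ≤ R := Nat.cast_nonneg R
        linarith
      · rw [hd.1, dd_self h S hs0]; exact Nat.cast_nonneg R
      · rw [hd.1]; exact hd.2
      · intro h0; exact absurd h0 (lt_irrefl 0)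
  obtain ⟨N₁, q₁, w₁, l₁, hq1, w10, w1N, wk1, cost1, cnt1, dq1, dz1, far1⟩ := hW1
  obtain ⟨N₃, q₂, w₃, l₃, hq2, w30, w3N, wk3, cost3, cnt3, dq2, dz2, far3⟩ := hW3
  obtain ⟨M, w₂, l₂, w20, w2N, wk2, cost2, cnt2, side2, jump2⟩ :=
    subwalk h S hK2 hspos hw hn hopt hq1 hq2
  have hR0 : (0 : ℝ) ≤ R := Nat.cast_nonneg R
  have hqq : dd S s q₁ q₂ ≤ 6 * R + 20 := by
    have a1 := dd_tri h S hs0 q₁ z₁ q₂
    have a2 := dd_tri h S hs0 z₁ z q₂
    have a3 := dd_tri h S hs0 z z₂ q₂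
    rw [dd_symm h S hs0 q₁ z₁] at a1
    rw [dd_symm h S hs0 z₁ z] at a2
    linarith
  -- concatenation
  obtain ⟨u, m, wku, hu1, -, hu2, -, -⟩ := concat S s wk1 wk2 (by rw [w1N, w20])
  obtain ⟨p, m', wkp, hp1, -, hp2, -, -⟩ := concat S s wku wk3
    (by rw [hu2 M le_rfl, w2N, w30])
  have hp0 : p 0 = z₁ := by rw [hp1 0 (Nat.zero_le _), hu1 0 (Nat.zero_le _), w10]
  have hpN : p (N₁ + M + N₃) = z₂ := by rw [hp2 N₃ le_rfl, w3N]
  have hzp : dd S s z z' ≤ 47 := by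
    have := dd_le h S hs0 z z'
    linarith
  by_cases hN0 : N₁ + M + N₃ = 0
  · -- degenerate case
    have e1 : z₁ = z₂ := by rw [← hp0, ← hpN, hN0]
    have e2 : N₁ = 0 := by omega
    have e3 : q₁ = z₁ := by rw [← w1N, e2, w10]
    have b1 : D z₁ z + D z z₂ ≤ D z₁ z₂ + 20 := hbtw
    rw [← e1, h.refl] at b1
    have b2 := h.nonneg z z₁
    have b3 := dd_le h S hs0 z z₁
    rw [h.symm z₁ z] at b1
    have := hfar q₁ hq1
    rw [e3] at this
    linarith
  -- the number of sides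
  set r : ℕ := ⌈(R : ℝ) / s⌉₊ with hr
  have hr1 : (R : ℝ) / s ≤ r := Nat.le_ceil _
  have hr2 : (r : ℝ) < R / s + 1 := Nat.ceil_lt_add_one (by positivity)
  have hrho : 2 < (R : ℝ) / s := by
    rw [lt_div_iff₀ hspos]
    linarith
  have hcount : ((N₁ + M + N₃ : ℕ) : ℝ) ≤ 16 * (R / s) + 6 := by
    have a1 : ((N₁ + M + N₃ : ℕ) : ℝ) * s ≤ (16 * (R / s) + 6) * s := by
      have a2 : (16 * ((R : ℝ) / s) + 6) * s = 16 * R + 6 * s := by field_simp
      rw [a2]
      push_cast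
      nlinarith
    exact le_of_mul_le_mul_right a1 hspos
  have hpow : N₁ + M + N₃ ≤ 2 ^ (r + 5) := by
    have a1 : ((N₁ + M + N₃ : ℕ) : ℝ) ≤ 32 * (r + 1) := by
      have : (0 : ℝ) ≤ r := Nat.cast_nonneg r
      nlinarith
    have a2 : N₁ + M + N₃ ≤ 32 * (r + 1) := by exact_mod_cast a1
    have a3 : r + 1 ≤ 2 ^ r := Nat.lt_two_pow_self
    calc N₁ + M + N₃ ≤ 32 * (r + 1) := a2
      _ ≤ 32 * 2 ^ r := Nat.mul_le_mul_left _ a3
      _ = 2 ^ (r + 5) := by rw [pow_add]; ring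
  obtain ⟨i, hi, z'', hz''B, hz''D⟩ := h.poly (r + 5) (N₁ + M + N₃) p (Nat.pos_of_ne_zero hN0)
    hpow z' (by rw [hp0, hpN]; exact hz'B)
  have hsmall : 47 + 11 * ((r + 5 : ℕ) : ℝ) ≤ R / 1000 := by
    push_cast
    have a1 : 47 + 11 * ((r : ℝ) + 5) ≤ 68 * (R / s) := by nlinarith
    have a2 : (R : ℝ) / s ≤ R / 100000 := div_le_div_of_nonneg_left hR0 (by norm_num) hs5
    linarith
  have hzz : dd S s z z'' ≤ R / 1000 := by
    have a1 := dd_tri h S hs0 z z' z''
    have a2 := dd_le h S hs0 z' z''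
    linarith
  have hR2 : 2 * s + 1 < (R : ℝ) := hcon
  by_cases hi1 : i < N₁
  · -- side in W1
    have e1 : p i = w₁ i := by rw [hp1 i (by omega), hu1 i hi1.le]
    have e2 : p (i + 1) = w₁ (i + 1) := by rw [hp1 (i + 1) (by omega), hu1 (i + 1) hi1]
    rw [e1, e2] at hz''B
    obtain ⟨b1, -⟩ := F4_side h S hK2 hs0 wk1 hi1 hz''B
    rw [w10] at b1
    have b2 := far1 (by omega)
    have b3 := dd_tri h S hs0 z z'' z₁
    rw [dd_symm h S hs0 z'' z₁] at b3
    linarith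
  by_cases hi2 : i < N₁ + M
  · -- side in W2
    obtain ⟨j, hj⟩ : ∃ j, i = N₁ + j := ⟨i - N₁, by omega⟩
    have hjM : j < M := by omega
    have e1 : p i = w₂ j := by rw [hj, hp1 _ (by omega), hu2 j hjM.le]
    have e2 : p (i + 1) = w₂ (j + 1) := by
      rw [hj, show N₁ + j + 1 = N₁ + (j + 1) by ring, hp1 _ (by omega), hu2 (j + 1) hjM]
    rw [e1, e2] at hz''B
    by_cases hk : l₂ j = none
    · obtain ⟨q, hq, hqD⟩ := side2 j hjM hk z'' hz''B
      have b1 := dd_tri h S hs0 z z'' q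
      have b2 := dd_le h S hs0 z'' q
      have b3 := hfar q hq
      linarith
    · have hq := jump2 j hjM hk
      obtain ⟨c, hc⟩ := Option.ne_none_iff_exists'.1 hk
      obtain ⟨c1, c2⟩ := wk2 j hjM c hc
      have b1 := qc_dd h S hK2 hs0 c1 c2 hz''B
      have b2 := dd_tri h S hs0 z z'' (w₂ j)
      have b3 := hfar (w₂ j) hq
      linarith
  · -- side in W3
    obtain ⟨j, hj⟩ : ∃ j, i = N₁ + M + j := ⟨i - (N₁ + M), by omega⟩
    have hj3 : j < N₃ := by omega
    have e1 : p i = w₃ j := by rw [hj, hp2 j hj3.le]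
    have e2 : p (i + 1) = w₃ (j + 1) := by
      rw [hj, show N₁ + M + j + 1 = N₁ + M + (j + 1) by ring, hp2 (j + 1) hj3]
    rw [e1, e2] at hz''B
    obtain ⟨-, b1⟩ := F4_side h S hK2 hs0 wk3 hj3 hz''B
    rw [w3N] at b1
    have b2 := far3 (by omega)
    have b3 := dd_tri h S hs0 z z'' z₂
    linarith

theorem AL (h : Hyp D) (S : CSys D C K Δ τ T) (hK : 100 ≤ K) {s : ℝ} (hs : 1000 * K ≤ s) {κ : ℝ}
    (hκ : 0 ≤ κ) (hκ' : κ ≤ 10 * K) {x z y : G} (hz : Btw D κ x z y) :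
    dd S s x z + dd S s z y ≤ dd S s x y + 5 * s := by
  have hs0 : 0 ≤ s := by linarith
  have hspos : 0 < s := by linarith
  obtain ⟨z', hz', hzz'⟩ := h.snap hκ hz
  obtain ⟨N, v, k, v0, vN, wk, cost, nd, -⟩ :=
    exists_walk h S hspos (x := x) (y := y) (B := dd S s x y + 1) (by linarith)
  obtain ⟨q, hq, hqd⟩ := F4_claim h S hK hs wk nd (by rw [v0, vN]; exact cost.le)
    (z := z') (by rw [v0, vN]; exact hz')
  have b1 := onW_exc h S hs0 wk hq
  rw [v0, vN] at b1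
  have b2 := dd_tri h S hs0 x z' z
  have b3 := dd_tri h S hs0 z z' y
  have b4 := dd_le h S hs0 z z'
  have b5 := dd_symm h S hs0 z' z
  have b6 := dd_tri h S hs0 x q z'
  have b7 := dd_tri h S hs0 z' q y
  have b8 := dd_symm h S hs0 q z'
  linarith

end Pool.Agent.helper50.BW
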