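import Pool.Agent.helper50.BW.M1
/-! ## BW-M13 the certificate (pure group theory and words; uses M1; 250 lines)
X k := hh k⁻¹ aa k hh(k+1) v⁻¹, Q := v y^{-u}, Q' := z y^{-r}, H₀ := hh 0.  In the free group:
 H₀ y^{uk} hh(k)⁻¹ aa k = (H₀y^{uk} X k (H₀y^{uk})⁻¹)(H₀y^{uk} Q (H₀y^{uk})⁻¹) H₀ y^{u(k+1)} hh(k+1)⁻¹, so
 ∏_{k<K} aa k = (∏ ...) H₀ y^{uK} hh(K)⁻¹;  u_new⁻¹ = hh(K) z⁻¹ v^{S+1} H₀⁻¹;  z⁻¹ = y^{-r} Q'⁻¹,
 H₀ y^{uK-r} Q'⁻¹ v^{S+1} H₀⁻¹ = (conj of Q'⁻¹ by H₀y^{uK-r}) H₀ y^{uK-r} (Q y^u)^{S+1} H₀⁻¹, and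
 H₀ y^j Q y^u = (conj of Q by H₀y^j) H₀ y^{j+u}.  Total exponent uK - r + u(S+1) = d.
Number of loops: 2K + 1 + (S+1) ≤ 4d + 10.  Conjugators hh 0 ++ wpow y j, 0 ≤ j ≤ d (DD (m+2)); loops: X k word
invRev (hh k) ++ aa k ++ hh (k+1) ++ invRev v (DD (m+3)), v ++ wpow y (-u), invRev (z ++ wpow y (-r)).
y₀ of Cert = y, z₀ = hh 0.  unew_mem: DD_pow with |S+1| ≤ d. -/
namespace Pool.Agent.helper50.BW
open Sum

theorem M13_num {d u K S r : ℕ} (hd : 1 ≤ d) (hK : 1 ≤ K) (hu : u * K + u * (S + 1) = d + r)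
    (hr : r ≤ u) : 1 ≤ u ∧ u * (K + S) ≤ d ∧ K + S ≤ d ∧ u ≤ d ∧ r ≤ u * K := by
  have h0 : 1 ≤ u := by
    rcases Nat.eq_zero_or_pos u with h | h
    · subst h
      simp at hu
      omega
    · exact h
  have h1 : u * (K + S) ≤ d := by
    have : u * K + u * (S + 1) = u * (K + S) + u := by ring
    omega
  have h2 : K + S ≤ u * (K + S) := Nat.le_mul_of_pos_left _ h0
  have h3 : u ≤ u * (K + S) := Nat.le_mul_of_pos_right _ (by omega)
  have h4 : u ≤ u * K := Nat.le_mul_of_pos_right _ (by omega)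
  exact ⟨h0, h1, by omega, by omega, by omega⟩

/-- conjugation product of a list of pairs of words -/
def M13_pr (L : List (W × W)) : FreeGroup ℕ :=
  (L.map fun p => FreeGroup.mk p.1 * FreeGroup.mk p.2 * (FreeGroup.mk p.1)⁻¹).prod

theorem M13_pr_append (L L' : List (W × W)) : M13_pr (L ++ L') = M13_pr L * M13_pr L' := by
  simp [M13_pr]

theorem M13_pr_one (p : W × W) :
    M13_pr [p] = FreeGroup.mk p.1 * FreeGroup.mk p.2 * (FreeGroup.mk p.1)⁻¹ := by
  simp [M13_pr]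

theorem M13_mk_append (a b : W) : FreeGroup.mk (a ++ b) = FreeGroup.mk a * FreeGroup.mk b :=
  FreeGroup.mul_mk.symm

theorem M13_mk_inv (a : W) : FreeGroup.mk (FreeGroup.invRev a) = (FreeGroup.mk a)⁻¹ :=
  FreeGroup.inv_mk.symm

/-- first part: the product of the pieces -/
theorem M13_first (hh aa : ℕ → W) (v y : W) (u K : ℕ) :
    FreeGroup.mk ((List.range K).map aa).flatten =
      M13_pr (((List.range K).map fun k =>
        [(hh 0 ++ wpow y ((u * k : ℕ) : ℤ), FreeGroup.invRev (hh k) ++ aa k ++ hh (k + 1) ++ FreeGroup.invRev v),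
          (hh 0 ++ wpow y ((u * k : ℕ) : ℤ), v ++ wpow y (-(u : ℤ)))]).flatten) *
      (FreeGroup.mk (hh 0) * FreeGroup.mk y ^ (u * K) * (FreeGroup.mk (hh K))⁻¹) := by
  induction K with
  | zero =>
    have e0 : FreeGroup.mk (hh 0) * FreeGroup.mk y ^ (u * 0) * (FreeGroup.mk (hh 0))⁻¹ = 1 := by
      rw [Nat.mul_zero, pow_zero, mul_one, mul_inv_cancel]
    rw [e0]
    simp [M13_pr, FreeGroup.one_eq_mk]
  | succ K ih =>
    rw [List.range_succ, List.map_append, List.flatten_append, M13_mk_append, ih, List.map_append,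
      List.flatten_append, M13_pr_append]
    have e1 : FreeGroup.mk (([K].map aa).flatten) = FreeGroup.mk (aa K) := by simp
    rw [e1]
    generalize M13_pr ((List.range K).map fun k =>
        [(hh 0 ++ wpow y ((u * k : ℕ) : ℤ), FreeGroup.invRev (hh k) ++ aa k ++ hh (k + 1) ++ FreeGroup.invRev v),
          (hh 0 ++ wpow y ((u * k : ℕ) : ℤ), v ++ wpow y (-(u : ℤ)))]).flatten = P
    have e2 : u * (K + 1) = u * K + u := by ring
    rw [e2, pow_add]
    simp only [List.map_cons, List.map_nil, List.flatten_cons, List.flatten_nil, List.append_nil]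
    rw [show ∀ p q : W × W, [p, q] = [p] ++ [q] from fun p q => rfl, M13_pr_append, M13_pr_one, M13_pr_one]
    simp only [M13_mk_append, M13_mk_inv, mk_wpow, zpow_natCast, zpow_neg]
    generalize FreeGroup.mk y ^ (u * K) = a
    generalize FreeGroup.mk y ^ u = b
    group

/-- second part: powers of v -/
theorem M13_second (h0 v y : W) (u j t : ℕ) :
    FreeGroup.mk h0 * FreeGroup.mk y ^ j * FreeGroup.mk v ^ t =
      M13_pr ((List.range t).map fun i =>
        (h0 ++ wpow y ((j + u * i : ℕ) : ℤ), v ++ wpow y (-(u : ℤ)))) *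
      (FreeGroup.mk h0 * FreeGroup.mk y ^ (j + u * t)) := by
  induction t with
  | zero => simp [M13_pr]
  | succ t ih =>
    rw [pow_succ, ← mul_assoc, ih, List.range_succ, List.map_append, M13_pr_append]
    generalize M13_pr ((List.range t).map fun i =>
        (h0 ++ wpow y ((j + u * i : ℕ) : ℤ), v ++ wpow y (-(u : ℤ)))) = P
    have e2 : j + u * (t + 1) = (j + u * t) + u := by ring
    rw [e2, pow_add (FreeGroup.mk y) (j + u * t) u]
    simp only [List.map_cons, List.map_nil]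
    rw [M13_pr_one]
    simp only [M13_mk_append, mk_wpow, zpow_natCast, zpow_neg]
    generalize FreeGroup.mk y ^ (j + u * t) = a
    generalize FreeGroup.mk y ^ u = b
    group

theorem cert_words {d n m : ℕ} {w : W} (hd : 1 ≤ d) {hh aa : ℕ → W} {v y z : W} {u K S r : ℕ} (hK : 1 ≤ K)
    (hu : u * K + u * (S + 1) = d + r) (hr : r ≤ u) (m1 : ∀ k ≤ K, hh k ∈ DD d w (m + 1))
    (m2 : ∀ k < K, aa k ∈ DD d w 0) (m3 : v ∈ DD d w (m + 1)) (m4 : y ∈ DD d w (m + 1))
    (m5 : z ∈ DD d w (m + 1))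
    (t1 : ∀ k < K, Triv d (FreeGroup.invRev (hh k) ++ aa k ++ hh (k + 1) ++ FreeGroup.invRev v))
    (l1 : ∀ k < K, 4 * (FreeGroup.invRev (hh k) ++ aa k ++ hh (k + 1) ++ FreeGroup.invRev v).length ≤ 3 * n)
    (t2 : Triv d (v ++ wpow y (-(u : ℤ)))) (l2 : 4 * (v ++ wpow y (-(u : ℤ))).length ≤ 3 * n)
    (t3 : Triv d (z ++ wpow y (-(r : ℤ)))) (l3 : 4 * (z ++ wpow y (-(r : ℤ))).length ≤ 3 * n) :
    Cert d (4 * d + 10) n (DD d w (m + 3)) ((List.range K).map aa).flatten
      (hh 0 ++ wpow v (-((S : ℤ) + 1)) ++ (z ++ FreeGroup.invRev (hh K))) := by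
  obtain ⟨hu1, hKS, hKS', hud, hrK⟩ := M13_num hd hK hu hr
  have g23 : DD d w (m + 2) ⊆ DD d w (m + 3) := DD_mono (by omega)
  have g12 : DD d w (m + 1) ⊆ DD d w (m + 2) := DD_mono (by omega)
  have g02 : DD d w 0 ⊆ DD d w (m + 1) := DD_mono (by omega)
  -- the words of the list
  have hconj : ∀ j : ℕ, j ≤ d → hh 0 ++ wpow y (j : ℤ) ∈ DD d w (m + 3) := by
    intro j hj
    have := DD_pow (s := (j : ℤ)) (by rw [abs_of_nonneg (by positivity)]; exact_mod_cast hj)
      (m1 0 (by omega)) m4 (DD_nil d w (m + 1))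
    rw [List.append_nil] at this
    exact g23 this
  have hX : ∀ k < K, FreeGroup.invRev (hh k) ++ aa k ++ hh (k + 1) ++ FreeGroup.invRev v ∈
      DD d w (m + 3) := by
    intro k hk
    exact DD_app (DD_app3 hd (DD_inv (m1 k (by omega))) (g02 (m2 k hk)) (m1 (k + 1) (by omega)))
      (g12 (DD_inv m3))
  have hQ : v ++ wpow y (-(u : ℤ)) ∈ DD d w (m + 3) := by
    have := DD_pow (s := -(u : ℤ)) (by rw [abs_neg, abs_of_nonneg (by positivity)]; exact_mod_cast hud)
      m3 m4 (DD_nil d w (m + 1))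
    rw [List.append_nil] at this
    exact g23 this
  have hQ' : FreeGroup.invRev (z ++ wpow y (-(r : ℤ))) ∈ DD d w (m + 3) := by
    have := DD_pow (s := -(r : ℤ)) (by
      rw [abs_neg, abs_of_nonneg (by positivity)]; exact_mod_cast (hr.trans hud))
      m5 m4 (DD_nil d w (m + 1))
    rw [List.append_nil] at this
    exact g23 (DD_inv this)
  have hT' : Triv d (FreeGroup.invRev (z ++ wpow y (-(r : ℤ)))) := by
    unfold Triv at t3 ⊢
    rw [M13_mk_inv]
    exact Subgroup.inv_mem _ t3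
  refine ⟨y, DD_mono (by omega) m4, hh 0, DD_mono (by omega) (m1 0 (by omega)),
    ((List.range K).map fun k =>
        [(hh 0 ++ wpow y ((u * k : ℕ) : ℤ), FreeGroup.invRev (hh k) ++ aa k ++ hh (k + 1) ++ FreeGroup.invRev v),
          (hh 0 ++ wpow y ((u * k : ℕ) : ℤ), v ++ wpow y (-(u : ℤ)))]).flatten ++
      ([(hh 0 ++ wpow y ((u * K - r : ℕ) : ℤ), FreeGroup.invRev (z ++ wpow y (-(r : ℤ))))] ++
      ((List.range (S + 1)).map fun i =>
        (hh 0 ++ wpow y ((u * K - r + u * i : ℕ) : ℤ), v ++ wpow y (-(u : ℤ))))), ?_, ?_, ?_⟩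
  · have e1 : ((List.range K).map fun k =>
        [(hh 0 ++ wpow y ((u * k : ℕ) : ℤ), FreeGroup.invRev (hh k) ++ aa k ++ hh (k + 1) ++ FreeGroup.invRev v),
          (hh 0 ++ wpow y ((u * k : ℕ) : ℤ), v ++ wpow y (-(u : ℤ)))]).flatten.length = K * 2 := by
      rw [List.length_flatten, List.map_map]
      simp [Function.comp_def]
    rw [List.length_append, List.length_append, e1]
    simp only [List.length_cons, List.length_nil, List.length_map, List.length_range]
    omega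
  · intro p hp
    rw [List.mem_append, List.mem_append] at hp
    rcases hp with hp | hp | hp
    · rw [List.mem_flatten] at hp
      obtain ⟨l, hl, hpl⟩ := hp
      rw [List.mem_map] at hl
      obtain ⟨k, hk, rfl⟩ := hl
      rw [List.mem_range] at hk
      have hk1 : u * k ≤ d := by
        have : u * k ≤ u * (K + S) := Nat.mul_le_mul_left _ (by omega)
        omega
      simp only [List.mem_cons, List.not_mem_nil, or_false] at hpl
      rcases hpl with rfl | rfl
      · exact ⟨hconj _ hk1, hX k hk, l1 k hk, t1 k hk⟩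
      · exact ⟨hconj _ hk1, hQ, l2, t2⟩
    · simp only [List.mem_cons, List.not_mem_nil, or_false] at hp
      subst hp
      refine ⟨hconj _ ?_, hQ', ?_, hT'⟩
      · have : u * K ≤ u * (K + S) := Nat.mul_le_mul_left _ (by omega)
        omega
      · rw [FreeGroup.invRev_length]
        exact l3
    · rw [List.mem_map] at hp
      obtain ⟨i, hi, rfl⟩ := hp
      rw [List.mem_range] at hi
      refine ⟨hconj _ ?_, hQ, l2, t2⟩
      have h1 : u * i ≤ u * S := Nat.mul_le_mul_left _ (by omega)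
      have h2 : u * K + u * S = u * (K + S) := by ring
      omega
  · change _ = M13_pr _ * _
    rw [M13_pr_append, M13_pr_append, M13_pr_one, M13_first hh aa v y u K]
    have h2 := M13_second (hh 0) v y u (u * K - r) (S + 1)
    have e3 : u * K - r + u * (S + 1) = d := by omega
    rw [e3] at h2
    have e4 : M13_pr ((List.range (S + 1)).map fun i =>
        (hh 0 ++ wpow y ((u * K - r + u * i : ℕ) : ℤ), v ++ wpow y (-(u : ℤ)))) =
        FreeGroup.mk (hh 0) * FreeGroup.mk y ^ (u * K - r) * FreeGroup.mk v ^ (S + 1) *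
          (FreeGroup.mk (hh 0) * FreeGroup.mk y ^ d)⁻¹ := by
      rw [h2]; group
    rw [e4]
    have e5 : FreeGroup.mk (hh 0 ++ wpow v (-((S : ℤ) + 1)) ++ (z ++ FreeGroup.invRev (hh K))) =
        FreeGroup.mk (hh 0) * (FreeGroup.mk v ^ (S + 1))⁻¹ *
          (FreeGroup.mk z * (FreeGroup.mk (hh K))⁻¹) := by
      rw [M13_mk_append, M13_mk_append, M13_mk_append, M13_mk_inv, mk_wpow, zpow_neg]
      norm_cast
    rw [e5]
    have e6 : FreeGroup.mk y ^ (u * K) = FreeGroup.mk y ^ (u * K - r) * FreeGroup.mk y ^ r := by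
      rw [← pow_add]; congr 1; omega
    simp only [M13_mk_append, M13_mk_inv, mk_wpow, zpow_natCast, zpow_neg]
    rw [e6]
    group

theorem unew_mem {d m : ℕ} {w : W} (hd : 1 ≤ d) {hh : ℕ → W} {v z : W} {u K S r : ℕ} (hK : 1 ≤ K)
    (hu : u * K + u * (S + 1) = d + r) (hr : r ≤ u) (m1 : ∀ k ≤ K, hh k ∈ DD d w (m + 1))
    (m3 : v ∈ DD d w (m + 1)) (m5 : z ∈ DD d w (m + 1)) :
    hh 0 ++ wpow v (-((S : ℤ) + 1)) ++ (z ++ FreeGroup.invRev (hh K)) ∈ DD d w (m + 3) := by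
  obtain ⟨hu1, hKS, hKS', hud, hrK⟩ := M13_num hd hK hu hr
  have g12 : DD d w (m + 1) ⊆ DD d w (m + 2) := DD_mono (by omega)
  refine DD_pow (m := m + 2) ?_ (g12 (m1 0 (by omega))) (g12 m3) (DD_app m5 (DD_inv (m1 K le_rfl)))
  rw [abs_neg, abs_of_nonneg (by positivity)]
  have : S + 1 ≤ d := by omega
  exact_mod_cast this

end Pool.Agent.helper50.BW
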