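import Pool.Agent.helper50.BW.M4
/-! ## BW-M14 the points of a move (uses M4; 250 lines)
f := pf S c e 1 π w, ℓ := S.ell c.  u := ⌊(2/3 LB)/ℓ⌋₊.  i₀ := -⌊(t0 - bp 0)/ℓ⌋ (least integer with t0 + i₀ℓ ≥ bp 0), so
t0 + i₀ℓ < bp 0 + ℓ.  pos k := t0 + (i₀ + uk)ℓ, K := ⌊(f β - 2KU - (Lam0+10) - pos 0)/(uℓ)⌋₊, so pos K + Lam0 + 10 ≤ f β - 2KU < that + uℓ.
E k, hh k from bridge' (i = i₀ + uk).  Monotone: E k ≤ x(pos k + Lam0+10) ≤ x(pos (k+1)) ≤ E (k+1).
E 0 ≤ x(bp 0 + ℓ + Lam0 + 10) ≤ x(bp 1); E K ≥ x(pos K) ≥ x(bp (N-1)) (bp N ≤ f β - 2KU, uℓ + Lam0 + 10 ≤ LB): so (Blk.cnt)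
E K - E 0 ≥ (N-2) bst.  uKℓ = pos K - pos 0 ≥ f β - f α - 4KU - 2LB ≥ 78/100 Θ, and ≤ f β - f α ≤ 80/100 Θ + 2 ≤ 81/100 Θ.
The gap: j with bp j ≤ pos k < bp (j+1) (j ≤ N): E k ≥ x(bp j), E (k+1) ≤ x(bp (j+2)) if j + 2 ≤ N; otherwise use E(k+1) ≤ β. -/
namespace Pool.Agent.helper50.BW
open Sum

variable {G : Type} [Group G] {D : G → G → ℝ} {C : Type} [MulAction G C] {Δ τ T : ℝ} {d m : ℕ} {κ₀ LB : ℝ}
  {S : CSys D C KU Δ τ T} {π : FreeGroup ℕ →* G} {w : W}
theorem move_pts (h : Hyp D) (hi : LInv D) (hp : Pth D w.length (pt π w)) (hSB : SB D π w d m)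
    (hM : MC d κ₀ τ T LB) {c : C} {e : ℤ} {α β N k : ℕ} {x : ℝ → ℕ} {t0 : ℝ} (he : e = 1 ∨ e = -1)
    (hαβ : α ≤ β) (hβ : β ≤ w.length) (hB : Blk (pf S c e 1 π w) α β LB x N k t0)
    (h79 : 79 / 100 * (d * S.ell c) ≤ pf S c e 1 π w β - pf S c e 1 π w α)
    (h80 : pf S c e 1 π w β - pf S c e 1 π w α ≤ 80 / 100 * (d * S.ell c) + 2)
    (hN : pf S c e 1 π w β - pf S c e 1 π w α ≤ (N + 2) * LB) :
    ∃ (u K : ℕ) (i₀ : ℤ) (E : ℕ → ℕ) (hh : ℕ → W), 1 ≤ u ∧ 6 / 10 * LB ≤ u * S.ell c ∧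
      u * S.ell c ≤ 2 / 3 * LB ∧ 78 / 100 * (d : ℝ) ≤ u * K ∧ (u : ℝ) * K ≤ 81 / 100 * d ∧
      (∀ k < K, E k ≤ E (k + 1)) ∧ (∀ k ≤ K, E k ≤ w.length) ∧ (∀ k ≤ K, hh k ∈ DD d w (m + 1)) ∧
      (∀ k ≤ K, pt π w (E k) * π (FreeGroup.mk (hh k)) = S.gen c ^ (e * (i₀ + u * k)) * pt π w (x t0)) ∧
      (∀ j ≤ K, 4000 * ((hh j).length : ℝ) ≤ 41 * bst (pf S c e 1 π w) α LB x k) ∧
      ((N : ℝ) - 2) * bst (pf S c e 1 π w) α LB x k ≤ (E K : ℝ) - E 0 ∧
      (∀ j < K, (E (j + 1) : ℝ) - E j + ((N : ℝ) - 3) * bst (pf S c e 1 π w) α LB x k ≤ w.length) := by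
  have hbr := fun (i : ℤ) => bridge' (g := (1 : G)) h hi hp hSB hM he hαβ hβ hB i
  set f : ℕ → ℝ := pf S c e 1 π w with hf
  set l : ℝ := S.ell c with hl
  have hKU : (KU : ℝ) = 1000 := rfl
  have hL0 : (Lam0 + 10 : ℝ) = 200010 := by
    change (200 * (1000 : ℝ) + 10) = 200010
    norm_num
  obtain ⟨P, hP⟩ : ∃ P : ℝ, P = Lam0 + 10 := ⟨_, rfl⟩
  rw [← hP] at hL0 hbr
  have hτ := hM.hτ
  have hLB1 : 12000 * P ≤ LB := by rw [hP]; exact hM.h1
  have hLB : 12000 * (200010 : ℝ) ≤ LB := by rw [hL0] at hLB1; exact hLB1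
  have hLB0 : 0 < LB := by linarith
  have hl0 : 0 < l := lt_of_lt_of_le hτ (S.ell_ge c)
  have hlT : l ≤ LB / 15 := by
    have h1 := S.ell_le c
    have h2 := hM.h2
    linarith
  have hdl : 10000000 * LB ≤ d * l := by
    have h3 := hM.h3
    have h4 := hM.h4
    have h5 : (d : ℝ) * τ ≤ d * l := mul_le_mul_of_nonneg_left (S.ell_ge c) (Nat.cast_nonneg d)
    linarith
  have hbp : ∀ j : ℕ, bp f α LB j = bp f α LB 0 + j * LB := fun j => by
    unfold bp; push_cast; ring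
  have hbp0 : bp f α LB 0 = f α + 2 * KU := by
    unfold bp; push_cast; ring
  have hmono := hB.mono
  have hfits := hB.fits
  -- the number u
  obtain ⟨u, hu⟩ : ∃ u : ℕ, u = ⌊(2 / 3 * LB) / l⌋₊ := ⟨_, rfl⟩
  have hu1 : (u : ℝ) * l ≤ 2 / 3 * LB := by
    have h1 : (u : ℝ) ≤ (2 / 3 * LB) / l := by
      rw [hu]; exact Nat.floor_le (by positivity)
    rwa [le_div_iff₀ hl0] at h1
  have hu2 : 2 / 3 * LB < (u + 1) * l := by
    have h1 : (2 / 3 * LB) / l < u + 1 := by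
      rw [hu]; exact Nat.lt_floor_add_one _
    rwa [div_lt_iff₀ hl0] at h1
  have hu3 : 6 / 10 * LB ≤ u * l := by
    have : ((u : ℝ) + 1) * l = u * l + l := by ring
    linarith
  have hul0 : 0 < (u : ℝ) * l := by linarith
  have hu4 : 1 ≤ u := by
    rcases Nat.eq_zero_or_pos u with h0 | h0
    · rw [h0] at hul0
      simp at hul0
    · exact h0
  -- the first position
  obtain ⟨i₀, hi₀⟩ : ∃ i₀ : ℤ, i₀ = ⌈(bp f α LB 0 - t0) / l⌉ := ⟨_, rfl⟩
  have hi1 : bp f α LB 0 ≤ t0 + i₀ * l := by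
    have h1 : (bp f α LB 0 - t0) / l ≤ i₀ := by rw [hi₀]; exact Int.le_ceil _
    rw [div_le_iff₀ hl0] at h1
    linarith
  have hi2 : t0 + i₀ * l < bp f α LB 0 + l := by
    have h1 : (i₀ : ℝ) < (bp f α LB 0 - t0) / l + 1 := by rw [hi₀]; exact Int.ceil_lt_add_one _
    have h2 : (i₀ : ℝ) - 1 < (bp f α LB 0 - t0) / l := by linarith
    rw [lt_div_iff₀ hl0] at h2
    linarith
  obtain ⟨pos, hpos⟩ : ∃ pos : ℕ → ℝ, ∀ k, pos k = t0 + (i₀ + u * k) * l := ⟨_, fun _ => rfl⟩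
  have hpos0 : pos 0 = t0 + i₀ * l := by rw [hpos]; push_cast; ring
  have hposk : ∀ k, pos k = pos 0 + k * (u * l) := fun k => by
    rw [hpos k, hpos0]; ring
  have hposS : ∀ k, pos (k + 1) = pos k + u * l := fun k => by
    rw [hposk (k + 1), hposk k]; push_cast; ring
  rw [← hpos0] at hi1 hi2
  -- the number K
  obtain ⟨K, hK⟩ : ∃ K : ℕ, K = ⌊(f β - 2 * KU - P - pos 0) / (u * l)⌋₊ := ⟨_, rfl⟩
  have hbig : 0 ≤ f β - 2 * KU - P - pos 0 := by
    rw [hbp0] at hi2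
    rw [hKU] at *
    linarith
  have hK1 : pos K + P ≤ f β - 2 * KU := by
    have h1 : (K : ℝ) ≤ (f β - 2 * KU - P - pos 0) / (u * l) := by
      rw [hK]; exact Nat.floor_le (div_nonneg hbig hul0.le)
    rw [le_div_iff₀ hul0] at h1
    rw [hposk K]
    linarith
  have hK2 : f β - 2 * KU < pos K + P + u * l := by
    have h1 : (f β - 2 * KU - P - pos 0) / (u * l) < K + 1 := by
      rw [hK]; exact Nat.lt_floor_add_one _
    rw [div_lt_iff₀ hul0] at h1
    rw [hposk K]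
    linarith
  have hposmono : ∀ {i j : ℕ}, i ≤ j → pos i ≤ pos j := by
    intro i j hij
    rw [hposk i, hposk j]
    have : (i : ℝ) ≤ j := by exact_mod_cast hij
    have := mul_le_mul_of_nonneg_right this hul0.le
    linarith
  -- the bridges
  have hex : ∀ k' : ℕ, ∃ (z : ℕ) (hh : W), k' ≤ K →
      (x (pos k') ≤ z ∧ z ≤ x (pos k' + P)) ∧ hh ∈ DD d w (m + 1) ∧
      pt π w z * π (FreeGroup.mk hh) = S.gen c ^ (e * (i₀ + u * k')) * pt π w (x t0) ∧
      4000 * (hh.length : ℝ) ≤ 41 * bst f α LB x k := by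
    intro k'
    by_cases hk' : k' ≤ K
    · have e1 : t0 + ((i₀ + u * k' : ℤ) : ℝ) * l = pos k' := by
        rw [hpos k']; push_cast; ring
      have e2 : t0 + P + ((i₀ + u * k' : ℤ) : ℝ) * l = pos k' + P := by
        rw [← e1]; ring
      obtain ⟨z, hh, hz, hD, hg, hlen⟩ := hbr (i₀ + u * k')
        (by rw [e1, ← hbp0]; exact hi1.trans (hposmono (Nat.zero_le _)))
        (by rw [e2]; have := hposmono hk'; linarith)
      rw [e1, e2] at hz
      rw [one_mul, one_mul] at hg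
      exact ⟨z, hh, fun _ => ⟨hz, hD, hg, hlen⟩⟩
    · exact ⟨0, [], fun h' => absurd h' hk'⟩
  choose E hh hE using hex
  have hN1 : (7000000 : ℝ) ≤ N := by
    have h1 : 7900000 * LB ≤ (N + 2) * LB := by
      rw [hKU] at *
      linarith
    have h2 := le_of_mul_le_mul_right h1 hLB0
    linarith
  have hN2 : 7000000 ≤ N := by exact_mod_cast hN1
  have hbst0 : 0 ≤ bst f α LB x k := by
    unfold bst
    have : x (bp f α LB k) ≤ x (bp f α LB (k + 1)) := by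
      apply hmono
      rw [hbp k, hbp (k + 1)]
      push_cast
      linarith
    have : (x (bp f α LB k) : ℝ) ≤ x (bp f α LB (k + 1)) := by exact_mod_cast this
    linarith
  have hEup : ∀ k' ≤ K, (E k' : ℝ) ≤ x (pos k' + P) := fun k' hk' => by
    exact_mod_cast (hE k' hk').1.2
  have hElo : ∀ k' ≤ K, (x (pos k') : ℝ) ≤ E k' := fun k' hk' => by
    exact_mod_cast (hE k' hk').1.1
  have hmonoR : ∀ {s t : ℝ}, s ≤ t → (x s : ℝ) ≤ x t := fun hst => by
    exact_mod_cast hmono hst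
  have hβR : (β : ℝ) ≤ w.length := by exact_mod_cast hβ
  have hα0 : (0 : ℝ) ≤ α := Nat.cast_nonneg _
  have huK : (u : ℝ) * K * l = pos K - pos 0 := by
    rw [hposk K]; ring
  refine ⟨u, K, i₀, E, hh, hu4, hu3, hu1, ?_, ?_, ?_, ?_, ?_, ?_, ?_, ?_, ?_⟩
  · refine le_of_mul_le_mul_right ?_ hl0
    rw [huK]
    rw [hbp0] at hi2
    have : 78 / 100 * (d : ℝ) * l = 78 / 100 * (d * l) := by ring
    rw [this]
    rw [hKU] at *
    linarith
  · refine le_of_mul_le_mul_right ?_ hl0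
    rw [huK]
    rw [hbp0] at hi1
    have : 81 / 100 * (d : ℝ) * l = 81 / 100 * (d * l) := by ring
    rw [this]
    rw [hKU] at *
    linarith
  · intro j hj
    have h1 := (hE j hj.le).1.2
    have h2 := (hE (j + 1) hj).1.1
    have h3 : x (pos j + P) ≤ x (pos (j + 1)) := by
      apply hmono
      rw [hposS j]
      linarith
    omega
  · intro j hj
    have h1 := (hE j hj).1.2
    have h2 := (hB.mem (pos j + P)).2
    omega
  · intro j hj
    exact (hE j hj).2.1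
  · intro j hj
    exact (hE j hj).2.2.1
  · intro j hj
    exact (hE j hj).2.2.2
  · have h1 := hB.cnt (i := 1) (j := N - 1) (by omega) (by omega)
    have h2 : (((N - 1 : ℕ) : ℝ)) = N - 1 := by
      rw [Nat.cast_sub (by omega)]; simp
    rw [h2] at h1
    have h3 : (E 0 : ℝ) ≤ x (bp f α LB 1) := by
      refine (hEup 0 (Nat.zero_le _)).trans (hmonoR ?_)
      rw [hbp 1]
      push_cast
      linarith
    have h4 : (x (bp f α LB (N - 1)) : ℝ) ≤ E K := by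
      refine le_trans (hmonoR ?_) (hElo K le_rfl)
      rw [hbp (N - 1), h2]
      rw [hbp N] at hfits
      linarith
    have h5 : ((N : ℝ) - 1 - ((1 : ℕ) : ℝ)) = N - 2 := by push_cast; ring
    rw [h5] at h1
    linarith
  · intro j hj
    -- the block containing the position
    obtain ⟨q, hq⟩ : ∃ q : ℕ, q = ⌊(pos j - bp f α LB 0) / LB⌋₊ := ⟨_, rfl⟩
    have hq0 : 0 ≤ pos j - bp f α LB 0 := by
      have := hposmono (Nat.zero_le j)
      linarith
    have hq1 : bp f α LB q ≤ pos j := by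
      have h1 : (q : ℝ) ≤ (pos j - bp f α LB 0) / LB := by
        rw [hq]; exact Nat.floor_le (div_nonneg hq0 hLB0.le)
      rw [le_div_iff₀ hLB0] at h1
      rw [hbp q]
      linarith
    have hq2 : pos j < bp f α LB (q + 1) := by
      have h1 : (pos j - bp f α LB 0) / LB < q + 1 := by
        rw [hq]; exact Nat.lt_floor_add_one _
      rw [div_lt_iff₀ hLB0] at h1
      rw [hbp (q + 1)]
      push_cast
      linarith
    have hEj := hElo j hj.le
    have hEj1 := hEup (j + 1) hj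
    have hmem0 := hB.mem (bp f α LB 0)
    have hmem0' : (α : ℝ) ≤ x (bp f α LB 0) := by exact_mod_cast hmem0.1
    by_cases hqN : q + 2 ≤ N
    · have h1 : (x (bp f α LB q) : ℝ) ≤ E j := (hmonoR hq1).trans hEj
      have h2 : (E (j + 1) : ℝ) ≤ x (bp f α LB (q + 2)) := by
        refine hEj1.trans (hmonoR ?_)
        rw [hposS j, hbp (q + 2)]
        rw [hbp (q + 1)] at hq2
        push_cast at hq2 ⊢
        linarith
      have h3 := hB.cnt (i := 0) (j := q) (Nat.zero_le _) (by omega)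
      have h4 := hB.cnt (i := q + 2) (j := N) hqN le_rfl
      have h5 : (x (bp f α LB N) : ℝ) ≤ β := by exact_mod_cast (hB.mem _).2
      have h6 : ((N : ℝ) - 3) * bst f α LB x k + bst f α LB x k =
          ((q : ℝ) - ((0 : ℕ) : ℝ)) * bst f α LB x k +
            ((N : ℝ) - ((q + 2 : ℕ) : ℝ)) * bst f α LB x k := by
        push_cast; ring
      linarith
    · have h1 : (x (bp f α LB (N - 1)) : ℝ) ≤ E j := by
        refine le_trans (hmonoR ?_) hEj
        refine le_trans ?_ hq1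
        rw [hbp (N - 1), hbp q]
        have : ((N - 1 : ℕ) : ℝ) ≤ q := by
          have : N - 1 ≤ q := by omega
          exact_mod_cast this
        have := mul_le_mul_of_nonneg_right this hLB0.le
        linarith
      have h2 : (E (j + 1) : ℝ) ≤ β := by
        refine hEj1.trans ?_
        exact_mod_cast (hB.mem _).2
      have h3 := hB.cnt (i := 0) (j := N - 1) (Nat.zero_le _) (by omega)
      have h4 : (((N - 1 : ℕ) : ℝ)) = N - 1 := by
        rw [Nat.cast_sub (by omega)]; simp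
      rw [h4] at h3
      have h6 : ((N : ℝ) - 3) * bst f α LB x k + 2 * bst f α LB x k =
          ((N : ℝ) - 1 - ((0 : ℕ) : ℝ)) * bst f α LB x k := by
        push_cast; ring
      linarith

end Pool.Agent.helper50.BW
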