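import Pool.Agent.helper50.BW.M13
import Pool.Agent.helper50.BW.M14
/-! ## BW-M15 the two kinds of moves (uses M1, M13, M14; 300 lines)
words v, y, z := loc_word for i = u, 1, r (g = 1).  b := bst ≥ LB - 2 ≥ 1, N ≥ 10^6 [from 79/100 Θ ≤ (N+2) LB, Θ ≥ 10^7 LB].
n := w.length; N b ≤ n (Blk.tot).
big: some j < K with 7/10 n < E(j+1) - E j: second alternative of Move with w₁ = w.take (E j), A = sub w (E j) (E (j+1)),
w₂ = w.drop (E (j+1)), u_ := hh (j+1) ++ invRev v ++ invRev (hh j) (= A⁻¹ in G); |u_| ≤ (82 + 4041)/4000 b < (N-3) b ≤ n - |A|;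
4 (3/10 n + 1.04 b) ≤ 3n.  Triv: A w₂ w₁ is conjugate to w, u_ A ∈ ker π ≤ Fd.
small: otherwise: S, r with u(S+1) = d - uK + r, 0 ≤ r < u (S + 1 := ⌈(d - uK)/u⌉, d - uK ≥ 19/100 d > 0); cert_words with
aa k := sub w (E k) (E (k+1)) (sub_flatten), unew_mem.  Lengths: S + 1 ≤ 22/100 d/u + 1, d/u = Θ/(uℓ) ≤ Θ/(6/10 LB) ≤ (100/79)(N+2)/0.6;
|u_new| ≤ (S + 2) 4041/4000 b + 82/4000 b ≤ 0.48 (N+2) b + 2.1 b < (N-2) b ≤ |A|.
l1: 7/10 n + (82 + 4041)/4000 b ≤ 3/4 n.  l2, l3: (u+1) 4041/4000 b ≤ 3/4 n: u + 1 ≤ 0.74 LB/ℓ, b ≤ n/N, N + 2 ≥ 0.79 d ℓ/LB, and 20 LB² ≤ dτ² ≤ d ℓ².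
t1: pt (E k) aa k hh(k+1) = gen^{e(i₀+u(k+1))} pt y₀ = gen^{e(i₀+uk)} pt y₀ π v = pt (E k) hh k π v, so the loop is in ker π ≤ Fd. -/
namespace Pool.Agent.helper50.BW
open Sum

variable {G : Type} [Group G] {D : G → G → ℝ} {C : Type} [MulAction G C] {Δ τ T : ℝ} {d m : ℕ} {κ₀ LB : ℝ}
  {S : CSys D C KU Δ τ T} {π : FreeGroup ℕ →* G} {w : W}
/-- the loop relation -/
theorem loop_aux {G : Type} [Group G] {γ y₀ p p' a h h' v : G} {s s' t : ℤ} (h1 : p * a = p')
    (h2 : p * h = γ ^ s * y₀) (h3 : p' * h' = γ ^ s' * y₀) (h4 : y₀ * v = γ ^ t * y₀)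
    (hs : s' = s + t) : a = h * v * h'⁻¹ := by
  have e1 : p = γ ^ s * y₀ * h⁻¹ := by rw [← h2]; group
  have e2 : p' = γ ^ s' * y₀ * h'⁻¹ := by rw [← h3]; group
  have e0 : a = p⁻¹ * p' := by rw [← h1]; group
  have e4 : v = y₀⁻¹ * (γ ^ t * y₀) := by rw [← h4]; group
  rw [e0, e1, e2, e4, hs, zpow_add]
  group

theorem pow_aux {G : Type} [Group G] {γ y₀ v y : G} {e : ℤ} {i : ℕ}
    (hv : y₀ * v = γ ^ (e * (i : ℤ)) * y₀) (hy : y₀ * y = γ ^ (e * ((1 : ℕ) : ℤ)) * y₀) :
    v = y ^ (i : ℤ) := by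
  have e1 : v = y₀⁻¹ * γ ^ (e * (i : ℤ)) * y₀ := by rw [mul_assoc, ← hv]; group
  have e2 : y = y₀⁻¹ * γ ^ e * y₀ := by
    rw [Nat.cast_one, mul_one] at hy
    rw [mul_assoc, ← hy]; group
  rw [e1, e2, zpow_mul]
  have := conj_zpow (i := (i : ℤ)) (a := y₀⁻¹) (b := γ ^ e)
  rw [inv_inv] at this
  rw [this]

/-- numerical facts -/
theorem nums {d N u : ℕ} {τ T LB ℓ κ₀ b n : ℝ} (hM : MC d κ₀ τ T LB) (h1 : τ ≤ ℓ) (h2 : ℓ ≤ T)
    (hN : 79 / 100 * (d * ℓ) ≤ (N + 2) * LB) (hu1 : 6 / 10 * LB ≤ u * ℓ)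
    (hu2 : u * ℓ ≤ 2 / 3 * LB) (hb : 0 < b) (hn : N * b ≤ n) :
    0 < ℓ ∧ 15 * ℓ ≤ LB ∧ 1000000 ≤ (N : ℝ) ∧ 21 * ((u : ℝ) + 1) ≤ N + 2 ∧
      474 / 1000 * (d : ℝ) ≤ (N + 2) * u ∧ 1000000 * b ≤ n := by
  have hτ := hM.hτ
  have hℓ : 0 < ℓ := lt_of_lt_of_le hτ h1
  have hLB : 0 < LB := by
    have := hM.h1
    norm_num at this
    linarith
  have hd : (0 : ℝ) < d := by exact_mod_cast hM.hd
  have hT : 15 * ℓ ≤ LB := by have := hM.h2; linarith
  have hdτ : (d : ℝ) * τ ≤ d * ℓ := mul_le_mul_of_nonneg_left h1 hd.le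
  have hN' : 1000000 ≤ (N : ℝ) := by
    have e1 : 7900000 * LB ≤ ((N : ℝ) + 2) * LB := by
      have := hM.h3
      have := hM.h4
      linarith
    have := le_of_mul_le_mul_right e1 hLB
    linarith
  refine ⟨hℓ, hT, hN', ?_, ?_, ?_⟩
  · have e1 : (d : ℝ) * τ ^ 2 ≤ d * ℓ ^ 2 :=
      mul_le_mul_of_nonneg_left (pow_le_pow_left₀ hτ.le h1 2) hd.le
    have e2 : 79 / 100 * (20 * LB) * LB ≤ ((N : ℝ) + 2) * ℓ * LB := by
      have e3 := mul_le_mul_of_nonneg_right hN hℓ.le
      have := hM.h5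
      nlinarith
    have e3 := le_of_mul_le_mul_right e2 hLB
    have e4 : 21 * ((u : ℝ) + 1) * ℓ ≤ (N + 2) * ℓ := by nlinarith
    exact le_of_mul_le_mul_right e4 hℓ
  · have e1 : 474 / 1000 * (d : ℝ) * ℓ ≤ (N + 2) * u * ℓ := by
      have e2 := mul_le_mul_of_nonneg_left hu1 (by positivity : (0 : ℝ) ≤ (N : ℝ) + 2)
      nlinarith
    exact le_of_mul_le_mul_right e1 hℓ
  · have := mul_le_mul_of_nonneg_right hN' hb.le
    linarith

/-- the exponent `S + 1` and the rest `r` -/
theorem exps {d u K : ℕ} (hd : 1 ≤ d) (hu : 1 ≤ u) (h : (u : ℝ) * K ≤ 81 / 100 * d) :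
    ∃ S r : ℕ, u * K + u * (S + 1) = d + r ∧ r ≤ u := by
  have h1 : u * K < d := by
    have hd' : (0 : ℝ) < d := by exact_mod_cast hd
    have : ((u * K : ℕ) : ℝ) < d := by push_cast; linarith
    exact_mod_cast this
  refine ⟨(d - u * K - 1) / u, u * ((d - u * K - 1) / u + 1) - (d - u * K), ?_, ?_⟩
  · have h2 := Nat.div_add_mod (d - u * K - 1) u
    have h3 := Nat.mod_lt (d - u * K - 1) hu
    rw [mul_add, mul_one]
    omega
  · have h2 := Nat.div_add_mod (d - u * K - 1) u
    have h3 := Nat.mod_lt (d - u * K - 1) hu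
    rw [mul_add, mul_one]
    omega

theorem move_blk (h : Hyp D) (hi : LInv D) (hp : Pth D w.length (pt π w)) (hSB : SB D π w d m)
    (hM : MC d κ₀ τ T LB) (hker : π.ker ≤ Fd d) (hw : Triv d w) {c : C} {e : ℤ} {α β N k : ℕ} {x : ℝ → ℕ}
    {t0 : ℝ} (he : e = 1 ∨ e = -1) (hαβ : α ≤ β) (hβ : β ≤ w.length)
    (hB : Blk (pf S c e 1 π w) α β LB x N k t0)
    (h79 : 79 / 100 * (d * S.ell c) ≤ pf S c e 1 π w β - pf S c e 1 π w α)
    (h80 : pf S c e 1 π w β - pf S c e 1 π w α ≤ 80 / 100 * (d * S.ell c) + 2)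
    (hN : pf S c e 1 π w β - pf S c e 1 π w α ≤ (N + 2) * LB) :
    Move d (4 * d + 10) (DD d w (m + 3)) w := by
  have hLB : 0 < LB := by
    have := hM.h1
    norm_num at this
    linarith
  obtain ⟨u, K, i₀, E, hh, hu, hu1, hu2, hK1, hK2, hE, hEn, hhm, hpt, hhl, hEE, hEj⟩ :=
    move_pts h hi hp hSB hM he hαβ hβ hB h79 h80 hN
  set f := pf S c e 1 π w with hf
  set b := bst f α LB x k with hb
  have hlip : ∀ i, α ≤ i → i < β → |f (i + 1) - f i| ≤ 1 := by
    intro i _ hi'
    have h1 := S.u_lip c (1 * pt π w (i + 1)) (1 * pt π w i)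
    have h2 := hp.step i (by omega)
    rw [hf]
    simp only [pf]
    rw [one_mul, one_mul] at *
    rw [h.symm] at h1
    rcases he with he | he
    · subst he
      rw [Int.cast_one, one_mul, one_mul]
      exact h1.trans h2
    · subst he
      rw [show ((-1 : ℤ) : ℝ) * S.u c (pt π w (i + 1)) - ((-1 : ℤ) : ℝ) * S.u c (pt π w i) =
        -(S.u c (pt π w (i + 1)) - S.u c (pt π w i)) by push_cast; ring, abs_neg]
      exact h1.trans h2
  have hbig := hB.big hLB.le hlip
  have hbpos : 0 < b := by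
    have := hM.h1
    norm_num at this
    linarith
  have htot := hB.tot hLB.le
  have hn : (N : ℝ) * b ≤ (w.length : ℝ) := by
    have e1 : (β : ℝ) ≤ w.length := by exact_mod_cast hβ
    have e2 : (0 : ℝ) ≤ α := by positivity
    linarith
  obtain ⟨hℓ, hT, hN6, hu21, hd474, hb6⟩ := nums hM (S.ell_ge c) (S.ell_le c) (h79.trans hN)
    hu1 hu2 hbpos hn
  have hd0 : (0 : ℝ) < d := by exact_mod_cast hM.hd
  have hu0 : (0 : ℝ) < u := by exact_mod_cast hu
  have hK : 1 ≤ K := by
    rcases Nat.eq_zero_or_pos K with h0 | h0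
    · rw [h0] at hK1
      norm_num at hK1
      linarith
    · exact h0
  obtain ⟨Sx, r, hSr, hr⟩ := exps hM.hd hu hK2
  -- the three words
  obtain ⟨v, hv, hv1, hv2⟩ := loc_word h hi hp hSB hM he hαβ hβ hB u hu2
  obtain ⟨y, hy, hy1, hy2⟩ := loc_word h hi hp hSB hM he hαβ hβ hB 1 (by
    rw [Nat.cast_one, one_mul]; linarith)
  obtain ⟨z, hz, hz1, hz2⟩ := loc_word h hi hp hSB hM he hαβ hβ hB r (by
    have : (r : ℝ) * S.ell c ≤ u * S.ell c :=
      mul_le_mul_of_nonneg_right (by exact_mod_cast hr) hℓ.le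
    linarith)
  rw [← hf, ← hb] at hv2 hy2 hz2
  rw [one_mul] at hv1 hy1 hz1
  -- the loops in `G`
  have hloop : ∀ j < K, π (FreeGroup.mk (sub w (E j) (E (j + 1)))) =
      π (FreeGroup.mk (hh j)) * π (FreeGroup.mk v) * (π (FreeGroup.mk (hh (j + 1))))⁻¹ := by
    intro j hj
    have p1 := pt_sub π (hEn j hj.le) (hEn (j + 1) hj)
    exact loop_aux p1 (hpt j hj.le) (hpt (j + 1) hj) hv1 (by push_cast; ring)
  have hsl : ∀ j < K, ((sub w (E j) (E (j + 1))).length : ℝ) = (E (j + 1) : ℝ) - E j := by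
    intro j hj
    rw [sub_length (hEn j hj.le) (hEn (j + 1) hj), abs_of_nonneg]
    have : (E j : ℝ) ≤ E (j + 1) := by exact_mod_cast hE j hj
    linarith
  have hnorm := Fd_normal d
  by_cases hbigj : ∃ j < K, 7 / 10 * (w.length : ℝ) < (E (j + 1) : ℝ) - E j
  · obtain ⟨j, hj, hj7⟩ := hbigj
    right
    refine ⟨w.take (E j), sub w (E j) (E (j + 1)), w.drop (E (j + 1)),
      hh (j + 1) ++ FreeGroup.invRev v ++ FreeGroup.invRev (hh j),
      sub_split (hE j hj) (hEn (j + 1) hj), ?_, ?_, ?_, ?_⟩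
    · exact DD_mono (by omega) (DD_app3 hM.hd (hhm (j + 1) hj) (DD_inv hv) (DD_inv (hhm j hj.le)))
    · have l1 : (((w.drop (E (j + 1)) ++ w.take (E j)).length : ℕ) : ℝ) =
          w.length - ((E (j + 1) : ℝ) - E j) := by
        have h1 := hEn j hj.le
        have h2 := hEn (j + 1) hj
        rw [List.length_append, List.length_drop, List.length_take, min_eq_left h1]
        push_cast [Nat.cast_sub h2]
        ring
      have l2 : (((hh (j + 1) ++ FreeGroup.invRev v ++ FreeGroup.invRev (hh j)).length : ℕ) : ℝ) =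
          (hh (j + 1)).length + v.length + (hh j).length := by
        simp only [List.length_append, FreeGroup.invRev_length]
        push_cast
        ring
      have := hhl j hj.le
      have := hhl (j + 1) hj
      have := hEj j hj
      have e1 : 1000000 * b ≤ N * b := mul_le_mul_of_nonneg_right hN6 hbpos.le
      have key : (((hh (j + 1) ++ FreeGroup.invRev v ++ FreeGroup.invRev (hh j)).length : ℕ) : ℝ) <
          (((w.drop (E (j + 1)) ++ w.take (E j)).length : ℕ) : ℝ) := by
        rw [l1, l2]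
        nlinarith
      exact_mod_cast key
    · have l1 : (((w.drop (E (j + 1)) ++ w.take (E j)).length : ℕ) : ℝ) =
          w.length - ((E (j + 1) : ℝ) - E j) := by
        have h1 := hEn j hj.le
        have h2 := hEn (j + 1) hj
        rw [List.length_append, List.length_drop, List.length_take, min_eq_left h1]
        push_cast [Nat.cast_sub h2]
        ring
      have l2 : (((hh (j + 1) ++ FreeGroup.invRev v ++ FreeGroup.invRev (hh j)).length : ℕ) : ℝ) =
          (hh (j + 1)).length + v.length + (hh j).length := by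
        simp only [List.length_append, FreeGroup.invRev_length]
        push_cast
        ring
      have := hhl j hj.le
      have := hhl (j + 1) hj
      have key : (4 : ℝ) * ((((w.drop (E (j + 1)) ++ w.take (E j)).length : ℕ) : ℝ) +
          (((hh (j + 1) ++ FreeGroup.invRev v ++ FreeGroup.invRev (hh j)).length : ℕ) : ℝ)) ≤
          3 * (w.length : ℝ) := by
        rw [l1, l2]
        linarith
      exact_mod_cast key
    · -- triviality
      have k1 : FreeGroup.mk (hh (j + 1) ++ FreeGroup.invRev v ++ FreeGroup.invRev (hh j)) *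
          FreeGroup.mk (sub w (E j) (E (j + 1))) ∈ Fd d := by
        apply hker
        rw [MonoidHom.mem_ker, map_mul, hloop j hj]
        simp only [← FreeGroup.mul_mk, ← FreeGroup.inv_mk, map_mul, map_inv]
        group
      have k2 : FreeGroup.mk (w.take (E j)) * FreeGroup.mk (sub w (E j) (E (j + 1))) *
          FreeGroup.mk (w.drop (E (j + 1))) ∈ Fd d := by
        have h3 := hw
        unfold Triv at h3
        rw [sub_split (hE j hj) (hEn (j + 1) hj)] at h3
        rwa [FreeGroup.mul_mk, FreeGroup.mul_mk]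
      have k3 := hnorm.conj_mem _ k2 (FreeGroup.mk (w.drop (E (j + 1))))
      have k4 := (Fd d).mul_mem k3 ((Fd d).inv_mem k1)
      unfold Triv
      rw [← FreeGroup.mul_mk, ← FreeGroup.mul_mk, ← FreeGroup.inv_mk]
      convert k4 using 1
      group
  · push Not at hbigj
    left
    have hE0K : (E 0 : ℝ) < E K := by nlinarith
    have hE0K' : E 0 < E K := by exact_mod_cast hE0K
    have hEKn := hEn K le_rfl
    have hcert := cert_words (d := d) (n := w.length) (m := m) (w := w) hM.hd (hh := hh)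
      (aa := fun k => sub w (E k) (E (k + 1))) (v := v) (y := y) (z := z) (u := u) (K := K) (S := Sx) (r := r)
      hK hSr hr hhm (fun k _ => DD_sub _ _) hv hy hz
      (by
        intro j hj
        unfold Triv
        apply hker
        rw [MonoidHom.mem_ker]
        simp only [← FreeGroup.mul_mk, ← FreeGroup.inv_mk, map_mul, map_inv]
        rw [hloop j hj]
        group)
      (by
        intro j hj
        have l1 : (((FreeGroup.invRev (hh j) ++ sub w (E j) (E (j + 1)) ++ hh (j + 1) ++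
            FreeGroup.invRev v).length : ℕ) : ℝ) =
            (hh j).length + ((E (j + 1) : ℝ) - E j) + (hh (j + 1)).length + v.length := by
          rw [← hsl j hj]
          simp only [List.length_append, FreeGroup.invRev_length]
          push_cast
          ring
        have := hhl j hj.le
        have := hhl (j + 1) hj
        have := hbigj j hj
        have key : (4 : ℝ) * (((FreeGroup.invRev (hh j) ++ sub w (E j) (E (j + 1)) ++ hh (j + 1) ++
            FreeGroup.invRev v).length : ℕ) : ℝ) ≤ 3 * (w.length : ℝ) := by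
          rw [l1]
          linarith
        exact_mod_cast key)
      (by
        unfold Triv
        apply hker
        rw [MonoidHom.mem_ker, ← FreeGroup.mul_mk, map_mul, mk_wpow, map_zpow, pow_aux hv1 hy1]
        group)
      (by
        have l1 : (((v ++ wpow y (-(u : ℤ))).length : ℕ) : ℝ) = v.length + u * y.length := by
          rw [List.length_append]
          push_cast
          rw [wpow_length]
          push_cast
          rw [abs_neg, abs_of_pos hu0]
        have key : (4 : ℝ) * (((v ++ wpow y (-(u : ℤ))).length : ℕ) : ℝ) ≤ 3 * (w.length : ℝ) := by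
          rw [l1]
          have e1 : (u : ℝ) * (4000 * y.length) ≤ u * (4041 * b) :=
            mul_le_mul_of_nonneg_left hy2 hu0.le
          have e2 : 21 * ((u : ℝ) + 1) * b ≤ (N + 2) * b :=
            mul_le_mul_of_nonneg_right hu21 hbpos.le
          nlinarith
        exact_mod_cast key)
      (by
        unfold Triv
        apply hker
        rw [MonoidHom.mem_ker, ← FreeGroup.mul_mk, map_mul, mk_wpow, map_zpow, pow_aux hz1 hy1]
        group)
      (by
        have l1 : (((z ++ wpow y (-(r : ℤ))).length : ℕ) : ℝ) = z.length + r * y.length := by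
          rw [List.length_append]
          push_cast
          rw [wpow_length]
          push_cast
          rw [abs_neg, abs_of_nonneg (by positivity)]
        have hr' : (r : ℝ) ≤ u := by exact_mod_cast hr
        have key : (4 : ℝ) * (((z ++ wpow y (-(r : ℤ))).length : ℕ) : ℝ) ≤ 3 * (w.length : ℝ) := by
          rw [l1]
          have e0 : (r : ℝ) * y.length ≤ u * y.length :=
            mul_le_mul_of_nonneg_right hr' (by positivity)
          have e1 : (u : ℝ) * (4000 * y.length) ≤ u * (4041 * b) :=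
            mul_le_mul_of_nonneg_left hy2 hu0.le
          have e2 : 21 * ((u : ℝ) + 1) * b ≤ (N + 2) * b :=
            mul_le_mul_of_nonneg_right hu21 hbpos.le
          nlinarith
        exact_mod_cast key)
    rw [sub_flatten E K hE hEKn] at hcert
    refine ⟨w.take (E 0), sub w (E 0) (E K), w.drop (E K), _, sub_split hE0K'.le hEKn,
      unew_mem hM.hd hK hSr hr hhm hv hz, ?_, hcert⟩
    have l1 : (((hh 0 ++ wpow v (-((Sx : ℤ) + 1)) ++ (z ++ FreeGroup.invRev (hh K))).length : ℕ) : ℝ) =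
        (hh 0).length + ((Sx : ℝ) + 1) * v.length + (z.length + (hh K).length) := by
      simp only [List.length_append, FreeGroup.invRev_length]
      push_cast
      rw [wpow_length]
      push_cast
      rw [abs_neg, abs_of_nonneg (by positivity)]
    have l2 : (((sub w (E 0) (E K)).length : ℕ) : ℝ) = (E K : ℝ) - E 0 := by
      rw [sub_length (hEn 0 (Nat.zero_le _)) hEKn, abs_of_nonneg]
      linarith
    have hSx : (Sx : ℝ) + 1 ≤ 22 / 100 * (1000 / 474) * (N + 2) + 1 := by
      have e1 : (u : ℝ) * K + u * (Sx + 1) = d + r := by exact_mod_cast hSr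
      have hr' : (r : ℝ) ≤ u := by exact_mod_cast hr
      have e2 : ((Sx : ℝ) + 1) * u ≤ (22 / 100 * (1000 / 474) * (N + 2) + 1) * u := by
        nlinarith
      exact le_of_mul_le_mul_right e2 hu0
    have key : (((hh 0 ++ wpow v (-((Sx : ℤ) + 1)) ++ (z ++ FreeGroup.invRev (hh K))).length : ℕ) : ℝ) <
        (((sub w (E 0) (E K)).length : ℕ) : ℝ) := by
      rw [l1, l2]
      have h0 := hhl 0 (Nat.zero_le _)
      have hk := hhl K le_rfl
      have e1 : ((Sx : ℝ) + 1) * (4000 * v.length) ≤ (Sx + 1) * (4041 * b) :=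
        mul_le_mul_of_nonneg_left hv2 (by positivity)
      have e2 : ((Sx : ℝ) + 1) * b ≤ (22 / 100 * (1000 / 474) * (N + 2) + 1) * b :=
        mul_le_mul_of_nonneg_right hSx hbpos.le
      have e3 : 1000000 * b ≤ N * b := mul_le_mul_of_nonneg_right hN6 hbpos.le
      nlinarith
    exact_mod_cast key

end Pool.Agent.helper50.BW
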