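import Pool.Agent.helper50.BW.DefsM
/-! ## BW-M2 first indices and blocks (pure combinatorics of ℕ and ℝ; 250 lines)
exists_fidx: x t := least i ≥ α with t ≤ f i if t ≤ f β, otherwise β.  exists_mid: apply exists_fidx on [min a b, max a b]
to f or to -f.  exists_blk: x from exists_fidx; k = argmin of the N block lengths (Finset.exists_min_image);
the 4000 windows of length Lam0 + 10 starting at bp k + r (Lam0+10), r < 4000, lie in the first third (4000 (Lam0+10) ≤ LB/3)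
and have total index length ≤ block length, take the shortest.  tot, cnt: telescoping sums.
big: |f (x (bp (k+1))) - f (x (bp k))| ≥ LB - 2 and f is 1-Lipschitz (bp k ≥ f α, bp (k+1) ≤ bp N ≤ f β). -/
namespace Pool.Agent.helper50.BW
open Sum

theorem exists_fidx (f : ℕ → ℝ) {α β : ℕ} (hαβ : α ≤ β) (hf : ∀ i, α ≤ i → i < β → |f (i + 1) - f i| ≤ 1) :
    ∃ x : ℝ → ℕ, Monotone x ∧ (∀ t, α ≤ x t ∧ x t ≤ β) ∧ ∀ t, f α ≤ t → t ≤ f β → |f (x t) - t| ≤ 1 := by
  classical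
  let P : ℝ → ℕ → Prop := fun t i => α ≤ i ∧ i ≤ β ∧ t ≤ f i
  let x : ℝ → ℕ := fun t => if h : ∃ i, P t i then Nat.find h else β
  have hx1 : ∀ t (h : ∃ i, P t i), x t = Nat.find h := fun t h => dif_pos h
  have hx2 : ∀ t, (¬ ∃ i, P t i) → x t = β := fun t h => dif_neg h
  have hmem : ∀ t, α ≤ x t ∧ x t ≤ β := by
    intro t
    by_cases h : ∃ i, P t i
    · rw [hx1 t h]
      have := Nat.find_spec h
      exact ⟨this.1, this.2.1⟩
    · rw [hx2 t h]
      exact ⟨hαβ, le_rfl⟩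
  refine ⟨x, ?_, hmem, ?_⟩
  · intro t t' htt
    by_cases h' : ∃ i, P t' i
    · have hs := Nat.find_spec h'
      have h : ∃ i, P t i := ⟨Nat.find h', hs.1, hs.2.1, htt.trans hs.2.2⟩
      rw [hx1 t h, hx1 t' h']
      exact Nat.find_min' h ⟨hs.1, hs.2.1, htt.trans hs.2.2⟩
    · rw [hx2 t' h']
      exact (hmem t).2
  · intro t h1 h2
    have h : ∃ i, P t i := ⟨β, hαβ, le_rfl, h2⟩
    have hs := Nat.find_spec h
    rw [hx1 t h]
    rcases Nat.eq_or_lt_of_le hs.1 with he | hl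
    · have h3 : f (Nat.find h) = t := by
        apply le_antisymm _ hs.2.2
        rw [← he]; exact h1
      rw [h3]; simp
    · obtain ⟨j, hj⟩ : ∃ j, Nat.find h = j + 1 := ⟨Nat.find h - 1, by omega⟩
      have hjα : α ≤ j := by omega
      have hjβ : j < β := by have := hs.2.1; omega
      have hnot : ¬ P t j := Nat.find_min h (by omega)
      have hlt : f j < t := by
        by_contra hc
        exact hnot ⟨hjα, hjβ.le, not_lt.1 hc⟩
      have h4 := hf j hjα hjβ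
      have h5 : t ≤ f (j + 1) := by rw [← hj]; exact hs.2.2
      rw [hj]
      rw [abs_le] at h4 ⊢
      constructor <;> linarith [h4.1, h4.2]

theorem exists_mid (f : ℕ → ℝ) {a b n : ℕ} (ha : a ≤ n) (hb : b ≤ n) (hf : ∀ i, i < n → |f (i + 1) - f i| ≤ 1)
    {t : ℝ} (h1 : f a ≤ t) (h2 : t ≤ f b) : ∃ x, Mid a x b ∧ |f x - t| ≤ 1 := by
  rcases le_total a b with hab | hab
  · obtain ⟨x, -, hx2, hx3⟩ := exists_fidx f hab (fun i _ hi => hf i (by omega))
    refine ⟨x t, ⟨?_, ?_⟩, hx3 t h1 h2⟩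
    · rw [min_eq_left hab]; exact (hx2 t).1
    · rw [max_eq_right hab]; exact (hx2 t).2
  · obtain ⟨x, -, hx2, hx3⟩ := exists_fidx (fun i => - f i) hab (fun i _ hi => by
      have := hf i (by omega)
      rw [abs_le] at this ⊢
      constructor <;> linarith [this.1, this.2])
    have h3 := hx3 (-t) (by linarith) (by linarith)
    refine ⟨x (-t), ⟨?_, ?_⟩, ?_⟩
    · rw [min_eq_right hab]; exact (hx2 _).1
    · rw [max_eq_left hab]; exact (hx2 _).2
    · rw [abs_le] at h3 ⊢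
      constructor <;> linarith [h3.1, h3.2]

theorem exists_blk (f : ℕ → ℝ) {α β : ℕ} (hαβ : α ≤ β) (hf : ∀ i, α ≤ i → i < β → |f (i + 1) - f i| ≤ 1)
    {LB : ℝ} (hLB : 12000 * (Lam0 + 10) ≤ LB) {N : ℕ} (hN : 0 < N) (hfit : bp f α LB N ≤ f β - 2 * KU) :
    ∃ x k t0, Blk f α β LB x N k t0 := by
  obtain ⟨x, hx1, hx2, hx3⟩ := exists_fidx f hαβ hf
  obtain ⟨k, hk, hkmin⟩ := Finset.exists_min_image (Finset.range N)
    (fun j => (x (bp f α LB (j + 1)) : ℝ) - x (bp f α LB j)) ⟨0, Finset.mem_range.2 hN⟩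
  have hL : (0 : ℝ) ≤ Lam0 + 10 := by norm_num
  -- windows
  have hsum : ∑ r ∈ Finset.range 4000, ((x (bp f α LB k + ((r + 1 : ℕ) : ℝ) * (Lam0 + 10)) : ℝ)
      - x (bp f α LB k + ((r : ℕ) : ℝ) * (Lam0 + 10)))
      ≤ (x (bp f α LB (k + 1)) : ℝ) - x (bp f α LB k) := by
    rw [Finset.sum_range_sub (fun r : ℕ => (x (bp f α LB k + (r : ℝ) * (Lam0 + 10)) : ℝ))]
    have e1 : bp f α LB k + ((0 : ℕ) : ℝ) * (Lam0 + 10) = bp f α LB k := by simp
    rw [e1]
    have e2 : bp f α LB k + ((4000 : ℕ) : ℝ) * (Lam0 + 10) ≤ bp f α LB (k + 1) := by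
      unfold bp
      push_cast
      have : (4000 : ℝ) * (Lam0 + 10) ≤ LB := by linarith
      linarith
    have e3 : x (bp f α LB k + ((4000 : ℕ) : ℝ) * (Lam0 + 10)) ≤ x (bp f α LB (k + 1)) := hx1 e2
    have e4 : (x (bp f α LB k + ((4000 : ℕ) : ℝ) * (Lam0 + 10)) : ℝ) ≤ x (bp f α LB (k + 1)) := by
      exact_mod_cast e3
    linarith
  obtain ⟨r, hr, hrmin⟩ := Finset.exists_min_image (Finset.range 4000)
    (fun r : ℕ => (x (bp f α LB k + ((r + 1 : ℕ) : ℝ) * (Lam0 + 10)) : ℝ)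
      - x (bp f α LB k + ((r : ℕ) : ℝ) * (Lam0 + 10))) ⟨0, by simp⟩
  have hcard := Finset.card_nsmul_le_sum (Finset.range 4000)
    (fun r : ℕ => (x (bp f α LB k + ((r + 1 : ℕ) : ℝ) * (Lam0 + 10)) : ℝ)
      - x (bp f α LB k + ((r : ℕ) : ℝ) * (Lam0 + 10))) _ hrmin
  rw [Finset.card_range, nsmul_eq_mul] at hcard
  refine ⟨x, k, bp f α LB k + (r : ℝ) * (Lam0 + 10), ?_⟩
  have hr' : r < 4000 := Finset.mem_range.1 hr
  have hr1 : ((r : ℝ) + 1) ≤ 4000 := by exact_mod_cast hr'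
  constructor
  · exact hx1
  · exact hx2
  · exact hx3
  · exact hfit
  · exact Finset.mem_range.1 hk
  · intro j hj
    exact hkmin j (Finset.mem_range.2 hj)
  · have : (0 : ℝ) ≤ (r : ℝ) * (Lam0 + 10) := mul_nonneg (Nat.cast_nonneg r) hL
    linarith
  · have h1 : ((r : ℝ) + 1) * (Lam0 + 10) ≤ 4000 * (Lam0 + 10) := mul_le_mul_of_nonneg_right hr1 hL
    have h2 : (4000 : ℝ) * (Lam0 + 10) ≤ LB / 3 := by linarith
    linarith
  · have e5 : bp f α LB k + (r : ℝ) * (Lam0 + 10) + (Lam0 + 10)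
        = bp f α LB k + ((r + 1 : ℕ) : ℝ) * (Lam0 + 10) := by push_cast; ring
    rw [e5]
    have h4 : ((4000 : ℕ) : ℝ) = 4000 := by norm_num
    rw [h4] at hcard
    linarith

variable {f : ℕ → ℝ} {α β : ℕ} {LB : ℝ} {x : ℝ → ℕ} {N k : ℕ} {t0 : ℝ}

theorem Blk.cnt (hB : Blk f α β LB x N k t0) {i j : ℕ} (hij : i ≤ j) (hj : j ≤ N) :
    ((j : ℝ) - i) * bst f α LB x k ≤ (x (bp f α LB j) : ℝ) - x (bp f α LB i) := by
  induction j, hij using Nat.le_induction with
  | base => simp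
  | succ m hm ih =>
    have h1 := ih (by omega)
    have h2 := hB.least m (by omega)
    have h3 : bst f α LB x k ≤ x (bp f α LB (m + 1)) - x (bp f α LB m) := h2
    push_cast
    linarith

theorem Blk.tot (hB : Blk f α β LB x N k t0) (hLB : 0 ≤ LB) : (N : ℝ) * bst f α LB x k ≤ (β : ℝ) - α := by
  have h1 := hB.cnt (Nat.zero_le N) le_rfl
  have h2 : (x (bp f α LB N) : ℝ) ≤ β := by exact_mod_cast (hB.mem _).2
  have h3 : (α : ℝ) ≤ x (bp f α LB 0) := by exact_mod_cast (hB.mem _).1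
  push_cast at h1
  linarith

theorem Blk.big (hB : Blk f α β LB x N k t0) (hLB : 0 ≤ LB)
    (hf : ∀ i, α ≤ i → i < β → |f (i + 1) - f i| ≤ 1) : LB - 2 ≤ bst f α LB x k := by
  have hlip : ∀ i j, α ≤ i → i ≤ j → j ≤ β → f j - f i ≤ (j : ℝ) - i := by
    intro i j hi hij
    induction j, hij using Nat.le_induction with
    | base => intro _; simp
    | succ m hm ih =>
      intro hmβ
      have h1 := ih (by omega)
      have h2 := hf m (by omega) (by omega)
      rw [abs_le] at h2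
      push_cast
      linarith [h2.2]
  have hkN : k + 1 ≤ N := hB.kN
  have hkN' : ((k : ℝ) + 1) ≤ N := by exact_mod_cast hkN
  have hbk : f α ≤ bp f α LB k := by
    unfold bp
    have : (0 : ℝ) ≤ (k : ℝ) * LB := mul_nonneg (Nat.cast_nonneg k) hLB
    have h0 : (0 : ℝ) ≤ 2 * KU := by norm_num
    linarith
  have hbb : bp f α LB (k + 1) = bp f α LB k + LB := by
    unfold bp; push_cast; ring
  have hbN : bp f α LB (k + 1) ≤ bp f α LB N := by
    unfold bp
    have : ((k : ℝ) + 1) * LB ≤ N * LB := mul_le_mul_of_nonneg_right hkN' hLB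
    push_cast
    linarith
  have hbβ : bp f α LB (k + 1) ≤ f β := by
    have h0 : (0 : ℝ) ≤ 2 * KU := by norm_num
    linarith [hB.fits]
  have v1 := hB.val (bp f α LB k) hbk (by linarith)
  have v2 := hB.val (bp f α LB (k + 1)) (by linarith) hbβ
  have hm : x (bp f α LB k) ≤ x (bp f α LB (k + 1)) := hB.mono (by linarith)
  have hl := hlip _ _ (hB.mem (bp f α LB k)).1 hm (hB.mem (bp f α LB (k + 1))).2
  rw [abs_le] at v1 v2
  unfold bst
  linarith [v1.1, v1.2, v2.1, v2.2]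

end Pool.Agent.helper50.BW
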