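import Pool.Agent.helper50.BW.DefsS
/-! ## BW-S1 positions of objects (uses A1 for nonneg only)
uo_close: the set {u_c p | r_b p ≤ K} is nonempty (dense) and has diameter ≤ Δ (sep).
uo_smul: with a := u (g•c) (g*1) - u c 1 one has u (g•c) (g*x) = u c x + a for all x (u_smul), and for
cones b ≠ c the set for (g•c, g•b) is the set for (c,b) shifted by a (r_smul; p = g*p').
uo_gen: (gen c)^k • c = c (stab); u c (gen c ^ k * x) = u c x + k ell c (u_gen, induction on k). -/
namespace Pool.Agent.helper50.BW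
open Sum
variable {G : Type} [Group G] {D : G → G → ℝ} {C : Type} [MulAction G C] {K Δ τ T : ℝ}

theorem CSys.u_gen_zpow (S : CSys D C K Δ τ T) (c : C) (k : ℤ) (x : G) :
    S.u c (S.gen c ^ k * x) = S.u c x + k * S.ell c := by
  induction k using Int.induction_on with
  | zero => simp
  | succ i ih =>
    have h : S.gen c ^ ((i : ℤ) + 1) * x = S.gen c * (S.gen c ^ (i : ℤ) * x) := by
      rw [← mul_assoc, ← zpow_one_add, add_comm]
    rw [h, S.u_gen, ih]
    push_cast; ring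
  | pred i ih =>
    have h : S.gen c * (S.gen c ^ (-(i : ℤ) - 1) * x) = S.gen c ^ (-(i : ℤ)) * x := by
      rw [← mul_assoc, ← zpow_one_add]
      congr 2; ring
    have h2 := S.u_gen c (S.gen c ^ (-(i : ℤ) - 1) * x)
    rw [h, ih] at h2
    push_cast at h2 ⊢
    linarith

theorem CSys.gen_zpow_smul (S : CSys D C K Δ τ T) (c : C) (k : ℤ) : S.gen c ^ k • c = c :=
  (S.stab _ c).2 (Subgroup.zpow_mem_zpowers _ _)

theorem CSys.r_gen_zpow (S : CSys D C K Δ τ T) (c : C) (k : ℤ) (x : G) :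
    S.r c (S.gen c ^ k * x) = S.r c x := by
  have h := S.r_smul (S.gen c ^ k) c x
  rwa [S.gen_zpow_smul] at h

/-- gen (g • c) ^ k = g * gen c ^ k * g⁻¹ -/
theorem CSys.gen_zpow_conj (S : CSys D C K Δ τ T) (g : G) (c : C) (k : ℤ) :
    S.gen (g • c) ^ k = g * S.gen c ^ k * g⁻¹ := by
  rw [S.gen_smul, conj_zpow]

theorem S1_ne (S : CSys D C K Δ τ T) (c b : C) : {t | ∃ p, S.r b p ≤ K ∧ t = S.u c p}.Nonempty := by
  obtain ⟨p, hp, -⟩ := S.dense b 0
  exact ⟨_, p, hp, rfl⟩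

theorem S1_bdd (S : CSys D C K Δ τ T) {b c : C} (hbc : b ≠ c) :
    BddAbove {t | ∃ p, S.r b p ≤ K ∧ t = S.u c p} := by
  obtain ⟨p, hp, -⟩ := S.dense b 0
  refine ⟨S.u c p + Δ, ?_⟩
  rintro t ⟨q, hq, rfl⟩
  have := (abs_le.1 (S.sep b c q p hbc hq hp)).2
  linarith

theorem uo_close (S : CSys D C K Δ τ T) {b c : C} (hbc : b ≠ c) {p : G} (hp : S.r b p ≤ K) :
    |uo S c (inr b) - S.u c p| ≤ Δ := by
  have h1 : uo S c (inr b) ≤ S.u c p + Δ := by
    refine csSup_le (S1_ne S c b) ?_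
    rintro t ⟨q, hq, rfl⟩
    have := (abs_le.1 (S.sep b c q p hbc hq hp)).2
    linarith
  have h2 : S.u c p ≤ uo S c (inr b) := le_csSup (S1_bdd S hbc) ⟨p, hp, rfl⟩
  have h3 := (abs_nonneg _).trans (S.sep b c p p hbc hp hp)
  rw [abs_le]
  constructor <;> linarith

theorem S1_shift (S : CSys D C K Δ τ T) {g : G} {c c' b : C} {a : ℝ} (hbc : b ≠ c)
    (h : ∀ x, S.u c' (g * x) = S.u c x + a) : uo S c' (inr (g • b)) = uo S c (inr b) + a := by
  have hset : {t | ∃ p, S.r (g • b) p ≤ K ∧ t = S.u c' p} =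
      (fun t => t + a) '' {t | ∃ p, S.r b p ≤ K ∧ t = S.u c p} := by
    ext t
    constructor
    · rintro ⟨p, hp, rfl⟩
      refine ⟨S.u c (g⁻¹ * p), ⟨g⁻¹ * p, ?_, rfl⟩, ?_⟩
      · have := S.r_smul g b (g⁻¹ * p)
        rw [mul_inv_cancel_left] at this
        rw [← this]; exact hp
      · have := h (g⁻¹ * p)
        rw [mul_inv_cancel_left] at this
        rw [this]
    · rintro ⟨s, ⟨p, hp, rfl⟩, rfl⟩
      exact ⟨g * p, by rw [S.r_smul]; exact hp, (h p).symm⟩
  show sSup _ = sSup _ + a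
  rw [hset]
  have hl := isLUB_csSup (S1_ne S c b) (S1_bdd S hbc)
  have hl2 : IsLUB ((fun t => t + a) '' {t | ∃ p, S.r b p ≤ K ∧ t = S.u c p})
      (sSup {t | ∃ p, S.r b p ≤ K ∧ t = S.u c p} + a) := by
    constructor
    · rintro _ ⟨s, hs, rfl⟩
      have := hl.1 hs
      simpa using this
    · intro y hy
      have : sSup {t | ∃ p, S.r b p ≤ K ∧ t = S.u c p} ≤ y - a := by
        apply hl.2
        intro s hs
        have := hy ⟨s, hs, rfl⟩
        simp only at this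
        linarith
      linarith
  exact hl2.csSup_eq ((S1_ne S c b).image _)

theorem uo_smul (S : CSys D C K Δ τ T) (g : G) (c : C) :
    ∃ a : ℝ, ∀ X : G ⊕ C, X ≠ inr c → uo S (g • c) (g • X) = uo S c X + a := by
  have h : ∀ x, S.u (g • c) (g * x) = S.u c x + (S.u (g • c) (g * 1) - S.u c 1) := by
    intro x
    have := S.u_smul g c x 1
    linarith
  refine ⟨S.u (g • c) (g * 1) - S.u c 1, ?_⟩
  rintro (x | b) hX
  · exact h x
  · exact S1_shift S (fun h' => hX (by rw [h'])) h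

theorem uo_gen (S : CSys D C K Δ τ T) (c : C) (k : ℤ) (X : G ⊕ C) (hX : X ≠ inr c) :
    uo S c (S.gen c ^ k • X) = uo S c X + k * S.ell c := by
  rcases X with x | b
  · exact S.u_gen_zpow c k x
  · exact S1_shift S (fun h' => hX (by rw [h'])) (fun x => S.u_gen_zpow c k x)

end Pool.Agent.helper50.BW
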