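import Pool.Agent.helper50.BW.M1
import Pool.Agent.helper50.BW.M3
import Pool.Agent.helper50.BW.S1
/-! ## BW-M4 bridges between the path and its translates along one cone (uses M1, M2, M3; 250 lines)
axis_sb: SB with g⁻¹ g' (LInv, close_axis).
bridge: f := pf S c e g π w; y₀ = x t0, y₁ = x (t0 + (Lam0+10)), z₀ = x (t0 + iℓ), z₁ = x (t0 + (Lam0+10) + iℓ).  All four positions are
in [f α + 2KU, f β - 2KU], so |f(·) - position| ≤ 1 and near_axis gives r ≤ 2KU.  u_c (gen c^{e i} g y) = u_c (g y) + e i ℓ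
(u_gen_zpow), |f(z₀) - f(y₀) - iℓ| ≤ 2.  axis_sb for g (indices z₀,z₁) and gen c^{ei} g (indices y₀,y₁); y₁ - y₀ ≤ bst/4000 (w3).
bridge': hh := h₁ ++ sub w f₁ y₀.  loc_word: z in block k by monotonicity; v := sub w y₀ z ++ h₁ ++ sub w f₁ y₀ (DD_app3). -/
namespace Pool.Agent.helper50.BW
open Sum

variable {G : Type} [Group G] {D : G → G → ℝ} {C : Type} [MulAction G C] {Δ τ T : ℝ} {d m : ℕ} {κ₀ LB : ℝ}
  {S : CSys D C KU Δ τ T} {π : FreeGroup ℕ →* G} {w : W}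
theorem axis_sb (hi : LInv D) (hSB : SB D π w d m) {c : C} {g g' : G} {y₀ y₁ z₀ z₁ : ℕ}
    (hy₀ : y₀ ≤ w.length) (hy₁ : y₁ ≤ w.length) (hz₀ : z₀ ≤ w.length) (hz₁ : z₁ ≤ w.length)
    (r1 : S.r c (g * pt π w y₀) ≤ 2 * KU) (r2 : S.r c (g * pt π w y₁) ≤ 2 * KU)
    (r3 : S.r c (g' * pt π w z₀) ≤ 2 * KU) (r4 : S.r c (g' * pt π w z₁) ≤ 2 * KU)
    (h0 : |S.u c (g * pt π w y₀) - S.u c (g' * pt π w z₀)| ≤ 2)
    (h1 : |S.u c (g * pt π w y₁) - S.u c (g' * pt π w z₁)| ≤ 2)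
    (hl : Lam0 ≤ |S.u c (g * pt π w y₁) - S.u c (g * pt π w y₀)|) :
    Brg π w d m (g⁻¹ * g') y₀ y₁ z₀ z₁ := by
  refine hSB (g⁻¹ * g') y₀ y₁ z₀ z₁ hy₀ hy₁ hz₀ hz₁ ?_ ?_ ?_
  · have h2 := close_axis S r1 r3 h0
    rw [← hi g, mul_assoc g⁻¹, mul_inv_cancel_left]
    exact h2
  · have h2 := close_axis S r2 r4 h1
    rw [← hi g, mul_assoc g⁻¹, mul_inv_cancel_left]
    exact h2
  · have h2 := S.u_lip c (g * pt π w y₀) (g * pt π w y₁)
    rw [hi] at h2
    rw [abs_sub_comm] at hl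
    linarith

/-- positions and heights of the first index points -/
theorem M4_val (h : Hyp D) (hi : LInv D) (hp : Pth D w.length (pt π w)) {c : C} {e : ℤ} {g : G}
    {α β N k : ℕ} {x : ℝ → ℕ} {t0 : ℝ} (he : e = 1 ∨ e = -1) (hαβ : α ≤ β) (hβ : β ≤ w.length)
    (hB : Blk (pf S c e g π w) α β LB x N k t0) {t : ℝ} (h1 : pf S c e g π w α + 2 * KU ≤ t)
    (h2 : t ≤ pf S c e g π w β - 2 * KU) :
    |pf S c e g π w (x t) - t| ≤ 1 ∧ S.r c (g * pt π w (x t)) ≤ 2 * KU ∧ x t ≤ w.length := by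
  have hx := hB.mem t
  have h3 := hB.val t (by linarith) (by linarith)
  have h4 := abs_le.1 h3
  refine ⟨h3, ?_, hx.2.trans hβ⟩
  have hmid : Mid α (x t) β := by
    unfold Mid
    omega
  refine near_axis h S (hp.smul hi g) hmid (hαβ.trans hβ) hβ ?_ ?_
  · have h5 : KU ≤ |pf S c e g π w (x t) - pf S c e g π w α| := by
      refine le_trans ?_ (le_abs_self _)
      linarith
    unfold pf at h5
    rcases he with rfl | rfl
    · simpa using h5
    · rw [abs_sub_comm] at h5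
      simp only [Int.cast_neg, Int.cast_one, neg_mul, one_mul] at h5
      rw [show -S.u c (g * pt π w α) - -S.u c (g * pt π w (x t)) =
        S.u c (g * pt π w (x t)) - S.u c (g * pt π w α) by ring] at h5
      exact h5
  · have h5 : KU ≤ |pf S c e g π w (x t) - pf S c e g π w β| := by
      rw [abs_sub_comm]
      refine le_trans ?_ (le_abs_self _)
      linarith
    unfold pf at h5
    rcases he with rfl | rfl
    · simpa using h5
    · rw [abs_sub_comm] at h5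
      simp only [Int.cast_neg, Int.cast_one, neg_mul, one_mul] at h5
      rw [show -S.u c (g * pt π w β) - -S.u c (g * pt π w (x t)) =
        S.u c (g * pt π w (x t)) - S.u c (g * pt π w β) by ring] at h5
      exact h5

/-- the window of a block is inside the admissible interval -/
theorem M4_win {f : ℕ → ℝ} (hM : MC d κ₀ τ T LB) {α β N k : ℕ} {x : ℝ → ℕ} {t0 : ℝ}
    (hB : Blk f α β LB x N k t0) :
    f α + 2 * KU ≤ t0 ∧ bp f α LB (k + 1) ≤ f β - 2 * KU ∧ t0 + (Lam0 + 10) ≤ bp f α LB k + LB / 3 ∧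
      bp f α LB (k + 1) = bp f α LB k + LB ∧ 0 < LB := by
  have hLB : 0 < LB := by
    have := hM.h1
    linarith
  have h1 := hB.w1
  have h2 := hB.w2
  have h3 := hB.fits
  have h4 := hB.kN
  have h5 : ((k : ℝ) + 1) ≤ N := by exact_mod_cast h4
  have h6 : (0 : ℝ) ≤ k := Nat.cast_nonneg k
  have h7 : ((k : ℝ) + 1) * LB ≤ N * LB := mul_le_mul_of_nonneg_right h5 hLB.le
  have h8 : 0 ≤ (k : ℝ) * LB := mul_nonneg h6 hLB.le
  unfold bp at *
  refine ⟨by linarith, ?_, by linarith, ?_, hLB⟩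
  · push_cast
    linarith
  · push_cast
    ring

theorem bridge (h : Hyp D) (hi : LInv D) (hp : Pth D w.length (pt π w)) (hSB : SB D π w d m)
    (hM : MC d κ₀ τ T LB) {c : C} {e : ℤ} {g : G} {α β N k : ℕ} {x : ℝ → ℕ} {t0 : ℝ} (he : e = 1 ∨ e = -1)
    (hαβ : α ≤ β) (hβ : β ≤ w.length) (hB : Blk (pf S c e g π w) α β LB x N k t0) (i : ℤ)
    (h1 : pf S c e g π w α + 2 * KU ≤ t0 + i * S.ell c)
    (h2 : t0 + (Lam0 + 10) + i * S.ell c ≤ pf S c e g π w β - 2 * KU) :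
    ∃ (z f₁ : ℕ) (h₁ : W), (x (t0 + i * S.ell c) ≤ z ∧ z ≤ x (t0 + (Lam0 + 10) + i * S.ell c)) ∧
      (x t0 ≤ f₁ ∧ f₁ ≤ x (t0 + (Lam0 + 10))) ∧ h₁ ∈ DD d w m ∧
      g * pt π w z * π (FreeGroup.mk h₁) = S.gen c ^ (e * i) * (g * pt π w f₁) ∧
      4000 * (h₁.length : ℝ) ≤ 40 * bst (pf S c e g π w) α LB x k ∧
      4000 * ((f₁ : ℝ) - x t0) ≤ bst (pf S c e g π w) α LB x k := by
  obtain ⟨w1, w2, w3, w4, hLB⟩ := M4_win hM hB
  obtain ⟨a1, a2, a3⟩ := M4_val h hi hp he hαβ hβ hB (t := t0) w1 (by linarith)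
  obtain ⟨b1, b2, b3⟩ := M4_val h hi hp he hαβ hβ hB (t := t0 + (Lam0 + 10)) (by linarith) (by linarith)
  obtain ⟨c1, c2, c3⟩ := M4_val h hi hp he hαβ hβ hB (t := t0 + i * S.ell c) h1 (by linarith)
  obtain ⟨d1, d2, d3⟩ := M4_val h hi hp he hαβ hβ hB (t := t0 + (Lam0 + 10) + i * S.ell c)
    (by linarith) h2
  have hy : x t0 ≤ x (t0 + (Lam0 + 10)) := hB.mono (by linarith)
  have hz : x (t0 + i * S.ell c) ≤ x (t0 + (Lam0 + 10) + i * S.ell c) := hB.mono (by linarith)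
  have hw3 := hB.w3
  have key : Brg π w d m (g⁻¹ * (S.gen c ^ (e * i) * g)) (x (t0 + i * S.ell c))
      (x (t0 + (Lam0 + 10) + i * S.ell c)) (x t0) (x (t0 + (Lam0 + 10))) := by
    have u1 : ∀ y : G, S.u c (S.gen c ^ (e * i) * g * y) = S.u c (g * y) + ((e * i : ℤ) : ℝ) * S.ell c := by
      intro y
      rw [mul_assoc]
      exact S.u_gen_zpow c (e * i) (g * y)
    have u2 : ∀ y : G, S.r c (S.gen c ^ (e * i) * g * y) = S.r c (g * y) := by
      intro y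
      rw [mul_assoc]
      exact S.r_gen_zpow c (e * i) (g * y)
    refine axis_sb (S := S) (c := c) hi hSB c3 d3 a3 b3 c2 d2 ?_ ?_ ?_ ?_ ?_
    · rw [u2]
      exact a2
    · rw [u2]
      exact b2
    · rw [u1, _root_.abs_le]
      unfold pf at a1 c1
      have a1' := _root_.abs_le.1 a1
      have c1' := _root_.abs_le.1 c1
      rcases he with rfl | rfl
      · push_cast at *
        constructor <;> linarith
      · push_cast at *
        constructor <;> linarith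
    · rw [u1, _root_.abs_le]
      unfold pf at b1 d1
      have b1' := _root_.abs_le.1 b1
      have d1' := _root_.abs_le.1 d1
      rcases he with rfl | rfl
      · push_cast at *
        constructor <;> linarith
      · push_cast at *
        constructor <;> linarith
    · unfold pf at c1 d1
      have c1' := _root_.abs_le.1 c1
      have d1' := _root_.abs_le.1 d1
      rcases he with rfl | rfl
      · push_cast at *
        refine le_trans ?_ (le_abs_self _)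
        linarith
      · push_cast at *
        rw [abs_sub_comm]
        refine le_trans ?_ (le_abs_self _)
        linarith
  obtain ⟨z, f₁, h₁, k1, k2, k3, k4, -, k6⟩ := key
  have k1' : x (t0 + i * S.ell c) ≤ z ∧ z ≤ x (t0 + (Lam0 + 10) + i * S.ell c) := by
    unfold Mid at k1
    omega
  have k2' : x t0 ≤ f₁ ∧ f₁ ≤ x (t0 + (Lam0 + 10)) := by
    unfold Mid at k2
    omega
  refine ⟨z, f₁, h₁, k1', k2', k3, ?_, ?_, ?_⟩
  · rw [mul_assoc, k4]
    group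
  · have hy' : (x t0 : ℝ) ≤ x (t0 + (Lam0 + 10)) := by exact_mod_cast hy
    rw [abs_of_nonneg (by linarith)] at k6
    unfold bst
    linarith
  · have : (f₁ : ℝ) ≤ x (t0 + (Lam0 + 10)) := by exact_mod_cast k2'.2
    unfold bst
    linarith

theorem bridge' (h : Hyp D) (hi : LInv D) (hp : Pth D w.length (pt π w)) (hSB : SB D π w d m)
    (hM : MC d κ₀ τ T LB) {c : C} {e : ℤ} {g : G} {α β N k : ℕ} {x : ℝ → ℕ} {t0 : ℝ} (he : e = 1 ∨ e = -1)
    (hαβ : α ≤ β) (hβ : β ≤ w.length) (hB : Blk (pf S c e g π w) α β LB x N k t0) (i : ℤ)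
    (h1 : pf S c e g π w α + 2 * KU ≤ t0 + i * S.ell c)
    (h2 : t0 + (Lam0 + 10) + i * S.ell c ≤ pf S c e g π w β - 2 * KU) :
    ∃ (z : ℕ) (hh : W), (x (t0 + i * S.ell c) ≤ z ∧ z ≤ x (t0 + (Lam0 + 10) + i * S.ell c)) ∧
      hh ∈ DD d w (m + 1) ∧
      g * pt π w z * π (FreeGroup.mk hh) = S.gen c ^ (e * i) * (g * pt π w (x t0)) ∧
      4000 * (hh.length : ℝ) ≤ 41 * bst (pf S c e g π w) α LB x k := by
  obtain ⟨z, f₁, h₁, k1, k2, k3, k4, k5, k6⟩ := bridge h hi hp hSB hM he hαβ hβ hB i h1 h2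
  have hx0 : x t0 ≤ w.length := (hB.mem t0).2.trans hβ
  have hf1 : f₁ ≤ w.length := k2.2.trans ((hB.mem _).2.trans hβ)
  refine ⟨z, h₁ ++ sub w f₁ (x t0), k1, DD_app k3 (DD_mono (Nat.zero_le m) (DD_sub _ _)), ?_, ?_⟩
  · rw [← FreeGroup.mul_mk, map_mul, ← mul_assoc, k4, mul_assoc, mul_assoc g, pt_sub π hf1 hx0]
  · rw [List.length_append]
    push_cast
    rw [sub_length hf1 hx0]
    have : (x t0 : ℝ) ≤ f₁ := by exact_mod_cast k2.1
    rw [abs_sub_comm, abs_of_nonneg (by linarith)]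
    linarith

theorem loc_word (h : Hyp D) (hi : LInv D) (hp : Pth D w.length (pt π w)) (hSB : SB D π w d m)
    (hM : MC d κ₀ τ T LB) {c : C} {e : ℤ} {g : G} {α β N k : ℕ} {x : ℝ → ℕ} {t0 : ℝ} (he : e = 1 ∨ e = -1)
    (hαβ : α ≤ β) (hβ : β ≤ w.length) (hB : Blk (pf S c e g π w) α β LB x N k t0) (i : ℕ)
    (h2 : (i : ℝ) * S.ell c ≤ 2 / 3 * LB) :
    ∃ v ∈ DD d w (m + 1), g * pt π w (x t0) * π (FreeGroup.mk v) = S.gen c ^ (e * i) * (g * pt π w (x t0)) ∧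
      4000 * (v.length : ℝ) ≤ 4041 * bst (pf S c e g π w) α LB x k := by
  obtain ⟨w1, w2, w3, w4, hLB⟩ := M4_win hM hB
  have hℓ : 0 < S.ell c := lt_of_lt_of_le hM.hτ (S.ell_ge c)
  have hil : 0 ≤ (i : ℝ) * S.ell c := mul_nonneg (Nat.cast_nonneg i) hℓ.le
  have hc : (((i : ℤ) : ℤ) : ℝ) = (i : ℝ) := by norm_num
  obtain ⟨z, f₁, h₁, k1, k2, k3, k4, k5, k6⟩ := bridge h hi hp hSB hM he hαβ hβ hB (i : ℤ)
    (by rw [hc]; linarith) (by rw [hc]; linarith)
  rw [hc] at k1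
  have hx0 : x t0 ≤ w.length := (hB.mem t0).2.trans hβ
  have hf1 : f₁ ≤ w.length := k2.2.trans ((hB.mem _).2.trans hβ)
  have hzl : z ≤ w.length := k1.2.trans ((hB.mem _).2.trans hβ)
  have hz1 : x t0 ≤ z := le_trans (hB.mono (by linarith)) k1.1
  have hz2 : z ≤ x (bp (pf S c e g π w) α LB (k + 1)) := k1.2.trans (hB.mono (by linarith))
  have hz3 : x (bp (pf S c e g π w) α LB k) ≤ x t0 := hB.mono hB.w1
  refine ⟨sub w (x t0) z ++ h₁ ++ sub w f₁ (x t0), DD_app3 hM.hd (DD_mono (Nat.zero_le m) (DD_sub _ _)) k3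
    (DD_mono (Nat.zero_le m) (DD_sub _ _)), ?_, ?_⟩
  · rw [← FreeGroup.mul_mk, ← FreeGroup.mul_mk, map_mul, map_mul, ← mul_assoc, ← mul_assoc,
      mul_assoc g, pt_sub π hx0 hzl, k4, mul_assoc, mul_assoc g, pt_sub π hf1 hx0]
  · rw [List.length_append, List.length_append]
    push_cast
    rw [sub_length hf1 hx0, sub_length hx0 hzl]
    have e1 : (x t0 : ℝ) ≤ f₁ := by exact_mod_cast k2.1
    have e2 : (x t0 : ℝ) ≤ z := by exact_mod_cast hz1
    have e3 : (z : ℝ) ≤ x (bp (pf S c e g π w) α LB (k + 1)) := by exact_mod_cast hz2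
    have e4 : (x (bp (pf S c e g π w) α LB k) : ℝ) ≤ x t0 := by exact_mod_cast hz3
    rw [abs_sub_comm (x t0 : ℝ) f₁, abs_of_nonneg (sub_nonneg.2 e1), abs_of_nonneg (sub_nonneg.2 e2)]
    have e5 : (z : ℝ) - x t0 ≤ bst (pf S c e g π w) α LB x k := by
      unfold bst
      linarith
    linarith

end Pool.Agent.helper50.BW
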