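import Pool.Agent.helper50.BW.M4
/-! ## BW-M5 crossing a relator, main case (uses M4; 250 lines)
u := ⌊(2/3 LB)/ℓ⌋₊: 6/10 LB ≤ uℓ ≤ 2/3 LB (ℓ ≤ T ≤ LB/15), u ≥ 1.  v from loc_word (i = u).
s := round((q₀ - e t0)/(uℓ)): |e t0 + s u ℓ - q₀| ≤ uℓ/2 ≤ LB/3.  So the translated window, u_c-positions e t0 + suℓ and
e (t0 + Lam0 + 10) + suℓ, lies in the range [f'(α')+2KU, f'(β')-2KU] of f' = pf S c e' g' (times e').
z₀ := x' (e'(e t0 + suℓ)), z₁ := x' (e'(e (t0+Lam0+10) + suℓ)), y₀ = x t0, y₁ = x (t0+Lam0+10).  near_axis for all.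
axis_sb for gen c^{us} g (y₀,y₁) and g' (z₀,z₁): y, z', h₂ with gen c^{us} g pt y * h₂ = g' pt z'.
hh := wpow v (e s) ++ (sub w y₀ y ++ h₂), z := y₀: g pt y₀ v^{es} = gen c^{us} g pt y₀.
Lengths (b := bst, b ≤ b'): |s| ≤ 82/100 Θ/(6/10 LB) + 1/2 ≤ 24.6 (N+2) + 1/2, |hh| ≤ |s| 4041/4000 b + 41/4000 b ≤ 40 N b ≤ 40 (β-α)
(Blk.tot), N + 2 ≥ Θ/(18 LB) ≥ 10^7/18; the same with N' and b ≤ b'.  |s| ≤ d because ℓ ≤ LB/15. -/
namespace Pool.Agent.helper50.BW
open Sum

variable {G : Type} [Group G] {D : G → G → ℝ} {C : Type} [MulAction G C] {Δ τ T : ℝ} {d m : ℕ} {κ₀ LB : ℝ}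
  {S : CSys D C KU Δ τ T} {π : FreeGroup ℕ →* G} {w : W}

/-- sign change -/
private theorem m5_e {er u t K : ℝ} (he : er = 1 ∨ er = -1) (h : |er * u - t| ≤ K) :
    |u - er * t| ≤ K := by
  rcases he with rfl | rfl
  · simpa using h
  · have : u - -1 * t = -(-1 * u - t) := by ring
    rw [this, abs_neg]; exact h

/-- iterated translation -/
private theorem m5_pow {a V γ : G} (h : a * V = γ * a) (k : ℤ) : a * V ^ k = γ ^ k * a := by
  have hV : V = a⁻¹ * γ * a := by rw [mul_assoc, ← h, inv_mul_cancel_left]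
  have h2 : V ^ k = a⁻¹ * γ ^ k * a := by
    rw [hV]
    have := conj_zpow (i := k) (a := a⁻¹) (b := γ)
    rw [inv_inv] at this
    exact this
  rw [h2]; group

/-- a point of the path at a position well inside the range of `f` is close to the axis -/
private theorem m5_near (h : Hyp D) (hi : LInv D) (hp : Pth D w.length (pt π w)) {c : C} {e : ℤ} {g : G}
    {α β N k : ℕ} {x : ℝ → ℕ} {t0 : ℝ} (he : (e : ℝ) = 1 ∨ (e : ℝ) = -1) (hαβ : α ≤ β)
    (hβ : β ≤ w.length) {LB : ℝ} (hB : Blk (pf S c e g π w) α β LB x N k t0) {t : ℝ}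
    (h1 : pf S c e g π w α + 2 * KU ≤ t) (h2 : t ≤ pf S c e g π w β - 2 * KU) :
    S.r c (g * pt π w (x t)) ≤ 2 * KU ∧ |S.u c (g * pt π w (x t)) - e * t| ≤ 1 := by
  have hv := hB.val t (by unfold KU at *; linarith) (by unfold KU at *; linarith)
  have hm := hB.mem t
  have hv2 : |(e : ℝ) * S.u c (g * pt π w (x t)) - t| ≤ 1 := hv
  have hu := m5_e he hv2
  refine ⟨?_, hu⟩
  have hv3 := abs_le.1 hv2
  refine near_axis h S (hp.smul hi g) (a := α) (b := β)
    ⟨by rw [min_eq_left hαβ]; exact hm.1, by rw [max_eq_right hαβ]; exact hm.2⟩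
    (hαβ.trans hβ) hβ ?_ ?_
  · have e1 : |S.u c (g * pt π w (x t)) - S.u c (g * pt π w α)| =
        |(e : ℝ) * S.u c (g * pt π w (x t)) - pf S c e g π w α| := by
      unfold pf
      rcases he with h' | h' <;> rw [h'] <;> rw [← mul_sub, abs_mul] <;> simp
    rw [e1]
    refine le_trans ?_ (le_abs_self _)
    unfold KU at *
    linarith
  · have e1 : |S.u c (g * pt π w (x t)) - S.u c (g * pt π w β)| =
        |(e : ℝ) * S.u c (g * pt π w (x t)) - pf S c e g π w β| := by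
      unfold pf
      rcases he with h' | h' <;> rw [h'] <;> rw [← mul_sub, abs_mul] <;> simp
    rw [e1, abs_sub_comm]
    refine le_trans ?_ (le_abs_self _)
    unfold KU at *
    linarith

/-- the numerical estimate of the length -/
private theorem m5_num {N' : ℕ} {b b' Θ L as len : ℝ} (hL : 0 < L) (hb0 : 0 ≤ b) (hbb : b ≤ b')
    (hΘ : 10000000 * L ≤ Θ) (hN : Θ ≤ 18 * ((N' + 2) * L)) (has : as * (6 / 10 * L) ≤ 82 / 100 * Θ + 3 / 10 * L)
    (hlen : 4000 * len ≤ as * (4041 * b) + 41 * b) : len ≤ 40 * (N' * b') := by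
  have h1 : 10000000 * L ≤ 18 * ((N' + 2) * L) := hΘ.trans hN
  have h2 : (10000000 : ℝ) ≤ 18 * (N' + 2) := by
    by_contra hc
    push Not at hc
    nlinarith
  have h3 : as ≤ 246 / 10 * (N' + 2) + 1 / 2 := by
    by_contra hc
    push Not at hc
    nlinarith
  have h4 : as * (4041 * b) ≤ (246 / 10 * (N' + 2) + 1 / 2) * (4041 * b) :=
    mul_le_mul_of_nonneg_right h3 (by positivity)
  have h5 : len ≤ 40 * (N' * b) := by nlinarith
  have h6 : (N' : ℝ) * b ≤ N' * b' := mul_le_mul_of_nonneg_left hbb (by positivity)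
  linarith

set_option maxHeartbeats 4000000 in
theorem cone_bridge1 (h : Hyp D) (hi : LInv D) (hp : Pth D w.length (pt π w)) (hSB : SB D π w d m)
    (hM : MC d κ₀ τ T LB) {c : C} {e e' : ℤ} {g g' : G} {α β N k α' β' N' k' : ℕ} {x x' : ℝ → ℕ} {t0 t0' : ℝ}
    (he : e = 1 ∨ e = -1) (he' : e' = 1 ∨ e' = -1) (hαβ : α ≤ β) (hβ : β ≤ w.length) (hαβ' : α' ≤ β')
    (hβ' : β' ≤ w.length) (hB : Blk (pf S c e g π w) α β LB x N k t0)
    (hB' : Blk (pf S c e' g' π w) α' β' LB x' N' k' t0')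
    (hmin : bst (pf S c e g π w) α LB x k ≤ bst (pf S c e' g' π w) α' LB x' k')
    (hN : d * S.ell c ≤ 18 * ((N + 2) * LB)) (hN' : d * S.ell c ≤ 18 * ((N' + 2) * LB)) {q₀ : ℝ}
    (hq1 : pf S c e' g' π w α' + 2 * KU + LB ≤ e' * q₀) (hq2 : e' * q₀ ≤ pf S c e' g' π w β' - 2 * KU - LB)
    (hq3 : |q₀ - e * t0| ≤ 82 / 100 * (d * S.ell c)) :
    ∃ (z z' : ℕ) (hh : W), (α ≤ z ∧ z ≤ β) ∧ (α' ≤ z' ∧ z' ≤ β') ∧ hh ∈ DD d w (m + 2) ∧
      g * pt π w z * π (FreeGroup.mk hh) = g' * pt π w z' ∧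
      (hh.length : ℝ) ≤ 40 * ((β : ℝ) - α) ∧ (hh.length : ℝ) ≤ 40 * ((β' : ℝ) - α') := by
  -- constants
  have hτ := hM.hτ
  have hd : (1 : ℝ) ≤ d := by exact_mod_cast hM.hd
  have c1 := hM.h1
  have c2 := hM.h2
  have c3 := hM.h3
  have c4 := hM.h4
  have hKU : (KU : ℝ) = 1000 := rfl
  have hLam : (Lam0 : ℝ) = 200000 := by unfold Lam0; rw [hKU]; norm_num
  rw [hLam] at c1
  have hℓτ := S.ell_ge c
  have hℓT := S.ell_le c
  set ℓ : ℝ := S.ell c with hℓ
  have hℓ0 : 0 < ℓ := lt_of_lt_of_le hτ hℓτ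
  have hL0 : 0 < LB := by linarith
  have heR : (e : ℝ) = 1 ∨ (e : ℝ) = -1 := by rcases he with rfl | rfl <;> simp
  have heR' : (e' : ℝ) = 1 ∨ (e' : ℝ) = -1 := by rcases he' with rfl | rfl <;> simp
  have hee : e * e = 1 := by rcases he with rfl | rfl <;> simp
  have heeR : (e : ℝ) * e = 1 := by exact_mod_cast hee
  have heeR' : (e' : ℝ) * e' = 1 := by rcases heR' with h' | h' <;> rw [h'] <;> norm_num
  -- the multiple of the generator
  set u : ℕ := ⌊(2 / 3 * LB) / ℓ⌋₊ with hu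
  have hu1 : (u : ℝ) * ℓ ≤ 2 / 3 * LB := by
    have := Nat.floor_le (show (0 : ℝ) ≤ (2 / 3 * LB) / ℓ by positivity)
    rwa [← hu, le_div_iff₀ hℓ0] at this
  have hu2 : 6 / 10 * LB ≤ (u : ℝ) * ℓ := by
    have := Nat.lt_floor_add_one ((2 / 3 * LB) / ℓ)
    rw [← hu, div_lt_iff₀ hℓ0] at this
    nlinarith
  have huℓ : 0 < (u : ℝ) * ℓ := by linarith
  obtain ⟨v, hv1, hv2, hv3⟩ := loc_word h hi hp hSB hM he hαβ hβ hB u hu1
  -- range of the window
  have hkL : 0 ≤ (k : ℝ) * LB := by positivity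
  have hw1 := hB.w1
  have hw2 := hB.w2
  have hw3 := hB.w3
  have hfits := hB.fits
  have hkN : (k : ℝ) + 1 ≤ N := by exact_mod_cast hB.kN
  have hkNL : ((k : ℝ) + 1) * LB ≤ N * LB := mul_le_mul_of_nonneg_right hkN hL0.le
  unfold bp at hw1 hw2 hfits
  rw [hLam] at hw2
  have r1 : pf S c e g π w α + 2 * KU ≤ t0 := by linarith
  have r2 : t0 + 200010 ≤ pf S c e g π w β - 2 * KU := by linarith
  have n0 := m5_near h hi hp heR hαβ hβ hB (t := t0) r1 (by linarith)
  have n1 := m5_near h hi hp heR hαβ hβ hB (t := t0 + 200010) (by linarith) r2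
  -- the shift
  set s : ℤ := round ((q₀ - e * t0) / (u * ℓ)) with hs
  have hs1 : |q₀ - e * t0 - s * (u * ℓ)| ≤ LB / 3 := by
    have h1 := abs_sub_round ((q₀ - e * t0) / (u * ℓ))
    rw [← hs] at h1
    have h2 : q₀ - e * t0 - s * (u * ℓ) = ((q₀ - e * t0) / (u * ℓ) - s) * (u * ℓ) := by
      rw [sub_mul, div_mul_cancel₀ _ huℓ.ne']
    rw [h2, abs_mul, abs_of_pos huℓ]
    nlinarith
  have hs2 : |(s : ℝ)| * (u * ℓ) ≤ 82 / 100 * (d * ℓ) + 1 / 2 * (u * ℓ) := by
    have h1 := abs_sub_round ((q₀ - e * t0) / (u * ℓ))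
    rw [← hs] at h1
    have h2 : |(s : ℝ)| ≤ |(q₀ - e * t0) / (u * ℓ)| + 1 / 2 := by
      have h3 : (s : ℝ) = (q₀ - e * t0) / (u * ℓ) - ((q₀ - e * t0) / (u * ℓ) - s) := by ring
      rw [h3]
      exact (abs_sub _ _).trans (by linarith)
    rw [abs_div, abs_of_pos huℓ] at h2
    have h4 := mul_le_mul_of_nonneg_right h2 huℓ.le
    rw [add_mul, div_mul_cancel₀ _ huℓ.ne'] at h4
    linarith
  have hsd : |s| ≤ (d : ℤ) := by
    have h1 : |(s : ℝ)| * (u * ℓ) ≤ 82 / 100 * (d * ℓ) + 1 / 2 * (u * ℓ) := hs2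
    have h2 : 9 * ℓ ≤ u * ℓ := by linarith
    have h3 : |(s : ℝ)| ≤ d := by
      by_contra hc
      push Not at hc
      have h5 : (d : ℝ) * (u * ℓ) < |(s : ℝ)| * (u * ℓ) := mul_lt_mul_of_pos_right hc huℓ
      have h6 : 82 / 100 * (d * ℓ) ≤ 82 / 900 * (d * (u * ℓ)) := by
        have := mul_le_mul_of_nonneg_left h2 (show (0 : ℝ) ≤ d by positivity)
        linarith
      have h7 : 1 * (u * ℓ) ≤ d * (u * ℓ) := mul_le_mul_of_nonneg_right hd huℓ.le
      linarith
    exact_mod_cast h3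
  -- target positions
  set P0 : ℝ := e * t0 + s * (u * ℓ) with hP0
  set P1 : ℝ := e * (t0 + 200010) + s * (u * ℓ) with hP1
  have q0 : |P0 - q₀| ≤ LB / 3 := by
    rw [abs_sub_comm]
    have : q₀ - P0 = q₀ - e * t0 - s * (u * ℓ) := by rw [hP0]; ring
    rw [this]; exact hs1
  have q1 : |P1 - q₀| ≤ LB / 3 + 200010 := by
    have : P1 - q₀ = (P0 - q₀) + e * 200010 := by rw [hP0, hP1]; ring
    rw [this]
    refine (abs_add_le _ _).trans ?_
    have : |(e : ℝ) * 200010| = 200010 := by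
      rcases heR with h' | h' <;> rw [h'] <;> norm_num
    rw [this]; linarith
  have p0 : |(e' : ℝ) * P0 - e' * q₀| ≤ LB / 3 := by
    rw [← mul_sub, abs_mul]
    rcases heR' with h' | h' <;> rw [h'] <;> simpa using q0
  have p1 : |(e' : ℝ) * P1 - e' * q₀| ≤ LB / 3 + 200010 := by
    rw [← mul_sub, abs_mul]
    rcases heR' with h' | h' <;> rw [h'] <;> simpa using q1
  have p0' := abs_le.1 p0
  have p1' := abs_le.1 p1
  have m0 := m5_near h hi hp heR' hαβ' hβ' hB' (t := e' * P0) (by linarith) (by linarith)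
  have m1 := m5_near h hi hp heR' hαβ' hβ' hB' (t := e' * P1) (by linarith) (by linarith)
  rw [← mul_assoc, heeR', one_mul] at m0 m1
  -- the axis bridge
  have hy₀ : x t0 ≤ w.length := (hB.mem t0).2.trans hβ
  have hy₁ : x (t0 + 200010) ≤ w.length := (hB.mem _).2.trans hβ
  have hz₀ : x' (e' * P0) ≤ w.length := (hB'.mem _).2.trans hβ'
  have hz₁ : x' (e' * P1) ≤ w.length := (hB'.mem _).2.trans hβ'
  have hgen : ∀ y : G, S.u c (S.gen c ^ (u * s : ℤ) * g * y) = S.u c (g * y) + s * (u * ℓ) := by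
    intro y
    rw [mul_assoc, CSys.u_gen_zpow, hℓ]
    push_cast; ring
  have hgenr : ∀ y : G, S.r c (S.gen c ^ (u * s : ℤ) * g * y) = S.r c (g * y) := by
    intro y
    rw [mul_assoc, CSys.r_gen_zpow]
  have a0 := abs_le.1 n0.2
  have a1 := abs_le.1 n1.2
  have b0 := abs_le.1 m0.2
  have b1 := abs_le.1 m1.2
  obtain ⟨y, z', h₂, hy, hz', hh₂, heq, hl1, hl2⟩ := axis_sb hi hSB (c := c)
    (g := S.gen c ^ (u * s : ℤ) * g) (g' := g') hy₀ hy₁ hz₀ hz₁
    (by rw [hgenr]; exact n0.1) (by rw [hgenr]; exact n1.1) m0.1 m1.1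
    (by rw [hgen, abs_le]; constructor <;> linarith)
    (by rw [hgen, abs_le]; constructor <;> linarith)
    (by
      rw [hgen, hgen, hLam]
      rcases heR with h' | h'
      · rw [h'] at a0 a1
        refine le_trans ?_ (le_abs_self _)
        linarith
      · rw [h'] at a0 a1
        refine le_trans ?_ (neg_le_abs _)
        linarith)
  -- the word
  have hxmono : x t0 ≤ x (t0 + 200010) := hB.mono (by linarith)
  have hy' : x t0 ≤ y ∧ y ≤ x (t0 + 200010) := by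
    have := hy.1
    have h2 := hy.2
    rw [min_eq_left hxmono] at this
    rw [max_eq_right hxmono] at h2
    exact ⟨this, h2⟩
  have hz'' : α' ≤ z' ∧ z' ≤ β' := by
    have h3 := hB'.mem (e' * P0)
    have h4 := hB'.mem (e' * P1)
    have h5 := hz'.1
    have h6 := hz'.2
    constructor
    · exact (le_min h3.1 h4.1).trans h5
    · exact h6.trans (max_le h3.2 h4.2)
  have hes : |e * s| ≤ (d : ℤ) := by
    rw [abs_mul]
    rcases he with h' | h' <;> rw [h'] <;> simpa using hsd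
  refine ⟨x t0, z', [] ++ wpow v (e * s) ++ (sub w (x t0) y ++ h₂), hB.mem t0, hz'', ?_, ?_, ?_⟩
  · exact DD_pow hes (DD_nil d w (m + 1)) hv1
      (DD_app (DD_mono (Nat.zero_le m) (DD_sub (x t0) y)) hh₂)
  · -- the group identity
    have hpow : g * pt π w (x t0) * π (FreeGroup.mk v) ^ (e * s) =
        S.gen c ^ (u * s : ℤ) * g * pt π w (x t0) := by
      rw [m5_pow hv2, ← zpow_mul, mul_assoc (S.gen c ^ (u * s : ℤ))]
      congr 2
      rw [show e * (u : ℤ) * (e * s) = (e * e) * (u * s) by ring, hee, one_mul]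
    have hsub := pt_sub π (w := w) (a := x t0) (b := y) hy₀ (hy'.2.trans hy₁)
    rw [List.nil_append, ← FreeGroup.mul_mk, map_mul, mk_wpow, map_zpow, ← mul_assoc, hpow,
      ← FreeGroup.mul_mk, map_mul]
    calc S.gen c ^ (u * s : ℤ) * g * pt π w (x t0) *
          (π (FreeGroup.mk (sub w (x t0) y)) * π (FreeGroup.mk h₂))
        = S.gen c ^ (u * s : ℤ) * g * (pt π w (x t0) * π (FreeGroup.mk (sub w (x t0) y)) *
          π (FreeGroup.mk h₂)) := by group
      _ = S.gen c ^ (u * s : ℤ) * g * (pt π w y * π (FreeGroup.mk h₂)) := by rw [hsub]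
      _ = g' * pt π w z' := by rw [heq]; group
  · -- lengths
    have hblen : 4000 * ((x (t0 + 200010) : ℝ) - x t0) ≤ bst (pf S c e g π w) α LB x k := by
      rw [hLam, show (200000 : ℝ) + 10 = 200010 by norm_num] at hw3
      exact hw3
    have hb0 : 0 ≤ bst (pf S c e g π w) α LB x k := by
      have : (x t0 : ℝ) ≤ x (t0 + 200010) := by exact_mod_cast hxmono
      linarith
    have hyR : (x t0 : ℝ) ≤ y ∧ (y : ℝ) ≤ x (t0 + 200010) := by
      exact ⟨by exact_mod_cast hy'.1, by exact_mod_cast hy'.2⟩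
    have hl1' : (h₂.length : ℝ) ≤ 40 * ((x (t0 + 200010) : ℝ) - x t0) := by
      have : |(x (t0 + 200010) : ℝ) - x t0| = x (t0 + 200010) - x t0 :=
        abs_of_nonneg (by linarith)
      rwa [this] at hl1
    have hsl : ((sub w (x t0) y).length : ℝ) ≤ (x (t0 + 200010) : ℝ) - x t0 := by
      rw [sub_length hy₀ (hy'.2.trans hy₁), abs_of_nonneg (by linarith)]
      linarith
    have hlen : ((([] ++ wpow v (e * s) ++ (sub w (x t0) y ++ h₂) : W)).length : ℝ) =
        |(s : ℝ)| * v.length + ((sub w (x t0) y).length + h₂.length) := by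
      rw [List.nil_append, List.length_append, List.length_append]
      push_cast
      rw [wpow_length]
      congr 2
      push_cast
      rw [abs_mul]
      rcases heR with h' | h' <;> rw [h'] <;> simp
    have hlen2 : 4000 * ((([] ++ wpow v (e * s) ++ (sub w (x t0) y ++ h₂) : W)).length : ℝ) ≤
        |(s : ℝ)| * (4041 * bst (pf S c e g π w) α LB x k) + 41 * bst (pf S c e g π w) α LB x k := by
      rw [hlen]
      have := mul_le_mul_of_nonneg_left hv3 (abs_nonneg (s : ℝ))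
      linarith
    have hΘ : 10000000 * LB ≤ d * ℓ := by
      have : (d : ℝ) * τ ≤ d * ℓ := mul_le_mul_of_nonneg_left hℓτ (by linarith)
      linarith
    have has : |(s : ℝ)| * (6 / 10 * LB) ≤ 82 / 100 * (d * ℓ) + 3 / 10 * LB := by
      rcases le_or_gt (|(s : ℝ)|) (1 / 2) with h' | h'
      · have : 0 ≤ (d : ℝ) * ℓ := by positivity
        nlinarith
      · have h8 : (|(s : ℝ)| - 1 / 2) * (6 / 10 * LB) ≤ (|(s : ℝ)| - 1 / 2) * (u * ℓ) :=
          mul_le_mul_of_nonneg_left hu2 (by linarith)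
        linarith
    constructor
    · have h9 := m5_num hL0 hb0 le_rfl hΘ hN has hlen2
      have h10 := hB.tot hL0.le
      linarith
    · have h9 := m5_num hL0 hb0 hmin hΘ hN' has hlen2
      have h10 := hB'.tot hL0.le
      linarith

end Pool.Agent.helper50.BW
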