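import Pool.Agent.helper50.BW.M5
/-! ## BW-M6 crossing a relator, general form (uses M5; 150 lines)
α = min a b, β = max a b, e with e (u_c (g pt β) - u_c (g pt α)) = |..|, N := ⌊(|..| - 4KU)/LB⌋₊, exists_blk; the same
for g', a', b'.  If b ≤ b' (bst): cone_bridge1 with q₀ := u_c (g' pt a') ± (2KU + LB) (direction from a' to b').
|q₀ - e t0| ≤ 2κ₀ + 81/100 Θ + 2KU + LB ≤ 82/100 Θ since e t0 lies between u_c (g pt a) and u_c (g pt b).
Otherwise cone_bridge1 with the roles of (g,a,b), (g',a',b') exchanged, and invRev hh. -/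
namespace Pool.Agent.helper50.BW
open Sum

variable {G : Type} [Group G] {D : G → G → ℝ} {C : Type} [MulAction G C] {Δ τ T : ℝ} {d m : ℕ} {κ₀ LB : ℝ}
  {S : CSys D C KU Δ τ T} {π : FreeGroup ℕ →* G} {w : W}

/-- sizes of the constants -/
theorem cb_const (hM : MC d κ₀ τ T LB) (c : C) :
    2400000000 ≤ LB ∧ 1000 * LB ≤ κ₀ ∧ 10000 * κ₀ ≤ d * S.ell c := by
  have h1 := hM.h1
  have h3 := hM.h3
  have h4 := hM.h4
  have hl := S.ell_ge c
  have hd : (0 : ℝ) ≤ d := Nat.cast_nonneg d
  have h5 : (d : ℝ) * τ ≤ d * S.ell c := mul_le_mul_of_nonneg_left hl hd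
  refine ⟨?_, h3, by linarith⟩
  norm_num [Lam0, KU] at h1 ⊢
  linarith

/-- the data of one side -/
theorem cb_side (hi : LInv D) (hp : Pth D w.length (pt π w)) (hM : MC d κ₀ τ T LB) {c : C} {g : G} {a b : ℕ}
    (ha : a ≤ w.length) (hb : b ≤ w.length)
    (h2 : d * S.ell c ≤ 17 * |S.u c (g * pt π w b) - S.u c (g * pt π w a)|)
    (h2' : |S.u c (g * pt π w b) - S.u c (g * pt π w a)| ≤ 81 / 100 * (d * S.ell c)) :
    ∃ (e : ℤ) (N k : ℕ) (x : ℝ → ℕ) (t0 q₀ : ℝ), (e = 1 ∨ e = -1) ∧
      Blk (pf S c e g π w) (min a b) (max a b) LB x N k t0 ∧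
      d * S.ell c ≤ 18 * ((N + 2) * LB) ∧
      |S.u c (g * pt π w a) - e * t0| ≤ 81 / 100 * (d * S.ell c) ∧
      pf S c e g π w (min a b) + 2 * KU + LB ≤ e * q₀ ∧
      e * q₀ ≤ pf S c e g π w (max a b) - 2 * KU - LB ∧
      |q₀ - S.u c (g * pt π w a)| ≤ 2 * KU + LB := by
  obtain ⟨k1, k2, k3⟩ := cb_const (S := S) hM c
  have hKU : (KU : ℝ) = 1000 := rfl
  -- the sign
  obtain ⟨e, he, heL⟩ : ∃ e : ℤ, (e = 1 ∨ e = -1) ∧
      pf S c e g π w (max a b) - pf S c e g π w (min a b) =
        |S.u c (g * pt π w b) - S.u c (g * pt π w a)| := by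
    have hab : |S.u c (g * pt π w b) - S.u c (g * pt π w a)| =
        |S.u c (g * pt π w (max a b)) - S.u c (g * pt π w (min a b))| := by
      rcases le_total a b with h | h
      · rw [max_eq_right h, min_eq_left h]
      · rw [max_eq_left h, min_eq_right h, abs_sub_comm]
    rw [hab]
    rcases le_total 0 (S.u c (g * pt π w (max a b)) - S.u c (g * pt π w (min a b))) with h | h
    · refine ⟨1, Or.inl rfl, ?_⟩
      rw [abs_of_nonneg h]
      simp [pf]
    · refine ⟨-1, Or.inr rfl, ?_⟩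
      rw [abs_of_nonpos h]
      simp only [pf, Int.cast_neg, Int.cast_one]
      ring
  set L := |S.u c (g * pt π w b) - S.u c (g * pt π w a)| with hL
  have he2 : (e : ℝ) * e = 1 := by rcases he with rfl | rfl <;> norm_num
  have heabs : |(e : ℝ)| = 1 := by rcases he with rfl | rfl <;> norm_num
  have hLbig : 100 * LB ≤ L := by linarith
  have hLB0 : 0 < LB := by linarith
  set N := ⌊(L - 4 * KU) / LB⌋₊ with hNdef
  have hNle : (N : ℝ) * LB ≤ L - 4 * KU := by
    have := Nat.floor_le (a := (L - 4 * KU) / LB) (by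
      apply div_nonneg _ hLB0.le
      rw [hKU]; linarith)
    rw [← hNdef, le_div_iff₀ hLB0] at this
    exact this
  have hNlt : L - 4 * KU < ((N : ℝ) + 1) * LB := by
    have := Nat.lt_floor_add_one ((L - 4 * KU) / LB)
    rw [← hNdef, div_lt_iff₀ hLB0] at this
    exact this
  have hNpos : 0 < N := by
    rw [hNdef, Nat.floor_pos, le_div_iff₀ hLB0, hKU]
    linarith
  have hstep : ∀ i, min a b ≤ i → i < max a b →
      |pf S c e g π w (i + 1) - pf S c e g π w i| ≤ 1 := by
    intro i _ hi2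
    have hil : i < w.length := lt_of_lt_of_le hi2 (max_le ha hb)
    have e1 : pf S c e g π w (i + 1) - pf S c e g π w i =
        e * (S.u c (g * pt π w (i + 1)) - S.u c (g * pt π w i)) := by
      simp only [pf]; ring
    rw [e1, abs_mul, heabs, one_mul]
    calc |S.u c (g * pt π w (i + 1)) - S.u c (g * pt π w i)|
        = |S.u c (g * pt π w i) - S.u c (g * pt π w (i + 1))| := abs_sub_comm _ _
      _ ≤ D (g * pt π w i) (g * pt π w (i + 1)) := S.u_lip c _ _
      _ = D (pt π w i) (pt π w (i + 1)) := hi _ _ _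
      _ ≤ 1 := hp.step i hil
  have hfit : bp (pf S c e g π w) (min a b) LB N ≤ pf S c e g π w (max a b) - 2 * KU := by
    unfold bp
    linarith
  obtain ⟨x, k, t0, hB⟩ := exists_blk (pf S c e g π w) (min_le_max (a := a) (b := b)) hstep hM.h1 hNpos hfit
  -- position of t0
  have ht1 : pf S c e g π w (min a b) ≤ t0 := by
    have h1 := hB.w1
    unfold bp at h1
    have h3 : (0 : ℝ) ≤ k * LB := mul_nonneg (Nat.cast_nonneg k) hLB0.le
    linarith
  have ht2 : t0 ≤ pf S c e g π w (max a b) := by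
    have h1 := hB.w2
    have h4 := hB.fits
    unfold bp at h1 h4
    have hk1 : ((k : ℝ) + 1) * LB ≤ N * LB := by
      apply mul_le_mul_of_nonneg_right _ hLB0.le
      exact_mod_cast hB.kN
    have hLam : (0 : ℝ) ≤ Lam0 + 10 := by norm_num [Lam0, KU]
    nlinarith
  have ha12 : (pf S c e g π w (min a b) ≤ pf S c e g π w a ∧ pf S c e g π w a ≤ pf S c e g π w (max a b)) := by
    have hL0 : 0 ≤ L := abs_nonneg _
    rcases le_total a b with h | h
    · rw [max_eq_right h, min_eq_left h] at *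
      exact ⟨le_rfl, by linarith⟩
    · rw [max_eq_left h, min_eq_right h] at *
      exact ⟨by linarith, le_rfl⟩
  have hfa : S.u c (g * pt π w a) = e * pf S c e g π w a := by
    simp only [pf]
    rw [← mul_assoc, he2, one_mul]
  have hdist : |S.u c (g * pt π w a) - e * t0| ≤ 81 / 100 * (d * S.ell c) := by
    rw [hfa, ← mul_sub, abs_mul, heabs, one_mul, abs_le]
    constructor <;> linarith [ha12.1, ha12.2]
  have hN2 : d * S.ell c ≤ 18 * (((N : ℝ) + 2) * LB) := by
    rw [hKU] at hNlt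
    nlinarith
  rcases le_total a b with h | h
  · refine ⟨e, N, k, x, t0, S.u c (g * pt π w a) + e * (2 * KU + LB), he, hB, hN2, hdist, ?_, ?_, ?_⟩
    · rw [min_eq_left h]
      have : (e : ℝ) * (S.u c (g * pt π w a) + e * (2 * KU + LB)) =
          pf S c e g π w a + (2 * KU + LB) := by
        simp only [pf]
        rw [mul_add, ← mul_assoc, he2, one_mul]
      rw [this]
      linarith
    · have : (e : ℝ) * (S.u c (g * pt π w a) + e * (2 * KU + LB)) =
          pf S c e g π w a + (2 * KU + LB) := by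
        simp only [pf]
        rw [mul_add, ← mul_assoc, he2, one_mul]
      rw [this]
      rw [min_eq_left h] at heL
      linarith
    · rw [add_sub_cancel_left, abs_mul, heabs, one_mul, abs_of_nonneg]
      rw [hKU]; linarith
  · refine ⟨e, N, k, x, t0, S.u c (g * pt π w a) - e * (2 * KU + LB), he, hB, hN2, hdist, ?_, ?_, ?_⟩
    · have : (e : ℝ) * (S.u c (g * pt π w a) - e * (2 * KU + LB)) =
          pf S c e g π w a - (2 * KU + LB) := by
        simp only [pf]
        rw [mul_sub, ← mul_assoc (e : ℝ) (e : ℝ), he2, one_mul]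
      rw [this]
      rw [max_eq_left h] at heL
      linarith
    · rw [max_eq_left h]
      have : (e : ℝ) * (S.u c (g * pt π w a) - e * (2 * KU + LB)) =
          pf S c e g π w a - (2 * KU + LB) := by
        simp only [pf]
        rw [mul_sub, ← mul_assoc (e : ℝ) (e : ℝ), he2, one_mul]
      rw [this]
      linarith
    · rw [sub_sub_cancel_left, abs_neg, abs_mul, heabs, one_mul, abs_of_nonneg]
      rw [hKU]; linarith

/-- min and max as real numbers -/
theorem cb_len (a b : ℕ) : ((max a b : ℕ) : ℝ) - ((min a b : ℕ) : ℝ) = |(b : ℝ) - a| := by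
  rcases le_total a b with h | h
  · have h' : (a : ℝ) ≤ b := by exact_mod_cast h
    rw [max_eq_right h, min_eq_left h, abs_of_nonneg (by linarith)]
  · have h' : (b : ℝ) ≤ a := by exact_mod_cast h
    rw [max_eq_left h, min_eq_right h, abs_of_nonpos (by linarith)]
    ring

theorem cone_bridge (h : Hyp D) (hi : LInv D) (hp : Pth D w.length (pt π w)) (hSB : SB D π w d m)
    (hM : MC d κ₀ τ T LB) {c : C} {g g' : G} {a b a' b' : ℕ} (ha : a ≤ w.length) (hb : b ≤ w.length)
    (ha' : a' ≤ w.length) (hb' : b' ≤ w.length)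
    (h1 : |S.u c (g * pt π w a) - S.u c (g' * pt π w a')| ≤ 2 * κ₀)
    (h2 : d * S.ell c ≤ 17 * |S.u c (g * pt π w b) - S.u c (g * pt π w a)|)
    (h2' : |S.u c (g * pt π w b) - S.u c (g * pt π w a)| ≤ 81 / 100 * (d * S.ell c))
    (h3 : d * S.ell c ≤ 17 * |S.u c (g' * pt π w b') - S.u c (g' * pt π w a')|)
    (h3' : |S.u c (g' * pt π w b') - S.u c (g' * pt π w a')| ≤ 81 / 100 * (d * S.ell c)) :
    Brg π w d (m + 2) (g⁻¹ * g') a b a' b' := by
  obtain ⟨k1, k2, k3⟩ := cb_const (S := S) hM c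
  have hKU : (KU : ℝ) = 1000 := rfl
  obtain ⟨e, N, k, x, t0, q, he, hB, hN, hd0, hq1, hq2, hq3⟩ := cb_side hi hp hM ha hb h2 h2'
  obtain ⟨e', N', k', x', t0', q', he', hB', hN', hd0', hq1', hq2', hq3'⟩ := cb_side hi hp hM ha' hb' h3 h3'
  rw [abs_le] at h1 hd0 hd0' hq3 hq3'
  rcases le_total (bst (pf S c e g π w) (min a b) LB x k) (bst (pf S c e' g' π w) (min a' b') LB x' k') with
    hmin | hmin
  · have hq : |q' - e * t0| ≤ 82 / 100 * (d * S.ell c) := by
      rw [abs_le]
      constructor <;> linarith [h1.1, h1.2, hd0.1, hd0.2, hq3'.1, hq3'.2]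
    obtain ⟨z, z', hh, hz, hz', hhD, hmul, hl1, hl2⟩ :=
      cone_bridge1 h hi hp hSB hM he he' min_le_max (max_le ha hb) min_le_max (max_le ha' hb') hB hB' hmin
        hN hN' hq1' hq2' hq
    rw [cb_len] at hl1 hl2
    refine ⟨z, z', hh, hz, hz', hhD, ?_, hl1, hl2⟩
    rw [mul_assoc g⁻¹, ← hmul]
    group
  · have hq : |q - e' * t0'| ≤ 82 / 100 * (d * S.ell c) := by
      rw [abs_le]
      constructor <;> linarith [h1.1, h1.2, hd0'.1, hd0'.2, hq3.1, hq3.2]
    obtain ⟨z', z, hh, hz', hz, hhD, hmul, hl1, hl2⟩ :=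
      cone_bridge1 h hi hp hSB hM he' he min_le_max (max_le ha' hb') min_le_max (max_le ha hb) hB' hB hmin
        hN' hN hq1 hq2 hq
    rw [cb_len] at hl1 hl2
    refine ⟨z, z', FreeGroup.invRev hh, hz, hz', DD_inv hhD, ?_, ?_, ?_⟩
    · rw [mul_assoc g⁻¹, ← FreeGroup.inv_mk, map_inv, mul_inv_eq_iff_eq_mul, mul_assoc, hmul]
      group
    · rw [FreeGroup.invRev_length]; exact hl2
    · rw [FreeGroup.invRev_length]; exact hl1

end Pool.Agent.helper50.BW
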