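import Pool.Agent.helper50.BW.M3
import Pool.Agent.helper50.BW.Q1
import Pool.Agent.helper50.BW.F8
/-! ## BW-M7 consequences of NC, crossings and centrality (uses Q1, F4, F8, M3; 200 lines)
NC_smul: smul with g (U c (g p) = U (g⁻¹•c) p up to a constant), ell_smul.  NC_db: lift_dist (4/5 ≤ 7/8).
qg_step: step: lam db ≤ lam D ≤ D (lam ≤ 1); qg: NC_db, AL (κ = 1), lam * 5s ≤ 1.
cross_mono: u_mono with κ = 4, close; 4κu + 2K + 4 ≤ κ₀.
far_cross: q projection of y to c (exists_proj), |u_c z - u_c y| ≥ κ₀ - 2κu ≥ K, lower for D y z, upper for D q z: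
D y q + D q z ≤ D y z + 7K; so D x y + D y q ≤ D x q + 7K + 2 and AL; dd x q ≤ ec x c + ec q c ≤ ec x c + s/2. -/
namespace Pool.Agent.helper50.BW
open Sum

variable {G : Type} [Group G] {D : G → G → ℝ} {C : Type} [MulAction G C] {Δ τ T : ℝ} {d m : ℕ}
  {S : CSys D C KU Δ τ T} {U : C → G ⊕ C → ℝ} {s κ₁ κu κ₀ : ℝ} {π : FreeGroup ℕ →* G} {w : W}

theorem m7_consts (hC : Ctx S U s κ₁ κu κ₀ d) : 1000000 ≤ s ∧ 0 ≤ κu ∧
    30 * s + 80 * κu + 200 * KU ≤ κ₀ := by
  have h1 := hC.hs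
  have h2 := hC.hu
  have h3 := hC.h0
  have h4 := hC.hΔ
  have h5 := hC.h1
  refine ⟨by norm_num [KU] at h1 ⊢; linarith, h2, by linarith⟩

theorem NC_smul (hC : Ctx S U s κ₁ κu κ₀ d) (hN : NC S U d π w) (g : G) (c : C) {a b : ℕ} (ha : a ≤ w.length)
    (hb : b ≤ w.length) : |U c (inl (g * pt π w b)) - U c (inl (g * pt π w a))| ≤ 4 / 5 * (d * S.ell c) := by
  have h1 := hC.proj.smul g (g⁻¹ • c) (inl (pt π w a)) (inl (pt π w b)) (by simp) (by simp)
  rw [smul_inv_smul] at h1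
  have e1 : g • (inl (pt π w a) : G ⊕ C) = inl (g * pt π w a) := rfl
  have e2 : g • (inl (pt π w b) : G ⊕ C) = inl (g * pt π w b) := rfl
  rw [e1, e2] at h1
  rw [h1]
  have h2 := hN (g⁻¹ • c) a b ha hb
  rwa [S.ell_smul] at h2

theorem NC_adm (hC : Ctx S U s κ₁ κu κ₀ d) (hN : NC S U d π w) (g : G) {a b : ℕ} (ha : a ≤ w.length)
    (hb : b ≤ w.length) : Adm S U d (4 / 5) (inl (g * pt π w a)) (inl (g * pt π w b)) :=
  fun c _ _ => NC_smul hC hN g c ha hb

theorem NC_db (hC : Ctx S U s κ₁ κu κ₀ d) (hN : NC S U d π w) (g : G) {a b : ℕ} (ha : a ≤ w.length)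
    (hb : b ≤ w.length) : db S s d (g * pt π w a) (g * pt π w b) = dd S s (g * pt π w a) (g * pt π w b) :=
  lift_dist hC (Adm.mono hC (by norm_num) (NC_adm hC hN g ha hb))

theorem qg_step (hC : Ctx S U s κ₁ κu κ₀ d) (hN : NC S U d π w) (hp : Pth D w.length (pt π w)) {lam : ℝ}
    (hl : 0 < lam) (hl' : lam * (10 * s) ≤ 1) :
    Pth (fun x y => lam * db S s d x y) w.length (pt π w) := by
  obtain ⟨hs, -, -⟩ := m7_consts hC
  have hs0 : 0 ≤ s := by linarith
  refine ⟨fun a ha => ?_, fun a b c hab hbc hc => ?_⟩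
  · show lam * db S s d (pt π w a) (pt π w (a + 1)) ≤ 1
    have h1 := db_le hC (pt π w a) (pt π w (a + 1))
    have h2 := dd_le hC.hyp S hs0 (pt π w a) (pt π w (a + 1))
    have h3 := hp.step a ha
    have h4 : lam * db S s d (pt π w a) (pt π w (a + 1)) ≤ lam * 1 :=
      mul_le_mul_of_nonneg_left (by linarith) hl.le
    have h5 : lam * 1 ≤ lam * (10 * s) := mul_le_mul_of_nonneg_left (by linarith) hl.le
    linarith
  · show lam * db S s d (pt π w a) (pt π w b) + lam * db S s d (pt π w b) (pt π w c) ≤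
      lam * db S s d (pt π w a) (pt π w c) + 1
    have hb : b ≤ w.length := hbc.trans hc
    have ha : a ≤ w.length := hab.trans hb
    have e1 := NC_db hC hN 1 ha hb
    have e2 := NC_db hC hN 1 hb hc
    have e3 := NC_db hC hN 1 ha hc
    simp only [one_mul] at e1 e2 e3
    rw [e1, e2, e3]
    have h1 := AL hC.hyp S hC.hK hC.hs (κ := 1) (by norm_num) (by norm_num [KU]) (hp.qg a b c hab hbc hc)
    have h2 : lam * (dd S s (pt π w a) (pt π w b) + dd S s (pt π w b) (pt π w c)) ≤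
        lam * (dd S s (pt π w a) (pt π w c) + 5 * s) := mul_le_mul_of_nonneg_left h1 hl.le
    nlinarith [mul_nonneg hl.le hs0]

theorem cross_mono (hC : Ctx S U s κ₁ κu κ₀ d) {c : C} {x z z' y : G}
    (h : D x z + D z z' + D z' y ≤ D x y + 4) :
    |U c (inl z') - U c (inl z)| ≤ |U c (inl y) - U c (inl x)| + κ₀ := by
  obtain ⟨hs, hu, h0⟩ := m7_consts hC
  have h1 := u_mono hC.hyp S (κ := 4) (c := c) (by norm_num [KU]) (by norm_num) h
  have cx := abs_le.1 (hC.proj.close c x)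
  have cy := abs_le.1 (hC.proj.close c y)
  have cz := abs_le.1 (hC.proj.close c z)
  have cz' := abs_le.1 (hC.proj.close c z')
  have h2 : |S.u c x - S.u c y| ≤ |U c (inl y) - U c (inl x)| + 2 * κu := by
    have e1 := le_abs_self (U c (inl y) - U c (inl x))
    have e2 := neg_abs_le (U c (inl y) - U c (inl x))
    rw [abs_le]
    constructor <;> linarith
  have h3 := abs_le.1 h1
  have hK : (KU : ℝ) = 1000 := rfl
  rw [abs_le]
  constructor <;> linarith

theorem far_cross (hC : Ctx S U s κ₁ κu κ₀ d) {c : C} {x y z : G} (hy : Btw D 2 x y z)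
    (hc : κ₀ ≤ |U c (inl z) - U c (inl y)|) : dd S s x y ≤ ec S s x c + 6 * s := by
  obtain ⟨hs, hu, h0⟩ := m7_consts hC
  have hs0 : 0 ≤ s := by linarith
  have hK : (KU : ℝ) = 1000 := rfl
  obtain ⟨q, hq1, hq2, hq3⟩ := exists_proj S c y
  have cy := abs_le.1 (hC.proj.close c y)
  have cz := abs_le.1 (hC.proj.close c z)
  have h1 : KU ≤ |S.u c y - S.u c z| := by
    have h2 : |U c (inl z) - U c (inl y)| ≤ |S.u c y - S.u c z| + 2 * κu := by
      have e1 := le_abs_self (S.u c y - S.u c z)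
      have e2 := neg_abs_le (S.u c y - S.u c z)
      rw [abs_le]
      constructor <;> linarith
    linarith
  have h2 := S.lower c y z h1
  have h3 := S.upper c q z
  have h4 : |S.u c q - S.u c z| ≤ |S.u c y - S.u c z| + KU := by
    have e1 := le_abs_self (S.u c y - S.u c z)
    have e2 := neg_abs_le (S.u c y - S.u c z)
    have e3 := abs_le.1 hq2
    rw [abs_le]
    constructor <;> linarith
  have h5 : D y q + D q z ≤ D y z + 7 * KU := by linarith
  have h6 := hC.hyp.tri x q z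
  have h7 : Btw D (7 * KU + 2) x y q := by
    unfold Btw at hy ⊢
    linarith
  have h8 := AL hC.hyp S hC.hK hC.hs (κ := 7 * KU + 2) (by norm_num [KU]) (by norm_num [KU]) h7
  have h9 := dd_nonneg hC.hyp S hs0 y q
  have h10 := dd_le_ec hC.hyp S hs0 x q c
  have h11 := ec_le_of hC.hyp S hs0 (x := q) hq1
  rw [dd_self hC.hyp S hs0] at h11
  linarith

/-- peeling off both ends: exists_mid for dd (pt a) (pt i) on (a,b), then for - dd (pt i) (pt b) on (x,b) -/
theorem peel (hC : Ctx S U s κ₁ κu κ₀ d) (hp : Pth D w.length (pt π w)) {a b : ℕ} (ha : a ≤ w.length)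
    (hb : b ≤ w.length) {t : ℝ} (ht : 0 ≤ t) (hL : 2 * t + 3 ≤ dd S s (pt π w a) (pt π w b)) :
    ∃ x y, Mid a x b ∧ Mid x y b ∧ |dd S s (pt π w a) (pt π w x) - t| ≤ 1 ∧
      |dd S s (pt π w y) (pt π w b) - t| ≤ 1 ∧
      dd S s (pt π w a) (pt π w b) - 2 * t - 2 ≤ dd S s (pt π w x) (pt π w y) := by
  obtain ⟨hs, -, -⟩ := m7_consts hC
  have hs0 : 0 ≤ s := by linarith
  have hlip : ∀ i, i < w.length → ∀ z : G,
      |dd S s z (pt π w (i + 1)) - dd S s z (pt π w i)| ≤ 1 := by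
    intro i hi z
    have h1 := dd_tri hC.hyp S hs0 z (pt π w i) (pt π w (i + 1))
    have h2 := dd_tri hC.hyp S hs0 z (pt π w (i + 1)) (pt π w i)
    have h3 := dd_symm hC.hyp S hs0 (pt π w (i + 1)) (pt π w i)
    have h4 := dd_le hC.hyp S hs0 (pt π w i) (pt π w (i + 1))
    have h5 := hp.step i hi
    rw [abs_le]
    constructor <;> linarith
  obtain ⟨x, hx, hx'⟩ := exists_mid (fun i => dd S s (pt π w a) (pt π w i)) ha hb
    (fun i hi => hlip i hi _) (t := t) (by
      show dd S s (pt π w a) (pt π w a) ≤ t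
      rw [dd_self hC.hyp S hs0]; exact ht) (by
      show t ≤ dd S s (pt π w a) (pt π w b)
      linarith)
  have hx'' : |dd S s (pt π w a) (pt π w x) - t| ≤ 1 := hx'
  have hxn : x ≤ w.length := hx.le ha hb
  have t1 := dd_tri hC.hyp S hs0 (pt π w a) (pt π w x) (pt π w b)
  have a1 := abs_le.1 hx''
  obtain ⟨y, hy, hy'⟩ := exists_mid (fun i => - dd S s (pt π w b) (pt π w i)) hxn hb
    (fun i hi => by
      have h1 := hlip i hi (pt π w b)
      rw [← abs_neg] at h1
      have h2 : - dd S s (pt π w b) (pt π w (i + 1)) - - dd S s (pt π w b) (pt π w i) =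
        -(dd S s (pt π w b) (pt π w (i + 1)) - dd S s (pt π w b) (pt π w i)) := by ring
      show |- dd S s (pt π w b) (pt π w (i + 1)) - - dd S s (pt π w b) (pt π w i)| ≤ 1
      rw [h2]; exact h1) (t := -t) (by
      show - dd S s (pt π w b) (pt π w x) ≤ -t
      rw [dd_symm hC.hyp S hs0 (pt π w b) (pt π w x)]
      linarith) (by
      show -t ≤ - dd S s (pt π w b) (pt π w b)
      rw [dd_self hC.hyp S hs0]
      linarith)
  have hy'' : |- dd S s (pt π w b) (pt π w y) - -t| ≤ 1 := hy'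
  rw [dd_symm hC.hyp S hs0 (pt π w b) (pt π w y)] at hy''
  have a2 := abs_le.1 hy''
  refine ⟨x, y, hx, hy, hx'', ?_, ?_⟩
  · rw [abs_le]
    constructor <;> linarith
  · have t2 := dd_tri hC.hyp S hs0 (pt π w x) (pt π w y) (pt π w b)
    linarith

end Pool.Agent.helper50.BW
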