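import Pool.Agent.helper50.BW.Q2
import Pool.Agent.helper50.BW.Q6
/-! ## BW-Q7 residues and qq (uses Q2, Q6)
rs: distance to ΘZ.  qq is well defined by wd: if (n,m), (n',m') are two choices then U c (n x) - U c (n' x) and
U c (m y) - U c (m' y) are multiples of Θ (wd for the points n' x etc.), so rs agrees; the set in the definition is a
singleton (nonempty by tight_cone).
qq_add: lifts x' = n x, y' = m y with Adm 5/8 to c; replace y' by gen c^{kd} y' so that |U c y' - U c x'| ≤ Θ/2, then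
it equals qq ≥ κ₀ > 0; glue: Adm (41/64) (x',y'); lift_dist, exact_add: db x y = ec x' c + ec y' c ≥ eb x c + eb y c.
qq_of_cross: split gives Adm 7/8 (x,c), (y,c).
transfer: lifts x', y' as in qq_add; translate by n⁻¹: x, y'' = (n⁻¹ m') y, cone n⁻¹ • c; transfer0. -/
namespace Pool.Agent.helper50.BW
open Sum
variable {G : Type} [Group G] {D : G → G → ℝ} {C : Type} [MulAction G C] {K Δ τ T : ℝ}
  {S : CSys D C K Δ τ T} {U : C → G ⊕ C → ℝ} {s κ₁ κu κ₀ : ℝ} {d : ℕ}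

theorem q7_rs_le {t Θ : ℝ} (h : 0 < Θ) (z : ℤ) : rs t Θ ≤ |t - Θ * z| := by
  have h1 : ∀ w : ℝ, |t - Θ * w| = Θ * |t / Θ - w| := by
    intro w
    rw [← abs_of_pos h, ← abs_mul, abs_of_pos h]
    congr 1
    field_simp
  unfold rs
  rw [h1, h1]
  exact mul_le_mul_of_nonneg_left (round_le _ _) h.le

theorem q7_far {t Θ : ℝ} (h : 0 < Θ) {z : ℤ} (hz : z ≠ 0) : Θ - |t| ≤ |t - Θ * z| := by
  have h1 : (1 : ℝ) ≤ |(z : ℝ)| := by
    rw [← Int.cast_abs]
    exact_mod_cast Int.one_le_abs hz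
  have h2 : Θ ≤ |Θ * (z : ℝ)| := by
    rw [abs_mul, abs_of_pos h]
    nlinarith
  have h3 := abs_sub_abs_le_abs_sub (Θ * (z : ℝ)) t
  rw [abs_sub_comm (Θ * (z : ℝ)) t] at h3
  linarith

theorem rs_nonneg (t Θ : ℝ) : 0 ≤ rs t Θ := abs_nonneg _
theorem rs_le_abs {t Θ : ℝ} (h : 0 < Θ) : rs t Θ ≤ |t| := by
  have := q7_rs_le (t := t) h 0
  simpa using this
theorem rs_le_half {t Θ : ℝ} (h : 0 < Θ) : rs t Θ ≤ Θ / 2 := by
  have h1 : rs t Θ = Θ * |t / Θ - round (t / Θ)| := by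
    unfold rs
    rw [← abs_of_pos h, ← abs_mul, abs_of_pos h]
    congr 1
    field_simp
  rw [h1]
  have := abs_sub_round (t / Θ)
  nlinarith
theorem rs_add_int {t Θ : ℝ} (h : 0 < Θ) (k : ℤ) : rs (t + k * Θ) Θ = rs t Θ := by
  unfold rs
  have h1 : (t + k * Θ) / Θ = t / Θ + k := by field_simp
  rw [h1, round_add_intCast]
  congr 1
  push_cast
  ring
theorem rs_neg {t Θ : ℝ} (h : 0 < Θ) : rs (-t) Θ = rs t Θ := by
  have key : ∀ t : ℝ, rs (-t) Θ ≤ rs t Θ := by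
    intro t
    have h1 := q7_rs_le (t := -t) h (-round (t / Θ))
    refine h1.trans (le_of_eq ?_)
    unfold rs
    rw [← abs_neg]
    congr 1
    push_cast
    ring
  apply le_antisymm (key t)
  have := key (-t)
  rwa [neg_neg] at this
theorem rs_tri {t t' Θ : ℝ} (h : 0 < Θ) : rs (t + t') Θ ≤ rs t Θ + rs t' Θ := by
  have h1 := q7_rs_le (t := t + t') h (round (t / Θ) + round (t' / Θ))
  refine h1.trans ?_
  unfold rs
  refine le_trans (le_of_eq ?_) (abs_add_le _ _)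
  congr 1
  push_cast
  ring
theorem rs_small {t Θ : ℝ} (h : 0 < Θ) (ht : |t| ≤ Θ / 2) : rs t Θ = |t| := by
  apply le_antisymm (rs_le_abs h)
  unfold rs
  by_cases hz : round (t / Θ) = 0
  · rw [hz]; simp
  · have := q7_far (t := t) h hz
    linarith
theorem exists_round {t Θ : ℝ} (h : 0 < Θ) : ∃ k : ℤ, |t + k * Θ| = rs t Θ := by
  refine ⟨-round (t / Θ), ?_⟩
  unfold rs
  congr 1
  push_cast
  ring
/-- if |t| ≤ a Θ with a < 1 then rs t Θ ≥ min |t| ((1-a) Θ) -/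
theorem rs_ge {t Θ a : ℝ} (h : 0 < Θ) (ht : |t| ≤ a * Θ) : min |t| ((1 - a) * Θ) ≤ rs t Θ := by
  unfold rs
  by_cases hz : round (t / Θ) = 0
  · rw [hz]
    refine (min_le_left _ _).trans ?_
    simp
  · have := q7_far (t := t) h hz
    refine (min_le_right _ _).trans ?_
    linarith

theorem Ctx.q7_pos (hC : Ctx S U s κ₁ κu κ₀ d) (c : C) : 0 < d * S.ell c := by
  have := hC.q6_k1 c
  have := hC.h1
  linarith

theorem qq_eq (hC : Ctx S U s κ₁ κu κ₀ d) {c : C} {x y n m : G} (hn : n ∈ NN S d) (hm : m ∈ NN S d)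
    (hx : Adm S U d (7 / 8) (inl (n * x)) (inr c)) (hy : Adm S U d (7 / 8) (inl (m * y)) (inr c)) :
    qq S U d c x y = rs (U c (inl (n * x)) - U c (inl (m * y))) (d * S.ell c) := by
  have hpos := hC.q7_pos c
  have key : ∀ {z n n' : G}, n ∈ NN S d → n' ∈ NN S d → Adm S U d (7 / 8) (inl (n * z)) (inr c) →
      Adm S U d (7 / 8) (inl (n' * z)) (inr c) →
      ∃ k : ℤ, U c (inl (n' * z)) = U c (inl (n * z)) + k * (d * S.ell c) := by
    intro z n n' hn hn' h1 h2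
    have e : n' * z = (n' * n⁻¹) * (n * z) := by group
    rw [e] at h2
    obtain ⟨k, hk⟩ := wd hC (mul_mem hn' (inv_mem hn)) h1 h2
    refine ⟨k, ?_⟩
    rw [e]
    linarith
  have hset : {t | ∃ n ∈ NN S d, ∃ m ∈ NN S d, Adm S U d (7 / 8) (inl (n * x)) (inr c) ∧
      Adm S U d (7 / 8) (inl (m * y)) (inr c) ∧
      t = rs (U c (inl (n * x)) - U c (inl (m * y))) (d * S.ell c)} =
      {rs (U c (inl (n * x)) - U c (inl (m * y))) (d * S.ell c)} := by
    ext t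
    simp only [Set.mem_setOf_eq, Set.mem_singleton_iff]
    constructor
    · rintro ⟨n', hn', m', hm', h1, h2, rfl⟩
      obtain ⟨k, hk⟩ := key hn hn' hx h1
      obtain ⟨l, hl⟩ := key hm hm' hy h2
      have e : U c (inl (n' * x)) - U c (inl (m' * y)) =
          (U c (inl (n * x)) - U c (inl (m * y))) + ((k - l : ℤ) : ℝ) * (d * S.ell c) := by
        rw [hk, hl]; push_cast; ring
      rw [e, rs_add_int hpos]
    · intro h
      exact ⟨n, hn, m, hm, hx, hy, h⟩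
  unfold qq
  rw [hset, csInf_singleton]

theorem q7_cone (hC : Ctx S U s κ₁ κu κ₀ d) (x : G) (c : C) :
    ∃ n ∈ NN S d, Adm S U d (7 / 8) (inl (n * x)) (inr c) := by
  obtain ⟨n, hn, h⟩ := tight_cone hC x c
  exact ⟨n, hn, Adm.mono hC (by norm_num) h⟩

theorem qq_symm (hC : Ctx S U s κ₁ κu κ₀ d) (c : C) (x y : G) : qq S U d c x y = qq S U d c y x := by
  obtain ⟨n, hn, h1⟩ := q7_cone hC x c
  obtain ⟨m, hm, h2⟩ := q7_cone hC y c
  rw [qq_eq hC hn hm h1 h2, qq_eq hC hm hn h2 h1, ← rs_neg (hC.q7_pos c), neg_sub]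

theorem qq_tri (hC : Ctx S U s κ₁ κu κ₀ d) (c : C) (x y z : G) :
    qq S U d c x z ≤ qq S U d c x y + qq S U d c y z := by
  obtain ⟨n, hn, h1⟩ := q7_cone hC x c
  obtain ⟨m, hm, h2⟩ := q7_cone hC y c
  obtain ⟨l, hl, h3⟩ := q7_cone hC z c
  rw [qq_eq hC hn hm h1 h2, qq_eq hC hm hl h2 h3, qq_eq hC hn hl h1 h3]
  refine le_trans (le_of_eq ?_) (rs_tri (hC.q7_pos c))
  congr 1
  ring

theorem q7_shift (hC : Ctx S U s κ₁ κu κ₀ d) (g : G) (c : C) (x y X Y : G)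
    (hX : ∀ n ∈ NN S d, ∃ n' ∈ NN S d, g * (n * x) = n' * X)
    (hY : ∀ n ∈ NN S d, ∃ n' ∈ NN S d, g * (n * y) = n' * Y) :
    qq S U d (g • c) X Y = qq S U d c x y := by
  obtain ⟨n, hn, h1⟩ := q7_cone hC x c
  obtain ⟨m, hm, h2⟩ := q7_cone hC y c
  obtain ⟨n', hn', e1⟩ := hX n hn
  obtain ⟨m', hm', e2⟩ := hY m hm
  have a1 := Adm.smul hC g h1
  have a2 := Adm.smul hC g h2
  rw [Sum.smul_inl, Sum.smul_inr, smul_eq_mul, e1] at a1
  rw [Sum.smul_inl, Sum.smul_inr, smul_eq_mul, e2] at a2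
  rw [qq_eq hC hn' hm' a1 a2, qq_eq hC hn hm h1 h2, S.ell_smul, ← e1, ← e2]
  have := hC.proj.smul g c (inl (m * y)) (inl (n * x)) (by simp) (by simp)
  rw [Sum.smul_inl, Sum.smul_inl, smul_eq_mul, smul_eq_mul] at this
  rw [this]

theorem qq_N (hC : Ctx S U s κ₁ κu κ₀ d) {n m k : G} (hn : n ∈ NN S d) (hm : m ∈ NN S d) (hk : k ∈ NN S d)
    (c : C) (x y : G) : qq S U d (k • c) (n * x) (m * y) = qq S U d c x y := by
  apply q7_shift hC
  · intro a ha
    exact ⟨k * a * n⁻¹, mul_mem (mul_mem hk ha) (inv_mem hn), by group⟩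
  · intro a ha
    exact ⟨k * a * m⁻¹, mul_mem (mul_mem hk ha) (inv_mem hm), by group⟩

theorem qq_inv (hC : Ctx S U s κ₁ κu κ₀ d) (g : G) (c : C) (x y : G) :
    qq S U d (g • c) (g * x) (g * y) = qq S U d c x y := by
  apply q7_shift hC
  · intro a ha
    exact ⟨g * a * g⁻¹, (NN_normal S d).conj_mem a ha g, by group⟩
  · intro a ha
    exact ⟨g * a * g⁻¹, (NN_normal S d).conj_mem a ha g, by group⟩

/-- good lifts of a pair with a big residue crossing on `c` -/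
theorem q7_lift (hC : Ctx S U s κ₁ κu κ₀ d) {c : C} {x y : G} (h : κ₀ ≤ qq S U d c x y) :
    ∃ n ∈ NN S d, ∃ m ∈ NN S d, Adm S U d (7 / 8) (inl (n * x)) (inr c) ∧
      Adm S U d (7 / 8) (inl (m * y)) (inr c) ∧ Adm S U d (7 / 8) (inl (n * x)) (inl (m * y)) ∧
      κ₀ ≤ |U c (inl (m * y)) - U c (inl (n * x))| := by
  have hpos := hC.q7_pos c
  have hκ : 0 < κ₀ := by
    have h0 := hC.h0
    have h1 := hC.h1
    have hs := hC.hs
    have hK := hC.hK
    have hu := hC.hu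
    have hΔ := hC.hΔ
    linarith
  obtain ⟨n, hn, h1⟩ := tight_cone hC x c
  obtain ⟨m, hm, h2⟩ := tight_cone hC y c
  have h1' := Adm.mono hC (show (5 / 8 : ℝ) ≤ 7 / 8 by norm_num) h1
  have h2' := Adm.mono hC (show (5 / 8 : ℝ) ≤ 7 / 8 by norm_num) h2
  obtain ⟨k, hk⟩ := exists_round (t := U c (inl (m * y)) - U c (inl (n * x))) hpos
  have hq : qq S U d c x y = rs (U c (inl (m * y)) - U c (inl (n * x))) (d * S.ell c) := by
    rw [qq_eq hC hn hm h1' h2', ← rs_neg hpos, neg_sub]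
  have hm2 : S.gen c ^ (k * (d : ℤ)) * m ∈ NN S d := mul_mem (hC.gen_mem c k) hm
  have hU : U c (inl (S.gen c ^ (k * (d : ℤ)) * m * y)) = U c (inl (m * y)) + k * (d * S.ell c) := by
    rw [mul_assoc, hC.q6_rotp]
  have h3 : Adm S U d (5 / 8) (inl (S.gen c ^ (k * (d : ℤ)) * m * y)) (inr c) := by
    have := Adm.smul hC (S.gen c ^ (k * (d : ℤ))) h2
    rw [Sum.smul_inl, Sum.smul_inr, S.gen_zpow_smul, smul_eq_mul, ← mul_assoc] at this
    exact this
  have habs : |U c (inl (S.gen c ^ (k * (d : ℤ)) * m * y)) - U c (inl (n * x))| = qq S U d c x y := by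
    rw [hU, hq, ← hk]
    congr 1
    ring
  have hhalf : qq S U d c x y ≤ (d * S.ell c) / 2 := by
    rw [hq]; exact rs_le_half hpos
  refine ⟨n, hn, _, hm2, h1', Adm.mono hC (by norm_num) h3, ?_, ?_⟩
  · have hg := glue hC h1 h3 ?_ ?_
    · exact Adm.mono hC (by norm_num) hg
    · intro he
      rw [he, sub_self, abs_zero] at habs
      linarith
    · rw [habs]; linarith
  · rw [habs]; exact h

theorem qq_add (hC : Ctx S U s κ₁ κu κ₀ d) {c : C} {x y : G} (h : κ₀ ≤ qq S U d c x y) :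
    db S s d x y = eb S s d x c + eb S s d y c := by
  obtain ⟨n, hn, m, hm, h1, h2, h3, h4⟩ := q7_lift hC h
  have e1 : eb S s d x c = ec S s (n * x) c := by
    rw [← lift_dist_apex hC h1]
    have := eb_N hC hn (one_mem _) x c
    rw [one_smul] at this
    exact this.symm
  have e2 : eb S s d y c = ec S s (m * y) c := by
    rw [← lift_dist_apex hC h2]
    have := eb_N hC hm (one_mem _) y c
    rw [one_smul] at this
    exact this.symm
  rw [e1, e2, ← db_N hC hn hm x y, lift_dist hC h3]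
  have h0 := hC.h0
  have h1' := hC.h1
  have hu := hC.hu
  exact exact_add hC.hyp S hC.proj hC.hK hC.hΔ hC.hu hC.hs (by linarith)

theorem qq_small (hC : Ctx S U s κ₁ κu κ₀ d) {c : C} {x y : G} (h : db S s d x y < eb S s d x c) :
    qq S U d c x y < κ₀ := by
  by_contra hcon
  rw [not_lt] at hcon
  have h1 := qq_add hC hcon
  have h2 := eb_ge hC y c
  have hs := hC.hs
  have hK := hC.hK
  linarith

theorem qq_of_cross (hC : Ctx S U s κ₁ κu κ₀ d) {c : C} {x y : G}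
    (hxy : Adm S U d (27 / 32) (inl x) (inl y)) (hc : κ₁ ≤ |U c (inl y) - U c (inl x)|) :
    qq S U d c x y = rs (U c (inl y) - U c (inl x)) (d * S.ell c) := by
  have a1 := Adm.mono hC (show (27 / 32 + 1 / 64 : ℝ) ≤ 7 / 8 by norm_num)
    (split hC (by norm_num) hxy hc)
  have a2 := Adm.mono hC (show (27 / 32 + 1 / 64 : ℝ) ≤ 7 / 8 by norm_num)
    (split hC (by norm_num) hxy.symm (by rw [abs_sub_comm]; exact hc))
  rw [← one_mul x] at a1
  rw [← one_mul y] at a2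
  have := qq_eq hC (one_mem _) (one_mem _) a1 a2
  rw [one_mul, one_mul] at this
  rw [this, ← rs_neg (hC.q7_pos c), neg_sub]

theorem transfer (hC : Ctx S U s κ₁ κu κ₀ d) {c : C} {x y : G} (hxy : Adm S U d (27 / 32) (inl x) (inl y))
    (hc : κ₀ ≤ qq S U d c x y) :
    ∃ m ∈ NN S d, 2 * κ₁ ≤ |U (m • c) (inl y) - U (m • c) (inl x)| ∧
      rs (U (m • c) (inl y) - U (m • c) (inl x)) (d * S.ell c) = qq S U d c x y := by
  have hpos := hC.q7_pos c
  obtain ⟨n, hn, m, hm, h1, h2, h3, h4⟩ := q7_lift hC hc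
  have h0 := hC.h0
  have h1' := hC.h1
  have hu := hC.hu
  have hs := hC.hs
  have hK := hC.hK
  have hΔ := hC.hΔ
  have a3 := Adm.smul hC n⁻¹ h3
  have e1 : n⁻¹ * (n * x) = x := by group
  have e2 : n⁻¹ * (m * y) = n⁻¹ * m * y := by group
  rw [Sum.smul_inl, Sum.smul_inl, smul_eq_mul, smul_eq_mul, e1, e2] at a3
  have e3 := hC.proj.smul n⁻¹ c (inl (n * x)) (inl (m * y)) (by simp) (by simp)
  rw [Sum.smul_inl, Sum.smul_inl, smul_eq_mul, smul_eq_mul, e1, e2] at e3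
  obtain ⟨l, hl, k, hk1, hk2⟩ := transfer0 hC (c := n⁻¹ • c) (mul_mem (inv_mem hn) hm) hxy a3
    (by rw [e3]; linarith)
  refine ⟨l * n⁻¹, mul_mem hl (inv_mem hn), ?_, ?_⟩
  · rw [mul_smul]; exact hk1
  · rw [mul_smul, hk2, e3, S.ell_smul, rs_add_int hpos, qq_eq hC hn hm h1 h2, ← rs_neg hpos, neg_sub]

end Pool.Agent.helper50.BW
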