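import Pool.Agent.helper50.BW.M6
import Pool.Agent.helper50.BW.M7
import Pool.Agent.helper50.BW.Q7
/-! ## BW-M8 short bridges, case 1: a central cone is crossed (uses M6, M7, Q7; 250 lines)
E < ec (pt a) c = eb (pt a) c (NC_adm, split, lift_dist_apex): qq_small: qq c (pt a) (g pt a') < κ₀, same at b.
qq c (pt a) (pt b) = rs ≥ Θ/16 (qq_of_cross, rs_ge with a = 4/5), so qq c (g pt a') (g pt b') ≥ Θ/16 - 2κ₀ ≥ κ₀; transfer
(x := g pt a', y := g pt b'): m with rs (U (m•c) y - U (m•c) x) ≥ Θ/16 - 2κ₀.  g₁ := m⁻¹ g: the crossing of c on (g₁ pt a', g₁ pt b') has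
absolute value ≥ Θ/16 - 2κ₀ (rs_le_abs) and ≤ 4/5 Θ.  qq c (pt a) (g₁ pt a') < κ₀ (qq_N), qq_eq, exists_round: k with
|U c (pt a) - U c (g₁ pt a') + kΘ| < κ₀; g₂ := gen c^{-kd} g₁ (rot, sign so that |U c (pt a) - U c (g₂ pt a')| < κ₀).
cone_bridge with (1, a, b), (g₂, a', b') (|u - U| ≤ κu), ν := gen c^{-kd} m⁻¹ ∈ NN. -/
namespace Pool.Agent.helper50.BW
open Sum

variable {G : Type} [Group G] {D : G → G → ℝ} {C : Type} [MulAction G C] {Δ τ T : ℝ} {d m : ℕ} {LB : ℝ}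
  {S : CSys D C KU Δ τ T} {U : C → G ⊕ C → ℝ} {s κ₁ κu κ₀ : ℝ} {π : FreeGroup ℕ →* G} {w : W}

/-- `u` differences and `U` differences -/
theorem m8_uU (hC : Ctx S U s κ₁ κu κ₀ d) (c : C) (x y : G) :
    |(S.u c y - S.u c x) - (U c (inl y) - U c (inl x))| ≤ 2 * κu := by
  have h1 := hC.proj.close c x
  have h2 := hC.proj.close c y
  rw [abs_le] at h1 h2 ⊢
  constructor <;> linarith

theorem sb_case1 (hC : Ctx S U s κ₁ κu κ₀ d) (hM : MC d κ₀ τ T LB) (hp : Pth D w.length (pt π w))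
    (hSB : SB D π w d m) (hN : NC S U d π w) {g : G} {a b a' b' : ℕ} (ha : a ≤ w.length) (hb : b ≤ w.length)
    (ha' : a' ≤ w.length) (hb' : b' ≤ w.length) {E : ℝ} (h1 : db S s d (pt π w a) (g * pt π w a') ≤ E)
    (h2 : db S s d (pt π w b) (g * pt π w b') ≤ E) {c : C}
    (hc : 1 / 16 * (d * S.ell c) ≤ |U c (inl (pt π w b)) - U c (inl (pt π w a))|)
    (hac : E < ec S s (pt π w a) c) (hbc : E < ec S s (pt π w b) c) :
    ∃ ν ∈ NN S d, Brg π w d (m + 2) (ν * g) a b a' b' := by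
  obtain ⟨hK0, hs0, hk0, h30, hk1⟩ := Q1_nn hC
  have hu := hC.hu
  have hΔ := hC.hΔ
  have hκ1 := hC.h1
  have h0 := hC.h0
  have hbig := hC.ell_big c
  have hpos := hC.q7_pos c
  set Θ : ℝ := d * S.ell c with hΘ
  set x : G := pt π w a with hx
  set y : G := pt π w b with hy
  -- admissibility of (x, y)
  have hxy : Adm S U d (4 / 5) (inl x) (inl y) := by
    have := NC_adm hC hN 1 ha hb
    rwa [one_mul, one_mul] at this
  have hcx : κ₁ ≤ |U c (inl y) - U c (inl x)| := by linarith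
  have hxc : Adm S U d (7 / 8) (inl x) (inr c) :=
    Adm.mono hC (by norm_num) (split hC (by norm_num) hxy hcx)
  have hyc : Adm S U d (7 / 8) (inl y) (inr c) :=
    Adm.mono hC (by norm_num) (split hC (by norm_num) hxy.symm (by rw [abs_sub_comm]; exact hcx))
  have q1 : qq S U d c x (g * pt π w a') < κ₀ := by
    apply qq_small hC
    rw [lift_dist_apex hC hxc]
    exact lt_of_le_of_lt h1 hac
  have q2 : qq S U d c y (g * pt π w b') < κ₀ := by
    apply qq_small hC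
    rw [lift_dist_apex hC hyc]
    exact lt_of_le_of_lt h2 hbc
  have q3 : 1 / 16 * Θ ≤ qq S U d c x y := by
    rw [qq_of_cross hC (Adm.mono hC (by norm_num) hxy) hcx]
    refine le_trans ?_ (rs_ge hpos (hxy c (by simp) (by simp)))
    rw [le_min_iff]
    exact ⟨hc, by linarith⟩
  have q4 : 1 / 16 * Θ - 2 * κ₀ ≤ qq S U d c (g * pt π w a') (g * pt π w b') := by
    have t1 := qq_tri hC c x (g * pt π w a') y
    have t2 := qq_tri hC c (g * pt π w a') (g * pt π w b') y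
    rw [qq_symm hC c (g * pt π w b') y] at t2
    linarith
  have hadm' := NC_adm hC hN g ha' hb'
  obtain ⟨n₁, hn₁, -, hn₁'⟩ := transfer hC (c := c) (Adm.mono hC (by norm_num) hadm') (by linarith)
  -- the first translate
  have hsm : U (n₁ • c) (inl (g * pt π w b')) - U (n₁ • c) (inl (g * pt π w a')) =
      U c (inl (n₁⁻¹ * g * pt π w b')) - U c (inl (n₁⁻¹ * g * pt π w a')) := by
    have := hC.proj.smul n₁ c (inl (n₁⁻¹ * g * pt π w a')) (inl (n₁⁻¹ * g * pt π w b')) (by simp) (by simp)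
    rw [Sum.smul_inl, Sum.smul_inl, smul_eq_mul, smul_eq_mul, mul_assoc, mul_inv_cancel_left, mul_assoc,
      mul_inv_cancel_left] at this
    rw [this, mul_assoc, mul_assoc]
  set X : G := n₁⁻¹ * g * pt π w a' with hX
  set Y : G := n₁⁻¹ * g * pt π w b' with hY
  have r1 : 1 / 16 * Θ - 2 * κ₀ ≤ |U c (inl Y) - U c (inl X)| := by
    rw [← hsm]
    refine le_trans ?_ (rs_le_abs hpos)
    rw [hn₁']
    exact q4
  have r2 : |U c (inl Y) - U c (inl X)| ≤ 4 / 5 * Θ := NC_smul hC hN (n₁⁻¹ * g) c ha' hb'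
  have hXY : Adm S U d (4 / 5) (inl X) (inl Y) := NC_adm hC hN (n₁⁻¹ * g) ha' hb'
  have hXc : Adm S U d (7 / 8) (inl X) (inr c) :=
    Adm.mono hC (by norm_num) (split hC (by norm_num) hXY (by linarith))
  have q5 : qq S U d c x X < κ₀ := by
    have := qq_N hC (one_mem (NN S d)) (inv_mem hn₁) (one_mem (NN S d)) c x (g * pt π w a')
    rw [one_smul, one_mul, ← mul_assoc] at this
    rw [hX, this]
    exact q1
  have q6 : qq S U d c x X = rs (U c (inl x) - U c (inl X)) Θ := by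
    have := qq_eq hC (c := c) (x := x) (y := X) (one_mem (NN S d)) (one_mem (NN S d))
      (by rwa [one_mul]) (by rwa [one_mul])
    rwa [one_mul, one_mul] at this
  obtain ⟨k, hk⟩ := exists_round (t := U c (inl x) - U c (inl X)) hpos
  -- the second translate
  set ρ : G := S.gen c ^ ((-k) * (d : ℤ)) with hρ
  have e1 : U c (inl (ρ * X)) = U c (inl X) + ((-k : ℤ) : ℝ) * Θ := hC.q6_rotp c (-k) X
  have e2 : U c (inl (ρ * Y)) = U c (inl Y) + ((-k : ℤ) : ℝ) * Θ := hC.q6_rotp c (-k) Y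
  push_cast at e1 e2
  have e3 : U c (inl (ρ * Y)) - U c (inl (ρ * X)) = U c (inl Y) - U c (inl X) := by
    rw [e1, e2]; ring
  have e4 : |U c (inl x) - U c (inl (ρ * X))| < κ₀ := by
    have : U c (inl x) - U c (inl (ρ * X)) = U c (inl x) - U c (inl X) + k * Θ := by
      rw [e1]; ring
    rw [this, hk, ← q6]
    exact q5
  have hXm : ρ * n₁⁻¹ * g * pt π w a' = ρ * X := by rw [hX]; group
  have hYm : ρ * n₁⁻¹ * g * pt π w b' = ρ * Y := by rw [hY]; group
  have b1 := m8_uU hC c x y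
  have b2 := m8_uU hC c (ρ * X) (ρ * Y)
  have b3 := m8_uU hC c (ρ * X) x
  rw [e3] at b2
  have c1 := hxy c (by simp) (by simp)
  have d1 := abs_sub_abs_le_abs_sub (U c (inl y) - U c (inl x)) (S.u c y - S.u c x)
  have d2 := abs_sub_abs_le_abs_sub (S.u c y - S.u c x) (U c (inl y) - U c (inl x))
  have d3 := abs_sub_abs_le_abs_sub (U c (inl Y) - U c (inl X)) (S.u c (ρ * Y) - S.u c (ρ * X))
  have d4 := abs_sub_abs_le_abs_sub (S.u c (ρ * Y) - S.u c (ρ * X)) (U c (inl Y) - U c (inl X))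
  have d5 := abs_sub_abs_le_abs_sub (S.u c x - S.u c (ρ * X)) (U c (inl x) - U c (inl (ρ * X)))
  rw [abs_sub_comm (U c (inl y) - U c (inl x)) (S.u c y - S.u c x)] at d1
  rw [abs_sub_comm (U c (inl Y) - U c (inl X)) (S.u c (ρ * Y) - S.u c (ρ * X))] at d3
  have hmem : ρ * n₁⁻¹ ∈ NN S d := mul_mem (hC.gen_mem c (-k)) (inv_mem hn₁)
  refine ⟨ρ * n₁⁻¹, hmem, ?_⟩
  have key := cone_bridge (g := 1) (g' := ρ * n₁⁻¹ * g) (c := c) hC.hyp hC.linv hp hSB hM ha hb ha' hb'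
    (by rw [one_mul, hXm]; linarith) (by rw [one_mul, one_mul]; linarith)
    (by rw [one_mul, one_mul]; linarith) (by rw [hXm, hYm]; linarith) (by rw [hXm, hYm]; linarith)
  rwa [inv_one, one_mul] at key

end Pool.Agent.helper50.BW
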