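import Pool.Agent.helper50.BW.M7
import Pool.Agent.helper50.BW.Q7
/-! ## BW-M9 case 2: no crossing of central cones (uses M7, Q7; 250 lines)
core_small: otherwise cross_mono (a,x,y,b): |crossing of (a,b)| ≥ Θ/15 - κ₀ ≥ Θ/16, so ec (pt a) c ≤ E or ec (pt b) c ≤ E; far_cross with
(pt a, pt x, pt y) or (pt b, pt y, pt x): contradiction.
claimA: suppose f has |crossing of (X₁,Y₁)| > Θ/6, X_i = g₁ pt x_i', Y_i = g₁ pt y_i'.  cross_mono: crossing of (X₀,Y₀) ≥ Θ/6 - κ₀ ≥ Θ/7.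
far_cross (X₀,X₁,Y₁), (Y₀,Y₁,X₁): ec X₀ f > E, ec Y₀ f > E.  eb = ec (NC_adm, split, lift_dist_apex).  qq_small: qq f X₀ (pt x₀) < κ₀,
qq f Y₀ (pt y₀) < κ₀; qq_of_cross, rs_ge: qq f X₀ Y₀ ≥ Θ/7, qq_tri: qq f (pt x₀) (pt y₀) ≥ Θ/7 - 2κ₀; transfer on (pt x₀, pt y₀) and
rs_le_abs: a crossing of (pt x₀, pt y₀) is ≥ Θ/7 - 2κ₀ > Θ/15, contradiction. -/
namespace Pool.Agent.helper50.BW
open Sum

variable {G : Type} [Group G] {D : G → G → ℝ} {C : Type} [MulAction G C] {Δ τ T : ℝ} {d m : ℕ} {LB : ℝ}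
  {S : CSys D C KU Δ τ T} {U : C → G ⊕ C → ℝ} {s κ₁ κu κ₀ : ℝ} {π : FreeGroup ℕ →* G} {w : W}
theorem m9_pos (hC : Ctx S U s κ₁ κu κ₀ d) (c : C) :
    0 < κ₀ ∧ 10000 * κ₀ ≤ d * S.ell c ∧ κ₁ ≤ κ₀ ∧ 0 ≤ s := by
  have h0 := hC.h0
  have h1 := hC.h1
  have hu := hC.hu
  have hs := hC.hs
  have hK := hC.hK
  have hΔ := hC.hΔ
  exact ⟨by linarith, hC.ell_big c, by linarith, by linarith⟩

/-- the apex of a crossed cone is far in the quotient too -/
theorem m9_eb (hC : Ctx S U s κ₁ κu κ₀ d) {x y : G} {c : C} (hA : Adm S U d (4 / 5) (inl x) (inl y))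
    (hc : κ₀ ≤ |U c (inl y) - U c (inl x)|) : eb S s d x c = ec S s x c :=
  lift_dist_apex hC (Adm.mono hC (by norm_num) (split hC (by norm_num) hA ((m9_pos hC c).2.2.1.trans hc)))

theorem core_small (hC : Ctx S U s κ₁ κu κ₀ d) (hp : Pth D w.length (pt π w)) {a x y b : ℕ}
    (ha : a ≤ w.length) (hb : b ≤ w.length) (hx : Mid a x b) (hy : Mid x y b) {E : ℝ}
    (h1 : E + 6 * s < dd S s (pt π w a) (pt π w x)) (h2 : E + 6 * s < dd S s (pt π w y) (pt π w b))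
    (H : ∀ c, 1 / 16 * (d * S.ell c) ≤ |U c (inl (pt π w b)) - U c (inl (pt π w a))| →
      ec S s (pt π w a) c ≤ E ∨ ec S s (pt π w b) c ≤ E) (c : C) :
    |U c (inl (pt π w y)) - U c (inl (pt π w x))| ≤ 1 / 15 * (d * S.ell c) := by
  obtain ⟨hκ, hbig, -, hs⟩ := m9_pos hC c
  by_contra hcon
  rw [not_le] at hcon
  have hab : Mid a x b ∧ Mid a y b := ⟨hx, (hx.trans1 hy).1⟩
  have hx' : x ≤ w.length := hx.le ha hb
  have hy' : y ≤ w.length := (hx.trans1 hy).1.le ha hb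
  have b4 := hp.btw4 hC.hyp hx hy ha hb
  have hm := cross_mono hC (c := c) (x := pt π w a) (z := pt π w x) (z' := pt π w y) (y := pt π w b) (by linarith)
  have hxy : κ₀ ≤ |U c (inl (pt π w y)) - U c (inl (pt π w x))| := by linarith
  rcases H c (by linarith) with h | h
  · have b1 := hp.btw hC.hyp (hx.trans1 hy).2 ha hy'
    have hf := far_cross hC (c := c) (x := pt π w a) (y := pt π w x) (z := pt π w y)
      (by unfold Btw at b1 ⊢; linarith) hxy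
    linarith
  · have b1 := hp.btw hC.hyp hy.symm hb hx'
    have hf := far_cross hC (c := c) (x := pt π w b) (y := pt π w y) (z := pt π w x)
      (by unfold Btw at b1 ⊢; linarith) (by rw [abs_sub_comm]; exact hxy)
    rw [dd_symm hC.hyp S hs] at hf
    linarith

theorem claimA (hC : Ctx S U s κ₁ κu κ₀ d) (hp : Pth D w.length (pt π w)) (hN : NC S U d π w) {g₁ : G}
    {x₀ y₀ x₀' x₁' y₁' y₀' : ℕ} (hx₀ : x₀ ≤ w.length) (hy₀ : y₀ ≤ w.length) (hx₀' : x₀' ≤ w.length)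
    (hy₀' : y₀' ≤ w.length) (m1 : Mid x₀' x₁' y₀') (m2 : Mid x₁' y₁' y₀')
    (core : ∀ c, |U c (inl (pt π w y₀)) - U c (inl (pt π w x₀))| ≤ 1 / 15 * (d * S.ell c)) {E : ℝ}
    (h1 : db S s d (pt π w x₀) (g₁ * pt π w x₀') ≤ E) (h2 : db S s d (pt π w y₀) (g₁ * pt π w y₀') ≤ E)
    (h3 : E + 6 * s < dd S s (g₁ * pt π w x₀') (g₁ * pt π w x₁'))
    (h4 : E + 6 * s < dd S s (g₁ * pt π w y₀') (g₁ * pt π w y₁')) :
    Adm S U d (1 / 6) (inl (g₁ * pt π w x₁')) (inl (g₁ * pt π w y₁')) := by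
  intro f _ _
  obtain ⟨hκ, hbig, hk1, hs⟩ := m9_pos hC f
  have hpos : 0 < d * S.ell f := hC.q7_pos f
  by_contra hcon
  rw [not_le] at hcon
  have hx₁' : x₁' ≤ w.length := m1.le hx₀' hy₀'
  have hy₁' : y₁' ≤ w.length := (m1.trans1 m2).1.le hx₀' hy₀'
  have hp' := hp.smul hC.linv g₁
  have b4 := hp'.btw4 hC.hyp m1 m2 hx₀' hy₀'
  beta_reduce at b4
  have hm := cross_mono hC (c := f) (x := g₁ * pt π w x₀') (z := g₁ * pt π w x₁') (z' := g₁ * pt π w y₁')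
    (y := g₁ * pt π w y₀') (by linarith)
  have hxy : κ₀ ≤ |U f (inl (g₁ * pt π w y₁')) - U f (inl (g₁ * pt π w x₁'))| := by linarith
  have h7 : 1 / 7 * (d * S.ell f) ≤ |U f (inl (g₁ * pt π w y₀')) - U f (inl (g₁ * pt π w x₀'))| := by linarith
  have hXY : κ₀ ≤ |U f (inl (g₁ * pt π w y₀')) - U f (inl (g₁ * pt π w x₀'))| := by linarith
  have hA := NC_adm hC hN g₁ hx₀' hy₀'
  have e1 : E < eb S s d (g₁ * pt π w x₀') f := by
    rw [m9_eb hC hA hXY]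
    have b1 := hp'.btw hC.hyp (m1.trans1 m2).2 hx₀' hy₁'
    beta_reduce at b1
    have hf := far_cross hC (c := f) (x := g₁ * pt π w x₀') (y := g₁ * pt π w x₁') (z := g₁ * pt π w y₁')
      (by unfold Btw at b1 ⊢; linarith) hxy
    linarith
  have e2 : E < eb S s d (g₁ * pt π w y₀') f := by
    rw [m9_eb hC hA.symm (by rw [abs_sub_comm]; exact hXY)]
    have b1 := hp'.btw hC.hyp m2.symm hy₀' hx₁'
    beta_reduce at b1
    have hf := far_cross hC (c := f) (x := g₁ * pt π w y₀') (y := g₁ * pt π w y₁') (z := g₁ * pt π w x₁')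
      (by unfold Btw at b1 ⊢; linarith) (by rw [abs_sub_comm]; exact hxy)
    linarith
  have q1 : qq S U d f (g₁ * pt π w x₀') (pt π w x₀) < κ₀ :=
    qq_small hC (lt_of_le_of_lt (by rw [db_symm hC]; exact h1) e1)
  have q2 : qq S U d f (g₁ * pt π w y₀') (pt π w y₀) < κ₀ :=
    qq_small hC (lt_of_le_of_lt (by rw [db_symm hC]; exact h2) e2)
  have q3 := qq_of_cross hC (c := f) (Adm.mono hC (by norm_num) hA) (hk1.trans hXY)
  have q4 := rs_ge (t := U f (inl (g₁ * pt π w y₀')) - U f (inl (g₁ * pt π w x₀'))) (a := 4 / 5) hpos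
    (NC_smul hC hN g₁ f hx₀' hy₀')
  rw [← q3] at q4
  have q5 : 1 / 7 * (d * S.ell f) ≤ qq S U d f (g₁ * pt π w x₀') (g₁ * pt π w y₀') := by
    refine le_trans (le_min h7 ?_) q4
    nlinarith
  have q6 := qq_tri hC f (g₁ * pt π w x₀') (pt π w x₀) (g₁ * pt π w y₀')
  have q7 := qq_tri hC f (pt π w x₀) (pt π w y₀) (g₁ * pt π w y₀')
  rw [qq_symm hC f (pt π w y₀)] at q7
  have hcore : Adm S U d (27 / 32) (inl (pt π w x₀)) (inl (pt π w y₀)) := by
    intro c _ _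
    refine (core c).trans ?_
    have := hC.q7_pos c
    nlinarith
  obtain ⟨m, hm, -, hrs⟩ := transfer hC (c := f) hcore (by linarith)
  have hr := rs_le_abs (t := U (m • f) (inl (pt π w y₀)) - U (m • f) (inl (pt π w x₀))) hpos
  have hcm := core (m • f)
  rw [S.ell_smul] at hcm
  linarith

end Pool.Agent.helper50.BW
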