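import Pool.Agent.helper50.BW.DefsP
import Pool.Agent.helper50.BW.D13
/-! ## BW-P1 strings and words (uses D13; 250 lines)
decW (v ++ r) with Hd r: the state of the fold (from the right end) after r has an empty digit buffer.  encW_decW: by induction along the
letters of u.  finite_Wn: encW is injective into lists of length n.  sum_Wn: the words of Wn n correspond to the strings u of length n with
Hd u; the sum over all strings of length n is 4^n EE n (induction). -/
namespace Pool.Agent.helper50.BW

private theorem p1_base (L : List (Bool × Bool)) (ws : W) (s : List Bool) :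
    L.foldl pstep (ws, s) = ((L.foldl pstep ([], s)).1 ++ ws, (L.foldl pstep ([], s)).2) := by
  induction L generalizing ws s with
  | nil => rfl
  | cons c L ih =>
    obtain ⟨c1, c2⟩ := c
    cases c1
    · exact ih ws (c2 :: s)
    · have h1 : pstep (ws, s) (true, c2) = ((undig s.reverse, !c2) :: ws, []) := rfl
      have h2 : pstep (([] : W), s) (true, c2) = ([(undig s.reverse, !c2)], []) := rfl
      rw [List.foldl_cons, List.foldl_cons, h1, h2, ih ((undig s.reverse, !c2) :: ws) [],
        ih [(undig s.reverse, !c2)] [], List.append_assoc]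
      rfl

private theorem p1_buf {r : List A4} (h : Hd r) :
    ((r.map sy2).reverse.foldl pstep (([] : W), ([] : List Bool))).2 = [] := by
  cases r with
  | nil => rfl
  | cons c r =>
    have h1 : IsSg c := h c rfl
    rw [List.map_cons, List.reverse_cons, List.foldl_append, List.foldl_cons, List.foldl_nil]
    rcases h1 with rfl | rfl <;> rfl

theorem decW_encW (w : W) : decW (encW w) = w := parse_spec w

theorem decW_append {v r : List A4} (h : Hd r) : decW (v ++ r) = decW v ++ decW r := by
  unfold decW parse
  rw [List.map_append, List.reverse_append, List.foldl_append]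
  have h1 : (r.map sy2).reverse.foldl pstep (([] : W), ([] : List Bool)) =
      (((r.map sy2).reverse.foldl pstep (([] : W), ([] : List Bool))).1, []) :=
    Prod.ext rfl (p1_buf h)
  rw [h1, p1_base]

private theorem p1_encW_cons (a : ℕ × Bool) (w : W) : encW (a :: w) = code a ++ encW w := rfl

private theorem p1_encW_one (a : ℕ × Bool) : encW [a] = code a := by
  rw [p1_encW_cons]
  exact List.append_nil _

theorem decW_code (a : ℕ × Bool) : decW (code a) = [a] := by
  rw [← p1_encW_one, decW_encW]

/-- the bit of a digit symbol -/
private def p1_bit (c : A4) : Bool := decide (c = A4.i)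

private theorem p1_split (u : List A4) :
    ∃ (ds : List Bool) (r : List A4), u = (ds.map fun b => if b then A4.i else A4.o) ++ r ∧ Hd r := by
  induction u with
  | nil => exact ⟨[], [], rfl, fun c hc => by simp at hc⟩
  | cons c u ih =>
    obtain ⟨ds, r, hu, hr⟩ := ih
    cases c with
    | x => exact ⟨[], .x :: u, rfl, fun c hc => by
        rw [List.head?_cons, Option.mem_some_iff] at hc; exact Or.inl hc.symm⟩
    | y => exact ⟨[], .y :: u, rfl, fun c hc => by
        rw [List.head?_cons, Option.mem_some_iff] at hc; exact Or.inr hc.symm⟩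
    | o => exact ⟨false :: ds, r, by rw [hu]; rfl, hr⟩
    | i => exact ⟨true :: ds, r, by rw [hu]; rfl, hr⟩

theorem encW_decW {u : List A4} (h : Hd u) : encW (decW u) = u := by
  induction hn : u.length using Nat.strong_induction_on generalizing u with
  | _ n ih =>
    cases u with
    | nil => rfl
    | cons c u =>
      obtain ⟨ds, r, hu, hr⟩ := p1_split u
      have h1 : IsSg c := h c rfl
      have h2 : c :: u = code (undig ds.reverse, decide (c = A4.x)) ++ r := by
        unfold code
        rw [dig_undig, List.reverse_reverse, hu]
        rcases h1 with rfl | rfl <;> rfl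
      rw [h2, decW_append hr, decW_code, List.singleton_append, p1_encW_cons]
      congr 1
      refine ih r.length ?_ hr rfl
      rw [← hn, List.length_cons, hu, List.length_append]
      omega

theorem Hd_encW (w : W) : Hd (encW w) := by
  cases w with
  | nil => intro c hc; simp [encW] at hc
  | cons a w =>
    rw [p1_encW_cons]
    intro c hc
    unfold code at hc
    rw [List.cons_append, List.head?_cons, Option.mem_some_iff] at hc
    rw [← hc]
    unfold IsSg
    split_ifs
    · exact Or.inl rfl
    · exact Or.inr rfl

theorem esum_append (w w' : W) (i : ℕ) : esum (w ++ w') i = esum w i + esum w' i := by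
  unfold esum
  rw [List.map_append, List.sum_append]

theorem length_code (a : ℕ × Bool) : (code a).length = (dig a.1).length + 1 := by
  simp [code]

theorem length_dig (i : ℕ) : 2 ^ (dig i).length ≤ i + 1 ∧ i + 1 < 2 ^ ((dig i).length + 1) := by
  have h1 : (dig i).length + 1 = Nat.size (i + 1) := by
    rw [← Nat.size_eq_bits_len, bits_dropLast, List.length_append, List.length_singleton]
  constructor
  · rw [← Nat.lt_size]
    omega
  · rw [h1]
    exact Nat.lt_size_self _

private theorem p1_encW_inj : Function.Injective encW := fun w w' h => by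
  rw [← decW_encW w, ← decW_encW w', h]

/-- all strings of length n -/
private noncomputable def p1_S (n : ℕ) : Finset (List A4) := (List.finite_length_eq A4 n).toFinset

private theorem p1_mem_S {n : ℕ} {u : List A4} : u ∈ p1_S n ↔ u.length = n := by
  simp [p1_S]

private theorem p1_univ : (Finset.univ : Finset A4) = {A4.x, A4.y, A4.o, A4.i} := by
  ext c
  cases c <;> simp

private theorem p1_sum_S (n : ℕ) (F : List A4 → ℝ) : ∑ u ∈ p1_S n, F u = 4 ^ n * EE n F := by
  induction n generalizing F with
  | zero =>
    have h : p1_S 0 = {[]} := by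
      ext u
      rw [p1_mem_S, Finset.mem_singleton, List.length_eq_zero_iff]
    rw [h, Finset.sum_singleton]
    simp [EE]
  | succ n ih =>
    classical
    have h : p1_S (n + 1) = ((Finset.univ : Finset A4) ×ˢ p1_S n).image (fun p => p.1 :: p.2) := by
      ext u
      rw [p1_mem_S, Finset.mem_image]
      constructor
      · intro hu
        cases u with
        | nil => simp at hu
        | cons c u =>
          refine ⟨(c, u), ?_, rfl⟩
          rw [Finset.mem_product]
          exact ⟨Finset.mem_univ _, p1_mem_S.2 (by simpa using hu)⟩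
      · rintro ⟨p, hp, rfl⟩
        rw [Finset.mem_product] at hp
        rw [List.length_cons, p1_mem_S.1 hp.2]
    rw [h, Finset.sum_image (fun p _ q _ hpq => by
      rw [List.cons.injEq] at hpq
      exact Prod.ext hpq.1 hpq.2), Finset.sum_product, p1_univ,
      Finset.sum_insert (by simp), Finset.sum_insert (by simp), Finset.sum_insert (by simp),
      Finset.sum_singleton, ih, ih, ih, ih, EE]
    ring

theorem sum_Wn (f : List A4 → ℝ) (n : ℕ) :
    ∑ w ∈ Wn n, f (encW w) = 4 ^ n * EE n (fun u => ind (Hd u) * f u) := by
  classical
  rw [← p1_sum_S]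
  have h1 : ∑ u ∈ p1_S n, ind (Hd u) * f u = ∑ u ∈ (p1_S n).filter (fun u => Hd u), f u := by
    rw [Finset.sum_filter]
    refine Finset.sum_congr rfl fun u _ => ?_
    unfold ind
    split_ifs
    · rw [one_mul]
    · rw [zero_mul]
  rw [h1]
  refine Finset.sum_nbij' encW decW ?_ ?_ ?_ ?_ ?_
  · intro w hw
    rw [Finset.mem_filter, p1_mem_S]
    exact ⟨mem_Wn.1 hw, Hd_encW w⟩
  · intro u hu
    rw [Finset.mem_filter, p1_mem_S] at hu
    rw [mem_Wn, encW_decW hu.2]
    exact hu.1
  · intro w _
    exact decW_encW w
  · intro u hu
    rw [Finset.mem_filter] at hu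
    exact encW_decW hu.2
  · intro w _
    rfl

private theorem p1_EE_const (n : ℕ) (t : ℝ) : EE n (fun _ => t) = t := by
  induction n with
  | zero => rfl
  | succ n ih =>
    unfold EE
    rw [ih]
    ring

theorem card_Wn {n : ℕ} (hn : 1 ≤ n) : (Wn n).card = 2 * 4 ^ (n - 1) := by
  obtain ⟨m, rfl⟩ : ∃ m, n = m + 1 := ⟨n - 1, by omega⟩
  have h := sum_Wn (fun _ => 1) (m + 1)
  rw [Finset.sum_const, nsmul_eq_mul, mul_one] at h
  have hx : ∀ z : List A4, ind (Hd (A4.x :: z)) = 1 := fun z => by
    unfold ind
    exact if_pos (fun c hc => by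
      rw [List.head?_cons, Option.mem_some_iff] at hc; exact Or.inl hc.symm)
  have hy : ∀ z : List A4, ind (Hd (A4.y :: z)) = 1 := fun z => by
    unfold ind
    exact if_pos (fun c hc => by
      rw [List.head?_cons, Option.mem_some_iff] at hc; exact Or.inr hc.symm)
  have ho : ∀ z : List A4, ind (Hd (A4.o :: z)) = 0 := fun z => by
    unfold ind
    refine if_neg (fun h => ?_)
    have := h A4.o rfl
    rcases this with h | h <;> cases h
  have hi : ∀ z : List A4, ind (Hd (A4.i :: z)) = 0 := fun z => by
    unfold ind
    refine if_neg (fun h => ?_)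
    have := h A4.i rfl
    rcases this with h | h <;> cases h
  have h2 : EE (m + 1) (fun u => ind (Hd u) * 1) = 1 / 2 := by
    unfold EE
    simp only [hx, hy, ho, hi, mul_one, p1_EE_const]
    norm_num
  rw [h2] at h
  have h3 : ((Wn (m + 1)).card : ℝ) = ((2 * 4 ^ (m + 1 - 1) : ℕ) : ℝ) := by
    rw [h, Nat.add_sub_cancel, pow_succ]
    push_cast
    ring
  exact_mod_cast h3

end Pool.Agent.helper50.BW
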