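import Pool.Agent.helper50.BW.DefsP
/-! ## BW-P3 expectation over strings (Mathlib; 200 lines)
EE_window: among the 4^(k+2) strings y of length k+2 there are 4 good ones: code (i, s) ++ [s'], s ∈ Bool, s' a sign symbol.
Sum over the good ones ≤ 2 b', over the others ≤ (4^(k+2) - 4) b. -/
namespace Pool.Agent.helper50.BW


theorem EE_const (j : ℕ) (c : ℝ) : EE j (fun _ => c) = c := by
  induction j with
  | zero => rfl
  | succ j ih =>
    simp only [EE, ih]
    ring
theorem EE_add (j : ℕ) (F G : List A4 → ℝ) : EE j (fun z => F z + G z) = EE j F + EE j G := by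
  induction j generalizing F G with
  | zero => rfl
  | succ j ih =>
    simp only [EE]
    rw [ih, ih, ih, ih]
    ring
theorem EE_smul (j : ℕ) (c : ℝ) (F : List A4 → ℝ) : EE j (fun z => c * F z) = c * EE j F := by
  induction j generalizing F with
  | zero => rfl
  | succ j ih =>
    simp only [EE]
    rw [ih, ih, ih, ih]
    ring
theorem EE_mono {j : ℕ} {F G : List A4 → ℝ} (h : ∀ z, z.length = j → F z ≤ G z) : EE j F ≤ EE j G := by
  induction j generalizing F G with
  | zero => exact h [] rfl
  | succ j ih =>
    simp only [EE]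
    have k1 : EE j (fun z => F (.x :: z)) ≤ EE j (fun z => G (.x :: z)) :=
      ih fun z hz => h _ (by simp [hz])
    have k2 : EE j (fun z => F (.y :: z)) ≤ EE j (fun z => G (.y :: z)) :=
      ih fun z hz => h _ (by simp [hz])
    have k3 : EE j (fun z => F (.o :: z)) ≤ EE j (fun z => G (.o :: z)) :=
      ih fun z hz => h _ (by simp [hz])
    have k4 : EE j (fun z => F (.i :: z)) ≤ EE j (fun z => G (.i :: z)) :=
      ih fun z hz => h _ (by simp [hz])
    linarith
theorem EE_sum {ι : Type} (s : Finset ι) (j : ℕ) (F : ι → List A4 → ℝ) :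
    EE j (fun z => ∑ i ∈ s, F i z) = ∑ i ∈ s, EE j (F i) := by
  classical
  induction s using Finset.induction_on with
  | empty =>
    simp only [Finset.sum_empty]
    exact EE_const j 0
  | insert a s ha ih =>
    simp only [Finset.sum_insert ha]
    rw [EE_add, ih]
theorem EE_append (i j : ℕ) (F : List A4 → ℝ) :
    EE (i + j) F = EE i (fun y => EE j (fun z => F (y ++ z))) := by
  induction i generalizing F with
  | zero =>
    rw [Nat.zero_add]
    rfl
  | succ i ih =>
    rw [show i + 1 + j = (i + j) + 1 by omega]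
    simp only [EE]
    rw [ih, ih, ih, ih]
    rfl
theorem ind_nonneg (p : Prop) : 0 ≤ ind p := by
  unfold ind
  split_ifs <;> norm_num
theorem ind_le_one (p : Prop) : ind p ≤ 1 := by
  unfold ind
  split_ifs <;> norm_num
theorem ind_mono {p q : Prop} (h : p → q) : ind p ≤ ind q := by
  unfold ind
  split_ifs with h1 h2
  · exact le_rfl
  · exact absurd (h h1) h2
  · norm_num
  · exact le_rfl
private theorem EE_point (k : ℕ) (G : List A4 → ℝ) (B : ℝ) (hB : ∀ z, z.length = k → G z ≤ B)
    (z0 : List A4) (hz0 : z0.length = k) :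
    EE k G ≤ (1 - (1 / 4) ^ k) * B + (1 / 4) ^ k * G z0 := by
  induction k generalizing G z0 with
  | zero =>
    have : z0 = [] := List.length_eq_zero_iff.1 hz0
    subst this
    simp [EE]
  | succ k ih =>
    cases z0 with
    | nil => simp at hz0
    | cons c0 z0 =>
      have hz : z0.length = k := by simpa using hz0
      have hc : ∀ c : A4, EE k (fun z => G (c :: z)) ≤ B := by
        intro c
        refine (EE_mono (G := fun _ => B) fun z hz => hB _ (by simp [hz])).trans (le_of_eq ?_)
        exact EE_const k B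
      have h0 : EE k (fun z => G (c0 :: z)) ≤ (1 - (1 / 4) ^ k) * B + (1 / 4) ^ k * G (c0 :: z0) :=
        ih (fun z => G (c0 :: z)) (fun z hz => hB _ (by simp [hz])) z0 hz
      have hx := hc .x
      have hy := hc .y
      have ho := hc .o
      have hi := hc .i
      simp only [EE]
      rw [pow_succ]
      cases c0 <;> linarith
theorem EE_window {k i : ℕ} (hk : (dig i).length = k) {F : List A4 → ℝ} {b b' : ℝ}
    (h1 : ∀ y, y.length = k + 2 → F y ≤ b)
    (h2 : ∀ s' : A4, IsSg s' → F (code (i, true) ++ [s']) + F (code (i, false) ++ [s']) ≤ b') :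
    EE (k + 2) F ≤ (1 - (1 / 4) ^ (k + 1)) * b + (1 / 4) ^ (k + 1) * (b' / 2) := by
  set D : List A4 := (dig i).reverse.map fun b => if b then A4.i else A4.o with hD
  have hDlen : D.length = k := by
    rw [hD, List.length_map, List.length_reverse, hk]
  have hct : code (i, true) = .x :: D := by
    simp only [code, hD, if_true]
  have hcf : code (i, false) = .y :: D := by
    simp [code, hD]
  have e1 : EE (k + 2) F = EE 1 (fun y => EE k (fun z => EE 1 (fun t => F (y ++ (z ++ t))))) := by
    rw [show k + 2 = 1 + (k + 1) by omega, EE_append]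
    congr 1
    funext y
    rw [EE_append]
  have e2 : ∀ H : List A4 → ℝ, EE 1 H = (H [.x] + H [.y] + H [.o] + H [.i]) / 4 := fun H => rfl
  set G : List A4 → ℝ := fun z => EE 1 (fun y => EE 1 (fun t => F (y ++ (z ++ t)))) with hG
  have e3 : EE (k + 2) F = EE k G := by
    rw [e1, e2]
    have : EE k G = EE k (fun z => (1 / 4) * (EE 1 (fun t => F ([.x] ++ (z ++ t))) +
        EE 1 (fun t => F ([.y] ++ (z ++ t))) + EE 1 (fun t => F ([.o] ++ (z ++ t))) +
        EE 1 (fun t => F ([.i] ++ (z ++ t))))) := by
      congr 1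
      funext z
      simp only [hG]
      rw [e2]
      ring
    rw [this, EE_smul, EE_add, EE_add, EE_add]
    ring
  have hGB : ∀ z, z.length = k → G z ≤ b := by
    intro z hz
    have hFc : ∀ c t : A4, F ([c] ++ (z ++ [t])) ≤ b := fun c t => h1 _ (by simp [hz])
    simp only [hG, e2]
    have := hFc .x .x
    have := hFc .x .y
    have := hFc .x .o
    have := hFc .x .i
    have := hFc .y .x
    have := hFc .y .y
    have := hFc .y .o
    have := hFc .y .i
    have := hFc .o .x
    have := hFc .o .y
    have := hFc .o .o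
    have := hFc .o .i
    have := hFc .i .x
    have := hFc .i .y
    have := hFc .i .o
    have := hFc .i .i
    linarith
  have hGD : G D ≤ (2 * b' + 12 * b) / 16 := by
    have hFc : ∀ c t : A4, F ([c] ++ (D ++ [t])) ≤ b := fun c t => h1 _ (by simp [hDlen])
    have k1 := h2 .x (Or.inl rfl)
    have k2 := h2 .y (Or.inr rfl)
    rw [hct, hcf] at k1 k2
    have k1' : F ([.x] ++ (D ++ [.x])) + F ([.y] ++ (D ++ [.x])) ≤ b' := k1
    have k2' : F ([.x] ++ (D ++ [.y])) + F ([.y] ++ (D ++ [.y])) ≤ b' := k2
    simp only [hG, e2]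
    have := hFc .x .o
    have := hFc .x .i
    have := hFc .y .o
    have := hFc .y .i
    have := hFc .o .x
    have := hFc .o .y
    have := hFc .o .o
    have := hFc .o .i
    have := hFc .i .x
    have := hFc .i .y
    have := hFc .i .o
    have := hFc .i .i
    linarith
  rw [e3]
  have h3 := EE_point k G b hGB D hDlen
  have h4 : (0 : ℝ) ≤ (1 / 4) ^ k := by positivity
  have h5 : (1 / 4 : ℝ) ^ k * G D ≤ (1 / 4) ^ k * ((2 * b' + 12 * b) / 16) :=
    mul_le_mul_of_nonneg_left hGD h4
  rw [pow_succ]
  linarith

end Pool.Agent.helper50.BW
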