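import Pool.Agent.helper50.BW.P1
import Pool.Agent.helper50.BW.P3
/-! ## BW-P4 the probability that all variables with k digits pass (uses P1, P3; 250 lines)
q := (1/4)^(k+1).  Induction on m; m = 0: ind ≤ 1.  m + 1 (variable lo, classes after it: lo+1, ..): inner induction on r ≤ J:
 EE j (ind (PF d lo hi v ·)) ≤ (1/2 + 1/2 (1-q)^r) g^m for all v and j ≥ (r + mJ)(k+2), g := (1 + (1-q)^J)/2.
 r = 0: PF lo hi implies PF (lo+1) hi.  r + 1: z = y ++ z', |y| = k+2 (EE_append, j = (k+2) + j').  PF d lo hi v (y ++ z') implies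
 PF d lo hi (v ++ y) z' (Occ i z' → Occ i (y ++ z')), so the inner expectation is ≤ (1/2 + 1/2 (1-q)^r) g^m =: b for every y.
 Good windows y = code (lo, s) ++ [s']: for both signs s: PF d lo hi v (y ++ z') implies PF d (lo+1) hi (v ++ y) z' and d | esum (v ++ y ++ z') lo (Occ lo
 (y ++ z')); the first condition does not depend on s (esum of i ≠ lo: decW_append at the sign symbol s' and at code), and the second
 cannot hold for both s (the exponent sums differ by 2, d odd ≥ 3).  So the sum over both s is ≤ EE j' (ind (PF d (lo+1) hi (v ++ y) ·)) ≤ g^m =: b'.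
 EE_window: (1-q) b + q b'/2 = (1/2 + 1/2 (1-q)^(r+1)) g^m.  (dig lo).length = k because 2^k ≤ lo + 1 < 2^(k+1) (length_dig). -/
namespace Pool.Agent.helper50.BW


private theorem occ_append {i : ℕ} {z : List A4} (y : List A4) (h : Occ i z) : Occ i (y ++ z) := by
  obtain ⟨z₁, z₂, s, rfl, h2⟩ := h
  exact ⟨y ++ z₁, z₂, s, by simp, h2⟩

private theorem pf_shift {d lo hi : ℕ} {v y z : List A4} (h : PF d lo hi v (y ++ z)) :
    PF d lo hi (v ++ y) z := by
  intro i h1 h2 h3
  have := h i h1 h2 (occ_append y h3)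
  rwa [← List.append_assoc] at this

private theorem pf_succ {d lo hi : ℕ} {v z : List A4} (h : PF d lo hi v z) :
    PF d (lo + 1) hi v z := fun i h1 h2 h3 => h i (by omega) h2 h3

private theorem hd_code (a : ℕ × Bool) (r : List A4) : Hd (code a ++ r) := by
  intro c hc
  obtain ⟨n, b⟩ := a
  cases b <;> simp [code] at hc <;> subst hc
  · right; rfl
  · left; rfl

private theorem hd_cons {c : A4} (h : IsSg c) (r : List A4) : Hd (c :: r) := by
  intro c' hc
  simp at hc
  subst hc
  exact h

private theorem esum_window (v z : List A4) (lo : ℕ) (s : Bool) {s' : A4} (hs : IsSg s') (i : ℕ) :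
    esum (decW (v ++ (code (lo, s) ++ [s'] ++ z))) i =
      esum (decW v) i + (if lo = i then (if s then (1 : ℤ) else -1) else 0) + esum (decW (s' :: z)) i := by
  have e1 : v ++ (code (lo, s) ++ [s'] ++ z) = v ++ (code (lo, s) ++ (s' :: z)) := by simp
  rw [e1, decW_append (hd_code _ _), decW_append (hd_cons hs _), decW_code, esum_append, esum_append, ← add_assoc]
  congr 2
  simp [esum]

private theorem pf_window {d lo hi : ℕ} (v z : List A4) (s s₂ : Bool) {s' : A4} (hs : IsSg s')
    (h : PF d lo hi v (code (lo, s) ++ [s'] ++ z)) :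
    PF d (lo + 1) hi (v ++ (code (lo, s₂) ++ [s'])) z := by
  intro i h1 h2 h3
  have h4 := h i (by omega) h2 (occ_append _ h3)
  rw [esum_window v z lo s hs i, if_neg (by omega)] at h4
  rw [List.append_assoc v, esum_window v z lo s₂ hs i, if_neg (by omega)]
  exact h4

private theorem pf_div {d lo hi : ℕ} (hlo : lo < hi) (v z : List A4) (s : Bool) {s' : A4} (hs : IsSg s')
    (h : PF d lo hi v (code (lo, s) ++ [s'] ++ z)) :
    (d : ℤ) ∣ esum (decW v) lo + (if s then (1 : ℤ) else -1) + esum (decW (s' :: z)) lo := by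
  have h4 := h lo le_rfl hlo ⟨[], s' :: z, s, by simp, hd_cons hs _⟩
  rwa [esum_window v z lo s hs lo, if_pos rfl] at h4

private theorem ind_of_true {p : Prop} (h : p) : ind p = 1 := by
  classical
  unfold ind; rw [if_pos h]

private theorem ind_of_false {p : Prop} (h : ¬ p) : ind p = 0 := by
  classical
  unfold ind; rw [if_neg h]

private theorem ind_pair {d lo hi : ℕ} (h3 : 3 ≤ d) (hlo : lo < hi) (v z : List A4) {s' : A4}
    (hs : IsSg s') :
    ind (PF d lo hi v (code (lo, true) ++ [s'] ++ z)) + ind (PF d lo hi v (code (lo, false) ++ [s'] ++ z)) ≤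
      ind (PF d (lo + 1) hi (v ++ (code (lo, true) ++ [s'])) z) := by
  by_cases hT : PF d lo hi v (code (lo, true) ++ [s'] ++ z)
  · have hF : ¬ PF d lo hi v (code (lo, false) ++ [s'] ++ z) := by
      intro hF
      have a1 := pf_div hlo v z true hs hT
      have a2 := pf_div hlo v z false hs hF
      simp only [if_true, Bool.false_eq_true, if_false] at a1 a2
      have a3 := dvd_sub a1 a2
      have a4 : (esum (decW v) lo + 1 + esum (decW (s' :: z)) lo) -
          (esum (decW v) lo + -1 + esum (decW (s' :: z)) lo) = 2 := by ring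
      rw [a4] at a3
      have a5 : d ∣ 2 := by exact_mod_cast a3
      have a6 := Nat.le_of_dvd (by norm_num) a5
      omega
    rw [ind_of_true hT, ind_of_false hF, ind_of_true (pf_window v z true true hs hT)]
    norm_num
  · by_cases hF : PF d lo hi v (code (lo, false) ++ [s'] ++ z)
    · rw [ind_of_true hF, ind_of_false hT, ind_of_true (pf_window v z false true hs hF)]
      norm_num
    · rw [ind_of_false hF, ind_of_false hT]
      simpa using ind_nonneg _

theorem PF_bound {d k J : ℕ} (hd : Odd d) (h3 : 3 ≤ d) (m : ℕ) : ∀ lo, lo + m = 2 ^ (k + 1) - 1 → 2 ^ k - 1 ≤ lo →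
    ∀ (v : List A4) (j : ℕ), m * J * (k + 2) ≤ j →
      EE j (fun z => ind (PF d lo (2 ^ (k + 1) - 1) v z)) ≤ ((1 + (1 - (1 / 4) ^ (k + 1)) ^ J) / 2) ^ m := by
  have hq0 : (0 : ℝ) ≤ (1 / 4) ^ (k + 1) := by positivity
  have hq1 : ((1 : ℝ) / 4) ^ (k + 1) ≤ 1 := pow_le_one₀ (by norm_num) (by norm_num)
  induction m with
  | zero =>
    intro lo _ _ v j _
    rw [pow_zero]
    calc EE j (fun z => ind (PF d lo (2 ^ (k + 1) - 1) v z)) ≤ EE j (fun _ => (1 : ℝ)) :=
          EE_mono (fun z _ => ind_le_one _)
      _ = 1 := EE_const j 1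
  | succ m ih =>
    intro lo hlo hk v j hj
    set g : ℝ := (1 + (1 - (1 / 4) ^ (k + 1)) ^ J) / 2 with hg
    have hlt : lo < 2 ^ (k + 1) - 1 := by omega
    have hlen : (dig lo).length = k := by
      obtain ⟨l1, l2⟩ := length_dig lo
      have p1 : 0 < 2 ^ k := by positivity
      have b1 : 2 ^ k < 2 ^ ((dig lo).length + 1) := by omega
      have b2 : 2 ^ (dig lo).length < 2 ^ (k + 1) := by omega
      have c1 := (Nat.pow_lt_pow_iff_right (by norm_num : 1 < 2)).1 b1
      have c2 := (Nat.pow_lt_pow_iff_right (by norm_num : 1 < 2)).1 b2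
      omega
    have inner : ∀ r : ℕ, ∀ (v : List A4) (j : ℕ), (r + m * J) * (k + 2) ≤ j →
        EE j (fun z => ind (PF d lo (2 ^ (k + 1) - 1) v z)) ≤
          (1 / 2 + 1 / 2 * (1 - (1 / 4) ^ (k + 1)) ^ r) * g ^ m := by
      intro r
      induction r with
      | zero =>
        intro v j hj
        calc EE j (fun z => ind (PF d lo (2 ^ (k + 1) - 1) v z))
            ≤ EE j (fun z => ind (PF d (lo + 1) (2 ^ (k + 1) - 1) v z)) :=
              EE_mono (fun z _ => ind_mono pf_succ)
          _ ≤ g ^ m := ih (lo + 1) (by omega) (by omega) v j (by simpa using hj)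
          _ = _ := by rw [pow_zero]; ring
      | succ r ihr =>
        intro v j hj
        obtain ⟨j', rfl⟩ : ∃ j', j = (k + 2) + j' := by
          refine ⟨j - (k + 2), ?_⟩
          have : k + 2 ≤ (r + 1 + m * J) * (k + 2) := Nat.le_mul_of_pos_left _ (by omega)
          omega
        have hj' : (r + m * J) * (k + 2) ≤ j' := by
          have : (r + 1 + m * J) * (k + 2) = (r + m * J) * (k + 2) + (k + 2) := by ring
          omega
        have hj'' : m * J * (k + 2) ≤ j' :=
          le_trans (Nat.mul_le_mul_right _ (by omega)) hj'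
        rw [EE_append]
        have hw := EE_window (k := k) (i := lo) hlen
          (F := fun y => EE j' (fun z => ind (PF d lo (2 ^ (k + 1) - 1) v (y ++ z))))
          (b := (1 / 2 + 1 / 2 * (1 - (1 / 4) ^ (k + 1)) ^ r) * g ^ m) (b' := g ^ m)
          (by
            intro y _
            calc EE j' (fun z => ind (PF d lo (2 ^ (k + 1) - 1) v (y ++ z)))
                ≤ EE j' (fun z => ind (PF d lo (2 ^ (k + 1) - 1) (v ++ y) z)) :=
                  EE_mono (fun z _ => ind_mono pf_shift)
              _ ≤ _ := ihr (v ++ y) j' hj')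
          (by
            intro s' hs
            show EE j' (fun z => ind (PF d lo (2 ^ (k + 1) - 1) v (code (lo, true) ++ [s'] ++ z))) +
              EE j' (fun z => ind (PF d lo (2 ^ (k + 1) - 1) v (code (lo, false) ++ [s'] ++ z))) ≤ g ^ m
            rw [← EE_add]
            calc EE j' (fun z => ind (PF d lo (2 ^ (k + 1) - 1) v (code (lo, true) ++ [s'] ++ z)) +
                    ind (PF d lo (2 ^ (k + 1) - 1) v (code (lo, false) ++ [s'] ++ z)))
                ≤ EE j' (fun z => ind (PF d (lo + 1) (2 ^ (k + 1) - 1) (v ++ (code (lo, true) ++ [s'])) z)) :=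
                  EE_mono (fun z _ => ind_pair h3 hlt v z hs)
              _ ≤ g ^ m := ih (lo + 1) (by omega) (by omega) _ j' hj'')
        refine le_trans hw (le_of_eq ?_)
        rw [pow_succ (1 - ((1 : ℝ) / 4) ^ (k + 1)) r]
        ring
    have hfin := inner J v j (by
      have : (J + m * J) * (k + 2) = (m + 1) * J * (k + 2) := by ring
      omega)
    refine le_trans hfin (le_of_eq ?_)
    rw [pow_succ, hg]
    ring

end Pool.Agent.helper50.BW
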