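import Pool.Agent.helper50.BW.A1
/-! ## BW-Q13 commutator lemma (general hyperbolic spaces; uses A1; 250 lines)
Hyp D; ρ ≤ D a second pseudo-metric, additive up to c0 along 1000-between points of D; φ, ψ isometries for D and ρ;
ρ x (φx), ρ y (φy), ρ x (ψx), ρ y (ψy) ≤ E.  M := 20E + 20c0 + 2000, z 2-between x,y with ρ x z, ρ z y ≥ M.  p w := D x w.
(1) f ∈ {φ,ψ}, w κ-between x,y (κ ≤ 50), ρ x w, ρ w y > E + c0 + 118: f w is (4κ+38)-between x,y: quad for (f x, f w, f y) and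
    x, y: z' with D (f w) z' ≤ 2κ+18; if Btw 2 (fx) z' x then ρ (fx) z' ≤ E + c0, ρ x w = ρ (fx) (fw) ≤ E + c0 + 2κ + 18, no.
(2) z'': 2-between x,y, D x z'' ≤ D x z, ρ x z'' ∈ [M/2, M/2+20] (first rough2 point of (x,z) or (x,y) at integer parameter with
    ρ ≥ M/2).  z, z'' 2-between; φz, ψz 46-between; φψz, ψφz, φz'', ψz'' 222-between.
(3) w ∈ {z, ψz}: ρ x z'' + ρ z'' w ≤ ρ x w + c0 and p z'' ≤ p w (if p w < p z'' then ρ x w ≤ ρ x z'' + c0, no); ρ z'' w ≥ M/2 - E - 20 - ...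
    > E + c0.  Then p (φz'') ≤ p (φw): otherwise ρ x (φw) + ρ (φw) (φz'') ≤ ρ x (φz'') + c0 gives ρ w z'' ≤ E + c0.
(4) near2: |p a - p b| ≤ D a b ≤ |p a - p b| + 2κ + 2; so a_φ(w) := p (φw) - p w satisfies |a_φ(w) - a_φ(z'')| ≤ 478, hence
    |a_φ(ψz) - a_φ(z)| ≤ 956; the same for ψ.  p (φψz) = p z + a_ψ(z) + a_φ(ψz), p (ψφz) = p z + a_φ(z) + a_ψ(φz).
    near2: D (φψz) (ψφz) ≤ 1912 + 446 ≤ 2400. -/
namespace Pool.Agent.helper50.BW


theorem Q13_near2 {X : Type} {D : X → X → ℝ} (h : Hyp D) {κ : ℝ} {x y a b : X} (ha : Btw D κ x a y)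
    (hb : Btw D κ x b y) (hab : D x a ≤ D x b) :
    D a b ≤ D x b - D x a + 2 * κ + 2 ∧ D x b - D x a ≤ D a b := by
  have h1 := h.near2 ha hb
  have h2 : |D x a - D x b| = D x b - D x a := by
    rw [abs_of_nonpos (by linarith)]; ring
  rw [h2] at h1
  have h3 := h.tri x a b
  exact ⟨h1, by linarith⟩

theorem Q13_mono {X : Type} {D : X → X → ℝ} {κ κ' : ℝ} (hk : κ ≤ κ') {x y a : X} (ha : Btw D κ x a y) :
    Btw D κ' x a y := by
  unfold Btw at *; linarith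

/-- step (1) -/
theorem Q13_move {X : Type} {D : X → X → ℝ} (h : Hyp D) {ρ : X → X → ℝ} {c0 E κ : ℝ} (hκ : 0 ≤ κ)
    (hρ0 : ∀ x y, 0 ≤ ρ x y) (hρs : ∀ x y, ρ x y = ρ y x) (hρt : ∀ x y z, ρ x z ≤ ρ x y + ρ y z)
    (hρD : ∀ x y, ρ x y ≤ D x y)
    (hadd : ∀ x z y, Btw D 1000 x z y → ρ x z + ρ z y ≤ ρ x y + c0)
    {f : X → X} (hf : ∀ x y, D (f x) (f y) = D x y) (hf' : ∀ x y, ρ (f x) (f y) = ρ x y) {x y w : X}
    (h1 : ρ x (f x) ≤ E) (h2 : ρ y (f y) ≤ E) (hw : Btw D κ x w y)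
    (hxw : E + c0 + 2 * κ + 18 < ρ x w) (hwy : E + c0 + 2 * κ + 18 < ρ w y) :
    Btw D (4 * κ + 38) x (f w) y := by
  have hfw : Btw D κ (f x) (f w) (f y) := by
    unfold Btw at *
    rw [hf, hf, hf]; exact hw
  obtain ⟨z', hz', hc⟩ := h.quad hκ hfw x y
  rcases hc with hc | hc | hc
  · exfalso
    have e1 := hadd _ _ _ (Q13_mono (by norm_num) hc)
    have e2 := hρ0 z' x
    have e3 := hρs x (f x)
    have e4 := hρt (f x) z' (f w)
    have e5 := hf' x w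
    have e6 := hρD (f w) z'
    have e7 := hρs (f w) z'
    linarith
  · have s1 := h.symm (f w) z'
    have t1 := h.tri x z' (f w)
    have t2 := h.tri (f w) z' y
    unfold Btw at *
    linarith
  · exfalso
    have e1 := hadd _ _ _ (Q13_mono (by norm_num) hc)
    have e2 := hρ0 y z'
    have e4 := hρt (f w) z' (f y)
    have e5 := hf' w y
    have e6 := hρD (f w) z'
    linarith

/-- steps (3), (4) for one isometry -/
theorem Q13_half {X : Type} {D : X → X → ℝ} (h : Hyp D) {ρ : X → X → ℝ} {c0 E : ℝ} (hc0 : 0 ≤ c0) (hE : 0 ≤ E)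
    (hρ0 : ∀ x y, 0 ≤ ρ x y) (hρs : ∀ x y, ρ x y = ρ y x) (hρt : ∀ x y z, ρ x z ≤ ρ x y + ρ y z)
    (hρD : ∀ x y, ρ x y ≤ D x y)
    (hadd : ∀ x z y, Btw D 1000 x z y → ρ x z + ρ z y ≤ ρ x y + c0)
    {f : X → X} (hf : ∀ x y, D (f x) (f y) = D x y) (hf' : ∀ x y, ρ (f x) (f y) = ρ x y) {x y w v : X}
    (h1 : ρ x (f x) ≤ E) (h2 : ρ y (f y) ≤ E)
    (hv : Btw D 4 x v y) (hxv : 10 * E + 10 * c0 + 1000 ≤ ρ x v) (hxv' : ρ x v ≤ 10 * E + 10 * c0 + 1009)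
    (hvy : 10 * E + 10 * c0 + 1000 ≤ ρ v y)
    (hw : Btw D 46 x w y) (hxw : 19 * E + 20 * c0 + 2000 ≤ ρ x w) (hwy : 19 * E + 20 * c0 + 2000 ≤ ρ w y) :
    Btw D 222 x (f w) y ∧ (D x (f w) - D x w) - (D x (f v) - D x v) ≤ 94 ∧
      -446 ≤ (D x (f w) - D x w) - (D x (f v) - D x v) := by
  have hfw : Btw D 222 x (f w) y :=
    Q13_mono (by norm_num) (Q13_move h (κ := 46) (by norm_num) hρ0 hρs hρt hρD hadd hf hf' h1 h2 hw
      (by linarith) (by linarith))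
  have hfv : Btw D 222 x (f v) y :=
    Q13_mono (by norm_num) (Q13_move h (κ := 4) (by norm_num) hρ0 hρs hρt hρD hadd hf hf' h1 h2 hv
      (by linarith) (by linarith))
  have hv46 : Btw D 46 x v y := Q13_mono (by norm_num) hv
  -- p v ≤ p w
  have hvw : D x v ≤ D x w := by
    by_contra hcon
    push Not at hcon
    have e1 := (Q13_near2 h hw hv46 hcon.le).1
    have e2 : Btw D 1000 x w v := by unfold Btw; linarith
    have e3 := hadd _ _ _ e2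
    have e4 := hρ0 w v
    linarith
  have hn := Q13_near2 h hv46 hw hvw
  have hvw2 : Btw D 1000 x v w := by unfold Btw; linarith [hn.1]
  have hadd1 := hadd _ _ _ hvw2
  have htri1 := hρt x v w
  have hvwbig : 9 * E + 10 * c0 + 991 ≤ ρ v w := by linarith
  have hs1 := hρs v w
  -- p (f v) ≤ p (f w)
  have hfvw : D x (f v) ≤ D x (f w) := by
    by_contra hcon
    push Not at hcon
    have e1 := (Q13_near2 h hfw hfv hcon.le).1
    have e2 : Btw D 1000 x (f w) (f v) := by unfold Btw; linarith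
    have e3 := hadd _ _ _ e2
    have e4 := hf' w v
    have e5 := hρt (f x) x (f w)
    have e6 := hf' x w
    have e7 := hρs (f x) x
    have e8 := hρt x (f x) (f v)
    have e9 := hf' x v
    linarith
  have hn2 := Q13_near2 h hfv hfw hfvw
  have e1 := hf v w
  refine ⟨hfw, ?_, ?_⟩
  · linarith [hn.1, hn2.2]
  · linarith [hn.2, hn2.1]

/-- intermediate value for ρ along a geodesic of D (a first rough2 point at integer parameter) -/
theorem exists_at {X : Type} {D : X → X → ℝ} (h : Hyp D) {ρ : X → X → ℝ}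
    (hρt : ∀ x y z, ρ x z ≤ ρ x y + ρ y z) (hρD : ∀ x y, ρ x y ≤ D x y) (hρs : ∀ x y, ρ x y = ρ y x)
    (hρ0 : ∀ x y, 0 ≤ ρ x y)
    {x y : X} {m : ℝ} (hm : 0 ≤ m) (hm' : m + 2 ≤ ρ x y) :
    ∃ z, Btw D 2 x z y ∧ m ≤ ρ x z ∧ ρ x z ≤ m + 9 := by
  classical
  have hD0 := h.nonneg x y
  have hex : ∀ n : ℕ, (n : ℝ) ≤ D x y → ∃ z, Btw D 2 x z y ∧ |D x z - n| ≤ 1 ∧ |D z y - (D x y - n)| ≤ 1 :=
    fun n hn => h.rough2 x y n (Nat.cast_nonneg n) hn
  let P : ℕ → Prop := fun n => ∃ hn : (n : ℝ) ≤ D x y, m ≤ ρ x (hex n hn).choose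
  have hP : ∃ n, P n := by
    have hfl : ((⌊D x y⌋₊ : ℕ) : ℝ) ≤ D x y := Nat.floor_le hD0
    refine ⟨⌊D x y⌋₊, hfl, ?_⟩
    have hspec := (hex _ hfl).choose_spec
    have hlt := Nat.lt_floor_add_one (D x y)
    have e1 := (abs_le.1 hspec.2.2).2
    have e2 := hρt x (hex _ hfl).choose y
    have e3 := hρD (hex _ hfl).choose y
    linarith
  obtain ⟨hn, hmn⟩ := Nat.find_spec hP
  have hspec := (hex _ hn).choose_spec
  refine ⟨(hex _ hn).choose, hspec.1, hmn, ?_⟩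
  rcases Nat.eq_zero_or_pos (Nat.find hP) with h0 | hpos
  · have e1 := hρD x (hex _ hn).choose
    have e2 := (abs_le.1 hspec.2.1).2
    have h0r : ((Nat.find hP : ℕ) : ℝ) = 0 := by rw [h0]; simp
    linarith
  · obtain ⟨k, hk⟩ : ∃ k, Nat.find hP = k + 1 := ⟨Nat.find hP - 1, by omega⟩
    have hkn : (k : ℝ) ≤ D x y := by
      have : ((k + 1 : ℕ) : ℝ) ≤ D x y := by rw [← hk]; exact hn
      push_cast at this
      linarith
    have hnk : ¬ P k := Nat.find_min hP (by omega)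
    have hlt : ρ x (hex k hkn).choose < m := by
      by_contra hcon
      push Not at hcon
      exact hnk ⟨hkn, hcon⟩
    have hspeck := (hex k hkn).choose_spec
    have e1 := h.near2 hspeck.1 hspec.1
    have e2 := abs_le.1 hspeck.2.1
    have e3 := abs_le.1 hspec.2.1
    have hkr : ((Nat.find hP : ℕ) : ℝ) = (k : ℝ) + 1 := by rw [hk]; push_cast; ring
    have e4 : |D x (hex k hkn).choose - D x (hex _ hn).choose| ≤ 3 := by
      rw [abs_le]
      constructor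
      · linarith [e2.1, e3.2]
      · linarith [e2.2, e3.1]
    have e5 := hρt x (hex k hkn).choose (hex _ hn).choose
    have e6 := hρD (hex k hkn).choose (hex _ hn).choose
    linarith

theorem ct {X : Type} {D : X → X → ℝ} (h : Hyp D) {ρ : X → X → ℝ} {c0 E : ℝ} (hc0 : 0 ≤ c0) (hE : 0 ≤ E)
    (hρ0 : ∀ x y, 0 ≤ ρ x y) (hρs : ∀ x y, ρ x y = ρ y x) (hρt : ∀ x y z, ρ x z ≤ ρ x y + ρ y z)
    (hρD : ∀ x y, ρ x y ≤ D x y)
    (hadd : ∀ x z y, Btw D 1000 x z y → ρ x z + ρ z y ≤ ρ x y + c0)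
    {φ ψ : X → X} (hφ : ∀ x y, D (φ x) (φ y) = D x y) (hψ : ∀ x y, D (ψ x) (ψ y) = D x y)
    (hφ' : ∀ x y, ρ (φ x) (φ y) = ρ x y) (hψ' : ∀ x y, ρ (ψ x) (ψ y) = ρ x y) {x y z : X}
    (h1 : ρ x (φ x) ≤ E) (h2 : ρ y (φ y) ≤ E) (h3 : ρ x (ψ x) ≤ E) (h4 : ρ y (ψ y) ≤ E)
    (hz : Btw D 2 x z y) (hxz : 20 * E + 20 * c0 + 2000 ≤ ρ x z) (hzy : 20 * E + 20 * c0 + 2000 ≤ ρ z y) :
    D (φ (ψ z)) (ψ (φ z)) ≤ 2400 := by
  -- the point v
  obtain ⟨v, hv, hxv, hxv'⟩ := exists_at h hρt hρD hρs hρ0 (x := x) (y := z) (m := 10 * E + 10 * c0 + 1000)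
    (by linarith) (by linarith)
  have hv4 : Btw D 4 x v y := by
    have t1 := h.tri v z y
    unfold Btw at *
    linarith
  have haz := hadd _ _ _ (Q13_mono (κ' := 1000) (by norm_num) hz)
  have hvy : 10 * E + 10 * c0 + 1000 ≤ ρ v y := by
    have t1 := hρt x v y
    linarith
  have hz46 : Btw D 46 x z y := Q13_mono (by norm_num) hz
  -- images of z
  have hφz : Btw D 46 x (φ z) y :=
    Q13_mono (by norm_num) (Q13_move h (κ := 2) (by norm_num) hρ0 hρs hρt hρD hadd hφ hφ' h1 h2 hz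
      (by linarith) (by linarith))
  have hψz : Btw D 46 x (ψ z) y :=
    Q13_mono (by norm_num) (Q13_move h (κ := 2) (by norm_num) hρ0 hρs hρt hρD hadd hψ hψ' h3 h4 hz
      (by linarith) (by linarith))
  have r1 : 19 * E + 20 * c0 + 2000 ≤ ρ x (φ z) := by
    have t1 := hρt (φ x) x (φ z)
    have t2 := hφ' x z
    have t3 := hρs (φ x) x
    linarith
  have r2 : 19 * E + 20 * c0 + 2000 ≤ ρ (φ z) y := by
    have t1 := hρt (φ z) y (φ y)
    have t2 := hφ' z y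
    linarith
  have r3 : 19 * E + 20 * c0 + 2000 ≤ ρ x (ψ z) := by
    have t1 := hρt (ψ x) x (ψ z)
    have t2 := hψ' x z
    have t3 := hρs (ψ x) x
    linarith
  have r4 : 19 * E + 20 * c0 + 2000 ≤ ρ (ψ z) y := by
    have t1 := hρt (ψ z) y (ψ y)
    have t2 := hψ' z y
    linarith
  obtain ⟨-, a1, a2⟩ := Q13_half h hc0 hE hρ0 hρs hρt hρD hadd hφ hφ' h1 h2 hv4 hxv (by linarith) hvy hz46
    (by linarith) (by linarith)
  obtain ⟨b0, b1, b2⟩ := Q13_half h hc0 hE hρ0 hρs hρt hρD hadd hφ hφ' h1 h2 hv4 hxv (by linarith) hvy hψz r3 r4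
  obtain ⟨-, c1, c2⟩ := Q13_half h hc0 hE hρ0 hρs hρt hρD hadd hψ hψ' h3 h4 hv4 hxv (by linarith) hvy hz46
    (by linarith) (by linarith)
  obtain ⟨d0, d1, d2⟩ := Q13_half h hc0 hE hρ0 hρs hρt hρD hadd hψ hψ' h3 h4 hv4 hxv (by linarith) hvy hφz r1 r2
  have hn := h.near2 b0 d0
  have habs : |D x (φ (ψ z)) - D x (ψ (φ z))| ≤ 1080 := by
    rw [abs_le]
    constructor <;> linarith
  linarith

end Pool.Agent.helper50.BW
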