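import Pool.Agent.helper50.BW.DefsR
import Pool.Agent.helper50.BW.A7
import Pool.Agent.helper50.BW.F1
/-! ## BW-Q14 rigidity (uses A3, A7, F1; 100 lines)
k^d = 1: p0 (2400 ≤ ε, D z₁ z₂ ≥ dd ≥ R2 ≥ A).  k^d ≠ 1: sl k ≤ D z (k z) ≤ 2400 ≤ T, cov: k = gen c^j, j ≠ 0; m := ⌈KU/τ⌉₊:
|u_c (k^m z) - u_c z| = m |j| ell c ≥ KU, lower: 2 r_c z ≤ 2400 m + KU.  dd z₁ z₂ ≤ ec z₁ c + ec z₂ c ≤ r_c + r_c + 6KU + s < R2. -/
namespace Pool.Agent.helper50.BW
open Sum
variable {G : Type} [Group G] {D : G → G → ℝ} {C : Type} [MulAction G C] {Δ τ T : ℝ}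
  {S : CSys D C KU Δ τ T} {U : C → G ⊕ C → ℝ} {s κ₁ κu κ₀ : ℝ} {d : ℕ} {ε A T' Δs lam η : ℝ}

theorem q14_u_zpow (S : CSys D C KU Δ τ T) (c : C) (n : ℤ) (x : G) :
    S.u c (S.gen c ^ n * x) = S.u c x + n * S.ell c := by
  induction n using Int.induction_on generalizing x with
  | zero => simp
  | succ i ih =>
    rw [zpow_add_one, mul_assoc, ih, S.u_gen]
    push_cast; ring
  | pred i ih =>
    rw [zpow_sub_one, mul_assoc, ih]
    have h := S.u_gen c ((S.gen c)⁻¹ * x)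
    rw [mul_inv_cancel_left] at h
    push_cast
    linarith

theorem q14_r_zpow (S : CSys D C KU Δ τ T) (c : C) (n : ℤ) (x : G) :
    S.r c (S.gen c ^ n * x) = S.r c x := by
  have hst : (S.gen c ^ n) • c = c :=
    (S.stab (S.gen c ^ n) c).2 (Subgroup.zpow_mem _ (Subgroup.mem_zpowers _) n)
  have h := S.r_smul (S.gen c ^ n) c x
  rw [hst] at h
  exact h

theorem q14_iter (h : Hyp D) (hi : LInv D) (k z : G) (m : ℕ) : D z (k ^ m * z) ≤ m * D z (k * z) := by
  induction m with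
  | zero => simp [h.refl]
  | succ m ih =>
    have h1 := h.tri z (k ^ m * z) (k ^ (m + 1) * z)
    have h2 : D (k ^ m * z) (k ^ (m + 1) * z) = D z (k * z) := by
      rw [pow_succ, mul_assoc, hi]
    push_cast
    linarith

theorem rigid (hF : Full S U s κ₁ κu κ₀ d ε A T' Δs lam η) {k z₁ z₂ : G} (h1 : D z₁ (k * z₁) ≤ 2400)
    (h2 : D z₂ (k * z₂) ≤ 2400) (h12 : R2 s τ A ≤ dd S s z₁ z₂) : k = 1 := by
  have hyp := hF.ctx.hyp
  have hi := hF.ctx.linv
  have hτ := hF.ctx.hτ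
  have hs : 0 ≤ s := by
    have e1 := hF.ctx.hs
    have e2 : (0:ℝ) ≤ 1000 * KU := by unfold KU; norm_num
    linarith
  have hA := hF.hA
  have hKU : (0:ℝ) < KU := by unfold KU; norm_num
  have hq : 0 < KU / τ := div_pos hKU hτ
  by_cases hk : k ^ d = 1
  · refine hF.stg.p0 k z₁ z₂ hk (h1.trans hF.hε) (h2.trans hF.hε) ?_
    have e1 := dd_le hyp S hs z₁ z₂
    have e2 : A ≤ R2 s τ A := by
      unfold R2
      have : 0 ≤ 2400 * (KU / τ + 1) := by positivity
      linarith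
    linarith
  · exfalso
    have hsl : sl D k ≤ T := by
      have e1 := sl_le hyp hi k z₁ 1
      rw [pow_one] at e1
      push_cast at e1
      have e2 := hF.hT
      have e3 : (2400:ℝ) ≤ 10000 * KU := by unfold KU; norm_num
      linarith
    obtain ⟨c, hc⟩ := hF.cov k hk hsl
    obtain ⟨j, rfl⟩ := Subgroup.mem_zpowers_iff.1 hc
    have hj : j ≠ 0 := by
      rintro rfl
      exact hk (by simp)
    have hj1 : (1:ℝ) ≤ |(j:ℝ)| := by
      have : (1:ℤ) ≤ |j| := Int.one_le_abs hj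
      exact_mod_cast this
    set m : ℕ := ⌈KU / τ⌉₊ with hm
    have hm1 : KU / τ ≤ m := Nat.le_ceil _
    have hm2 : (m : ℝ) < KU / τ + 1 := Nat.ceil_lt_add_one hq.le
    have hmτ : KU ≤ m * τ := by rwa [div_le_iff₀ hτ] at hm1
    have hell := S.ell_ge c
    have key : ∀ z : G, D z (S.gen c ^ j * z) ≤ 2400 → 2 * S.r c z ≤ 2400 * (KU / τ + 1) + KU := by
      intro z hz
      have e1 := q14_iter hyp hi (S.gen c ^ j) z m
      have e2 : (S.gen c ^ j) ^ m = S.gen c ^ (j * (m:ℤ)) := by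
        rw [zpow_mul, zpow_natCast]
      rw [e2] at e1
      have e3 := q14_u_zpow S c (j * (m:ℤ)) z
      have e4 := q14_r_zpow S c (j * (m:ℤ)) z
      have e5 : |S.u c z - S.u c (S.gen c ^ (j * (m:ℤ)) * z)| = m * |(j:ℝ)| * S.ell c := by
        rw [e3]
        have e6 : S.u c z - (S.u c z + ((j * (m:ℤ) : ℤ) : ℝ) * S.ell c) = -((m : ℝ) * (j:ℝ) * S.ell c) := by
          push_cast; ring
        rw [e6, abs_neg, abs_mul, abs_mul, abs_of_nonneg (Nat.cast_nonneg m : (0:ℝ) ≤ m),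
          abs_of_nonneg (hτ.le.trans hell)]
      have e7 : KU ≤ m * |(j:ℝ)| * S.ell c := by
        have e8 : (m : ℝ) * τ ≤ m * |(j:ℝ)| * S.ell c := by
          have a1 : (m : ℝ) ≤ m * |(j:ℝ)| := by
            have : (0:ℝ) ≤ m := Nat.cast_nonneg m
            nlinarith
          have a0 : (0:ℝ) ≤ m * |(j:ℝ)| := by positivity
          exact mul_le_mul a1 hell hτ.le a0
        linarith
      have e8 := S.lower c z (S.gen c ^ (j * (m:ℤ)) * z) (by rw [e5]; exact e7)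
      rw [e4, e5] at e8
      have e9 : (m : ℝ) * D z (S.gen c ^ j * z) ≤ (KU / τ + 1) * 2400 := by
        have b0 : (0:ℝ) ≤ m := Nat.cast_nonneg m
        have b1 := hyp.nonneg z (S.gen c ^ j * z)
        have b2 : (0:ℝ) ≤ KU / τ + 1 := by linarith
        exact mul_le_mul hm2.le hz b1 b2
      linarith
    have k1 := key z₁ h1
    have k2 := key z₂ h2
    have e1 := dd_le_ec hyp S hs z₁ z₂ c
    have e2 := ec_le hyp S hs z₁ c
    have e3 := ec_le hyp S hs z₂ c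
    unfold R2 at h12
    linarith

end Pool.Agent.helper50.BW
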