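import Pool.Agent.helper50.BW.Q7
/-! ## BW-Q15 commutators, case 1: a central cone (uses Q7, F7; 250 lines)
eb x c = ec x c, eb y c = ec y c (split, lift_dist_apex), qq c x y = rs (U c x - U c y) ≥ Θ/16 (qq_of_cross, rs_ge).
For f with db x (fx), db y (fy) ≤ 2E: eb x (f•c) ≥ eb x c - 2E > 2E, so qq (f•c) x (fx) < κ₀ (qq_small), same at y; qq_inv:
qq (f•c) x y ≥ Θ/16 - 2κ₀ ≥ 3κ₀; qq_add: db x y = eb x (f•c) + eb y (f•c).  For f ∈ {g, gh}: qq (f•c) (gx) y ≥ 2κ₀, so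
db (gx) y = eb (gx) (f•c) + eb y (f•c); for f ∈ {h, hg} the same with hx.  F(f) := eb x (f•c):
F(gh) - F(g) = eb y (gc) - eb y (ghc) = eb (gx) (ghc) - eb (gx) (gc) = F(h) - F(1); F(hg) - F(h) = F(g) - F(1).  So F(gh) = F(hg).
transfer for gh•c and hg•c on (x,y): cones p' = n₁gh•c, q' = n₂hg•c with crossing ≥ κ₀ (rs ≤ |.|).  If p' ≠ q': Proj.dich, e.g.
ec x q' = ec x p' + ecc p' q' ≥ ec x p' + s (exact_add_apex), eb x p' = ec x p' (split, lift_dist_apex), eb_N: F(hg) ≥ F(gh) + s.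
So p' = q', (n₂hg)⁻¹ n₁gh ∈ zpowers (gen c) (stab); with k := (hg)⁻¹gh: k ∈ NN·gen c^j, k^d ∈ NN. -/
namespace Pool.Agent.helper50.BW
open Sum
variable {G : Type} [Group G] {D : G → G → ℝ} {C : Type} [MulAction G C] {K Δ τ T : ℝ}
  {S : CSys D C K Δ τ T} {U : C → G ⊕ C → ℝ} {s κ₁ κu κ₀ : ℝ} {d : ℕ}

/-- a crossing cone of an admissible pair: distances to the apex -/
theorem q15_apex (hC : Ctx S U s κ₁ κu κ₀ d) {x y : G} (hxy : Adm S U d (5 / 8) (inl x) (inl y)) {c : C}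
    (hc : κ₁ ≤ |U c (inl y) - U c (inl x)|) : eb S s d x c = ec S s x c :=
  lift_dist_apex hC (Adm.mono hC (by norm_num) (split hC (by norm_num) hxy hc))

/-- the conjugate cones of a central cone have big residue crossing too -/
theorem q15_big (hC : Ctx S U s κ₁ κu κ₀ d) {x y : G} {E : ℝ} {c : C} {f : G}
    (hq : 1 / 16 * (d * S.ell c) ≤ qq S U d c x y)
    (hx : 5 * E < eb S s d x c) (hy : 5 * E < eb S s d y c) (hE : 0 ≤ E)
    (h1 : db S s d x (f * x) ≤ 2 * E) (h2 : db S s d y (f * y) ≤ 2 * E) :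
    4 * κ₀ ≤ qq S U d (f • c) x y ∧ 2 * E < eb S s d x (f • c) := by
  have e1 := qq_small hC (c := f • c) (x := f * x) (y := x) (by
    rw [eb_inv hC, db_symm hC]; linarith)
  have e2 := qq_small hC (c := f • c) (x := f * y) (y := y) (by
    rw [eb_inv hC, db_symm hC]; linarith)
  have e3 := qq_inv hC f c x y
  have e4 := qq_tri hC (f • c) (f * x) x (f * y)
  have e5 := qq_tri hC (f • c) x y (f * y)
  rw [qq_symm hC (f • c) (f * y) y] at e2
  have hb := hC.ell_big c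
  have hκ := (Q1_nn hC).2.2.1
  refine ⟨by linarith, ?_⟩
  have e6 := eb_lip hC (f * x) x (f • c)
  rw [eb_inv hC, db_symm hC] at e6
  linarith

theorem q15_add (hC : Ctx S U s κ₁ κu κ₀ d) {x y x' : G} {E : ℝ} {c : C}
    (hq : 4 * κ₀ ≤ qq S U d c x y) (hx : 2 * E < eb S s d x c) (h1 : db S s d x x' ≤ 2 * E) :
    db S s d x' y = eb S s d x' c + eb S s d y c := by
  have e1 := qq_small hC (c := c) (x := x) (y := x') (by linarith)
  have e2 := qq_tri hC c x x' y
  have hκ := (Q1_nn hC).2.2.1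
  exact qq_add hC (by linarith)

theorem q15_F (hC : Ctx S U s κ₁ κu κ₀ d) {g h x y : G} {E : ℝ} (hE : 0 ≤ E) {c : C}
    (hq : 1 / 16 * (d * S.ell c) ≤ qq S U d c x y)
    (hx : 5 * E < eb S s d x c) (hy : 5 * E < eb S s d y c)
    (h1 : db S s d x (g * x) ≤ E) (h2 : db S s d y (g * y) ≤ E)
    (h3 : db S s d x (h * x) ≤ E) (h4 : db S s d y (h * y) ≤ E) :
    4 * κ₀ ≤ qq S U d ((g * h) • c) x y ∧
    eb S s d x ((g * h) • c) = eb S s d x (g • c) + eb S s d x (h • c) - eb S s d x c := by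
  have hgx : db S s d x (g * h * x) ≤ 2 * E := by
    have := db_tri hC x (g * x) (g * h * x)
    rw [mul_assoc g h x, db_inv hC] at this
    rw [mul_assoc]
    linarith
  have hgy : db S s d y (g * h * y) ≤ 2 * E := by
    have := db_tri hC y (g * y) (g * h * y)
    rw [mul_assoc g h y, db_inv hC] at this
    rw [mul_assoc]
    linarith
  obtain ⟨a1, b1⟩ := q15_big hC hq hx hy hE (f := g * h) hgx hgy
  obtain ⟨a2, b2⟩ := q15_big hC hq hx hy hE (f := g) (by linarith) (by linarith)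
  refine ⟨a1, ?_⟩
  have hκ := (Q1_nn hC).2.2.1
  have c1 := qq_add hC (c := (g * h) • c) (x := x) (y := y) (by linarith)
  have c2 := qq_add hC (c := g • c) (x := x) (y := y) (by linarith)
  have c3 := q15_add hC a1 b1 (x' := g * x) (by linarith)
  have c4 := q15_add hC a2 b2 (x' := g * x) (by linarith)
  have c5 := eb_inv hC g x c
  have c6 := eb_inv hC g x (h • c)
  rw [smul_smul] at c6
  linarith

theorem case1 (hC : Ctx S U s κ₁ κu κ₀ d) {g h x y : G} {E : ℝ} (hE : 0 ≤ E)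
    (hxy : Adm S U d (5 / 8) (inl x) (inl y)) {c : C}
    (hc : 1 / 16 * (d * S.ell c) ≤ |U c (inl y) - U c (inl x)|) (hx : 5 * E < ec S s x c)
    (hy : 5 * E < ec S s y c) (h1 : db S s d x (g * x) ≤ E) (h2 : db S s d y (g * y) ≤ E)
    (h3 : db S s d x (h * x) ≤ E) (h4 : db S s d y (h * y) ≤ E) :
    ((h * g)⁻¹ * (g * h)) ^ d ∈ NN S d := by
  obtain ⟨hK0, hs0, hκ0, hk, hk1⟩ := Q1_nn hC
  have hpos := hC.q7_pos c
  have hbig := hC.ell_big c
  have hh1 := hC.h1
  have hκ1 : κ₁ ≤ |U c (inl y) - U c (inl x)| := by linarith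
  have hsp : 0 < s := by
    have := hC.hK
    have := hC.hs
    linarith
  have ex := q15_apex hC hxy hκ1
  have ey := q15_apex hC hxy.symm (by rw [abs_sub_comm]; exact hκ1)
  rw [← ex] at hx
  rw [← ey] at hy
  have hq : 1 / 16 * (d * S.ell c) ≤ qq S U d c x y := by
    rw [qq_of_cross hC (Adm.mono hC (by norm_num) hxy) hκ1]
    refine le_trans (le_min hc ?_) (rs_ge hpos (hxy c (by simp) (by simp)))
    have : (1 / 16 : ℝ) ≤ 1 - 5 / 8 := by norm_num
    exact mul_le_mul_of_nonneg_right this hpos.le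
  obtain ⟨a1, f1⟩ := q15_F hC hE hq hx hy h1 h2 h3 h4
  obtain ⟨a2, f2⟩ := q15_F hC hE hq hx hy h3 h4 h1 h2
  have hF : eb S s d x ((g * h) • c) = eb S s d x ((h * g) • c) := by linarith
  -- transfer
  obtain ⟨m₁, hm₁, t1, u1⟩ := transfer hC (Adm.mono hC (by norm_num) hxy) (c := (g * h) • c)
    (by linarith)
  obtain ⟨m₂, hm₂, t2, u2⟩ := transfer hC (Adm.mono hC (by norm_num) hxy) (c := (h * g) • c)
    (by linarith)
  have v1 := rs_le_abs (t := U (m₁ • (g * h) • c) (inl y) - U (m₁ • (g * h) • c) (inl x))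
    (hC.q7_pos ((g * h) • c))
  have v2 := rs_le_abs (t := U (m₂ • (h * g) • c) (inl y) - U (m₂ • (h * g) • c) (inl x))
    (hC.q7_pos ((h * g) • c))
  rw [u1] at v1
  rw [u2] at v2
  have w1 := q15_apex hC hxy (c := m₁ • (g * h) • c) (by linarith)
  have w2 := q15_apex hC hxy (c := m₂ • (h * g) • c) (by linarith)
  have n1 := eb_N hC (one_mem _) hm₁ x ((g * h) • c)
  have n2 := eb_N hC (one_mem _) hm₂ x ((h * g) • c)
  rw [one_mul] at n1 n2
  have heq : m₁ • (g * h) • c = m₂ • (h * g) • c := by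
    by_contra hne
    rcases hC.proj.dich hC.h1 hne (X := inl x) (Y := inl y) (by simp) (by simp) (by simp) (by simp)
      t1 t2 with ⟨g1, -⟩ | ⟨g1, -⟩
    · rw [g1] at v1
      have y1 := exact_add_apex hC.hyp S hC.proj hC.hK hC.hΔ hC.hu hC.hs (b := m₂ • (h * g) • c)
        (c := m₁ • (g * h) • c) (Ne.symm hne) (x := x) (by linarith)
      have y2 := ecc_ge hC.hyp S hs0 (m₁ • (g * h) • c) (m₂ • (h * g) • c)
      linarith
    · rw [g1] at v2
      have y1 := exact_add_apex hC.hyp S hC.proj hC.hK hC.hΔ hC.hu hC.hs (b := m₁ • (g * h) • c)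
        (c := m₂ • (h * g) • c) hne (x := x) (by linarith)
      have y2 := ecc_ge hC.hyp S hs0 (m₂ • (h * g) • c) (m₁ • (g * h) • c)
      linarith
  have hst : ((m₂ * (h * g))⁻¹ * (m₁ * (g * h))) • c = c := by
    rw [smul_smul, smul_smul] at heq
    rw [mul_smul, heq, inv_smul_smul]
  rw [S.stab, Subgroup.mem_zpowers_iff] at hst
  obtain ⟨j, hj⟩ := hst
  have := NN_normal S d
  set π : G →* G ⧸ NN S d := QuotientGroup.mk' (NN S d) with hπ
  have hπ1 : ∀ n : G, π n = 1 ↔ n ∈ NN S d := fun n => QuotientGroup.eq_one_iff n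
  have hq1 : π ((h * g)⁻¹ * (g * h)) = π (S.gen c ^ j) := by
    have z1 := (hπ1 m₁).2 hm₁
    have z2 := (hπ1 m₂).2 hm₂
    rw [hj]
    simp only [map_mul, map_inv, z1, z2, one_mul]
  rw [← hπ1, map_pow, hq1, ← map_pow, hπ1, ← zpow_natCast, ← zpow_mul]
  exact hC.gen_mem c j

end Pool.Agent.helper50.BW
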