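import Pool.Agent.helper50.BW.Q2
import Pool.Agent.helper50.BW.Q6
import Pool.Agent.helper50.BW.Q13
import Pool.Agent.helper50.BW.Q14
/-! ## BW-Q16 commutators, case 2: no big crossings (uses Q6, Q13, Q14, F6; 250 lines)
tight_pt: n_g with Adm 5/8 (x, n_g g x), g₁ := n_g g; n_g' with Adm 5/8 (y, n_g' g y), g₂ := n_g' g; ν := g₁⁻¹ g₂ ∈ NN.
ν = 1 by lift_unique: Adm 3/4 (x, ν y), i.e. (g₁x, g₂y): |U b (g₂y) - U b (g₁x)| ≤ |U b x - U b (g₁x)| + |U b y - U b x| + |U b (g₂y) - U b y|;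
if first and third are both ≥ κ₀ then ec x b ≤ dd x (g₁x) = db x (gx) ≤ E, ec y b ≤ E (exact_add, lift_dist), dd x y ≤ 2E, no.
So ≤ 5/8 Θ + κ₀ + Θ/12 ≤ 3/4 Θ.  Same for h: h₁.  Now dd x (g₁x), dd y (g₁y), dd x (h₁x), dd y (h₁y) ≤ E.
exists_at (ρ = dd): z₁ with dd x z₁ ∈ [M, M+9], z₂ with dd z₂ y ∈ [M, M+9], M := 20E + 100s + 2000; dd z₁ y, dd x z₂ ≥ M, dd z₁ z₂ ≥ R2.
ct with ρ = dd, c0 = 5s (AL, κ = 1000 ≤ 10KU), φ = g₁·, ψ = h₁·; rigid for k := (h₁g₁)⁻¹g₁h₁ = 1. -/
namespace Pool.Agent.helper50.BW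
open Sum
variable {G : Type} [Group G] {D : G → G → ℝ} {C : Type} [MulAction G C] {Δ τ T : ℝ}
  {S : CSys D C KU Δ τ T} {U : C → G ⊕ C → ℝ} {s κ₁ κu κ₀ : ℝ} {d : ℕ} {ε A T' Δs lam η : ℝ}

/-- a large crossing of a short pair forces the apex to be close -/
theorem Q16_ec (hC : Ctx S U s κ₁ κu κ₀ d) {x y : G} {E : ℝ} (h : dd S s x y ≤ E) {b : C}
    (hb : κ₀ ≤ |U b (inl y) - U b (inl x)|) : ec S s x b ≤ E := by
  have hs := hC.hs
  have h0 := hC.h0
  have hK := hC.hK
  have hu := hC.hu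
  have h1 := hC.h1
  have hs0 : 0 ≤ s := by linarith
  have e1 := exact_add hC.hyp S hC.proj hC.hK hC.hΔ hC.hu hC.hs (c := b) (x := x) (y := y) (by linarith)
  have e2 := ec_ge hC.hyp S hs0 y b
  linarith

/-- a common tight lift for two far away points -/
theorem Q16_lift (hC : Ctx S U s κ₁ κu κ₀ d) {f x y : G} {E : ℝ}
    (hxy : Adm S U d (1 / 12) (inl x) (inl y)) (h1 : db S s d x (f * x) ≤ E)
    (h2 : db S s d y (f * y) ≤ E) (hbig : 2 * E < dd S s x y) :
    ∃ m ∈ NN S d, dd S s x (m * f * x) ≤ E ∧ dd S s y (m * f * y) ≤ E := by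
  have hs := hC.hs
  have hK := hC.hK
  have hs0 : 0 ≤ s := by linarith
  obtain ⟨n, hn, hA⟩ := tight_pt hC x (f * x)
  obtain ⟨n', hn', hA'⟩ := tight_pt hC y (f * y)
  have d1 : dd S s x (n * (f * x)) ≤ E := by
    rw [← lift_dist hC (hA.mono hC (by norm_num))]
    have := db_N hC (one_mem _) hn x (f * x)
    rw [one_mul] at this
    rw [this]
    exact h1
  have d2 : dd S s y (n' * (f * y)) ≤ E := by
    rw [← lift_dist hC (hA'.mono hC (by norm_num))]
    have := db_N hC (one_mem _) hn' y (f * y)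
    rw [one_mul] at this
    rw [this]
    exact h2
  have hadm : Adm S U d (3 / 4) (inl (n * f * x)) (inl (n' * f * y)) := by
    intro b _ _
    have hbig' := hC.ell_big b
    have h0 := hC.h0
    have hu := hC.hu
    have hΔ := hC.hΔ
    have h1' := hC.h1
    have hκ : 0 ≤ κ₀ := by linarith
    have a1 := hA b (by simp) (by simp)
    have a2 := hA' b (by simp) (by simp)
    have a3 := hxy b (by simp) (by simp)
    rw [mul_assoc, mul_assoc]
    have key : |U b (inl (n * (f * x))) - U b (inl x)| < κ₀ ∨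
        |U b (inl (n' * (f * y))) - U b (inl y)| < κ₀ := by
      by_contra hcon
      push Not at hcon
      have e1 := Q16_ec hC d1 hcon.1
      have e2 := Q16_ec hC d2 hcon.2
      have e3 := dd_le_ec hC.hyp S hs0 x y b
      linarith
    have t : |U b (inl (n' * (f * y))) - U b (inl (n * (f * x)))| ≤
        |U b (inl (n * (f * x))) - U b (inl x)| + |U b (inl y) - U b (inl x)| +
          |U b (inl (n' * (f * y))) - U b (inl y)| := by
      have b1 := abs_le.1 (le_refl |U b (inl (n * (f * x))) - U b (inl x)|)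
      have b2 := abs_le.1 (le_refl |U b (inl y) - U b (inl x)|)
      have b3 := abs_le.1 (le_refl |U b (inl (n' * (f * y))) - U b (inl y)|)
      rw [abs_le]
      constructor <;> linarith [b1.1, b1.2, b2.1, b2.2, b3.1, b3.2]
    rcases key with k | k <;> linarith
  have hadm2 : Adm S U d (3 / 4) (inl x) (inl ((n * f)⁻¹ * (n' * f) * y)) := by
    have := Adm.smul hC (n * f)⁻¹ hadm
    rw [Sum.smul_inl, Sum.smul_inl, smul_eq_mul, smul_eq_mul] at this
    have e1 : (n * f)⁻¹ * (n * f * x) = x := by group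
    have e2 : (n * f)⁻¹ * (n' * f * y) = (n * f)⁻¹ * (n' * f) * y := by group
    rwa [e1, e2] at this
  have hν : (n * f)⁻¹ * (n' * f) ∈ NN S d := by
    have e1 : (n * f)⁻¹ * (n' * f) = f⁻¹ * (n⁻¹ * n') * f⁻¹⁻¹ := by group
    rw [e1]
    exact (NN_normal S d).conj_mem _ (mul_mem (inv_mem hn) hn') _
  have h1' := lift_unique hC hν (hxy.mono hC (by norm_num)) hadm2
  have h2' : n = n' := by
    have : n * f = n' * f := by
      rw [← mul_one (n * f), ← h1']
      group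
    exact mul_right_cancel this
  refine ⟨n, hn, ?_, ?_⟩
  · rw [mul_assoc]
    exact d1
  · rw [mul_assoc, h2']
    exact d2

theorem case2 (hF : Full S U s κ₁ κu κ₀ d ε A T' Δs lam η) {g h x y : G} {E : ℝ} (hE : 0 ≤ E)
    (hxy : Adm S U d (1 / 12) (inl x) (inl y)) (h1 : db S s d x (g * x) ≤ E)
    (h2 : db S s d y (g * y) ≤ E) (h3 : db S s d x (h * x) ≤ E) (h4 : db S s d y (h * y) ≤ E)
    (hbig : 40 * E + 200 * s + 5000 + R2 s τ A ≤ dd S s x y) : (h * g)⁻¹ * (g * h) ∈ NN S d := by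
  have hC := hF.ctx
  have hyp := hC.hyp
  have hi := hC.linv
  have hs := hC.hs
  have hK := hC.hK
  have hs0 : 0 ≤ s := by linarith
  have hR : 0 ≤ R2 s τ A := by
    unfold R2
    have hA := hF.hA
    have hτ := hC.hτ
    have : 0 ≤ KU / τ := div_nonneg (by norm_num) hτ.le
    have hKU : (0 : ℝ) ≤ KU := by norm_num
    positivity
  obtain ⟨m, hm, g1, g2⟩ := Q16_lift hC hxy h1 h2 (by linarith)
  obtain ⟨m', hm', k1, k2⟩ := Q16_lift hC hxy h3 h4 (by linarith)
  have hρ0 := dd_nonneg hyp S hs0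
  have hρs := dd_symm hyp S hs0
  have hρt := dd_tri hyp S hs0
  have hρD := dd_le hyp S hs0
  have hadd : ∀ x z y, Btw D 1000 x z y → dd S s x z + dd S s z y ≤ dd S s x y + 5 * s :=
    fun x z y hz => AL hyp S hK hs (by norm_num) (by norm_num) hz
  obtain ⟨z₁, hz1, a1, a2⟩ := exists_at hyp hρt hρD hρs hρ0 (x := x) (y := y)
    (m := 20 * E + 20 * (5 * s) + 2000) (by linarith) (by linarith)
  obtain ⟨z₂, hz2, b1, b2⟩ := exists_at hyp hρt hρD hρs hρ0 (x := y) (y := x)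
    (m := 20 * E + 20 * (5 * s) + 2000) (by linarith) (by rw [hρs]; linarith)
  have hz2' : Btw D 2 x z₂ y := by
    unfold Btw at hz2 ⊢
    have s1 := hyp.symm y z₂
    have s2 := hyp.symm z₂ x
    have s3 := hyp.symm y x
    linarith
  have c1 : 20 * E + 20 * (5 * s) + 2000 ≤ dd S s z₁ y := by
    have := hρt x z₁ y
    linarith
  have c2 : 20 * E + 20 * (5 * s) + 2000 ≤ dd S s x z₂ := by
    have t1 := hρt x z₂ y
    have t2 := hρs z₂ y
    linarith
  have c3 : R2 s τ A ≤ dd S s z₁ z₂ := by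
    have t1 := hρt x z₁ y
    have t2 := hρt z₁ z₂ y
    have t3 := hρs z₂ y
    linarith
  have hct : ∀ z, Btw D 2 x z y → 20 * E + 20 * (5 * s) + 2000 ≤ dd S s x z →
      20 * E + 20 * (5 * s) + 2000 ≤ dd S s z y →
      D (m * g * (m' * h * z)) (m' * h * (m * g * z)) ≤ 2400 := by
    intro z hz e1 e2
    exact ct hyp (ρ := dd S s) (c0 := 5 * s) (E := E) (by linarith) hE hρ0 hρs hρt hρD hadd
      (φ := fun w => m * g * w) (ψ := fun w => m' * h * w) (fun a b => hi _ _ _) (fun a b => hi _ _ _)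
      (fun a b => dd_inv hyp hi S hs0 _ _ _) (fun a b => dd_inv hyp hi S hs0 _ _ _)
      g1 g2 k1 k2 hz e1 e2
  have hk : ∀ z, D (m * g * (m' * h * z)) (m' * h * (m * g * z)) ≤ 2400 →
      D z ((m' * h * (m * g))⁻¹ * (m * g * (m' * h)) * z) ≤ 2400 := by
    intro z hz
    have := hi (m' * h * (m * g)) z ((m' * h * (m * g))⁻¹ * (m * g * (m' * h)) * z)
    have e1 : m' * h * (m * g) * ((m' * h * (m * g))⁻¹ * (m * g * (m' * h)) * z) =
        m * g * (m' * h * z) := by group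
    have e2 : m' * h * (m * g) * z = m' * h * (m * g * z) := by group
    rw [e1, e2] at this
    rw [← this, hyp.symm]
    exact hz
  have hone := rigid hF (k := (m' * h * (m * g))⁻¹ * (m * g * (m' * h)))
    (hk z₁ (hct z₁ hz1 a1 c1)) (hk z₂ (hct z₂ hz2' c2 (by rw [hρs]; exact b1))) c3
  haveI := NN_normal S d
  rw [← QuotientGroup.eq_one_iff]
  have q1 : ((m : G) : G ⧸ NN S d) = 1 := (QuotientGroup.eq_one_iff m).2 hm
  have q2 : ((m' : G) : G ⧸ NN S d) = 1 := (QuotientGroup.eq_one_iff m').2 hm'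
  have hone' := congrArg (fun a : G => (a : G ⧸ NN S d)) hone
  simp only [QuotientGroup.mk_mul, QuotientGroup.mk_inv, QuotientGroup.mk_one, q1, q2, one_mul] at hone'
  simp only [QuotientGroup.mk_mul, QuotientGroup.mk_inv]
  exact hone'

end Pool.Agent.helper50.BW
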