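import Pool.Agent.helper50.BW.Q5
import Pool.Agent.helper50.BW.Q12
import Pool.Agent.helper50.BW.Q13
import Pool.Agent.helper50.BW.Q15
import Pool.Agent.helper50.BW.Q16
import Pool.Agent.helper50.BW.F8
/-! ## BW-Q17 inheritance of Q (uses Q5, Q12, Q13, Q15, Q16; 250 lines)
E := T'/lam.  tight_pt: replace y by n y: Adm 5/8 (x,y) (db y (g y) unchanged), dd x y = db x y ≥ Δs/lam.
Case 1: c with |U c y - U c x| ≥ Θ/16, 5E < ec x c, 5E < ec y c: case1: k := (hg)⁻¹gh has k^d ∈ NN.  D̄ := lam·db (Hyp by next_hyp),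
 ρ := D̄, c0 := 1000; exists_at: z₁, z₂ 2-between x,y for D̄ with D̄ x z₁, D̄ z₂ y ∈ [M, M+9], M := 20T' + 22000, D̄ z₁ z₂ ≥ A.
 ct: D̄ (ghz) (hgz) ≤ 2400 ≤ ε, so db z (k z) ≤ ε/lam for z = z₁, z₂; p0_next (hA2): k ∈ NN.
Case 2: no such c.  exists_at for D and ρ = dd: x₁ 2-between x,y with dd x x₁ ∈ [m₂, m₂+9], m₂ := 5E + 7s, y₁ with dd y₁ y ∈ [m₂, m₂+9].
 D x x₁ ≤ D x y₁ (else dd x x₁ + .. contradiction).  Adm 1/12 (x₁,y₁): if |U c y₁ - U c x₁| > Θ/12, u_mono: |U c y - U c x| ≥ Θ/16, so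
 ec x c ≤ 5E or ec y c ≤ 5E; q := point of c with |u_c q - u_c x₁| ≤ KU is 7KU-between x₁,y₁ (as in coarse_add), so x₁ is between x and
 q (κ ≤ 10KU), AL: dd x x₁ ≤ dd x q + 5s ≤ ec x c + 6 s + .. contradiction; the same for y.
 db x₁ (g x₁) ≤ E + 3/lam =: E₂: D̄ = lam db, Btw D̄ 1 x x₁ y (AL, lift_dist: db x x₁ + db x₁ y ≤ db x y + 5s), near with w = g x₁.
 case2 with E₂ (hΔ2).
Conclusion: k ∈ NN, so g h and h g agree modulo NN. -/
namespace Pool.Agent.helper50.BW
open Sum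
variable {G : Type} [Group G] {D : G → G → ℝ} {C : Type} [MulAction G C] {Δ τ T : ℝ}
  {S : CSys D C KU Δ τ T} {U : C → G ⊕ C → ℝ} {s κ₁ κu κ₀ : ℝ} {d : ℕ} {ε A T' Δs lam η : ℝ}

/-- the cone-off distance to a point in front of the entry to a cone -/
theorem q17_far (hC : Ctx S U s κ₁ κu κ₀ d) {x x₁ y₁ y : G}
    (ho : D x x₁ + D x₁ y₁ + D y₁ y ≤ D x y + 8) {b : C} (hb : KU ≤ |S.u b x₁ - S.u b y₁|) :
    dd S s x x₁ ≤ ec S s x b + 6 * s := by
  have hs : 0 ≤ s := (Q1_nn hC).2.1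
  obtain ⟨q, hq1, hq2, hq3⟩ := exists_proj S b x₁
  have h1 := S.upper b q y₁
  have h2 := S.lower b x₁ y₁ hb
  have h3 : |S.u b q - S.u b y₁| ≤ KU + |S.u b x₁ - S.u b y₁| := by
    have := abs_sub_le (S.u b q) (S.u b x₁) (S.u b y₁)
    linarith
  have h4 : D x y ≤ D x q + D q y₁ + D y₁ y := by
    have h5 := hC.hyp.tri x q y
    have h6 := hC.hyp.tri q y₁ y
    linarith
  have hbtw : Btw D (7 * KU + 8) x x₁ q := by
    unfold Btw
    linarith
  have h5 := AL hC.hyp S hC.hK hC.hs (κ := 7 * KU + 8) (by norm_num [KU]) (by norm_num [KU]) hbtw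
  have h6 := dd_nonneg hC.hyp S hs x₁ q
  have h7 := dd_le_ec hC.hyp S hs x q b
  have h8 := ec_le_of hC.hyp S hs (x := q) hq1
  rw [dd_self hC.hyp S hs] at h8
  linarith

theorem q17_T (hF : Full S U s κ₁ κu κ₀ d ε A T' Δs lam η) : 0 ≤ T' := by
  have h1 := hF.hT
  have h2 := hF.hTT
  have h3 : (0 : ℝ) ≤ KU := by norm_num [KU]
  linarith

/-- end of case 1 -/
theorem q17_one (hF : Full S U s κ₁ κu κ₀ d ε A T' Δs lam η) {g h x y : G}
    (h1 : lam * db S s d x (g * x) ≤ T') (h2 : lam * db S s d y (g * y) ≤ T')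
    (h3 : lam * db S s d x (h * x) ≤ T') (h4 : lam * db S s d y (h * y) ≤ T')
    (hxy : Δs ≤ lam * db S s d x y) (hk : ((h * g)⁻¹ * (g * h)) ^ d ∈ NN S d) :
    (h * g)⁻¹ * (g * h) ∈ NN S d := by
  have hC := hF.ctx
  have hT0 := q17_T hF
  have hlam := hF.hlam
  have hH := next_hyp hC hF.hlam hF.hlam'
  obtain ⟨Db, hDb⟩ : ∃ Db : G → G → ℝ, Db = fun x y => lam * db S s d x y := ⟨_, rfl⟩
  have hD : ∀ u v, Db u v = lam * db S s d u v := fun u v => by rw [hDb]
  rw [← hDb] at hH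
  have hnn : ∀ x y, 0 ≤ Db x y := hH.nonneg
  have key : ∀ z, Btw Db 2 x z y → 20 * T' + 22000 ≤ Db x z → 20 * T' + 22000 ≤ Db z y →
      db S s d z ((h * g)⁻¹ * (g * h) * z) ≤ ε / lam := by
    intro z hz hxz hzy
    have h5 := ct hH (ρ := Db) (c0 := 1000) (E := T') (by norm_num) hT0 hnn hH.symm hH.tri
      (fun x y => le_refl _) (fun x z y hb => hb) (φ := fun w => g * w) (ψ := fun w => h * w)
      (fun u v => by rw [hD, hD, db_inv hC]) (fun u v => by rw [hD, hD, db_inv hC])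
      (fun u v => by rw [hD, hD, db_inv hC]) (fun u v => by rw [hD, hD, db_inv hC])
      (x := x) (y := y) (z := z)
      (by rw [hD]; exact h1) (by rw [hD]; exact h2) (by rw [hD]; exact h3) (by rw [hD]; exact h4)
      hz (by linarith) (by linarith)
    have h6 := db_inv hC (h * g) z ((h * g)⁻¹ * (g * h) * z)
    have e1 : h * g * ((h * g)⁻¹ * (g * h) * z) = g * (h * z) := by group
    have e2 : h * g * z = h * (g * z) := mul_assoc _ _ _
    rw [e1, e2] at h6
    rw [← h6, db_symm hC, le_div_iff₀ hlam]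
    have h7 := hF.hε
    rw [hD] at h5
    linarith
  have hΔ := hF.hΔ1
  have hA := hF.hA
  have hA2 := hF.hA2
  have hxy' : Δs ≤ Db x y := by rw [hD]; exact hxy
  obtain ⟨z₁, hz1, hz1a, hz1b⟩ := exists_at hH (ρ := Db) hH.tri (fun _ _ => le_refl _) hH.symm hnn
    (x := x) (y := y) (m := 20 * T' + 22000) (by linarith) (by linarith)
  obtain ⟨z₂, hz2, hz2a, hz2b⟩ := exists_at hH (ρ := Db) hH.tri (fun _ _ => le_refl _) hH.symm hnn
    (x := y) (y := x) (m := 20 * T' + 22000) (by linarith) (by rw [hH.symm y x]; linarith)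
  have t1 := hH.tri x z₁ y
  have t2 := hH.tri z₁ z₂ y
  have t3 := hH.tri x z₂ y
  have t4 := hH.symm y z₂
  have hz1' := key z₁ hz1 hz1a (by linarith)
  have hz2' := key z₂ (A1_symm hH hz2) (by linarith) (by linarith)
  have hε : 0 ≤ ε / lam := div_nonneg (by have := hF.hε; linarith) hlam.le
  refine p0_next hF hk hε hz1' hz2' ?_
  have h8 : lam * (2 * RE s τ A (ε / lam)) < lam * db S s d z₁ z₂ := by
    rw [← hD]
    linarith
  exact lt_of_mul_lt_mul_left h8 hlam.le

/-- near fixed points propagate -/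
theorem q17_near (hF : Full S U s κ₁ κu κ₀ d ε A T' Δs lam η) {g x x₁ y : G}
    (hadm : Adm S U d (5 / 8) (inl x) (inl y)) (hb : Btw D 2 x x₁ y)
    (h1 : lam * db S s d x (g * x) ≤ T') (h2 : lam * db S s d y (g * y) ≤ T') :
    lam * db S s d x₁ (g * x₁) ≤ T' + 3 := by
  have hC := hF.ctx
  have hs : 0 ≤ s := (Q1_nn hC).2.1
  have hlam := hF.hlam
  have hlam' := hF.hlam'
  have hH := next_hyp hC hF.hlam hF.hlam'
  have a1 := AL hC.hyp S hC.hK hC.hs (κ := 2) (by norm_num) (by norm_num [KU]) hb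
  have a2 := lift_dist hC (hadm.mono hC (by norm_num))
  have a3 := db_le hC x x₁
  have a4 := db_le hC x₁ y
  have hbt : Btw (fun x y => lam * db S s d x y) 1 x x₁ y := by
    have h3 : lam * (db S s d x x₁ + db S s d x₁ y) ≤ lam * (db S s d x y + 5 * s) :=
      mul_le_mul_of_nonneg_left (by linarith) hlam.le
    show lam * db S s d x x₁ + lam * db S s d x₁ y ≤ lam * db S s d x y + 1
    have h4 : 0 ≤ lam * s := mul_nonneg hlam.le hs
    linarith
  have h3 := hH.near hbt (g * x₁)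
  have t1 := hH.tri (g * x₁) (g * x) x
  have t2 := hH.tri (g * x₁) (g * y) y
  have t3 := hH.symm (g * x) x
  have t4 := hH.symm (g * y) y
  have t5 := hH.symm (g * x₁) x₁
  have t6 := hH.symm x₁ x
  simp only [db_inv hC] at h3 t1 t2 t3 t4 t5 t6
  have h4 : max (lam * db S s d (g * x₁) x - lam * db S s d x x₁)
      (lam * db S s d (g * x₁) y - lam * db S s d x₁ y) ≤ T' := by
    apply max_le <;> linarith
  linarith

theorem q17_main (hF : Full S U s κ₁ κu κ₀ d ε A T' Δs lam η) {g h x y : G}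
    (hadm : Adm S U d (5 / 8) (inl x) (inl y))
    (h1 : lam * db S s d x (g * x) ≤ T') (h2 : lam * db S s d y (g * y) ≤ T')
    (h3 : lam * db S s d x (h * x) ≤ T') (h4 : lam * db S s d y (h * y) ≤ T')
    (hxy : Δs ≤ lam * db S s d x y) : (h * g)⁻¹ * (g * h) ∈ NN S d := by
  have hC := hF.ctx
  have hs : 0 ≤ s := (Q1_nn hC).2.1
  have hs1 := hC.hs
  have hKU : (KU : ℝ) = 1000 := rfl
  have hT0 := q17_T hF
  have hlam := hF.hlam
  have hlam' := hF.hlam'
  obtain ⟨q, hq⟩ : ∃ q, lam * q = 1 := ⟨lam⁻¹, mul_inv_cancel₀ hlam.ne'⟩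
  have hqs : 10 * s ≤ q := by
    refine le_of_mul_le_mul_left ?_ hlam
    linarith
  obtain ⟨E, hE⟩ : ∃ E, lam * E = T' := ⟨T' * q, by rw [mul_left_comm, hq, mul_one]⟩
  have hE0 : 0 ≤ E := by
    by_contra hcon
    have := mul_neg_of_pos_of_neg hlam (not_le.1 hcon)
    linarith
  have hle : ∀ {t : ℝ}, lam * t ≤ T' → t ≤ E := fun {t} ht =>
    le_of_mul_le_mul_left (by rw [hE]; exact ht) hlam
  by_cases hcase : ∃ c, 1 / 16 * (d * S.ell c) ≤ |U c (inl y) - U c (inl x)| ∧ 5 * E < ec S s x c ∧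
      5 * E < ec S s y c
  · obtain ⟨c, hc1, hc2, hc3⟩ := hcase
    exact q17_one hF h1 h2 h3 h4 hxy
      (case1 hC hE0 hadm hc1 hc2 hc3 (hle h1) (hle h2) (hle h3) (hle h4))
  · have hcase' : ∀ c, 1 / 16 * (d * S.ell c) ≤ |U c (inl y) - U c (inl x)| →
        ec S s x c ≤ 5 * E ∨ ec S s y c ≤ 5 * E := by
      intro c hc
      by_contra hcon
      push Not at hcon
      exact hcase ⟨c, hc, hcon.1, hcon.2⟩
    have hlift := lift_dist hC (hadm.mono hC (by norm_num))
    have hR2 : 50 * E + 1000 * q + R2 s τ A ≤ dd S s x y := by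
      rw [← hlift]
      refine le_of_mul_le_mul_left ?_ hlam
      have := hF.hΔ2
      have e : lam * (50 * E + 1000 * q + R2 s τ A) =
        50 * (lam * E) + 1000 * (lam * q) + lam * R2 s τ A := by ring
      rw [e, hE, hq]
      linarith
    have hR20 : 0 ≤ R2 s τ A := by
      unfold R2
      have h5 := hF.hA
      have h6 : 0 ≤ (KU : ℝ) / τ := div_nonneg (by norm_num [KU]) hC.hτ.le
      have h7 : (0 : ℝ) ≤ KU := by norm_num [KU]
      linarith
    have hddt := dd_tri hC.hyp S hs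
    have hdds := dd_symm hC.hyp S hs
    have hddn := dd_nonneg hC.hyp S hs
    obtain ⟨x₁, hx1, hx1a, hx1b⟩ := exists_at hC.hyp (ρ := dd S s) hddt (dd_le hC.hyp S hs) hdds hddn
      (x := x) (y := y) (m := 5 * E + 7 * s) (by linarith) (by linarith)
    obtain ⟨y₁, hy1, hy1a, hy1b⟩ := exists_at hC.hyp (ρ := dd S s) hddt (dd_le hC.hyp S hs) hdds hddn
      (x := y) (y := x) (m := 5 * E + 7 * s) (by linarith) (by rw [hdds y x]; linarith)
    have hy1' := A1_symm hC.hyp hy1
    have hDs := hC.hyp.symm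
    have hnear := hC.hyp.near2 hx1 hy1'
    have hord : D x x₁ ≤ D x y₁ := by
      by_contra hcon
      push Not at hcon
      rw [abs_of_pos (by linarith), hDs x₁ y₁] at hnear
      have hb : Btw D 6 x y₁ x₁ := by
        unfold Btw
        linarith
      have a1 := AL hC.hyp S hC.hK hC.hs (κ := 6) (by norm_num) (by norm_num [KU]) hb
      have a2 := hddt x y₁ y
      have a3 := hddn y₁ x₁
      have a4 := hdds y₁ y
      linarith
    rw [abs_of_nonpos (by linarith)] at hnear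
    have ho : D x x₁ + D x₁ y₁ + D y₁ y ≤ D x y + 8 := by
      have := hy1'
      unfold Btw at this
      linarith
    have ho' : D y y₁ + D y₁ x₁ + D x₁ x ≤ D y x + 8 := by
      rw [hDs y y₁, hDs y₁ x₁, hDs x₁ x, hDs y x]
      linarith
    have hadm2 : Adm S U d (1 / 12) (inl x₁) (inl y₁) := by
      intro b _ _
      by_contra hcon
      push Not at hcon
      have b1 := hC.ell_big b
      have b2 := hC.h0
      have b3 := hC.hu
      have b4 := hC.hΔ
      have b5 := hC.h1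
      have c1 := abs_le.1 (hC.proj.close b x₁)
      have c2 := abs_le.1 (hC.proj.close b y₁)
      have c3 := abs_le.1 (hC.proj.close b x)
      have c4 := abs_le.1 (hC.proj.close b y)
      have d1 := u_mono hC.hyp S (κ := 8) (c := b) (by norm_num [KU]) (by norm_num) ho
      have d2 : |U b (inl y₁) - U b (inl x₁)| ≤ |S.u b x₁ - S.u b y₁| + 2 * κu := by
        rw [abs_sub_comm (S.u b x₁)]
        apply abs_le.2
        constructor
        · have := neg_abs_le (S.u b y₁ - S.u b x₁)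
          linarith [c1.1, c1.2, c2.1, c2.2]
        · have := le_abs_self (S.u b y₁ - S.u b x₁)
          linarith [c1.1, c1.2, c2.1, c2.2]
      have d3 : |S.u b x - S.u b y| ≤ |U b (inl y) - U b (inl x)| + 2 * κu := by
        rw [abs_sub_comm (S.u b x)]
        apply abs_le.2
        constructor
        · have := neg_abs_le (U b (inl y) - U b (inl x))
          linarith [c3.1, c3.2, c4.1, c4.2]
        · have := le_abs_self (U b (inl y) - U b (inl x))
          linarith [c3.1, c3.2, c4.1, c4.2]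
      have hbig : KU ≤ |S.u b x₁ - S.u b y₁| := by linarith
      rcases hcase' b (by linarith) with hh | hh
      · have := q17_far hC ho hbig
        linarith
      · have := q17_far hC ho' (b := b) (by rw [abs_sub_comm]; exact hbig)
        linarith
    have e3 : lam * (E + 3 * q) = T' + 3 := by rw [mul_add, hE, mul_left_comm, hq, mul_one]
    have hle2 : ∀ {t : ℝ}, lam * t ≤ T' + 3 → t ≤ E + 3 * q := fun {t} ht =>
      le_of_mul_le_mul_left (by rw [e3]; exact ht) hlam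
    refine case2 hF (E := E + 3 * q) (by linarith) hadm2 (hle2 (q17_near hF hadm hx1 h1 h2))
      (hle2 (q17_near hF hadm hy1' h1 h2)) (hle2 (q17_near hF hadm hx1 h3 h4))
      (hle2 (q17_near hF hadm hy1' h3 h4)) ?_
    have a1 := hddt x x₁ y
    have a2 := hddt x₁ y₁ y
    have a3 := hdds y₁ y
    linarith

theorem q_next (hF : Full S U s κ₁ κu κ₀ d ε A T' Δs lam η) {g h x y : G}
    (h1 : lam * db S s d x (g * x) ≤ T') (h2 : lam * db S s d y (g * y) ≤ T')
    (h3 : lam * db S s d x (h * x) ≤ T') (h4 : lam * db S s d y (h * y) ≤ T')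
    (hxy : Δs ≤ lam * db S s d x y) : (h * g)⁻¹ * (g * h) ∈ NN S d := by
  have hC := hF.ctx
  obtain ⟨n, hn, hadm⟩ := tight_pt hC x y
  have hshift : ∀ f : G, db S s d (n * y) (f * (n * y)) = db S s d y (f * y) := by
    intro f
    have h5 : f * n * f⁻¹ ∈ NN S d := (NN_normal S d).conj_mem n hn f
    have h6 := db_N hC hn h5 y (f * y)
    have e : f * n * f⁻¹ * (f * y) = f * (n * y) := by group
    rw [e] at h6
    exact h6
  have h6 := db_N hC (Subgroup.one_mem _) hn x y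
  rw [one_mul] at h6
  exact q17_main hF hadm h1 (by rw [hshift]; exact h2) h3 (by rw [hshift]; exact h4)
    (by rw [h6]; exact hxy)

end Pool.Agent.helper50.BW
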