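import Mathlib
/-! ## BW-Q3 the cutting lemma for four reals (Mathlib only)
w : Fin 4 → ℝ, spread > 13/16 (Θ = 1 after scaling).  Sort: w1 ≤ w2 ≤ w3 ≤ w4, gaps a, b, e ≥ 0, σ = a+b+e.
f(g) := |g - 1| - g = max (1 - 2g) (-1), decreasing.  Cuts: F1 = f a + f(a+b) + f σ (upper set {2,3,4}),
F2 = f(a+b) + f σ + f b + f(b+e) ({3,4}), F3 = f e + f(b+e) + f σ ({4}).
If a ≥ e: if σ < 1 then F1 = 3 - 2(3a+2b+e) ≤ 3 - 4σ ≤ -1/4; if σ ≥ 1 then F1 ≤ -1 (cases a ≥ 1; a < 1:
a + b ≥ σ - a so f a + f(a+b) ≤ 0).  If a < 1/100 (so e ≤ a) then b ≥ 13/16 - 2/100 and F2 ≤ 4 f(b) ≤ -1.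
Symmetric for e ≥ a.  So some cut with gap ≥ 1/100 has sum ≤ -1/4.
In Lean: either sort with a permutation (Tuple.sort), or choose A = upper set by cases. -/
namespace Pool.Agent.helper50.BW

/-- `|g - Θ| - g` -/
private lemma abs_eq_max (g Θ : ℝ) : |g - Θ| - g = max (Θ - 2 * g) (-Θ) := by
  rcases le_total g Θ with h | h
  · rw [abs_of_nonpos (by linarith), max_eq_left (by linarith)]; ring
  · rw [abs_of_nonneg (by linarith), max_eq_right (by linarith)]; ring

private lemma three {a b e Θ : ℝ} (hΘ : 0 < Θ) (ha : 0 ≤ a) (hb : 0 ≤ b) (he : 0 ≤ e) (hae : e ≤ a)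
    (hs : 13 / 16 * Θ < a + b + e) :
    (|a - Θ| - a) + (|a + b - Θ| - (a + b)) + (|a + b + e - Θ| - (a + b + e)) ≤ -(Θ / 4) := by
  rw [abs_eq_max, abs_eq_max, abs_eq_max]
  rcases le_total (a + b + e) Θ with h | h
  · rw [max_eq_left (by linarith), max_eq_left (by linarith), max_eq_left (by linarith)]
    linarith
  · rw [max_eq_right (a := Θ - 2 * (a + b + e)) (by linarith)]
    rcases le_total a Θ with h1 | h1
    · rw [max_eq_left (a := Θ - 2 * a) (by linarith)]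
      rcases le_total (a + b) Θ with h2 | h2
      · rw [max_eq_left (by linarith)]; linarith
      · rw [max_eq_right (by linarith)]; linarith
    · rw [max_eq_right (by linarith), max_eq_right (by linarith)]; linarith

private lemma four {a b e Θ : ℝ} (hΘ : 0 < Θ) (ha : 0 ≤ a) (he : 0 ≤ e)
    (ha1 : a < Θ / 100) (he1 : e < Θ / 100) (hs : 13 / 16 * Θ < a + b + e) :
    (|a + b - Θ| - (a + b)) + (|a + b + e - Θ| - (a + b + e)) + ((|b - Θ| - b) +
      (|b + e - Θ| - (b + e))) ≤ -(Θ / 4) := by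
  have key : ∀ g : ℝ, 79 / 100 * Θ ≤ g → |g - Θ| - g ≤ -(Θ / 4) := by
    intro g hg
    rw [abs_eq_max]
    exact max_le (by linarith) (by linarith)
  have h1 := key (a + b) (by linarith)
  have h2 := key (a + b + e) (by linarith)
  have h3 := key b (by linarith)
  have h4 := key (b + e) (by linarith)
  linarith

private lemma cut4_mono (v : Fin 4 → ℝ) (hv : Monotone v) (Θ : ℝ) (hΘ : 0 < Θ)
    (h : 13 / 16 * Θ < v 3 - v 0) :
    ∃ A : Finset (Fin 4), (∀ i ∉ A, ∀ j ∈ A, Θ / 100 ≤ v j - v i) ∧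
      ∑ i ∈ Aᶜ, ∑ j ∈ A, (|v j - v i - Θ| - (v j - v i)) ≤ -(Θ / 4) := by
  have h01 : v 0 ≤ v 1 := hv (by decide)
  have h12 : v 1 ≤ v 2 := hv (by decide)
  have h23 : v 2 ≤ v 3 := hv (by decide)
  have c1 : ({1, 2, 3} : Finset (Fin 4))ᶜ = {0} := by decide
  have c2 : ({2, 3} : Finset (Fin 4))ᶜ = {0, 1} := by decide
  have c3 : ({3} : Finset (Fin 4))ᶜ = {0, 1, 2} := by decide
  have m1 : ∀ i : Fin 4, i ∉ ({1, 2, 3} : Finset (Fin 4)) → i = 0 := by decide
  have m2 : ∀ i : Fin 4, i ∉ ({2, 3} : Finset (Fin 4)) → i = 0 ∨ i = 1 := by decide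
  have m3 : ∀ i : Fin 4, i ∉ ({3} : Finset (Fin 4)) → i = 0 ∨ i = 1 ∨ i = 2 := by decide
  have n1 : ∀ i : Fin 4, i ∈ ({1, 2, 3} : Finset (Fin 4)) → i = 1 ∨ i = 2 ∨ i = 3 := by decide
  have n2 : ∀ i : Fin 4, i ∈ ({2, 3} : Finset (Fin 4)) → i = 2 ∨ i = 3 := by decide
  have n3 : ∀ i : Fin 4, i ∈ ({3} : Finset (Fin 4)) → i = 3 := by decide
  by_cases hA : Θ / 100 ≤ v 1 - v 0 ∧ v 3 - v 2 ≤ v 1 - v 0
  · refine ⟨{1, 2, 3}, ?_, ?_⟩
    · intro i hi j hj
      obtain rfl := m1 i hi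
      rcases n1 j hj with rfl | rfl | rfl <;> linarith [hA.1]
    · have := three (a := v 1 - v 0) (b := v 2 - v 1) (e := v 3 - v 2) hΘ (by linarith)
        (by linarith) (by linarith) hA.2 (by linarith)
      rw [show v 1 - v 0 + (v 2 - v 1) = v 2 - v 0 by ring,
        show v 2 - v 0 + (v 3 - v 2) = v 3 - v 0 by ring] at this
      rw [c1, Finset.sum_singleton, Finset.sum_insert (by decide), Finset.sum_insert (by decide),
        Finset.sum_singleton]
      linarith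
  by_cases hB : Θ / 100 ≤ v 3 - v 2 ∧ v 1 - v 0 ≤ v 3 - v 2
  · refine ⟨{3}, ?_, ?_⟩
    · intro i hi j hj
      obtain rfl := n3 j hj
      rcases m3 i hi with rfl | rfl | rfl <;> linarith [hB.1]
    · have := three (a := v 3 - v 2) (b := v 2 - v 1) (e := v 1 - v 0) hΘ (by linarith)
        (by linarith) (by linarith) hB.2 (by linarith)
      rw [show v 3 - v 2 + (v 2 - v 1) = v 3 - v 1 by ring,
        show v 3 - v 1 + (v 1 - v 0) = v 3 - v 0 by ring] at this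
      rw [c3, Finset.sum_insert (by decide), Finset.sum_insert (by decide),
        Finset.sum_singleton, Finset.sum_singleton, Finset.sum_singleton, Finset.sum_singleton]
      linarith
  -- both gaps are small
  have hsmall : v 1 - v 0 < Θ / 100 ∧ v 3 - v 2 < Θ / 100 := by
    rcases le_total (v 3 - v 2) (v 1 - v 0) with h1 | h1
    · have h2 : ¬ Θ / 100 ≤ v 1 - v 0 := fun h3 => hA ⟨h3, h1⟩
      push Not at h2
      exact ⟨h2, by linarith⟩
    · have h2 : ¬ Θ / 100 ≤ v 3 - v 2 := fun h3 => hB ⟨h3, h1⟩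
      push Not at h2
      exact ⟨by linarith, h2⟩
  refine ⟨{2, 3}, ?_, ?_⟩
  · intro i hi j hj
    rcases m2 i hi with rfl | rfl <;> rcases n2 j hj with rfl | rfl <;>
      linarith [hsmall.1, hsmall.2]
  · have := four (a := v 1 - v 0) (b := v 2 - v 1) (e := v 3 - v 2) hΘ (by linarith)
      (by linarith) hsmall.1 hsmall.2 (by linarith)
    rw [show v 1 - v 0 + (v 2 - v 1) = v 2 - v 0 by ring,
      show v 2 - v 0 + (v 3 - v 2) = v 3 - v 0 by ring,
      show v 2 - v 1 + (v 3 - v 2) = v 3 - v 1 by ring] at this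
    rw [c2, Finset.sum_insert (by decide), Finset.sum_singleton, Finset.sum_insert (by decide),
      Finset.sum_singleton, Finset.sum_insert (by decide), Finset.sum_singleton]
    linarith

theorem cut4 (w : Fin 4 → ℝ) (Θ : ℝ) (hΘ : 0 < Θ) (i j : Fin 4) (hij : 13 / 16 * Θ < w j - w i) :
    ∃ A : Finset (Fin 4), (∀ i ∉ A, ∀ j ∈ A, Θ / 100 ≤ w j - w i) ∧
      ∑ i ∈ Aᶜ, ∑ j ∈ A, (|w j - w i - Θ| - (w j - w i)) ≤ -(Θ / 4) := by
  have hv := Tuple.monotone_sort w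
  set σ := Tuple.sort w with hσ
  have h1 : w j ≤ (w ∘ σ) 3 := by
    have : w j = (w ∘ σ) (σ.symm j) := by simp
    rw [this]
    exact hv (Fin.le_last _)
  have h2 : (w ∘ σ) 0 ≤ w i := by
    have : w i = (w ∘ σ) (σ.symm i) := by simp
    rw [this]
    exact hv (Fin.zero_le _)
  obtain ⟨B, hB1, hB2⟩ := cut4_mono (w ∘ σ) hv Θ hΘ (by linarith)
  have hcompl : (B.map σ.toEmbedding)ᶜ = Bᶜ.map σ.toEmbedding := by
    ext x
    simp only [Finset.mem_compl, Finset.mem_map_equiv]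
  refine ⟨B.map σ.toEmbedding, ?_, ?_⟩
  · intro i hi j hj
    rw [Finset.mem_map_equiv] at hi hj
    have := hB1 _ hi _ hj
    simpa using this
  · rw [hcompl, Finset.sum_map]
    refine le_trans (le_of_eq ?_) hB2
    refine Finset.sum_congr rfl fun x _ => ?_
    rw [Finset.sum_map]
    rfl

end Pool.Agent.helper50.BW
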