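import Pool.Agent.helper50.BW.Q1
import Pool.Agent.helper50.BW.Q3
import Pool.Agent.helper50.BW.F5
/-! ## BW-Q4 tight lifts of four points, hyperbolicity of db (uses Q1, Q3; 200 lines)
Minimise ∑_{i,j} D (n_i x_i) (n_j x_j) over n : Fin 4 → NN up to 1 (sum over ordered pairs; ≥ 0).
If |U b (n_i x_i) - U b (n_j x_j)| > 13/16 Θ for some b, i, j: cut4 with w k := U b (n_k x_k) gives A; replace n_k
by gen b^{-d} n_k for k ∈ A.  D inside A and inside the complement unchanged (LInv).  For i ∉ A, j ∈ A: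
lower (w j - w i ≥ Θ/100, so |Δu_b| ≥ K) and upper: D decreases by -(|w_j-w_i-Θ| - (w_j-w_i)) - 4κu - 2K.
Total (each pair twice) decrease ≥ Θ/2 - 8(4κu+2K) > 1.
db_four: take the four lifts; all six pairs are Adm 7/8, so db = dd (lift_dist, db_N), dd_four. -/
namespace Pool.Agent.helper50.BW
open Sum
variable {G : Type} [Group G] {D : G → G → ℝ} {C : Type} [MulAction G C] {K Δ τ T : ℝ}
  {S : CSys D C K Δ τ T} {U : C → G ⊕ C → ℝ} {s κ₁ κu κ₀ : ℝ} {d : ℕ}

/-- a nonnegative function on a nonempty set has an almost minimum -/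
theorem Q4_min {α : Type} (P : α → Prop) (F : α → ℝ) (h0 : ∀ a, 0 ≤ F a) (a₀ : α) (ha₀ : P a₀) :
    ∃ a, P a ∧ ∀ a', P a' → F a ≤ F a' + 1 := by
  have hne : {t | ∃ a, P a ∧ t = F a}.Nonempty := ⟨F a₀, a₀, ha₀, rfl⟩
  have hbd : BddBelow {t | ∃ a, P a ∧ t = F a} := ⟨0, by rintro t ⟨a, _, rfl⟩; exact h0 a⟩
  obtain ⟨t, ⟨a, ha, rfl⟩, ht⟩ := Real.lt_sInf_add_pos hne (show (0 : ℝ) < 1 by norm_num)
  refine ⟨a, ha, fun a' ha' => ?_⟩
  have := csInf_le hbd ⟨a', ha', rfl⟩
  linarith

/-- the cost of moving one end of a pair by `gen b ^ (-d)` -/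
theorem Q4_pair (hC : Ctx S U s κ₁ κu κ₀ d) (b : C) (x y : G)
    (hxy : d * S.ell b / 100 ≤ U b (inl y) - U b (inl x)) :
    D x (S.gen b ^ (-(d : ℤ)) * y) ≤ D x y + (|U b (inl y) - U b (inl x) - d * S.ell b| -
      (U b (inl y) - U b (inl x))) + (4 * κu + 2 * K) := by
  have hbig := hC.ell_big b
  have h0 := hC.h0
  have hs := hC.hs
  have hK := hC.hK
  have hΔ := hC.hΔ
  have hu := hC.hu
  have h1 := hC.h1
  have cx := abs_le.1 (hC.proj.close b x)
  have cy := abs_le.1 (hC.proj.close b y)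
  have hlow : K ≤ |S.u b x - S.u b y| := by
    rw [abs_sub_comm]
    refine le_trans ?_ (le_abs_self _)
    linarith
  have hl := S.lower b x y hlow
  have hup := S.upper b x (S.gen b ^ (-(d : ℤ)) * y)
  rw [S.r_gen_zpow, S.u_gen_zpow] at hup
  have e1 : S.u b y - S.u b x ≤ |S.u b x - S.u b y| := by
    rw [abs_sub_comm]
    exact le_abs_self _
  have e2 : |S.u b x - (S.u b y + ((-(d : ℤ) : ℤ) : ℝ) * S.ell b)| ≤
      |U b (inl y) - U b (inl x) - d * S.ell b| + 2 * κu := by
    have h3 := neg_abs_le (U b (inl y) - U b (inl x) - d * S.ell b)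
    have h4 := le_abs_self (U b (inl y) - U b (inl x) - d * S.ell b)
    have h5 : (((-(d : ℤ) : ℤ)) : ℝ) = -(d : ℝ) := by push_cast; ring
    rw [h5, abs_le]
    constructor <;> nlinarith
  linarith

theorem tight4 (hC : Ctx S U s κ₁ κu κ₀ d) (x : Fin 4 → G) :
    ∃ n : Fin 4 → G, (∀ i, n i ∈ NN S d) ∧
      ∀ i j, Adm S U d (13 / 16) (inl (n i * x i)) (inl (n j * x j)) := by
  obtain ⟨n, hn, hmin⟩ := Q4_min (fun n : Fin 4 → G => ∀ i, n i ∈ NN S d)
    (fun n => ∑ i, ∑ j, D (n i * x i) (n j * x j))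
    (fun n => Finset.sum_nonneg fun i _ => Finset.sum_nonneg fun j _ => hC.hyp.nonneg _ _)
    (fun _ => 1) (fun _ => one_mem _)
  refine ⟨n, hn, ?_⟩
  -- the key claim
  have key : ∀ (b : C) (i j : Fin 4),
      U b (inl (n j * x j)) - U b (inl (n i * x i)) ≤ 13 / 16 * (d * S.ell b) := by
    intro b i j
    by_contra hcon
    push Not at hcon
    have hbig := hC.ell_big b
    have h0 := hC.h0
    have hs := hC.hs
    have hK := hC.hK
    have hΔ := hC.hΔ
    have hu := hC.hu
    have h1 := hC.h1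
    have hΘ : 0 < d * S.ell b := by linarith
    obtain ⟨A, hA1, hA2⟩ := cut4 (fun k => U b (inl (n k * x k))) (d * S.ell b) hΘ i j hcon
    set w : Fin 4 → ℝ := fun k => U b (inl (n k * x k)) with hw
    set g : G := S.gen b ^ (-(d : ℤ)) with hg
    have hgN : g ∈ NN S d := by
      have := hC.gen_mem b (-1)
      rwa [show (-1 : ℤ) * d = -(d : ℤ) by ring] at this
    set m : Fin 4 → G := fun k => if k ∈ A then g * n k else n k with hm
    have hmN : ∀ k, m k ∈ NN S d := by
      intro k
      simp only [hm]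
      split_ifs
      · exact mul_mem hgN (hn k)
      · exact hn k
    set c : ℝ := 4 * κu + 2 * K with hc
    have hc0 : 0 ≤ c := by rw [hc]; linarith
    let E : Fin 4 → Fin 4 → ℝ := fun i j => (|w j - w i - d * S.ell b| - (w j - w i)) + c
    have hpt : ∀ i j, D (m i * x i) (m j * x j) ≤ D (n i * x i) (n j * x j) +
        ((if i ∈ A then 0 else if j ∈ A then E i j else 0) +
          (if j ∈ A then 0 else if i ∈ A then E j i else 0)) := by
      intro i j
      by_cases hi : i ∈ A <;> by_cases hj : j ∈ A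
      · simp only [hm, hi, hj, if_true, add_zero]
        rw [mul_assoc, mul_assoc, hC.linv]
      · simp only [hm, hi, hj, if_true, if_false, zero_add]
        rw [hC.hyp.symm, hC.hyp.symm (n i * x i), mul_assoc]
        have := Q4_pair hC b (n j * x j) (n i * x i) (hA1 j hj i hi)
        simp only [E, hw]
        linarith
      · simp only [hm, hi, hj, if_true, if_false, add_zero]
        rw [mul_assoc]
        have := Q4_pair hC b (n i * x i) (n j * x j) (hA1 i hi j hj)
        simp only [E, hw]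
        linarith
      · simp only [hm, hi, hj, if_false, add_zero]
        exact le_refl _
    have hsum : ∑ i, ∑ j, D (m i * x i) (m j * x j) ≤ ∑ i, ∑ j, (D (n i * x i) (n j * x j) +
        ((if i ∈ A then 0 else if j ∈ A then E i j else 0) +
          (if j ∈ A then 0 else if i ∈ A then E j i else 0))) :=
      Finset.sum_le_sum fun i _ => Finset.sum_le_sum fun j _ => hpt i j
    have hE : ∑ i, ∑ j, (if i ∈ A then 0 else if j ∈ A then E i j else 0) =
        ∑ i ∈ Aᶜ, ∑ j ∈ A, E i j := by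
      rw [← Finset.sum_add_sum_compl A, Finset.sum_eq_zero (s := A), zero_add]
      · refine Finset.sum_congr rfl fun i hi => ?_
        rw [Finset.mem_compl] at hi
        simp only [hi, if_false]
        rw [Finset.sum_ite_mem, Finset.univ_inter]
      · intro i hi
        simp [hi]
    have hE2 : ∑ i, ∑ j, (if j ∈ A then 0 else if i ∈ A then E j i else 0) =
        ∑ i ∈ Aᶜ, ∑ j ∈ A, E i j := by
      rw [Finset.sum_comm]
      exact hE
    have hE3 : ∑ i ∈ Aᶜ, ∑ j ∈ A, E i j ≤ -(d * S.ell b / 4) + 16 * c := by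
      have : ∑ i ∈ Aᶜ, ∑ j ∈ A, E i j =
          ∑ i ∈ Aᶜ, ∑ j ∈ A, (|w j - w i - d * S.ell b| - (w j - w i)) + (Aᶜ.card * A.card : ℝ) * c := by
        simp only [E, Finset.sum_add_distrib, Finset.sum_const, nsmul_eq_mul]
        ring
      rw [this]
      have h4 : (Aᶜ.card : ℝ) ≤ 4 := by
        have := Finset.card_le_univ Aᶜ
        simp only [Fintype.card_fin] at this
        exact_mod_cast this
      have h5 : (A.card : ℝ) ≤ 4 := by
        have := Finset.card_le_univ A
        simp only [Fintype.card_fin] at this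
        exact_mod_cast this
      have h6 : (Aᶜ.card * A.card : ℝ) ≤ 16 := by
        have := mul_le_mul h4 h5 (Nat.cast_nonneg _) (by norm_num)
        linarith
      have h7 := mul_le_mul_of_nonneg_right h6 hc0
      linarith
    have hmin' := hmin m hmN
    simp only [Finset.sum_add_distrib] at hsum
    rw [hE, hE2] at hsum
    rw [hc] at hE3
    linarith
  intro i j b _ _
  rw [abs_le]
  constructor
  · have := key b j i
    linarith
  · exact key b i j

theorem db_four (hC : Ctx S U s κ₁ κu κ₀ d) (x y z w : G) :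
    db S s d x y + db S s d z w ≤ max (db S s d x z + db S s d y w) (db S s d x w + db S s d y z) + 20 * s := by
  obtain ⟨n, hn, hA⟩ := tight4 hC ![x, y, z, w]
  have hl : ∀ i j, db S s d (![x, y, z, w] i) (![x, y, z, w] j) =
      dd S s (n i * ![x, y, z, w] i) (n j * ![x, y, z, w] j) := by
    intro i j
    rw [← db_N hC (hn i) (hn j)]
    exact lift_dist hC ((hA i j).mono hC (by norm_num))
  have e01 := hl 0 1
  have e23 := hl 2 3
  have e02 := hl 0 2
  have e13 := hl 1 3
  have e03 := hl 0 3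
  have e12 := hl 1 2
  simp only [Matrix.cons_val] at e01 e23 e02 e13 e03 e12
  rw [e01, e23, e02, e13, e03, e12]
  exact dd_four hC.hyp S hC.hK hC.hs _ _ _ _

end Pool.Agent.helper50.BW
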