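import Pool.Agent.helper50.BW.Q1
/-! ## BW-Q8 many cones (uses F7, Q1; 150 lines)
First: c ∉ F cones with |U b (inl y) - U b (inr c)| ≥ κ₀ for b ∈ F: s/2 + |F| s ≤ ec y c.  Induction on |F|: b ∈ F with
ecc c b minimal.  exact_add_apex: ec y c = ec y b + ecc b c ≥ ec y b + s.  For b' ∈ F, b' ≠ b: Proj.dich (a := b', c := b,
X = inr c, Y = inl y): either U b' y = U b' b, then |U b' b - U b' c| ≥ κ₀, exact_add_apex2: ecc c b = ecc c b' + ecc b' b
> ecc c b', contradiction; or U b' c = U b' b, so |U b' y - U b' b| ≥ κ₀: induction hypothesis for b, F \ {b}.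
Second: x, y: c ∈ F with ec x c minimal, the same argument with exact_add, exact_add_apex. -/
namespace Pool.Agent.helper50.BW
open Sum
variable {G : Type} [Group G] {D : G → G → ℝ} {C : Type} [MulAction G C] {K Δ τ T : ℝ}
  {S : CSys D C K Δ τ T} {U : C → G ⊕ C → ℝ} {s κ₁ κu κ₀ : ℝ} {d : ℕ}

theorem Q8_spos (hC : Ctx S U s κ₁ κu κ₀ d) : 0 < s := by
  have := hC.hK
  have := hC.hs
  linarith

theorem Q8_apex_aux (hC : Ctx S U s κ₁ κu κ₀ d) {y : G} (n : ℕ) : ∀ (F : Finset C) (c : C), F.card = n →
    c ∉ F → (∀ b ∈ F, κ₀ ≤ |U b (inl y) - U b (inr c)|) → s / 2 + (n : ℝ) * s ≤ ec S s y c := by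
  classical
  obtain ⟨hK0, hs0, -, hk, hk1⟩ := Q1_nn hC
  have hsp := Q8_spos hC
  have hu := hC.hu
  have h0 := hC.h0
  have h1' := hC.h1
  induction n with
  | zero =>
    intro F c _ _ _
    have := ec_ge hC.hyp S hs0 y c
    simp only [Nat.cast_zero, zero_mul, add_zero]
    exact this
  | succ n ih =>
    intro F c hcard hc hF
    have hne : F.Nonempty := by
      rw [← Finset.card_pos, hcard]; omega
    obtain ⟨b, hb, hmin⟩ := Finset.exists_min_image F (fun b => ecc S s c b) hne
    have hcb : c ≠ b := fun h => hc (by rw [h]; exact hb)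
    have h1 := exact_add_apex hC.hyp S hC.proj hC.hK hC.hΔ hC.hu hC.hs (b := c) (c := b) hcb (x := y)
      (by have := hF b hb; rw [abs_sub_comm] at this; linarith)
    have h2 := ecc_ge hC.hyp S hs0 b c
    have h3 : s / 2 + (n : ℝ) * s ≤ ec S s y b := by
      apply ih (F.erase b) b
      · rw [Finset.card_erase_of_mem hb, hcard]; rfl
      · exact Finset.notMem_erase b F
      · intro b' hb'
        have hb'F : b' ∈ F := Finset.mem_of_mem_erase hb'
        have hb'b : b' ≠ b := Finset.ne_of_mem_erase hb'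
        have hcb' : c ≠ b' := fun h => hc (by rw [h]; exact hb'F)
        have e1 := hF b' hb'F
        have e2 := hF b hb
        rcases hC.proj.dich hC.h1 hb'b (X := inr c) (Y := inl y)
          (by intro h; exact hcb' (Sum.inr_injective h)) (by intro h; exact hcb (Sum.inr_injective h))
          (by simp) (by simp) (by linarith) (by linarith) with ⟨f1, -⟩ | ⟨-, f2⟩
        · exfalso
          rw [f1] at e1
          have g1 := exact_add_apex2 hC.hyp S hC.proj hC.hK hC.hΔ hC.hu hC.hs (a := c) (b := b) (c := b')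
            hcb' (Ne.symm hb'b) (by linarith)
          have g2 := ecc_ge hC.hyp S hs0 b' b
          have g3 := hmin b' hb'F
          linarith
        · rw [← f2]; exact e1
    push_cast
    linarith

theorem many_cones_apex (hC : Ctx S U s κ₁ κu κ₀ d) (F : Finset C) {c : C} (hc : c ∉ F) {y : G}
    (hF : ∀ b ∈ F, κ₀ ≤ |U b (inl y) - U b (inr c)|) : s / 2 + F.card * s ≤ ec S s y c :=
  Q8_apex_aux hC F.card F c rfl hc hF

theorem many_cones (hC : Ctx S U s κ₁ κu κ₀ d) (F : Finset C) {x y : G}
    (hF : ∀ b ∈ F, κ₀ ≤ |U b (inl y) - U b (inl x)|) : F.card * s ≤ dd S s x y := by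
  classical
  obtain ⟨hK0, hs0, -, hk, hk1⟩ := Q1_nn hC
  have hsp := Q8_spos hC
  have hu := hC.hu
  have h0 := hC.h0
  have h1' := hC.h1
  rcases F.eq_empty_or_nonempty with rfl | hne
  · simpa using dd_nonneg hC.hyp S hs0 x y
  · obtain ⟨c, hcF, hmin⟩ := Finset.exists_min_image F (fun b => ec S s x b) hne
    have h1 := exact_add hC.hyp S hC.proj hC.hK hC.hΔ hC.hu hC.hs (c := c) (x := x) (y := y)
      (by have := hF c hcF; linarith)
    have h2 := ec_ge hC.hyp S hs0 x c
    have h3 := many_cones_apex hC (F.erase c) (c := c) (Finset.notMem_erase c F) (y := y) (by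
      intro b hb
      have hbF : b ∈ F := Finset.mem_of_mem_erase hb
      have hbc : b ≠ c := Finset.ne_of_mem_erase hb
      have e1 := hF b hbF
      have e2 := hF c hcF
      rcases hC.proj.dich hC.h1 hbc (X := inl x) (Y := inl y) (by simp) (by simp) (by simp) (by simp)
        (by linarith) (by linarith) with ⟨f1, -⟩ | ⟨-, f2⟩
      · exfalso
        rw [f1] at e1
        have g1 := exact_add_apex hC.hyp S hC.proj hC.hK hC.hΔ hC.hu hC.hs (b := c) (c := b)
          (Ne.symm hbc) (x := x) (by linarith)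
        have g2 := ecc_ge hC.hyp S hs0 b c
        have g3 := hmin b hbF
        linarith
      · rw [← f2]; exact e1)
    have h4 : ((F.erase c).card : ℝ) = F.card - 1 := by
      rw [Finset.card_erase_of_mem hcF]
      have : 1 ≤ F.card := Finset.card_pos.2 hne
      push_cast [this]
      ring
    rw [h4] at h3
    rw [h1]
    linarith

end Pool.Agent.helper50.BW
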