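import Pool.Agent.helper50.BW.S1
import Pool.Agent.helper50.BW.A1
/-! ## BW-S2 Behrstock inequality (uses S1)
θ := 3Δ + 10K.  Point X = inl x: p with r_b p ≤ K, |u_b p - u_b x| ≤ K; q with r_c q ≤ K, |u_c q - u_c x| ≤ K
(dense).  upper: D x p ≤ r_b x + 3K, D x q ≤ r_c x + 3K.  Suppose |uo c X - uo c b| > θ and
|uo b X - uo b c| > θ.  Then |u_c x - u_c p| ≥ θ - Δ ≥ K, lower for c: D x p ≥ r_c x + r_c p + |u_c x - u_c p| - K,
upper for c: D p q ≤ r_c p + K + |u_c p - u_c x| + K + K, so D x p ≥ D x q + D p q - 7K; symmetrically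
D x q ≥ D x p + D p q - 7K.  Hence D p q ≤ 7K, |u_c x - u_c p| ≤ K + 7K, contradiction.
Cone X = inr a: choose x with r_a x ≤ K (dense for a); uo_close changes both numbers by ≤ Δ. -/
namespace Pool.Agent.helper50.BW
open Sum
variable {G : Type} [Group G] {D : G → G → ℝ} {C : Type} [MulAction G C] {K Δ τ T : ℝ}

/-- one half of the argument -/
theorem behrstock_half (h : Hyp D) (S : CSys D C K Δ τ T) {c : C} {x p q : G}
    (hq : S.r c q ≤ K) (hqx : |S.u c q - S.u c x| ≤ K) (hK : K ≤ |S.u c x - S.u c p|) :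
    D x q + D p q - 7 * K ≤ D x p := by
  have h1 := S.lower c x p hK
  have h2 := S.upper c p q
  have h3 := S.upper c x q
  have h4 : |S.u c p - S.u c q| ≤ |S.u c x - S.u c p| + K := by
    have := abs_sub_le (S.u c p) (S.u c x) (S.u c q)
    rw [abs_sub_comm (S.u c p) (S.u c x), abs_sub_comm (S.u c x) (S.u c q)] at this
    linarith
  have h5 : |S.u c x - S.u c q| ≤ K := by
    rw [abs_sub_comm]
    exact hqx
  linarith

theorem behrstock_aux (h : Hyp D) (S : CSys D C K Δ τ T) (hK : 1 ≤ K) (hΔ : 0 ≤ Δ) {b c : C}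
    (hbc : b ≠ c) (x : G) (h1 : 2 * Δ + 10 * K < |S.u c x - uo S c (inr b)|)
    (h2 : 2 * Δ + 10 * K < |S.u b x - uo S b (inr c)|) : False := by
  obtain ⟨p, hp, hpx⟩ := S.dense b (S.u b x)
  obtain ⟨q, hq, hqx⟩ := S.dense c (S.u c x)
  have e1 := uo_close S hbc hp
  have e2 := uo_close S (Ne.symm hbc) hq
  have g1 : Δ + 10 * K ≤ |S.u c x - S.u c p| := by
    have := abs_sub_le (S.u c x) (S.u c p) (uo S c (inr b))
    rw [abs_sub_comm (S.u c p)] at this
    linarith
  have g2 : Δ + 10 * K ≤ |S.u b x - S.u b q| := by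
    have := abs_sub_le (S.u b x) (S.u b q) (uo S b (inr c))
    rw [abs_sub_comm (S.u b q)] at this
    linarith
  have k1 := behrstock_half h S (p := p) hq hqx (by linarith)
  have k2 := behrstock_half h S (p := q) hp hpx (by linarith)
  rw [h.symm q p] at k2
  have hD : D p q ≤ 7 * K := by linarith
  have l1 := S.u_lip c p q
  have l2 := abs_sub_le (S.u c x) (S.u c q) (S.u c p)
  rw [abs_sub_comm (S.u c x) (S.u c q), abs_sub_comm (S.u c q) (S.u c p)] at l2
  linarith

theorem behrstock (h : Hyp D) (S : CSys D C K Δ τ T) (hK : 1 ≤ K) (hΔ : 0 ≤ Δ) {b c : C} (hbc : b ≠ c)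
    {X : G ⊕ C} (hb : X ≠ inr b) (hc : X ≠ inr c)
    (hX : 3 * Δ + 10 * K < |uo S c X - uo S c (inr b)|) :
    |uo S b X - uo S b (inr c)| ≤ 3 * Δ + 10 * K := by
  by_contra hcon
  rw [not_le] at hcon
  rcases X with x | a
  · refine behrstock_aux h S hK hΔ hbc x ?_ ?_
    · have h1 : uo S c (inl x) = S.u c x := rfl
      rw [h1] at hX
      linarith
    · have h1 : uo S b (inl x) = S.u b x := rfl
      rw [h1] at hcon
      linarith
  · obtain ⟨x, hx, -⟩ := S.dense a 0
    have hac : a ≠ c := fun h => hc (by rw [h])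
    have hab : a ≠ b := fun h => hb (by rw [h])
    have e1 := uo_close S hac hx
    have e2 := uo_close S hab hx
    refine behrstock_aux h S hK hΔ hbc x ?_ ?_
    · have := abs_sub_le (uo S c (inr a)) (S.u c x) (uo S c (inr b))
      linarith
    · have := abs_sub_le (uo S b (inr a)) (S.u b x) (uo S b (inr c))
      linarith

end Pool.Agent.helper50.BW
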