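import Pool.Agent.helper50.BW.S1
import Pool.Agent.helper50.BW.A1
/-! ## BW-S6 dichotomy and height estimates (uses S1, A1)
Notation: x point, y = gen c^{-e d} x, Θ = d ell c.  κ₂ ≥ 0.
dich: |T_a(o,x)|, |T_c(o,x)| ≥ 2κ₁, a ≠ c.  T_a(o,c)+T_a(c,x) = T_a(o,x), so one of them is ≥ κ₁ in absolute
value.  If |U a o - U a c| ≥ κ₁ then exact: U c o = U c a, so |U c x - U c a| ≥ 2κ₁, exact: U a x = U a c.
Otherwise symmetric (o and x exchanged).
hf: e(U c x - U c o) =: t ≥ Θ - κ₂.  lower for D o x (|u_c x - u_c o| ≥ t - 2κu ≥ K), upper for D o y,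
r_c y = r_c x, |t - Θ| ≤ t - Θ + 2κ₂.
de1 (a before c), de2 (c before a): x with p := e(U a x - U a o) ≤ -(Θ_a - κ₂), t := e'(U c x - U c o) ≥ Θ_c - κ₂.
de1: U a x = U a c, U c o = U c a; y = gen c^{-e' d} x, g = gen a^{e d}: D o (g y) ≤ D o x - 2Θ* + ...:
 q with r_c q ≤ K, |u_c q - U c a| ≤ K (dense).  u_a q = U a c ± κu (closeC).
 D o q ≤ r_c o + 3K + κu; D q x ≤ K + r_c x + |u_c x - u_c q| + K, |u_c x - u_c q| ≤ t + κu + K;
 D o x ≥ r_c o + r_c x + t - 2κu - K; so D o x ≥ D o q + D q x - 7K - 4κu.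
 D o q ≥ r_a o + r_a q + |p| - 2κu - K; D o (gq) ≤ r_a o + r_a q + |p+Θ_a| + 2κu + K, |p+Θ_a| ≤ |p| - Θ_a + 2κ₂:
 D o (gq) ≤ D o q - Θ_a + 2κ₂ + 4κu + 2K.   D q y ≤ D q x - Θ_c + 2κ₂ + 2κu + 5K (positions on c).
 D o (gy) ≤ D o (gq) + D q y ≤ D o x - Θ_a - Θ_c + 4κ₂ + 10κu + 14K.
de2: U c x = U c a, U a o = U a c; z = gen c^{-e' d} (gen a^{e d} x): q with r_a q ≤ K, |u_a q - U a c| ≤ K; the
 same estimates with the roles exchanged: D o x ≥ D o q + D q x - 7K - 4κu,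
 D o (gen c^{-e'd} q) ≤ D o q - Θ_c + 2κ₂ + 4κu + 2K, D q (gen a^{ed} x) ≤ D q x - Θ_a + 2κ₂ + 2κu + 5K,
 D o z ≤ D o (gen c^{-e'd} q) + D q (gen a^{ed}x).
(rot gives U a (g x) etc.; the constants have room, adjust only upwards to 20κu + 30K.) -/
namespace Pool.Agent.helper50.BW
open Sum
variable {G : Type} [Group G] {D : G → G → ℝ} {C : Type} [MulAction G C] {K Δ τ T : ℝ}
  {S : CSys D C K Δ τ T} {κ₁ κu : ℝ} {U : C → G ⊕ C → ℝ}

theorem Proj.dich (hP : Proj S κ₁ κu U) (hκ : 0 ≤ κ₁) {a c : C} (hac : a ≠ c) {X Y : G ⊕ C}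
    (hXa : X ≠ inr a) (hXc : X ≠ inr c) (hYa : Y ≠ inr a) (hYc : Y ≠ inr c)
    (h1 : 2 * κ₁ ≤ |U a Y - U a X|) (h2 : 2 * κ₁ ≤ |U c Y - U c X|) :
    (U a Y = U a (inr c) ∧ U c X = U c (inr a)) ∨ (U c Y = U c (inr a) ∧ U a X = U a (inr c)) := by
  by_cases h : κ₁ ≤ |U a X - U a (inr c)|
  · left
    have e1 : U c X = U c (inr a) := hP.exact a c X hac hXa hXc h
    refine ⟨?_, e1⟩
    apply hP.exact c a Y hac.symm hYc hYa
    rw [← e1]
    linarith
  · right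
    push Not at h
    have e0 : κ₁ ≤ |U a Y - U a (inr c)| := by
      have h3 : |U a Y - U a X| ≤ |U a Y - U a (inr c)| + |U a X - U a (inr c)| := by
        have := abs_sub_le (U a Y) (U a (inr c)) (U a X)
        rwa [abs_sub_comm (U a (inr c)) (U a X)] at this
      linarith
    have e1 : U c Y = U c (inr a) := hP.exact a c Y hac hYa hYc e0
    refine ⟨e1, ?_⟩
    apply hP.exact c a X hac.symm hXc hXa
    rw [← e1, abs_sub_comm]
    linarith

theorem S6_sign {e : ℤ} (he : e = 1 ∨ e = -1) (a b : ℝ) : |(e : ℝ) * a - b| = |a - e * b| := by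
  rcases he with rfl | rfl
  · simp
  · push_cast
    rw [← abs_neg]
    congr 1
    ring

theorem S6_abs {e : ℤ} (he : e = 1 ∨ e = -1) (a : ℝ) : |(e : ℝ) * a| = |a| := by
  rcases he with rfl | rfl
  · simp
  · push_cast
    rw [← abs_neg]
    congr 1
    ring

/-- position of the translated point -/
theorem S6_pos (S : CSys D C K Δ τ T) (c : C) {e : ℤ} (he : e = 1 ∨ e = -1) (d : ℕ) (x : G) (v : ℝ) :
    |S.u c (S.gen c ^ (-(e * d)) * x) - v| = |e * (S.u c x - v) - d * S.ell c| := by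
  rw [S.u_gen_zpow]
  rcases he with rfl | rfl
  · congr 1
    push_cast
    ring
  · rw [← abs_neg]
    congr 1
    push_cast
    ring

/-- the elementary inequality for `t ≥ Θ - κ₂` -/
theorem S6_shift {t Θ κ₂ : ℝ} (h2 : 0 ≤ κ₂) (ht : Θ - κ₂ ≤ t) : |t - Θ| ≤ t - Θ + 2 * κ₂ := by
  rw [abs_le]
  constructor <;> linarith

theorem Proj.hf (h : Hyp D) (hP : Proj S κ₁ κu U) (hK : 0 ≤ K) (hu : 0 ≤ κu) {κ₂ : ℝ} (h2 : 0 ≤ κ₂) {d : ℕ}
    {c : C} {e : ℤ} (he : e = 1 ∨ e = -1) {o x : G} (hbig : κ₂ + 2 * κu + K ≤ d * S.ell c)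
    (ht : d * S.ell c - κ₂ ≤ e * (U c (inl x) - U c (inl o))) :
    D o (S.gen c ^ (-(e * d)) * x) ≤ D o x - (d * S.ell c - 2 * κ₂ - 4 * κu - 2 * K) := by
  have cx := abs_le.1 (hP.close c x)
  have co := abs_le.1 (hP.close c o)
  set t : ℝ := e * (U c (inl x) - U c (inl o)) with htdef
  set w : ℝ := e * (S.u c x - S.u c o) with hw
  have hwt : |w - t| ≤ 2 * κu := by
    have : w - t = e * ((S.u c x - S.u c o) - (U c (inl x) - U c (inl o))) := by
      rw [hw, htdef]; ring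
    rw [this, S6_abs he, abs_le]
    constructor <;> linarith
  obtain ⟨w1, w2⟩ := abs_le.1 hwt
  have habs : |S.u c x - S.u c o| = |w| := by rw [hw, S6_abs he]
  have hwabs : w ≤ |w| := le_abs_self w
  have hlow := S.lower c o x (by
    rw [abs_sub_comm, habs]
    linarith)
  rw [abs_sub_comm, habs] at hlow
  have hup := S.upper c o (S.gen c ^ (-(e * d)) * x)
  rw [S.r_gen_zpow, abs_sub_comm, S6_pos S c he d x (S.u c o), ← hw] at hup
  have hsh := S6_shift h2 ht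
  have h3 : |w - d * S.ell c| ≤ |t - d * S.ell c| + |w - t| := by
    have := abs_sub_le w t (d * S.ell c)
    linarith
  linarith

/-- the general form of `de1`, `de2`: the cone `f` is first (near `o`), the cone `s` is second -/
theorem S6_two (hi : LInv D) (h : Hyp D) (hP : Proj S κ₁ κu U) (hK : 0 ≤ K) (hu : 0 ≤ κu) {κ₂ : ℝ}
    (h2 : 0 ≤ κ₂) {d : ℕ} {f s : C} (hfs : f ≠ s) {e₁ e₂ : ℤ} (he₁ : e₁ = 1 ∨ e₁ = -1)
    (he₂ : e₂ = 1 ∨ e₂ = -1) {o x : G} (hbf : κ₂ + 4 * κu + 4 * K ≤ d * S.ell f)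
    (hbs : κ₂ + 4 * κu + 4 * K ≤ d * S.ell s)
    (hp : d * S.ell f - κ₂ ≤ e₁ * (U f (inl x) - U f (inl o)))
    (ht : d * S.ell s - κ₂ ≤ e₂ * (U s (inl x) - U s (inl o)))
    (h3 : U f (inl x) = U f (inr s)) (h4 : U s (inl o) = U s (inr f)) :
    D o (S.gen f ^ (-(e₁ * d)) * (S.gen s ^ (-(e₂ * d)) * x)) ≤
      D o x - d * S.ell f - d * S.ell s + 4 * κ₂ + 10 * κu + 14 * K := by
  obtain ⟨q, hq1, hq2⟩ := S.dense s (U s (inr f))
  have hq0 := S.r_nonneg s q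
  have hq3 := abs_le.1 (hP.closeC f s q hfs.symm hq1)
  have hq2' := abs_le.1 hq2
  have sx := abs_le.1 (hP.close s x)
  have so := abs_le.1 (hP.close s o)
  have fx := abs_le.1 (hP.close f x)
  have fo := abs_le.1 (hP.close f o)
  set t : ℝ := e₂ * (U s (inl x) - U s (inl o)) with htdef
  set p : ℝ := e₁ * (U f (inl x) - U f (inl o)) with hpdef
  have ht0 : 0 ≤ t := by linarith
  -- (i)
  have i1 : |S.u s o - S.u s q| ≤ κu + K := by
    rw [abs_le]; constructor <;> linarith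
  have i2 := S.upper s o q
  -- (ii), positions on s
  set w : ℝ := e₂ * (S.u s x - S.u s q) with hw
  have hwt : |w - t| ≤ κu + K := by
    have e1 : w - t = e₂ * ((S.u s x - S.u s q) - (U s (inl x) - U s (inl o))) := by
      rw [hw, htdef]; ring
    rw [e1, S6_abs he₂, abs_le]
    constructor <;> linarith
  obtain ⟨w1, w2⟩ := abs_le.1 hwt
  have habs : |S.u s x - S.u s q| = |w| := by rw [hw, S6_abs he₂]
  have hwpos : 0 ≤ w := by linarith
  have hwabs : |w| = w := abs_of_nonneg hwpos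
  have ii2 := S.upper s q x
  rw [abs_sub_comm, habs, hwabs] at ii2
  -- (iii)
  set w' : ℝ := e₂ * (S.u s x - S.u s o) with hw'
  have hwt' : |w' - t| ≤ 2 * κu := by
    have e1 : w' - t = e₂ * ((S.u s x - S.u s o) - (U s (inl x) - U s (inl o))) := by
      rw [hw', htdef]; ring
    rw [e1, S6_abs he₂, abs_le]
    constructor <;> linarith
  obtain ⟨w1', w2'⟩ := abs_le.1 hwt'
  have habs' : |S.u s x - S.u s o| = |w'| := by rw [hw', S6_abs he₂]
  have hwabs' : w' ≤ |w'| := le_abs_self w'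
  have iii := S.lower s o x (by
    rw [abs_sub_comm, habs']
    linarith)
  rw [abs_sub_comm, habs'] at iii
  -- (iv), positions on f
  set v : ℝ := e₁ * (S.u f q - S.u f o) with hv
  have hvp : |v - p| ≤ 2 * κu := by
    have e1 : v - p = e₁ * ((S.u f q - S.u f o) - (U f (inl x) - U f (inl o))) := by
      rw [hv, hpdef]; ring
    rw [e1, S6_abs he₁, h3, abs_le]
    constructor <;> linarith
  obtain ⟨v1, v2⟩ := abs_le.1 hvp
  have habsv : |S.u f q - S.u f o| = |v| := by rw [hv, S6_abs he₁]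
  have hvabs : v ≤ |v| := le_abs_self v
  have iv := S.lower f o q (by
    rw [abs_sub_comm, habsv]
    linarith)
  rw [abs_sub_comm, habsv] at iv
  -- (v)
  have v3 := S.upper f o (S.gen f ^ (-(e₁ * d)) * q)
  rw [S.r_gen_zpow, abs_sub_comm, S6_pos S f he₁ d q (S.u f o), ← hv] at v3
  have hshf := S6_shift h2 hp
  have v4 : |v - d * S.ell f| ≤ |p - d * S.ell f| + |v - p| := by
    have := abs_sub_le v p (d * S.ell f)
    linarith
  -- (vi)
  have vi := S.upper s q (S.gen s ^ (-(e₂ * d)) * x)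
  rw [S.r_gen_zpow, abs_sub_comm, S6_pos S s he₂ d x (S.u s q), ← hw] at vi
  have hshs := S6_shift h2 ht
  have vi2 : |w - d * S.ell s| ≤ |t - d * S.ell s| + |w - t| := by
    have := abs_sub_le w t (d * S.ell s)
    linarith
  have vi3 := S.lower s q x (by
    rw [abs_sub_comm, habs, hwabs]
    linarith)
  rw [abs_sub_comm, habs, hwabs] at vi3
  -- (vii)
  have vii := h.tri o (S.gen f ^ (-(e₁ * d)) * q) (S.gen f ^ (-(e₁ * d)) * (S.gen s ^ (-(e₂ * d)) * x))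
  rw [hi] at vii
  linarith

theorem Proj.de1 (h : Hyp D) (hi : LInv D) (hP : Proj S κ₁ κu U) (hK : 0 ≤ K) (hu : 0 ≤ κu) {κ₂ : ℝ}
    (h2 : 0 ≤ κ₂) {d : ℕ} {a c : C} (hac : a ≠ c) {e e' : ℤ} (he : e = 1 ∨ e = -1) (he' : e' = 1 ∨ e' = -1)
    {o x : G} (hba : κ₂ + 4 * κu + 4 * K ≤ d * S.ell a) (hbc : κ₂ + 4 * κu + 4 * K ≤ d * S.ell c)
    (hp : e * (U a (inl x) - U a (inl o)) ≤ -(d * S.ell a - κ₂))
    (ht : d * S.ell c - κ₂ ≤ e' * (U c (inl x) - U c (inl o)))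
    (h3 : U a (inl x) = U a (inr c)) (h4 : U c (inl o) = U c (inr a)) :
    D o (S.gen a ^ (e * d) * (S.gen c ^ (-(e' * d)) * x)) ≤
      D o x - d * S.ell a - d * S.ell c + 4 * κ₂ + 20 * κu + 30 * K := by
  have he1 : -e = 1 ∨ -e = -1 := by
    rcases he with rfl | rfl <;> simp
  have hp' : d * S.ell a - κ₂ ≤ ((-e : ℤ) : ℝ) * (U a (inl x) - U a (inl o)) := by
    push_cast
    linarith
  have key := S6_two hi h hP hK hu h2 hac he1 he' hba hbc hp' ht h3 h4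
  have e1 : -(-e * (d : ℤ)) = e * d := by ring
  rw [e1] at key
  linarith

theorem Proj.de2 (h : Hyp D) (hi : LInv D) (hP : Proj S κ₁ κu U) (hK : 0 ≤ K) (hu : 0 ≤ κu) {κ₂ : ℝ}
    (h2 : 0 ≤ κ₂) {d : ℕ} {a c : C} (hac : a ≠ c) {e e' : ℤ} (he : e = 1 ∨ e = -1) (he' : e' = 1 ∨ e' = -1)
    {o x : G} (hba : κ₂ + 4 * κu + 4 * K ≤ d * S.ell a) (hbc : κ₂ + 4 * κu + 4 * K ≤ d * S.ell c)
    (hp : e * (U a (inl x) - U a (inl o)) ≤ -(d * S.ell a - κ₂))
    (ht : d * S.ell c - κ₂ ≤ e' * (U c (inl x) - U c (inl o)))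
    (h3 : U c (inl x) = U c (inr a)) (h4 : U a (inl o) = U a (inr c)) :
    D o (S.gen c ^ (-(e' * d)) * (S.gen a ^ (e * d) * x)) ≤
      D o x - d * S.ell a - d * S.ell c + 4 * κ₂ + 20 * κu + 30 * K := by
  have he1 : -e = 1 ∨ -e = -1 := by
    rcases he with rfl | rfl <;> simp
  have hp' : d * S.ell a - κ₂ ≤ ((-e : ℤ) : ℝ) * (U a (inl x) - U a (inl o)) := by
    push_cast
    linarith
  have key := S6_two hi h hP hK hu h2 hac.symm he' he1 hbc hba ht hp' h3 h4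
  have e1 : -(-e * (d : ℤ)) = e * d := by ring
  rw [e1] at key
  linarith

end Pool.Agent.helper50.BW
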