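import Pool.Agent.helper50.BW.DefsT
import Pool.Agent.helper50.BW.A1
/-! ## BW-T2 the free group with its word metric (Mathlib: FreeGroup.norm, toWord, IsReduced; 250 lines)
four-point condition with error 0.  c(x,y) := length of the longest common initial part of toWord x, toWord y.
norm (x⁻¹ y) = |x| + |y| - 2 c(x,y) (cancel the common part; the rest is reduced), c(x,z) ≥ min (c(x,y), c(y,z)).
So the four-point condition holds if one of the points is 1; general case by left invariance.
fD_pt: z := x * mk ((toWord (x⁻¹y)).take k).  fD_hyp: from these (rough: k = ⌊t⌋₊). -/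
namespace Pool.Agent.helper50.BW
open Sum

/-- length of the longest common initial part -/
def T2_c : List (ℕ × Bool) → List (ℕ × Bool) → ℕ
  | a :: l, b :: m => if a = b then T2_c l m + 1 else 0
  | [], _ => 0
  | _ :: _, [] => 0

theorem T2_c_nil_left (m : List (ℕ × Bool)) : T2_c [] m = 0 := by
  cases m <;> rfl

theorem T2_c_nil_right (l : List (ℕ × Bool)) : T2_c l [] = 0 := by
  cases l <;> rfl

theorem T2_c_cons (a b : ℕ × Bool) (l m : List (ℕ × Bool)) :
    T2_c (a :: l) (b :: m) = if a = b then T2_c l m + 1 else 0 := rfl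

theorem T2_c_comm (l : List (ℕ × Bool)) : ∀ m, T2_c l m = T2_c m l := by
  induction l with
  | nil =>
    intro m
    rw [T2_c_nil_left, T2_c_nil_right]
  | cons a l ih =>
    intro m
    cases m with
    | nil => rw [T2_c_nil_left, T2_c_nil_right]
    | cons b m =>
      rw [T2_c_cons, T2_c_cons, ih m]
      by_cases h : a = b
      · rw [if_pos h, if_pos h.symm]
      · rw [if_neg h, if_neg (fun h' => h h'.symm)]

theorem T2_c_le_left (l : List (ℕ × Bool)) : ∀ m, T2_c l m ≤ l.length := by
  induction l with
  | nil =>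
    intro m
    rw [T2_c_nil_left]
    exact Nat.zero_le _
  | cons a l ih =>
    intro m
    cases m with
    | nil =>
      rw [T2_c_nil_right]
      exact Nat.zero_le _
    | cons b m =>
      rw [T2_c_cons]
      split_ifs
      · have := ih m
        simp only [List.length_cons]
        omega
      · exact Nat.zero_le _

theorem T2_c_le_right (l m : List (ℕ × Bool)) : T2_c l m ≤ m.length := by
  rw [T2_c_comm]
  exact T2_c_le_left m l

theorem T2_c_ultra (l : List (ℕ × Bool)) : ∀ m k, min (T2_c l m) (T2_c m k) ≤ T2_c l k := by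
  induction l with
  | nil =>
    intro m k
    rw [T2_c_nil_left m]
    omega
  | cons a l ih =>
    intro m k
    cases m with
    | nil =>
      rw [T2_c_nil_right]
      omega
    | cons b m =>
      cases k with
      | nil =>
        rw [T2_c_nil_right (b :: m)]
        omega
      | cons c k =>
        rw [T2_c_cons, T2_c_cons, T2_c_cons]
        by_cases h1 : a = b
        · by_cases h2 : b = c
          · rw [if_pos h1, if_pos h2, if_pos (h1.trans h2)]
            have := ih m k
            omega
          · rw [if_neg h2]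
            omega
        · rw [if_neg h1]
          omega

theorem T2_invRev_red {l : List (ℕ × Bool)} (h : FreeGroup.IsReduced l) :
    FreeGroup.IsReduced (FreeGroup.invRev l) := by
  rw [FreeGroup.isReduced_iff_reduce_eq] at h ⊢
  rw [FreeGroup.reduce_invRev, h]

theorem T2_tail {a : ℕ × Bool} {l : List (ℕ × Bool)} (h : FreeGroup.IsReduced (a :: l)) :
    FreeGroup.IsReduced l :=
  List.IsChain.tail h

theorem T2_len (l : List (ℕ × Bool)) : ∀ m, FreeGroup.IsReduced l → FreeGroup.IsReduced m →
    (FreeGroup.reduce (FreeGroup.invRev l ++ m)).length + 2 * T2_c l m = l.length + m.length := by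
  induction l with
  | nil =>
    intro m _ hm
    rw [T2_c_nil_left, FreeGroup.invRev_empty, List.nil_append, hm.reduce_eq]
    simp
  | cons a l ih =>
    intro m hl hm
    cases m with
    | nil =>
      rw [T2_c_nil_right, List.append_nil, (T2_invRev_red hl).reduce_eq, FreeGroup.invRev_length]
      simp
    | cons b m =>
      have e1 : FreeGroup.invRev (a :: l) = FreeGroup.invRev l ++ [(a.1, !a.2)] := by
        rw [FreeGroup.invRev_cons]
        rfl
      by_cases hab : a = b
      · subst hab
        rw [T2_c_cons, if_pos rfl]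
        have h1 : FreeGroup.reduce (FreeGroup.invRev (a :: l) ++ a :: m) =
            FreeGroup.reduce (FreeGroup.invRev l ++ m) := by
          apply FreeGroup.reduce.Step.eq
          rw [e1, List.append_assoc]
          obtain ⟨x, b⟩ := a
          exact FreeGroup.Red.Step.not_rev
        rw [h1]
        have := ih m (T2_tail hl) (T2_tail hm)
        simp only [List.length_cons]
        omega
      · rw [T2_c_cons, if_neg hab]
        have h1 : FreeGroup.IsReduced (FreeGroup.invRev (a :: l) ++ b :: m) := by
          rw [e1, List.append_assoc]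
          unfold FreeGroup.IsReduced
          refine List.isChain_append_cons_cons.2 ⟨?_, ?_, hm⟩
          · rw [← e1]
            exact T2_invRev_red hl
          · intro h2
            obtain ⟨x, p⟩ := a
            obtain ⟨y, q⟩ := b
            simp only at h2 ⊢
            subst h2
            cases p <;> cases q <;> simp_all
        rw [h1.reduce_eq, List.length_append, FreeGroup.invRev_length]
        omega

theorem T2_norm (x y : FreeGroup ℕ) :
    (x⁻¹ * y).norm + 2 * T2_c x.toWord y.toWord = x.norm + y.norm := by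
  unfold FreeGroup.norm
  rw [FreeGroup.toWord_mul, FreeGroup.toWord_inv]
  exact T2_len _ _ FreeGroup.isReduced_toWord FreeGroup.isReduced_toWord

theorem fD_self (x : FreeGroup ℕ) : fD x x = 0 := by
  unfold fD
  rw [inv_mul_cancel, FreeGroup.norm_one]
  norm_num

theorem fD_symm (x y : FreeGroup ℕ) : fD x y = fD y x := by
  unfold fD
  rw [← FreeGroup.norm_inv_eq (x := x⁻¹ * y), mul_inv_rev, inv_inv]

theorem fD_tri (x y z : FreeGroup ℕ) : fD x z ≤ fD x y + fD y z := by
  unfold fD
  have h : x⁻¹ * z = (x⁻¹ * y) * (y⁻¹ * z) := by group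
  rw [h]
  exact_mod_cast FreeGroup.norm_mul_le _ _

theorem fD_eq (x y : FreeGroup ℕ) (h : fD x y = 0) : x = y := by
  unfold fD at h
  have h1 : (x⁻¹ * y).norm = 0 := by exact_mod_cast h
  rw [FreeGroup.norm_eq_zero] at h1
  exact inv_mul_eq_one.1 h1

theorem fD_linv : LInv fD := by
  intro g x y
  unfold fD
  have h : (g * x)⁻¹ * (g * y) = x⁻¹ * y := by group
  rw [h]

theorem T2_four1 (y z w : FreeGroup ℕ) :
    fD 1 y + fD z w ≤ max (fD 1 z + fD y w) (fD 1 w + fD y z) := by
  have e : ∀ u : FreeGroup ℕ, fD 1 u = (u.norm : ℝ) := by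
    intro u
    unfold fD
    rw [inv_one, one_mul]
  rw [e, e, e]
  unfold fD
  have h1 := T2_norm z w
  have h2 := T2_norm y w
  have h3 := T2_norm y z
  have h4 := T2_c_ultra z.toWord y.toWord w.toWord
  rw [T2_c_comm z.toWord y.toWord] at h4
  have h5 : y.norm + (z⁻¹ * w).norm ≤ z.norm + (y⁻¹ * w).norm ∨
      y.norm + (z⁻¹ * w).norm ≤ w.norm + (y⁻¹ * z).norm := by
    rcases min_le_iff.1 h4 with h | h
    · right
      omega
    · left
      omega
  rcases h5 with h | h
  · apply le_max_of_le_left
    exact_mod_cast h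
  · apply le_max_of_le_right
    exact_mod_cast h

theorem fD_four (x y z w : FreeGroup ℕ) :
    fD x y + fD z w ≤ max (fD x z + fD y w) (fD x w + fD y z) := by
  have h := T2_four1 (x⁻¹ * y) (x⁻¹ * z) (x⁻¹ * w)
  have e : ∀ u : FreeGroup ℕ, fD 1 (x⁻¹ * u) = fD x u := by
    intro u
    have := fD_linv x⁻¹ x u
    rwa [inv_mul_cancel] at this
  rw [e, e, e, fD_linv, fD_linv, fD_linv] at h
  exact h

theorem T2_norm_mk {l : List (ℕ × Bool)} (h : FreeGroup.IsReduced l) :
    (FreeGroup.mk l).norm = l.length := by
  unfold FreeGroup.norm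
  rw [FreeGroup.toWord_mk, h.reduce_eq]

theorem fD_pt (x y : FreeGroup ℕ) (k : ℕ) (hk : (k : ℝ) ≤ fD x y) :
    ∃ z, fD x z = k ∧ fD z y = fD x y - k := by
  have hk' : k ≤ (x⁻¹ * y).toWord.length := by
    unfold fD FreeGroup.norm at hk
    exact_mod_cast hk
  have hred : FreeGroup.IsReduced (x⁻¹ * y).toWord := FreeGroup.isReduced_toWord
  have h1 : FreeGroup.IsReduced ((x⁻¹ * y).toWord.take k) :=
    List.IsChain.take hred k
  have h2 : FreeGroup.IsReduced ((x⁻¹ * y).toWord.drop k) :=
    List.IsChain.drop hred k
  refine ⟨x * FreeGroup.mk ((x⁻¹ * y).toWord.take k), ?_, ?_⟩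
  · unfold fD
    rw [inv_mul_cancel_left, T2_norm_mk h1, List.length_take, min_eq_left hk']
  · have h3 : (x * FreeGroup.mk ((x⁻¹ * y).toWord.take k))⁻¹ * y =
        FreeGroup.mk ((x⁻¹ * y).toWord.drop k) := by
      rw [mul_inv_rev, mul_assoc, inv_mul_eq_iff_eq_mul, FreeGroup.mul_mk, List.take_append_drop,
        FreeGroup.mk_toWord]
    unfold fD
    rw [h3, T2_norm_mk h2, List.length_drop]
    unfold FreeGroup.norm
    rw [Nat.cast_sub hk']

theorem fD_hyp : Hyp fD where
  refl := fD_self
  symm := fD_symm
  tri := fD_tri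
  four := by
    intro x y z w
    have := fD_four x y z w
    linarith
  rough := by
    intro x y t h0 h1
    have h2 : ((⌊t⌋₊ : ℕ) : ℝ) ≤ t := Nat.floor_le h0
    have h3 : t < ⌊t⌋₊ + 1 := Nat.lt_floor_add_one t
    obtain ⟨z, hz1, hz2⟩ := fD_pt x y ⌊t⌋₊ (h2.trans h1)
    refine ⟨z, ?_, ?_⟩
    · rw [hz1, abs_le]
      constructor <;> linarith
    · rw [hz2, abs_le]
      constructor <;> linarith

end Pool.Agent.helper50.BW
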